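import Mathlib

/-!
# S13039, block A4: an `IsRiemannianManifold` is a length space

`I : ModelWithCorners ℝ E H` can not be found by unification in most statements, so it is
explicit in all theorems.
-/

set_option autoImplicit false

open Bundle Set MeasureTheory Manifold Filter
open scoped Manifold ContDiff ENNReal Topology

namespace Pool.Agent.MP_3b24f6_gt.S.Len

variable {E : Type*} [NormedAddCommGroup E] [NormedSpace ℝ E] {H : Type*} [TopologicalSpace H]
  (I : ModelWithCorners ℝ E H) {M : Type*} [MetricSpace M] [ChartedSpace H M]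
  [RiemannianBundle (fun x : M => TangentSpace I x)] [IsRiemannianManifold I M]

include I in
theorem edist_le_path {γ : ℝ → M} {a b : ℝ} (hab : a ≤ b)
    (hγ : ContMDiffOn 𝓘(ℝ, ℝ) I 1 γ (Icc a b)) :
    edist (γ a) (γ b) ≤ pathELength I γ a b := by
  rw [IsRiemannianManifold.out (I := I)]
  exact riemannianEDist_le_pathELength hγ rfl rfl hab

include I in
/-- almost minimising curve, in purely metric terms -/
theorem exists_curve (p q : M) {e : ℝ} (he : 0 < e) :
    ∃ (c : ℝ → M) (l : ℝ → ℝ), ContinuousOn c (Icc 0 1) ∧ l 0 = 0 ∧ l 1 < dist p q + e ∧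
      c 0 = p ∧ c 1 = q ∧
      ∀ s t, 0 ≤ s → s ≤ t → t ≤ 1 → dist (c s) (c t) ≤ l t - l s := by
  have h1 : riemannianEDist I p q < ENNReal.ofReal (dist p q + e) := by
    rw [← IsRiemannianManifold.out (I := I), edist_dist]
    exact (ENNReal.ofReal_lt_ofReal_iff (by positivity)).2 (by linarith)
  obtain ⟨γ, hγ0, hγ1, hs, hl⟩ := exists_lt_of_riemannianEDist_lt h1
  have hfin : ∀ a b, 0 ≤ a → b ≤ 1 → pathELength I γ a b ≠ ⊤ := fun a b ha hb =>
    ne_top_of_le_ne_top (hl.trans ENNReal.ofReal_lt_top).ne (pathELength_mono ha hb)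
  refine ⟨γ, fun t => (pathELength I γ 0 t).toReal, hs.continuousOn, by simp, ?_, hγ0, hγ1, ?_⟩
  · exact (ENNReal.toReal_lt_of_lt_ofReal hl)
  · intro s t h0s hst ht1
    have h2 := edist_le_path I hst (hs.mono (Icc_subset_Icc h0s ht1))
    rw [edist_dist] at h2
    have h3 : dist (γ s) (γ t) ≤ (pathELength I γ s t).toReal :=
      (ENNReal.ofReal_le_iff_le_toReal (hfin s t h0s ht1)).1 h2
    have h4 := pathELength_add (I := I) (γ := γ) h0s hst
    have h5 := congrArg ENNReal.toReal h4
    rw [ENNReal.toReal_add (hfin 0 s le_rfl (hst.trans ht1)) (hfin s t h0s ht1)] at h5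
    simp only
    linarith

include I in
/-- fact (6): points at prescribed distance from `p`, almost on a shortest curve -/
theorem exists_point (p q : M) {r e : ℝ} (hr : 0 ≤ r) (hr' : r ≤ dist p q) (he : 0 < e) :
    ∃ z : M, dist p z = r ∧ dist z q ≤ dist p q - r + e := by
  obtain ⟨c, l, hc, h0, h1, hp, hq, hd⟩ := exists_curve I p q he
  have hcont : ContinuousOn (fun t => dist p (c t)) (Icc 0 1) :=
    continuous_dist.comp_continuousOn (continuousOn_const.prodMk hc)
  have hmem : r ∈ Icc ((fun t => dist p (c t)) 0) ((fun t => dist p (c t)) 1) := by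
    simp only [hp, hq, dist_self]; exact ⟨hr, hr'⟩
  obtain ⟨t, ht, htr⟩ := intermediate_value_Icc zero_le_one hcont hmem
  simp only at htr
  refine ⟨c t, htr, ?_⟩
  have h2 := hd 0 t le_rfl ht.1 ht.2
  have h3 := hd t 1 ht.1 ht.2 le_rfl
  rw [hp, htr, h0] at h2
  rw [hq] at h3
  linarith

include I in
/-- almost midpoints -/
theorem exists_mid (p q : M) {e : ℝ} (he : 0 < e) :
    ∃ z : M, dist p z ≤ dist p q / 2 + e ∧ dist z q ≤ dist p q / 2 + e := by
  obtain ⟨z, h1, h2⟩ := exists_point I p q (r := dist p q / 2) (by positivity)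
    (by linarith [dist_nonneg (x := p) (y := q)]) he
  exact ⟨z, by linarith, by linarith⟩

include I in
/-- fact (P2): chains with small steps, of almost minimal total length -/
theorem exists_chain (p q : M) {δ e : ℝ} (hδ : 0 < δ) (he : 0 < e) :
    ∃ (n : ℕ) (z : ℕ → M), z 0 = p ∧ z n = q ∧ (∀ i < n, dist (z i) (z (i + 1)) < δ) ∧
      ∑ i ∈ Finset.range n, dist (z i) (z (i + 1)) < dist p q + e := by
  obtain ⟨c, l, hc, h0, h1, hp, hq, hd⟩ := exists_curve I p q he
  have huc : UniformContinuousOn c (Icc 0 1) := isCompact_Icc.uniformContinuousOn_of_continuous hc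
  obtain ⟨η, hη, hη'⟩ := Metric.uniformContinuousOn_iff.1 huc δ hδ
  obtain ⟨n, hn⟩ := exists_nat_one_div_lt hη
  refine ⟨n + 1, fun i => c (i / (n + 1 : ℝ)), by simp [hp], ?_, ?_, ?_⟩
  · have : ((n + 1 : ℕ) : ℝ) / (n + 1 : ℝ) = 1 := by
      push_cast; exact div_self (by positivity)
    simp only [this, hq]
  · intro i hi
    have hi' : (i : ℝ) + 1 ≤ n + 1 := by exact_mod_cast hi
    have hn0 : (0 : ℝ) < n + 1 := by positivity
    apply hη'
    · exact ⟨by positivity, (div_le_one hn0).2 (by linarith)⟩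
    · push_cast
      exact ⟨by positivity, (div_le_one hn0).2 hi'⟩
    · rw [Real.dist_eq, ← sub_div, abs_div, abs_of_pos hn0]
      push_cast
      rw [show (i : ℝ) - (i + 1) = -1 by ring, abs_neg, abs_one]
      exact hn
  · have hn0 : (0 : ℝ) < n + 1 := by positivity
    have hstep : ∀ i ∈ Finset.range (n + 1),
        dist (c (i / (n + 1 : ℝ))) (c ((i + 1 : ℕ) / (n + 1 : ℝ))) ≤
          l ((i + 1 : ℕ) / (n + 1 : ℝ)) - l (i / (n + 1 : ℝ)) := by
      intro i hi
      have hi' : (i : ℝ) + 1 ≤ n + 1 := by exact_mod_cast Finset.mem_range.1 hi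
      apply hd
      · positivity
      · push_cast
        gcongr
        linarith
      · push_cast
        exact (div_le_one hn0).2 hi'
    refine (Finset.sum_le_sum hstep).trans_lt ?_
    rw [Finset.sum_range_sub (fun i : ℕ => l (i / (n + 1 : ℝ))) (n + 1)]
    have : ((n + 1 : ℕ) : ℝ) / (n + 1 : ℝ) = 1 := by
      push_cast; exact div_self (by positivity)
    rw [this]
    simp only [Nat.cast_zero, zero_div, h0, sub_zero]
    exact h1

include I in
/-- continuous almost minimising curves: the space is path connected -/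
theorem joined (p q : M) : Joined p q := by
  obtain ⟨c, l, hc, -, -, hp, hq, -⟩ := exists_curve I p q one_pos
  have hc' : Continuous (c ∘ Subtype.val : unitInterval → M) :=
    continuousOn_iff_continuous_domRestrict.1 hc
  exact ⟨⟨⟨c ∘ Subtype.val, hc'⟩, by simp [hp], by simp [hq]⟩⟩

end Pool.Agent.MP_3b24f6_gt.S.Len
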