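import Pool.Agent.Work.MP_3b24f6_gt.S.ModelA
import Pool.Agent.Work.MP_3b24f6_gt.S.Length

set_option autoImplicit false
set_option maxSynthPendingDepth 3

/-! Block A: from Riemannian manifolds of Mathlib to `MetModel`. -/

open Bundle Set MeasureTheory Manifold Filter
open scoped Manifold ContDiff MeasureTheory Topology ENNReal NNReal

namespace Pool.Agent.Work.MP_3b24f6_gt.Froz

namespace ChartA

abbrev EE (d : ℕ) := EuclideanSpace ℝ (Fin d)

/-! ### positive bilinear forms -/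

section bilin
variable {E : Type*} [NormedAddCommGroup E] [NormedSpace ℝ E]

theorem cs_bilin (B : E →L[ℝ] E →L[ℝ] ℝ) (hs : ∀ v w, B v w = B w v)
    (hp : ∀ v, v ≠ 0 → 0 < B v v) (v w : E) : |B v w| ≤ √(B v v) * √(B w w) := by
  have hnn : ∀ v, 0 ≤ B v v := by
    intro v
    by_cases h : v = 0
    · simp [h]
    · exact (hp v h).le
  rw [← Real.sqrt_mul (hnn v)]
  apply Real.abs_le_sqrt
  by_cases h : w = 0
  · simp [h]
  have hw := hp w h
  have h1 := hnn (B w w • v - B v w • w)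
  have h2 : B (B w w • v - B v w • w) (B w w • v - B v w • w) =
      B w w * (B v v * B w w - B v w ^ 2) := by
    simp only [map_sub, map_smul, _root_.sub_apply, _root_.smul_apply,
      smul_eq_mul]
    rw [hs w v]
    ring
  rw [h2] at h1
  have := nonneg_of_mul_nonneg_right h1 hw
  linarith

theorem exists_lower_bilin [FiniteDimensional ℝ E] (B : E →L[ℝ] E →L[ℝ] ℝ)
    (hp : ∀ v, v ≠ 0 → 0 < B v v) : ∃ m : ℝ, 0 < m ∧ ∀ v, m * ‖v‖ ^ 2 ≤ B v v := by
  rcases subsingleton_or_nontrivial E with hE | hE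
  · exact ⟨1, one_pos, fun v => by simp [Subsingleton.elim v 0]⟩
  have hc : Continuous fun v : E => B v v := by fun_prop
  obtain ⟨u, hu, hmin⟩ := (isCompact_sphere (0 : E) 1).exists_isMinOn
    (NormedSpace.sphere_nonempty.2 zero_le_one) hc.continuousOn
  have hu1 : ‖u‖ = 1 := by simpa using hu
  have hu0 : u ≠ 0 := by
    intro h
    rw [h, norm_zero] at hu1
    exact zero_ne_one hu1
  refine ⟨B u u, hp u hu0, fun v => ?_⟩
  by_cases hv : v = 0
  · simp [hv]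
  have hv' : 0 < ‖v‖ := norm_pos_iff.2 hv
  have h1 : B u u ≤ B (‖v‖⁻¹ • v) (‖v‖⁻¹ • v) := by
    apply hmin
    simp [norm_smul, hv'.ne']
  simp only [map_smul, _root_.smul_apply, smul_eq_mul] at h1
  have h2 : B u u * ‖v‖ ^ 2 ≤ (‖v‖⁻¹ * (‖v‖⁻¹ * B v v)) * ‖v‖ ^ 2 := by gcongr
  have h3 : (‖v‖⁻¹ * (‖v‖⁻¹ * B v v)) * ‖v‖ ^ 2 = B v v := by field_simp
  linarith

theorem eventually_bilin [FiniteDimensional ℝ E] (G : E → E →L[ℝ] E →L[ℝ] ℝ) (x : E)
    (hG : ContinuousAt G x) (hp : ∀ v, v ≠ 0 → 0 < G x v v) {ε : ℝ} (hε : 0 < ε) :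
    ∀ᶠ y in 𝓝 x, ∀ v, |G y v v - G x v v| ≤ ε * G x v v := by
  obtain ⟨m, hm, hmB⟩ := exists_lower_bilin (G x) hp
  have h : ∀ᶠ y in 𝓝 x, G y ∈ Metric.ball (G x) (ε * m) :=
    hG.eventually (Metric.ball_mem_nhds (G x) (by positivity))
  filter_upwards [h] with y hy v
  have hy' : ‖G y - G x‖ < ε * m := mem_ball_iff_norm.1 hy
  calc |G y v v - G x v v| = ‖(G y - G x) v v‖ := by
        simp [Real.norm_eq_abs]
    _ ≤ ‖G y - G x‖ * ‖v‖ * ‖v‖ := (G y - G x).le_opNorm₂ v v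
    _ ≤ (ε * m) * ‖v‖ * ‖v‖ := by gcongr
    _ = ε * (m * ‖v‖ ^ 2) := by ring
    _ ≤ ε * G x v v := by
      gcongr
      exact hmB v

end bilin

section
variable {d : ℕ} {M : Type} [MetricSpace M]
    [ChartedSpace (EE d) M] [IsManifold (𝓡 d) ∞ M]
    [RiemannianBundle (fun x : M => TangentSpace (𝓡 d) x)]

/-- the fibre metric as a continuous bilinear form -/
noncomputable def gT (y : M) : TangentSpace (𝓡 d) y →L[ℝ] TangentSpace (𝓡 d) y →L[ℝ] ℝ :=
  innerSL ℝ (E := TangentSpace (𝓡 d) y)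

omit [IsManifold (𝓡 d) ∞ M] in
theorem gT_apply (y : M) (v w : TangentSpace (𝓡 d) y) : gT y v w = inner ℝ v w := rfl

theorem contMDiff_gT [IsContMDiffRiemannianBundle (𝓡 d) ∞ (EE d)
      (fun x : M => TangentSpace (𝓡 d) x)] :
    ContMDiff (𝓡 d) ((𝓡 d).prod 𝓘(ℝ, EE d →L[ℝ] EE d →L[ℝ] ℝ)) ∞
      (fun b : M ↦ TotalSpace.mk' (EE d →L[ℝ] EE d →L[ℝ] ℝ)
        (E := fun b : M => TangentSpace (𝓡 d) b →L[ℝ] TangentSpace (𝓡 d) b →L[ℝ] ℝ) b (gT b)) := by
  obtain ⟨g, hg, hg'⟩ := IsContMDiffRiemannianBundle.exists_contMDiff (IB := 𝓡 d) (n := ∞)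
    (F := EE d) (E := fun x : M => TangentSpace (𝓡 d) x)
  have : g = fun b => gT b := by
    funext b
    ext v w
    rw [gT_apply, hg']
  rw [this] at hg
  exact hg

/-- the metric read in the preferred chart at x0 -/
noncomputable def gC (x₀ : M) (x : EE d) : EE d →L[ℝ] EE d →L[ℝ] ℝ :=
  ContinuousLinearMap.inCoordinates (EE d) (fun x : M => TangentSpace (𝓡 d) x)
    (EE d →L[ℝ] ℝ) (fun x : M => TangentSpace (𝓡 d) x →L[ℝ] ℝ) x₀
      ((extChartAt (𝓡 d) x₀).symm x) x₀ ((extChartAt (𝓡 d) x₀).symm x)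
      (gT ((extChartAt (𝓡 d) x₀).symm x))

theorem contDiffOn_gC [IsContMDiffRiemannianBundle (𝓡 d) ∞ (EE d)
      (fun x : M => TangentSpace (𝓡 d) x)] (x₀ : M) :
    ContDiffOn ℝ ∞ (gC x₀) (extChartAt (𝓡 d) x₀).target := by
  let e := trivializationAt (EE d →L[ℝ] EE d →L[ℝ] ℝ)
    (fun b : M => TangentSpace (𝓡 d) b →L[ℝ] TangentSpace (𝓡 d) b →L[ℝ] ℝ) x₀
  have h1 := (e.contMDiffOn_section_baseSet_iff (IB := 𝓡 d) (n := ∞)
    (s := fun b : M => gT b)).1 contMDiff_gT.contMDiffOn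
  have h2 := h1.comp (contMDiffOn_extChartAt_symm (I := 𝓡 d) (n := ∞) x₀) (by
    intro x hx
    have hy : (extChartAt (𝓡 d) x₀).symm x ∈ (extChartAt (𝓡 d) x₀).source :=
      (extChartAt (𝓡 d) x₀).map_target hx
    rw [extChartAt_source] at hy
    simpa [e] using hy)
  rw [← contMDiffOn_iff_contDiffOn]
  exact h2

/-- `gC` computes the fibre metric. -/
theorem gC_apply (x₀ : M) {x : EE d} (hx : x ∈ (extChartAt (𝓡 d) x₀).target) (v w : EE d) :
    gC x₀ x v w = gT ((extChartAt (𝓡 d) x₀).symm x)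
      ((trivializationAt (EE d) (TangentSpace (𝓡 d)) x₀).symm ((extChartAt (𝓡 d) x₀).symm x) v)
      ((trivializationAt (EE d) (TangentSpace (𝓡 d)) x₀).symm ((extChartAt (𝓡 d) x₀).symm x) w) := by
  have hy : (extChartAt (𝓡 d) x₀).symm x ∈ (extChartAt (𝓡 d) x₀).source :=
      (extChartAt (𝓡 d) x₀).map_target hx
  rw [extChartAt_source] at hy
  rw [gC, inCoordinates_apply_eq₂ (by simpa using hy) (by simpa using hy) (by simp)]
  simp

theorem gT_eq (x₀ : M) {y : M} (hy : y ∈ (chartAt (EE d) x₀).source) (v w : TangentSpace (𝓡 d) y) :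
    gT y v w = gC x₀ (extChartAt (𝓡 d) x₀ y)
      (mfderiv (𝓡 d) 𝓘(ℝ, EE d) (extChartAt (𝓡 d) x₀) y v)
      (mfderiv (𝓡 d) 𝓘(ℝ, EE d) (extChartAt (𝓡 d) x₀) y w) := by
  have hy' : y ∈ (extChartAt (𝓡 d) x₀).source := by rwa [extChartAt_source]
  rw [gC_apply x₀ ((extChartAt (𝓡 d) x₀).map_source hy')]
  rw [(extChartAt (𝓡 d) x₀).left_inv hy']
  have hb : y ∈ (trivializationAt (EE d) (TangentSpace (𝓡 d)) x₀).baseSet := by simpa using hy
  have key : ∀ u : TangentSpace (𝓡 d) y,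
      (trivializationAt (EE d) (TangentSpace (𝓡 d)) x₀).symm y
        (mfderiv (𝓡 d) 𝓘(ℝ, EE d) (extChartAt (𝓡 d) x₀) y u) = u := by
    intro u
    have h := (trivializationAt (EE d) (TangentSpace (𝓡 d)) x₀).symmL_continuousLinearMapAt
      (R := ℝ) hb u
    rw [TangentBundle.continuousLinearMapAt_trivializationAt hy] at h
    rwa [Trivialization.symmL_apply _ hb] at h
  rw [key v, key w]


theorem gC_symm (x₀ : M) {x : EE d} (hx : x ∈ (extChartAt (𝓡 d) x₀).target) (v w : EE d) :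
    gC x₀ x v w = gC x₀ x w v := by
  rw [gC_apply x₀ hx, gC_apply x₀ hx, gT_apply, gT_apply, real_inner_comm]

theorem gC_pos (x₀ : M) {x : EE d} (hx : x ∈ (extChartAt (𝓡 d) x₀).target) {v : EE d}
    (hv : v ≠ 0) : 0 < gC x₀ x v v := by
  have hy : (extChartAt (𝓡 d) x₀).symm x ∈ (extChartAt (𝓡 d) x₀).source :=
      (extChartAt (𝓡 d) x₀).map_target hx
  rw [extChartAt_source] at hy
  have hb : (extChartAt (𝓡 d) x₀).symm x ∈
    (trivializationAt (EE d) (TangentSpace (𝓡 d)) x₀).baseSet := by simpa using hy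
  rw [gC_apply x₀ hx, gT_apply, real_inner_self_eq_norm_sq]
  have hne : (trivializationAt (EE d) (TangentSpace (𝓡 d)) x₀).symm
      ((extChartAt (𝓡 d) x₀).symm x) v ≠ 0 := by
    intro h0
    have h := (trivializationAt (EE d) (TangentSpace (𝓡 d)) x₀).continuousLinearMapAt_symmL
      (R := ℝ) hb v
    rw [Trivialization.symmL_apply _ hb, h0, map_zero] at h
    exact hv h.symm
  positivity

/-- speed in the chart -/
theorem norm_mfderivWithin_sq (x₀ : M) {γ : ℝ → M} {a b t : ℝ} (hab : a < b)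
    (ht : t ∈ Icc a b) (hγ : MDifferentiableWithinAt 𝓘(ℝ, ℝ) (𝓡 d) γ (Icc a b) t)
    (hs : γ t ∈ (chartAt (EE d) x₀).source) :
    ‖mfderivWithin 𝓘(ℝ, ℝ) (𝓡 d) γ (Icc a b) t (1 : ℝ)‖ ^ 2 =
      gC x₀ (extChartAt (𝓡 d) x₀ (γ t))
        (derivWithin (fun t => extChartAt (𝓡 d) x₀ (γ t)) (Icc a b) t)
        (derivWithin (fun t => extChartAt (𝓡 d) x₀ (γ t)) (Icc a b) t) := by
  rw [← real_inner_self_eq_norm_sq, ← gT_apply, gT_eq x₀ hs]
  have hu : UniqueMDiffWithinAt 𝓘(ℝ, ℝ) (Icc a b) t := by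
    rw [uniqueMDiffWithinAt_iff_uniqueDiffWithinAt]
    exact uniqueDiffOn_Icc hab t ht
  have hc : mfderivWithin 𝓘(ℝ, ℝ) 𝓘(ℝ, EE d) (extChartAt (𝓡 d) x₀ ∘ γ) (Icc a b) t =
      (mfderiv (𝓡 d) 𝓘(ℝ, EE d) (extChartAt (𝓡 d) x₀) (γ t)).comp
        (mfderivWithin 𝓘(ℝ, ℝ) (𝓡 d) γ (Icc a b) t) :=
    mfderiv_comp_mfderivWithin t (mdifferentiableAt_extChartAt hs) hγ hu
  have hd : derivWithin (fun t => extChartAt (𝓡 d) x₀ (γ t)) (Icc a b) t =
      mfderiv (𝓡 d) 𝓘(ℝ, EE d) (extChartAt (𝓡 d) x₀) (γ t)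
        (mfderivWithin 𝓘(ℝ, ℝ) (𝓡 d) γ (Icc a b) t (1 : ℝ)) := by
    rw [← fderivWithin_derivWithin]
    rw [mfderivWithin_eq_fderivWithin] at hc
    exact congrArg (fun L => L (1 : ℝ)) hc
  rw [hd]


theorem continuousAt_gC [IsContMDiffRiemannianBundle (𝓡 d) ∞ (EE d)
      (fun x : M => TangentSpace (𝓡 d) x)] (x₀ : M) {x : EE d}
    (hx : x ∈ (extChartAt (𝓡 d) x₀).target) : ContinuousAt (gC x₀) x :=
  (contDiffOn_gC x₀).continuousOn.continuousAt ((isOpen_extChartAt_target x₀).mem_nhds hx)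

omit [RiemannianBundle (fun x : M => TangentSpace (𝓡 d) x)] in
theorem contMDiffAt_chart_comp (x₀ : M) {γ : ℝ → M} {a b : ℝ}
    (hγ : ContMDiffOn 𝓘(ℝ, ℝ) (𝓡 d) 1 γ (Icc a b))
    (hs : ∀ t ∈ Icc a b, γ t ∈ (chartAt (EE d) x₀).source) :
    ContDiffOn ℝ 1 (fun t => extChartAt (𝓡 d) x₀ (γ t)) (Icc a b) := by
  rw [← contMDiffOn_iff_contDiffOn]
  exact (contMDiffOn_extChartAt (n := 1) (x := x₀)).comp hγ hs


omit [IsManifold (𝓡 d) ∞ M] in
/-- every C^1 path bounds the distance -/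
theorem edist_le_pathELength [IsRiemannianManifold (𝓡 d) M] {γ : ℝ → M} {a b : ℝ} (hab : a ≤ b)
    (hγ : ContMDiffOn 𝓘(ℝ, ℝ) (𝓡 d) 1 γ (Icc a b)) :
    edist (γ a) (γ b) ≤ pathELength (𝓡 d) γ a b := by
  rw [IsRiemannianManifold.out (I := 𝓡 d)]
  exact riemannianEDist_le_pathELength hγ rfl rfl hab

theorem enorm_speed (x₀ : M) {γ : ℝ → M} {a b t : ℝ} (hab : a < b)
    (ht : t ∈ Icc a b) (hγ : MDifferentiableWithinAt 𝓘(ℝ, ℝ) (𝓡 d) γ (Icc a b) t)
    (hs : γ t ∈ (chartAt (EE d) x₀).source) :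
    ‖mfderivWithin 𝓘(ℝ, ℝ) (𝓡 d) γ (Icc a b) t (1 : ℝ)‖ₑ =
      ENNReal.ofReal (√(gC x₀ (extChartAt (𝓡 d) x₀ (γ t))
        (derivWithin (fun t => extChartAt (𝓡 d) x₀ (γ t)) (Icc a b) t)
        (derivWithin (fun t => extChartAt (𝓡 d) x₀ (γ t)) (Icc a b) t))) := by
  rw [← norm_mfderivWithin_sq x₀ hab ht hγ hs, Real.sqrt_sq (norm_nonneg _), ofReal_norm]

/-- upper half of (P1) : segments in the chart -/
theorem dist_le_seg [IsRiemannianManifold (𝓡 d) M] (x₀ : M) {y z : EE d} {C : ℝ}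
    (hseg : ∀ t ∈ Icc (0 : ℝ) 1, y + t • (z - y) ∈ (extChartAt (𝓡 d) x₀).target)
    (hC : ∀ t ∈ Icc (0 : ℝ) 1, √(gC x₀ (y + t • (z - y)) (z - y) (z - y)) ≤ C) :
    dist ((extChartAt (𝓡 d) x₀).symm y) ((extChartAt (𝓡 d) x₀).symm z) ≤ C := by
  have hC0 : 0 ≤ C := (Real.sqrt_nonneg _).trans (hC 0 ⟨le_rfl, zero_le_one⟩)
  let γ : ℝ → M := fun t => (extChartAt (𝓡 d) x₀).symm (y + t • (z - y))
  have hγ : ContMDiffOn 𝓘(ℝ, ℝ) (𝓡 d) 1 γ (Icc 0 1) := by
    refine (contMDiffOn_extChartAt_symm (I := 𝓡 d) (n := 1) x₀).comp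
      (t := (extChartAt (𝓡 d) x₀).target) ?_ (fun t ht => hseg t ht)
    rw [contMDiffOn_iff_contDiffOn]
    fun_prop
  have h1 := edist_le_pathELength zero_le_one hγ
  have hsrc : ∀ t ∈ Icc (0 : ℝ) 1, γ t ∈ (chartAt (EE d) x₀).source := by
    intro t ht
    have := (extChartAt (𝓡 d) x₀).map_target (hseg t ht)
    rwa [extChartAt_source] at this
  have hder : ∀ t ∈ Icc (0 : ℝ) 1,
      derivWithin (fun t => extChartAt (𝓡 d) x₀ (γ t)) (Icc 0 1) t = z - y := by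
    intro t ht
    have hc : EqOn (fun t => extChartAt (𝓡 d) x₀ (γ t)) (fun t => y + t • (z - y)) (Icc 0 1) :=
      fun t ht => (extChartAt (𝓡 d) x₀).right_inv (hseg t ht)
    rw [derivWithin_congr hc (hc ht)]
    have hd : HasDerivAt (fun t : ℝ => y + t • (z - y)) ((1 : ℝ) • (z - y)) t :=
      ((hasDerivAt_id t).smul_const (z - y)).const_add y
    rw [one_smul] at hd
    exact hd.hasDerivWithinAt.derivWithin (uniqueDiffOn_Icc zero_lt_one t ht)
  have h2 : pathELength (𝓡 d) γ 0 1 ≤ ENNReal.ofReal C := by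
    rw [pathELength_eq_lintegral_mfderivWithin_Icc]
    calc ∫⁻ t in Icc (0 : ℝ) 1, ‖mfderivWithin 𝓘(ℝ, ℝ) (𝓡 d) γ (Icc 0 1) t (1 : ℝ)‖ₑ
        ≤ ∫⁻ _t in Icc (0 : ℝ) 1, ENNReal.ofReal C := by
          refine setLIntegral_mono' measurableSet_Icc fun t ht => ?_
          rw [enorm_speed x₀ zero_lt_one ht ((hγ t ht).mdifferentiableWithinAt one_ne_zero)
            (hsrc t ht), hder t ht]
          apply ENNReal.ofReal_le_ofReal
          have hr : extChartAt (𝓡 d) x₀ (γ t) = y + t • (z - y) :=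
            (extChartAt (𝓡 d) x₀).right_inv (hseg t ht)
          rw [hr]
          exact hC t ht
      _ = ENNReal.ofReal C := by simp
  have h3 := h1.trans h2
  rw [edist_dist] at h3
  have h4 := (ENNReal.ofReal_le_ofReal_iff hC0).1 h3
  simpa [γ] using h4


/-- lower half of (P1) : a short curve which stays in the region where the metric is almost
constant -/
theorem norm_le_of_curve (x₀ : M) {x : EE d} (hx : x ∈ (extChartAt (𝓡 d) x₀).target)
    {γ : ℝ → M} (hγ : ContMDiffOn 𝓘(ℝ, ℝ) (𝓡 d) 1 γ (Icc 0 1))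
    (hsrc : ∀ t ∈ Icc (0 : ℝ) 1, γ t ∈ (chartAt (EE d) x₀).source) {c r : ℝ} (hc : 0 < c)
    (hr : 0 ≤ r)
    (hlow : ∀ t ∈ Icc (0 : ℝ) 1, ∀ v,
      √(gC x₀ x v v) ≤ c * √(gC x₀ (extChartAt (𝓡 d) x₀ (γ t)) v v))
    (hlen : pathELength (𝓡 d) γ 0 1 ≤ ENNReal.ofReal r) :
    √(gC x₀ x (extChartAt (𝓡 d) x₀ (γ 1) - extChartAt (𝓡 d) x₀ (γ 0))
      (extChartAt (𝓡 d) x₀ (γ 1) - extChartAt (𝓡 d) x₀ (γ 0))) ≤ c * r := by
  set φ : ℝ → EE d := fun t => extChartAt (𝓡 d) x₀ (γ t) with hφ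
  have hφd : ContDiffOn ℝ 1 φ (Icc 0 1) := contMDiffAt_chart_comp x₀ hγ hsrc
  set w : EE d := φ 1 - φ 0 with hw
  set B := gC x₀ x with hB
  have hBs : ∀ v w, B v w = B w v := gC_symm x₀ hx
  have hBp : ∀ v, v ≠ 0 → 0 < B v v := fun v hv => gC_pos x₀ hx hv
  set N : ℝ := √(B w w) with hN
  have hBw : 0 ≤ B w w := by
    by_cases h : w = 0
    · simp [h]
    · exact (hBp w h).le
  have hNN : N * N = B w w := Real.mul_self_sqrt hBw
  have hN0 : 0 ≤ N := Real.sqrt_nonneg _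
  have hf : ContDiffOn ℝ 1 (fun t => B w (φ t)) (Icc 0 1) :=
    (B w).contDiff.comp_contDiffOn hφd
  have h1 := enorm_sub_le_lintegral_derivWithin_Icc_of_contDiffOn_Icc hf zero_le_one
  have h2 : ‖B w (φ 1) - B w (φ 0)‖ₑ = ENNReal.ofReal (N * N) := by
    rw [← map_sub, ← hw, hNN, ← ofReal_norm, Real.norm_of_nonneg hBw]
  have h3 : ∫⁻ t in Icc (0 : ℝ) 1, ‖derivWithin (fun t => B w (φ t)) (Icc 0 1) t‖ₑ ≤
      ENNReal.ofReal (N * c) * pathELength (𝓡 d) γ 0 1 := by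
    rw [pathELength_eq_lintegral_mfderivWithin_Icc, ← lintegral_const_mul' _ _ ENNReal.ofReal_ne_top]
    refine setLIntegral_mono' measurableSet_Icc fun t ht => ?_
    have hsp := enorm_speed x₀ zero_lt_one ht ((hγ t ht).mdifferentiableWithinAt one_ne_zero)
            (hsrc t ht)
    have hd : derivWithin (fun t => B w (φ t)) (Icc 0 1) t = B w (derivWithin φ (Icc 0 1) t) := by
      have h4 : HasDerivWithinAt φ (derivWithin φ (Icc 0 1) t) (Icc 0 1) t :=
        ((hφd t ht).differentiableWithinAt one_ne_zero).hasDerivWithinAt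
      exact ((B w).hasFDerivAt.comp_hasDerivWithinAt t h4).derivWithin
        (uniqueDiffOn_Icc zero_lt_one t ht)
    change _ ≤ ENNReal.ofReal (N * c) *
      ‖mfderivWithin 𝓘(ℝ, ℝ) (𝓡 d) γ (Icc 0 1) t (1 : ℝ)‖ₑ
    rw [hsp, hd, ← ENNReal.ofReal_mul (by positivity), ← ofReal_norm, Real.norm_eq_abs]
    apply ENNReal.ofReal_le_ofReal
    calc |B w (derivWithin φ (Icc 0 1) t)| ≤ N * √(B (derivWithin φ (Icc 0 1) t)
          (derivWithin φ (Icc 0 1) t)) := cs_bilin B hBs hBp _ _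
      _ ≤ N * (c * √(gC x₀ (φ t) (derivWithin φ (Icc 0 1) t)
          (derivWithin φ (Icc 0 1) t))) := by
          gcongr
          exact hlow t ht _
      _ = _ := by rw [mul_assoc]
  rw [h2] at h1
  have h5 : ENNReal.ofReal (N * N) ≤ ENNReal.ofReal (N * c * r) := by
    rw [ENNReal.ofReal_mul (by positivity : 0 ≤ N * c)]
    exact (h1.trans h3).trans (by gcongr)
  rw [ENNReal.ofReal_le_ofReal_iff (by positivity)] at h5
  rcases hN0.eq_or_lt with h6 | h6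
  · rw [← h6]; positivity
  · nlinarith


/-- (P1) -/
theorem near [IsContMDiffRiemannianBundle (𝓡 d) ∞ (EE d) (fun x : M => TangentSpace (𝓡 d) x)]
    [IsRiemannianManifold (𝓡 d) M] (x₀ : M) {x : EE d}
    (hx : x ∈ (extChartAt (𝓡 d) x₀).target) {ε : ℝ} (hε : 0 < ε) :
    ∃ δ, 0 < δ ∧ Metric.ball x δ ⊆ (extChartAt (𝓡 d) x₀).target ∧
    ∀ y ∈ Metric.ball x δ, ∀ z ∈ Metric.ball x δ,
      (1 - ε) * gnorm (gC x₀) x (y - z) ≤
        dist ((extChartAt (𝓡 d) x₀).symm y) ((extChartAt (𝓡 d) x₀).symm z) ∧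
      dist ((extChartAt (𝓡 d) x₀).symm y) ((extChartAt (𝓡 d) x₀).symm z) ≤
        (1 + ε) * gnorm (gC x₀) x (y - z) := by
  set η : ℝ := min ε (1 / 2) with hη
  have hη0 : 0 < η := lt_min hε (by norm_num)
  have hη1 : η ≤ 1 / 2 := min_le_right _ _
  have hηε : η ≤ ε := min_le_left _ _
  have hpos : ∀ v, 0 ≤ gC x₀ x v v := by
    intro v
    by_cases h : v = 0
    · simp [h]
    · exact (gC_pos x₀ hx h).le
  have hev1 : ∀ᶠ y in 𝓝 x, y ∈ (extChartAt (𝓡 d) x₀).target :=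
    (isOpen_extChartAt_target x₀).mem_nhds hx
  have hev2 := eventually_bilin (gC x₀) x (continuousAt_gC x₀ hx)
    (fun v hv => gC_pos x₀ hx hv) hη0
  obtain ⟨δ₁, hδ₁, hb⟩ := Metric.eventually_nhds_iff_ball.1 (hev1.and hev2)
  have hV : IsOpen ((chartAt (EE d) x₀).source ∩ extChartAt (𝓡 d) x₀ ⁻¹' Metric.ball x δ₁) :=
    isOpen_extChartAt_preimage x₀ Metric.isOpen_ball
  have hxs : (extChartAt (𝓡 d) x₀).symm x ∈ (chartAt (EE d) x₀).source := by
    have := (extChartAt (𝓡 d) x₀).map_target hx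
    rwa [extChartAt_source] at this
  have hxV : (extChartAt (𝓡 d) x₀).symm x ∈
      ((chartAt (EE d) x₀).source ∩ extChartAt (𝓡 d) x₀ ⁻¹' Metric.ball x δ₁) := by
    refine ⟨hxs, ?_⟩
    rw [mem_preimage, (extChartAt (𝓡 d) x₀).right_inv hx]
    exact Metric.mem_ball_self hδ₁
  obtain ⟨ρ, hρ, hρV⟩ := Metric.isOpen_iff.1 hV _ hxV
  have hcont : ContinuousAt (extChartAt (𝓡 d) x₀).symm x := continuousAt_extChartAt_symm'' hx
  obtain ⟨δ₂, hδ₂, hb₂⟩ := Metric.continuousAt_iff.1 hcont (ρ / 3) (by positivity)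
  refine ⟨min δ₁ δ₂, lt_min hδ₁ hδ₂, fun y hy => (hb y (Metric.ball_subset_ball
    (min_le_left _ _) hy)).1, fun y hy z hz => ?_⟩
  have hy1 := Metric.ball_subset_ball (min_le_left _ _) hy
  have hz1 := Metric.ball_subset_ball (min_le_left _ _) hz
  have hy2 : dist y x < δ₂ := Metric.ball_subset_ball (min_le_right _ _) hy
  have hz2 : dist z x < δ₂ := Metric.ball_subset_ball (min_le_right _ _) hz
  have hg0 : 0 ≤ gnorm (gC x₀) x (y - z) := Real.sqrt_nonneg _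
  constructor
  · -- lower bound
    have hyd := hb₂ hy2
    have hzd := hb₂ hz2
    set d₀ := dist ((extChartAt (𝓡 d) x₀).symm y) ((extChartAt (𝓡 d) x₀).symm z) with hd₀
    have hd1 : d₀ < 2 * ρ / 3 := by
      have := dist_triangle_right ((extChartAt (𝓡 d) x₀).symm y) ((extChartAt (𝓡 d) x₀).symm z)
        ((extChartAt (𝓡 d) x₀).symm x)
      linarith
    obtain ⟨r₁, hr₁, hr₁'⟩ := exists_between hd1
    have hmain : (1 - η) * gnorm (gC x₀) x (y - z) ≤ d₀ := by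
      refine le_of_forall_gt_imp_ge_of_dense fun r' hr' => ?_
      set r := min r' r₁ with hr
      have hrd : d₀ < r := lt_min hr' hr₁
      have hr0 : 0 ≤ r := dist_nonneg.trans hrd.le
      have hrρ : r < 2 * ρ / 3 := (min_le_right _ _).trans_lt hr₁'
      have h1 : riemannianEDist (𝓡 d) ((extChartAt (𝓡 d) x₀).symm z)
          ((extChartAt (𝓡 d) x₀).symm y) < ENNReal.ofReal r := by
        rw [← IsRiemannianManifold.out (I := 𝓡 d), edist_dist, dist_comm]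
        exact (ENNReal.ofReal_lt_ofReal_iff_of_nonneg dist_nonneg).2 hrd
      obtain ⟨γ, hγ0, hγ1, hγ, hlen⟩ := exists_lt_of_riemannianEDist_lt h1
      have hin : ∀ t ∈ Icc (0 : ℝ) 1, γ t ∈
          ((chartAt (EE d) x₀).source ∩ extChartAt (𝓡 d) x₀ ⁻¹' Metric.ball x δ₁) := by
        intro t ht
        apply hρV
        have h2 : edist (γ 0) (γ t) < ENNReal.ofReal r :=
          ((edist_le_pathELength ht.1 (hγ.mono (Icc_subset_Icc_right ht.2))).trans
            (pathELength_mono le_rfl ht.2)).trans_lt hlen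
        rw [edist_dist, ENNReal.ofReal_lt_ofReal_iff_of_nonneg dist_nonneg, hγ0] at h2
        rw [Metric.mem_ball]
        have h3 := dist_triangle_left (γ t) ((extChartAt (𝓡 d) x₀).symm x)
          ((extChartAt (𝓡 d) x₀).symm z)
        linarith
      have hc : (0 : ℝ) < (1 - η)⁻¹ := inv_pos.2 (by linarith)
      have h4 := norm_le_of_curve x₀ hx hγ (fun t ht => (hin t ht).1) (c := (1 - η)⁻¹) hc hr0
        (by
          intro t ht v
          have h5 := (hb _ (hin t ht).2).2 v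
          have h6 := (abs_le.1 h5).1
          have h7 : gC x₀ x v v ≤ (1 - η)⁻¹ * gC x₀ (extChartAt (𝓡 d) x₀ (γ t)) v v := by
            rw [inv_mul_eq_div, le_div_iff₀ (by linarith)]
            linarith
          have h8 : 0 ≤ gC x₀ (extChartAt (𝓡 d) x₀ (γ t)) v v := by
            by_contra hcon
            push Not at hcon
            have := mul_neg_of_pos_of_neg hc hcon
            linarith [hpos v]
          have h9 : (1 : ℝ) ≤ (1 - η)⁻¹ := (one_le_inv₀ (by linarith)).2 (by linarith)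
          calc √(gC x₀ x v v) ≤ √((1 - η)⁻¹ ^ 2 * gC x₀ (extChartAt (𝓡 d) x₀ (γ t)) v v) := by
                apply Real.sqrt_le_sqrt
                refine h7.trans ?_
                gcongr
                nlinarith
            _ = (1 - η)⁻¹ * √(gC x₀ (extChartAt (𝓡 d) x₀ (γ t)) v v) := by
                rw [Real.sqrt_mul (by positivity), Real.sqrt_sq hc.le])
        hlen.le
      rw [hγ0, hγ1, (extChartAt (𝓡 d) x₀).right_inv (hb y hy1).1,
        (extChartAt (𝓡 d) x₀).right_inv (hb z hz1).1] at h4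
      have h10 : gnorm (gC x₀) x (y - z) ≤ (1 - η)⁻¹ * r := h4
      rw [inv_mul_eq_div, le_div_iff₀ (by linarith)] at h10
      have h11 : r ≤ r' := min_le_left _ _
      linarith
    refine le_trans ?_ hmain
    gcongr
  · -- upper bound
    rw [dist_comm]
    have hup : dist ((extChartAt (𝓡 d) x₀).symm z) ((extChartAt (𝓡 d) x₀).symm y) ≤
        (1 + η) * gnorm (gC x₀) x (y - z) := by
      have hseg : ∀ t ∈ Icc (0 : ℝ) 1, z + t • (y - z) ∈ Metric.ball x δ₁ := fun t ht =>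
        (convex_ball x δ₁).add_smul_sub_mem hz1 hy1 ht
      refine dist_le_seg x₀ (fun t ht => (hb _ (hseg t ht)).1) (fun t ht => ?_)
      have h5 := (hb _ (hseg t ht)).2 (y - z)
      have h6 := (abs_le.1 h5).2
      calc √(gC x₀ (z + t • (y - z)) (y - z) (y - z))
          ≤ √((1 + η) ^ 2 * gC x₀ x (y - z) (y - z)) := by
            apply Real.sqrt_le_sqrt
            nlinarith [hpos (y - z), mul_nonneg hη0.le (hpos (y - z)),
              mul_nonneg (sq_nonneg η) (hpos (y - z))]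
        _ = (1 + η) * gnorm (gC x₀) x (y - z) := by
            rw [Real.sqrt_mul (by positivity), Real.sqrt_sq (by linarith)]
            rfl
    refine hup.trans ?_
    gcongr

end
end ChartA

section final
variable {d : ℕ} {M : Type} [MetricSpace M]
    [ChartedSpace (EuclideanSpace ℝ (Fin d)) M] [IsManifold (𝓡 d) ∞ M]
    [RiemannianBundle (fun x : M => TangentSpace (𝓡 d) x)]
    [IsContMDiffRiemannianBundle (𝓡 d) ∞ (EuclideanSpace ℝ (Fin d))
      (fun x : M => TangentSpace (𝓡 d) x)]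
    [IsRiemannianManifold (𝓡 d) M]

theorem metModel_gC (x₀ : M) :
      MetModel M (extChartAt (𝓡 d) x₀).target (ChartA.gC x₀) (extChartAt (𝓡 d) x₀).symm where
  met :=
    { isOpen := isOpen_extChartAt_target x₀
      smooth := ChartA.contDiffOn_gC x₀
      symm := fun _ hy => ChartA.gC_symm x₀ hy
      pos := fun _ hy _ hu => ChartA.gC_pos x₀ hy hu }
  inj := (extChartAt (𝓡 d) x₀).symm.injOn
  cont := continuousOn_extChartAt_symm x₀
  isOpen_image := by
    intro V hV hVo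
    have h : (extChartAt (𝓡 d) x₀).symm '' V =
        (chartAt (EuclideanSpace ℝ (Fin d)) x₀).source ∩ extChartAt (𝓡 d) x₀ ⁻¹' V := by
      rw [← extChartAt_source (𝓡 d)]
      exact (extChartAt (𝓡 d) x₀).symm_image_eq_source_inter_preimage hV
    rw [h]
    exact isOpen_extChartAt_preimage x₀ hVo
  near := fun x hx ε hε => ChartA.near x₀ hx hε
  chain := fun p q δ hδ ε hε => Pool.Agent.MP_3b24f6_gt.S.Len.exists_chain (𝓡 d) p q hδ hε

theorem exists_metModel (_hc : ConnectedSpace M) (x₀ : M) :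
    ∃ g : EuclideanSpace ℝ (Fin d) → EuclideanSpace ℝ (Fin d) →L[ℝ]
      EuclideanSpace ℝ (Fin d) →L[ℝ] ℝ,
      MetModel M (extChartAt (𝓡 d) x₀).target g (extChartAt (𝓡 d) x₀).symm :=
  ⟨ChartA.gC x₀, metModel_gC x₀⟩

end final

end Pool.Agent.Work.MP_3b24f6_gt.Froz
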