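import Pool.Agent.Work.MP_3b24f6_gt.S.FlowG

set_option autoImplicit false

open Set Filter Topology MeasureTheory
open scoped ContDiff Manifold

namespace Pool.Agent.Work.MP_3b24f6_gt.Flow

universe u

/-- **Global flow** of a smooth globally Lipschitz vector field: it is smooth in all variables. -/
theorem global_flow {E : Type u} [NormedAddCommGroup E] [NormedSpace ℝ E] [CompleteSpace E]
    {f : E → E} (hf : ContDiff ℝ ∞ f) (hL : ∃ K : ℝ, ∀ x y, ‖f x - f y‖ ≤ K * ‖x - y‖) :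
    ∃ φ : ℝ → E → E, ContDiff ℝ ∞ (Function.uncurry φ) ∧ (∀ x, φ 0 x = x) ∧
      (∀ t x, HasDerivAt (fun s => φ s x) (f (φ t x)) t) ∧
      (∀ s t x, φ (s + t) x = φ s (φ t x)) ∧
      (∀ γ : ℝ → E, (∀ t, HasDerivAt γ (f (γ t)) t) → ∀ t, γ t = φ t (γ 0)) ∧
      (∀ γ : ℝ → E, ∀ T : ℝ, ContinuousOn γ (Icc 0 T) →
        (∀ t ∈ Ico 0 T, HasDerivWithinAt γ (f (γ t)) (Ici t) t) →
        ∀ t ∈ Icc 0 T, γ t = φ t (γ 0)) := by
  obtain ⟨K, hK⟩ := hL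
  set g : C(E, E) := ⟨f, hf.continuous⟩ with hg
  have hgL : Lip g := ⟨max K 0, le_max_right _ _, fun x y => (hK x y).trans
    (mul_le_mul_of_nonneg_right (le_max_left _ _) (norm_nonneg _))⟩
  exact ⟨phi g hgL, phi_contDiff g hgL hf, phi_zero g hgL, phi_hasDerivAt g hgL hf,
    phi_add g hgL hf, fun γ hγ => phi_unique g hgL hf hγ,
    fun γ T hc hγ => phi_unique_Icc g hgL hf hc hγ⟩

section Loc

variable {E : Type u} [NormedAddCommGroup E] [NormedSpace ℝ E] [FiniteDimensional ℝ E]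

theorem exists_cutoff {K U : Set E} (hK : IsCompact K) (hU : IsOpen U) (hKU : K ⊆ U) :
    ∃ χ : E → ℝ, ContDiff ℝ ∞ χ ∧ HasCompactSupport χ ∧ tsupport χ ⊆ U ∧
      (∃ O : Set E, IsOpen O ∧ K ⊆ O ∧ O ⊆ U ∧ ∀ x ∈ O, χ x = 1) ∧
      ∀ x, χ x ∈ Icc (0 : ℝ) 1 := by
  haveI : ProperSpace E := FiniteDimensional.proper ℝ E
  obtain ⟨V, hVo, hKV, hVU, hVc⟩ := exists_open_between_and_isCompact_closure hK hU hKU
  obtain ⟨χ, h0, h1, h2⟩ := exists_contMDiffMap_zero_one_nhds_of_isClosed (n := (⊤ : ℕ∞)) 𝓘(ℝ, E)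
    hVo.isClosed_compl hK.isClosed (disjoint_compl_left_iff_subset.2 hKV)
  have hs : Function.support χ ⊆ V := by
    intro x hx
    by_contra hxV
    exact hx (h0.self_of_nhdsSet x hxV)
  have ht : tsupport χ ⊆ closure V := closure_mono hs
  obtain ⟨O, hO, hKO, hO1⟩ := mem_nhdsSet_iff_exists.1 h1
  exact ⟨χ, χ.contMDiff.contDiff, hVc.of_isClosed_subset (isClosed_tsupport _) ht, ht.trans hVU,
    ⟨O ∩ U, hO.inter hU, subset_inter hKO hKU, inter_subset_right, fun x hx => hO1 hx.1⟩, h2⟩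

theorem exists_extension {F : Type*} [NormedAddCommGroup F] [NormedSpace ℝ F]
    {K U : Set E} (hK : IsCompact K) (hU : IsOpen U) (hKU : K ⊆ U)
    {f : E → F} (hf : ContDiffOn ℝ ∞ f U) :
    ∃ g : E → F, ContDiff ℝ ∞ g ∧ HasCompactSupport g ∧ tsupport g ⊆ U ∧
      ∃ O : Set E, IsOpen O ∧ K ⊆ O ∧ O ⊆ U ∧ EqOn g f O := by
  obtain ⟨χ, h1, h2, h3, ⟨O, hO, hKO, hOU, hO1⟩, -⟩ := exists_cutoff hK hU hKU
  have hsub : tsupport (fun x => χ x • f x) ⊆ tsupport χ := by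
    refine closure_mono fun x hx => ?_
    intro h
    exact hx (by simp only [h, zero_smul])
  refine ⟨fun x => χ x • f x, ?_, h2.of_isClosed_subset (isClosed_tsupport _) hsub,
    hsub.trans h3, O, hO, hKO, hOU, fun x hx => by simp only [hO1 x hx, one_smul]⟩
  rw [contDiff_iff_contDiffAt]
  intro x
  by_cases hx : x ∈ tsupport χ
  · exact h1.contDiffAt.smul (hf.contDiffAt (hU.mem_nhds (h3 hx)))
  · refine (contDiffAt_const (c := (0 : F))).congr_of_eventuallyEq ?_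
    filter_upwards [(isClosed_tsupport χ).isOpen_compl.mem_nhds hx] with y hy
    rw [image_eq_zero_of_notMem_tsupport hy, zero_smul]

theorem lip_of_compact {g : E → E} (hg : ContDiff ℝ ∞ g) (hc : HasCompactSupport g) :
    ∃ K : ℝ, ∀ x y, ‖g x - g y‖ ≤ K * ‖x - y‖ := by
  obtain ⟨C, hC⟩ := ContDiff.lipschitzWith_of_hasCompactSupport hc hg (by simp)
  exact ⟨C, fun x y => by
    have := hC.dist_le_mul x y
    rwa [dist_eq_norm, dist_eq_norm] at this⟩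

/-- **Local flow** near a given trajectory of a smooth vector field on an open set. -/
theorem local_flow {U : Set E} (hU : IsOpen U) {f : E → E} (hf : ContDiffOn ℝ ∞ f U)
    {γ : ℝ → E} {T : ℝ} (hT : 0 ≤ T) (hc : ContinuousOn γ (Icc 0 T))
    (hγ : ∀ t ∈ Ico 0 T, HasDerivWithinAt γ (f (γ t)) (Ici t) t)
    (hγU : ∀ t ∈ Icc 0 T, γ t ∈ U) :
    ∃ V : Set E, IsOpen V ∧ γ 0 ∈ V ∧ V ⊆ U ∧ ∃ δ : ℝ, 0 < δ ∧ ∃ φ : ℝ → E → E,
      ContDiff ℝ ∞ (Function.uncurry φ) ∧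
      (∀ x, φ 0 x = x) ∧
      (∀ t ∈ Ioo (-δ) (T + δ), ∀ x ∈ V, φ t x ∈ U) ∧
      (∀ t ∈ Ioo (-δ) (T + δ), ∀ x ∈ V, HasDerivAt (fun s => φ s x) (f (φ t x)) t) ∧
      (∀ s t x, φ (s + t) x = φ s (φ t x)) ∧
      ∀ t ∈ Icc 0 T, φ t (γ 0) = γ t := by
  have hK : IsCompact (γ '' Icc 0 T) := isCompact_Icc.image_of_continuousOn hc
  have hKU : γ '' Icc 0 T ⊆ U := by
    rintro _ ⟨t, ht, rfl⟩
    exact hγU t ht
  obtain ⟨g, hg, hgc, -, O, hO, hKO, hOU, hgf⟩ := exists_extension hK hU hKU hf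
  obtain ⟨φ, h1, h2, h3, h4, -, h5⟩ := global_flow hg (lip_of_compact hg hgc)
  have h6 : ∀ t ∈ Icc 0 T, γ t = φ t (γ 0) := by
    refine h5 γ T hc fun t ht => ?_
    rw [hgf (hKO ⟨t, Ico_subset_Icc_self ht, rfl⟩)]
    exact hγ t ht
  have hcont : Continuous (Function.uncurry φ) := h1.continuous
  have hW : IsOpen (Function.uncurry φ ⁻¹' O) := hO.preimage hcont
  have hsub : Icc 0 T ×ˢ {γ 0} ⊆ Function.uncurry φ ⁻¹' O := by
    rintro ⟨t, x⟩ ⟨ht, hx⟩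
    simp only [mem_singleton_iff] at hx
    subst hx
    show φ t (γ 0) ∈ O
    rw [← h6 t ht]
    exact hKO ⟨t, ht, rfl⟩
  obtain ⟨I, V, hI, hV, hTI, hxV, hIV⟩ := generalized_tube_lemma isCompact_Icc
    isCompact_singleton hW hsub
  obtain ⟨δ1, hδ1, hb1⟩ := Metric.isOpen_iff.1 hI 0 (hTI ⟨le_rfl, hT⟩)
  obtain ⟨δ2, hδ2, hb2⟩ := Metric.isOpen_iff.1 hI T (hTI ⟨hT, le_rfl⟩)
  have hγ0 : γ 0 ∈ U := hγU 0 ⟨le_rfl, hT⟩
  have hI2 : ∀ t ∈ Ioo (-min δ1 δ2) (T + min δ1 δ2), t ∈ I := by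
    intro t ht
    by_cases ht0 : t < 0
    · refine hb1 ?_
      rw [Metric.mem_ball, Real.dist_eq, sub_zero, abs_of_neg ht0]
      linarith [ht.1, min_le_left δ1 δ2]
    by_cases htT : T < t
    · refine hb2 ?_
      rw [Metric.mem_ball, Real.dist_eq, abs_of_pos (sub_pos.2 htT)]
      linarith [ht.2, min_le_right δ1 δ2]
    exact hTI ⟨not_lt.1 ht0, not_lt.1 htT⟩
  have h7 : ∀ t ∈ Ioo (-min δ1 δ2) (T + min δ1 δ2), ∀ x ∈ V ∩ U, φ t x ∈ O := fun t ht x hx =>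
    hIV (show (t, x) ∈ I ×ˢ V from ⟨hI2 t ht, hx.1⟩)
  refine ⟨V ∩ U, hV.inter hU, ⟨hxV rfl, hγ0⟩, inter_subset_right, min δ1 δ2,
    lt_min hδ1 hδ2, φ, h1, h2, fun t ht x hx => hOU (h7 t ht x hx), ?_, h4,
    fun t ht => (h6 t ht).symm⟩
  intro t ht x hx
  rw [← hgf (h7 t ht x hx)]
  exact h3 t x

/-- uniqueness for a smooth vector field on an open set, on a closed interval -/
theorem ode_unique_Icc {U : Set E} (hU : IsOpen U) {f : E → E} (hf : ContDiffOn ℝ ∞ f U)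
    {β₁ β₂ : ℝ → E} {a b t₀ : ℝ}
    (h1 : ∀ t ∈ Icc a b, HasDerivWithinAt β₁ (f (β₁ t)) (Icc a b) t) (h1U : ∀ t ∈ Icc a b, β₁ t ∈ U)
    (h2 : ∀ t ∈ Icc a b, HasDerivWithinAt β₂ (f (β₂ t)) (Icc a b) t) (h2U : ∀ t ∈ Icc a b, β₂ t ∈ U)
    (ht₀ : t₀ ∈ Icc a b) (heq : β₁ t₀ = β₂ t₀) : EqOn β₁ β₂ (Icc a b) := by
  have hc1 : ContinuousOn β₁ (Icc a b) := fun t ht => (h1 t ht).continuousWithinAt
  have hc2 : ContinuousOn β₂ (Icc a b) := fun t ht => (h2 t ht).continuousWithinAt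
  have hK : IsCompact (β₁ '' Icc a b ∪ β₂ '' Icc a b) :=
    (isCompact_Icc.image_of_continuousOn hc1).union (isCompact_Icc.image_of_continuousOn hc2)
  have hKU : β₁ '' Icc a b ∪ β₂ '' Icc a b ⊆ U := by
    rintro _ (⟨t, ht, rfl⟩ | ⟨t, ht, rfl⟩)
    · exact h1U t ht
    · exact h2U t ht
  obtain ⟨g, hg, hgc, -, O, hO, hKO, hOU, hgf⟩ := exists_extension hK hU hKU hf
  obtain ⟨C, hC⟩ := ContDiff.lipschitzWith_of_hasCompactSupport hgc hg (by simp)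
  have hab : a ≤ b := ht₀.1.trans ht₀.2
  have e1 : ∀ t ∈ Icc a b, f (β₁ t) = g (β₁ t) := fun t ht => (hgf (hKO (Or.inl ⟨t, ht, rfl⟩))).symm
  have e2 : ∀ t ∈ Icc a b, f (β₂ t) = g (β₂ t) := fun t ht => (hgf (hKO (Or.inr ⟨t, ht, rfl⟩))).symm
  have hr : ∀ {β : ℝ → E} {w : E} {t : ℝ}, t ∈ Ico a b → HasDerivWithinAt β w (Icc a b) t →
      HasDerivWithinAt β w (Ici t) t := by
    intro β w t ht h
    refine h.mono_of_mem_nhdsWithin ?_
    exact mem_of_superset (Icc_mem_nhdsGE ht.2) (Icc_subset_Icc_left ht.1)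
  have hl : ∀ {β : ℝ → E} {w : E} {t : ℝ}, t ∈ Ioc a b → HasDerivWithinAt β w (Icc a b) t →
      HasDerivWithinAt β w (Iic t) t := by
    intro β w t ht h
    refine h.mono_of_mem_nhdsWithin ?_
    exact mem_of_superset (Icc_mem_nhdsLE ht.1) (Icc_subset_Icc_right ht.2)
  rw [← Icc_union_Icc_eq_Icc ht₀.1 ht₀.2]
  refine EqOn.union ?_ ?_
  · have hs : Icc a t₀ ⊆ Icc a b := Icc_subset_Icc_right ht₀.2
    have hs' : ∀ {t}, t ∈ Ioc a t₀ → t ∈ Ioc a b := fun ht => ⟨ht.1, ht.2.trans ht₀.2⟩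
    exact ODE_solution_unique_of_mem_Icc_left (v := fun _ => g) (s := fun _ => univ) (K := C)
      (fun _ _ => hC.lipschitzOnWith) (hc1.mono hs)
      (fun t ht => e1 t (Ioc_subset_Icc_self (hs' ht)) ▸
        hl (hs' ht) (h1 t (Ioc_subset_Icc_self (hs' ht)))) (fun _ _ => mem_univ _) (hc2.mono hs)
      (fun t ht => e2 t (Ioc_subset_Icc_self (hs' ht)) ▸
        hl (hs' ht) (h2 t (Ioc_subset_Icc_self (hs' ht)))) (fun _ _ => mem_univ _) heq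
  · have hs : Icc t₀ b ⊆ Icc a b := Icc_subset_Icc_left ht₀.1
    have hs' : ∀ {t}, t ∈ Ico t₀ b → t ∈ Ico a b := fun ht => ⟨ht₀.1.trans ht.1, ht.2⟩
    exact ODE_solution_unique_of_mem_Icc_right (v := fun _ => g) (s := fun _ => univ) (K := C)
      (fun _ _ => hC.lipschitzOnWith) (hc1.mono hs)
      (fun t ht => e1 t (Ico_subset_Icc_self (hs' ht)) ▸
        hr (hs' ht) (h1 t (Ico_subset_Icc_self (hs' ht)))) (fun _ _ => mem_univ _) (hc2.mono hs)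
      (fun t ht => e2 t (Ico_subset_Icc_self (hs' ht)) ▸
        hr (hs' ht) (h2 t (Ico_subset_Icc_self (hs' ht)))) (fun _ _ => mem_univ _) heq

/-- uniqueness for a smooth vector field on an open set, on an order-connected set of times -/
theorem ode_unique {U : Set E} (hU : IsOpen U) {f : E → E} (hf : ContDiffOn ℝ ∞ f U)
    {β₁ β₂ : ℝ → E} {J : Set ℝ} (hJ : J.OrdConnected) {t₀ : ℝ}
    (h1 : ∀ t ∈ J, HasDerivWithinAt β₁ (f (β₁ t)) J t) (h1U : ∀ t ∈ J, β₁ t ∈ U)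
    (h2 : ∀ t ∈ J, HasDerivWithinAt β₂ (f (β₂ t)) J t) (h2U : ∀ t ∈ J, β₂ t ∈ U)
    (ht₀ : t₀ ∈ J) (heq : β₁ t₀ = β₂ t₀) : EqOn β₁ β₂ J := by
  intro t ht
  have hs : uIcc t₀ t ⊆ J := hJ.uIcc_subset ht₀ ht
  exact ode_unique_Icc hU hf (fun r hr => (h1 r (hs hr)).mono hs) (fun r hr => h1U r (hs hr))
    (fun r hr => (h2 r (hs hr)).mono hs) (fun r hr => h2U r (hs hr)) left_mem_uIcc heq
    right_mem_uIcc

/-- local flow near a zero of the vector field, on the unit time interval (form used for the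
exponential map) -/
theorem local_flow_const {W : Set E} (hW : IsOpen W) {F : E → E} (hF : ContDiffOn ℝ ∞ F W)
    {z₀ : E} (hz : z₀ ∈ W) (h0 : F z₀ = 0) :
    ∃ V ∈ 𝓝 z₀, ∃ δ > (0 : ℝ), ∃ φ : ℝ → E → E,
      ContDiffOn ℝ ∞ (Function.uncurry φ) (Ioo (-δ) (1 + δ) ×ˢ V) ∧
      (∀ z ∈ V, φ 0 z = z) ∧
      (∀ z ∈ V, ∀ t ∈ Ioo (-δ) (1 + δ), φ t z ∈ W) ∧
      (∀ z ∈ V, ∀ t ∈ Ioo (-δ) (1 + δ), HasDerivAt (fun s => φ s z) (F (φ t z)) t) := by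
  obtain ⟨V, hV, hzV, -, δ, hδ, φ, h1, h2, h3, h4, -, -⟩ := local_flow hW hF (γ := fun _ => z₀)
    (T := 1) zero_le_one continuousOn_const
    (fun t _ => by simp only [h0]; exact hasDerivWithinAt_const _ _ _) (fun _ _ => hz)
  exact ⟨V, hV.mem_nhds hzV, δ, hδ, φ, h1.contDiffOn, fun z _ => h2 z,
    fun z hz t ht => h3 t ht z hz, fun z hz t ht => h4 t ht z hz⟩

end Loc

end Pool.Agent.Work.MP_3b24f6_gt.Flow
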