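import Pool.Agent.Work.MP_3b24f6_gt.S.Gauss
import Pool.Agent.Work.MP_3b24f6_gt.S.Flow

set_option autoImplicit false
set_option maxSynthPendingDepth 3
set_option linter.unusedSectionVars false

open Set Filter Topology Metric
open scoped ContDiff

/-! The exponential map. -/

namespace Pool.Agent.Work.MP_3b24f6_gt.Froz

noncomputable section

/-- The flow of a smooth vector field near a zero, on the time interval `[0, 1]`. -/
theorem flow_zero {X : Type*} [NormedAddCommGroup X] [NormedSpace ℝ X] [FiniteDimensional ℝ X]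
    {F : X → X} {W : Set X} (hW : IsOpen W) (hF : ContDiffOn ℝ ∞ F W) {z₀ : X} (hz : z₀ ∈ W)
    (h0 : F z₀ = 0) : ∃ V ∈ 𝓝 z₀, ∃ δ, 0 < δ ∧ ∃ φ : ℝ → X → X,
      ContDiffOn ℝ ∞ (Function.uncurry φ) (Ioo (-δ) (1 + δ) ×ˢ V) ∧
      ∀ z ∈ V, φ 0 z = z ∧ ∀ t ∈ Ioo (-δ) (1 + δ), φ t z ∈ W ∧
        HasDerivAt (fun s => φ s z) (F (φ t z)) t := by
  obtain ⟨V, hVo, hV0, -, δ, hδ, φ, h1, h2, h3, h4, -, -⟩ :=
    Flow.local_flow hW hF (γ := fun _ => z₀) (T := 1) zero_le_one continuousOn_const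
      (fun t _ => by rw [h0]; exact hasDerivWithinAt_const t (Ici t) z₀) (fun _ _ => hz)
  exact ⟨V, hVo.mem_nhds hV0, δ, hδ, φ, h1.contDiffOn, fun z hz =>
    ⟨h2 z, fun t ht => ⟨h3 t ht z hz, h4 t ht z hz⟩⟩⟩

variable {E : Type*} [NormedAddCommGroup E] [NormedSpace ℝ E]

theorem hasDerivAt_fst' {X Y : Type*} [NormedAddCommGroup X] [NormedSpace ℝ X]
    [NormedAddCommGroup Y] [NormedSpace ℝ Y] {z : ℝ → X × Y} {z' : X × Y} {t : ℝ}
    (h : HasDerivAt z z' t) : HasDerivAt (fun t => (z t).1) z'.1 t :=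
  (ContinuousLinearMap.fst ℝ X Y).hasFDerivAt.comp_hasDerivAt t h

theorem hasDerivAt_snd' {X Y : Type*} [NormedAddCommGroup X] [NormedSpace ℝ X]
    [NormedAddCommGroup Y] [NormedSpace ℝ Y] {z : ℝ → X × Y} {z' : X × Y} {t : ℝ}
    (h : HasDerivAt z z' t) : HasDerivAt (fun t => (z t).2) z'.2 t :=
  (ContinuousLinearMap.snd ℝ X Y).hasFDerivAt.comp_hasDerivAt t h

/-- The geodesic vector field. -/
def spray (Γ : E → E →L[ℝ] E →L[ℝ] E) (z : E × E) : E × E := (z.2, -(Γ z.1 z.2 z.2))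

theorem smooth_spray {U : Set E} {g : E → E →L[ℝ] E →L[ℝ] ℝ} {Γ : E → E →L[ℝ] E →L[ℝ] E}
    (hΓ : IsChris U g Γ) : ContDiffOn ℝ ∞ (spray Γ) (U ×ˢ univ) := by
  unfold spray
  apply contDiff_snd.contDiffOn.prodMk
  have h1 : ContDiffOn ℝ ∞ (fun z : E × E => Γ z.1) (U ×ˢ univ) :=
    hΓ.smooth.comp contDiff_fst.contDiffOn (fun z hz => hz.1)
  have h2 : ContDiffOn ℝ ∞ (fun z : E × E => z.2) (U ×ˢ univ) := contDiff_snd.contDiffOn
  exact ((h1.clm_apply h2).clm_apply h2).neg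

theorem IsExp.mono {U : Set E} {Γ : E → E →L[ℝ] E →L[ℝ] E} {p₀ : E} {r : ℝ} {X : E × E → E}
    (hX : IsExp U Γ p₀ r X) {r' : ℝ} (h0 : 0 < r') (h : r' ≤ r) :
    IsExp U Γ p₀ r' X where
  pos := h0
  base := (ball_subset_ball h).trans hX.base
  smooth := hX.smooth.mono (prod_mono (ball_subset_ball h) (ball_subset_ball h))
  mem := fun p hp v hv => hX.mem p (ball_subset_ball h hp) v (ball_subset_ball h hv)
  zero := fun p hp => hX.zero p (ball_subset_ball h hp)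
  deriv_zero := fun p hp => hX.deriv_zero p (ball_subset_ball h hp)
  geod := fun p hp v t ht => hX.geod p (ball_subset_ball h hp) v t (ball_subset_ball h ht)

/-- The pair (position, velocity) of a geodesic is an integral curve of the spray. -/
theorem PExp.pair {U : Set E} {Γ : E → E →L[ℝ] E →L[ℝ] E} {r : ℝ} {Y : E → E}
    (h : PExp U Γ r Y) {v : E} {t : ℝ} (ht : t • v ∈ ball (0 : E) r) :
    (Y (t • v), fderiv ℝ Y (t • v) v) ∈ U ×ˢ (univ : Set E) ∧
      HasDerivAt (fun t : ℝ => (Y (t • v), fderiv ℝ Y (t • v) v))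
        (spray Γ (Y (t • v), fderiv ℝ Y (t • v) v)) t :=
  ⟨⟨h.mem _ ht, trivial⟩, (h.hasDerivAt_ray ht).prodMk (h.geod v t ht)⟩

/-- The geodesic through `(p, v)` restarted at time `s`. -/
theorem IsExp.restart {U : Set E} {g : E → E →L[ℝ] E →L[ℝ] ℝ} {Γ : E → E →L[ℝ] E →L[ℝ] E}
    {p₀ : E} {r : ℝ} {X : E × E → E} (hg : RMet U g) (hΓ : IsChris U g Γ)
    (hX : IsExp U Γ p₀ r X) {p v : E}
    {s τ : ℝ} (hp : p ∈ Metric.ball p₀ r) (h1 : s • v ∈ Metric.ball (0 : E) r)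
    (h2 : (s + τ) • v ∈ Metric.ball (0 : E) r) (h3 : X (p, s • v) ∈ Metric.ball p₀ r)
    (h4 : τ • dX X p (s • v) v ∈ Metric.ball (0 : E) r) :
    X (X (p, s • v), τ • dX X p (s • v) v) = X (p, (s + τ) • v) := by
  set q := X (p, s • v) with hq
  set w := dX X p (s • v) v with hw
  have hP := hX.pexp hp
  have hQ := hX.pexp h3
  let S : Set ℝ := {t : ℝ | t • w ∈ ball (0 : E) r} ∩
    (fun t => s + t) ⁻¹' {t : ℝ | t • v ∈ ball (0 : E) r}
  have hSo : IsOpen S := (PExp.isOpen_dom w r).inter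
    ((PExp.isOpen_dom v r).preimage (by fun_prop))
  have hSc : Convex ℝ S := by
    refine (PExp.convex_dom w r).inter ?_
    exact (PExp.convex_dom v r).translate_preimage_right s
  have h0S : (0 : ℝ) ∈ S := ⟨by simpa using hX.pos, by
    change (s + 0) • v ∈ ball (0 : E) r
    simpa using h1⟩
  have hτS : τ ∈ S := ⟨h4, h2⟩
  have huniq := ode_unique_on (hg.isOpen.prod isOpen_univ)
    ((smooth_spray hΓ).of_le (by exact_mod_cast le_top)) hSo hSc.isPreconnected h0S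
    (z₁ := fun t : ℝ => (X (q, t • w), fderiv ℝ (fun y => X (q, y)) (t • w) w))
    (z₂ := fun t : ℝ => (X (p, (s + t) • v), fderiv ℝ (fun y => X (p, y)) ((s + t) • v) v))
    (fun t ht => hQ.pair ht.1)
    (fun t ht => by
      obtain ⟨ha, hb⟩ := hP.pair ht.2
      refine ⟨ha, ?_⟩
      exact HasDerivAt.comp_const_add s t hb)
    (by
      have hd := hX.deriv_zero q h3
      unfold dX at hd
      simp only [zero_smul, add_zero]
      rw [hX.zero q h3, hd]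
      rfl)
  have h5 := huniq hτS
  simp only [Prod.mk.injEq] at h5
  exact h5.1

variable [FiniteDimensional ℝ E]

theorem exists_exp {U : Set E} {g : E → E →L[ℝ] E →L[ℝ] ℝ} {Γ : E → E →L[ℝ] E →L[ℝ] E}
    {p₀ : E} (hg : RMet U g) (hΓ : IsChris U g Γ) (hp : p₀ ∈ U) :
    ∃ r X, IsExp U Γ p₀ r X := by
  have hWo : IsOpen (U ×ˢ (univ : Set E)) := hg.isOpen.prod isOpen_univ
  obtain ⟨V, hV, δ, hδ, φ, hφs, hφ⟩ := flow_zero hWo (smooth_spray hΓ)
    (z₀ := (p₀, 0)) ⟨hp, trivial⟩ (by simp [spray])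
  -- a product neighbourhood
  obtain ⟨r, hr, hrV, hrU⟩ : ∃ r > 0, ball p₀ r ×ˢ ball (0 : E) r ⊆ V ∧ ball p₀ r ⊆ U := by
    obtain ⟨r1, hr1, h1⟩ := Metric.mem_nhds_iff.mp hV
    obtain ⟨r2, hr2, h2⟩ := Metric.isOpen_iff.mp hg.isOpen p₀ hp
    refine ⟨min r1 r2, lt_min hr1 hr2, ?_, (ball_subset_ball (min_le_right _ _)).trans h2⟩
    rw [ball_prod_same]
    exact (ball_subset_ball (min_le_left _ _)).trans h1
  have h1I : (1 : ℝ) ∈ Ioo (-δ) (1 + δ) := ⟨by linarith, by linarith⟩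
  have h0I : (0 : ℝ) ∈ Ioo (-δ) (1 + δ) := ⟨by linarith, by linarith⟩
  have hIo : IsOpen (Ioo (-δ) (1 + δ)) := isOpen_Ioo
  let X : E × E → E := fun z => (φ 1 z).1
  have hF1 : ContDiffOn ℝ 1 (spray Γ) (U ×ˢ univ) :=
    (smooth_spray hΓ).of_le (by exact_mod_cast le_top)
  -- scaling
  have key : ∀ p ∈ ball p₀ r, ∀ w ∈ ball (0 : E) r, ∀ s ∈ Ioo (-δ) (1 + δ),
      s • w ∈ ball (0 : E) r → X (p, s • w) = (φ s (p, w)).1 := by
    intro p hp w hw s hs hsw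
    let S : Set ℝ := Ioo (-δ) (1 + δ) ∩ (fun t => t * s) ⁻¹' Ioo (-δ) (1 + δ)
    have hSo : IsOpen S := isOpen_Ioo.inter (isOpen_Ioo.preimage (by fun_prop))
    have hSc : Convex ℝ S := by
      refine (convex_Ioo _ _).inter ?_
      have := (convex_Ioo (-δ) (1 + δ)).linear_preimage (LinearMap.mulRight ℝ s)
      exact this
    have h0S : (0 : ℝ) ∈ S := ⟨h0I, by
      change (0 : ℝ) * s ∈ Ioo (-δ) (1 + δ)
      rw [zero_mul]; exact h0I⟩
    have h1S : (1 : ℝ) ∈ S := ⟨h1I, by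
      change (1 : ℝ) * s ∈ Ioo (-δ) (1 + δ)
      rw [one_mul]; exact hs⟩
    have hz := hφ (p, w) (hrV ⟨hp, hw⟩)
    have hz' := hφ (p, s • w) (hrV ⟨hp, hsw⟩)
    have huniq := ode_unique_on hWo hF1 hSo hSc.isPreconnected h0S
      (z₁ := fun t : ℝ => φ t (p, s • w))
      (z₂ := fun t : ℝ => ((φ (t * s) (p, w)).1, s • (φ (t * s) (p, w)).2))
      (fun t ht => hz'.2 t ht.1)
      (fun t ht => by
        obtain ⟨ha, hb⟩ := hz.2 (t * s) ht.2
        refine ⟨⟨ha.1, trivial⟩, ?_⟩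
        have hm : HasDerivAt (fun t : ℝ => t * s) s t := by
          simpa using (hasDerivAt_id t).mul_const s
        have hc := hb.scomp t hm
        have hc1 := hasDerivAt_fst' hc
        have hc2 := (hasDerivAt_snd' hc).const_smul s
        refine (HasDerivAt.prodMk hc1 hc2).congr_deriv ?_
        simp only [spray, Prod.smul_mk, map_smul, _root_.smul_apply, smul_neg])
      (by
        simp only [zero_mul]
        rw [hz.1, hz'.1])
    have h5 := huniq h1S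
    simp only [one_mul] at h5
    change (φ 1 (p, s • w)).1 = (φ s (p, w)).1
    rw [h5]
  have hsmooth : ContDiffOn ℝ ∞ X (ball p₀ r ×ˢ ball 0 r) := by
    have h1 : ContDiffOn ℝ ∞ (fun z : E × E => ((1 : ℝ), z)) (ball p₀ r ×ˢ ball 0 r) :=
      (contDiff_const.prodMk contDiff_id).contDiffOn
    have h2 := hφs.comp h1 (fun z hz => ⟨h1I, hrV hz⟩)
    exact contDiff_fst.comp_contDiffOn h2
  have hYs : ∀ p ∈ ball p₀ r, ContDiffOn ℝ ∞ (fun w => X (p, w)) (ball (0 : E) r) := by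
    intro p hp
    exact hsmooth.comp (contDiff_const.prodMk contDiff_id).contDiffOn (fun _ hv => ⟨hp, hv⟩)
  -- derivative along rays
  have hray : ∀ p ∈ ball p₀ r, ∀ (v : E) (t : ℝ), t • v ∈ ball (0 : E) r →
      HasDerivAt (fun s : ℝ => X (p, s • v)) (dX X p (t • v) v) t := by
    intro p hp v t ht
    have h1 : HasDerivAt (fun t : ℝ => t • v) v t := by
      simpa using (hasDerivAt_id t).smul_const v
    have h2 : HasFDerivAt (fun w => X (p, w)) (dX X p (t • v)) (t • v) :=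
      (((hYs p hp).contDiffAt (isOpen_ball.mem_nhds ht)).differentiableAt (by simp)).hasFDerivAt
    exact h2.comp_hasDerivAt t h1
  -- rays in terms of the flow
  have hloc : ∀ p ∈ ball p₀ r, ∀ (v : E) (t : ℝ), t • v ∈ ball (0 : E) r → ∃ τ : ℝ, τ ≠ 0 ∧
      τ • v ∈ ball (0 : E) r ∧ t / τ ∈ Ioo (-δ) (1 + δ) ∧
      ∀ᶠ s in 𝓝 t, s / τ ∈ Ioo (-δ) (1 + δ) ∧ X (p, s • v) = (φ (s / τ) (p, τ • v)).1 ∧
        dX X p (s • v) v = τ⁻¹ • (φ (s / τ) (p, τ • v)).2 := by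
    intro p hp v t ht
    obtain ⟨τ, hτ0, hτ1, hτ2⟩ : ∃ τ : ℝ, τ ≠ 0 ∧ τ • v ∈ ball (0 : E) r ∧
        t / τ ∈ Ioo (-δ) (1 + δ) := by
      by_cases h0 : t = 0
      · have h1 : ∀ᶠ τ : ℝ in 𝓝 0, τ • v ∈ ball (0 : E) r := by
          have hc : Continuous fun τ : ℝ => τ • v := by fun_prop
          apply hc.continuousAt.eventually (isOpen_ball.mem_nhds _)
          simpa using hr
        have h2 : ∀ᶠ τ : ℝ in 𝓝[≠] 0, τ • v ∈ ball (0 : E) r := h1.filter_mono nhdsWithin_le_nhds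
        obtain ⟨τ, h3, h4⟩ := (h2.and self_mem_nhdsWithin).exists
        exact ⟨τ, h4, h3, by rw [h0, zero_div]; exact h0I⟩
      · exact ⟨t, h0, ht, by rw [div_self h0]; exact h1I⟩
    refine ⟨τ, hτ0, hτ1, hτ2, ?_⟩
    have e1 : ∀ᶠ s : ℝ in 𝓝 t, s / τ ∈ Ioo (-δ) (1 + δ) := by
      have hc : Continuous fun s : ℝ => s / τ := by fun_prop
      exact hc.continuousAt.eventually (isOpen_Ioo.mem_nhds hτ2)
    have e2 : ∀ᶠ s : ℝ in 𝓝 t, s • v ∈ ball (0 : E) r := by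
      have hc : Continuous fun τ : ℝ => τ • v := by fun_prop
      exact hc.continuousAt.eventually (isOpen_ball.mem_nhds ht)
    have e3 : ∀ᶠ s : ℝ in 𝓝 t, X (p, s • v) = (φ (s / τ) (p, τ • v)).1 := by
      filter_upwards [e1, e2] with s hs1 hs2
      have h1 : (s / τ) • (τ • v) = s • v := by
        rw [smul_smul, div_mul_cancel₀ _ hτ0]
      rw [← h1]
      exact key p hp (τ • v) hτ1 (s / τ) hs1 (by rw [h1]; exact hs2)
    filter_upwards [e1, e2, e3, e3.eventually_nhds] with s hs1 hs2 hs3 hs4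
    refine ⟨hs1, hs3, ?_⟩
    have hz := (hφ (p, τ • v) (hrV ⟨hp, hτ1⟩)).2 (s / τ) hs1
    have hm : HasDerivAt (fun s : ℝ => s / τ) τ⁻¹ s := by
      simpa [one_div] using (hasDerivAt_id s).div_const τ
    have hc := hasDerivAt_fst' (hz.2.scomp s hm)
    have h6 := (hray p hp v s hs2).unique (hc.congr_of_eventuallyEq hs4)
    rw [h6]
    simp [spray]
  refine ⟨r, X, hr, hrU, hsmooth, ?_, ?_, ?_, ?_⟩
  · intro p hp v hv
    exact ((hφ (p, v) (hrV ⟨hp, hv⟩)).2 1 h1I).1.1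
  · intro p hp
    obtain ⟨τ, hτ0, hτ1, hτ2, hev⟩ := hloc p hp 0 0 (by simpa using hr)
    have h1 := (hev.self_of_nhds).2.1
    simp only [zero_div, smul_zero] at h1
    rw [h1, (hφ (p, 0) (hrV ⟨hp, by simpa using hr⟩)).1]
  · intro p hp
    ext v
    obtain ⟨τ, hτ0, hτ1, hτ2, hev⟩ := hloc p hp v 0 (by simpa using hr)
    have h1 := (hev.self_of_nhds).2.2
    simp only [zero_div, zero_smul] at h1
    rw [h1, (hφ (p, τ • v) (hrV ⟨hp, hτ1⟩)).1, smul_smul, inv_mul_cancel₀ hτ0, one_smul]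
    rfl
  · intro p hp v t ht
    obtain ⟨τ, hτ0, hτ1, hτ2, hev⟩ := hloc p hp v t ht
    have hz := (hφ (p, τ • v) (hrV ⟨hp, hτ1⟩)).2 (t / τ) hτ2
    have hm : HasDerivAt (fun s : ℝ => s / τ) τ⁻¹ t := by
      simpa [one_div] using (hasDerivAt_id t).div_const τ
    have hc := (hasDerivAt_snd' (hz.2.scomp t hm)).const_smul τ⁻¹
    have hev2 : (fun s : ℝ => dX X p (s • v) v) =ᶠ[𝓝 t]
        fun s => τ⁻¹ • (φ (s / τ) (p, τ • v)).2 := hev.mono fun s hs => hs.2.2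
    refine (hc.congr_of_eventuallyEq hev2).congr_deriv ?_
    have h1 := (hev.self_of_nhds).2
    rw [h1.1, h1.2]
    simp only [spray, Prod.smul_mk, map_smul, _root_.smul_apply, smul_neg]

end

end Pool.Agent.Work.MP_3b24f6_gt.Froz
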