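import Pool.Agent.Work.MP_3b24f6_gt.S.NormalBall
import Pool.Agent.Work.MP_3b24f6_gt.S.Exp

/-! Block A: the exported local geometry. -/

set_option autoImplicit false
set_option linter.unusedSectionVars false

open MeasureTheory Set Filter Topology
open scoped ContDiff InnerProductSpace Manifold

namespace Pool.Agent.Work.MP_3b24f6_gt.Froz

noncomputable section

variable {E : Type*} [NormedAddCommGroup E] [NormedSpace ℝ E]
variable {M : Type*} [MetricSpace M] {U : Set E} {g : E → E →L[ℝ] E →L[ℝ] ℝ} {ι : E → M}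
  {Γ : E → E →L[ℝ] E →L[ℝ] E} {p₀ : E} {r : ℝ} {X : E × E → E}

theorem IsExp.lg_contDiffAt (hX : IsExp U Γ p₀ r X) {p v : E} (hp : p ∈ Metric.ball p₀ r)
    (hv : v ∈ Metric.ball (0 : E) r) : ContDiffAt ℝ ∞ X (p, v) :=
  hX.smooth.contDiffAt ((Metric.isOpen_ball.prod Metric.isOpen_ball).mem_nhds ⟨hp, hv⟩)

theorem IsExp.lg_hasFDerivAt (hX : IsExp U Γ p₀ r X) {p v : E} (hp : p ∈ Metric.ball p₀ r)
    (hv : v ∈ Metric.ball (0 : E) r) : HasFDerivAt (fun w => X (p, w)) (dX X p v) v := by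
  have h1 : DifferentiableAt ℝ X (p, v) := (hX.lg_contDiffAt hp hv).differentiableAt (by simp)
  have h2 : DifferentiableAt ℝ (fun w : E => (p, w)) v :=
    (differentiableAt_const p).prodMk differentiableAt_id
  exact (DifferentiableAt.comp v h1 h2).hasFDerivAt

theorem lg_zero_mem (hr : 0 < r) : (0 : E) ∈ Metric.ball (0 : E) r := Metric.mem_ball_self hr

/-- Infinitesimal distances. -/
theorem IsExp.inf (hM : MetModel M U g ι) (hX : IsExp U Γ p₀ r X)
    {p : E} (hp : p ∈ Metric.ball p₀ r) (v w : E) :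
    Tendsto (fun t : ℝ => dist (ι (X (p, t • v))) (ι (X (p, t • w))) / t) (𝓝[>] 0)
      (𝓝 (gnorm g p (v - w))) := by
  have hpU : p ∈ U := hX.base hp
  have hd : ∀ v : E, HasDerivAt (fun t : ℝ => X (p, t • v)) v 0 := by
    intro v
    have h1 := hX.lg_hasFDerivAt hp (lg_zero_mem hX.pos)
    rw [hX.deriv_zero p hp] at h1
    have h2 : HasDerivAt (fun t : ℝ => t • v) v 0 := by
      simpa using (hasDerivAt_id (0 : ℝ)).smul_const v
    have h1' : HasFDerivAt (fun w => X (p, w)) (ContinuousLinearMap.id ℝ E) ((0 : ℝ) • v) := by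
      rwa [zero_smul]
    exact h1'.comp_hasDerivAt (0 : ℝ) h2
  have hc : ∀ v : E, Tendsto (fun t : ℝ => X (p, t • v)) (𝓝[>] 0) (𝓝 p) := by
    intro v
    have h1 := (hd v).continuousAt.tendsto
    simp only [zero_smul, hX.zero p hp] at h1
    exact h1.mono_left nhdsWithin_le_nhds
  -- the difference quotient
  have hq : Tendsto (fun t : ℝ => t⁻¹ • (X (p, t • v) - X (p, t • w))) (𝓝[>] 0)
      (𝓝 (v - w)) := by
    have h1 := (hd v).sub (hd w)
    have h2 := h1.tendsto_slope_zero_right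
    simp only [zero_add, zero_smul, sub_self, sub_zero, Pi.sub_apply] at h2
    exact h2
  have hg : Tendsto (fun t : ℝ => gnorm g p (t⁻¹ • (X (p, t • v) - X (p, t • w)))) (𝓝[>] 0)
      (𝓝 (gnorm g p (v - w))) := by
    have h1 : ContinuousAt (fun u : E => gnorm g p u) (v - w) := by
      have h2 := (continuousOn_gnorm hM.met).comp_continuous
        (f := fun u : E => (p, u)) (by fun_prop) (fun u => ⟨hpU, trivial⟩)
      exact h2.continuousAt
    exact h1.tendsto.comp hq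
  set G := gnorm g p (v - w) with hG
  have hG0 : 0 ≤ G := gnorm_nonneg _ _
  rw [Metric.tendsto_nhds]
  intro η hη
  set ε := min (1 / 2) (η / (4 * (G + 1))) with hε
  have hε0 : 0 < ε := lt_min (by norm_num) (by positivity)
  obtain ⟨δ, hδ, -, hnear⟩ := hM.near p hpU ε hε0
  have e1 : ∀ᶠ t : ℝ in 𝓝[>] 0, X (p, t • v) ∈ Metric.ball p δ :=
    (hc v).eventually (Metric.ball_mem_nhds p hδ)
  have e2 : ∀ᶠ t : ℝ in 𝓝[>] 0, X (p, t • w) ∈ Metric.ball p δ :=
    (hc w).eventually (Metric.ball_mem_nhds p hδ)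
  have e3 : ∀ᶠ t : ℝ in 𝓝[>] 0,
      dist (gnorm g p (t⁻¹ • (X (p, t • v) - X (p, t • w)))) G < min 1 (η / 4) :=
    hg.eventually (Metric.ball_mem_nhds G (lt_min one_pos (by positivity)))
  filter_upwards [e1, e2, e3, self_mem_nhdsWithin] with t h1 h2 h3 ht
  have ht0 : 0 < t := ht
  obtain ⟨n1, n2⟩ := hnear _ h1 _ h2
  have hs : gnorm g p (t⁻¹ • (X (p, t • v) - X (p, t • w)))
      = gnorm g p (X (p, t • v) - X (p, t • w)) / t := by
    rw [gnorm_smul, abs_of_pos (inv_pos.mpr ht0), div_eq_inv_mul]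
  rw [hs, Real.dist_eq] at h3
  set N := gnorm g p (X (p, t • v) - X (p, t • w)) with hN
  set d := dist (ι (X (p, t • v))) (ι (X (p, t • w))) with hd'
  have h4 : |N / t - G| < 1 := h3.trans_le (min_le_left _ _)
  have h5 : |N / t - G| < η / 4 := h3.trans_le (min_le_right _ _)
  have m1 : (1 - ε) * (N / t) ≤ d / t := by
    rw [← mul_div_assoc]
    exact div_le_div_of_nonneg_right n1 ht0.le
  have m2 : d / t ≤ (1 + ε) * (N / t) := by
    rw [← mul_div_assoc]
    exact div_le_div_of_nonneg_right n2 ht0.le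
  have hNt : N / t ≤ G + 1 := by
    have := (abs_lt.mp h4).2
    linarith
  have hεG : ε * (G + 1) ≤ η / 4 := by
    have h6 : ε ≤ η / (4 * (G + 1)) := min_le_right _ _
    have h7 : 0 < G + 1 := by linarith
    calc ε * (G + 1) ≤ η / (4 * (G + 1)) * (G + 1) := mul_le_mul_of_nonneg_right h6 h7.le
      _ = η / 4 := by field_simp
  have hεN : ε * (N / t) ≤ η / 4 := (mul_le_mul_of_nonneg_left hNt hε0.le).trans hεG
  rw [Real.dist_eq, abs_lt]
  obtain ⟨h6, h7⟩ := abs_lt.mp h5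
  constructor <;> nlinarith


section Fin
variable [FiniteDimensional ℝ E]

/-- Level 1: exact distances from the centre, for centres in a small ball. -/
structure Lev (M : Type*) [MetricSpace M] (U : Set E) (g : E → E →L[ℝ] E →L[ℝ] ℝ) (ι : E → M)
    (Γ : E → E →L[ℝ] E →L[ℝ] E) (p₀ : E) (r : ℝ) (X W : E × E → E) (R ρ : ℝ) : Prop where
  mod : MetModel M U g ι
  chr : IsChris U g Γ
  exp : IsExp U Γ p₀ r X
  R_pos : 0 < R
  ρ_pos : 0 < ρ
  le : R ≤ r
  small : ∀ p ∈ Metric.ball p₀ R, ∀ v, gnorm g p v < ρ → v ∈ Metric.ball (0 : E) r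
  eq_dist : ∀ p ∈ Metric.ball p₀ R, ∀ v, gnorm g p v < ρ →
    dist (ι p) (ι (X (p, v))) = gnorm g p v
  surj : ∀ p ∈ Metric.ball p₀ R, ∀ z : M, dist (ι p) z < ρ → ∃ v,
    gnorm g p v = dist (ι p) z ∧ ι (X (p, v)) = z
  inv : ∀ p ∈ Metric.ball p₀ r, ∀ v ∈ Metric.ball (0 : E) r, W (p, X (p, v)) = v ∧
    ContDiffAt ℝ ∞ W (p, X (p, v)) ∧ ∀ w, dX X p v w = 0 → w = 0

theorem exists_lev (hM : MetModel M U g ι) (hp₀ : p₀ ∈ U) :
    ∃ Γ r X W R ρ, Lev M U g ι Γ p₀ r X W R ρ := by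
  obtain ⟨Γ, hΓ⟩ := exists_chris hM.met
  obtain ⟨r₀, X, hX0⟩ := exists_exp hM.met hΓ hp₀
  obtain ⟨r₁, h1, h10, -, -, -, W, hW, -⟩ := hX0.exists_inv hM.met hΓ
  have hX := hX0.mono h1 h10
  obtain ⟨R, hR, hRr, ρ, hρ, hb⟩ := hX.dist_ge hM hΓ hp₀
  have hd : ∀ p ∈ Metric.ball p₀ R, ∀ v, gnorm g p v < ρ →
      dist (ι p) (ι (X (p, v))) = gnorm g p v := by
    intro p hp v hv
    have hp' := Metric.ball_subset_ball hRr hp
    obtain ⟨h2, h3⟩ := (hb p hp).1 v hv
    refine le_antisymm ?_ h3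
    have h4 := hX.dist_le hM hΓ hp' (v := v) (s := 0) (s' := 1)
      (by rw [zero_smul]; exact lg_zero_mem h1) (by rwa [one_smul])
    rw [zero_smul, one_smul, hX.zero p hp'] at h4
    simpa using h4
  refine ⟨Γ, r₁, X, W, R, ρ, hM, hΓ, hX, hR, hρ, hRr, fun p hp v hv => ((hb p hp).1 v hv).1, hd,
    ?_, hW⟩
  intro p hp z hz
  obtain ⟨v, hv, hv'⟩ := (hb p hp).2 z hz
  exact ⟨v, by rw [← hv', hd p hp v hv], hv'⟩

variable {W : E × E → E} {R ρ : ℝ}

theorem lg_smul_mem {v : E} (hv : v ∈ Metric.ball (0 : E) r) {s : ℝ} (hs : |s| ≤ 1) :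
    s • v ∈ Metric.ball (0 : E) r := by
  rw [mem_ball_zero_iff] at hv ⊢
  rw [norm_smul, Real.norm_eq_abs]
  exact (mul_le_of_le_one_left (norm_nonneg v) hs).trans_lt hv

/-- Distances along geodesics, both directions. -/
theorem Lev.dist_geod (h : Lev M U g ι Γ p₀ r X W R ρ) {p v : E} (hp : p ∈ Metric.ball p₀ r)
    (hv : v ∈ Metric.ball (0 : E) r) (hg : 2 * gnorm g p v < ρ) {s s' : ℝ} (hs : |s| ≤ 1)
    (hs' : |s'| ≤ 1) (hq : X (p, s • v) ∈ Metric.ball p₀ R) :
    dist (ι (X (p, s • v))) (ι (X (p, s' • v))) = |s - s'| * gnorm g p v := by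
  have hv1 := lg_smul_mem hv hs
  have hv2 := lg_smul_mem hv hs'
  refine le_antisymm (h.exp.dist_le h.mod h.chr hp hv1 hv2) ?_
  have he := h.exp.energy h.mod.met h.chr hp hv1
  have hN : gnorm g (X (p, s • v)) ((s' - s) • dX X p (s • v) v) = |s - s'| * gnorm g p v := by
    rw [gnorm_smul, he, abs_sub_comm]
  have hss : |s - s'| ≤ 2 := by
    rw [abs_le] at hs hs' ⊢
    constructor <;> linarith [hs.1, hs.2, hs'.1, hs'.2]
  have hlt : gnorm g (X (p, s • v)) ((s' - s) • dX X p (s • v) v) < ρ := by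
    rw [hN]
    exact (mul_le_mul_of_nonneg_right hss (gnorm_nonneg _ _)).trans_lt hg
  have h4 := h.small _ hq _ hlt
  have h5 := h.eq_dist _ hq _ hlt
  have h6 := h.exp.restart h.mod.met h.chr (s := s) (τ := s' - s) hp hv1
    (by rwa [add_sub_cancel]) (Metric.ball_subset_ball h.le hq) h4
  rw [h6, add_sub_cancel, hN] at h5
  exact h5.ge

/-- The equality case of Cauchy-Schwarz. -/
theorem lg_eq_of_gnorm (hg : RMet U g) {y : E} (hy : y ∈ U) {e f : E} (he : gnorm g y e = 1)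
    (hf : gnorm g y f = 1) (h : 2 ≤ gnorm g y (-e - f)) : e = f := by
  have h1 : 4 ≤ g y (-e - f) (-e - f) := by
    rw [← gnorm_sq hg hy]
    nlinarith
  have h2 : g y (-e - f) (-e - f) = g y e e + 2 * g y e f + g y f f := by
    simp only [map_sub, map_neg, ContinuousLinearMap.sub_apply, ContinuousLinearMap.neg_apply]
    rw [hg.symm y hy f e]
    ring
  have h3 : g y (e - f) (e - f) = g y e e - 2 * g y e f + g y f f := by
    simp only [map_sub, ContinuousLinearMap.sub_apply]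
    rw [hg.symm y hy f e]
    ring
  have h4 : g y e e = 1 := by rw [← gnorm_sq hg hy, he, one_pow]
  have h5 : g y f f = 1 := by rw [← gnorm_sq hg hy, hf, one_pow]
  by_contra hne
  have h6 := hg.pos y hy (e - f) (sub_ne_zero.mpr hne)
  rw [h3, h4, h5] at h6
  rw [h2, h4, h5] at h1
  linarith

/-- Points between `p` and `X (p, v)` are on the geodesic. -/
theorem Lev.between (h : Lev M U g ι Γ p₀ r X W R ρ) {p v : E} (hp : p ∈ Metric.ball p₀ R)
    (hg : gnorm g p v < ρ) (hy : ∀ w, gnorm g p w ≤ gnorm g p v → X (p, w) ∈ Metric.ball p₀ R)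
    {z : M} (hz : dist (ι p) z + dist z (ι (X (p, v))) = gnorm g p v) :
    ∃ s ∈ Icc (0 : ℝ) 1, z = ι (X (p, s • v)) := by
  have hpr := Metric.ball_subset_ball h.le hp
  have hpU : p ∈ U := h.exp.base hpr
  set a := dist (ι p) z with ha
  set b := dist z (ι (X (p, v))) with hb
  have ha0 : 0 ≤ a := dist_nonneg
  have hb0 : 0 ≤ b := dist_nonneg
  rcases ha0.eq_or_lt with ha1 | ha1
  · refine ⟨0, ⟨le_rfl, zero_le_one⟩, ?_⟩
    rw [zero_smul, h.exp.zero p hpr]
    exact (dist_eq_zero.mp ha1.symm).symm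
  rcases hb0.eq_or_lt with hb1 | hb1
  · refine ⟨1, ⟨zero_le_one, le_rfl⟩, ?_⟩
    rw [one_smul]
    exact dist_eq_zero.mp hb1.symm
  obtain ⟨w, hw, hwz⟩ := h.surj p hp z (by linarith)
  rw [← ha] at hw
  set y := X (p, w) with hyd
  have hyR : y ∈ Metric.ball p₀ R := hy w (by linarith)
  have hyr := Metric.ball_subset_ball h.le hyR
  have hyU : y ∈ U := h.exp.base hyr
  have hv0 : v ∈ Metric.ball (0 : E) r := h.small p hp v hg
  have hw0 : w ∈ Metric.ball (0 : E) r := h.small p hp w (by linarith)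
  have hb2 : dist (ι y) (ι (X (p, v))) = b := by rw [hwz]
  obtain ⟨u, hu, huq⟩ := h.surj y hyR (ι (X (p, v))) (by linarith)
  rw [hb2] at hu
  have hu0 : u ∈ Metric.ball (0 : E) r := h.small y hyR u (by linarith)
  have hq : X (y, u) = X (p, v) :=
    h.mod.inj (h.exp.mem y hyr u hu0) (h.exp.mem p hpr v hv0) huq
  set w' := dX X p w w with hw'
  have hw'a : gnorm g y w' = a := by
    have := h.exp.energy h.mod.met h.chr (v := w) (t := 1) hpr (by rwa [one_smul])
    rwa [one_smul, hw] at this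
  -- geodesic continued backward and forward
  have hres : ∀ τ : ℝ, |τ| * a < ρ → |1 + τ| * a < ρ → X (y, τ • w') = X (p, (1 + τ) • w) := by
    intro τ h1 h2
    have h3 := h.exp.restart h.mod.met h.chr (p := p) (v := w) (s := 1) (τ := τ) hpr
      (by rwa [one_smul]) (h.small p hp _ (by rwa [gnorm_smul, hw]))
      (by rwa [one_smul]) (by
        rw [one_smul]
        exact h.small y hyR _ (by rwa [gnorm_smul, hw'a]))
    rwa [one_smul] at h3
  have hpq : dist (ι p) (ι (X (p, v))) = gnorm g p v := h.eq_dist p hp v hg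
  have hmain : ∀ t : ℝ, 0 < t → t ≤ a → t ≤ b →
      2 * t ≤ dist (ι (X (y, t • (-(a⁻¹ • w'))))) (ι (X (y, t • (b⁻¹ • u)))) := by
    intro t ht hta htb
    have e1 : t • (-(a⁻¹ • w')) = (-(t / a)) • w' := by
      rw [smul_neg, smul_smul, neg_smul, div_eq_mul_inv]
    have e2 : t • (b⁻¹ • u) = (t / b) • u := by rw [smul_smul, div_eq_mul_inv]
    have hta' : t / a ≤ 1 := (div_le_one ha1).mpr hta
    have hta0 : 0 < t / a := div_pos ht ha1
    have htb' : t / b ≤ 1 := (div_le_one hb1).mpr htb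
    have htb0 : 0 < t / b := div_pos ht hb1
    have e3 : X (y, t • (-(a⁻¹ • w'))) = X (p, (1 + -(t / a)) • w) := by
      rw [e1]
      apply hres
      · rw [abs_neg, abs_of_pos hta0, div_mul_cancel₀ _ ha1.ne']
        linarith
      · rw [abs_of_nonneg (by linarith), add_mul, neg_mul, div_mul_cancel₀ _ ha1.ne']
        linarith
    have d1 : dist (ι p) (ι (X (y, t • (-(a⁻¹ • w'))))) = a - t := by
      have hgw : gnorm g p ((1 + -(t / a)) • w) = a - t := by
        rw [gnorm_smul, hw, abs_of_nonneg (by linarith), add_mul, neg_mul,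
          div_mul_cancel₀ _ ha1.ne', one_mul]
        ring
      rw [e3, h.eq_dist p hp _ (by rw [hgw]; linarith), hgw]
    have d2 : dist (ι (X (y, t • (b⁻¹ • u)))) (ι (X (p, v))) ≤ b - t := by
      have h7 := h.exp.dist_le h.mod h.chr (v := u) (s := t / b) (s' := 1) hyr
        (lg_smul_mem hu0 (by rw [abs_of_pos htb0]; exact htb')) (by rwa [one_smul])
      rw [one_smul, hq, hu, ← e2, abs_sub_comm, abs_of_nonneg (by linarith), sub_mul,
        div_mul_cancel₀ _ hb1.ne', one_mul] at h7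
      exact h7
    have d3 := dist_triangle4 (ι p) (ι (X (y, t • (-(a⁻¹ • w'))))) (ι (X (y, t • (b⁻¹ • u))))
      (ι (X (p, v)))
    rw [hpq, d1] at d3
    linarith
  have hlim := IsExp.inf h.mod h.exp hyr (-(a⁻¹ • w')) (b⁻¹ • u)
  have h2le : 2 ≤ gnorm g y (-(a⁻¹ • w') - b⁻¹ • u) := by
    refine ge_of_tendsto hlim ?_
    have e1 : ∀ᶠ t : ℝ in 𝓝[>] 0, t < min a b :=
      nhdsWithin_le_nhds (Iio_mem_nhds (lt_min ha1 hb1))
    filter_upwards [e1, self_mem_nhdsWithin] with t h1 ht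
    have ht0 : 0 < t := ht
    rw [le_div_iff₀ ht0]
    exact hmain t ht0 (h1.le.trans (min_le_left _ _)) (h1.le.trans (min_le_right _ _))
  have hef := lg_eq_of_gnorm h.mod.met hyU (e := a⁻¹ • w') (f := b⁻¹ • u)
    (by rw [gnorm_smul, hw'a, abs_of_pos (inv_pos.mpr ha1), inv_mul_cancel₀ ha1.ne'])
    (by rw [gnorm_smul, hu, abs_of_pos (inv_pos.mpr hb1), inv_mul_cancel₀ hb1.ne']) h2le
  have hu' : u = (b / a) • w' := by
    have h8 : b • (b⁻¹ • u) = u := by rw [smul_smul, mul_inv_cancel₀ hb1.ne', one_smul]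
    rw [← h8, ← hef, smul_smul, div_eq_mul_inv]
  have hba : 0 < b / a := div_pos hb1 ha1
  have hq2 : X (p, v) = X (p, (1 + b / a) • w) := by
    rw [← hq, hu']
    apply hres
    · rw [abs_of_pos hba, div_mul_cancel₀ _ ha1.ne']
      linarith
    · rw [abs_of_nonneg (by linarith), add_mul, div_mul_cancel₀ _ ha1.ne']
      linarith
  have hw1 : (1 + b / a) • w ∈ Metric.ball (0 : E) r := by
    refine h.small p hp _ ?_
    rw [gnorm_smul, hw, abs_of_nonneg (by linarith), add_mul, div_mul_cancel₀ _ ha1.ne']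
    linarith
  have hvw : v = (1 + b / a) • w := by
    rw [← (h.inv p hpr v hv0).1, hq2, (h.inv p hpr _ hw1).1]
  have hk : 0 < 1 + b / a := by linarith
  refine ⟨(1 + b / a)⁻¹, ⟨(inv_pos.mpr hk).le, inv_le_one_of_one_le₀ (by linarith)⟩, ?_⟩
  rw [hvw, smul_smul, inv_mul_cancel₀ hk.ne', one_smul]
  exact hwz.symm

/-- The exported theorem. -/
theorem exists_locGeo (hM : MetModel M U g ι) (hp₀ : p₀ ∈ U) :
    ∃ r ρ X W, LocGeo M U g ι p₀ r ρ X W := by
  obtain ⟨Γ, r, X, W, R, ρ, h⟩ := exists_lev hM hp₀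
  obtain ⟨δ, hδ, c, hc, _, _, _, hcC⟩ := hM.met.equiv hp₀
  have hp0r : p₀ ∈ Metric.ball p₀ r := Metric.mem_ball_self h.exp.pos
  have hXc : ContinuousAt X (p₀, 0) :=
    (h.exp.lg_contDiffAt hp0r (lg_zero_mem h.exp.pos)).continuousAt
  have hX0 : X (p₀, 0) = p₀ := h.exp.zero p₀ hp0r
  have hev : ∀ᶠ q : E × E in 𝓝 (p₀, 0), X q ∈ Metric.ball p₀ R := by
    have := hXc.tendsto.eventually (Metric.ball_mem_nhds (X (p₀, 0)) h.R_pos)
    rwa [hX0] at this
  obtain ⟨δ₁, hδ₁, hball⟩ := Metric.eventually_nhds_iff_ball.mp hev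
  set r' := min (min R δ₁) δ with hr'
  have hr'0 : 0 < r' := lt_min (lt_min h.R_pos hδ₁) hδ
  have hr'R : r' ≤ R := (min_le_left _ _).trans (min_le_left _ _)
  have hr'1 : r' ≤ δ₁ := (min_le_left _ _).trans (min_le_right _ _)
  have hr'd : r' ≤ δ := min_le_right _ _
  have hr'r : r' ≤ r := hr'R.trans h.le
  set ρ' := min (ρ / 2) (c * r') with hρ'
  have hρ'0 : 0 < ρ' := lt_min (half_pos h.ρ_pos) (mul_pos hc hr'0)
  have hρ'2 : 2 * ρ' ≤ ρ := by
    have := min_le_left (ρ / 2) (c * r')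
    linarith
  have hρ'le : ρ' ≤ ρ := by linarith
  have hsm : ∀ p ∈ Metric.ball p₀ r', ∀ v, gnorm g p v < ρ' → v ∈ Metric.ball (0 : E) r' := by
    intro p hp v hv
    rw [mem_ball_zero_iff]
    have h1 := (hcC p (Metric.ball_subset_ball hr'd hp) v).1
    have h2 : c * ‖v‖ < c * r' := h1.trans_lt (hv.trans_le (min_le_right _ _))
    exact lt_of_mul_lt_mul_left h2 hc.le
  have hXR : ∀ p ∈ Metric.ball p₀ r', ∀ v ∈ Metric.ball (0 : E) r',
      X (p, v) ∈ Metric.ball p₀ R := by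
    intro p hp v hv
    apply hball
    rw [Metric.mem_ball] at hp hv ⊢
    rw [Prod.dist_eq]
    exact max_lt (hp.trans_le hr'1) (hv.trans_le hr'1)
  have hbR : ∀ p ∈ Metric.ball p₀ r', p ∈ Metric.ball p₀ R := fun p hp =>
    Metric.ball_subset_ball hr'R hp
  have hbr : ∀ p ∈ Metric.ball p₀ r', p ∈ Metric.ball p₀ r := fun p hp =>
    Metric.ball_subset_ball hr'r hp
  have hb0 : ∀ v ∈ Metric.ball (0 : E) r', v ∈ Metric.ball (0 : E) r := fun p hp =>
    Metric.ball_subset_ball hr'r hp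
  refine ⟨r', ρ', X, W, ?_⟩
  refine
    { r_pos := hr'0
      ρ_pos := hρ'0
      base := fun p hp => h.exp.base (hbr p hp)
      smooth := h.exp.smooth.mono (prod_mono hbr hb0)
      mem := fun p hp v hv => h.exp.mem p (hbr p hp) v (hb0 v hv)
      small := hsm
      zero := fun p hp => h.exp.zero p (hbr p hp)
      deriv_zero := fun p hp => h.exp.deriv_zero p (hbr p hp)
      deriv_inj := fun p hp v hv => (h.inv p (hbr p hp) v (hb0 v (hsm p hp v hv))).2.2
      inv_left := fun p hp v hv => (h.inv p (hbr p hp) v (hb0 v (hsm p hp v hv))).1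
      inv_smooth := fun p hp v hv => (h.inv p (hbr p hp) v (hb0 v (hsm p hp v hv))).2.1
      gauss := fun p hp v hv w =>
        h.exp.gauss hM.met h.chr (hbr p hp) (hb0 v (hsm p hp v hv)) w
      dist_geod := ?_
      surj := ?_
      between := ?_
      inf := fun p hp v w => IsExp.inf hM h.exp (hbr p hp) v w }
  · intro p hp v hv s hs s' hs'
    have hv' := hsm p hp v hv
    have hs1 : |s| ≤ 1 := abs_le.mpr hs
    exact h.dist_geod (hbr p hp) (hb0 v hv') (by linarith) hs1 (abs_le.mpr hs')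
      (hXR p hp _ (lg_smul_mem hv' hs1))
  · intro p hp z hz
    obtain ⟨v, hv, hv'⟩ := h.surj p (hbR p hp) z (hz.trans_le hρ'le)
    exact ⟨v, hv ▸ hz, hv'⟩
  · intro p hp v hv z hz
    exact h.between (hbR p hp) (hv.trans_le hρ'le)
      (fun w hw => hXR p hp w (hsm p hp w (hw.trans_lt hv))) hz

end Fin

end

end Pool.Agent.Work.MP_3b24f6_gt.Froz
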