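import Pool.Agent.Work.MP_3b24f6_gt.S.AxOf
import Pool.Agent.Work.MP_3b24f6_gt.S.Chart
import Pool.Agent.Work.MP_3b24f6_gt.S.LocGeo

/-! FROZ: a noncompact two-point homogeneous manifold of dimension at most one is Euclidean. -/

set_option autoImplicit false

open MeasureTheory Set Filter Topology Bundle
open scoped ContDiff InnerProductSpace Manifold

namespace Pool.Agent.Work.MP_3b24f6_gt.S

open Pool.Agent.Work.MP_3b24f6_gt.Froz

section
variable (d : ℕ) (M : Type) [MetricSpace M]
    [ChartedSpace (EuclideanSpace ℝ (Fin d)) M]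

theorem dim_zero (hd : d = 0) [ConnectedSpace M] : Subsingleton M := by
  subst hd
  have : DiscreteTopology M := ChartedSpace.discreteTopology (EuclideanSpace ℝ (Fin 0)) M
  exact ⟨fun a b => isPreconnected_univ.subsingleton (mem_univ a) (mem_univ b)⟩

end

section
variable (d : ℕ) (M : Type) [MetricSpace M]
    [ChartedSpace (EuclideanSpace ℝ (Fin d)) M] [IsManifold (𝓡 d) ∞ M]
    [RiemannianBundle (fun x : M => TangentSpace (𝓡 d) x)]
    [IsContMDiffRiemannianBundle (𝓡 d) ∞ (EuclideanSpace ℝ (Fin d))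
      (fun x : M => TangentSpace (𝓡 d) x)]
    [IsRiemannianManifold (𝓡 d) M]

theorem dim_one (hd : d = 1) (hn : NoncompactSpace M) [ConnectedSpace M]
    (h2 : ∀ p q p' q' : M, dist p q = dist p' q' → ∃ φ : M ≃ᵢ M, φ p = p' ∧ φ q = q') :
    Nonempty (M ≃ᵢ EuclideanSpace ℝ (Fin d)) := by
  subst hd
  have hloc : LocallyCompactSpace M :=
    ChartedSpace.locallyCompactSpace (EuclideanSpace ℝ (Fin 1)) M
  have hI : Inter M := inter_of_riemannian 1 M
  have hT : TwoPt M := h2
  have hP : ProperSpace M := proper_of_inter hI hT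
  obtain ⟨x₀⟩ : Nonempty M := inferInstance
  have hM := metModel_gC (d := 1) x₀
  obtain ⟨r, ρ, X, W, hL⟩ := exists_locGeo hM (mem_extChartAt_target x₀)
  obtain ⟨-, T, -, f, hf⟩ := exists_gexp hI hT hM hL
  let v : EuclideanSpace ℝ (Fin 1) := EuclideanSpace.single 0 1
  have hv : ‖v‖ = 1 := by simp [v]
  have hy : ∀ y : EuclideanSpace ℝ (Fin 1), y = (y 0) • v := by
    intro y
    ext i
    fin_cases i
    simp [v]
  have hiso : Isometry f := by
    refine Isometry.of_dist_eq fun y z => ?_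
    have h3 := (hf.line v hv).dist_eq (y 0) (z 0)
    have h4 : dist y z = dist (y 0) (z 0) := by
      rw [EuclideanSpace.dist_eq]
      simp [Real.dist_eq, Real.sqrt_sq_eq_abs]
    rw [h4, ← h3]
    simp only [← hy]
  exact ⟨(IsometryEquiv.mk (Equiv.ofBijective f hf.bij) hiso).symm⟩

/-- Dimension at most one. -/
theorem isEmpty_of_le_one (hn : NoncompactSpace M) [ConnectedSpace M]
    (h2 : ∀ p q p' q' : M, dist p q = dist p' q' → ∃ φ : M ≃ᵢ M, φ p = p' ∧ φ q = q')
    (hd : d ≤ 1) : Nonempty (M ≃ᵢ EuclideanSpace ℝ (Fin d)) := by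
  rcases Nat.le_one_iff_eq_zero_or_eq_one.1 hd with h | h
  · have := dim_zero d M h
    exact (noncompact_univ M (Set.finite_univ (α := M)).isCompact).elim
  · exact dim_one d M h hn h2

end

end Pool.Agent.Work.MP_3b24f6_gt.S
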