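import Pool.Agent.Work.MP_3b24f6_gt.S.AreaF

/-!
# Composition of the infinitesimal comparison with a smooth map
-/

set_option autoImplicit false

open MeasureTheory Set Filter Topology Metric Module Measure
open scoped ENNReal NNReal MeasureTheory

namespace Pool.Agent.Work.MP_3b24f6_gt

noncomputable section

variable {E : Type*} [NormedAddCommGroup E] [InnerProductSpace ℝ E] [FiniteDimensional ℝ E]
  {E' : Type*} [NormedAddCommGroup E'] [InnerProductSpace ℝ E'] [FiniteDimensional ℝ E']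
  {F : Type*} [NormedAddCommGroup F] [NormedSpace ℝ F]
  {M : Type*} [MetricSpace M]

/-- The comparison composed with a map strictly differentiable at each point. -/
theorem AFHyp.comp_strict {f : E → M} {U : Set E} {T : E → E →L[ℝ] F} (h : AFHyp f U T)
    {κ : E' → E} {κ' : E' → E' →L[ℝ] E} {U' : Set E'} (hmap : MapsTo κ U' U)
    (hκ : ∀ x ∈ U', HasStrictFDerivAt κ (κ' x) x)
    (hinj : ∀ x ∈ U', Function.Injective ((T (κ x)).comp (κ' x))) :
    AFHyp (f ∘ κ) U' fun x => (T (κ x)).comp (κ' x) := by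
  intro x hx η hη
  set L := (T (κ x)).comp (κ' x) with hL
  obtain ⟨c, hc, hcL⟩ : ∃ c : ℝ, 0 < c ∧ ∀ v, c * ‖v‖ ≤ ‖L v‖ := by
    obtain ⟨K, hK, hKL⟩ := (L : E' →ₗ[ℝ] F).exists_antilipschitzWith
      (LinearMap.ker_eq_bot.2 (hinj x hx))
    refine ⟨(K : ℝ)⁻¹, by positivity, fun v => ?_⟩
    have h1 := hKL.le_mul_dist v 0
    rw [dist_zero_right, map_zero, dist_zero_right] at h1
    have h2 : (0 : ℝ) < K := by exact_mod_cast hK
    rw [inv_mul_le_iff₀ h2]
    exact h1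
  set t : ℝ := min η 1 / 4 with ht
  have ht0 : 0 < t := by positivity
  have ht1 : t ≤ 1 / 4 := by
    have := min_le_right η 1
    rw [ht]; linarith
  have htη : 4 * t ≤ η := by
    have := min_le_left η 1
    rw [ht]; linarith
  obtain ⟨r, hr, hr'⟩ := h (κ x) (hmap hx) t ht0
  set N := ‖T (κ x)‖ with hN
  have hN0 : 0 ≤ N := norm_nonneg _
  set ε := c * t / (N + 1) with hε
  have hε0 : 0 < ε := by positivity
  have hs := (hκ x hx).isLittleO.def hε0
  have hcont : ContinuousAt κ x := (hκ x hx).continuousAt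
  obtain ⟨r1, hr1, hr1'⟩ := Metric.eventually_nhds_iff_ball.1 hs
  obtain ⟨r2, hr2, hr2'⟩ := Metric.continuousAt_iff.1 hcont r hr
  refine ⟨min r1 r2, lt_min hr1 hr2, fun y hy z hz hyU hzU => ?_⟩
  have hy1 := ball_subset_ball (min_le_left r1 r2) hy
  have hz1 := ball_subset_ball (min_le_left r1 r2) hz
  have hy2 : κ y ∈ ball (κ x) r := hr2' (ball_subset_ball (min_le_right r1 r2) hy)
  have hz2 : κ z ∈ ball (κ x) r := hr2' (ball_subset_ball (min_le_right r1 r2) hz)
  have h1 : ‖κ y - κ z - κ' x (y - z)‖ ≤ ε * ‖y - z‖ := by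
    have := hr1' (y, z) (by
      rw [mem_ball, Prod.dist_eq]
      exact max_lt hy1 hz1)
    simpa using this
  have h2 : ‖T (κ x) (κ y - κ z) - L (y - z)‖ ≤ t * ‖L (y - z)‖ := by
    have h3 : T (κ x) (κ y - κ z) - L (y - z) = T (κ x) (κ y - κ z - κ' x (y - z)) := by
      rw [map_sub (T (κ x)) (κ y - κ z)]
      rfl
    rw [h3]
    calc ‖T (κ x) (κ y - κ z - κ' x (y - z))‖ ≤ N * ‖κ y - κ z - κ' x (y - z)‖ :=
          (T (κ x)).le_opNorm _
      _ ≤ N * (ε * ‖y - z‖) := mul_le_mul_of_nonneg_left h1 hN0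
      _ = N / (N + 1) * t * (c * ‖y - z‖) := by rw [hε]; field_simp
      _ ≤ 1 * t * (c * ‖y - z‖) := by
          have h4 : N / (N + 1) ≤ 1 := by rw [div_le_one (by positivity)]; linarith
          gcongr
      _ = t * (c * ‖y - z‖) := by ring
      _ ≤ t * ‖L (y - z)‖ := mul_le_mul_of_nonneg_left (hcL _) ht0.le
  have h5 : ‖T (κ x) (κ y - κ z)‖ ≤ (1 + t) * ‖L (y - z)‖ := by
    have := norm_le_norm_add_norm_sub (L (y - z)) (T (κ x) (κ y - κ z))
    rw [norm_sub_rev] at this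
    linarith
  have h6 : (1 - t) * ‖L (y - z)‖ ≤ ‖T (κ x) (κ y - κ z)‖ := by
    have := norm_le_norm_add_norm_sub (T (κ x) (κ y - κ z)) (L (y - z))
    linarith
  have h7 := hr' (κ y) hy2 (κ z) hz2 (hmap hyU) (hmap hzU)
  have hLn : 0 ≤ ‖L (y - z)‖ := norm_nonneg _
  constructor
  · refine le_trans ?_ h7.1
    calc (1 - η) * ‖L (y - z)‖ ≤ (1 - t) * (1 - t) * ‖L (y - z)‖ := by
          refine mul_le_mul_of_nonneg_right ?_ hLn
          nlinarith
      _ = (1 - t) * ((1 - t) * ‖L (y - z)‖) := by ring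
      _ ≤ (1 - t) * ‖T (κ x) (κ y - κ z)‖ :=
          mul_le_mul_of_nonneg_left h6 (by linarith)
  · refine h7.2.trans ?_
    calc (1 + t) * ‖T (κ x) (κ y - κ z)‖ ≤ (1 + t) * ((1 + t) * ‖L (y - z)‖) :=
          mul_le_mul_of_nonneg_left h5 (by linarith)
      _ = (1 + t) * (1 + t) * ‖L (y - z)‖ := by ring
      _ ≤ (1 + η) * ‖L (y - z)‖ := by
          refine mul_le_mul_of_nonneg_right ?_ hLn
          nlinarith

/-- The comparison composed with a `C¹` map. -/
theorem AFHyp.comp {f : E → M} {U : Set E} {T : E → E →L[ℝ] F} (h : AFHyp f U T)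
    {κ : E' → E} {U' : Set E'} (hU' : IsOpen U') (hmap : MapsTo κ U' U)
    (hκ : ContDiffOn ℝ 1 κ U')
    (hinj : ∀ x ∈ U', Function.Injective ((T (κ x)).comp (fderiv ℝ κ x))) :
    AFHyp (f ∘ κ) U' fun x => (T (κ x)).comp (fderiv ℝ κ x) :=
  h.comp_strict hmap (fun x hx => (hκ.contDiffAt (hU'.mem_nhds hx)).hasStrictFDerivAt one_ne_zero)
    hinj

/-- Restriction to a smaller set. -/
theorem AFHyp.mono {f : E → M} {U U' : Set E} {T : E → E →L[ℝ] F} (h : AFHyp f U T)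
    (hU : U' ⊆ U) : AFHyp f U' T := fun x hx η hη => by
  obtain ⟨r, hr, hr'⟩ := h x (hU hx) η hη
  exact ⟨r, hr, fun y hy z hz hyU hzU => hr' y hy z hz (hU hyU) (hU hzU)⟩

/-- Only the norms of the values of the linear maps matter. -/
theorem AFHyp.congr {G : Type*} [NormedAddCommGroup G] [NormedSpace ℝ G]
    {f : E → M} {U : Set E} {T : E → E →L[ℝ] F} (h : AFHyp f U T) {S : E → E →L[ℝ] G}
    (hS : ∀ x ∈ U, ∀ v, ‖S x v‖ = ‖T x v‖) : AFHyp f U S := fun x hx η hη => by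
  obtain ⟨r, hr, hr'⟩ := h x hx η hη
  refine ⟨r, hr, fun y hy z hz hyU hzU => ?_⟩
  rw [hS x hx]
  exact hr' y hy z hz hyU hzU

end

end Pool.Agent.Work.MP_3b24f6_gt
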