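import Mathlib

/-!
# Linear algebra of the area element of a hypersurface

`A` is a positive definite symmetric operator (a scalar product `⟪A u, v⟫`), `ν` a conormal with
`⟪ν, e⟫ > 0`. The hyperplane `ν = 0` is the graph of `x ↦ x - (⟪ν, x⟫ / ⟪ν, e⟫) e` over the
orthogonal complement of `e`; its area element for the scalar product `A` is
`√(det A) · √⟪A⁻¹ ν, ν⟫ / ⟪ν, e⟫`.
-/

set_option autoImplicit false

open scoped InnerProductSpace MatrixOrder Matrix

namespace Pool.Agent.Work.MP_3b24f6_gt.LinG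

noncomputable section

/-- A positive semidefinite real matrix is `Cᵀ C`. -/
theorem exists_sq {m : Type*} [Fintype m] [DecidableEq m] (G : Matrix m m ℝ)
    (hG : G.PosSemidef) : ∃ C : Matrix m m ℝ, Cᵀ * C = G := by
  have h0 : 0 ≤ G := hG.nonneg
  refine ⟨CFC.sqrt G, ?_⟩
  have h1 : (CFC.sqrt G)ᴴ = CFC.sqrt G := (Matrix.nonneg_iff_posSemidef.mp (CFC.sqrt_nonneg G)).1
  rw [← Matrix.conjTranspose_eq_transpose_of_trivial, h1]
  exact CFC.sqrt_mul_sqrt_self G h0

variable {E : Type*} [NormedAddCommGroup E] [InnerProductSpace ℝ E] [FiniteDimensional ℝ E]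

omit [FiniteDimensional ℝ E] in
/-- Determinant of a perturbation of rank two. -/
theorem det_rank_two {ι : Type*} [Fintype ι] [DecidableEq ι] (b : OrthonormalBasis ι ℝ E)
    (u v a c : E) (L : E →ₗ[ℝ] E) (hL : ∀ x, L x = x + ⟪u, x⟫_ℝ • a + ⟪v, x⟫_ℝ • c) :
    LinearMap.det L = (1 + ⟪u, a⟫_ℝ) * (1 + ⟪v, c⟫_ℝ) - ⟪u, c⟫_ℝ * ⟪v, a⟫_ℝ := by
  rw [← LinearMap.det_toMatrix b.toBasis]
  let U : Matrix ι (Fin 2) ℝ := Matrix.of fun i k => if k = 0 then b.repr a i else b.repr c i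
  let V : Matrix (Fin 2) ι ℝ := Matrix.of fun k i => if k = 0 then b.repr u i else b.repr v i
  have hm : LinearMap.toMatrix b.toBasis b.toBasis L = 1 + U * V := by
    ext i j
    rw [LinearMap.toMatrix_apply, Matrix.add_apply, Matrix.mul_apply, Fin.sum_univ_two]
    simp only [OrthonormalBasis.coe_toBasis, OrthonormalBasis.coe_toBasis_repr_apply]
    rw [hL]
    simp only [U, V, map_add, map_smul, PiLp.add_apply, PiLp.smul_apply, smul_eq_mul, if_true,
      one_ne_zero, if_false, Matrix.one_apply, b.repr_apply_apply, Matrix.of_apply]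
    rw [orthonormal_iff_ite.mp b.orthonormal, real_inner_comm u (b j), real_inner_comm v (b j)]
    ring
  have hs : ∀ p q : E, ∑ i, b.repr p i * b.repr q i = ⟪p, q⟫_ℝ := by
    intro p q
    rw [← b.repr.inner_map_map, PiLp.inner_apply]
    refine Finset.sum_congr rfl fun i _ => ?_
    simp [mul_comm]
  rw [hm, Matrix.det_one_add_mul_comm, Matrix.det_fin_two]
  simp only [Matrix.add_apply, Matrix.mul_apply, Matrix.one_apply, U, V, if_true, one_ne_zero,
    if_false, zero_ne_one, Matrix.of_apply, hs]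
  ring

theorem det_adjoint_eq {ι : Type*} [Fintype ι] [DecidableEq ι] (b : OrthonormalBasis ι ℝ E)
    (L : E →ₗ[ℝ] E) : LinearMap.det (LinearMap.adjoint L) = LinearMap.det L := by
  rw [← LinearMap.det_toMatrix b.toBasis, ← LinearMap.det_toMatrix b.toBasis L,
    LinearMap.toMatrix_adjoint, Matrix.det_conjTranspose]
  rfl

/-- The graph map over the orthogonal complement of `e` with values in the kernel of `ν`. -/
def grT (ν e x : E) : E := x - (⟪ν, x⟫_ℝ / ⟪ν, e⟫_ℝ) • e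

/-- The Gram determinant of the images of an orthonormal basis of the complement of `e`. -/
theorem det_gram {ι : Type*} [Fintype ι] [DecidableEq ι] (v : ι → E) (hv : Orthonormal ℝ v)
    (e : E) (he : ‖e‖ = 1) (hve : ∀ i, ⟪e, v i⟫_ℝ = 0)
    (hcard : Fintype.card ι + 1 = Module.finrank ℝ E) (A : E →ₗ[ℝ] E)
    (hA : ∀ u v, ⟪A u, v⟫_ℝ = ⟪u, A v⟫_ℝ) (w ν : E) (hw : A w = ν) (hw0 : ⟪w, ν⟫_ℝ ≠ 0)
    (hν : ⟪ν, e⟫_ℝ ≠ 0) :
    (Matrix.of fun i j => ⟪grT ν e (v i), A (grT ν e (v j))⟫_ℝ).det =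
      LinearMap.det A * (⟪w, ν⟫_ℝ / ⟪ν, e⟫_ℝ ^ 2) := by
  classical
  have hee : ⟪e, e⟫_ℝ = 1 := by rw [real_inner_self_eq_norm_sq, he]; norm_num
  have hvv : ∀ i j, ⟪v i, v j⟫_ℝ = if i = j then 1 else 0 := fun i j =>
    orthonormal_iff_ite.mp hv i j
  -- an orthonormal basis of `E`
  let cv : ι ⊕ Unit → E := Sum.elim v (fun _ => e)
  have hcv : Orthonormal ℝ cv := by
    rw [orthonormal_iff_ite]
    rintro (i | i) (j | j)
    · simp only [cv, Sum.elim_inl, hvv, Sum.inl.injEq]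
    · simp only [cv, Sum.elim_inl, Sum.elim_inr, reduceCtorEq, if_false]
      rw [real_inner_comm]
      exact hve _
    · simp only [cv, Sum.elim_inl, Sum.elim_inr, reduceCtorEq, if_false]
      exact hve _
    · simp only [cv, Sum.elim_inr, if_true, hee]
  have hcard' : Fintype.card (ι ⊕ Unit) = Module.finrank ℝ E := by
    rw [Fintype.card_sum, Fintype.card_unit, hcard]
  have hspan : ⊤ ≤ Submodule.span ℝ (Set.range cv) :=
    (hcv.linearIndependent.span_eq_top_of_card_eq_finrank' hcard').ge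
  let c : OrthonormalBasis (ι ⊕ Unit) ℝ E := OrthonormalBasis.mk hcv hspan
  have hc : ∀ k, c k = cv k := fun k => by rw [OrthonormalBasis.coe_mk]
  -- the map `L`
  set νe := ⟪ν, e⟫_ℝ with hνe
  let L : E →ₗ[ℝ] E := LinearMap.id
    + ((innerSL ℝ ν : E →L[ℝ] ℝ) : E →ₗ[ℝ] ℝ).smulRight (-(1 / νe) • e)
    + ((innerSL ℝ e : E →L[ℝ] ℝ) : E →ₗ[ℝ] ℝ).smulRight w
  have hL : ∀ x, L x = x + ⟪ν, x⟫_ℝ • (-(1 / νe) • e) + ⟪e, x⟫_ℝ • w := by
    intro x
    simp [L]
  have hdetL : LinearMap.det L = ⟪w, ν⟫_ℝ / νe := by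
    rw [det_rank_two c ν e (-(1 / νe) • e) w L hL]
    rw [inner_smul_right, inner_smul_right, ← hνe, hee, real_inner_comm ν w]
    field_simp
    ring
  have hLb : ∀ i, L (v i) = grT ν e (v i) := by
    intro x
    rw [hL, hve, zero_smul, add_zero, grT, ← hνe, smul_smul, sub_eq_add_neg, ← neg_smul]
    congr 2
    ring
  have hLe : L e = w := by
    rw [hL, hee, one_smul, ← hνe, smul_smul]
    have : νe * -(1 / νe) = -1 := by
      field_simp
    rw [this]
    simp
  have hker : ∀ x : E, ⟪ν, grT ν e x⟫_ℝ = 0 := by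
    intro x
    rw [grT, inner_sub_right, inner_smul_right, ← hνe]
    field_simp
    ring
  -- the Gram matrix
  set G : Matrix ι ι ℝ := Matrix.of fun i j => ⟪grT ν e (v i), A (grT ν e (v j))⟫_ℝ with hG
  let f : E →ₗ[ℝ] E := LinearMap.adjoint L ∘ₗ A ∘ₗ L
  have hf : ∀ x y, ⟪x, f y⟫_ℝ = ⟪L x, A (L y)⟫_ℝ := by
    intro x y
    exact LinearMap.adjoint_inner_right L x (A (L y))
  have hmat : LinearMap.toMatrix c.toBasis c.toBasis f =
      Matrix.fromBlocks G 0 0 (Matrix.of fun _ _ => ⟪w, ν⟫_ℝ) := by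
    ext i j
    rw [LinearMap.toMatrix_apply]
    simp only [OrthonormalBasis.coe_toBasis, OrthonormalBasis.coe_toBasis_repr_apply,
      c.repr_apply_apply, hc, hf]
    rcases i with i | i <;> rcases j with j | j
    · simp only [cv, Sum.elim_inl, Matrix.fromBlocks_apply₁₁, hLb]
      rfl
    · simp only [cv, Sum.elim_inl, Sum.elim_inr, Matrix.fromBlocks_apply₁₂, hLb, hLe, hw,
        Matrix.zero_apply]
      rw [real_inner_comm]
      exact hker _
    · simp only [cv, Sum.elim_inl, Sum.elim_inr, Matrix.fromBlocks_apply₂₁, hLb, hLe,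
        Matrix.zero_apply]
      rw [← hA, hw]
      exact hker _
    · simp only [cv, Sum.elim_inr, Matrix.fromBlocks_apply₂₂, hLe, hw]
      rfl
  have h1 : LinearMap.det f = G.det * ⟪w, ν⟫_ℝ := by
    rw [← LinearMap.det_toMatrix c.toBasis, hmat, Matrix.det_fromBlocks_zero₂₁,
      Matrix.det_unique (Matrix.of fun _ _ => ⟪w, ν⟫_ℝ)]
    rfl
  have h2 : LinearMap.det f = LinearMap.det L * (LinearMap.det A * LinearMap.det L) := by
    show LinearMap.det (LinearMap.adjoint L ∘ₗ A ∘ₗ L) = _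
    rw [LinearMap.det_comp, LinearMap.det_comp, det_adjoint_eq c L]
  rw [h1, hdetL] at h2
  have h4 : G.det * ⟪w, ν⟫_ℝ = (LinearMap.det A * (⟪w, ν⟫_ℝ / νe ^ 2)) * ⟪w, ν⟫_ℝ := by
    rw [h2]
    field_simp
  exact mul_right_cancel₀ hw0 h4

theorem exists_area (A B : E →L[ℝ] E) (hA : ∀ u v, ⟪A u, v⟫_ℝ = ⟪u, A v⟫_ℝ)
    (hpos : ∀ v, v ≠ 0 → 0 < ⟪A v, v⟫_ℝ) (hB : ∀ v, A (B v) = v) (ν e : E) (he : ‖e‖ = 1)
    (hν : 0 < ⟪ν, e⟫_ℝ) :
    ∃ S : (ℝ ∙ e)ᗮ →L[ℝ] (ℝ ∙ e)ᗮ,
      (∀ x : (ℝ ∙ e)ᗮ, ‖S x‖ ^ 2 = ⟪A (grT ν e x), grT ν e x⟫_ℝ) ∧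
      |LinearMap.det (S : (ℝ ∙ e)ᗮ →ₗ[ℝ] (ℝ ∙ e)ᗮ)| =
        √(LinearMap.det (A : E →ₗ[ℝ] E)) * √⟪B ν, ν⟫_ℝ / ⟪ν, e⟫_ℝ := by
  classical
  set F : Submodule ℝ E := (ℝ ∙ e)ᗮ with hF
  set m := Module.finrank ℝ F with hm
  let b : OrthonormalBasis (Fin m) ℝ F := stdOrthonormalBasis ℝ F
  have he0 : e ≠ 0 := by
    intro h
    rw [h, norm_zero] at he
    exact zero_ne_one he
  have hFe : ∀ x : F, ⟪e, (x : E)⟫_ℝ = 0 := fun x =>
    Submodule.mem_orthogonal_singleton_iff_inner_right.mp x.2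
  have hb : Orthonormal ℝ (fun i => (b i : E)) := by
    rw [orthonormal_iff_ite]
    exact fun i j => orthonormal_iff_ite.mp b.orthonormal i j
  have hcard : Fintype.card (Fin m) + 1 = Module.finrank ℝ E := by
    have h1 := (ℝ ∙ e).finrank_add_finrank_orthogonal
    rw [finrank_span_singleton he0] at h1
    rw [Fintype.card_fin, ← h1, hm, hF, add_comm]
  have hBpos : 0 < ⟪B ν, ν⟫_ℝ := by
    have h1 : B ν ≠ 0 := by
      intro h
      have h2 := hB ν
      rw [h, map_zero] at h2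
      rw [← h2, inner_zero_left] at hν
      exact lt_irrefl _ hν
    have h3 := hpos (B ν) h1
    rwa [hB, real_inner_comm] at h3
  have hdetG := det_gram (fun i => (b i : E)) hb e he (fun i => hFe _) hcard (A : E →ₗ[ℝ] E) hA
    (B ν) ν (hB ν) hBpos.ne' hν.ne'
  set νe := ⟪ν, e⟫_ℝ with hνe
  set G : Matrix (Fin m) (Fin m) ℝ := Matrix.of fun i j =>
    ⟪grT ν e (b i : E), (A : E →ₗ[ℝ] E) (grT ν e (b j : E))⟫_ℝ with hG
  -- the square root
  let gT : F →ₗ[ℝ] E := F.subtype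
    + (((innerSL ℝ ν : E →L[ℝ] ℝ) : E →ₗ[ℝ] ℝ) ∘ₗ F.subtype).smulRight (-(1 / νe) • e)
  have hgT : ∀ x : F, gT x = grT ν e x := by
    intro x
    rw [grT, ← hνe, sub_eq_add_neg, ← neg_smul]
    simp only [gT, LinearMap.add_apply, LinearMap.smulRight_apply, LinearMap.comp_apply,
      Submodule.subtype_apply, smul_smul]
    congr 2
    show ⟪ν, (x : E)⟫_ℝ * -(1 / νe) = _
    ring
  have hquad : ∀ x : F, (fun i => b.repr x i) ⬝ᵥ (G *ᵥ fun i => b.repr x i) =
      ⟪grT ν e x, A (grT ν e x)⟫_ℝ := by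
    intro x
    have h1 : grT ν e x = ∑ i, b.repr x i • grT ν e (b i : E) := by
      rw [← hgT]
      conv_lhs => rw [← b.sum_repr x]
      rw [map_sum]
      refine Finset.sum_congr rfl fun i _ => ?_
      rw [map_smul, hgT]
    conv_rhs => rw [h1]
    rw [map_sum, sum_inner]
    simp only [dotProduct, Matrix.mulVec, hG, Matrix.of_apply, ContinuousLinearMap.coe_coe]
    refine Finset.sum_congr rfl fun i _ => ?_
    rw [inner_sum, Finset.mul_sum]
    refine Finset.sum_congr rfl fun j _ => ?_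
    rw [map_smul, inner_smul_left, inner_smul_right]
    simp only [conj_trivial]
    ring
  have hGps : G.PosSemidef := by
    refine Matrix.PosSemidef.of_dotProduct_mulVec_nonneg ?_ ?_
    · ext i j
      rw [Matrix.conjTranspose_apply]
      simp only [hG, Matrix.of_apply, star_trivial, ContinuousLinearMap.coe_coe]
      rw [← hA, real_inner_comm]
    · intro v
      have h1 := hquad (∑ i, v i • b i)
      have h2 : (fun i => b.repr (∑ i, v i • b i) i) = v := by
        funext i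
        rw [b.repr_apply_apply, inner_sum]
        simp [inner_smul_right, orthonormal_iff_ite.mp b.orthonormal]
      rw [h2] at h1
      rw [star_trivial, h1, ← hA]
      by_cases h0 : grT ν e (∑ i, v i • b i : F) = 0
      · rw [h0, map_zero, inner_zero_left]
      · exact (hpos _ h0).le
  obtain ⟨C, hC⟩ := exists_sq G hGps
  refine ⟨LinearMap.toContinuousLinearMap (Matrix.toLin b.toBasis b.toBasis C), ?_, ?_⟩
  · intro x
    have h1 : ∀ i, b.repr (Matrix.toLin b.toBasis b.toBasis C x) i = (C *ᵥ fun i => b.repr x i) i := by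
      intro i
      have h2 := LinearMap.toMatrix_mulVec_repr b.toBasis b.toBasis
        (Matrix.toLin b.toBasis b.toBasis C) x
      rw [LinearMap.toMatrix_toLin] at h2
      have h3 := congrFun h2 i
      simp only [OrthonormalBasis.coe_toBasis_repr_apply] at h3
      rw [← h3]
      rfl
    rw [hA, ← hquad, ← hC]
    show ‖(Matrix.toLin b.toBasis b.toBasis C) x‖ ^ 2 = _
    rw [← b.repr.norm_map, EuclideanSpace.norm_sq_eq]
    simp only [Real.norm_eq_abs, sq_abs, h1]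
    rw [← Matrix.mulVec_mulVec, Matrix.dotProduct_mulVec, Matrix.vecMul_transpose]
    simp only [dotProduct, sq]
  · have h1 : LinearMap.det (Matrix.toLin b.toBasis b.toBasis C) = C.det :=
      LinearMap.det_toLin b.toBasis C
    have h2 : C.det ^ 2 = G.det := by
      rw [← hC, Matrix.det_mul, Matrix.det_transpose, sq]
    have h3 : |C.det| = √(G.det) := by
      rw [← h2, Real.sqrt_sq_eq_abs]
    have h4 : (LinearMap.toContinuousLinearMap (Matrix.toLin b.toBasis b.toBasis C) :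
        F →ₗ[ℝ] F) = Matrix.toLin b.toBasis b.toBasis C := by
      ext x
      rfl
    rw [h4, h1, h3, hdetG, Real.sqrt_mul' _ (by positivity), Real.sqrt_div' _ (by positivity),
      Real.sqrt_sq hν.le, mul_div_assoc]

/-- Area element of the tangent hyperplane `L = 0`, seen from a parameter space `W`. -/
theorem normDet_tangent {W : Type*} [NormedAddCommGroup W] [InnerProductSpace ℝ W]
    [FiniteDimensional ℝ W] (ι : W →ₗᵢ[ℝ] E) (e : E) (he : ‖e‖ = 1)
    (hfin : Module.finrank ℝ W + 1 = Module.finrank ℝ E) (hι : ∀ a, ⟪ι a, e⟫_ℝ = 0)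
    (B : E →L[ℝ] E) (hB : B.det ≠ 0) (L : E →L[ℝ] ℝ) (hL : 0 < L e) (m : E)
    (hm : ∀ v, ⟪m, B v⟫_ℝ = L v) :
    (((B.comp (ι.toContinuousLinearMap -
      ((L e)⁻¹ • (L.comp ι.toContinuousLinearMap)).smulRight e) : W →L[ℝ] E) :
        W →ₗ[ℝ] E)).normDet = |B.det| * ‖m‖ / L e := by
  classical
  let Bl : E →ₗ[ℝ] E := (B : E →ₗ[ℝ] E)
  have hBdet : B.det = LinearMap.det Bl := rfl
  -- the inverse of `B`
  let Be : E ≃ₗ[ℝ] E := LinearEquiv.ofIsUnitDet (f := Bl) (v := (stdOrthonormalBasis ℝ E).toBasis)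
    (v' := (stdOrthonormalBasis ℝ E).toBasis) (by
      rw [LinearMap.det_toMatrix]
      exact isUnit_iff_ne_zero.mpr hB)
  have hBe : ∀ x, B (Be.symm x) = x := fun x => Be.apply_symm_apply x
  let A : E →ₗ[ℝ] E := LinearMap.adjoint Bl ∘ₗ Bl
  have hA' : ∀ u v, ⟪u, A v⟫_ℝ = ⟪B u, B v⟫_ℝ := by
    intro u v
    exact LinearMap.adjoint_inner_right Bl u (Bl v)
  have hA : ∀ u v, ⟪A u, v⟫_ℝ = ⟪u, A v⟫_ℝ := by
    intro u v
    rw [hA', real_inner_comm, hA', real_inner_comm]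
  let w := Be.symm m
  have hBw : B w = m := hBe m
  let ν := A w
  have hν : ∀ x, ⟪ν, x⟫_ℝ = L x := by
    intro x
    show ⟪A w, x⟫_ℝ = L x
    rw [hA, hA', hBw, hm]
  have hwν : ⟪w, ν⟫_ℝ = ‖m‖ ^ 2 := by
    show ⟪w, A w⟫_ℝ = _
    rw [hA', hBw, real_inner_self_eq_norm_sq]
  have hm0 : m ≠ 0 := by
    intro h
    have := hm e
    rw [h, inner_zero_left] at this
    exact hL.ne this
  have hm1 : 0 < ‖m‖ := norm_pos_iff.mpr hm0
  let b := stdOrthonormalBasis ℝ W
  have hb : Orthonormal ℝ (fun i => ι (b i)) := b.orthonormal.comp_linearIsometry ι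
  have key := det_gram (fun i => ι (b i)) hb e he (fun i => by rw [real_inner_comm]; exact hι _)
    (by rw [Fintype.card_fin]; exact hfin) A hA w ν rfl (by rw [hwν]; positivity)
    (by rw [hν]; exact hL.ne')
  have hdetA : LinearMap.det A = B.det ^ 2 := by
    show LinearMap.det (LinearMap.adjoint Bl ∘ₗ Bl) = _
    rw [LinearMap.det_comp, det_adjoint_eq (stdOrthonormalBasis ℝ E) Bl, hBdet, sq]
  rw [hdetA, hwν, hν] at key
  set K : W →L[ℝ] E := B.comp (ι.toContinuousLinearMap -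
      ((L e)⁻¹ • (L.comp ι.toContinuousLinearMap)).smulRight e) with hK
  have hKx : ∀ x, K x = B (grT ν e (ι x)) := by
    intro x
    rw [hK, grT, hν, hν]
    simp only [ContinuousLinearMap.comp_apply, _root_.sub_apply,
      ContinuousLinearMap.smulRight_apply, _root_.smul_apply,
      LinearIsometry.coe_toContinuousLinearMap, smul_eq_mul]
    congr 2
    congr 1
    ring
  have hgram : Matrix.gram ℝ (fun i => (K : W →ₗ[ℝ] E) (b i)) =
      Matrix.of fun i j => ⟪grT ν e (ι (b i)), A (grT ν e (ι (b j)))⟫_ℝ := by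
    ext i j
    rw [Matrix.gram_apply, Matrix.of_apply, hA']
    show ⟪K (b i), K (b j)⟫_ℝ = _
    rw [hKx, hKx]
  have h1 := (K : W →ₗ[ℝ] E).normDet_sq_eq_det_gram b
  rw [hgram, key] at h1
  have h2 : (K : W →ₗ[ℝ] E).normDet ^ 2 = (|B.det| * ‖m‖ / L e) ^ 2 := by
    have h3 : (K : W →ₗ[ℝ] E).normDet ^ 2 = B.det ^ 2 * (‖m‖ ^ 2 / L e ^ 2) := by
      exact_mod_cast h1
    rw [h3, div_pow, mul_pow, sq_abs]
    ring
  have h3 : 0 ≤ |B.det| * ‖m‖ / L e := by positivity
  exact (pow_left_inj₀ (LinearMap.normDet_nonneg _) h3 two_ne_zero).mp h2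

end

end Pool.Agent.Work.MP_3b24f6_gt.LinG
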