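import Mathlib

/-!
# Area formula for maps into metric spaces (block F1 of the bridge)

If `f` is injective on an open set `U` and `dist (f y) (f z) = (1 ± η) ‖T_x (y - z)‖` near each
point `x` of `U`, then `μH[k] (f '' A) = ∫_A |det T_x|` for every measurable `A ⊆ U`.
-/

set_option autoImplicit false

open MeasureTheory Set Filter Topology Metric Module Measure
open scoped ENNReal NNReal MeasureTheory

namespace Pool.Agent.Work.MP_3b24f6_gt

noncomputable section

variable {E : Type*} [NormedAddCommGroup E] [InnerProductSpace ℝ E] [FiniteDimensional ℝ E]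
  [MeasurableSpace E] [BorelSpace E]
  {M : Type*} [MetricSpace M] [MeasurableSpace M] [BorelSpace M]

/-- Determinants of comparable maps. -/
theorem af_det_le {S T : E →L[ℝ] E} {c : ℝ} (hc : 0 ≤ c) (hT : T.det ≠ 0)
    (h : ∀ v, ‖S v‖ ≤ c * ‖T v‖) : |S.det| ≤ c ^ finrank ℝ E * |T.det| := by
  set μ : Measure E := μH[finrank ℝ E] with hμ
  have hpos : 0 < μ (ball (0 : E) 1) := measure_ball_pos μ 0 one_pos
  have hfin : μ (ball (0 : E) 1) ≠ ⊤ := measure_ball_lt_top.ne
  set B : Set E := T ⁻¹' ball 0 1 with hB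
  have hTB : T '' B = ball 0 1 := by
    refine image_preimage_eq _ ?_
    have hu : IsUnit (LinearMap.det (T : E →ₗ[ℝ] E)) := by
      exact isUnit_iff_ne_zero.2 hT
    have := (LinearMap.equivOfDetNeZero (T : E →ₗ[ℝ] E) hT).surjective
    exact this
  have h1 : S '' B ⊆ closedBall 0 c := by
    rintro _ ⟨v, hv, rfl⟩
    rw [mem_closedBall_zero_iff]
    have hv' : ‖T v‖ < 1 := by simpa [hB] using hv
    refine (h v).trans ?_
    nlinarith
  have h2 := measure_mono (μ := μ) h1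
  rw [Measure.addHaar_image_continuousLinearMap] at h2
  have h3 : μ (ball (0 : E) 1) = ENNReal.ofReal |T.det| * μ B := by
    rw [← Measure.addHaar_image_continuousLinearMap, hTB]
  rw [Measure.addHaar_closedBall _ _ hc] at h2
  have h4 : ENNReal.ofReal |S.det| * μ (ball (0 : E) 1)
      ≤ ENNReal.ofReal (c ^ finrank ℝ E * |T.det|) * μ (ball (0 : E) 1) := by
    calc ENNReal.ofReal |S.det| * μ (ball (0 : E) 1)
        = ENNReal.ofReal |T.det| * (ENNReal.ofReal |S.det| * μ B) := by rw [h3]; ring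
      _ ≤ ENNReal.ofReal |T.det| * (ENNReal.ofReal (c ^ finrank ℝ E) * μ (ball (0 : E) 1)) :=
          mul_le_mul_right h2 _
      _ = _ := by
          rw [ENNReal.ofReal_mul (by positivity)]
          ring
  have h5 := (ENNReal.mul_le_mul_iff_left hpos.ne' hfin).1 h4
  rwa [ENNReal.ofReal_le_ofReal_iff (by positivity)] at h5

/-- Upper bound on a small piece. -/
theorem af_piece_le {f : E → M} {s : Set E} {T : E →L[ℝ] E} (hT : T.det ≠ 0) {c : ℝ} (hc : 0 ≤ c)
    (h : ∀ y ∈ s, ∀ z ∈ s, dist (f y) (f z) ≤ c * ‖T (y - z)‖) :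
    μH[finrank ℝ E] (f '' s)
      ≤ ENNReal.ofReal (c ^ finrank ℝ E) * (ENNReal.ofReal |T.det| * μH[finrank ℝ E] s) := by
  set e := (LinearMap.equivOfDetNeZero (T : E →ₗ[ℝ] E) hT) with he
  have hee : ∀ v, e v = T v := fun v => rfl
  set g : E → M := fun a => f (e.symm a) with hg
  have h1 : f '' s = g '' (T '' s) := by
    ext x
    simp only [mem_image, exists_exists_and_eq_and, hg]
    refine exists_congr fun a => and_congr_right fun _ => ?_
    rw [← hee, e.symm_apply_apply]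
  have h2 : LipschitzOnWith c.toNNReal g (T '' s) := by
    refine LipschitzOnWith.of_dist_le_mul ?_
    rintro _ ⟨y, hy, rfl⟩ _ ⟨z, hz, rfl⟩
    simp only [hg]
    rw [← hee, ← hee, e.symm_apply_apply, e.symm_apply_apply, Real.coe_toNNReal c hc, dist_eq_norm,
      hee, hee, ← map_sub]
    exact h y hy z hz
  rw [h1]
  refine (h2.hausdorffMeasure_image_le (Nat.cast_nonneg _)).trans ?_
  rw [Measure.addHaar_image_continuousLinearMap, ENNReal.rpow_natCast, ENNReal.ofReal_pow hc]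
  exact le_rfl

/-- Lower bound on a small piece. -/
theorem af_le_piece {f : E → M} {s : Set E} {T : E →L[ℝ] E} (hT : T.det ≠ 0) {c : ℝ} (hc : 0 < c)
    (h : ∀ y ∈ s, ∀ z ∈ s, c * ‖T (y - z)‖ ≤ dist (f y) (f z)) :
    ENNReal.ofReal (c ^ finrank ℝ E) * (ENNReal.ofReal |T.det| * μH[finrank ℝ E] s)
      ≤ μH[finrank ℝ E] (f '' s) := by
  set e := (LinearMap.equivOfDetNeZero (T : E →ₗ[ℝ] E) hT) with he
  have hee : ∀ v, e v = T v := fun v => rfl
  rcases s.eq_empty_or_nonempty with rfl | hs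
  · simp
  have hne : Nonempty E := ⟨hs.some⟩
  have hinj : InjOn f s := by
    intro y hy z hz hyz
    have h1 := h y hy z hz
    rw [hyz, dist_self] at h1
    have h2 : ‖T (y - z)‖ ≤ 0 := by
      by_contra hcon
      rw [not_le] at hcon
      have := mul_pos hc hcon
      linarith
    have h3 : T (y - z) = 0 := norm_le_zero_iff.1 h2
    have h4 : y - z = 0 := by
      have : e (y - z) = e 0 := by rw [hee, h3, map_zero]
      exact e.injective this
    exact sub_eq_zero.1 h4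
  set g : M → E := fun x => T (Function.invFunOn f s x) with hg
  have hgf : ∀ y ∈ s, g (f y) = T y := fun y hy => by
    simp only [hg]
    rw [hinj.leftInvOn_invFunOn hy]
  have h1 : T '' s = g '' (f '' s) := by
    ext x
    simp only [mem_image, exists_exists_and_eq_and]
    refine exists_congr fun a => and_congr_right fun ha => ?_
    rw [hgf a ha]
  have h2 : LipschitzOnWith (c⁻¹).toNNReal g (f '' s) := by
    refine LipschitzOnWith.of_dist_le_mul ?_
    rintro _ ⟨y, hy, rfl⟩ _ ⟨z, hz, rfl⟩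
    rw [hgf y hy, hgf z hz, Real.coe_toNNReal _ (inv_pos.2 hc).le, dist_eq_norm, ← map_sub,
      inv_mul_eq_div, le_div_iff₀ hc, mul_comm]
    exact h y hy z hz
  have h3 := h2.hausdorffMeasure_image_le (d := (finrank ℝ E : ℝ)) (Nat.cast_nonneg _)
  rw [← h1, Measure.addHaar_image_continuousLinearMap, ENNReal.rpow_natCast] at h3
  have h4 : ENNReal.ofReal (c ^ finrank ℝ E) * ((c⁻¹).toNNReal : ℝ≥0∞) ^ finrank ℝ E = 1 := by
    rw [ENNReal.ofReal_pow hc.le, ← mul_pow]
    have : ENNReal.ofReal c * ((c⁻¹).toNNReal : ℝ≥0∞) = 1 := by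
      change ENNReal.ofReal c * ENNReal.ofReal c⁻¹ = 1
      rw [← ENNReal.ofReal_mul hc.le, mul_inv_cancel₀ hc.ne', ENNReal.ofReal_one]
    rw [this, one_pow]
  calc ENNReal.ofReal (c ^ finrank ℝ E) * (ENNReal.ofReal |T.det| * μH[finrank ℝ E] s)
      ≤ ENNReal.ofReal (c ^ finrank ℝ E)
          * (((c⁻¹).toNNReal : ℝ≥0∞) ^ finrank ℝ E * μH[finrank ℝ E] (f '' s)) :=
        mul_le_mul_right h3 _
    _ = μH[finrank ℝ E] (f '' s) := by rw [← mul_assoc, h4, one_mul]

/-- `f` is infinitesimally the linear map `T x` at each point `x` of `U`, uniformly near `x`. -/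
def AFHyp {F : Type*} [NormedAddCommGroup F] [NormedSpace ℝ F] (f : E → M) (U : Set E)
    (T : E → E →L[ℝ] F) : Prop :=
  ∀ x ∈ U, ∀ η, 0 < η → ∃ r, 0 < r ∧ ∀ y ∈ ball x r, ∀ z ∈ ball x r, y ∈ U → z ∈ U →
    (1 - η) * ‖T x (y - z)‖ ≤ dist (f y) (f z) ∧ dist (f y) (f z) ≤ (1 + η) * ‖T x (y - z)‖

theorem AFHyp.local {f : E → M} {U : Set E} {T : E → E →L[ℝ] E} (h : AFHyp f U T)
    (hU : IsOpen U) {x : E} (hx : x ∈ U) {η : ℝ} (hη : 0 < η) (hη1 : η < 1) :
    ∃ r, 0 < r ∧ ball x r ⊆ U ∧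
      (∀ y ∈ ball x r, ∀ z ∈ ball x r,
        (1 - η) * ‖T x (y - z)‖ ≤ dist (f y) (f z) ∧ dist (f y) (f z) ≤ (1 + η) * ‖T x (y - z)‖) ∧
      ∀ x' ∈ ball x r, ∀ v, (1 - η) * ‖T x v‖ ≤ (1 + η) * ‖T x' v‖ ∧
        (1 - η) * ‖T x' v‖ ≤ (1 + η) * ‖T x v‖ := by
  obtain ⟨r1, hr1, h1⟩ := h x hx η hη
  obtain ⟨r2, hr2, h2⟩ := Metric.isOpen_iff.1 hU x hx
  refine ⟨min r1 r2, lt_min hr1 hr2, fun y hy => h2 (ball_subset_ball (min_le_right _ _) hy),
    fun y hy z hz => h1 y (ball_subset_ball (min_le_left _ _) hy) z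
      (ball_subset_ball (min_le_left _ _) hz) (h2 (ball_subset_ball (min_le_right _ _) hy))
      (h2 (ball_subset_ball (min_le_right _ _) hz)), fun x' hx' v => ?_⟩
  have hx'U : x' ∈ U := h2 (ball_subset_ball (min_le_right _ _) hx')
  obtain ⟨r3, hr3, h3⟩ := h x' hx'U η hη
  have hopen : ball x (min r1 r2) ∩ ball x' r3 ∈ 𝓝 x' :=
    inter_mem (isOpen_ball.mem_nhds hx') (ball_mem_nhds x' hr3)
  have hcont : Tendsto (fun t : ℝ => x' + t • v) (𝓝[>] 0) (𝓝 x') := by
    have h4 : Continuous fun t : ℝ => x' + t • v := by fun_prop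
    have h5 := h4.tendsto 0
    simp only [zero_smul, add_zero] at h5
    exact h5.mono_left nhdsWithin_le_nhds
  obtain ⟨t, ht, ht0⟩ := ((hcont.eventually hopen).and self_mem_nhdsWithin).exists
  have ht0 : 0 < t := ht0
  have h6 : x' + t • v - x' = t • v := by abel
  have hyU : x' + t • v ∈ U := h2 (ball_subset_ball (min_le_right _ _) ht.1)
  have h7 := h1 (x' + t • v) (ball_subset_ball (min_le_left _ _) ht.1) x'
    (ball_subset_ball (min_le_left _ _) hx') hyU hx'U
  have h8 := h3 (x' + t • v) ht.2 x' (mem_ball_self hr3) hyU hx'U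
  rw [h6, map_smul, norm_smul, Real.norm_of_nonneg ht0.le] at h7 h8
  constructor
  · have h9 : t * ((1 - η) * ‖T x v‖) ≤ t * ((1 + η) * ‖T x' v‖) := by linarith [h7.1, h8.2]
    exact le_of_mul_le_mul_left h9 ht0
  · have h9 : t * ((1 - η) * ‖T x' v‖) ≤ t * ((1 + η) * ‖T x v‖) := by linarith [h7.2, h8.1]
    exact le_of_mul_le_mul_left h9 ht0

theorem AFHyp.continuousOn {f : E → M} {U : Set E} {T : E → E →L[ℝ] E} (h : AFHyp f U T)
    (hU : IsOpen U) : ContinuousOn f U := by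
  intro x hx
  refine ContinuousAt.continuousWithinAt ?_
  obtain ⟨r, hr, -, h1, -⟩ := h.local hU hx (η := 1 / 2) (by norm_num) (by norm_num)
  rw [ContinuousAt, tendsto_iff_dist_tendsto_zero]
  have h2 : Tendsto (fun y => (1 + 1 / 2) * ‖T x (y - x)‖) (𝓝 x) (𝓝 0) := by
    have h3 : Continuous fun y => (1 + 1 / 2 : ℝ) * ‖T x (y - x)‖ := by fun_prop
    have h4 := h3.tendsto x
    simpa using h4
  refine squeeze_zero' (Eventually.of_forall fun _ => dist_nonneg) ?_ h2
  filter_upwards [ball_mem_nhds x hr] with y hy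
  exact (h1 y hy x (mem_ball_self hr)).2

section piece
variable {f : E → M} {U : Set E} {T : E → E →L[ℝ] E}

/-- The two estimates on a small measurable piece. -/
theorem af_piece (hT : ∀ x ∈ U, (T x).det ≠ 0) {x : E} (hx : x ∈ U) {η : ℝ} (hη : 0 < η)
    (hη1 : η < 1) {s : Set E} (hs : MeasurableSet s)
    (h1 : ∀ y ∈ s, ∀ z ∈ s,
        (1 - η) * ‖T x (y - z)‖ ≤ dist (f y) (f z) ∧ dist (f y) (f z) ≤ (1 + η) * ‖T x (y - z)‖)
    (h2 : ∀ x' ∈ s, ∀ v, (1 - η) * ‖T x v‖ ≤ (1 + η) * ‖T x' v‖ ∧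
        (1 - η) * ‖T x' v‖ ≤ (1 + η) * ‖T x v‖) (hsU : s ⊆ U) :
    μH[finrank ℝ E] (f '' s) ≤ ENNReal.ofReal (((1 + η) ^ 2 / (1 - η)) ^ finrank ℝ E)
        * ∫⁻ x in s, ENNReal.ofReal |(T x).det| ∂(μH[finrank ℝ E] : Measure E) ∧
    ENNReal.ofReal (((1 - η) ^ 2 / (1 + η)) ^ finrank ℝ E)
        * ∫⁻ x in s, ENNReal.ofReal |(T x).det| ∂(μH[finrank ℝ E] : Measure E)
      ≤ μH[finrank ℝ E] (f '' s) := by
  have h1η : 0 < 1 - η := by linarith
  have h1η' : 0 < 1 + η := by linarith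
  set μ : Measure E := μH[finrank ℝ E] with hμ
  set k := finrank ℝ E with hk
  have hlow : ENNReal.ofReal (((1 - η) / (1 + η)) ^ k) * (ENNReal.ofReal |(T x).det| * μ s)
      ≤ ∫⁻ x in s, ENNReal.ofReal |(T x).det| ∂μ := by
    rw [← mul_assoc, ← ENNReal.ofReal_mul (by positivity), ← setLIntegral_const]
    refine setLIntegral_mono' hs fun x' hx' => ENNReal.ofReal_le_ofReal ?_
    have h3 := af_det_le (S := T x) (T := T x') (c := (1 + η) / (1 - η)) (by positivity)
      (hT x' (hsU hx')) fun v => by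
        rw [div_mul_eq_mul_div, le_div_iff₀ h1η]
        linarith [(h2 x' hx' v).1]
    calc ((1 - η) / (1 + η)) ^ k * |(T x).det|
        ≤ ((1 - η) / (1 + η)) ^ k * (((1 + η) / (1 - η)) ^ k * |(T x').det|) :=
          mul_le_mul_of_nonneg_left h3 (by positivity)
      _ = |(T x').det| := by
          rw [← mul_assoc, ← mul_pow]
          have : (1 - η) / (1 + η) * ((1 + η) / (1 - η)) = 1 := by field_simp
          rw [this, one_pow, one_mul]
  have hup : ∫⁻ x in s, ENNReal.ofReal |(T x).det| ∂μ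
      ≤ ENNReal.ofReal (((1 + η) / (1 - η)) ^ k) * (ENNReal.ofReal |(T x).det| * μ s) := by
    rw [← mul_assoc, ← ENNReal.ofReal_mul (by positivity), ← setLIntegral_const]
    refine setLIntegral_mono' hs fun x' hx' => ENNReal.ofReal_le_ofReal ?_
    exact af_det_le (S := T x') (T := T x) (c := (1 + η) / (1 - η)) (by positivity)
      (hT x hx) fun v => by
        rw [div_mul_eq_mul_div, le_div_iff₀ h1η]
        linarith [(h2 x' hx' v).2]
  constructor
  · have h4 := af_piece_le (hT x hx) h1η'.le fun y hy z hz => (h1 y hy z hz).2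
    refine h4.trans ?_
    have h5 : ENNReal.ofReal (((1 + η) ^ 2 / (1 - η)) ^ k)
        = ENNReal.ofReal ((1 + η) ^ k) * ENNReal.ofReal (((1 + η) / (1 - η)) ^ k) := by
      rw [← ENNReal.ofReal_mul (by positivity), ← mul_pow]
      congr 2
      field_simp
    have h6 : ENNReal.ofReal |(T x).det| * μ s
        = ENNReal.ofReal (((1 + η) / (1 - η)) ^ k)
          * (ENNReal.ofReal (((1 - η) / (1 + η)) ^ k) * (ENNReal.ofReal |(T x).det| * μ s)) := by
      rw [← mul_assoc, ← ENNReal.ofReal_mul (by positivity), ← mul_pow]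
      have : (1 + η) / (1 - η) * ((1 - η) / (1 + η)) = 1 := by field_simp
      rw [this, one_pow, ENNReal.ofReal_one, one_mul]
    calc ENNReal.ofReal ((1 + η) ^ k) * (ENNReal.ofReal |(T x).det| * μ s)
        = ENNReal.ofReal ((1 + η) ^ k) * (ENNReal.ofReal (((1 + η) / (1 - η)) ^ k)
          * (ENNReal.ofReal (((1 - η) / (1 + η)) ^ k)
            * (ENNReal.ofReal |(T x).det| * μ s))) := by rw [← h6]
      _ ≤ ENNReal.ofReal ((1 + η) ^ k) * (ENNReal.ofReal (((1 + η) / (1 - η)) ^ k)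
          * ∫⁻ x in s, ENNReal.ofReal |(T x).det| ∂μ) := by gcongr
      _ = _ := by rw [h5, mul_assoc]
  · have h4 := af_le_piece (hT x hx) h1η fun y hy z hz => (h1 y hy z hz).1
    refine le_trans ?_ h4
    have h5 : ENNReal.ofReal (((1 - η) ^ 2 / (1 + η)) ^ k)
        = ENNReal.ofReal ((1 - η) ^ k) * ENNReal.ofReal (((1 - η) / (1 + η)) ^ k) := by
      rw [← ENNReal.ofReal_mul (by positivity), ← mul_pow]
      congr 2
      field_simp
    have h6 : ENNReal.ofReal (((1 - η) / (1 + η)) ^ k) * (ENNReal.ofReal (((1 + η) / (1 - η)) ^ k)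
        * (ENNReal.ofReal |(T x).det| * μ s)) = ENNReal.ofReal |(T x).det| * μ s := by
      rw [← mul_assoc, ← ENNReal.ofReal_mul (by positivity), ← mul_pow]
      have : (1 - η) / (1 + η) * ((1 + η) / (1 - η)) = 1 := by field_simp
      rw [this, one_pow, ENNReal.ofReal_one, one_mul]
    calc ENNReal.ofReal (((1 - η) ^ 2 / (1 + η)) ^ k) * ∫⁻ x in s, ENNReal.ofReal |(T x).det| ∂μ
        ≤ ENNReal.ofReal (((1 - η) ^ 2 / (1 + η)) ^ k)
          * (ENNReal.ofReal (((1 + η) / (1 - η)) ^ k) * (ENNReal.ofReal |(T x).det| * μ s)) := by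
          gcongr
      _ = ENNReal.ofReal ((1 - η) ^ k) * (ENNReal.ofReal |(T x).det| * μ s) := by
          rw [h5, mul_assoc, h6]

/-- The two estimates on measurable subsets of `U`. -/
theorem af_eta (hU : IsOpen U) (hinj : InjOn f U) (h : AFHyp f U T)
    (hT : ∀ x ∈ U, (T x).det ≠ 0) {η : ℝ} (hη : 0 < η) (hη1 : η < 1) {A : Set E}
    (hA : MeasurableSet A) (hAU : A ⊆ U) :
    μH[finrank ℝ E] (f '' A) ≤ ENNReal.ofReal (((1 + η) ^ 2 / (1 - η)) ^ finrank ℝ E)
        * ∫⁻ x in A, ENNReal.ofReal |(T x).det| ∂(μH[finrank ℝ E] : Measure E) ∧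
    ENNReal.ofReal (((1 - η) ^ 2 / (1 + η)) ^ finrank ℝ E)
        * ∫⁻ x in A, ENNReal.ofReal |(T x).det| ∂(μH[finrank ℝ E] : Measure E)
      ≤ μH[finrank ℝ E] (f '' A) := by
  rcases A.eq_empty_or_nonempty with rfl | hne
  · simp
  choose! r hr0 hrU hr1 hr2 using fun x (hx : x ∈ U) => h.local hU hx hη hη1
  obtain ⟨t, htA, htc, htcov⟩ := TopologicalSpace.countable_cover_nhdsWithin
    (f := fun x => ball x (r x)) (s := A)
    fun x hx => mem_nhdsWithin_of_mem_nhds (ball_mem_nhds x (hr0 x (hAU hx)))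
  have htne : t.Nonempty := by
    rcases t.eq_empty_or_nonempty with rfl | ht
    · obtain ⟨a, ha⟩ := hne
      simpa using htcov ha
    · exact ht
  obtain ⟨u, hu⟩ := htc.exists_eq_range htne
  have huA : ∀ n, u n ∈ A := fun n => htA (hu ▸ mem_range_self n)
  set B : ℕ → Set E := fun n => ball (u n) (r (u n)) with hB
  have hBm : ∀ n, MeasurableSet (B n) := fun n => measurableSet_ball
  set P : ℕ → Set E := fun n => A ∩ disjointed B n with hP
  have hPm : ∀ n, MeasurableSet (P n) := fun n => hA.inter (MeasurableSet.disjointed hBm n)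
  have hPd : Pairwise (Function.onFun Disjoint P) := fun i j hij =>
    (disjoint_disjointed B hij).mono inter_subset_right inter_subset_right
  have hPB : ∀ n, P n ⊆ B n := fun n x hx => disjointed_subset B n hx.2
  have hPA : ⋃ n, P n = A := by
    rw [← inter_iUnion, iUnion_disjointed]
    refine inter_eq_left.2 fun x hx => ?_
    obtain ⟨y, hy, hxy⟩ := mem_iUnion₂.1 (htcov hx)
    rw [hu] at hy
    obtain ⟨n, rfl⟩ := hy
    exact mem_iUnion.2 ⟨n, hxy⟩
  have hPU : ∀ n, P n ⊆ U := fun n => inter_subset_left.trans hAU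
  have hpc : ∀ n, _ := fun n => af_piece (f := f) (T := T) hT (hAU (huA n)) hη hη1 (hPm n)
    (fun y hy z hz => hr1 (u n) (hAU (huA n)) y (hPB n hy) z (hPB n hz))
    (fun x' hx' v => hr2 (u n) (hAU (huA n)) x' (hPB n hx') v) (hPU n)
  have hint : ∫⁻ x in A, ENNReal.ofReal |(T x).det| ∂(μH[finrank ℝ E] : Measure E)
      = ∑' n, ∫⁻ x in P n, ENNReal.ofReal |(T x).det| ∂(μH[finrank ℝ E] : Measure E) := by
    rw [← hPA, lintegral_iUnion hPm hPd]
  have himg : f '' A = ⋃ n, f '' P n := by rw [← image_iUnion, hPA]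
  constructor
  · rw [himg, hint, ← ENNReal.tsum_mul_left]
    exact (measure_iUnion_le _).trans (ENNReal.tsum_le_tsum fun n => (hpc n).1)
  · have hfc := h.continuousOn hU
    have hmeas : ∀ n, MeasurableSet (f '' P n) := fun n =>
      (hPm n).image_of_continuousOn_injOn (hfc.mono (hPU n)) (hinj.mono (hPU n))
    have hdis : Pairwise (Function.onFun Disjoint fun n => f '' P n) := by
      intro i j hij
      rw [Function.onFun, Set.disjoint_left]
      rintro _ ⟨y, hy, rfl⟩ ⟨z, hz, hzy⟩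
      have h3 : z = y := hinj (hPU j hz) (hPU i hy) hzy
      subst h3
      exact Set.disjoint_left.1 (hPd hij) hy hz
    rw [himg, hint, ← ENNReal.tsum_mul_left, measure_iUnion hdis hmeas]
    exact ENNReal.tsum_le_tsum fun n => (hpc n).2

/-- **Area formula.** -/
theorem area_formula (hU : IsOpen U) (hinj : InjOn f U) (h : AFHyp f U T)
    (hT : ∀ x ∈ U, (T x).det ≠ 0) {A : Set E} (hA : MeasurableSet A) (hAU : A ⊆ U) :
    μH[finrank ℝ E] (f '' A)
      = ∫⁻ x in A, ENNReal.ofReal |(T x).det| ∂(μH[finrank ℝ E] : Measure E) := by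
  set I := ∫⁻ x in A, ENNReal.ofReal |(T x).det| ∂(μH[finrank ℝ E] : Measure E) with hI
  have hlim : ∀ g : ℝ → ℝ, ContinuousAt g 0 → g 0 = 1 →
      Tendsto (fun η : ℝ => ENNReal.ofReal (g η) * I) (𝓝[>] 0) (𝓝 I) := by
    intro g hg hg0
    have h1 : Tendsto (fun η : ℝ => ENNReal.ofReal (g η)) (𝓝[>] 0) (𝓝 1) := by
      rw [← ENNReal.ofReal_one, ← hg0]
      exact (ENNReal.continuous_ofReal.tendsto _).comp (hg.tendsto.mono_left nhdsWithin_le_nhds)
    have h2 := ENNReal.Tendsto.mul_const (b := I) h1 (Or.inl one_ne_zero)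
    rwa [one_mul] at h2
  have hev : ∀ᶠ η : ℝ in 𝓝[>] 0, 0 < η ∧ η < 1 := by
    filter_upwards [Ioo_mem_nhdsGT (zero_lt_one (α := ℝ))] with η hη using hη
  refine le_antisymm ?_ ?_
  · refine ge_of_tendsto (hlim (fun η => ((1 + η) ^ 2 / (1 - η)) ^ finrank ℝ E) ?_ (by simp)) ?_
    · exact ((ContinuousAt.div (by fun_prop) (by fun_prop) (by norm_num)).pow _)
    · filter_upwards [hev] with η hη
      exact (af_eta hU hinj h hT hη.1 hη.2 hA hAU).1
  · refine le_of_tendsto (hlim (fun η => ((1 - η) ^ 2 / (1 + η)) ^ finrank ℝ E) ?_ (by simp)) ?_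
    · exact ((ContinuousAt.div (by fun_prop) (by fun_prop) (by norm_num)).pow _)
    · filter_upwards [hev] with η hη
      exact (af_eta hU hinj h hT hη.1 hη.2 hA hAU).2

end piece

/-- The constant between Hausdorff and Lebesgue measure in dimension `k`. -/
def hk (E : Type*) [NormedAddCommGroup E] [InnerProductSpace ℝ E] [FiniteDimensional ℝ E]
    [MeasurableSpace E] [BorelSpace E] : ℝ≥0 :=
  Measure.addHaarScalarFactor (μH[finrank ℝ E] : Measure E) (volume : Measure E)

theorem hk_pos : 0 < hk E :=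
  Measure.addHaarScalarFactor_pos_of_isAddHaarMeasure _ _

theorem hausdorff_eq_hk : (μH[finrank ℝ E] : Measure E) = hk E • (volume : Measure E) :=
  Measure.isAddLeftInvariant_eq_smul _ _

/-- **Area formula** with Lebesgue measure. -/
theorem area_formula' {f : E → M} {U : Set E} {T : E → E →L[ℝ] E} (hU : IsOpen U)
    (hinj : InjOn f U) (h : AFHyp f U T)
    (hT : ∀ x ∈ U, (T x).det ≠ 0) {A : Set E} (hA : MeasurableSet A) (hAU : A ⊆ U) :
    μH[finrank ℝ E] (f '' A) = hk E * ∫⁻ x in A, ENNReal.ofReal |(T x).det| := by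
  rw [area_formula hU hinj h hT hA hAU, hausdorff_eq_hk, Measure.restrict_smul]
  rw [lintegral_smul_measure]
  rfl

/-- A linear map is isometric to an endomorphism whose determinant is its norm determinant. -/
theorem exists_endo {U V : Type*} [NormedAddCommGroup U] [InnerProductSpace ℝ U]
    [FiniteDimensional ℝ U] [NormedAddCommGroup V] [InnerProductSpace ℝ V] (f : U →L[ℝ] V) (hf : Function.Injective f) :
    ∃ f' : U →L[ℝ] U, (∀ v, ‖f' v‖ = ‖f v‖) ∧ |f'.det| = (f : U →ₗ[ℝ] V).normDet ∧ f'.det ≠ 0 := by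
  have h : (f : U →ₗ[ℝ] V).ker = ⊥ := LinearMap.ker_eq_bot.2 hf
  obtain ⟨bv⟩ := ((f : U →ₗ[ℝ] V).normDet_ne_zero_tfae.out 1 3).mp h
  have h0 : (f : U →ₗ[ℝ] V).normDet ≠ 0 := ((f : U →ₗ[ℝ] V).normDet_ne_zero_tfae.out 1 0).mp h
  set L : U →ₗ[ℝ] V := (f : U →ₗ[ℝ] V) with hL
  let g : U ≃ₗᵢ[ℝ] L.range := (stdOrthonormalBasis ℝ U).equiv bv (Equiv.refl _)
  let f₀ : U →ₗ[ℝ] U := g.symm.toLinearIsometry.toLinearMap ∘ₗ L.rangeRestrict
  have hdet : |LinearMap.det f₀| = L.normDet := by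
    rw [← LinearMap.normDet_eq_abs_det, LinearMap.normDet_comp_of_finrank_eq,
      g.symm.toLinearIsometry.normDet_eq_one, one_mul]
    · exact LinearMap.normDet_codRestrict _
    · exact g.toLinearEquiv.finrank_eq
  refine ⟨LinearMap.toContinuousLinearMap f₀, fun v => ?_, ?_, ?_⟩
  · show ‖g.symm (L.rangeRestrict v)‖ = ‖f v‖
    rw [g.symm.norm_map]
    rfl
  · exact hdet
  · intro h1
    apply h0
    rw [← hdet]
    have h2 : LinearMap.det f₀ = 0 := h1
    rw [h2, abs_zero]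

theorem muHE_le_iff {X Y : Type*} [EMetricSpace X] [MeasurableSpace X] [BorelSpace X]
    [EMetricSpace Y] [MeasurableSpace Y] [BorelSpace Y] (m : ℕ) (s : Set X) (t : Set Y) :
    (μHE[m] : Measure X) s ≤ (μHE[m] : Measure Y) t
      ↔ (μH[(m : ℝ)] : Measure X) s ≤ (μH[(m : ℝ)] : Measure Y) t := by
  have h0 : (0 : ℝ≥0∞) < (addHaarScalarFactor (volume : Measure (EuclideanSpace ℝ (Fin m)))
      μH[m] : ℝ≥0) := by
    have := addHaarScalarFactor_volume_hausdorffMeasure_ne_zero m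
    exact_mod_cast pos_iff_ne_zero.2 this
  rw [euclideanHausdorffMeasure_def, euclideanHausdorffMeasure_def, Measure.smul_apply,
    Measure.smul_apply, ENNReal.smul_def, ENNReal.smul_def, smul_eq_mul, smul_eq_mul]
  exact ENNReal.mul_le_mul_iff_right h0.ne' ENNReal.coe_ne_top

/-- **Area formula**, Euclidean Hausdorff measure. -/
theorem area_formulaE {f : E → M} {U : Set E} {T : E → E →L[ℝ] E} (hU : IsOpen U)
    (hinj : InjOn f U) (h : AFHyp f U T)
    (hT : ∀ x ∈ U, (T x).det ≠ 0) {A : Set E} (hA : MeasurableSet A) (hAU : A ⊆ U) :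
    μHE[finrank ℝ E] (f '' A) = ∫⁻ x in A, ENNReal.ofReal |(T x).det| := by
  rw [euclideanHausdorffMeasure_def, Measure.smul_apply, area_formula hU hinj h hT hA hAU,
    ENNReal.smul_def, ← lintegral_smul_measure, ← Measure.restrict_smul]
  have h1 := InnerProductSpace.euclideanHausdorffMeasure_eq_volume (V := E)
  rw [euclideanHausdorffMeasure_def, ENNReal.smul_def] at h1
  rw [h1]

/-- **Area formula**, with injective linear maps into another space. -/
theorem area_formulaF {F : Type*} [NormedAddCommGroup F] [InnerProductSpace ℝ F]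
    {f : E → M} {U : Set E} {T : E → E →L[ℝ] F} (hU : IsOpen U)
    (hinj : InjOn f U) (h : AFHyp f U T)
    (hT : ∀ x ∈ U, Function.Injective (T x)) {A : Set E} (hA : MeasurableSet A) (hAU : A ⊆ U) :
    μHE[finrank ℝ E] (f '' A)
      = ∫⁻ x in A, ENNReal.ofReal (T x : E →ₗ[ℝ] F).normDet := by
  classical
  choose! T' h1 h2 h3 using fun x (hx : x ∈ U) => exists_endo (T x) (hT x hx)
  have h4 : AFHyp f U T' := by
    intro x hx η hη
    obtain ⟨r, hr, hr'⟩ := h x hx η hη
    refine ⟨r, hr, fun y hy z hz hyU hzU => ?_⟩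
    rw [h1 x hx]
    exact hr' y hy z hz hyU hzU
  rw [area_formulaE hU hinj h4 h3 hA hAU]
  exact setLIntegral_congr_fun hA fun x hx => by rw [h2 x (hAU hx)]

end

end Pool.Agent.Work.MP_3b24f6_gt
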