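import Pool.Agent.Work.MP_3b24f6_gt.ModelB
import Pool.Agent.Work.MP_3b24f6_gt.S.AreaF

/-!
# Volume of the rank one model as a Hausdorff measure (block F2)

Explicit square roots of the metric of the model, their determinants, and the volume formula.
-/

set_option autoImplicit false

open MeasureTheory Set Filter Topology Metric Module Measure
open scoped ENNReal NNReal MeasureTheory ContDiff InnerProductSpace

namespace Pool.Agent.Work.MP_3b24f6_gt

noncomputable section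

section det
variable {E : Type*} [NormedAddCommGroup E] [InnerProductSpace ℝ E] [FiniteDimensional ℝ E]

/-- Determinant of the identity plus a multiple of an orthogonal projection of trace `w`. -/
theorem vf_det_proj (P : E →L[ℝ] E) (hs : ∀ u v, ⟪P u, v⟫_ℝ = ⟪u, P v⟫_ℝ)
    (hP : ∀ v, P (P v) = P v) {w : ℕ} (ht : tr P = w) (c : ℝ) :
    (ContinuousLinearMap.id ℝ E + c • P).det = (1 + c) ^ w := by
  classical
  have hsym : (P : E →ₗ[ℝ] E).IsSymmetric := hs
  set b := hsym.eigenvectorBasis rfl with hb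
  set l := hsym.eigenvalues rfl with hl
  have hPb : ∀ i, P (b i) = l i • b i := fun i => hsym.apply_eigenvectorBasis rfl i
  have hll : ∀ i, l i = 0 ∨ l i = 1 := by
    intro i
    have h1 := hP (b i)
    rw [hPb, map_smul, hPb, smul_smul] at h1
    have h2 : (l i * l i - l i) • b i = 0 := by rw [sub_smul, h1, sub_self]
    have h3 : b i ≠ 0 := b.toBasis.ne_zero i
    have h4 : l i * l i - l i = 0 := by
      rcases smul_eq_zero.1 h2 with h | h
      · exact h
      · exact absurd h h3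
    have h5 : l i * (l i - 1) = 0 := by linarith
    rcases mul_eq_zero.1 h5 with h | h
    · exact Or.inl h
    · exact Or.inr (by linarith)
  have hn : ∀ i, ∃ n : ℕ, l i = n ∧ 1 + c * l i = (1 + c) ^ n := by
    intro i
    rcases hll i with h | h
    · exact ⟨0, by simp [h], by simp [h]⟩
    · exact ⟨1, by simp [h], by simp [h]⟩
  choose n hn1 hn2 using hn
  have hsum : ∑ i, n i = w := by
    have h1 : tr P = ∑ i, l i := by
      have := LinearMap.IsSymmetric.trace_eq_sum_eigenvalues (hn := rfl) hsym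
      simpa [tr] using this
    rw [h1] at ht
    have h2 : ((∑ i, n i : ℕ) : ℝ) = w := by
      rw [← ht, Nat.cast_sum]
      exact Finset.sum_congr rfl fun i _ => (hn1 i).symm
    exact_mod_cast h2
  have hmat : LinearMap.toMatrix b.toBasis b.toBasis
      ((ContinuousLinearMap.id ℝ E + c • P : E →L[ℝ] E) : E →ₗ[ℝ] E)
      = Matrix.diagonal fun i => 1 + c * l i := by
    ext i j
    rw [LinearMap.toMatrix_apply]
    have h1 : ((ContinuousLinearMap.id ℝ E + c • P : E →L[ℝ] E) : E →ₗ[ℝ] E) (b.toBasis j)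
        = (1 + c * l j) • b.toBasis j := by
      simp only [OrthonormalBasis.coe_toBasis, ContinuousLinearMap.coe_coe,
        ContinuousLinearMap.add_apply, ContinuousLinearMap.id_apply,
        ContinuousLinearMap.smul_apply, hPb]
      rw [smul_smul, add_smul, one_smul]
    rw [h1, map_smul, Module.Basis.repr_self]
    rw [Matrix.diagonal_apply, Finsupp.smul_apply, Finsupp.single_apply]
    by_cases hij : i = j
    · subst hij; simp
    · simp [hij, Ne.symm hij, eq_comm]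
  have hdet : (ContinuousLinearMap.id ℝ E + c • P).det
      = (LinearMap.toMatrix b.toBasis b.toBasis
      ((ContinuousLinearMap.id ℝ E + c • P : E →L[ℝ] E) : E →ₗ[ℝ] E)).det := by
    rw [LinearMap.det_toMatrix]
  rw [hdet, hmat, Matrix.det_diagonal, ← hsum, ← Finset.prod_pow_eq_pow_sum]
  exact Finset.prod_congr rfl fun i _ => hn2 i

theorem vf_uu_pos (y : E) : 0 < uu y := Real.sqrt_pos.2 (by positivity)

theorem vf_uu_sq (y : E) : uu y ^ 2 = 1 + ‖y‖ ^ 2 := Real.sq_sqrt (by positivity)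

/-- Square root of the metric of real hyperbolic space. -/
def sqT0 (y : E) : E →L[ℝ] E :=
  ContinuousLinearMap.id ℝ E - (1 / (uu y * (uu y + 1))) • (innerSL ℝ y).smulRight y

theorem sqT0_apply (y v : E) :
    sqT0 y v = v - (⟪y, v⟫_ℝ / (uu y * (uu y + 1))) • y := by
  simp only [sqT0, ContinuousLinearMap.sub_apply, ContinuousLinearMap.id_apply,
    ContinuousLinearMap.smul_apply, ContinuousLinearMap.smulRight_apply, innerSL_apply_apply,
    smul_smul]
  congr 2
  ring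

theorem sqT0_self (y : E) : sqT0 y y = (1 / uu y) • y := by
  have h1 := vf_uu_pos y
  have h2 := vf_uu_sq y
  rw [sqT0_apply, real_inner_self_eq_norm_sq]
  have h3 : ‖y‖ ^ 2 = (uu y - 1) * (uu y + 1) := by linarith [h2, sq_nonneg (uu y)]
  have h4 : y - (‖y‖ ^ 2 / (uu y * (uu y + 1))) • y = (1 - ‖y‖ ^ 2 / (uu y * (uu y + 1))) • y := by
    rw [sub_smul, one_smul]
  rw [h4, h3]
  congr 1
  field_simp
  ring

theorem sqT0_det (y : E) : (sqT0 y).det = 1 / uu y := by
  have h1 := vf_uu_pos y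
  have h2 := vf_uu_sq y
  have h3 : ((sqT0 y : E →L[ℝ] E) : E →ₗ[ℝ] E) = LinearMap.transvection
      ((-(1 / (uu y * (uu y + 1)))) • ((innerSL ℝ y : E →L[ℝ] ℝ) : E →ₗ[ℝ] ℝ)) y := by
    ext v
    simp [sqT0, LinearMap.transvection.apply, smul_smul, sub_eq_add_neg]
  have h4 : (sqT0 y).det = LinearMap.det ((sqT0 y : E →L[ℝ] E) : E →ₗ[ℝ] E) := rfl
  rw [h4, h3, LinearMap.transvection.det]
  simp only [LinearMap.smul_apply, ContinuousLinearMap.coe_coe, innerSL_apply_apply,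
    smul_eq_mul, real_inner_self_eq_norm_sq]
  have h5 : ‖y‖ ^ 2 = (uu y - 1) * (uu y + 1) := by linarith [h2, sq_nonneg (uu y)]
  rw [h5]
  field_simp
  ring

theorem norm_sqT0_sq (y v : E) : ‖sqT0 y v‖ ^ 2 = ‖v‖ ^ 2 - ⟪y, v⟫_ℝ ^ 2 / uu y ^ 2 := by
  have h1 := vf_uu_pos y
  have h2 := vf_uu_sq y
  rw [sqT0_apply, @norm_sub_sq_real, inner_smul_right, norm_smul, mul_pow, Real.norm_eq_abs,
    sq_abs, real_inner_comm]
  have h5 : ‖y‖ ^ 2 = (uu y - 1) * (uu y + 1) := by linarith [h2, sq_nonneg (uu y)]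
  rw [h5]
  field_simp
  ring

variable (V : Ver E)

/-- Square root of the metric of the model. -/
def sqT (y : E) : E →L[ℝ] E :=
  (sqT0 y).comp (ContinuousLinearMap.id ℝ E + (1 / (uu y + 1)) • V.Q y)

theorem sqT_apply (y v : E) : sqT V y v
    = v - (⟪y, v⟫_ℝ / (uu y * (uu y + 1))) • y + (1 / (uu y + 1)) • V.Q y v := by
  have h1 : ⟪y, V.Q y v⟫_ℝ = 0 := by rw [← V.Q_symm, V.Q_self, inner_zero_left]
  simp only [sqT, ContinuousLinearMap.comp_apply, ContinuousLinearMap.add_apply,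
    ContinuousLinearMap.id_apply, ContinuousLinearMap.smul_apply, sqT0_apply, inner_add_right,
    inner_smul_right, h1, mul_zero, add_zero]
  abel

theorem Q_zero' : V.Q (0 : E) = 0 := by
  have := V.Q_smul 0 0
  simpa using this

theorem sqT_det (y : E) : (sqT V y).det = rho V y := by
  have h1 := vf_uu_pos y
  have h2 := vf_uu_sq y
  have h5 : ‖y‖ ^ 2 = (uu y - 1) * (uu y + 1) := by linarith [h2, sq_nonneg (uu y)]
  have hQ : (ContinuousLinearMap.id ℝ E + (1 / (uu y + 1)) • V.Q y).det = uu y ^ V.w := by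
    rcases eq_or_ne y 0 with rfl | hy
    · have h3 : uu (0 : E) = 1 := by simp [uu]
      rw [Q_zero', smul_zero, add_zero, h3, one_pow]
      exact LinearMap.det_id
    · have hy' : ‖y‖ ^ 2 ≠ 0 := by positivity
      have h3 := vf_det_proj ((‖y‖ ^ 2)⁻¹ • V.Q y)
        (fun u v => by
          simp only [ContinuousLinearMap.smul_apply, inner_smul_left, inner_smul_right, V.Q_symm]
          simp)
        (fun v => by
          simp only [ContinuousLinearMap.smul_apply, map_smul, V.Q_Q, smul_smul]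
          congr 1
          field_simp) (w := V.w)
        (by
          have : tr ((‖y‖ ^ 2)⁻¹ • V.Q y) = (‖y‖ ^ 2)⁻¹ * tr (V.Q y) := by simp [tr]
          rw [this, V.tr_Q]
          field_simp) (‖y‖ ^ 2 / (uu y + 1))
      have h4 : (‖y‖ ^ 2 / (uu y + 1)) • ((‖y‖ ^ 2)⁻¹ • V.Q y) = (1 / (uu y + 1)) • V.Q y := by
        rw [smul_smul]
        congr 1
        field_simp
      rw [h4] at h3
      rw [h3]
      congr 1
      rw [h5]
      field_simp
      ring
  have h6 : (sqT V y).det = (sqT0 y).det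
      * (ContinuousLinearMap.id ℝ E + (1 / (uu y + 1)) • V.Q y).det :=
    LinearMap.det_comp _ _
  rw [h6, hQ, sqT0_det, rho]
  have h7 : V.w = (V.w - 1) + 1 := by have := V.one_le_w; omega
  conv_lhs => rw [h7]
  rw [pow_succ]
  field_simp

theorem norm_sqT_sq (y v : E) : ‖sqT V y v‖ ^ 2 = mg V y v := by
  have h1 := vf_uu_pos y
  have h2 := vf_uu_sq y
  have h5 : ‖y‖ ^ 2 = (uu y - 1) * (uu y + 1) := by linarith [h2, sq_nonneg (uu y)]
  have h6 : ⟪y, V.Q y v⟫_ℝ = 0 := by rw [← V.Q_symm, V.Q_self, inner_zero_left]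
  have h7 : ⟪V.Q y v, V.Q y v⟫_ℝ = ‖y‖ ^ 2 * ⟪V.Q y v, v⟫_ℝ := by
    rw [← V.Q_symm, V.Q_Q, inner_smul_left]
    simp
  have h8 : sqT V y v = sqT0 y v + (1 / (uu y + 1)) • V.Q y v := by
    rw [sqT_apply, sqT0_apply]
  rw [h8, @norm_add_sq_real, norm_sqT0_sq, norm_smul, mul_pow, Real.norm_eq_abs, sq_abs,
    ← real_inner_self_eq_norm_sq (V.Q y v), h7, inner_smul_right, sqT0_apply, inner_sub_left,
    inner_smul_left, h6, real_inner_comm (V.Q y v) v, mg, h5]
  simp only [mul_zero, sub_zero]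
  field_simp
  ring

/-- The covector `ξ` in the orthonormal frame given by `sqT0 y`. -/
def dm0 (y ξ : E) : E := ξ + (⟪y, ξ⟫_ℝ / (uu y + 1)) • y

theorem inner_dm0 (y ξ v : E) : ⟪dm0 y ξ, sqT0 y v⟫_ℝ = ⟪ξ, v⟫_ℝ := by
  have h1 := vf_uu_pos y
  have h2 := vf_uu_sq y
  have h5 : ‖y‖ ^ 2 = (uu y - 1) * (uu y + 1) := by linarith [h2, sq_nonneg (uu y)]
  rw [sqT0_apply, dm0]
  simp only [inner_add_left, inner_sub_right, inner_smul_left, inner_smul_right,
    real_inner_self_eq_norm_sq, real_inner_comm y ξ, h5]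
  simp only [conj_trivial]
  field_simp
  ring

theorem norm_dm0_sq (y ξ : E) : ‖dm0 y ξ‖ ^ 2 = ‖ξ‖ ^ 2 + ⟪y, ξ⟫_ℝ ^ 2 := by
  have h1 := vf_uu_pos y
  have h2 := vf_uu_sq y
  have h5 : ‖y‖ ^ 2 = (uu y - 1) * (uu y + 1) := by linarith [h2, sq_nonneg (uu y)]
  rw [dm0, @norm_add_sq_real, inner_smul_right, norm_smul, mul_pow, Real.norm_eq_abs, sq_abs,
    real_inner_comm, h5]
  field_simp
  ring

/-- The covector `ξ` in the orthonormal frame given by `sqT V y`. -/
def dm (y ξ : E) : E :=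
  ξ + (⟪y, ξ⟫_ℝ / (uu y + 1)) • y - (1 / (uu y * (uu y + 1))) • V.Q y ξ

theorem inner_dm (y ξ v : E) : ⟪dm V y ξ, sqT V y v⟫_ℝ = ⟪ξ, v⟫_ℝ := by
  have h1 := vf_uu_pos y
  have h2 := vf_uu_sq y
  have h5 : ‖y‖ ^ 2 = (uu y - 1) * (uu y + 1) := by linarith [h2, sq_nonneg (uu y)]
  have h6 : ∀ u, ⟪y, V.Q y u⟫_ℝ = 0 := fun u => by rw [← V.Q_symm, V.Q_self, inner_zero_left]
  have h7 : ⟪V.Q y ξ, V.Q y v⟫_ℝ = ‖y‖ ^ 2 * ⟪V.Q y ξ, v⟫_ℝ := by
    rw [← V.Q_symm, V.Q_Q, inner_smul_left]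
    simp
  have h8 : dm V y ξ = dm0 y ξ - (1 / (uu y * (uu y + 1))) • V.Q y ξ := rfl
  have h9 : sqT V y v = sqT0 y v + (1 / (uu y + 1)) • V.Q y v := by
    rw [sqT_apply, sqT0_apply]
  have h10 : ⟪dm0 y ξ, V.Q y v⟫_ℝ = ⟪V.Q y ξ, v⟫_ℝ := by
    rw [dm0, inner_add_left, inner_smul_left, h6, mul_zero, add_zero, V.Q_symm]
  have h11 : ⟪V.Q y ξ, sqT0 y v⟫_ℝ = ⟪V.Q y ξ, v⟫_ℝ := by
    rw [sqT0_apply, inner_sub_right, inner_smul_right, real_inner_comm y (V.Q y ξ), h6, mul_zero,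
      sub_zero]
  rw [h9, h8, inner_sub_left, inner_add_right, inner_smul_left, inner_add_right,
    inner_smul_right, inner_smul_right, inner_dm0, h10, h11, h7, h5]
  simp only [conj_trivial]
  field_simp
  ring

theorem norm_dm_sq (y ξ : E) :
    ‖dm V y ξ‖ ^ 2 = ‖ξ‖ ^ 2 + ⟪y, ξ⟫_ℝ ^ 2 - ⟪V.Q y ξ, ξ⟫_ℝ / uu y ^ 2 := by
  have h1 := vf_uu_pos y
  have h2 := vf_uu_sq y
  have h5 : ‖y‖ ^ 2 = (uu y - 1) * (uu y + 1) := by linarith [h2, sq_nonneg (uu y)]
  have h6 : ∀ u, ⟪y, V.Q y u⟫_ℝ = 0 := fun u => by rw [← V.Q_symm, V.Q_self, inner_zero_left]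
  have h7 : ⟪V.Q y ξ, V.Q y ξ⟫_ℝ = ‖y‖ ^ 2 * ⟪V.Q y ξ, ξ⟫_ℝ := by
    rw [← V.Q_symm, V.Q_Q, inner_smul_left]
    simp
  have h8 : dm V y ξ = dm0 y ξ - (1 / (uu y * (uu y + 1))) • V.Q y ξ := rfl
  have h10 : ⟪dm0 y ξ, V.Q y ξ⟫_ℝ = ⟪V.Q y ξ, ξ⟫_ℝ := by
    rw [dm0, inner_add_left, inner_smul_left, h6, mul_zero, add_zero, V.Q_symm]
  rw [h8, @norm_sub_sq_real, norm_dm0_sq, inner_smul_right, norm_smul, mul_pow, Real.norm_eq_abs,
    sq_abs, ← real_inner_self_eq_norm_sq (V.Q y ξ), h7, h10, h5]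
  field_simp
  ring

theorem norm_dm (y ξ : E) : ‖dm V y ξ‖ = an V y ξ := by
  rw [an, ← norm_dm_sq, Real.sqrt_sq (norm_nonneg _)]

end det

section vol
variable {E : Type*} [NormedAddCommGroup E] [InnerProductSpace ℝ E] [FiniteDimensional ℝ E]
  [MeasurableSpace E] [BorelSpace E]
  {M : Type*} [MetricSpace M] [MeasurableSpace M] [BorelSpace M]

/-- Volume is the Hausdorff measure of top dimension. -/
theorem vol_hausdorff (V : Ver E) {Ψ : E → M} (hinj : Function.Injective Ψ) {l : ℝ} (hl : 0 < l)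
    (h : AFHyp Ψ univ fun y => l • sqT V y) {D : Set E} (hD : MeasurableSet D) :
    μHE[finrank ℝ E] (Ψ '' D) = ENNReal.ofReal (l ^ finrank ℝ E) * mu V D := by
  have hdet : ∀ y, ((l • sqT V y : E →L[ℝ] E)).det = l ^ finrank ℝ E * rho V y := by
    intro y
    have h1 : ((l • sqT V y : E →L[ℝ] E)).det
        = LinearMap.det (l • ((sqT V y : E →L[ℝ] E) : E →ₗ[ℝ] E)) := rfl
    rw [h1, LinearMap.det_smul]
    congr 1
    exact sqT_det V y
  have hrho : ∀ y, 0 < rho V y := fun y => pow_pos (vf_uu_pos y) _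
  rw [area_formulaE isOpen_univ hinj.injOn h (fun x _ => ?_) hD (subset_univ _)]
  · rw [mu, withDensity_apply _ hD, ← lintegral_const_mul']
    · refine lintegral_congr fun y => ?_
      rw [hdet, abs_of_pos (mul_pos (by positivity) (hrho y)), ENNReal.ofReal_mul (by positivity)]
    · exact ENNReal.ofReal_ne_top
  · rw [hdet]
    exact (mul_pos (by positivity) (hrho x)).ne'

end vol

end

end Pool.Agent.Work.MP_3b24f6_gt
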