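import Pool.Agent.Work.MP_3b24f6_gt.Delta
import Pool.Agent.Work.MP_3b24f6_gt.Local
import Pool.Agent.Work.MP_3b24f6_gt.S.AFComp
import Pool.Agent.Work.MP_3b24f6_gt.S.LinG
import Pool.Agent.Work.MP_3b24f6_gt.S.VolF

/-!
# The surface measure is the Hausdorff measure (block F3 of the bridge)

`w` smooth, `0` a regular value, `μ` the measure `δ(w)`, `F : E → M` injective with infinitesimal
linear maps `B y`. Then `μHE[n] (F '' S) = ∫_S κ dμ` for measurable `S ⊆ {w = 0}`, with
`κ = |det B| ‖B^{-T} dw‖`.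
-/

set_option autoImplicit false
set_option linter.unusedSectionVars false

open MeasureTheory Set Filter Topology Metric Module Measure
open scoped ENNReal NNReal MeasureTheory InnerProductSpace ContDiff

namespace Pool.Agent.Work.MP_3b24f6_gt

noncomputable section

namespace AFr

variable {E : Type*} [NormedAddCommGroup E] [InnerProductSpace ℝ E] [FiniteDimensional ℝ E]
  {W : Type*} [NormedAddCommGroup W] [InnerProductSpace ℝ W] [FiniteDimensional ℝ W]

/-- `E` is the orthogonal sum of `W` and the line of the unit vector `e`. -/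
structure Slice (ι : W →ₗᵢ[ℝ] E) (e : E) : Prop where
  norm_e : ‖e‖ = 1
  perp : ∀ a, ⟪ι a, e⟫_ℝ = 0
  fin : finrank ℝ W + 1 = finrank ℝ E

variable {ι : W →ₗᵢ[ℝ] E} {e : E}

/-- Product coordinates, as an isometry. -/
def thI (h : Slice ι e) : WithLp 2 (W × ℝ) ≃ₗᵢ[ℝ] E :=
  LinearIsometry.toLinearIsometryEquiv
    { toFun := fun p => ι p.fst + p.snd • e
      map_add' := fun p q => by
        simp only [WithLp.add_fst, WithLp.add_snd, map_add, add_smul]
        abel
      map_smul' := fun c p => by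
        simp only [WithLp.smul_fst, WithLp.smul_snd, map_smul, RingHom.id_apply, smul_add,
          smul_smul, smul_eq_mul]
      norm_map' := fun p => by
        show ‖ι p.fst + p.snd • e‖ = ‖p‖
        rw [← sq_eq_sq₀ (norm_nonneg _) (norm_nonneg _), WithLp.prod_norm_sq_eq_of_L2,
          norm_add_sq_real, inner_smul_right, h.perp, mul_zero, mul_zero, add_zero, ι.norm_map,
          norm_smul, h.norm_e, mul_one] }
    (by
      rw [← h.fin, (WithLp.linearEquiv 2 ℝ (W × ℝ)).finrank_eq, Module.finrank_prod,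
        Module.finrank_self])

theorem thI_apply (h : Slice ι e) (p : WithLp 2 (W × ℝ)) : thI h p = ι p.fst + p.snd • e := rfl

/-- Product coordinates. -/
def th (h : Slice ι e) : (W × ℝ) ≃L[ℝ] E :=
  (WithLp.prodContinuousLinearEquiv 2 ℝ W ℝ).symm.trans (thI h).toContinuousLinearEquiv

theorem th_apply (h : Slice ι e) (p : W × ℝ) : th h p = ι p.1 + p.2 • e := rfl

theorem th_add (h : Slice ι e) (a : W) (s t : ℝ) : th h (a, s + t) = th h (a, s) + t • e := by
  simp only [th_apply, add_smul]; abel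

/-- Projection to `W`. -/
def pr (h : Slice ι e) : E →L[ℝ] W := (ContinuousLinearMap.fst ℝ W ℝ).comp ((th h).symm : E →L[ℝ] W × ℝ)

/-- Height. -/
def ht (h : Slice ι e) : E →L[ℝ] ℝ := (ContinuousLinearMap.snd ℝ W ℝ).comp ((th h).symm : E →L[ℝ] W × ℝ)

theorem th_pr (h : Slice ι e) (x : E) : th h (pr h x, ht h x) = x :=
  (th h).apply_symm_apply x

theorem pr_th (h : Slice ι e) (a : W) (s : ℝ) : pr h (th h (a, s)) = a := by
  show ((th h).symm (th h (a, s))).1 = a
  rw [(th h).symm_apply_apply]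

theorem ht_th (h : Slice ι e) (a : W) (s : ℝ) : ht h (th h (a, s)) = s := by
  show ((th h).symm (th h (a, s))).2 = s
  rw [(th h).symm_apply_apply]

theorem pr_e (h : Slice ι e) : pr h e = 0 := by
  have h1 : th h (0, 1) = e := by simp [th_apply]
  have h2 := pr_th h 0 1
  rwa [h1] at h2

theorem pr_ι (h : Slice ι e) (a : W) : pr h (ι a) = a := by
  have h1 : th h (a, 0) = ι a := by simp [th_apply]
  have h2 := pr_th h a 0
  rwa [h1] at h2

/-- The derivative of the graph map. -/
def Jm (ι : W →ₗᵢ[ℝ] E) (e : E) (L : E →L[ℝ] ℝ) : W →L[ℝ] E :=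
  ι.toContinuousLinearMap - ((L e)⁻¹ • (L.comp ι.toContinuousLinearMap)).smulRight e

theorem Jm_apply (L : E →L[ℝ] ℝ) (a : W) : Jm ι e L a = ι a - ((L e)⁻¹ * L (ι a)) • e := rfl

theorem L_Jm {L : E →L[ℝ] ℝ} (hL : L e ≠ 0) (a : W) : L (Jm ι e L a) = 0 := by
  rw [Jm_apply, map_sub, map_smul, smul_eq_mul]
  field_simp
  ring

theorem pr_Jm (h : Slice ι e) (L : E →L[ℝ] ℝ) (a : W) : pr h (Jm ι e L a) = a := by
  rw [Jm_apply, map_sub, map_smul, pr_e, smul_zero, sub_zero, pr_ι]

/-- The linear equivalence `x ↦ (pr x, L x)`. -/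
def prL (h : Slice ι e) {L : E →L[ℝ] ℝ} (hL : L e ≠ 0) : E ≃L[ℝ] W × ℝ :=
  LinearEquiv.toContinuousLinearEquiv
    { toFun := fun x => (pr h x, L x)
      map_add' := fun x y => by simp
      map_smul' := fun c x => by simp
      invFun := fun p => Jm ι e L p.1 + (p.2 / L e) • e
      left_inv := fun x => by
        have h1 := th_pr h x
        rw [th_apply] at h1
        have h2 : L x = L (ι (pr h x)) + ht h x * L e := by
          conv_lhs => rw [← h1]
          rw [map_add, map_smul, smul_eq_mul]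
        simp only [Jm_apply]
        conv_rhs => rw [← h1]
        rw [sub_add, ← sub_smul]
        simp only [h2]
        rw [sub_eq_add_neg, ← neg_smul]
        congr 2
        field_simp
        ring
      right_inv := fun p => by
        refine Prod.ext ?_ ?_
        · simp only [map_add, map_smul, pr_Jm, pr_e, smul_zero, add_zero]
        · simp only [map_add, map_smul, L_Jm hL, zero_add, smul_eq_mul]
          field_simp }

theorem prL_coe (h : Slice ι e) {L : E →L[ℝ] ℝ} (hL : L e ≠ 0) :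
    (prL h hL : E →L[ℝ] W × ℝ) = (pr h).prod L := rfl

theorem prL_symm (h : Slice ι e) {L : E →L[ℝ] ℝ} (hL : L e ≠ 0) (a : W) :
    (prL h hL).symm (a, 0) = Jm ι e L a := by
  show Jm ι e L a + ((0 : ℝ) / L e) • e = _
  simp

/-- Local parametrisation of a level set. -/
theorem exists_local (h : Slice ι e) {w : E → ℝ} {x : E} {L : E →L[ℝ] ℝ}
    (hw : HasStrictFDerivAt w L x) (hL : L e ≠ 0) :
    ∃ G : W → E, HasStrictFDerivAt G (Jm ι e L) (pr h x) ∧ G (pr h x) = x ∧
      ∀ᶠ a in 𝓝 (pr h x), pr h (G a) = a ∧ w (G a) = w x := by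
  have h1 : HasStrictFDerivAt (fun y => (pr h y, w y)) (prL h hL : E →L[ℝ] W × ℝ) x := by
    rw [prL_coe]
    exact (pr h).hasStrictFDerivAt.prodMk hw
  set Φ := h1.localInverse (fun y => (pr h y, w y)) (prL h hL) x with hΦ
  have h2 : HasStrictFDerivAt Φ ((prL h hL).symm : W × ℝ →L[ℝ] E) (pr h x, w x) :=
    h1.to_localInverse
  have h3 : HasStrictFDerivAt (fun a : W => (a, w x)) (ContinuousLinearMap.inl ℝ W ℝ) (pr h x) :=
    (hasStrictFDerivAt_id _).prodMk (hasStrictFDerivAt_const _ _)
  refine ⟨fun a => Φ (a, w x), ?_, ?_, ?_⟩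
  · have h4 := h2.comp (pr h x) h3
    have h5 : ((prL h hL).symm : W × ℝ →L[ℝ] E).comp (ContinuousLinearMap.inl ℝ W ℝ)
        = Jm ι e L := by
      ext a
      exact prL_symm h hL a
    rw [h5] at h4
    exact h4
  · exact h1.localInverse_apply_image
  · have h6 := h1.eventually_right_inverse
    have h7 : ContinuousAt (fun a : W => (a, w x)) (pr h x) := h3.continuousAt
    have h8 := h7.eventually h6
    filter_upwards [h8] with a ha
    have ha' : (pr h (Φ (a, w x)), w (Φ (a, w x))) = (a, w x) := ha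
    exact ⟨congrArg Prod.fst ha', congrArg Prod.snd ha'⟩

/-- The piece of the level set over which it is a graph in direction `e`. -/
structure Piece (w : E → ℝ) (e : E) (U : Set E) : Prop where
  smooth : ContDiff ℝ ∞ w
  isOpen : IsOpen U
  conv : Convex ℝ U
  bdd : Bornology.IsBounded U
  low : ∃ c, 0 < c ∧ ∀ x ∈ U, c ≤ fderiv ℝ w x e

theorem Piece.pos {w : E → ℝ} {U : Set E} (hP : Piece w e U) (x : E) (hx : x ∈ U) :
    0 < fderiv ℝ w x e := by
  obtain ⟨c, hc, h⟩ := hP.low
  exact hc.trans_le (h x hx)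

/-- The zero set in the piece. -/
def zs (w : E → ℝ) (U : Set E) : Set E := U ∩ {x | w x = 0}

theorem Piece.mono_line {w : E → ℝ} {U : Set E} (hP : Piece w e U) {x : E} {s t : ℝ} (hst : s < t)
    (hs : x + s • e ∈ U) (ht : x + t • e ∈ U) : w (x + s • e) < w (x + t • e) := by
  have hd : ∀ r : ℝ, HasDerivAt (fun r : ℝ => w (x + r • e)) (fderiv ℝ w (x + r • e) e) r := by
    intro r
    have h1 : HasDerivAt (fun r : ℝ => x + r • e) e r := by
      simpa using ((hasDerivAt_id r).smul_const e).const_add x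
    exact ((hP.smooth.differentiable (by simp) _).hasFDerivAt).comp_hasDerivAt r h1
  have hmem : ∀ r ∈ Icc s t, x + r • e ∈ U := by
    intro r hr
    have h2 := hP.conv hs ht (a := (t - r) / (t - s)) (b := (r - s) / (t - s))
      (div_nonneg (by linarith [hr.2]) (by linarith)) (div_nonneg (by linarith [hr.1]) (by linarith))
      (by field_simp [(sub_pos.2 hst).ne']; ring)
    have h3 : ((t - r) / (t - s)) • (x + s • e) + ((r - s) / (t - s)) • (x + t • e)
        = x + r • e := by
      have hne : t - s ≠ 0 := (sub_pos.2 hst).ne'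
      rw [smul_add, smul_add, smul_smul, smul_smul]
      have e1 : ((t - r) / (t - s)) • x + (((t - r) / (t - s)) * s) • e
          + (((r - s) / (t - s)) • x + (((r - s) / (t - s)) * t) • e)
          = ((t - r) / (t - s) + (r - s) / (t - s)) • x
            + (((t - r) / (t - s)) * s + ((r - s) / (t - s)) * t) • e := by
        module
      rw [e1]
      have e2 : (t - r) / (t - s) + (r - s) / (t - s) = 1 := by field_simp; ring
      have e3 : ((t - r) / (t - s)) * s + ((r - s) / (t - s)) * t = r := by field_simp; ring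
      rw [e2, e3, one_smul]
    rwa [h3] at h2
  have hmono : StrictMonoOn (fun r : ℝ => w (x + r • e)) (Icc s t) := by
    refine strictMonoOn_of_deriv_pos (convex_Icc s t)
      (fun r _ => (hd r).continuousAt.continuousWithinAt) fun r hr => ?_
    rw [interior_Icc] at hr
    rw [(hd r).deriv]
    exact hP.pos _ (hmem r ⟨hr.1.le, hr.2.le⟩)
  exact hmono (left_mem_Icc.2 hst.le) (right_mem_Icc.2 hst.le) hst

theorem Piece.injOn (h : Slice ι e) {w : E → ℝ} {U : Set E} (hP : Piece w e U) :
    InjOn (pr h) (zs w U) := by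
  intro x hx y hy hxy
  have h1 := th_pr h x
  have h2 := th_pr h y
  rw [th_apply] at h1 h2
  simp only at h1 h2
  rw [hxy] at h1
  have hx0 : w x = 0 := hx.2
  have hy0 : w y = 0 := hy.2
  rcases lt_trichotomy (ht h x) (ht h y) with hlt | heq | hgt
  · have := hP.mono_line (x := ι (pr h y)) hlt (by rw [h1]; exact hx.1) (by rw [h2]; exact hy.1)
    rw [h1, h2, hx0, hy0] at this
    exact absurd this (lt_irrefl _)
  · rw [heq, h2] at h1
    exact h1.symm
  · have := hP.mono_line (x := ι (pr h y)) hgt (by rw [h2]; exact hy.1) (by rw [h1]; exact hx.1)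
    rw [h1, h2, hx0, hy0] at this
    exact absurd this (lt_irrefl _)

/-- The graph map. -/
def gr (h : Slice ι e) (w : E → ℝ) (U : Set E) : W → E := Function.invFunOn (pr h) (zs w U)

/-- The base of the graph. -/
def bs (h : Slice ι e) (w : E → ℝ) (U : Set E) : Set W := pr h '' zs w U

theorem Piece.gr_pr (h : Slice ι e) {w : E → ℝ} {U : Set E} (hP : Piece w e U) {x : E}
    (hx : x ∈ zs w U) : gr h w U (pr h x) = x :=
  (hP.injOn h).leftInvOn_invFunOn hx

theorem gr_mem (h : Slice ι e) {w : E → ℝ} {U : Set E} {a : W} (ha : a ∈ bs h w U) :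
    gr h w U a ∈ zs w U := by
  obtain ⟨x, hx, rfl⟩ := ha
  exact Function.invFunOn_mem ⟨x, hx, rfl⟩

theorem pr_gr (h : Slice ι e) {w : E → ℝ} {U : Set E} {a : W} (ha : a ∈ bs h w U) :
    pr h (gr h w U a) = a := by
  obtain ⟨x, hx, rfl⟩ := ha
  exact Function.invFunOn_eq ⟨x, hx, rfl⟩

theorem Piece.eventually (h : Slice ι e) {w : E → ℝ} {U : Set E} (hP : Piece w e U) {a : W}
    (ha : a ∈ bs h w U) :
    HasStrictFDerivAt (gr h w U) (Jm ι e (fderiv ℝ w (gr h w U a))) a ∧ bs h w U ∈ 𝓝 a := by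
  obtain ⟨x, hx, rfl⟩ := ha
  rw [hP.gr_pr h hx]
  have hw : HasStrictFDerivAt w (fderiv ℝ w x) x :=
    hP.smooth.contDiffAt.hasStrictFDerivAt (by simp)
  obtain ⟨G, hG, hG0, hG1⟩ := exists_local h hw (hP.pos x hx.1).ne'
  have hGU : ∀ᶠ a in 𝓝 (pr h x), G a ∈ U :=
    hG.continuousAt.eventually (by rw [hG0]; exact hP.isOpen.mem_nhds hx.1)
  have hz : ∀ᶠ a in 𝓝 (pr h x), G a ∈ zs w U ∧ pr h (G a) = a := by
    filter_upwards [hG1, hGU] with a h1 h2
    exact ⟨⟨h2, by rw [mem_ofPred_eq, h1.2]; exact hx.2⟩, h1.1⟩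
  constructor
  · refine hG.congr_of_eventuallyEq ?_
    filter_upwards [hz] with a ha
    have h3 := hP.gr_pr h ha.1
    rw [ha.2] at h3
    exact h3.symm
  · filter_upwards [hz] with a ha
    exact ⟨G a, ha.1, ha.2⟩

theorem Piece.isOpen_bs (h : Slice ι e) {w : E → ℝ} {U : Set E} (hP : Piece w e U) :
    IsOpen (bs h w U) := isOpen_iff_mem_nhds.2 fun _ ha => (hP.eventually h ha).2

theorem Piece.continuousOn (h : Slice ι e) {w : E → ℝ} {U : Set E} (hP : Piece w e U) :
    ContinuousOn (gr h w U) (bs h w U) := fun _ ha =>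
  (hP.eventually h ha).1.continuousAt.continuousWithinAt

theorem gr_injOn (h : Slice ι e) {w : E → ℝ} {U : Set E} : InjOn (gr h w U) (bs h w U) := by
  intro a ha b hb hab
  rw [← pr_gr h ha, ← pr_gr h hb, hab]

theorem gr_image (h : Slice ι e) {w : E → ℝ} {U : Set E} (hP : Piece w e U) {S : Set E}
    (hS : S ⊆ zs w U) : gr h w U '' (bs h w U ∩ gr h w U ⁻¹' S) = S := by
  ext x
  constructor
  · rintro ⟨a, ha, rfl⟩
    exact ha.2
  · intro hx
    have h1 := hP.gr_pr h (hS hx)
    refine ⟨pr h x, ⟨⟨x, hS hx, rfl⟩, ?_⟩, h1⟩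
    rw [mem_preimage, h1]
    exact hx

section line

variable {w : E → ℝ} {U : Set E} {ψ : E → ℝ}

theorem hasDerivAt_line (h : Slice ι e) (hψ : ContDiff ℝ 1 ψ) (a : W) (s : ℝ) :
    HasDerivAt (fun s => ψ (th h (a, s))) (fderiv ℝ ψ (th h (a, s)) e) s := by
  have h1 : HasDerivAt (fun s : ℝ => th h (a, s)) e s := by
    have h2 : HasDerivAt (fun s : ℝ => ι a + s • e) e s := by
      simpa using ((hasDerivAt_id s).smul_const e).const_add (ι a)
    exact h2
  exact ((hψ.differentiable (by norm_num) _).hasFDerivAt).comp_hasDerivAt s h1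

theorem contDiff_line (h : Slice ι e) (hψ : ContDiff ℝ 1 ψ) (a : W) :
    ContDiff ℝ 1 (fun s => ψ (th h (a, s))) :=
  hψ.comp ((th h).contDiff.comp (contDiff_const.prodMk contDiff_id))

theorem compact_line (h : Slice ι e) (hc : HasCompactSupport ψ) (a : W) :
    HasCompactSupport (fun s => ψ (th h (a, s))) := by
  refine HasCompactSupport.intro (K := ht h '' tsupport ψ) (hc.isCompact.image (ht h).continuous)
    fun s hs => ?_
  by_contra hcon
  exact hs ⟨th h (a, s), subset_tsupport _ hcon, ht_th h a s⟩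

theorem integral_line_zero (h : Slice ι e) (hψ : ContDiff ℝ 1 ψ) (hc : HasCompactSupport ψ)
    (a : W) : ∫ s, fderiv ℝ ψ (th h (a, s)) e = 0 := by
  have h1 := contDiff_line h hψ a
  have h2 := compact_line h hc a
  have h3 : ∀ s, deriv (fun s => ψ (th h (a, s))) s = fderiv ℝ ψ (th h (a, s)) e := fun s =>
    (hasDerivAt_line h hψ a s).deriv
  have h4 : Integrable fun s => fderiv ℝ ψ (th h (a, s)) e := by
    have h5 := (h1.continuous_deriv le_rfl).integrable_of_hasCompactSupport (μ := volume) h2.deriv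
    rwa [funext h3] at h5
  have h5 := h2
  rw [hasCompactSupport_iff_eventuallyEq, Filter.coclosedCompact_eq_cocompact] at h5
  have h6 := integral_of_hasDerivAt_of_tendsto (fun s => hasDerivAt_line h hψ a s) h4
    (h5.filter_mono _root_.atBot_le_cocompact).tendsto
    (h5.filter_mono _root_.atTop_le_cocompact).tendsto
  rw [h6]
  exact sub_self _

theorem integral_line (h : Slice ι e) (hP : Piece w e U) (hψ : ContDiff ℝ 1 ψ)
    (hc : HasCompactSupport ψ) (hU : tsupport ψ ⊆ U) (a : W) :
    ∫ s, indicator {x | w x < 0} (fun x => fderiv ℝ ψ x e) (th h (a, s))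
      = indicator (bs h w U) (fun a => ψ (gr h w U a)) a := by
  have hz : ∀ s, th h (a, s) ∉ U → fderiv ℝ ψ (th h (a, s)) e = 0 := by
    intro s hs
    have h1 : th h (a, s) ∉ tsupport (fderiv ℝ ψ) := fun h2 => hs (hU (tsupport_fderiv_subset ℝ h2))
    rw [image_eq_zero_of_notMem_tsupport h1]
    rfl
  by_cases ha : a ∈ bs h w U
  · rw [indicator_of_mem ha]
    have hg := gr_mem h ha
    set s1 := ht h (gr h w U a) with hs1
    have hth : th h (a, s1) = gr h w U a := by
      have := th_pr h (gr h w U a)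
      rwa [pr_gr h ha] at this
    have hw1 : w (th h (a, s1)) = 0 := by rw [hth]; exact hg.2
    have h1 : ∀ s, indicator {x | w x < 0} (fun x => fderiv ℝ ψ x e) (th h (a, s))
        = indicator (Iio s1) (deriv (fun s => ψ (th h (a, s)))) s := by
      intro s
      rw [indicator_apply, indicator_apply, (hasDerivAt_line h hψ a s).deriv]
      by_cases hs : th h (a, s) ∈ U
      · have h2 : th h (a, s) ∈ {x | w x < 0} ↔ s ∈ Iio s1 := by
          rw [mem_ofPred_eq, mem_Iio]
          constructor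
          · intro h3
            by_contra hcon
            rcases eq_or_lt_of_le (not_lt.1 hcon) with heq | hlt
            · rw [← heq, hw1] at h3
              exact lt_irrefl _ h3
            · have h4 := hP.mono_line (x := ι a) hlt
                (by show th h (a, s1) ∈ U; rw [hth]; exact hg.1) hs
              have h5 : w (th h (a, s1)) < w (th h (a, s)) := h4
              rw [hw1] at h5
              exact lt_asymm h3 h5
          · intro h3
            have h4 := hP.mono_line (x := ι a) h3 hs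
                (by show th h (a, s1) ∈ U; rw [hth]; exact hg.1)
            have h5 : w (th h (a, s)) < w (th h (a, s1)) := h4
            rwa [hw1] at h5
        by_cases h6 : s ∈ Iio s1
        · rw [if_pos h6, if_pos (h2.2 h6)]
        · rw [if_neg h6, if_neg (fun h7 => h6 (h2.1 h7))]
      · rw [hz s hs]
        simp
    simp_rw [h1]
    rw [integral_indicator measurableSet_Iio, ← integral_Iic_eq_integral_Iio,
      HasCompactSupport.integral_Iic_deriv_eq (contDiff_line h hψ a) (compact_line h hc a), hth]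
  · rw [indicator_of_notMem ha]
    have hI : Convex ℝ {s : ℝ | th h (a, s) ∈ U} := by
      have h2 : {s : ℝ | th h (a, s) ∈ U} = (fun s : ℝ => ι a + s • e) ⁻¹' U := rfl
      rw [h2]
      have h3 := hP.conv.affine_preimage (AffineMap.lineMap (k := ℝ) (ι a) (ι a + e))
      convert! h3 using 1
      ext s
      simp [AffineMap.lineMap_apply, add_comm]
    have hcont : ContinuousOn (fun s : ℝ => w (th h (a, s))) {s : ℝ | th h (a, s) ∈ U} := by
      have : Continuous fun s : ℝ => w (th h (a, s)) :=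
        hP.smooth.continuous.comp ((th h).continuous.comp (by fun_prop))
      exact this.continuousOn
    by_cases hneg : ∃ s0, th h (a, s0) ∈ U ∧ w (th h (a, s0)) < 0
    · obtain ⟨s0, hs0, hw0⟩ := hneg
      have hall : ∀ s, th h (a, s) ∈ U → w (th h (a, s)) < 0 := by
        intro s hs
        by_contra hcon
        obtain ⟨r, hr, hr0⟩ := hI.isPreconnected.intermediate_value hs0 hs hcont
          (show (0 : ℝ) ∈ Icc (w (th h (a, s0))) (w (th h (a, s))) from ⟨hw0.le, not_lt.1 hcon⟩)
        exact ha ⟨th h (a, r), ⟨hr, hr0⟩, pr_th h a r⟩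
      have h1 : ∀ s, indicator {x | w x < 0} (fun x => fderiv ℝ ψ x e) (th h (a, s))
          = fderiv ℝ ψ (th h (a, s)) e := by
        intro s
        by_cases hs : th h (a, s) ∈ U
        · exact indicator_of_mem (show th h (a, s) ∈ {x | w x < 0} from hall s hs) _
        · rw [indicator_apply, hz s hs]
          simp
      simp_rw [h1]
      exact integral_line_zero h hψ hc a
    · push Not at hneg
      have h1 : ∀ s, indicator {x | w x < 0} (fun x => fderiv ℝ ψ x e) (th h (a, s)) = 0 := by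
        intro s
        by_cases hs : th h (a, s) ∈ U
        · exact indicator_of_notMem
            (show th h (a, s) ∉ {x | w x < 0} from not_lt.2 (hneg s hs)) _
        · rw [indicator_apply, hz s hs]
          simp
      simp_rw [h1]
      simp

end line

section meas
variable [MeasurableSpace E] [BorelSpace E] [MeasurableSpace W] [BorelSpace W]
variable {w : E → ℝ} {U : Set E}

theorem measurePreserving_th (h : Slice ι e) :
    MeasurePreserving (th h) (volume : Measure (W × ℝ)) volume :=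
  (thI h).measurePreserving.comp (WithLp.volume_preserving_toLp W ℝ)

theorem measurableEmbedding_th (h : Slice ι e) : MeasurableEmbedding (th h) :=
  (th h).toHomeomorph.measurableEmbedding

/-- Divergence theorem for fields in direction `e`. -/
theorem flux_graph (h : Slice ι e) (hP : Piece w e U) {ψ : E → ℝ} (hψ : ContDiff ℝ 1 ψ)
    (hc : HasCompactSupport ψ) (hU : tsupport ψ ⊆ U) :
    ∫ x in {x | w x < 0}, fderiv ℝ ψ x e = ∫ a in bs h w U, ψ (gr h w U a) := by
  have hm : MeasurableSet {x | w x < 0} :=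
    (isOpen_lt hP.smooth.continuous continuous_const).measurableSet
  have hint : Integrable (indicator {x | w x < 0} (fun x => fderiv ℝ ψ x e)) := by
    refine Integrable.indicator ?_ hm
    refine Continuous.integrable_of_hasCompactSupport
      ((hψ.continuous_fderiv one_ne_zero).clm_apply continuous_const) ?_
    exact (hc.fderiv (𝕜 := ℝ)).comp_left (g := fun L : E →L[ℝ] ℝ => L e) (by simp)
  rw [← integral_indicator hm,
    ← (measurePreserving_th h).integral_comp (measurableEmbedding_th h)]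
  have hint2 : Integrable (fun p : W × ℝ => indicator {x | w x < 0} (fun x => fderiv ℝ ψ x e)
      (th h p)) := ((measurePreserving_th h).integrable_comp_emb (measurableEmbedding_th h)).2 hint
  have h1 : ∫ p : W × ℝ, indicator {x | w x < 0} (fun x => fderiv ℝ ψ x e) (th h p)
      = ∫ a, ∫ s, indicator {x | w x < 0} (fun x => fderiv ℝ ψ x e) (th h (a, s)) :=
    integral_prod _ hint2
  rw [h1]
  simp_rw [integral_line h hP hψ hc hU]
  exact integral_indicator (hP.isOpen_bs h).measurableSet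

/-- The surface measure on graphs. -/
theorem delta_graph (h : Slice ι e) (hP : Piece w e U) {μ : Measure E} (hμ : IsDelta w μ)
    {φ : E → ℝ} (hφ : ContDiff ℝ ∞ φ) (hc : HasCompactSupport φ) (hU : tsupport φ ⊆ U) :
    ∫ x, φ x ∂μ = ∫ a in bs h w U, φ (gr h w U a) * (fderiv ℝ w (gr h w U a) e)⁻¹ := by
  set ψ : E → ℝ := fun x => φ x * (fderiv ℝ w x e)⁻¹ with hψ
  have hsub : Function.support ψ ⊆ Function.support φ := by
    intro x hx h0
    exact hx (by simp [hψ, h0])
  have hts : tsupport ψ ⊆ tsupport φ := closure_mono hsub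
  have hψc : HasCompactSupport ψ := hc.mono hsub
  have hψs : ContDiff ℝ 1 ψ := by
    refine contDiff_iff_contDiffAt.2 fun x => ?_
    by_cases hx : x ∈ tsupport φ
    · have h1 : ContDiffAt ℝ 1 (fun x => fderiv ℝ w x e) x :=
        (((contDiff_infty_iff_fderiv.1 hP.smooth).2.of_le
          (by exact_mod_cast le_top)).clm_apply contDiff_const).contDiffAt
      exact ((hφ.of_le (by exact_mod_cast le_top)).contDiffAt).mul
        (h1.inv (hP.pos x (hU hx)).ne')
    · have h0 : ψ =ᶠ[𝓝 x] fun _ => 0 := by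
        have : (tsupport φ)ᶜ ∈ 𝓝 x := (isClosed_tsupport φ).isOpen_compl.mem_nhds hx
        filter_upwards [this] with y hy
        simp [hψ, image_eq_zero_of_notMem_tsupport hy]
      exact contDiffAt_const.congr_of_eventuallyEq h0
  have hflux := hμ.flux (fun x => ψ x • e)
    (Eventually.of_forall fun x => (hψs.smul contDiff_const).contDiffAt)
  have h1 : ∀ x, divE (fun x => ψ x • e) x = fderiv ℝ ψ x e := by
    intro x
    rw [dl_divE_smul (hψs.differentiable (by norm_num) x) (differentiableAt_const e)]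
    have : divE (fun _ : E => e) x = 0 := by simp [divE, tr]
    rw [this, mul_zero, zero_add]
  have h2 : ∀ x, fderiv ℝ w x (ψ x • e) = φ x := by
    intro x
    rw [map_smul, smul_eq_mul]
    by_cases hx : x ∈ tsupport φ
    · have := (hP.pos x (hU hx)).ne'
      simp only [hψ]
      field_simp
    · simp [hψ, image_eq_zero_of_notMem_tsupport hx]
  simp_rw [h1, h2] at hflux
  rw [← hflux, flux_graph h hP hψs hψc (hts.trans hU)]

/-- Comparison of finite measures through test functions. -/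
theorem meas_le {μ ν : Measure E} [IsFiniteMeasure μ] [IsFiniteMeasure ν] (hU : IsOpen U)
    (h : ∀ φ : E → ℝ, ContDiff ℝ ∞ φ → HasCompactSupport φ → tsupport φ ⊆ U →
      ∫ x, φ x ∂μ ≤ ∫ x, φ x ∂ν) {S : Set E} (hS : MeasurableSet S) (hSU : S ⊆ U) :
    μ S ≤ ν S := by
  rw [hS.measure_eq_iSup_isCompact]
  refine iSup_le fun K => iSup_le fun hKS => iSup_le fun hK => ?_
  refine le_trans ?_ (measure_mono hKS)
  rw [K.measure_eq_iInf_isOpen ν]
  refine le_iInf fun O => le_iInf fun hKO => le_iInf fun hO => ?_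
  obtain ⟨φ, hφ, hφc, hφU, hφ1, hφI⟩ := dl_exists_cut hK (hO.inter hU)
    (subset_inter hKO (hKS.trans hSU))
  have hint : ∀ m : Measure E, IsFiniteMeasure m → Integrable φ m := fun m hm =>
    hφ.continuous.integrable_of_hasCompactSupport hφc
  calc μ K = ∫⁻ x, K.indicator 1 x ∂μ := (lintegral_indicator_one hK.measurableSet).symm
    _ ≤ ∫⁻ x, ENNReal.ofReal (φ x) ∂μ := by
        refine lintegral_mono fun x => ?_
        by_cases hx : x ∈ K
        · rw [indicator_of_mem hx, Filter.Eventually.self_of_nhdsSet hφ1 x hx]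
          simp
        · rw [indicator_of_notMem hx]
          exact zero_le
    _ = ENNReal.ofReal (∫ x, φ x ∂μ) := by
        rw [ofReal_integral_eq_lintegral_ofReal (hint μ inferInstance)
          (Eventually.of_forall fun x => (hφI x).1)]
    _ ≤ ENNReal.ofReal (∫ x, φ x ∂ν) :=
        ENNReal.ofReal_le_ofReal (h φ hφ hφc (hφU.trans inter_subset_right))
    _ = ∫⁻ x, ENNReal.ofReal (φ x) ∂ν := by
        rw [ofReal_integral_eq_lintegral_ofReal (hint ν inferInstance)
          (Eventually.of_forall fun x => (hφI x).1)]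
    _ ≤ ∫⁻ x, O.indicator 1 x ∂ν := by
        refine lintegral_mono fun x => ?_
        by_cases hx : x ∈ O
        · rw [indicator_of_mem hx]
          exact ENNReal.ofReal_le_one.2 (hφI x).2
        · rw [indicator_of_notMem hx]
          have h0 : φ x = 0 := image_eq_zero_of_notMem_tsupport fun h1 => hx (hφU h1).1
          rw [h0, ENNReal.ofReal_zero]
    _ = ν O := lintegral_indicator_one hO.measurableSet

/-- The surface measure on a piece, transported to the base of the graph. -/
def gm (h : Slice ι e) (w : E → ℝ) (U : Set E) : Measure W :=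
  (volume.restrict (bs h w U)).withDensity
    (fun a => ENNReal.ofReal (fderiv ℝ w (gr h w U a) e)⁻¹)

theorem aemeasurable_gr (h : Slice ι e) (hP : Piece w e U) :
    AEMeasurable (gr h w U) ((volume : Measure W).restrict (bs h w U)) :=
  (hP.continuousOn h).aemeasurable (hP.isOpen_bs h).measurableSet

theorem measurable_dens (hP : Piece w e U) :
    Measurable fun x : E => ENNReal.ofReal (fderiv ℝ w x e)⁻¹ := by
  have h1 : Continuous (fderiv ℝ w) := hP.smooth.continuous_fderiv (by simp)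
  exact ENNReal.measurable_ofReal.comp ((h1.clm_apply continuous_const).measurable.inv)

theorem aemeasurable_dens (h : Slice ι e) (hP : Piece w e U) :
    AEMeasurable (fun a => ENNReal.ofReal (fderiv ℝ w (gr h w U a) e)⁻¹)
      ((volume : Measure W).restrict (bs h w U)) :=
  (measurable_dens hP).comp_aemeasurable (aemeasurable_gr h hP)

theorem bs_finite (h : Slice ι e) (hP : Piece w e U) : volume (bs h w U) ≠ ⊤ := by
  have h1 : Bornology.IsBounded (bs h w U) := by
    have h2 : Bornology.IsBounded (zs w U) := hP.bdd.subset inter_subset_left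
    exact (pr h).lipschitz.isBounded_image h2
  exact h1.measure_lt_top.ne

theorem gm_finite (h : Slice ι e) (hP : Piece w e U) : IsFiniteMeasure (gm h w U) := by
  obtain ⟨c, hc, hcl⟩ := hP.low
  refine ⟨?_⟩
  rw [gm, withDensity_apply _ MeasurableSet.univ, Measure.restrict_univ]
  calc ∫⁻ a in bs h w U, ENNReal.ofReal (fderiv ℝ w (gr h w U a) e)⁻¹
      ≤ ∫⁻ _ in bs h w U, ENNReal.ofReal c⁻¹ := by
        refine setLIntegral_mono' (hP.isOpen_bs h).measurableSet fun a ha => ?_
        refine ENNReal.ofReal_le_ofReal ?_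
        exact inv_anti₀ hc (hcl _ (gr_mem h ha).1)
    _ = ENNReal.ofReal c⁻¹ * volume (bs h w U) := by rw [setLIntegral_const]
    _ < ⊤ := ENNReal.mul_lt_top ENNReal.ofReal_lt_top (bs_finite h hP).lt_top

theorem aemeasurable_gm (h : Slice ι e) (hP : Piece w e U) :
    AEMeasurable (gr h w U) (gm h w U) :=
  (aemeasurable_gr h hP).mono_ac (withDensity_absolutelyContinuous _ _)

theorem lintegral_gm (h : Slice ι e) (hP : Piece w e U) {k : E → ℝ≥0∞} (hk : Measurable k) :
    ∫⁻ x, k x ∂((gm h w U).map (gr h w U)) = ∫⁻ a in bs h w U,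
      ENNReal.ofReal (fderiv ℝ w (gr h w U a) e)⁻¹ * k (gr h w U a) := by
  rw [lintegral_map' hk.aemeasurable (aemeasurable_gm h hP), gm]
  exact lintegral_withDensity_eq_lintegral_mul₀ (aemeasurable_dens h hP)
      (hk.comp_aemeasurable (aemeasurable_gr h hP))

theorem integral_gm (h : Slice ι e) (hP : Piece w e U) {φ : E → ℝ} (hφ : Continuous φ) :
    ∫ x, φ x ∂((gm h w U).map (gr h w U))
      = ∫ a in bs h w U, φ (gr h w U a) * (fderiv ℝ w (gr h w U a) e)⁻¹ := by
  rw [integral_map (aemeasurable_gm h hP) hφ.aestronglyMeasurable, gm,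
    integral_withDensity_eq_integral_toReal_smul₀ (aemeasurable_dens h hP)
      (Eventually.of_forall fun _ => ENNReal.ofReal_lt_top)]
  refine setIntegral_congr_fun (hP.isOpen_bs h).measurableSet fun a ha => ?_
  have h1 : 0 < (fderiv ℝ w (gr h w U a) e)⁻¹ := inv_pos.2 (hP.pos _ (gr_mem h ha).1)
  show (ENNReal.ofReal (fderiv ℝ w (gr h w U a) e)⁻¹).toReal • φ (gr h w U a) = _
  rw [ENNReal.toReal_ofReal h1.le, smul_eq_mul, mul_comm]

theorem delta_eq (h : Slice ι e) (hP : Piece w e U) {μ : Measure E} (hμ : IsDelta w μ)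
    {S : Set E} (hS : MeasurableSet S) (hSU : S ⊆ U) :
    μ S = (gm h w U).map (gr h w U) S := by
  have h1 := hμ.fin
  have h2 := gm_finite h hP
  have h3 : IsFiniteMeasure ((gm h w U).map (gr h w U)) := inferInstance
  refine le_antisymm ?_ ?_
  · exact meas_le hP.isOpen (fun φ hφ hc hU => by
      rw [integral_gm h hP hφ.continuous, delta_graph h hP hμ hφ hc hU]) hS hSU
  · exact meas_le hP.isOpen (fun φ hφ hc hU => by
      rw [integral_gm h hP hφ.continuous, delta_graph h hP hμ hφ hc hU]) hS hSU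

theorem measurableSet_prS (h : Slice ι e) (hP : Piece w e U) {S : Set E} (hS : MeasurableSet S)
    (hSU : S ⊆ zs w U) : MeasurableSet (pr h '' S) :=
  hS.image_of_continuousOn_injOn (pr h).continuous.continuousOn ((hP.injOn h).mono hSU)

theorem prS_eq (h : Slice ι e) (hP : Piece w e U) {S : Set E} (hSU : S ⊆ zs w U) :
    pr h '' S = bs h w U ∩ gr h w U ⁻¹' S := by
  ext a
  constructor
  · rintro ⟨x, hx, rfl⟩
    refine ⟨⟨x, hSU hx, rfl⟩, ?_⟩
    rw [mem_preimage, hP.gr_pr h (hSU hx)]
    exact hx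
  · rintro ⟨ha, hS⟩
    exact ⟨gr h w U a, hS, pr_gr h ha⟩

theorem lintegral_delta (h : Slice ι e) (hP : Piece w e U) {μ : Measure E} (hμ : IsDelta w μ)
    {S : Set E} (hS : MeasurableSet S) (hSU : S ⊆ zs w U) {k : E → ℝ≥0∞} (hk : Measurable k) :
    ∫⁻ x in S, k x ∂μ = ∫⁻ a in pr h '' S,
      ENNReal.ofReal (fderiv ℝ w (gr h w U a) e)⁻¹ * k (gr h w U a) := by
  have h1 : μ.restrict S = ((gm h w U).map (gr h w U)).restrict S := by
    ext T hT
    rw [Measure.restrict_apply hT, Measure.restrict_apply hT]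
    exact delta_eq h hP hμ (hT.inter hS) (inter_subset_right.trans (hSU.trans inter_subset_left))
  rw [h1, ← lintegral_indicator hS, lintegral_gm h hP (hk.indicator hS),
    ← lintegral_indicator (hP.isOpen_bs h).measurableSet,
    ← lintegral_indicator (measurableSet_prS h hP hS hSU)]
  refine lintegral_congr fun a => ?_
  rw [prS_eq h hP hSU]
  by_cases ha : a ∈ bs h w U
  · by_cases hS' : gr h w U a ∈ S
    · rw [indicator_of_mem ha, indicator_of_mem hS',
        indicator_of_mem (show a ∈ bs h w U ∩ gr h w U ⁻¹' S from ⟨ha, hS'⟩)]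
    · rw [indicator_of_mem ha, indicator_of_notMem hS', mul_zero,
        indicator_of_notMem fun h2 => hS' h2.2]
  · rw [indicator_of_notMem ha, indicator_of_notMem fun h2 => ha h2.1]

end meas

section front
variable [MeasurableSpace E] [BorelSpace E] [MeasurableSpace W] [BorelSpace W]
  {M : Type*} [MetricSpace M] [MeasurableSpace M] [BorelSpace M]
variable {w : E → ℝ} {U : Set E}

theorem B_inj {B : E →L[ℝ] E} (hB : B.det ≠ 0) : Function.Injective B := by
  have := (LinearMap.equivOfDetNeZero (B : E →ₗ[ℝ] E) hB).injective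
  exact this

/-- The density condition: `κ = |det B| ‖B^{-T} dw‖` on the level set. -/
def Dens (w : E → ℝ) (B : E → E →L[ℝ] E) (κ : E → ℝ) : Prop :=
  ∀ x, w x = 0 → ∃ m, (∀ v, ⟪m, B x v⟫_ℝ = fderiv ℝ w x v) ∧ |(B x).det| * ‖m‖ = κ x

/-- The measure identity on a piece. -/
theorem front_piece (h : Slice ι e) (hP : Piece w e U) {μ : Measure E} (hμ : IsDelta w μ)
    {F : E → M} (hinj : Function.Injective F) {B : E → E →L[ℝ] E} (hF : AFHyp F univ B)
    (hB : ∀ y, (B y).det ≠ 0) {κ : E → ℝ} (hκm : Measurable κ) (hκ : Dens w B κ)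
    {S : Set E} (hS : MeasurableSet S) (hSU : S ⊆ zs w U) :
    μHE[finrank ℝ W] (F '' S) = ∫⁻ x in S, ENNReal.ofReal (κ x) ∂μ := by
  have hJi : ∀ a ∈ bs h w U, Function.Injective
      ((B (gr h w U a)).comp (Jm ι e (fderiv ℝ w (gr h w U a)))) := by
    intro a ha
    refine (B_inj (hB _)).comp ?_
    intro u v huv
    have h1 := congrArg (pr h) huv
    have h2 : ∀ u, pr h (((Jm ι e (fderiv ℝ w (gr h w U a)) : W →L[ℝ] E) : W → E) u) = u :=
      fun u => pr_Jm h _ u
    exact (h2 u).symm.trans (h1.trans (h2 v))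
  have hAF : AFHyp (F ∘ gr h w U) (bs h w U)
      (fun a => (B (gr h w U a)).comp (Jm ι e (fderiv ℝ w (gr h w U a)))) :=
    hF.comp_strict (mapsTo_univ _ _) (fun a ha => (hP.eventually h ha).1) hJi
  have hinj' : InjOn (F ∘ gr h w U) (bs h w U) := fun a ha b hb hab =>
    gr_injOn h ha hb (hinj hab)
  have hsub : pr h '' S ⊆ bs h w U := image_mono hSU
  have himg : F '' S = (F ∘ gr h w U) '' (pr h '' S) := by
    rw [image_comp, prS_eq h hP hSU, gr_image h hP hSU]
  rw [himg, area_formulaF (hP.isOpen_bs h) hinj' hAF hJi (measurableSet_prS h hP hS hSU) hsub,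
    lintegral_delta h hP hμ hS hSU (k := fun x => ENNReal.ofReal (κ x))
      (ENNReal.measurable_ofReal.comp hκm)]
  refine setLIntegral_congr_fun (measurableSet_prS h hP hS hSU) fun a ha => ?_
  have hg := gr_mem h (hsub ha)
  obtain ⟨m, hm, hmκ⟩ := hκ _ hg.2
  have hL := hP.pos _ hg.1
  have h1 := LinG.normDet_tangent ι e h.norm_e h.fin h.perp (B (gr h w U a)) (hB _)
    (fderiv ℝ w (gr h w U a)) hL m hm
  show ENNReal.ofReal (((B (gr h w U a)).comp (Jm ι e (fderiv ℝ w (gr h w U a))) :
    W →L[ℝ] E) : W →ₗ[ℝ] E).normDet = ENNReal.ofReal (fderiv ℝ w (gr h w U a) e)⁻¹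
      * ENNReal.ofReal (κ (gr h w U a))
  rw [← ENNReal.ofReal_mul (inv_pos.2 hL).le]
  congr 1
  refine h1.trans ?_
  rw [hmκ, div_eq_inv_mul]

/-- Near each point of the level set, a unit direction and a piece. -/
theorem exists_piece (hw : IsReg w) {n : ℕ} (hn : n + 1 = finrank ℝ E) {x : E} (hx : w x = 0) :
    ∃ (ι : EuclideanSpace ℝ (Fin n) →ₗᵢ[ℝ] E) (e : E) (_ : Slice ι e) (r : ℝ), 0 < r ∧
      Piece w e (ball x r) := by
  set ν : E := gradient w x with hν
  have hgr : ∀ v, ⟪ν, v⟫_ℝ = fderiv ℝ w x v := fun v => by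
    rw [hν, gradient, InnerProductSpace.toDual_symm_apply]
  have hν0 : ν ≠ 0 := by
    intro h0
    refine hw.reg x hx (ContinuousLinearMap.ext fun v => ?_)
    rw [← hgr, h0, inner_zero_left]
    rfl
  have hνn : 0 < ‖ν‖ := norm_pos_iff.2 hν0
  set e : E := ‖ν‖⁻¹ • ν with he
  have hen : ‖e‖ = 1 := by
    rw [he, norm_smul, norm_inv, norm_norm, inv_mul_cancel₀ hνn.ne']
  have he0 : e ≠ 0 := by
    intro h0
    rw [h0, norm_zero] at hen
    exact one_ne_zero hen.symm
  have hde : 0 < fderiv ℝ w x e := by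
    rw [← hgr, he, inner_smul_right, real_inner_self_eq_norm_sq]
    positivity
  have : Fact (finrank ℝ E = n + 1) := ⟨hn.symm⟩
  have hfin : finrank ℝ (ℝ ∙ e)ᗮ = n := Submodule.finrank_orthogonal_span_singleton he0
  let b : OrthonormalBasis (Fin n) ℝ (ℝ ∙ e)ᗮ := (stdOrthonormalBasis ℝ (ℝ ∙ e)ᗮ).reindex
    (finCongr hfin)
  let ι : EuclideanSpace ℝ (Fin n) →ₗᵢ[ℝ] E :=
    (ℝ ∙ e)ᗮ.subtypeₗᵢ.comp b.repr.symm.toLinearIsometry
  have hslice : Slice ι e := by
    refine ⟨hen, fun a => ?_, by simpa using hn⟩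
    have h1 : ((b.repr.symm a : (ℝ ∙ e)ᗮ) : E) ∈ (ℝ ∙ e)ᗮ := (b.repr.symm a).2
    rw [real_inner_comm]
    exact Submodule.mem_orthogonal_singleton_iff_inner_right.1 h1
  have hcont : Continuous fun y => fderiv ℝ w y e :=
    (hw.smooth.continuous_fderiv (by simp)).clm_apply continuous_const
  have hev : ∀ᶠ y in 𝓝 x, fderiv ℝ w x e / 2 < fderiv ℝ w y e :=
    hcont.continuousAt.eventually (lt_mem_nhds (by linarith))
  obtain ⟨r, hr, hball⟩ := Metric.eventually_nhds_iff_ball.1 hev
  exact ⟨ι, e, hslice, r, hr, ⟨hw.smooth, isOpen_ball, convex_ball x r, isBounded_ball,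
    ⟨fderiv ℝ w x e / 2, by linarith, fun y hy => (hball y hy).le⟩⟩⟩

/-- **The surface measure is the Hausdorff measure.** -/
theorem hausdorff_front (hw : IsReg w) {μ : Measure E} (hμ : IsDelta w μ)
    {F : E → M} (hinj : Function.Injective F) {B : E → E →L[ℝ] E} (hF : AFHyp F univ B)
    (hB : ∀ y, (B y).det ≠ 0) {κ : E → ℝ} (hκm : Measurable κ) (hκ : Dens w B κ)
    {n : ℕ} (hn : n + 1 = finrank ℝ E) {S : Set E} (hS : MeasurableSet S)
    (hSw : ∀ x ∈ S, w x = 0) :
    μHE[n] (F '' S) = ∫⁻ x in S, ENNReal.ofReal (κ x) ∂μ := by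
  rcases S.eq_empty_or_nonempty with rfl | hne
  · simp
  choose! ι e hsl r hr hP using fun x (hx : x ∈ {x | w x = 0}) => exists_piece hw hn hx
  obtain ⟨t, htS, htc, htcov⟩ := TopologicalSpace.countable_cover_nhdsWithin
    (f := fun x => ball x (r x)) (s := S)
    fun x hx => mem_nhdsWithin_of_mem_nhds (ball_mem_nhds x (hr x (hSw x hx)))
  have htne : t.Nonempty := by
    rcases t.eq_empty_or_nonempty with rfl | ht
    · obtain ⟨a, ha⟩ := hne
      simpa using htcov ha
    · exact ht
  obtain ⟨u, hu⟩ := htc.exists_eq_range htne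
  have huS : ∀ n, u n ∈ S := fun n => htS (hu ▸ mem_range_self n)
  set Bl : ℕ → Set E := fun n => ball (u n) (r (u n)) with hBl
  have hBm : ∀ n, MeasurableSet (Bl n) := fun n => measurableSet_ball
  set P : ℕ → Set E := fun n => S ∩ disjointed Bl n with hPdef
  have hPm : ∀ n, MeasurableSet (P n) := fun n => hS.inter (MeasurableSet.disjointed hBm n)
  have hPd : Pairwise (Function.onFun Disjoint P) := fun i j hij =>
    (disjoint_disjointed Bl hij).mono inter_subset_right inter_subset_right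
  have hPB : ∀ n, P n ⊆ Bl n := fun n x hx => disjointed_subset Bl n hx.2
  have hPA : ⋃ n, P n = S := by
    rw [← inter_iUnion, iUnion_disjointed]
    refine inter_eq_left.2 fun x hx => ?_
    obtain ⟨y, hy, hxy⟩ := mem_iUnion₂.1 (htcov hx)
    rw [hu] at hy
    obtain ⟨n, rfl⟩ := hy
    exact mem_iUnion.2 ⟨n, hxy⟩
  have hpc : ∀ i, μHE[n] (F '' P i) = ∫⁻ x in P i, ENNReal.ofReal (κ x) ∂μ := by
    intro i
    have hui : w (u i) = 0 := hSw _ (huS i)
    have h1 := front_piece (hsl (u i) hui) (hP (u i) hui) hμ hinj hF hB hκm hκ (hPm i)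
      (fun x hx => ⟨hPB i hx, hSw x hx.1⟩)
    have h2 : finrank ℝ (EuclideanSpace ℝ (Fin n)) = n := by simp
    rw [h2] at h1
    exact h1
  have hfc : Continuous F := by
    have := hF.continuousOn isOpen_univ
    exact continuousOn_univ.1 this
  have hmeas : ∀ i, MeasurableSet (F '' P i) := fun i =>
    (hPm i).image_of_continuousOn_injOn hfc.continuousOn hinj.injOn
  have hdis : Pairwise (Function.onFun Disjoint fun i => F '' P i) := by
    intro i j hij
    exact (Set.disjoint_image_iff hinj).2 (hPd hij)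
  have himg : F '' S = ⋃ i, F '' P i := by rw [← image_iUnion, hPA]
  rw [himg, measure_iUnion hdis hmeas]
  simp_rw [hpc]
  rw [← lintegral_iUnion hPm hPd, hPA]

/-- A frame field for a Riemannian metric: `‖B y v‖` is the length of `v`, `‖dm y ξ‖` the length of
the covector `ξ`, `ρ` the volume density. -/
structure Frame (B : E → E →L[ℝ] E) (ρ : E → ℝ) (dm : E → E → E) : Prop where
  det : ∀ y, (B y).det = ρ y
  pos : ∀ y, 0 < ρ y
  smooth : ContDiff ℝ ∞ ρ
  inner_dm : ∀ y ξ v, ⟪dm y ξ, B y v⟫_ℝ = ⟪ξ, v⟫_ℝ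
  cont : Continuous fun q : E × E => ‖dm q.1 q.2‖

/-- The De Giorgi perimeter of the metric `‖B y v‖`. -/
def areaG (B : E → E →L[ℝ] E) (ρ : E → ℝ) (D : Set E) : ENNReal :=
  ⨆ X : {X : E → E // ContDiff ℝ ∞ X ∧ HasCompactSupport X ∧ ∀ y, ‖B y (X y)‖ ≤ 1},
    ENNReal.ofReal (∫ y in D, divE (fun z => ρ z • X.1 z) y)

section frame
variable {B : E → E →L[ℝ] E} {ρ : E → ℝ} {dm : E → E → E}

theorem inner_gradient (w : E → ℝ) (x v : E) : ⟪gradient w x, v⟫_ℝ = fderiv ℝ w x v := by
  rw [gradient, InnerProductSpace.toDual_symm_apply]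

theorem continuous_gradient (hw : IsReg w) : Continuous (gradient w) := by
  have h1 := hw.smooth.continuous_fderiv (by simp)
  exact (InnerProductSpace.toDual ℝ E).symm.continuous.comp h1

theorem Frame.continuous_kap (hB : Frame B ρ dm) (hw : IsReg w) :
    Continuous fun x => ρ x * ‖dm x (gradient w x)‖ :=
  hB.smooth.continuous.mul (hB.cont.comp (continuous_id.prodMk (continuous_gradient hw)))

/-- Hausdorff measure of the level set `{w = 0}`. -/
theorem Frame.hausdorff_surf (hB : Frame B ρ dm) (hw : IsReg w) {μ : Measure E}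
    (hμ : IsDelta w μ) {Ψ : E → M} (hinj : Function.Injective Ψ) {l : ℝ} (hl : 0 < l)
    (hΨ : AFHyp Ψ univ fun y => l • B y) {n : ℕ} (hn : n + 1 = finrank ℝ E) {S : Set E}
    (hS : MeasurableSet S) (hSw : ∀ x ∈ S, w x = 0) :
    μHE[n] (Ψ '' S)
      = ENNReal.ofReal (l ^ n) * ∫⁻ x in S, ENNReal.ofReal (ρ x * ‖dm x (gradient w x)‖) ∂μ := by
  have hdet : ∀ y, ((l • B y : E →L[ℝ] E)).det = l ^ finrank ℝ E * ρ y := by
    intro y
    have h1 : ((l • B y : E →L[ℝ] E)).det = LinearMap.det (l • ((B y : E →L[ℝ] E) : E →ₗ[ℝ] E)) :=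
      rfl
    rw [h1, LinearMap.det_smul]
    congr 1
    exact hB.det y
  have hpos : ∀ y, 0 < l ^ finrank ℝ E * ρ y := fun y => mul_pos (pow_pos hl _) (hB.pos y)
  have hcont := hB.continuous_kap hw
  have h1 := hausdorff_front hw hμ hinj hΨ (fun y => by rw [hdet]; exact (hpos y).ne')
    (κ := fun x => l ^ n * (ρ x * ‖dm x (gradient w x)‖)) (hcont.measurable.const_mul _)
    (fun x _ => ⟨l⁻¹ • dm x (gradient w x), fun v => by
      show ⟪l⁻¹ • dm x (gradient w x), l • B x v⟫_ℝ = _
      rw [inner_smul_left, inner_smul_right, hB.inner_dm, inner_gradient]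
      simp [hl.ne'], by
      rw [hdet, abs_of_pos (hpos x), norm_smul, norm_inv, Real.norm_of_nonneg hl.le, ← hn]
      field_simp
      ring⟩) hn hS hSw
  rw [h1, ← lintegral_const_mul' _ _ ENNReal.ofReal_ne_top]
  refine lintegral_congr fun x => ?_
  rw [ENNReal.ofReal_mul (by positivity)]

theorem Frame.areaG_le (hB : Frame B ρ dm) (_hw : IsReg w) {μ : Measure E} (hμ : IsDelta w μ) :
    areaG B ρ {x | w x < 0} ≤ ∫⁻ x, ENNReal.ofReal (ρ x * ‖dm x (gradient w x)‖) ∂μ := by
  refine iSup_le fun X => ?_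
  obtain ⟨X, hX, hXc, hX1⟩ := X
  have hZ : ContDiff ℝ ∞ fun z => ρ z • X z := hB.smooth.smul hX
  have h1 := hμ.flux (fun z => ρ z • X z)
    (Eventually.of_forall fun x => (hZ.of_le (by exact_mod_cast le_top)).contDiffAt)
  show ENNReal.ofReal (∫ y in {x | w x < 0}, divE (fun z => ρ z • X z) y) ≤ _
  rw [h1]
  refine (Real.ofReal_le_enorm _).trans ((enorm_integral_le_lintegral_enorm _).trans ?_)
  refine lintegral_mono fun x => ?_
  rw [Real.enorm_eq_ofReal_abs]
  refine ENNReal.ofReal_le_ofReal ?_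
  rw [map_smul, smul_eq_mul, abs_mul, abs_of_pos (hB.pos x), ← inner_gradient, ← hB.inner_dm]
  refine mul_le_mul_of_nonneg_left ?_ (hB.pos x).le
  calc |⟪dm x (gradient w x), B x (X x)⟫_ℝ| ≤ ‖dm x (gradient w x)‖ * ‖B x (X x)‖ :=
        abs_real_inner_le_norm _ _
    _ ≤ ‖dm x (gradient w x)‖ * 1 := mul_le_mul_of_nonneg_left (hX1 x) (norm_nonneg _)
    _ = _ := mul_one _

theorem Frame.le_areaG (hB : Frame B ρ dm) (hw : IsReg w) {μ : Measure E} (hμ : IsDelta w μ)
    {X : E → E} (hX : ContDiff ℝ ∞ X) (hXc : HasCompactSupport X) (hX1 : ∀ y, ‖B y (X y)‖ ≤ 1)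
    (hXn : ∀ x, w x = 0 → fderiv ℝ w x (X x) = ‖dm x (gradient w x)‖) :
    ∫⁻ x, ENNReal.ofReal (ρ x * ‖dm x (gradient w x)‖) ∂μ ≤ areaG B ρ {x | w x < 0} := by
  have hfin := hμ.fin
  have hae : ∀ᵐ x ∂μ, w x = 0 := hμ.supp
  have hZ : ContDiff ℝ ∞ fun z => ρ z • X z := hB.smooth.smul hX
  have h1 := hμ.flux (fun z => ρ z • X z)
    (Eventually.of_forall fun x => (hZ.of_le (by exact_mod_cast le_top)).contDiffAt)
  have hval : ∀ᵐ x ∂μ, fderiv ℝ w x (ρ x • X x) = ρ x * ‖dm x (gradient w x)‖ := by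
    filter_upwards [hae] with x hx
    rw [map_smul, smul_eq_mul, hXn x hx]
  have hint : Integrable (fun x => fderiv ℝ w x (ρ x • X x)) μ := by
    have hc : Continuous fun x => fderiv ℝ w x (ρ x • X x) :=
      (hw.smooth.continuous_fderiv (by simp)).clm_apply hZ.continuous
    refine hc.integrable_of_hasCompactSupport ?_
    refine hXc.mono' ?_
    intro x hx
    refine subset_tsupport _ fun h0 => hx ?_
    simp only [h0, smul_zero, map_zero]
  calc ∫⁻ x, ENNReal.ofReal (ρ x * ‖dm x (gradient w x)‖) ∂μ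
      = ∫⁻ x, ENNReal.ofReal (fderiv ℝ w x (ρ x • X x)) ∂μ :=
        lintegral_congr_ae (by filter_upwards [hval] with x hx; rw [hx])
    _ = ENNReal.ofReal (∫ x, fderiv ℝ w x (ρ x • X x) ∂μ) := by
        rw [ofReal_integral_eq_lintegral_ofReal hint]
        filter_upwards [hval] with x hx
        rw [hx]
        exact mul_nonneg (hB.pos x).le (norm_nonneg _)
    _ = ENNReal.ofReal (∫ y in {x | w x < 0}, divE (fun z => ρ z • X z) y) := by rw [h1]
    _ ≤ areaG B ρ {x | w x < 0} :=
        le_iSup (fun X : {X : E → E // ContDiff ℝ ∞ X ∧ HasCompactSupport X ∧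
          ∀ y, ‖B y (X y)‖ ≤ 1} => ENNReal.ofReal (∫ y in {x | w x < 0},
            divE (fun z => ρ z • X.1 z) y)) ⟨X, hX, hXc, hX1⟩

omit [MeasurableSpace E] [BorelSpace E] in
theorem frontier_reg (hw : IsReg w) : frontier {x | w x < 0} = {x | w x = 0} := by
  refine Subset.antisymm (frontier_lt_subset_eq hw.smooth.continuous continuous_const) ?_
  intro x hx
  have ho : IsOpen {x | w x < 0} := isOpen_lt hw.smooth.continuous continuous_const
  rw [ho.frontier_eq]
  refine ⟨mem_closure_iff_nhds.2 fun V hV => ?_, fun h => ?_⟩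
  · obtain ⟨z, hz, hzw⟩ := Loc.exists_neg_near hx (hw.reg x hx) hV
    exact ⟨z, hz, hzw⟩
  · have h1 : w x < 0 := h
    have h2 : w x = 0 := hx
    rw [h2] at h1
    exact lt_irrefl _ h1

omit [MeasurableSpace E] [BorelSpace E] in
theorem measurableSet_surf [MeasurableSpace E] [BorelSpace E] (hw : IsReg w) :
    MeasurableSet {x | w x = 0} :=
  (isClosed_eq hw.smooth.continuous continuous_const).measurableSet

/-- `area ≤ Hausdorff measure of the boundary`. -/
theorem Frame.areaG_le_front (hB : Frame B ρ dm) (hw : IsReg w) {Ψ : E → M}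
    (hinj : Function.Injective Ψ) {l : ℝ} (hl : 0 < l)
    (hΨ : AFHyp Ψ univ fun y => l • B y) {n : ℕ} (hn : n + 1 = finrank ℝ E) :
    ENNReal.ofReal (l ^ n) * areaG B ρ {x | w x < 0} ≤ μHE[n] (Ψ '' {x | w x = 0}) := by
  obtain ⟨μ, hμ⟩ := exists_delta hw
  rw [hB.hausdorff_surf hw hμ hinj hl hΨ hn (measurableSet_surf hw) fun x hx => hx]
  have h1 : μ.restrict {x | w x = 0} = μ := by
    rw [Measure.restrict_eq_self_of_ae_mem]
    exact hμ.supp
  rw [h1]
  gcongr
  exact hB.areaG_le hw hμ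

/-- Equality for level sets with a global calibrating unit normal field. -/
theorem Frame.front_le_areaG (hB : Frame B ρ dm) (hw : IsReg w) {Ψ : E → M}
    (hinj : Function.Injective Ψ) {l : ℝ} (hl : 0 < l)
    (hΨ : AFHyp Ψ univ fun y => l • B y) {n : ℕ} (hn : n + 1 = finrank ℝ E)
    {X : E → E} (hX : ContDiff ℝ ∞ X) (hXc : HasCompactSupport X) (hX1 : ∀ y, ‖B y (X y)‖ ≤ 1)
    (hXn : ∀ x, w x = 0 → fderiv ℝ w x (X x) = ‖dm x (gradient w x)‖) :
    μHE[n] (Ψ '' {x | w x = 0}) ≤ ENNReal.ofReal (l ^ n) * areaG B ρ {x | w x < 0} := by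
  obtain ⟨μ, hμ⟩ := exists_delta hw
  rw [hB.hausdorff_surf hw hμ hinj hl hΨ hn (measurableSet_surf hw) fun x hx => hx]
  have h1 : μ.restrict {x | w x = 0} = μ := by
    rw [Measure.restrict_eq_self_of_ae_mem]
    exact hμ.supp
  rw [h1]
  gcongr
  exact hB.le_areaG hw hμ hX hXc hX1 hXn

end frame

section ver

omit [MeasurableSpace E] [BorelSpace E] in
theorem smooth_uu : ContDiff ℝ ∞ (uu : E → ℝ) := by
  refine ContDiff.sqrt (contDiff_const.add (contDiff_norm_sq ℝ)) fun x => ?_
  positivity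

omit [MeasurableSpace E] [BorelSpace E] in
theorem frame_ver (V : Ver E) : Frame (sqT V) (rho V) (dm V) where
  det := sqT_det V
  pos := fun y => pow_pos (vf_uu_pos y) _
  smooth := smooth_uu.pow _
  inner_dm := inner_dm V
  cont := by
    have h1 : (fun q : E × E => ‖dm V q.1 q.2‖) = fun q => an V q.1 q.2 := by
      funext q; exact norm_dm V q.1 q.2
    rw [h1]
    unfold an
    have h2 : Continuous (uu : E → ℝ) := smooth_uu.continuous
    have h3 : Continuous fun q : E × E => V.Q q.1 q.2 :=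
      (V.smooth_Q.continuous.comp continuous_fst).clm_apply continuous_snd
    refine Real.continuous_sqrt.comp ?_
    refine ((continuous_snd.norm.pow 2).add ((continuous_fst.inner continuous_snd).pow 2)).sub ?_
    exact (h3.inner continuous_snd).div ((h2.comp continuous_fst).pow 2)
      fun q => (pow_pos (vf_uu_pos q.1) 2).ne'

omit [MeasurableSpace E] [BorelSpace E] in
theorem frame_zero : Frame (E := E) sqT0 (fun y => 1 / uu y) dm0 where
  det := sqT0_det
  pos := fun y => one_div_pos.2 (vf_uu_pos y)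
  smooth := contDiff_const.div smooth_uu fun y => (vf_uu_pos y).ne'
  inner_dm := inner_dm0
  cont := by
    have h2 : Continuous (uu : E → ℝ) := smooth_uu.continuous
    unfold dm0
    refine Continuous.norm (continuous_snd.add (Continuous.smul ?_ continuous_fst))
    exact (continuous_fst.inner continuous_snd).div ((h2.comp continuous_fst).add continuous_const)
      fun q => by have := vf_uu_pos q.1; positivity

omit [MeasurableSpace E] [BorelSpace E] in
theorem norm_sqT_le_one (V : Ver E) (y v : E) : ‖sqT V y v‖ ≤ 1 ↔ mg V y v ≤ 1 := by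
  rw [← norm_sqT_sq V]
  constructor
  · intro h
    exact pow_le_one₀ (norm_nonneg _) h
  · intro h
    by_contra hcon
    push Not at hcon
    nlinarith

theorem areaB_eq (V : Ver E) (D : Set E) : areaB V D = areaG (sqT V) (rho V) D := by
  unfold areaB areaG
  refine le_antisymm (iSup_le fun X => ?_) (iSup_le fun X => ?_)
  · exact le_iSup (fun X : {X : E → E // ContDiff ℝ ∞ X ∧ HasCompactSupport X ∧
      ∀ y, ‖sqT V y (X y)‖ ≤ 1} => ENNReal.ofReal (∫ y in D,
        divE (fun z => rho V z • X.1 z) y))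
      ⟨X.1, X.2.1, X.2.2.1, fun y => (norm_sqT_le_one V y _).2 (X.2.2.2 y)⟩
  · exact le_iSup (fun X : {X : E → E // ContDiff ℝ ∞ X ∧ HasCompactSupport X ∧
      ∀ y, mg V y (X y) ≤ 1} => ENNReal.ofReal (∫ y in D,
        divE (fun z => rho V z • X.1 z) y))
      ⟨X.1, X.2.1, X.2.2.1, fun y => (norm_sqT_le_one V y _).1 (X.2.2.2 y)⟩

/-- Hausdorff measure of `{w = 0}` in the model. -/
theorem hausdorff_surf (V : Ver E) (hw : IsReg w) {μ : Measure E} (hμ : IsDelta w μ) {Ψ : E → M}
    (hinj : Function.Injective Ψ) {l : ℝ} (hl : 0 < l) (hΨ : AFHyp Ψ univ fun y => l • sqT V y)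
    {n : ℕ} (hn : n + 1 = finrank ℝ E) {S : Set E}
    (hS : MeasurableSet S) (hSw : ∀ x ∈ S, w x = 0) :
    μHE[n] (Ψ '' S)
      = ENNReal.ofReal (l ^ n) * ∫⁻ x in S, ENNReal.ofReal (rho V x * an V x (gradient w x)) ∂μ := by
  rw [(frame_ver V).hausdorff_surf hw hμ hinj hl hΨ hn hS hSw]
  simp_rw [norm_dm]

/-- Perimeter at most the Hausdorff measure of the boundary. -/
theorem areaB_le_front (V : Ver E) (hw : IsReg w) {Ψ : E → M} (hinj : Function.Injective Ψ)
    {l : ℝ} (hl : 0 < l) (hΨ : AFHyp Ψ univ fun y => l • sqT V y)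
    {n : ℕ} (hn : n + 1 = finrank ℝ E) :
    ENNReal.ofReal (l ^ n) * areaB V {x | w x < 0} ≤ μHE[n] (Ψ '' {x | w x = 0}) := by
  rw [areaB_eq]
  exact (frame_ver V).areaG_le_front hw hinj hl hΨ hn

/-- Equality when there is a calibrating unit normal field. -/
theorem front_le_areaB (V : Ver E) (hw : IsReg w) {Ψ : E → M} (hinj : Function.Injective Ψ)
    {l : ℝ} (hl : 0 < l) (hΨ : AFHyp Ψ univ fun y => l • sqT V y)
    {n : ℕ} (hn : n + 1 = finrank ℝ E)
    {X : E → E} (hX : ContDiff ℝ ∞ X) (hXc : HasCompactSupport X) (hX1 : ∀ y, mg V y (X y) ≤ 1)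
    (hXn : ∀ x, w x = 0 → fderiv ℝ w x (X x) = an V x (gradient w x)) :
    μHE[n] (Ψ '' {x | w x = 0}) ≤ ENNReal.ofReal (l ^ n) * areaB V {x | w x < 0} := by
  rw [areaB_eq]
  exact (frame_ver V).front_le_areaG hw hinj hl hΨ hn hX hXc
    (fun y => (norm_sqT_le_one V y _).2 (hX1 y)) (fun x hx => by rw [hXn x hx, norm_dm])

/-- Version for smooth domains in the sense of `SmoothDomain`. -/
theorem areaB_le_frontier (V : Ver E) {D : Set E} (hD : SmoothDomain D) {Ψ : E → M}
    (hinj : Function.Injective Ψ) {l : ℝ} (hl : 0 < l) (hΨ : AFHyp Ψ univ fun y => l • sqT V y)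
    {n : ℕ} (hn : n + 1 = finrank ℝ E) :
    ENNReal.ofReal (l ^ n) * areaB V D ≤ μHE[n] (Ψ '' frontier D) := by
  obtain ⟨w, hw, rfl⟩ := (smoothDomain_iff D).1 hD
  rw [frontier_reg hw]
  exact areaB_le_front V hw hinj hl hΨ hn

end ver

end front

end AFr

end

end Pool.Agent.Work.MP_3b24f6_gt
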