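import Pool.Agent.Work.MP_3b24f6_gt.S.DomF
import Pool.Agent.Work.MP_3b24f6_gt.S.AreaF

/-!
# Abstract assembly: from the model to the frozen statement
-/

set_option autoImplicit false

open MeasureTheory Set Filter Topology Metric Module Measure
open scoped ENNReal NNReal MeasureTheory ContDiff Manifold

namespace Pool.Agent.Work.MP_3b24f6_gt

noncomputable section

/-- The conclusion of the frozen statement from a global chart `Ψ` in which balls about `Ψ 0` are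
Euclidean balls, a comparison of Hausdorff measures with a model volume `μ` and a model area `a`,
and the isoperimetric inequality of the model. -/
theorem frozen_abs {d : ℕ} {M : Type*} [MetricSpace M] [MeasurableSpace M] [BorelSpace M]
    [ChartedSpace (EuclideanSpace ℝ (Fin d)) M] [ProperSpace M]
    (hd : 1 ≤ d) (Ψ : EuclideanSpace ℝ (Fin d) ≃ₜ M)
    (hΨ : ContMDiff (𝓡 d) (𝓡 d) ∞ Ψ) (hΨ' : ContMDiff (𝓡 d) (𝓡 d) ∞ Ψ.symm)
    (hhom : ∀ p : M, ∃ φ : M ≃ᵢ M, φ p = Ψ 0)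
    {sh : ℝ → ℝ} (hsh : ∀ r, 0 < r → 0 < sh r)
    (hball : ∀ r, 0 < r → Ψ ⁻¹' ball (Ψ 0) r = ball 0 (sh r))
    (hsm : ∀ (φ : M ≃ᵢ M) (x : M), ContMDiffAt (𝓡 d) (𝓡 d) ∞ φ x)
    {μ : Measure (EuclideanSpace ℝ (Fin d))} {a : Set (EuclideanSpace ℝ (Fin d)) → ℝ≥0∞}
    {c c' : ℝ≥0∞} (hc : c ≠ 0) (hc' : c ≠ ⊤)
    (hV : ∀ A : Set (EuclideanSpace ℝ (Fin d)), MeasurableSet A → μHE[d] (Ψ '' A) = c * μ A)
    (hA : ∀ A : Set (EuclideanSpace ℝ (Fin d)), SmoothDomain A →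
      c' * a A ≤ μHE[d - 1] (frontier (Ψ '' A)))
    (hS : ∀ s, 0 < s → μHE[d - 1] (frontier (Ψ '' ball 0 s)) ≤ c' * a (ball 0 s))
    (hI : ∀ A : Set (EuclideanSpace ℝ (Fin d)), SmoothDomain A → ∀ s, 0 < s →
      μ A = μ (ball 0 s) → a (ball 0 s) ≤ a A)
    (D : Set M) (hD : IsOpen D) (hb : Bornology.IsBounded D)
    (hfr : ∀ x ∈ frontier D, ∃ f : M → ℝ, ∃ U ∈ 𝓝 x,
      ContMDiffOn (𝓡 d) 𝓘(ℝ, ℝ) ∞ f U ∧ mfderiv (𝓡 d) 𝓘(ℝ, ℝ) f x ≠ 0 ∧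
      ∀ y ∈ U, (y ∈ D ↔ f y < 0))
    (p : M) (r : ℝ) (hm : μH[(d : ℝ)] D = μH[(d : ℝ)] (ball p r)) :
    μH[(d : ℝ) - 1] (frontier (ball p r)) ≤ μH[(d : ℝ) - 1] (frontier D) := by
  rcases le_or_gt r 0 with hr | hr
  · rw [ball_eq_empty.2 hr, frontier_empty, measure_empty]
    exact bot_le
  obtain ⟨φ, hφ⟩ := hhom p
  have hcast : ((d : ℝ) - 1) = ((d - 1 : ℕ) : ℝ) := by
    rw [Nat.cast_sub hd, Nat.cast_one]
  -- move `p` to the origin
  set D' : Set M := φ.symm ⁻¹' D with hD'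
  have hD'img : D' = φ '' D := by
    rw [hD', ← φ.symm.image_symm, φ.symm_symm]
  have hballφ : φ '' ball p r = ball (Ψ 0) r := by
    rw [φ.image_ball, hφ]
  have hb' : Bornology.IsBounded D' := by
    rw [hD'img]
    exact φ.isometry.lipschitz.isBounded_image hb
  have hfrD' : frontier D' = φ '' frontier D := by
    rw [hD'img]
    exact (φ.toHomeomorph.image_frontier D).symm
  have hfr' : ∀ x ∈ frontier D', ∃ f : M → ℝ, ∃ U ∈ 𝓝 x,
      ContMDiffOn (𝓡 d) 𝓘(ℝ, ℝ) ∞ f U ∧ mfderiv (𝓡 d) 𝓘(ℝ, ℝ) f x ≠ 0 ∧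
      ∀ y ∈ U, (y ∈ D' ↔ f y < 0) := by
    intro x hx
    rw [hfrD'] at hx
    obtain ⟨x, hx, rfl⟩ := hx
    obtain ⟨f, U, hU, hf, hdf, hDf⟩ := hfr x hx
    have hne : (∞ : WithTop ℕ∞) ≠ 0 := by simp
    refine ⟨f ∘ φ.symm, φ.symm ⁻¹' U, ?_, ?_, ?_, fun y hy => hDf (φ.symm y) hy⟩
    · refine φ.symm.continuous.continuousAt.preimage_mem_nhds ?_
      rwa [φ.symm_apply_apply]
    · exact hf.comp (fun y _ => (hsm φ.symm y).contMDiffWithinAt) (fun y hy => hy)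
    · intro h0
      apply hdf
      have hfx : ContMDiffAt (𝓡 d) 𝓘(ℝ, ℝ) ∞ f x := hf.contMDiffAt hU
      have h4 : MDifferentiableAt (𝓡 d) 𝓘(ℝ, ℝ) (f ∘ φ.symm) (φ x) := by
        have h1 : MDifferentiableAt (𝓡 d) 𝓘(ℝ, ℝ) f (φ.symm (φ x)) := by
          rw [φ.symm_apply_apply]
          exact hfx.mdifferentiableAt hne
        exact h1.comp (φ x) ((hsm φ.symm (φ x)).mdifferentiableAt hne)
      have h5 : mfderiv (𝓡 d) 𝓘(ℝ, ℝ) ((f ∘ φ.symm) ∘ φ) x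
          = (mfderiv (𝓡 d) 𝓘(ℝ, ℝ) (f ∘ φ.symm) (φ x)).comp
            (mfderiv (𝓡 d) (𝓡 d) φ x) :=
        mfderiv_comp _ h4 ((hsm φ x).mdifferentiableAt hne)
      have h6 : (f ∘ φ.symm) ∘ φ = f := by
        funext z
        simp
      rw [h6, h0] at h5
      rw [h5]
      ext v
      rfl
  have hsd := smoothDomain_preimage Ψ hΨ hΨ' (hD.preimage φ.symm.continuous) hb' hfr'
  have hm1 : μH[(d : ℝ)] D' = μH[(d : ℝ)] (ball (Ψ 0) r) := by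
    rw [hD'img, ← hballφ, φ.hausdorffMeasure_image, φ.hausdorffMeasure_image, hm]
  have hD2 : Ψ '' (Ψ ⁻¹' D') = D' := Ψ.toEquiv.image_preimage D'
  have hB2 : Ψ '' ball 0 (sh r) = ball (Ψ 0) r := by
    rw [← hball r hr]
    exact Ψ.toEquiv.image_preimage _
  have hm2 : μ (Ψ ⁻¹' D') = μ (ball 0 (sh r)) := by
    have h1 : μHE[d] (Ψ '' (Ψ ⁻¹' D')) = μHE[d] (Ψ '' ball 0 (sh r)) := by
      rw [hD2, hB2, euclideanHausdorffMeasure_def, Measure.smul_apply, Measure.smul_apply, hm1]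
    rw [hV _ (hsd.isOpen.measurableSet), hV _ measurableSet_ball] at h1
    exact (ENNReal.mul_right_inj hc hc').1 h1
  have h1 := hI _ hsd (sh r) (hsh r hr) hm2
  have h2 : μHE[d - 1] (frontier (ball (Ψ 0) r)) ≤ μHE[d - 1] (frontier D') := by
    calc μHE[d - 1] (frontier (ball (Ψ 0) r)) = μHE[d - 1] (frontier (Ψ '' ball 0 (sh r))) := by
          rw [hB2]
      _ ≤ c' * a (ball 0 (sh r)) := hS _ (hsh r hr)
      _ ≤ c' * a (Ψ ⁻¹' D') := mul_le_mul_right h1 _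
      _ ≤ μHE[d - 1] (frontier (Ψ '' (Ψ ⁻¹' D'))) := hA _ hsd
      _ = μHE[d - 1] (frontier D') := by rw [hD2]
  rw [muHE_le_iff] at h2
  have h3 : frontier (ball (Ψ 0) r) = φ '' frontier (ball p r) := by
    rw [← hballφ]
    exact (φ.toHomeomorph.image_frontier _).symm
  rw [h3, hfrD', φ.hausdorffMeasure_image, φ.hausdorffMeasure_image] at h2
  rw [hcast]
  exact h2

end

end Pool.Agent.Work.MP_3b24f6_gt
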