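import Pool.Agent.Work.MP_3b24f6_gt.Delta
import Pool.Agent.Work.MP_3b24f6_gt.BasicB

/-!
# The flux through a geodesic sphere

For `w = ‖y‖² - s²` and the surface measure `δ(w)`, the Riemannian area of the sphere
`∫ ρ |dw| dδ(w)` is the flux of the radial unit field, hence at most the perimeter of the ball.
-/

set_option autoImplicit false
set_option linter.unusedSectionVars false

open MeasureTheory Set Filter Topology
open scoped ContDiff InnerProductSpace

namespace Pool.Agent.Work.MP_3b24f6_gt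

noncomputable section

variable {E : Type*} [NormedAddCommGroup E] [InnerProductSpace ℝ E] [FiniteDimensional ℝ E]

/-- The defining function of the sphere of radius `s`. -/
def wS (s : ℝ) (y : E) : ℝ := ‖y‖ ^ 2 - s ^ 2

omit [FiniteDimensional ℝ E] in
theorem wS_lt {s : ℝ} (hs : 0 < s) : {y : E | wS s y < 0} = Metric.ball 0 s := by
  ext y
  rw [mem_ofPred_eq, mem_ball_zero_iff, wS, sub_neg]
  exact pow_lt_pow_iff_left₀ (norm_nonneg y) hs.le two_ne_zero

omit [FiniteDimensional ℝ E] in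
theorem wS_zero {s : ℝ} (hs : 0 < s) : {y : E | wS s y = 0} = Metric.sphere 0 s := by
  ext y
  rw [mem_ofPred_eq, mem_sphere_zero_iff_norm, wS, sub_eq_zero]
  exact pow_left_inj₀ (norm_nonneg y) hs.le two_ne_zero

omit [FiniteDimensional ℝ E] in
theorem wS_hasFDerivAt (s : ℝ) (y : E) :
    HasFDerivAt (wS s : E → ℝ) ((2 : ℝ) • innerSL ℝ y) y := by
  have h := (hasStrictFDerivAt_norm_sq y).hasFDerivAt.sub_const (s ^ 2)
  have e : ((2 : ℝ) • innerSL ℝ y : E →L[ℝ] ℝ) = 2 • innerSL ℝ y := by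
    rw [two_smul, two_smul]
  rw [e]
  exact h

omit [FiniteDimensional ℝ E] in
theorem wS_fderiv (s : ℝ) (y v : E) : fderiv ℝ (wS s) y v = 2 * ⟪y, v⟫_ℝ := by
  rw [(wS_hasFDerivAt s y).fderiv]
  simp

theorem wS_gradient (s : ℝ) (y : E) : gradient (wS s) y = (2 : ℝ) • y := by
  rw [gradient, (wS_hasFDerivAt s y).fderiv]
  apply (InnerProductSpace.toDual ℝ E).injective
  rw [LinearIsometryEquiv.apply_symm_apply]
  ext v
  simp

theorem wS_isReg {s : ℝ} (hs : 0 < s) : IsReg (wS s : E → ℝ) where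
  smooth := (contDiff_norm_sq ℝ).sub contDiff_const
  cpt := by
    have : {x : E | wS s x ≤ 0} = Metric.closedBall 0 s := by
      ext y
      rw [mem_ofPred_eq, mem_closedBall_zero_iff, wS, sub_nonpos]
      exact pow_le_pow_iff_left₀ (norm_nonneg y) hs.le two_ne_zero
    rw [this]
    exact isCompact_closedBall 0 s
  reg := by
    intro y hy h
    have h1 := wS_fderiv s y y
    rw [h] at h1
    have h2 : ‖y‖ ^ 2 = s ^ 2 := sub_eq_zero.mp hy
    rw [real_inner_self_eq_norm_sq, h2] at h1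
    have : 0 < s ^ 2 := by positivity
    simp at h1
    exact hs.ne' h1

/-- The radial unit field near the sphere of radius `s`, cut off. -/
theorem exists_radial_field {s : ℝ} (hs : 0 < s) :
    ∃ a : E → ℝ, ContDiff ℝ ∞ a ∧ HasCompactSupport a ∧ (∀ y, 0 ≤ a y) ∧
      (∀ y, a y * ‖y‖ ≤ uu y) ∧ ∀ y, ‖y‖ = s → a y * s = uu y := by
  have hK : IsCompact (Metric.sphere (0 : E) s) := isCompact_sphere 0 s
  have hU : IsOpen ({0}ᶜ : Set E) := isOpen_compl_singleton
  have hKU : Metric.sphere (0 : E) s ⊆ {0}ᶜ := by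
    intro y hy h
    rw [mem_singleton_iff] at h
    rw [h, mem_sphere_zero_iff_norm, norm_zero] at hy
    exact hs.ne hy
  obtain ⟨ψ, h1, h2, h3, h4, h5⟩ := dl_exists_cut hK hU hKU
  have hnorm : ∀ y : E, 0 ≤ uu y / ‖y‖ := fun y => div_nonneg (uu_pos y).le (norm_nonneg y)
  refine ⟨fun y => ψ y * (uu y / ‖y‖), ?_, h2.mul_right, fun y => mul_nonneg (h5 y).1 (hnorm y),
    fun y => ?_, fun y hy => ?_⟩
  · rw [contDiff_iff_contDiffAt]
    intro y
    by_cases hy : y = 0
    · have h0 : y ∉ tsupport ψ := fun h => h3 h hy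
      have h6 : (fun y => ψ y * (uu y / ‖y‖)) =ᶠ[𝓝 y] fun _ => 0 := by
        have h7 := notMem_tsupport_iff_eventuallyEq.mp h0
        filter_upwards [h7] with z hz
        rw [hz]
        simp
      exact contDiffAt_const.congr_of_eventuallyEq h6
    · exact h1.contDiffAt.mul (contDiff_uu.contDiffAt.div (contDiffAt_norm ℝ hy)
        (norm_ne_zero_iff.mpr hy))
  · show ψ y * (uu y / ‖y‖) * ‖y‖ ≤ uu y
    by_cases hy : ‖y‖ = 0
    · rw [hy, mul_zero]
      exact (uu_pos y).le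
    · rw [mul_assoc, div_mul_cancel₀ _ hy]
      exact mul_le_of_le_one_left (uu_pos y).le (h5 y).2
  · have h6 : ψ y = 1 := h4.self_of_nhdsSet y (mem_sphere_zero_iff_norm.mpr hy)
    show ψ y * (uu y / ‖y‖) * s = uu y
    rw [h6, one_mul, hy, div_mul_cancel₀ _ hs.ne']

variable [MeasurableSpace E] [BorelSpace E]

/-- The flux of the radial unit field. -/
theorem sphere_flux_gen {ρ : E → ℝ} (hρ : ContDiff ℝ ∞ ρ) (hρ0 : ∀ y, 0 ≤ ρ y) {s : ℝ}
    (hs : 0 < s) {μ : Measure E} (hμ : IsDelta (wS s) μ) {a : E → ℝ} (ha : ContDiff ℝ ∞ a)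
    (ha1 : ∀ y, ‖y‖ = s → a y * s = uu y) :
    ∫⁻ y, ENNReal.ofReal (ρ y * (2 * uu y * ‖y‖)) ∂μ =
      ENNReal.ofReal (∫ y in Metric.ball (0 : E) s, divE (fun z => ρ z • (a z • z)) y) := by
  have hfin := hμ.fin
  have hZ : ContDiff ℝ ∞ (fun z : E => ρ z • (a z • z)) := hρ.smul (ha.smul contDiff_id)
  have hflux := hμ.flux (fun z => ρ z • (a z • z))
    (Eventually.of_forall fun x => (hZ.contDiffAt).of_le (by exact_mod_cast le_top))
  rw [wS_lt hs] at hflux
  have hae : ∀ᵐ y ∂μ, y ∈ Metric.sphere (0 : E) s := by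
    rw [ae_iff]
    have : {y : E | ¬ y ∈ Metric.sphere (0 : E) s} = (surf (wS s))ᶜ := by
      rw [surf, wS_zero hs]
      rfl
    rw [this]
    exact hμ.supp
  have heq : ∀ᵐ y ∂μ, fderiv ℝ (wS s) y (ρ y • (a y • y)) = ρ y * (2 * uu y * ‖y‖) := by
    filter_upwards [hae] with y hy
    have hy' : ‖y‖ = s := mem_sphere_zero_iff_norm.mp hy
    rw [wS_fderiv, inner_smul_right, inner_smul_right, real_inner_self_eq_norm_sq, ← ha1 y hy', hy']
    ring
  rw [hflux, integral_congr_ae heq]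
  have hcont : Continuous fun y : E => ρ y * (2 * uu y * ‖y‖) := by
    have h1 := hρ.continuous
    have h2 : Continuous (uu : E → ℝ) := continuous_uu
    fun_prop
  have hint : Integrable (fun y : E => ρ y * (2 * uu y * ‖y‖)) μ := by
    obtain ⟨C, hC⟩ := (isCompact_sphere (0 : E) s).exists_bound_of_continuousOn hcont.continuousOn
    refine Integrable.of_bound hcont.aestronglyMeasurable C ?_
    filter_upwards [hae] with y hy using hC y hy
  rw [ofReal_integral_eq_lintegral_ofReal hint (Eventually.of_forall fun y => ?_)]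
  have := hρ0 y
  have := (uu_pos y).le
  positivity

/-- Area of spheres, for any metric with the radial part `(c ‖y‖ / uu y)²` and density `ρ`. -/
theorem sphere_flux_of {ρ : E → ℝ} (hρ : ContDiff ℝ ∞ ρ) (hρ0 : ∀ y, 0 ≤ ρ y)
    (g : E → E → ℝ) (hg : ∀ y c, g y (c • y) = (c * ‖y‖ / uu y) ^ 2) {s : ℝ} (hs : 0 < s)
    {μ : Measure E} (hμ : IsDelta (wS s) μ) :
    ∫⁻ y, ENNReal.ofReal (ρ y * (2 * uu y * ‖y‖)) ∂μ ≤
      ⨆ X : {X : E → E // ContDiff ℝ ∞ X ∧ HasCompactSupport X ∧ ∀ y, g y (X y) ≤ 1},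
        ENNReal.ofReal (∫ y in Metric.ball (0 : E) s, divE (fun z => ρ z • X.1 z) y) := by
  obtain ⟨a, h1, h2, h3, h4, h5⟩ := exists_radial_field (E := E) hs
  rw [sphere_flux_gen hρ hρ0 hs hμ h1 h5]
  have hX : ContDiff ℝ ∞ (fun z : E => a z • z) := h1.smul contDiff_id
  have hXc : HasCompactSupport (fun z : E => a z • z) := h2.smul_right
  have hXm : ∀ y, g y (a y • y) ≤ 1 := by
    intro y
    rw [hg]
    have hu := uu_pos y
    have h6 : a y * ‖y‖ / uu y ≤ 1 := (div_le_one hu).mpr (h4 y)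
    have h7 : 0 ≤ a y * ‖y‖ / uu y := div_nonneg (mul_nonneg (h3 y) (norm_nonneg y)) hu.le
    nlinarith
  exact le_iSup (fun X : {X : E → E // ContDiff ℝ ∞ X ∧ HasCompactSupport X ∧
    ∀ y, g y (X y) ≤ 1} => ENNReal.ofReal (∫ y in Metric.ball (0 : E) s,
      divE (fun z => ρ z • X.1 z) y)) ⟨fun z => a z • z, hX, hXc, hXm⟩

theorem an_radial (V : Ver E) (y : E) (c : ℝ) : an V y (c • y) = |c| * (uu y * ‖y‖) := by
  rw [an_smul]
  congr 1
  have h1 := an_sq V y y
  have h2 : ⟪V.Q y y, y⟫_ℝ = 0 := by rw [V.Q_self, inner_zero_left]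
  rw [h2, real_inner_self_eq_norm_sq, zero_div, sub_zero] at h1
  have h3 : an V y y ^ 2 = (uu y * ‖y‖) ^ 2 := by
    rw [h1, mul_pow, uu_sq]
    ring
  exact (pow_left_inj₀ (an_nonneg V y y) (mul_nonneg (uu_pos y).le (norm_nonneg y))
    two_ne_zero).mp h3

theorem mg_radial (V : Ver E) (y : E) (c : ℝ) : mg V y (c • y) = (c * ‖y‖ / uu y) ^ 2 := by
  have h0 : uu y ^ 2 ≠ 0 := by
    have := uu_pos y
    positivity
  have h2 : ⟪V.Q y y, y⟫_ℝ = 0 := by rw [V.Q_self, inner_zero_left]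
  rw [mg_smul, mg, h2, real_inner_self_eq_norm_sq, add_zero, div_pow, mul_pow]
  rw [eq_div_iff h0, mul_assoc, sub_mul, div_mul_cancel₀ _ h0, uu_sq]
  ring

/-- **Area of geodesic spheres**: the integral `∫ ρ |dw| dδ(w)` is at most the perimeter. -/
theorem sphere_flux (V : Ver E) {s : ℝ} (hs : 0 < s) {μ : Measure E} (hμ : IsDelta (wS s) μ) :
    ∫⁻ y, ENNReal.ofReal (rho V y * an V y (gradient (wS s) y)) ∂μ ≤
      areaB V (Metric.ball (0 : E) s) := by
  have hρ : ContDiff ℝ ∞ (rho V) := contDiff_uu.pow _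
  have he : ∀ y, rho V y * an V y (gradient (wS s) y) = rho V y * (2 * uu y * ‖y‖) := by
    intro y
    rw [wS_gradient, an_radial, abs_of_pos two_pos]
    ring
  simp only [he]
  exact sphere_flux_of hρ (fun y => (rho_pos V y).le) (mg V) (mg_radial V) hs hμ

end

end Pool.Agent.Work.MP_3b24f6_gt
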