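import Mathlib

/-!
# S13039, blocks A/B: infinitesimal comparison of a distance function with a bilinear form

`MetAt D x B`: near `x` the function `D y z` is `√(B (y-z) (y-z))` up to `ε ‖y-z‖`.
Purely metric lemmas: uniqueness, pull back, isometries, Gauss lemma.
-/

set_option autoImplicit false

open Set Filter Metric
open scoped Topology

namespace Pool.Agent.MP_3b24f6_gt.S

section Form

variable {E : Type*} [NormedAddCommGroup E] [NormedSpace ℝ E]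

/-- positive semidefinite symmetric form -/
structure Psd (B : E →L[ℝ] E →L[ℝ] ℝ) : Prop where
  symm : ∀ u v, B u v = B v u
  nonneg : ∀ u, 0 ≤ B u u

namespace Psd

variable {B : E →L[ℝ] E →L[ℝ] ℝ}

theorem cs (h : Psd B) (u v : E) : (B u v) ^ 2 ≤ B u u * B v v := by
  have key : ∀ t : ℝ, 0 ≤ B v v * (t * t) + (2 * B u v) * t + B u u := by
    intro t
    have h1 := h.nonneg (u + t • v)
    simp only [map_add, map_smul, add_apply, smul_apply,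
      smul_eq_mul] at h1
    rw [h.symm v u] at h1
    linarith
  have h2 := discrim_le_zero key
  simp only [discrim] at h2
  nlinarith

theorem sqrt_triangle (h : Psd B) (u v : E) :
    √(B (u + v) (u + v)) ≤ √(B u u) + √(B v v) := by
  have hu := h.nonneg u
  have hv := h.nonneg v
  rw [Real.sqrt_le_left (by positivity)]
  have h1 : B (u + v) (u + v) = B u u + 2 * B u v + B v v := by
    simp only [map_add, add_apply]
    rw [h.symm v u]; ring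
  rw [h1, add_sq, Real.sq_sqrt hu, Real.sq_sqrt hv]
  have h2 : B u v ≤ √(B u u) * √(B v v) := by
    rw [← Real.sqrt_mul hu]
    exact Real.le_sqrt_of_sq_le (h.cs u v)
  linarith

theorem sqrt_neg (u : E) : √(B (-u) (-u)) = √(B u u) := by simp

theorem sqrt_smul (t : ℝ) (u : E) : √(B (t • u) (t • u)) = |t| * √(B u u) := by
  have h1 : B (t • u) (t • u) = t ^ 2 * B u u := by
    simp only [map_smul, smul_apply, smul_eq_mul]; ring
  rw [h1, Real.sqrt_mul (sq_nonneg t), Real.sqrt_sq_eq_abs]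

theorem sqrt_le (B : E →L[ℝ] E →L[ℝ] ℝ) (u : E) : √(B u u) ≤ √‖B‖ * ‖u‖ := by
  rw [← Real.sqrt_sq (norm_nonneg u), ← Real.sqrt_mul (norm_nonneg B)]
  apply Real.sqrt_le_sqrt
  calc B u u ≤ ‖B u u‖ := Real.le_norm_self _
    _ ≤ ‖B u‖ * ‖u‖ := (B u).le_opNorm u
    _ ≤ ‖B‖ * ‖u‖ * ‖u‖ := by gcongr; exact B.le_opNorm u
    _ = ‖B‖ * (‖u‖ ^ 2) := by ring

theorem abs_sqrt_sub (h : Psd B) (u v : E) :
    |√(B u u) - √(B v v)| ≤ √(B (u - v) (u - v)) := by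
  rw [abs_le]
  constructor
  · have h1 := h.sqrt_triangle (v - u) u
    rw [sub_add_cancel, ← neg_sub u v, sqrt_neg] at h1
    linarith
  · have h1 := h.sqrt_triangle (u - v) v
    rw [sub_add_cancel] at h1
    linarith

theorem abs_sqrt_sub_le (h : Psd B) (u v : E) :
    |√(B u u) - √(B v v)| ≤ √‖B‖ * ‖u - v‖ :=
  (h.abs_sqrt_sub u v).trans (sqrt_le B _)

theorem continuous_sqrt (B : E →L[ℝ] E →L[ℝ] ℝ) : Continuous fun u => √(B u u) := by
  fun_prop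

theorem ext_of_sqrt {B' : E →L[ℝ] E →L[ℝ] ℝ} (h : Psd B) (h' : Psd B')
    (he : ∀ u, √(B u u) = √(B' u u)) : B = B' := by
  have h1 : ∀ u, B u u = B' u u := fun u => by
    have := congrArg (· ^ 2) (he u)
    simpa only [Real.sq_sqrt (h.nonneg u), Real.sq_sqrt (h'.nonneg u)] using this
  ext u v
  have h2 := h1 (u + v)
  simp only [map_add, add_apply] at h2
  rw [h.symm v u, h'.symm v u, h1 u, h1 v] at h2
  linarith

end Psd

/-- pull back of a bilinear form -/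
noncomputable def pull {F : Type*} [NormedAddCommGroup F] [NormedSpace ℝ F]
    (B : F →L[ℝ] F →L[ℝ] ℝ) (A : E →L[ℝ] F) : E →L[ℝ] E →L[ℝ] ℝ :=
  ((ContinuousLinearMap.compL ℝ E F ℝ).flip A).comp (B.comp A)

@[simp] theorem pull_apply {F : Type*} [NormedAddCommGroup F] [NormedSpace ℝ F]
    (B : F →L[ℝ] F →L[ℝ] ℝ) (A : E →L[ℝ] F) (u v : E) : pull B A u v = B (A u) (A v) := rfl

theorem Psd.pull {F : Type*} [NormedAddCommGroup F] [NormedSpace ℝ F]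
    {B : F →L[ℝ] F →L[ℝ] ℝ} (h : Psd B) (A : E →L[ℝ] F) : Psd (pull B A) :=
  ⟨fun _ _ => h.symm _ _, fun _ => h.nonneg _⟩

end Form

section MetAt

variable {E : Type*} [NormedAddCommGroup E] [NormedSpace ℝ E]

/-- `D` is infinitesimally the norm `√(B v v)` at `x` -/
def MetAt (D : E → E → ℝ) (x : E) (B : E →L[ℝ] E →L[ℝ] ℝ) : Prop :=
  ∀ ε > 0, ∃ δ > 0, ∀ y ∈ ball x δ, ∀ z ∈ ball x δ,
    |D y z - √(B (y - z) (y - z))| ≤ ε * ‖y - z‖

/-- from the multiplicative form (P1) -/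
theorem MetAt.of_mul {D : E → E → ℝ} {x : E} {B : E →L[ℝ] E →L[ℝ] ℝ}
    (h : ∀ ε > 0, ∃ δ > 0, ∀ y ∈ ball x δ, ∀ z ∈ ball x δ,
      (1 - ε) * √(B (y - z) (y - z)) ≤ D y z ∧ D y z ≤ (1 + ε) * √(B (y - z) (y - z))) :
    MetAt D x B := by
  intro ε hε
  have hC : 0 < √‖B‖ + 1 := by positivity
  obtain ⟨δ, hδ, h1⟩ := h (ε / (√‖B‖ + 1)) (by positivity)
  refine ⟨δ, hδ, fun y hy z hz => ?_⟩
  obtain ⟨h2, h3⟩ := h1 y hy z hz
  have h4 := Psd.sqrt_le B (y - z)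
  have h5 : ε / (√‖B‖ + 1) * √(B (y - z) (y - z)) ≤ ε * ‖y - z‖ := by
    have h6 : √(B (y - z) (y - z)) ≤ (√‖B‖ + 1) * ‖y - z‖ :=
      h4.trans (by nlinarith [norm_nonneg (y - z)])
    calc ε / (√‖B‖ + 1) * √(B (y - z) (y - z))
        ≤ ε / (√‖B‖ + 1) * ((√‖B‖ + 1) * ‖y - z‖) := by gcongr
      _ = ε * ‖y - z‖ := by field_simp
  rw [abs_le]
  constructor <;> nlinarith

/-- to the multiplicative form (P1), if `B` is bounded below -/
theorem MetAt.mul {D : E → E → ℝ} {x : E} {B : E →L[ℝ] E →L[ℝ] ℝ} (h : MetAt D x B)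
    {c : ℝ} (hc : 0 < c) (hB : ∀ u, c * ‖u‖ ≤ √(B u u)) :
    ∀ ε > 0, ∃ δ > 0, ∀ y ∈ ball x δ, ∀ z ∈ ball x δ,
      (1 - ε) * √(B (y - z) (y - z)) ≤ D y z ∧ D y z ≤ (1 + ε) * √(B (y - z) (y - z)) := by
  intro ε hε
  obtain ⟨δ, hδ, h1⟩ := h (ε * c) (by positivity)
  refine ⟨δ, hδ, fun y hy z hz => ?_⟩
  have h2 := abs_le.1 (h1 y hy z hz)
  have h3 := mul_le_mul_of_nonneg_left (hB (y - z)) hε.le
  constructor <;> nlinarith [h2.1, h2.2]

theorem MetAt.congr {D D' : E → E → ℝ} {x : E} {B : E →L[ℝ] E →L[ℝ] ℝ} (h : MetAt D x B)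
    {s : Set E} (hs : s ∈ 𝓝 x) (he : ∀ y ∈ s, ∀ z ∈ s, D' y z = D y z) : MetAt D' x B := by
  intro ε hε
  obtain ⟨δ, hδ, h1⟩ := h ε hε
  obtain ⟨r, hr, hrs⟩ := Metric.mem_nhds_iff.1 hs
  refine ⟨min δ r, lt_min hδ hr, fun y hy z hz => ?_⟩
  rw [he y (hrs (ball_subset_ball (min_le_right _ _) hy)) z
    (hrs (ball_subset_ball (min_le_right _ _) hz))]
  exact h1 y (ball_subset_ball (min_le_left _ _) hy) z (ball_subset_ball (min_le_left _ _) hz)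

/-- the limit of difference quotients -/
theorem MetAt.tendsto {D : E → E → ℝ} {x : E} {B : E →L[ℝ] E →L[ℝ] ℝ} (h : MetAt D x B)
    {l : Filter ℝ} {a b : ℝ → E} {v : E} (hl : ∀ᶠ t in l, 0 < t)
    (ha : Tendsto a l (𝓝 x)) (hb : Tendsto b l (𝓝 x))
    (hab : Tendsto (fun t => t⁻¹ • (a t - b t)) l (𝓝 v)) :
    Tendsto (fun t => t⁻¹ * D (a t) (b t)) l (𝓝 √(B v v)) := by
  have h1 : Tendsto (fun t => √(B (t⁻¹ • (a t - b t)) (t⁻¹ • (a t - b t)))) l (𝓝 √(B v v)) :=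
    ((Psd.continuous_sqrt B).tendsto v).comp hab
  have h2 : Tendsto (fun t => t⁻¹ * D (a t) (b t) -
      √(B (t⁻¹ • (a t - b t)) (t⁻¹ • (a t - b t)))) l (𝓝 0) := by
    rw [Metric.tendsto_nhds]
    intro ε hε
    have hbd : ∀ᶠ t in l, ‖t⁻¹ • (a t - b t)‖ < ‖v‖ + 1 :=
      hab.norm.eventually (gt_mem_nhds (lt_add_one _))
    obtain ⟨δ, hδ, h3⟩ := h (ε / (‖v‖ + 1) / 2) (by positivity)
    filter_upwards [hl, hbd, ha.eventually (ball_mem_nhds x hδ),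
      hb.eventually (ball_mem_nhds x hδ)] with t ht hbt hat hbt'
    have h4 := h3 _ hat _ hbt'
    rw [Psd.sqrt_smul, abs_of_pos (inv_pos.2 ht), Real.dist_eq, sub_zero, ← mul_sub, abs_mul,
      abs_of_pos (inv_pos.2 ht)]
    rw [norm_smul, Real.norm_eq_abs, abs_of_pos (inv_pos.2 ht)] at hbt
    calc t⁻¹ * |D (a t) (b t) - √(B (a t - b t) (a t - b t))|
        ≤ t⁻¹ * (ε / (‖v‖ + 1) / 2 * ‖a t - b t‖) := by gcongr
      _ = ε / (‖v‖ + 1) / 2 * (t⁻¹ * ‖a t - b t‖) := by ring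
      _ ≤ ε / (‖v‖ + 1) / 2 * (‖v‖ + 1) := by gcongr
      _ = ε / 2 := by field_simp
      _ < ε := by linarith
  simpa using h2.add h1

/-- the form is determined by `D` -/
theorem MetAt.unique {D : E → E → ℝ} {x : E} {B B' : E →L[ℝ] E →L[ℝ] ℝ} (h : MetAt D x B)
    (h' : MetAt D x B') (hB : Psd B) (hB' : Psd B') : B = B' := by
  apply hB.ext_of_sqrt hB'
  intro v
  have hl : ∀ᶠ t : ℝ in 𝓝[>] 0, 0 < t := eventually_mem_nhdsWithin
  have ha : Tendsto (fun t : ℝ => x + t • v) (𝓝[>] 0) (𝓝 x) := by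
    have : Tendsto (fun t : ℝ => x + t • v) (𝓝 0) (𝓝 (x + (0 : ℝ) • v)) :=
      Continuous.tendsto (by fun_prop) _
    simp only [zero_smul, add_zero] at this
    exact this.mono_left nhdsWithin_le_nhds
  have hab : Tendsto (fun t : ℝ => t⁻¹ • (x + t • v - x)) (𝓝[>] 0) (𝓝 v) := by
    refine tendsto_const_nhds.congr' ?_
    filter_upwards [hl] with t ht
    rw [add_sub_cancel_left, smul_smul, inv_mul_cancel₀ ht.ne', one_smul]
  exact tendsto_nhds_unique (h.tendsto hl ha tendsto_const_nhds hab)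
    (h'.tendsto hl ha tendsto_const_nhds hab)

/-- pull back under a strictly differentiable map -/
theorem MetAt.comp {F : Type*} [NormedAddCommGroup F] [NormedSpace ℝ F] {D : F → F → ℝ}
    {ψ : E → F} {x : E} {A : E →L[ℝ] F} {B : F →L[ℝ] F →L[ℝ] ℝ} (h : MetAt D (ψ x) B)
    (hB : Psd B) (hψ : HasStrictFDerivAt ψ A x) :
    MetAt (fun y z => D (ψ y) (ψ z)) x (pull B A) := by
  intro ε hε
  have hC : 0 < √‖B‖ + 1 := by positivity
  obtain ⟨δ, hδ, h1⟩ := h (ε / 2 / (‖A‖ + 1)) (by positivity)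
  have h2 := hψ.isLittleO.def (c := min 1 (ε / 2 / (√‖B‖ + 1))) (by positivity)
  rw [nhds_prod_eq, eventually_prod_self_iff'] at h2
  obtain ⟨s, hs, h3⟩ := h2
  have hc : ∀ᶠ y in 𝓝 x, ψ y ∈ ball (ψ x) δ := hψ.continuousAt.eventually (ball_mem_nhds _ hδ)
  obtain ⟨r, hr, hr'⟩ := Metric.mem_nhds_iff.1 (inter_mem hs hc)
  refine ⟨r, hr, fun y hy z hz => ?_⟩
  have h4 := h1 _ (hr' hy).2 _ (hr' hz).2
  have h5 := h3 y (hr' hy).1 z (hr' hz).1
  simp only at h5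
  have h6 : ‖ψ y - ψ z - A (y - z)‖ ≤ ε / 2 / (√‖B‖ + 1) * ‖y - z‖ :=
    h5.trans (by gcongr; exact min_le_right _ _)
  have h7 : ‖ψ y - ψ z‖ ≤ (‖A‖ + 1) * ‖y - z‖ := by
    have h8 : ‖ψ y - ψ z - A (y - z)‖ ≤ 1 * ‖y - z‖ :=
      h5.trans (by gcongr; exact min_le_left _ _)
    have h9 := A.le_opNorm (y - z)
    have h10 := norm_add_le (ψ y - ψ z - A (y - z)) (A (y - z))
    rw [sub_add_cancel] at h10
    linarith
  have h8 := hB.abs_sqrt_sub_le (ψ y - ψ z) (A (y - z))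
  have h9 : √‖B‖ * ‖ψ y - ψ z - A (y - z)‖ ≤ ε / 2 * ‖y - z‖ := by
    calc √‖B‖ * ‖ψ y - ψ z - A (y - z)‖
        ≤ (√‖B‖ + 1) * (ε / 2 / (√‖B‖ + 1) * ‖y - z‖) := by gcongr; linarith
      _ = ε / 2 * ‖y - z‖ := by field_simp
  have h10 : ε / 2 / (‖A‖ + 1) * ‖ψ y - ψ z‖ ≤ ε / 2 * ‖y - z‖ := by
    calc ε / 2 / (‖A‖ + 1) * ‖ψ y - ψ z‖
        ≤ ε / 2 / (‖A‖ + 1) * ((‖A‖ + 1) * ‖y - z‖) := by gcongr
      _ = ε / 2 * ‖y - z‖ := by field_simp
  simp only [pull_apply]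
  have h11 := abs_add_le (D (ψ y) (ψ z) - √(B (ψ y - ψ z) (ψ y - ψ z)))
    (√(B (ψ y - ψ z) (ψ y - ψ z)) - √(B (A (y - z)) (A (y - z))))
  rw [sub_add_sub_cancel] at h11
  linarith

/-- a map preserving `D`, strictly differentiable at `x`, is infinitesimally an isometry -/
theorem MetAt.isom {F : Type*} [NormedAddCommGroup F] [NormedSpace ℝ F] {D : F → F → ℝ}
    {D' : E → E → ℝ} {ψ : E → F} {x : E} {A : E →L[ℝ] F} {B : F →L[ℝ] F →L[ℝ] ℝ}
    {B' : E →L[ℝ] E →L[ℝ] ℝ} (h : MetAt D (ψ x) B) (hB : Psd B) (h' : MetAt D' x B')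
    (hB' : Psd B') (hψ : HasStrictFDerivAt ψ A x) {s : Set E} (hs : s ∈ 𝓝 x)
    (hD : ∀ y ∈ s, ∀ z ∈ s, D' y z = D (ψ y) (ψ z)) (u v : E) :
    B (A u) (A v) = B' u v := by
  have h1 : MetAt D' x (pull B A) := (h.comp hB hψ).congr hs hD
  have h2 := h1.unique h' (hB.pull A) hB'
  rw [← h2, pull_apply]

end MetAt

end Pool.Agent.MP_3b24f6_gt.S
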