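import Pool.Agent.Work.MP_3b24f6_gt.BasicB
import Pool.Agent.Work.MP_3b24f6_gt.Bridge
import Pool.Agent.Work.MP_3b24f6_gt.S.MetAt
import Pool.Agent.Work.MP_3b24f6_gt.S.VolF

set_option autoImplicit false
set_option linter.unusedSectionVars false

/-!
Block E4: the homogeneity data `HomB V` of a metric space which in a global chart `F` is the model
`mg V` up to a factor.
-/

open MeasureTheory Set Filter Topology
open scoped ContDiff InnerProductSpace

namespace Pool.Agent.Work.MP_3b24f6_gt.Froz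

noncomputable section

open Pool.Agent.MP_3b24f6_gt.S (MetAt Psd)

variable {E : Type*} [NormedAddCommGroup E] [InnerProductSpace ℝ E] [FiniteDimensional ℝ E]

/-- The metric of the model as a bilinear form. -/
def mgB (V : Ver E) (x : E) : E →L[ℝ] E →L[ℝ] ℝ := (innerSL ℝ).comp (vA V x)

theorem mgB_apply (V : Ver E) (x u v : E) : mgB V x u v = ⟪vA V x u, v⟫_ℝ := rfl

theorem mgB_self (V : Ver E) (x v : E) : mgB V x v v = mg V x v := (mg_eq V x v).symm

theorem mgB_psd (V : Ver E) (x : E) : Psd (mgB V x) where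
  symm u v := by
    rw [mgB_apply, mgB_apply, vA_symm, real_inner_comm]
  nonneg u := by rw [mgB_self]; exact mg_nonneg V x u

/-- `F` is a global chart of `M` in which the metric is `l⁻² mg V`, adapted to the origin. -/
structure SinhModel {M : Type*} [MetricSpace M] (V : Ver E) (l : ℝ) (F : E → M) : Prop where
  l_pos : 0 < l
  bij : Function.Bijective F
  cosh_zero : ∀ y, Real.cosh (l * dist (F 0) (F y)) = uu y
  radial : ∀ y, ∀ s ∈ Icc (0 : ℝ) 1,
    dist (F (s • y)) (F y) = dist (F 0) (F y) - dist (F 0) (F (s • y))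
  near : ∀ x, MetAt (fun y z => dist (F y) (F z)) x ((l ^ 2)⁻¹ • mgB V x)
  smooth_iso : ∀ (φ : M ≃ᵢ M) (ψ : E → E), (∀ y, F (ψ y) = φ (F y)) → ContDiff ℝ ∞ ψ
  trans : ∀ p, ∃ φ : M ≃ᵢ M, φ (F 0) = F p
  smooth_chd : ContDiff ℝ ∞ (fun q : E × E => Real.cosh (l * dist (F q.1) (F q.2)))

namespace SinhModel

variable {M : Type*} [MetricSpace M] {V : Ver E} {l : ℝ} {F : E → M}

theorem sinh_zero (h : SinhModel V l F) (y : E) : Real.sinh (l * dist (F 0) (F y)) = ‖y‖ := by
  have h1 := h.cosh_zero y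
  have h2 := Real.cosh_sq (l * dist (F 0) (F y))
  have h3 : 0 ≤ Real.sinh (l * dist (F 0) (F y)) :=
    Real.sinh_nonneg_iff.mpr (mul_nonneg h.l_pos.le dist_nonneg)
  rw [h1, uu_sq] at h2
  have h4 : Real.sinh (l * dist (F 0) (F y)) ^ 2 = ‖y‖ ^ 2 := by linarith
  exact (pow_left_inj₀ h3 (norm_nonneg y) two_ne_zero).mp h4

theorem dist_zero_le (h : SinhModel V l F) (y : E) : l * dist (F 0) (F y) ≤ ‖y‖ := by
  rw [← h.sinh_zero y]
  exact Real.self_le_sinh_iff.mpr (mul_nonneg h.l_pos.le dist_nonneg)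

/-- A linear functional `G` with `|G e| ≤ ‖y‖ ‖e‖` and `G y = -‖y‖²` is `-⟪y, ·⟫`. -/
theorem functional_eq (G : E →L[ℝ] ℝ) (y : E) (h1 : ∀ e, |G e| ≤ ‖y‖ * ‖e‖)
    (h2 : G y = -‖y‖ ^ 2) (e : E) : G e = -⟪e, y⟫_ℝ := by
  set v := (InnerProductSpace.toDual ℝ E).symm G with hv
  have hG : ∀ w, G w = ⟪v, w⟫_ℝ := fun w => (InnerProductSpace.toDual_symm_apply).symm
  have h3 : ‖v‖ ^ 2 ≤ ‖y‖ ^ 2 := by
    have h4 := h1 v
    rw [hG, real_inner_self_eq_norm_sq, abs_of_nonneg (sq_nonneg _)] at h4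
    rcases (norm_nonneg v).eq_or_lt with h0 | h0
    · rw [← h0]; nlinarith [sq_nonneg ‖y‖]
    · have h5 : ‖v‖ ≤ ‖y‖ := by
        rw [sq] at h4
        exact le_of_mul_le_mul_right h4 h0
      exact pow_le_pow_left₀ h0.le h5 2
  have h5 : ‖v + y‖ ^ 2 ≤ 0 := by
    rw [norm_add_sq_real, ← hG, h2]
    linarith
  have h6 : v + y = 0 := by
    have : ‖v + y‖ ^ 2 = 0 := le_antisymm h5 (sq_nonneg _)
    exact norm_eq_zero.mp (pow_eq_zero_iff two_ne_zero |>.mp this)
  have h7 : v = -y := eq_neg_of_add_eq_zero_left h6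
  rw [hG, h7, inner_neg_left, real_inner_comm]

theorem chd_deriv (h : SinhModel V l F) (e y : E) :
    HasDerivAt (fun t : ℝ => Real.cosh (l * dist (F (t • e)) (F y))) (-⟪e, y⟫_ℝ) 0 := by
  set g : E → ℝ := fun x => Real.cosh (l * dist (F x) (F y)) with hg
  have hsm : ContDiff ℝ ∞ g :=
    h.smooth_chd.comp (contDiff_id.prodMk contDiff_const)
  have hdiff : DifferentiableAt ℝ g 0 := hsm.differentiable (by simp) 0
  set G := fderiv ℝ g 0 with hG
  have hline : ∀ v : E, HasDerivAt (fun t : ℝ => g (t • v)) (G v) 0 := by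
    intro v
    have h1 : HasFDerivAt g G ((0 : ℝ) • v) := by rw [zero_smul]; exact hdiff.hasFDerivAt
    have h2 : HasDerivAt (fun t : ℝ => t • v) v 0 := by
      simpa using (hasDerivAt_id (0 : ℝ)).smul_const v
    exact h1.comp_hasDerivAt (0 : ℝ) h2
  -- value at the centre
  have hc0 : Real.cosh (l * dist (F 0) (F y)) = uu y := h.cosh_zero y
  have hs0 : Real.sinh (l * dist (F 0) (F y)) = ‖y‖ := h.sinh_zero y
  -- along the ray
  have hGy : G y = -‖y‖ ^ 2 := by
    have h1 : HasDerivWithinAt (fun t : ℝ => g (t • y)) (G y) (Icc 0 1) 0 :=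
      (hline y).hasDerivWithinAt
    have hval : ∀ s ∈ Icc (0 : ℝ) 1, g (s • y) = uu y * uu (s • y) - s * ‖y‖ ^ 2 := by
      intro s hs
      have e1 : l * dist (F (s • y)) (F y)
          = l * dist (F 0) (F y) - l * dist (F 0) (F (s • y)) := by
        rw [h.radial y s hs]; ring
      have e2 := h.sinh_zero (s • y)
      rw [norm_smul, Real.norm_of_nonneg hs.1] at e2
      simp only [hg]
      rw [e1, Real.cosh_sub, hc0, hs0, h.cosh_zero (s • y), e2]
      ring
    have h2 : HasDerivAt (fun s : ℝ => uu y * uu (s • y) - s * ‖y‖ ^ 2) (-‖y‖ ^ 2) 0 := by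
      have e1 : HasDerivAt (fun s : ℝ => uu (s • y)) 0 0 := by
        have e2 : HasDerivAt (fun s : ℝ => 1 + ‖s • y‖ ^ 2) 0 0 := by
          have e3 : (fun s : ℝ => 1 + ‖s • y‖ ^ 2) = fun s : ℝ => 1 + s ^ 2 * ‖y‖ ^ 2 := by
            funext s
            rw [norm_smul, mul_pow, Real.norm_eq_abs, sq_abs]
          rw [e3]
          have := ((hasDerivAt_pow 2 (0 : ℝ)).mul_const (‖y‖ ^ 2)).const_add 1
          simpa using this
        have e4 := e2.sqrt (by simp)
        simpa [uu] using e4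
      have e5 : HasDerivAt (fun s : ℝ => uu y * uu (s • y) - s * ‖y‖ ^ 2)
          (uu y * 0 - 1 * ‖y‖ ^ 2) 0 :=
        (e1.const_mul (uu y)).sub ((hasDerivAt_id (0 : ℝ)).mul_const (‖y‖ ^ 2))
      refine e5.congr_deriv ?_
      ring
    have h3 : HasDerivWithinAt (fun t : ℝ => g (t • y)) (-‖y‖ ^ 2) (Icc 0 1) 0 :=
      h2.hasDerivWithinAt.congr hval (hval 0 (by norm_num))
    have hu : UniqueDiffWithinAt ℝ (Icc (0:ℝ) 1) 0 :=
      (uniqueDiffOn_Icc one_pos) 0 (by norm_num)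
    exact hu.eq_deriv _ h1 h3
  -- Lipschitz bound
  have hbound : ∀ v, |G v| ≤ ‖y‖ * ‖v‖ := by
    intro v
    have hlim := (hline v).tendsto_slope_zero_right
    have hlim2 : Tendsto (fun t : ℝ => Real.sinh (l * dist (F 0) (F y) + t * ‖v‖) * ‖v‖)
        (𝓝[>] 0) (𝓝 (‖y‖ * ‖v‖)) := by
      refine Tendsto.mono_left ?_ nhdsWithin_le_nhds
      have : Continuous fun t : ℝ => Real.sinh (l * dist (F 0) (F y) + t * ‖v‖) * ‖v‖ := by
        fun_prop
      have h1 := this.tendsto 0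
      simpa [hs0] using h1
    refine le_of_tendsto_of_tendsto hlim.abs hlim2 ?_
    filter_upwards [self_mem_nhdsWithin] with t ht
    have ht0 : 0 < t := ht
    rw [zero_add, zero_smul, smul_eq_mul, abs_mul, abs_of_pos (inv_pos.mpr ht0),
      inv_mul_le_iff₀ ht0]
    -- |cosh a - cosh b| ≤ sinh (max) |a - b|
    have hab : |l * dist (F (t • v)) (F y) - l * dist (F 0) (F y)| ≤ t * ‖v‖ := by
      rw [← mul_sub, abs_mul, abs_of_pos h.l_pos]
      have e1 : |dist (F (t • v)) (F y) - dist (F 0) (F y)| ≤ dist (F 0) (F (t • v)) := by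
        rw [dist_comm (F 0) (F (t • v))]
        exact abs_dist_sub_le _ _ _
      have e2 := h.dist_zero_le (t • v)
      rw [norm_smul, Real.norm_of_nonneg ht0.le] at e2
      exact (mul_le_mul_of_nonneg_left e1 h.l_pos.le).trans e2
    have hcc : ∀ a b c : ℝ, 0 ≤ a → 0 ≤ b → |a - b| ≤ c →
        |Real.cosh a - Real.cosh b| ≤ Real.sinh (b + c) * c := by
      intro a b c ha hb habc
      have hc : 0 ≤ c := (abs_nonneg _).trans habc
      have hmv : ∀ x ∈ Icc (0:ℝ) (b + c), ‖Real.sinh x‖ ≤ Real.sinh (b + c) := by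
        intro x hx
        rw [Real.norm_of_nonneg (Real.sinh_nonneg_iff.mpr hx.1)]
        exact Real.sinh_le_sinh.mpr hx.2
      have hd : ∀ x ∈ Icc (0:ℝ) (b + c),
          HasDerivWithinAt Real.cosh (Real.sinh x) (Icc (0:ℝ) (b + c)) x := fun x _ =>
        (Real.hasDerivAt_cosh x).hasDerivWithinAt
      have hamem : a ∈ Icc (0:ℝ) (b + c) := ⟨ha, by linarith [(abs_le.mp habc).2]⟩
      have hbmem : b ∈ Icc (0:ℝ) (b + c) := ⟨hb, by linarith⟩
      have := (convex_Icc (0:ℝ) (b + c)).norm_image_sub_le_of_norm_hasDerivWithin_le hd hmv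
        hbmem hamem
      rw [Real.norm_eq_abs, Real.norm_eq_abs] at this
      exact this.trans (mul_le_mul_of_nonneg_left habc
        (Real.sinh_nonneg_iff.mpr (by linarith)))
    have := hcc _ _ _ (mul_nonneg h.l_pos.le dist_nonneg) (mul_nonneg h.l_pos.le dist_nonneg) hab
    calc |g (t • v) - g 0| ≤ Real.sinh (l * dist (F 0) (F y) + t * ‖v‖) * (t * ‖v‖) := this
      _ = t * (Real.sinh (l * dist (F 0) (F y) + t * ‖v‖) * ‖v‖) := by ring
  rw [← functional_eq G y hbound hGy e]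
  exact hline e

theorem coercive (h : SinhModel V l F) (p y : E) :
    uu p ≤ 2 * uu y * Real.cosh (l * dist (F p) (F y)) := by
  rw [← h.cosh_zero p, ← h.cosh_zero y]
  set a := l * dist (F 0) (F y) with ha
  set b := l * dist (F p) (F y) with hb
  have ha0 : 0 ≤ a := mul_nonneg h.l_pos.le dist_nonneg
  have hb0 : 0 ≤ b := mul_nonneg h.l_pos.le dist_nonneg
  have h1 : l * dist (F 0) (F p) ≤ a + b := by
    have := dist_triangle (F 0) (F y) (F p)
    rw [dist_comm (F y) (F p)] at this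
    calc l * dist (F 0) (F p) ≤ l * (dist (F 0) (F y) + dist (F p) (F y)) :=
          mul_le_mul_of_nonneg_left this h.l_pos.le
      _ = a + b := by rw [ha, hb]; ring
  have h2 : Real.cosh (l * dist (F 0) (F p)) ≤ Real.cosh (a + b) := by
    rw [Real.cosh_le_cosh, abs_of_nonneg (mul_nonneg h.l_pos.le dist_nonneg),
      abs_of_nonneg (by positivity)]
    exact h1
  have h3 : Real.sinh a ≤ Real.cosh a := (Real.sinh_lt_cosh a).le
  have h4 : Real.sinh b ≤ Real.cosh b := (Real.sinh_lt_cosh b).le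
  have h5 : 0 ≤ Real.sinh a := Real.sinh_nonneg_iff.mpr ha0
  have h6 : 0 ≤ Real.sinh b := Real.sinh_nonneg_iff.mpr hb0
  rw [Real.cosh_add] at h2
  nlinarith [mul_le_mul h3 h4 h6 (h5.trans h3)]

/-- Isometries, read in the chart, preserve `mg V`. -/
theorem mg_iso (h : SinhModel V l F) (φ : M ≃ᵢ M) (ψ : E → E) (hψ : ∀ y, F (ψ y) = φ (F y))
    (y u : E) : mg V (ψ y) (fderiv ℝ ψ y u) = mg V y u := by
  have hs : ContDiff ℝ ∞ ψ := h.smooth_iso φ ψ hψ
  have hst : HasStrictFDerivAt ψ (fderiv ℝ ψ y) y :=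
    hs.contDiffAt.hasStrictFDerivAt (by simp)
  have hpsd : ∀ x, Psd ((l ^ 2)⁻¹ • mgB V x) := fun x =>
    ⟨fun a b => by
      simp only [smul_apply, smul_eq_mul]
      rw [(mgB_psd V x).symm a b],
     fun a => by
      simp only [smul_apply, smul_eq_mul]
      exact mul_nonneg (by positivity) ((mgB_psd V x).nonneg a)⟩
  have key := MetAt.isom (h.near (ψ y)) (hpsd _) (h.near y) (hpsd _) hst (s := univ) univ_mem
    (fun a _ b _ => by simp only [hψ, φ.dist_eq]) u u
  simp only [smul_apply, smul_eq_mul] at key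
  rw [mgB_self, mgB_self] at key
  have hl : (l ^ 2)⁻¹ ≠ 0 := inv_ne_zero (pow_ne_zero 2 h.l_pos.ne')
  exact mul_left_cancel₀ hl key

/-- The Jacobian of an isometry of `mg V`. -/
theorem det_iso (V : Ver E) {ψ : E → E} {y : E}
    (hiso : ∀ u, mg V (ψ y) (fderiv ℝ ψ y u) = mg V y u) :
    rho V (ψ y) * |(fderiv ℝ ψ y).det| = rho V y := by
  set T₁ : E →L[ℝ] E := (sqT V (ψ y)).comp (fderiv ℝ ψ y) with hT₁
  set T₂ : E →L[ℝ] E := sqT V y with hT₂
  have hn : ∀ v, ‖T₁ v‖ = ‖T₂ v‖ := by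
    intro v
    have h1 : ‖T₁ v‖ ^ 2 = ‖T₂ v‖ ^ 2 := by
      rw [hT₁, ContinuousLinearMap.comp_apply, norm_sqT_sq, hT₂, norm_sqT_sq, hiso]
    exact (pow_left_inj₀ (norm_nonneg _) (norm_nonneg _) two_ne_zero).mp h1
  have hr := rho_pos V y
  have hr' := rho_pos V (ψ y)
  have hd₂ : T₂.det = rho V y := sqT_det V y
  have hd₁ : T₁.det = rho V (ψ y) * (fderiv ℝ ψ y).det := by
    rw [← sqT_det V (ψ y)]
    exact LinearMap.det_comp _ _
  -- `T₁ = U T₂` with `U` a linear isometry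
  have hinj₂ : Function.Injective T₂ := by
    rw [injective_iff_map_eq_zero]
    intro v hv
    by_contra hne
    have h0 : mg V y v = 0 := by rw [← norm_sqT_sq, ← hT₂, hv, norm_zero]; norm_num
    have := vA_pos V y v hne
    rw [← mg_eq, h0] at this
    exact lt_irrefl _ this
  let e₂ : E ≃ₗ[ℝ] E := LinearEquiv.ofInjectiveEndo (T₂ : E →ₗ[ℝ] E) hinj₂
  have he₂ : ∀ v, e₂ v = T₂ v := fun v => rfl
  let U : E →ₗᵢ[ℝ] E := ⟨(T₁ : E →ₗ[ℝ] E).comp (e₂.symm : E →ₗ[ℝ] E), fun v => by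
    show ‖T₁ (e₂.symm v)‖ = ‖v‖
    rw [hn, ← he₂, LinearEquiv.apply_symm_apply]⟩
  have hU : |LinearMap.det (U.toLinearMap)| = 1 := by
    rw [← LinearMap.normDet_eq_abs_det, LinearIsometry.normDet_eq_one]
  have hcomp : (T₁ : E →ₗ[ℝ] E) = U.toLinearMap.comp (T₂ : E →ₗ[ℝ] E) := by
    ext v
    show T₁ v = T₁ (e₂.symm (T₂ v))
    rw [← he₂, LinearEquiv.symm_apply_apply]
  have h3 : T₁.det = LinearMap.det U.toLinearMap * T₂.det := by
    show LinearMap.det (T₁ : E →ₗ[ℝ] E) = _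
    rw [hcomp, LinearMap.det_comp]
  have h4 : |T₁.det| = |T₂.det| := by rw [h3, abs_mul, hU, one_mul]
  rw [hd₁, hd₂, abs_mul, abs_of_pos hr, abs_of_pos hr'] at h4
  exact h4

section measure
variable [MeasurableSpace E] [BorelSpace E]

/-- **E4**: the homogeneity data of the model. -/
theorem exists_homB (h : SinhModel V l F) : ∃ H : HomB V,
    (∀ x y, H.chd x y = Real.cosh (l * dist (F x) (F y))) ∧
    ∀ p, ∃ φ : M ≃ᵢ M, ∀ y, F (H.phi p y) = φ (F y) := by
  choose φ hφ using h.trans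
  set Φ : E ≃ M := Equiv.ofBijective F h.bij with hΦ
  have hF : ∀ y, Φ y = F y := fun y => rfl
  have hFs : ∀ m, F (Φ.symm m) = m := fun m => Φ.apply_symm_apply m
  let ph : E → E → E := fun p y => Φ.symm (φ p (F y))
  let iv : E → E → E := fun p y => Φ.symm ((φ p).symm (F y))
  have hph : ∀ p y, F (ph p y) = φ p (F y) := fun p y => hFs _
  have hiv : ∀ p y, F (iv p y) = (φ p).symm (F y) := fun p y => hFs _
  have sph : ∀ p, ContDiff ℝ ∞ (ph p) := fun p => h.smooth_iso (φ p) _ (hph p)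
  have siv : ∀ p, ContDiff ℝ ∞ (iv p) := fun p => h.smooth_iso (φ p).symm _ (hiv p)
  have pi : ∀ p y, ph p (iv p y) = y := fun p y => h.bij.1 (by
    rw [hph, hiv, IsometryEquiv.apply_symm_apply])
  have ip : ∀ p y, iv p (ph p y) = y := fun p y => h.bij.1 (by
    rw [hiv, hph, IsometryEquiv.symm_apply_apply])
  have hmg : ∀ p y u, mg V (ph p y) (fderiv ℝ (ph p) y u) = mg V y u := fun p y u =>
    h.mg_iso (φ p) (ph p) (hph p) y u
  refine ⟨{
    chd := fun x y => Real.cosh (l * dist (F x) (F y))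
    phi := ph
    inv := iv
    smooth_phi := sph
    smooth_inv := siv
    phi_inv := pi
    inv_phi := ip
    phi_zero := fun p => h.bij.1 (by rw [hph, hφ])
    mp := fun p => mp_of_det V ((sph p).of_le (by exact_mod_cast le_top)) (ip p) (pi p)
      (fun y => det_iso V (hmg p y))
    an_phi := fun p f y hf => an_of_isom V ((sph p).differentiable (by simp) y) (hmg p y) hf
    chd_phi := fun p x y => by rw [hph, hph, (φ p).dist_eq]
    chd_symm := fun x y => by rw [dist_comm]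
    chd_zero := h.cosh_zero
    chd_smooth := h.smooth_chd
    chd_deriv := h.chd_deriv
    chd_coercive := h.coercive }, fun x y => rfl, fun p => ⟨φ p, hph p⟩⟩

end measure

end SinhModel

end

end Pool.Agent.Work.MP_3b24f6_gt.Froz
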