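import Pool.Agent.Work.MP_3b24f6_gt.FinalB
import Pool.Agent.Work.MP_3b24f6_gt.S.ToHomB
import Pool.Agent.Work.MP_3b24f6_gt.S.FOut
import Pool.Agent.Work.MP_3b24f6_gt.S.SphF
import Pool.Agent.Work.MP_3b24f6_gt.S.AreaFront
import Pool.Agent.Work.MP_3b24f6_gt.H0.Model

/-!
# The frozen statement for a manifold which is a rank one model in a global chart

`frozen_ver`: the models with `w ≥ 1`; `frozen_hyp`: real hyperbolic space, from its isoperimetric
inequality.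
-/

set_option autoImplicit false

open MeasureTheory Set Filter Topology Metric Module Measure
open scoped ENNReal NNReal MeasureTheory ContDiff Manifold InnerProductSpace

namespace Pool.Agent.Work.MP_3b24f6_gt

noncomputable section

open Pool.Agent.MP_3b24f6_gt.S (MetAt Psd)

/-- From the additive to the multiplicative infinitesimal comparison. -/
theorem afhyp_of_metAt {E : Type*} [NormedAddCommGroup E] [InnerProductSpace ℝ E]
    [FiniteDimensional ℝ E] {F : Type*} [NormedAddCommGroup F] [NormedSpace ℝ F]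
    {M : Type*} [MetricSpace M] {f : E → M} {T : E → E →L[ℝ] F} {B : E → E →L[ℝ] E →L[ℝ] ℝ}
    (h : ∀ x, MetAt (fun y z => dist (f y) (f z)) x (B x))
    (hT : ∀ x v, ‖T x v‖ ^ 2 = B x v v) (hinj : ∀ x, Function.Injective (T x)) :
    AFHyp f univ T := by
  intro x _ η hη
  obtain ⟨c, hc, hcL⟩ : ∃ c : ℝ, 0 < c ∧ ∀ v, c * ‖v‖ ≤ ‖T x v‖ := by
    obtain ⟨K, hK, hKL⟩ := (T x : E →ₗ[ℝ] F).exists_antilipschitzWith
      (LinearMap.ker_eq_bot.2 (hinj x))
    refine ⟨(K : ℝ)⁻¹, by positivity, fun v => ?_⟩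
    have h1 := hKL.le_mul_dist v 0
    rw [dist_zero_right, map_zero, dist_zero_right] at h1
    have h2 : (0 : ℝ) < K := by exact_mod_cast hK
    rw [inv_mul_le_iff₀ h2]
    exact h1
  obtain ⟨r, hr, hr'⟩ := h x (η * c) (by positivity)
  refine ⟨r, hr, fun y hy z hz _ _ => ?_⟩
  have h1 := hr' y hy z hz
  rw [← hT, Real.sqrt_sq (norm_nonneg _)] at h1
  have h2 : η * c * ‖y - z‖ ≤ η * ‖T x (y - z)‖ := by
    rw [mul_assoc]
    exact mul_le_mul_of_nonneg_left (hcL _) hη.le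
  have h3 := abs_le.1 (h1.trans h2)
  constructor
  · linarith [h3.1]
  · linarith [h3.2]

/-- Isometries are smooth if they are smooth in a global chart. -/
theorem smooth_of_chart {E : Type*} [NormedAddCommGroup E] [NormedSpace ℝ E]
    {M : Type*} [MetricSpace M] [ChartedSpace E M] (Ψ : E ≃ₜ M)
    (hΨ : ContMDiff 𝓘(ℝ, E) 𝓘(ℝ, E) ∞ Ψ) (hΨ' : ContMDiff 𝓘(ℝ, E) 𝓘(ℝ, E) ∞ Ψ.symm)
    (h : ∀ (φ : M ≃ᵢ M) (ψ : E → E), (∀ y, Ψ (ψ y) = φ (Ψ y)) → ContDiff ℝ ∞ ψ)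
    (φ : M ≃ᵢ M) (x : M) : ContMDiffAt 𝓘(ℝ, E) 𝓘(ℝ, E) ∞ φ x := by
  set ψ : E → E := fun y => Ψ.symm (φ (Ψ y)) with hψ
  have h1 : ContDiff ℝ ∞ ψ := h φ ψ fun y => by simp [hψ]
  have h2 : (φ : M → M) = Ψ ∘ ψ ∘ Ψ.symm := by
    funext z
    simp [hψ]
  rw [h2]
  exact (hΨ.comp (h1.contMDiff.comp hΨ')).contMDiffAt

theorem us_sinh_lt {V : Type*} [NormedAddCommGroup V] [InnerProductSpace ℝ V] {s : ℝ}
    (hs : 0 < s) : {y : V | uu y < us s} = ball 0 s := by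
  ext y
  rw [mem_setOf_eq, mem_ball_zero_iff, uu, us, Real.sqrt_lt_sqrt_iff (by positivity)]
  rw [add_lt_add_iff_left]
  exact pow_lt_pow_iff_left₀ (norm_nonneg y) hs.le two_ne_zero


theorem sqT_injective {E : Type*} [NormedAddCommGroup E] [InnerProductSpace ℝ E]
    [FiniteDimensional ℝ E] {T : E →L[ℝ] E} (h2 : T.det ≠ 0) {c : ℝ} (hc : c ≠ 0) :
    Function.Injective (c • T : E →L[ℝ] E) := by
  rw [injective_iff_map_eq_zero]
  intro v hv
  have h1 : T v = 0 := by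
    rw [ContinuousLinearMap.smul_apply] at hv
    exact (smul_eq_zero.1 hv).resolve_left hc
  have h3 := (LinearMap.equivOfDetNeZero ((T : E →L[ℝ] E) : E →ₗ[ℝ] E) h2).injective
  refine h3 (a₁ := v) (a₂ := 0) ?_
  rw [map_zero]
  exact h1

/-- The frozen statement for a manifold which is the model `V` in the chart `Ψ`. -/
theorem frozen_ver {d : ℕ} {M : Type*} [MetricSpace M] [MeasurableSpace M] [BorelSpace M]
    [ChartedSpace (EuclideanSpace ℝ (Fin d)) M] [ProperSpace M]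
    (V : Ver (EuclideanSpace ℝ (Fin d))) {l : ℝ} (Ψ : EuclideanSpace ℝ (Fin d) ≃ₜ M)
    (hΨ : ContMDiff (𝓡 d) (𝓡 d) ∞ Ψ) (hΨ' : ContMDiff (𝓡 d) (𝓡 d) ∞ Ψ.symm)
    (h : Froz.SinhModel V l Ψ)
    (D : Set M) (hD : IsOpen D) (hb : Bornology.IsBounded D)
    (hfr : ∀ x ∈ frontier D, ∃ f : M → ℝ, ∃ U ∈ 𝓝 x,
      ContMDiffOn (𝓡 d) 𝓘(ℝ, ℝ) ∞ f U ∧ mfderiv (𝓡 d) 𝓘(ℝ, ℝ) f x ≠ 0 ∧
      ∀ y ∈ U, (y ∈ D ↔ f y < 0))
    (p : M) (r : ℝ) (hm : μH[(d : ℝ)] D = μH[(d : ℝ)] (ball p r)) :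
    μH[(d : ℝ) - 1] (frontier (ball p r)) ≤ μH[(d : ℝ) - 1] (frontier D) := by
  have hl := h.l_pos
  have hfin : finrank ℝ (EuclideanSpace ℝ (Fin d)) = d := finrank_euclideanSpace_fin
  have hdim := V.dim_le
  rw [hfin] at hdim
  have hd1 : 1 ≤ d := by omega
  have hn : d - 1 + 1 = finrank ℝ (EuclideanSpace ℝ (Fin d)) := by rw [hfin]; omega
  have hAF : AFHyp Ψ univ fun y => l⁻¹ • sqT V y := by
    refine afhyp_of_metAt h.near (fun x v => ?_) fun x => sqT_injective ?_ (inv_ne_zero hl.ne')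
    · rw [ContinuousLinearMap.smul_apply, norm_smul, mul_pow, norm_sqT_sq]
      have h1 : ((l ^ 2)⁻¹ • Froz.mgB V x) v v = (l ^ 2)⁻¹ * mg V x v := by
        rw [← Froz.mgB_self]
        rfl
      rw [h1, Real.norm_eq_abs, sq_abs, inv_pow]
    · rw [sqT_det]
      exact (pow_pos (vf_uu_pos x) _).ne'
  obtain ⟨H, hH1, hH2⟩ := h.exists_homB
  refine frozen_abs hd1 Ψ hΨ hΨ' (fun p => ?_) (sh := fun r => Real.sinh (l * r))
    (fun r hr => Real.sinh_pos_iff.2 (mul_pos hl hr)) (fun r hr => ?_)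
    (smooth_of_chart Ψ hΨ hΨ' h.smooth_iso) (μ := mu V) (a := areaB V)
    (c := ENNReal.ofReal (l⁻¹ ^ d)) (c' := ENNReal.ofReal (l⁻¹ ^ (d - 1)))
    (ENNReal.ofReal_pos.2 (by positivity)).ne' ENNReal.ofReal_ne_top
    (fun A hA => ?_) (fun A hA => ?_) (fun s hs => ?_) (fun A hA s hs hm => ?_) D hD hb hfr p r hm
  · obtain ⟨φ, hφ⟩ := h.trans (Ψ.symm p)
    rw [Ψ.apply_symm_apply] at hφ
    exact ⟨φ.symm, by rw [← hφ, φ.symm_apply_apply]⟩
  · ext y
    rw [mem_preimage, mem_ball, mem_ball_zero_iff, ← h.sinh_zero y, Real.sinh_lt_sinh,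
      dist_comm, mul_lt_mul_iff_right₀ hl]
  · have h1 := vol_hausdorff V Ψ.injective (inv_pos.2 hl) hAF hA
    rw [hfin] at h1
    exact h1
  · rw [← Ψ.image_frontier]
    exact AFr.areaB_le_frontier V hA Ψ.injective (inv_pos.2 hl) hAF hn
  · obtain ⟨ν, hν⟩ := exists_delta (wS_isReg (E := EuclideanSpace ℝ (Fin d)) hs)
    rw [← Ψ.image_frontier, frontier_ball _ hs.ne', ← wS_zero hs,
      AFr.hausdorff_surf V (wS_isReg hs) hν Ψ.injective (inv_pos.2 hl) hAF hn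
        (AFr.measurableSet_surf (wS_isReg hs)) fun x hx => hx]
    refine mul_le_mul_right ?_ _
    exact (lintegral_mono' Measure.restrict_le_self le_rfl).trans (sphere_flux V hs hν)
  · have h2 : {y | H.chd 0 y < us s} = ball 0 s := by
      rw [← us_sinh_lt hs]
      ext y
      simp only [mem_setOf_eq, H.chd_zero]
    have h1 := isoperimetric V H hA.isOpen.measurableSet 0 hs (by rw [hm, h2])
    rw [h2] at h1
    exact h1

/-- Volume is the Hausdorff measure of top dimension, `w = 0`. -/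
theorem vol_hausdorff0 {E : Type*} [NormedAddCommGroup E] [InnerProductSpace ℝ E]
    [FiniteDimensional ℝ E] [MeasurableSpace E] [BorelSpace E]
    {M : Type*} [MetricSpace M] [MeasurableSpace M] [BorelSpace M]
    {Ψ : E → M} (hinj : Function.Injective Ψ) {l : ℝ} (hl : 0 < l)
    (h : AFHyp Ψ univ fun y => l • sqT0 y) {D : Set E} (hD : MeasurableSet D) :
    μHE[finrank ℝ E] (Ψ '' D) = ENNReal.ofReal (l ^ finrank ℝ E) * (mu0 : Measure E) D := by
  have hdet : ∀ y : E, ((l • sqT0 y : E →L[ℝ] E)).det = l ^ finrank ℝ E * (uu y)⁻¹ := by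
    intro y
    have h1 : ((l • sqT0 y : E →L[ℝ] E)).det
        = LinearMap.det (l • ((sqT0 y : E →L[ℝ] E) : E →ₗ[ℝ] E)) := rfl
    rw [h1, LinearMap.det_smul, ← one_div]
    congr 1
    exact sqT0_det y
  have hrho : ∀ y : E, 0 < (uu y)⁻¹ := fun y => inv_pos.2 (vf_uu_pos y)
  rw [area_formulaE isOpen_univ hinj.injOn h (fun x _ => ?_) hD (subset_univ _)]
  · rw [mu0, withDensity_apply _ hD, ← lintegral_const_mul']
    · refine lintegral_congr fun y => ?_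
      rw [hdet, abs_of_pos (mul_pos (by positivity) (hrho y)), ENNReal.ofReal_mul (by positivity),
        rho0]
    · exact ENNReal.ofReal_ne_top
  · rw [hdet]
    exact (mul_pos (by positivity) (hrho x)).ne'

theorem area0_eq {E : Type*} [NormedAddCommGroup E] [InnerProductSpace ℝ E]
    [FiniteDimensional ℝ E] [MeasurableSpace E] [BorelSpace E] (D : Set E) :
    area0 D = AFr.areaG sqT0 (fun y => 1 / uu y) D := by
  have hle : ∀ y v : E, ‖sqT0 y v‖ ≤ 1 ↔ mg0 y v ≤ 1 := by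
    intro y v
    rw [mg0, ← norm_sqT0_sq]
    constructor
    · intro h
      exact pow_le_one₀ (norm_nonneg _) h
    · intro h
      by_contra hcon
      push Not at hcon
      nlinarith
  unfold area0 AFr.areaG
  have hρ : ∀ X : E → E, (fun z => rho0 z • X z) = fun z => (1 / uu z) • X z := by
    intro X
    funext z
    rw [rho0, one_div]
  refine le_antisymm (iSup_le fun X => ?_) (iSup_le fun X => ?_)
  · rw [hρ]
    exact le_iSup (fun X : {X : E → E // ContDiff ℝ ∞ X ∧ HasCompactSupport X ∧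
      ∀ y, ‖sqT0 y (X y)‖ ≤ 1} => ENNReal.ofReal (∫ y in D,
        divE (fun z => (1 / uu z) • X.1 z) y))
      ⟨X.1, X.2.1, X.2.2.1, fun y => (hle y _).2 (X.2.2.2 y)⟩
  · rw [← hρ]
    exact le_iSup (fun X : {X : E → E // ContDiff ℝ ∞ X ∧ HasCompactSupport X ∧
      ∀ y, mg0 y (X y) ≤ 1} => ENNReal.ofReal (∫ y in D,
        divE (fun z => rho0 z • X.1 z) y))
      ⟨X.1, X.2.1, X.2.2.1, fun y => (hle y _).1 (X.2.2.2 y)⟩

/-- The frozen statement for a manifold which is real hyperbolic space in the chart `Ψ`. -/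
theorem frozen_hyp {d : ℕ} {M : Type*} [MetricSpace M] [MeasurableSpace M] [BorelSpace M]
    [ChartedSpace (EuclideanSpace ℝ (Fin d)) M] [ProperSpace M] (hd : 2 ≤ d)
    {l : ℝ} (hl : 0 < l) (Ψ : EuclideanSpace ℝ (Fin d) ≃ₜ M)
    (hΨ : ContMDiff (𝓡 d) (𝓡 d) ∞ Ψ) (hΨ' : ContMDiff (𝓡 d) (𝓡 d) ∞ Ψ.symm)
    (hsm : ∀ (φ : M ≃ᵢ M) (x : M), ContMDiffAt (𝓡 d) (𝓡 d) ∞ φ x)
    (hhom : ∀ p : M, ∃ φ : M ≃ᵢ M, φ p = Ψ 0)
    (hsinh : ∀ y, Real.sinh (l * dist (Ψ 0) (Ψ y)) = ‖y‖)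
    (hAF : AFHyp Ψ univ fun y => l⁻¹ • sqT0 y)
    (hI : ∀ A : Set (EuclideanSpace ℝ (Fin d)), MeasurableSet A → ∀ s : ℝ, 0 < s →
      (mu0 : Measure (EuclideanSpace ℝ (Fin d))) A
        = (mu0 : Measure (EuclideanSpace ℝ (Fin d))) (ball 0 s) →
      area0 (ball (0 : EuclideanSpace ℝ (Fin d)) s) ≤ area0 A)
    (D : Set M) (hD : IsOpen D) (hb : Bornology.IsBounded D)
    (hfr : ∀ x ∈ frontier D, ∃ f : M → ℝ, ∃ U ∈ 𝓝 x,
      ContMDiffOn (𝓡 d) 𝓘(ℝ, ℝ) ∞ f U ∧ mfderiv (𝓡 d) 𝓘(ℝ, ℝ) f x ≠ 0 ∧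
      ∀ y ∈ U, (y ∈ D ↔ f y < 0))
    (p : M) (r : ℝ) (hm : μH[(d : ℝ)] D = μH[(d : ℝ)] (ball p r)) :
    μH[(d : ℝ) - 1] (frontier (ball p r)) ≤ μH[(d : ℝ) - 1] (frontier D) := by
  have hfin : finrank ℝ (EuclideanSpace ℝ (Fin d)) = d := finrank_euclideanSpace_fin
  have hn : d - 1 + 1 = finrank ℝ (EuclideanSpace ℝ (Fin d)) := by rw [hfin]; omega
  refine frozen_abs (by omega) Ψ hΨ hΨ' hhom (sh := fun r => Real.sinh (l * r))
    (fun r hr => Real.sinh_pos_iff.2 (mul_pos hl hr)) (fun r hr => ?_)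
    hsm (μ := mu0) (a := area0)
    (c := ENNReal.ofReal (l⁻¹ ^ d)) (c' := ENNReal.ofReal (l⁻¹ ^ (d - 1)))
    (ENNReal.ofReal_pos.2 (by positivity)).ne' ENNReal.ofReal_ne_top
    (fun A hA => ?_) (fun A hA => ?_) (fun s hs => ?_)
    (fun A hA s hs hm => hI A hA.isOpen.measurableSet s hs hm) D hD hb hfr p r hm
  · ext y
    rw [mem_preimage, mem_ball, mem_ball_zero_iff, ← hsinh y, Real.sinh_lt_sinh,
      dist_comm, mul_lt_mul_iff_right₀ hl]
  · have h1 := vol_hausdorff0 Ψ.injective (inv_pos.2 hl) hAF hA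
    rw [hfin] at h1
    exact h1
  · obtain ⟨w, hw, rfl⟩ := (smoothDomain_iff A).1 hA
    rw [← Ψ.image_frontier, AFr.frontier_reg hw, area0_eq]
    exact AFr.frame_zero.areaG_le_front hw Ψ.injective (inv_pos.2 hl) hAF hn
  · obtain ⟨ν, hν⟩ := exists_delta (wS_isReg (E := EuclideanSpace ℝ (Fin d)) hs)
    rw [← Ψ.image_frontier, frontier_ball _ hs.ne', ← wS_zero hs,
      AFr.frame_zero.hausdorff_surf (wS_isReg hs) hν Ψ.injective (inv_pos.2 hl) hAF hn
        (AFr.measurableSet_surf (wS_isReg hs)) fun x hx => hx]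
    refine mul_le_mul_right ?_ _
    refine (lintegral_mono' Measure.restrict_le_self le_rfl).trans ?_
    have h1 := sphere_flux_of (E := EuclideanSpace ℝ (Fin d)) (ρ := fun y => rho0 y)
      (by
        have : (fun y : EuclideanSpace ℝ (Fin d) => rho0 y) = fun y => (uu y)⁻¹ := rfl
        rw [this]
        exact AFr.smooth_uu.inv fun y => (vf_uu_pos y).ne')
      (fun y => (inv_pos.2 (vf_uu_pos y)).le) mg0 (fun y c => by
        have h2 := vf_uu_sq y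
        have h3 := vf_uu_pos y
        have h6 : uu y ^ 2 ≠ 0 := (pow_pos h3 2).ne'
        rw [mg0, inner_smul_right, real_inner_self_eq_norm_sq, norm_smul, mul_pow,
          Real.norm_eq_abs, sq_abs, div_pow, eq_div_iff h6, sub_mul, div_mul_cancel₀ _ h6, h2]
        ring) hs hν
    refine le_trans (le_of_eq ?_) h1
    refine lintegral_congr fun y => ?_
    congr 1
    rw [wS_gradient, rho0, one_div]
    congr 1
    have h2 := vf_uu_sq y
    have h4 : ‖dm0 y ((2 : ℝ) • y)‖ ^ 2 = (2 * uu y * ‖y‖) ^ 2 := by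
      rw [norm_dm0_sq, inner_smul_right, real_inner_self_eq_norm_sq, norm_smul, mul_pow,
        Real.norm_eq_abs, sq_abs, mul_pow, mul_pow, mul_pow, h2]
      ring
    exact (pow_left_inj₀ (norm_nonneg _) (by have := vf_uu_pos y; positivity) two_ne_zero).1 h4

end

end Pool.Agent.Work.MP_3b24f6_gt
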