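import Mathlib

/-! Lengths of curves in a chart, the compact case and the flat case of the trichotomy. -/

set_option autoImplicit false

open Set Filter Topology
open scoped InnerProductSpace

namespace Pool.Agent.Work.MP_3b24f6_gt.Ray

section len

variable {E : Type*} [NormedAddCommGroup E] [NormedSpace ℝ E] {M : Type*} [MetricSpace M]
  {e : E → M} {g : E → E →L[ℝ] E →L[ℝ] ℝ}

/-- Upper comparison of the distance of `M` with the norm of `g`, locally. -/
def UpperNear (e : E → M) (g : E → E →L[ℝ] E →L[ℝ] ℝ) : Prop :=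
  ∀ x₀ : E, ∀ ε : ℝ, 0 < ε → ∃ δ : ℝ, 0 < δ ∧ ∀ x ∈ Metric.ball x₀ δ, ∀ y ∈ Metric.ball x₀ δ,
    dist (e x) (e y) ≤ (1 + ε) * Real.sqrt (g x₀ (x - y) (x - y))

/-- Lower comparison of the distance of `M` with the norm of `g`, locally. -/
def LowerNear (e : E → M) (g : E → E →L[ℝ] E →L[ℝ] ℝ) : Prop :=
  ∀ x₀ : E, ∀ ε : ℝ, 0 < ε → ∃ δ : ℝ, 0 < δ ∧ ∀ x ∈ Metric.ball x₀ δ, ∀ y ∈ Metric.ball x₀ δ,
    (1 - ε) * Real.sqrt (g x₀ (x - y) (x - y)) ≤ dist (e x) (e y)

theorem UpperNear.continuous (h : UpperNear e g) : Continuous e := by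
  rw [continuous_iff_continuousAt]
  intro x₀
  obtain ⟨δ, hδ, H⟩ := h x₀ 1 one_pos
  rw [ContinuousAt, tendsto_iff_dist_tendsto_zero]
  have h1 : Tendsto (fun x => (1 + 1) * Real.sqrt (g x₀ (x - x₀) (x - x₀))) (𝓝 x₀) (𝓝 0) := by
    have hc : Continuous fun x => (1 + 1) * Real.sqrt (g x₀ (x - x₀) (x - x₀)) := by fun_prop
    have := hc.tendsto x₀
    simpa using this
  refine squeeze_zero' (Eventually.of_forall fun _ => dist_nonneg) ?_ h1
  filter_upwards [Metric.ball_mem_nhds x₀ hδ] with x hx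
  exact H x hx x₀ (Metric.mem_ball_self hδ)

/-- Length bound for a curve. -/
theorem dist_le_of_speed (h : UpperNear e g) {γ γ' : ℝ → E} {a b C : ℝ} (hab : a ≤ b)
    (hC : 0 ≤ C) (hγ : ∀ s ∈ Icc a b, HasDerivAt γ (γ' s) s)
    (hs : ∀ s ∈ Icc a b, g (γ s) (γ' s) (γ' s) ≤ C ^ 2) :
    dist (e (γ a)) (e (γ b)) ≤ C * (b - a) := by
  have hce := h.continuous
  have hcγ : ContinuousOn γ (Icc a b) := fun s hs' => (hγ s hs').continuousAt.continuousWithinAt
  have key := image_le_of_liminf_slope_right_le_deriv_boundary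
    (f := fun s => dist (e (γ a)) (e (γ s))) (a := a) (b := b)
    (B := fun s => C * (s - a)) (B' := fun _ => C)
    ((continuous_const.dist hce).comp_continuousOn hcγ) (by simp)
    (by fun_prop) (fun s _ => by
      have := ((hasDerivAt_id s).sub_const a).const_mul C
      simpa using this.hasDerivWithinAt) ?_
  · exact key (right_mem_Icc.2 hab)
  intro s hs' r hr
  refine Filter.Eventually.frequently ?_
  have hsI : s ∈ Icc a b := ⟨hs'.1, hs'.2.le⟩
  -- choose ε with (1 + ε) * C < r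
  obtain ⟨ε, hε, hεr⟩ : ∃ ε : ℝ, 0 < ε ∧ (1 + ε) * C < r := by
    have hc : Tendsto (fun ε : ℝ => (1 + ε) * C) (𝓝[>] 0) (𝓝 ((1 + 0) * C)) := by
      have : Continuous fun ε : ℝ => (1 + ε) * C := by fun_prop
      exact (this.tendsto 0).mono_left nhdsWithin_le_nhds
    rw [add_zero, one_mul] at hc
    obtain ⟨ε, h1, h2⟩ := ((hc.eventually_lt_const hr).and self_mem_nhdsWithin).exists
    exact ⟨ε, h2, h1⟩
  obtain ⟨δ, hδ, H⟩ := h (γ s) ε hε
  have hsl : Tendsto (slope γ s) (𝓝[>] s) (𝓝 (γ' s)) :=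
    (hasDerivAt_iff_tendsto_slope.1 (hγ s hsI)).mono_left
      (nhdsWithin_mono _ fun z hz => ne_of_gt hz)
  have hq : Tendsto (fun z => (1 + ε) * Real.sqrt (g (γ s) (slope γ s z) (slope γ s z)))
      (𝓝[>] s) (𝓝 ((1 + ε) * Real.sqrt (g (γ s) (γ' s) (γ' s)))) := by
    have hc : Continuous fun u : E => (1 + ε) * Real.sqrt (g (γ s) u u) := by fun_prop
    exact (hc.tendsto _).comp hsl
  have hlt : (1 + ε) * Real.sqrt (g (γ s) (γ' s) (γ' s)) < r := by
    refine lt_of_le_of_lt ?_ hεr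
    refine mul_le_mul_of_nonneg_left ?_ (by linarith)
    rw [Real.sqrt_le_left hC]
    exact hs s hsI
  have hball : ∀ᶠ z in 𝓝[>] s, γ z ∈ Metric.ball (γ s) δ :=
    ((hγ s hsI).continuousAt.eventually (Metric.ball_mem_nhds _ hδ)).filter_mono
      nhdsWithin_le_nhds
  filter_upwards [hq.eventually_lt_const hlt, hball, self_mem_nhdsWithin] with z hz1 hz2 hz3
  have hpos : 0 < z - s := sub_pos.2 hz3
  have h1 : dist (e (γ s)) (e (γ z)) ≤ (1 + ε) * Real.sqrt (g (γ s) (γ z - γ s) (γ z - γ s)) := by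
    have := H (γ z) hz2 (γ s) (Metric.mem_ball_self hδ)
    rwa [dist_comm]
  have h2 : γ z - γ s = (z - s) • slope γ s z := by
    rw [slope_def_module, smul_smul, mul_inv_cancel₀ hpos.ne', one_smul]
  have h3 : Real.sqrt (g (γ s) (γ z - γ s) (γ z - γ s))
      = (z - s) * Real.sqrt (g (γ s) (slope γ s z) (slope γ s z)) := by
    rw [h2]
    simp only [map_smul, smul_apply, smul_eq_mul]
    rw [← mul_assoc, Real.sqrt_mul (mul_self_nonneg _), Real.sqrt_mul_self hpos.le]
  have h4 : dist (e (γ a)) (e (γ z)) ≤ dist (e (γ a)) (e (γ s)) + dist (e (γ s)) (e (γ z)) :=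
    dist_triangle _ _ _
  have h5 : slope (fun s => dist (e (γ a)) (e (γ s))) s z
      ≤ (1 + ε) * Real.sqrt (g (γ s) (slope γ s z) (slope γ s z)) := by
    rw [slope_def_field, div_le_iff₀ hpos]
    rw [h3] at h1
    have : (1 + ε) * ((z - s) * Real.sqrt (g (γ s) (slope γ s z) (slope γ s z)))
        = (1 + ε) * Real.sqrt (g (γ s) (slope γ s z) (slope γ s z)) * (z - s) := by ring
    linarith
  exact lt_of_le_of_lt h5 hz1

end len

section excl

variable {E : Type*} [NormedAddCommGroup E] [InnerProductSpace ℝ E]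
  {M : Type*} [MetricSpace M] {e : E → M} {g : E → E →L[ℝ] E →L[ℝ] ℝ}

/-- Antipodal points of a sphere, distance at most the length of a half circle. -/
theorem half_circle (h : UpperNear e g) {x v : E} (hx : ‖x‖ = 1) (hv : ‖v‖ = 1)
    (hxv : ⟪x, v⟫_ℝ = 0) {C : ℝ} (hC0 : 0 ≤ C) (t : ℝ)
    (hC : ∀ (y w : E), ‖y‖ = 1 → ‖w‖ = 1 → ⟪y, w⟫_ℝ = 0 →
      g (t • y) (t • w) (t • w) ≤ C ^ 2) :
    dist (e (t • x)) (e (-t • x)) ≤ C * Real.pi := by
  have hyn : ∀ s : ℝ, ‖Real.cos s • x + Real.sin s • v‖ = 1 := by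
    intro s
    have h1 : ‖Real.cos s • x + Real.sin s • v‖ ^ 2 = 1 := by
      rw [norm_add_sq_real, inner_smul_left, inner_smul_right, hxv, norm_smul, norm_smul, hx, hv,
        mul_one, mul_one, Real.norm_eq_abs, Real.norm_eq_abs, sq_abs, sq_abs]
      simp only [mul_zero, add_zero]
      exact Real.cos_sq_add_sin_sq s
    have h2 := norm_nonneg (Real.cos s • x + Real.sin s • v)
    nlinarith [h1, h2, sq_nonneg (‖Real.cos s • x + Real.sin s • v‖ - 1)]
  have hwn : ∀ s : ℝ, ‖-Real.sin s • x + Real.cos s • v‖ = 1 := by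
    intro s
    have h1 : ‖-Real.sin s • x + Real.cos s • v‖ ^ 2 = 1 := by
      rw [norm_add_sq_real, inner_smul_left, inner_smul_right, hxv, norm_smul, norm_smul, hx, hv,
        mul_one, mul_one, Real.norm_eq_abs, Real.norm_eq_abs, sq_abs, sq_abs]
      simp only [mul_zero, add_zero, neg_sq]
      exact Real.sin_sq_add_cos_sq s
    have h2 := norm_nonneg (-Real.sin s • x + Real.cos s • v)
    nlinarith [h1, h2, sq_nonneg (‖-Real.sin s • x + Real.cos s • v‖ - 1)]
  have hort : ∀ s : ℝ, ⟪Real.cos s • x + Real.sin s • v, -Real.sin s • x + Real.cos s • v⟫_ℝ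
      = 0 := by
    intro s
    rw [inner_add_left, inner_add_right, inner_add_right]
    simp only [inner_smul_left, inner_smul_right, real_inner_self_eq_norm_sq, hx, hv, hxv,
      real_inner_comm x v, conj_trivial]
    ring
  have hγ : ∀ s ∈ Icc (0 : ℝ) Real.pi, HasDerivAt
      (fun s : ℝ => t • (Real.cos s • x + Real.sin s • v))
      (t • (-Real.sin s • x + Real.cos s • v)) s := fun s _ =>
    (((Real.hasDerivAt_cos s).smul_const x).add ((Real.hasDerivAt_sin s).smul_const v)).const_smul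
      t
  have h1 := dist_le_of_speed h Real.pi_pos.le hC0 hγ
    (fun s _ => hC _ _ (hyn s) (hwn s) (hort s))
  have e1 : t • (Real.cos 0 • x + Real.sin 0 • v) = t • x := by simp
  have e2 : t • (Real.cos Real.pi • x + Real.sin Real.pi • v) = -t • x := by simp
  simp only [e1, e2, sub_zero] at h1
  exact h1

/-- Compact case: the spheres cannot have bounded metric. -/
theorem false_of_bounded (h : UpperNear e g) {x v : E} (hx : ‖x‖ = 1) (hv : ‖v‖ = 1)
    (hxv : ⟪x, v⟫_ℝ = 0) (hdist : ∀ t : ℝ, 0 ≤ t → dist (e (t • x)) (e (-t • x)) = 2 * t) {C : ℝ}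
    (hC : ∀ (y w : E) (t : ℝ), ‖y‖ = 1 → ‖w‖ = 1 → ⟪y, w⟫_ℝ = 0 →
      g (t • y) (t • w) (t • w) ≤ C ^ 2) : False := by
  wlog hC0 : 0 ≤ C generalizing C with H
  · exact H (C := |C|) (fun y w t h1 h2 h3 => by rw [sq_abs]; exact hC y w t h1 h2 h3)
      (abs_nonneg C)
  have key : ∀ t : ℝ, 0 ≤ t → 2 * t ≤ C * Real.pi := by
    intro t ht
    rw [← hdist t ht]
    exact half_circle h hx hv hxv hC0 t fun y w h1 h2 h3 => hC y w t h1 h2 h3
  have h3 := key (C * Real.pi + 1) (by positivity)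
  have h4 : 0 ≤ C * Real.pi := by positivity
  linarith

/-- Flat case: `e` is an isometry. -/
theorem dist_eq_of_flat (e : E ≃ₜ M) (h : UpperNear e g) (h' : LowerNear e g)
    (hseg : ∀ p q : M, ∃ σ : ℝ → M, σ 0 = p ∧ σ (dist p q) = q ∧
      ∀ s ∈ Icc 0 (dist p q), ∀ t ∈ Icc 0 (dist p q), dist (σ s) (σ t) = |s - t|)
    (hflat : ∀ y u, g y u u = ⟪u, u⟫_ℝ) (y z : E) : dist (e y) (e z) = dist y z := by
  have hnorm : ∀ y u, Real.sqrt (g y u u) = ‖u‖ := fun y u => by
    rw [hflat, real_inner_self_eq_norm_sq, Real.sqrt_sq (norm_nonneg _)]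
  refine le_antisymm ?_ ?_
  · have hγ : ∀ s ∈ Icc (0 : ℝ) 1, HasDerivAt (fun s : ℝ => y + s • (z - y)) (z - y) s := by
      intro s _
      have := ((hasDerivAt_id s).smul_const (z - y)).const_add y
      simpa using this
    have h1 := dist_le_of_speed h zero_le_one (norm_nonneg (z - y)) hγ (fun s _ => by
      rw [hflat, real_inner_self_eq_norm_sq])
    simp only [zero_smul, add_zero, one_smul, add_sub_cancel, sub_zero, mul_one] at h1
    rwa [dist_comm y z, dist_eq_norm]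
  · obtain ⟨σ, hσ0, hσ1, hσ⟩ := hseg (e y) (e z)
    set D := dist (e y) (e z) with hD
    have hD0 : 0 ≤ D := dist_nonneg
    have hσc : ContinuousOn σ (Icc 0 D) := by
      have : LipschitzOnWith 1 σ (Icc 0 D) := LipschitzOnWith.of_dist_le_mul fun s hs t ht => by
        rw [hσ s hs t ht, Real.dist_eq]; simp
      exact this.continuousOn
    have hc : ContinuousOn (fun s => e.symm (σ s)) (Icc 0 D) :=
      e.symm.continuous.comp_continuousOn hσc
    have key := image_le_of_liminf_slope_right_le_deriv_boundary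
      (f := fun s => dist y (e.symm (σ s))) (a := 0) (b := D)
      (B := fun s => s) (B' := fun _ => 1)
      ((continuous_const.dist continuous_id).comp_continuousOn hc) (by simp [hσ0])
      continuousOn_id (fun s _ => (hasDerivAt_id s).hasDerivWithinAt) ?_
    · have := key (right_mem_Icc.2 hD0)
      simpa [hσ1] using this
    intro s hs r hr
    refine Filter.Eventually.frequently ?_
    have hsI : s ∈ Icc 0 D := ⟨hs.1, hs.2.le⟩
    obtain ⟨ε, hε, hε1, hεr⟩ : ∃ ε : ℝ, 0 < ε ∧ ε < 1 ∧ 1 < r * (1 - ε) := by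
      have hcl : Tendsto (fun ε : ℝ => r * (1 - ε)) (𝓝[>] 0) (𝓝 (r * (1 - 0))) := by
        have : Continuous fun ε : ℝ => r * (1 - ε) := by fun_prop
        exact (this.tendsto 0).mono_left nhdsWithin_le_nhds
      rw [sub_zero, mul_one] at hcl
      have h1 : ∀ᶠ ε : ℝ in 𝓝[>] 0, ε < 1 :=
        (eventually_lt_nhds one_pos).filter_mono nhdsWithin_le_nhds
      obtain ⟨ε, h1, h2, h3⟩ :=
        ((hcl.eventually_const_lt hr).and (h1.and self_mem_nhdsWithin)).exists
      exact ⟨ε, h3, h2, h1⟩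
    obtain ⟨δ, hδ, H⟩ := h' (e.symm (σ s)) ε hε
    have hcw : Tendsto (fun z => e.symm (σ z)) (𝓝[>] s) (𝓝 (e.symm (σ s))) := by
      have h1 : ContinuousWithinAt (fun z => e.symm (σ z)) (Icc 0 D) s := hc s hsI
      have h2 : 𝓝[>] s ≤ 𝓝[Icc 0 D] s := by
        rw [← nhdsWithin_Ioc_eq_nhdsGT hs.2]
        exact nhdsWithin_mono _ fun z hz => ⟨hs.1.trans hz.1.le, hz.2⟩
      exact h1.tendsto.mono_left h2
    have hIoc : ∀ᶠ z in 𝓝[>] s, z ∈ Ioc s D := Ioc_mem_nhdsGT hs.2
    filter_upwards [hcw.eventually (Metric.ball_mem_nhds _ hδ), hIoc] with z hz1 hz2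
    have hpos : 0 < z - s := sub_pos.2 hz2.1
    have hzI : z ∈ Icc 0 D := ⟨hs.1.trans hz2.1.le, hz2.2⟩
    have h1 := H _ (Metric.mem_ball_self hδ) _ hz1
    rw [hnorm, e.apply_symm_apply, e.apply_symm_apply, hσ s hsI z hzI, abs_sub_comm,
      abs_of_pos hpos, ← dist_eq_norm] at h1
    have h2 : dist y (e.symm (σ z)) ≤ dist y (e.symm (σ s)) + dist (e.symm (σ s)) (e.symm (σ z)) :=
      dist_triangle _ _ _
    show slope (fun s => dist y (e.symm (σ s))) s z < r
    rw [slope_def_field, div_lt_iff₀ hpos]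
    have h3 : dist (e.symm (σ s)) (e.symm (σ z)) < r * (z - s) := by
      by_contra hcon
      have h4 : r * (z - s) ≤ dist (e.symm (σ s)) (e.symm (σ z)) := not_lt.1 hcon
      have h5 : (1 - ε) * (r * (z - s)) ≤ z - s :=
        (mul_le_mul_of_nonneg_left h4 (by linarith)).trans h1
      nlinarith
    linarith

/-- Flat case: the manifold is isometric to Euclidean space. -/
theorem nonempty_isometryEquiv_of_flat (e : E ≃ₜ M) (h : UpperNear e g) (h' : LowerNear e g)
    (hseg : ∀ p q : M, ∃ σ : ℝ → M, σ 0 = p ∧ σ (dist p q) = q ∧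
      ∀ s ∈ Icc 0 (dist p q), ∀ t ∈ Icc 0 (dist p q), dist (σ s) (σ t) = |s - t|)
    (hflat : ∀ y u, g y u u = ⟪u, u⟫_ℝ) : Nonempty (M ≃ᵢ E) :=
  ⟨(IsometryEquiv.mk e.toEquiv
    (Isometry.of_dist_eq fun y z => dist_eq_of_flat e h h' hseg hflat y z)).symm⟩

end excl

end Pool.Agent.Work.MP_3b24f6_gt.Ray
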