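import Pool.Agent.Work.MP_3b24f6_gt.S.Glob
import Pool.Agent.Work.MP_3b24f6_gt.S.RayExcl

set_option autoImplicit false

open Set Filter Topology
open scoped ContDiff InnerProductSpace

/-! The flat case of the trichotomy, and the unboundedness of the spheres. -/

namespace Pool.Agent.Work.MP_3b24f6_gt.S

variable {E : Type*} [NormedAddCommGroup E] [InnerProductSpace ℝ E]
variable {M : Type*} [MetricSpace M]

/-- (P1) without `Glob`. -/
def NearP1 (g : E → E →L[ℝ] E →L[ℝ] ℝ) (F : E → M) : Prop :=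
  ∀ x₀ : E, ∀ ε : ℝ, 0 < ε → ∃ δ : ℝ, 0 < δ ∧ ∀ x ∈ Metric.ball x₀ δ,
    ∀ y ∈ Metric.ball x₀ δ,
      (1 - ε) * Real.sqrt (g x₀ (x - y) (x - y)) ≤ dist (F x) (F y) ∧
      dist (F x) (F y) ≤ (1 + ε) * Real.sqrt (g x₀ (x - y) (x - y))

theorem NearP1.upper {g : E → E →L[ℝ] E →L[ℝ] ℝ} {F : E → M} (h : NearP1 g F) :
    Ray.UpperNear F g := by
  intro x₀ ε hε
  obtain ⟨δ, hδ, H⟩ := h x₀ ε hε
  exact ⟨δ, hδ, fun x hx y hy => (H x hx y hy).2⟩

theorem NearP1.lower {g : E → E →L[ℝ] E →L[ℝ] ℝ} {F : E → M} (h : NearP1 g F) :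
    Ray.LowerNear F g := by
  intro x₀ ε hε
  obtain ⟨δ, hδ, H⟩ := h x₀ ε hε
  exact ⟨δ, hδ, fun x hx y hy => (H x hx y hy).1⟩

theorem Glob.nearP1 {g : E → E →L[ℝ] E →L[ℝ] ℝ} {F : E → M} (h : Glob g F) : NearP1 g F :=
  h.near

/-- Minimal segments between any two points. -/
theorem exists_segment_of_line {F : E → M} (hF : Function.Surjective F)
    (h0 : ∀ y, dist (F 0) (F y) = ‖y‖)
    (hl : ∀ x : E, ‖x‖ = 1 → ∀ s t : ℝ, dist (F (s • x)) (F (t • x)) = |s - t|)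
    (hm : ∀ p : M, ∃ φ : M ≃ᵢ M, φ (F 0) = p) (p q : M) :
    ∃ σ : ℝ → M, σ 0 = p ∧ σ (dist p q) = q ∧
      ∀ s ∈ Icc 0 (dist p q), ∀ t ∈ Icc 0 (dist p q), dist (σ s) (σ t) = |s - t| := by
  obtain ⟨φ, hφ⟩ := hm p
  obtain ⟨y, hy⟩ := hF (φ.symm q)
  have hq : φ (F y) = q := by rw [hy, φ.apply_symm_apply]
  have hd : dist p q = ‖y‖ := by rw [← hφ, ← hq, φ.dist_eq, h0]
  rcases eq_or_ne y 0 with rfl | hne
  · refine ⟨fun _ => p, rfl, ?_, ?_⟩
    · show p = q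
      rw [← hq, hφ]
    · intro s hs t ht
      rw [hd, norm_zero] at hs ht
      have hs0 : s = 0 := le_antisymm hs.2 hs.1
      have ht0 : t = 0 := le_antisymm ht.2 ht.1
      rw [hs0, ht0]; simp
  · have hn : 0 < ‖y‖ := norm_pos_iff.2 hne
    have hx : ‖‖y‖⁻¹ • y‖ = 1 := by
      rw [norm_smul, norm_inv, norm_norm, inv_mul_cancel₀ hn.ne']
    refine ⟨fun s => φ (F (s • (‖y‖⁻¹ • y))), ?_, ?_, ?_⟩
    · show φ (F ((0 : ℝ) • (‖y‖⁻¹ • y))) = p
      rw [zero_smul, hφ]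
    · show φ (F (dist p q • (‖y‖⁻¹ • y))) = q
      rw [hd, smul_smul, mul_inv_cancel₀ hn.ne', one_smul, hq]
    · intro s _ t _
      show dist (φ (F (s • (‖y‖⁻¹ • y)))) (φ (F (t • (‖y‖⁻¹ • y)))) = |s - t|
      rw [φ.dist_eq, hl _ hx]

/-- Flat metric: `M` is isometric to Euclidean space. -/
theorem flat_isom {g : E → E →L[ℝ] E →L[ℝ] ℝ} {F : E → M} (h : Glob g F)
    (hf : ∀ y v, g y v v = ‖v‖ ^ 2) : Nonempty (M ≃ᵢ E) := by
  let e : E ≃ₜ M := h.homeo.homeomorph F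
  have he : (e : E → M) = F := rfl
  refine Ray.nonempty_isometryEquiv_of_flat e (g := g) h.nearP1.upper h.nearP1.lower
    (exists_segment_of_line h.homeo.surjective h.dist_zero h.line h.move) fun y u => ?_
  rw [hf, real_inner_self_eq_norm_sq]

/-- Unboundedness of the spheres. -/
theorem unb_of_nearP1 [FiniteDimensional ℝ E] (hE : 2 ≤ Module.finrank ℝ E)
    {g : E → E →L[ℝ] E →L[ℝ] ℝ} {F : E → M} (hg : Continuous g) (hpos : ∀ y v, 0 ≤ g y v v)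
    (h : NearP1 g F)
    (hl : ∀ x : E, ‖x‖ = 1 → ∀ s t : ℝ, dist (F (s • x)) (F (t • x)) = |s - t|)
    {t : ℝ} (ht : 0 < t) :
    ∃ x v : E, ‖x‖ = 1 ∧ ‖v‖ = 1 ∧ ⟪x, v⟫_ℝ = 0 ∧
      (2 * t / Real.pi) ^ 2 ≤ g (t • x) (t • v) (t • v) := by
  -- the compact set of orthonormal pairs
  let K : Set (E × E) := {p | ‖p.1‖ = 1 ∧ ‖p.2‖ = 1 ∧ ⟪p.1, p.2⟫_ℝ = 0}
  have hKcl : IsClosed K := by
    refine IsClosed.inter (isClosed_eq (by fun_prop) continuous_const)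
      (IsClosed.inter (isClosed_eq (by fun_prop) continuous_const)
        (isClosed_eq (by fun_prop) continuous_const))
  have hKc : IsCompact K := by
    refine Metric.isCompact_of_isClosed_isBounded hKcl ?_
    rw [isBounded_iff_forall_norm_le]
    refine ⟨1, fun p hp => ?_⟩
    rw [Prod.norm_def]
    exact max_le hp.1.le hp.2.1.le
  have hKne : K.Nonempty := by
    have h1 : 0 < Module.finrank ℝ E := by omega
    have h2 : 1 < Module.finrank ℝ E := by omega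
    let b := stdOrthonormalBasis ℝ E
    refine ⟨(b ⟨0, h1⟩, b ⟨1, h2⟩), b.orthonormal.1 _, b.orthonormal.1 _, ?_⟩
    exact b.orthonormal.2 (by simp)
  have hcont : ContinuousOn (fun p : E × E => g (t • p.1) (t • p.2) (t • p.2)) K := by
    have h1 : Continuous fun p : E × E => g (t • p.1) := hg.comp (by fun_prop)
    have h2 : Continuous fun p : E × E => t • p.2 := by fun_prop
    exact ((h1.clm_apply h2).clm_apply h2).continuousOn
  obtain ⟨p, hpK, hmax⟩ := hKc.exists_isMaxOn hKne hcont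
  refine ⟨p.1, p.2, hpK.1, hpK.2.1, hpK.2.2, ?_⟩
  set m : ℝ := g (t • p.1) (t • p.2) (t • p.2) with hm
  have hm0 : 0 ≤ m := hpos _ _
  have hbd : ∀ y w : E, ‖y‖ = 1 → ‖w‖ = 1 → ⟪y, w⟫_ℝ = 0 →
      g (t • y) (t • w) (t • w) ≤ Real.sqrt m ^ 2 := by
    intro y w h1 h2 h3
    rw [Real.sq_sqrt hm0]
    exact hmax (show (y, w) ∈ K from ⟨h1, h2, h3⟩)
  have hdist : dist (F (t • p.1)) (F (-t • p.1)) ≤ Real.sqrt m * Real.pi :=
    Ray.half_circle h.upper hpK.1 hpK.2.1 hpK.2.2 (Real.sqrt_nonneg _) t hbd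
  rw [hl p.1 hpK.1] at hdist
  have e1 : |t - -t| = 2 * t := by
    rw [sub_neg_eq_add, abs_of_pos (by linarith)]; ring
  rw [e1] at hdist
  have h1 : 2 * t / Real.pi ≤ Real.sqrt m := by
    rw [div_le_iff₀ Real.pi_pos]; exact hdist
  calc (2 * t / Real.pi) ^ 2 ≤ Real.sqrt m ^ 2 :=
        pow_le_pow_left₀ (by positivity) h1 2
    _ = m := Real.sq_sqrt hm0

end Pool.Agent.Work.MP_3b24f6_gt.S
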