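import Pool.Agent.Work.MP_3b24f6_gt.S.Sinh0
import Pool.Agent.Work.MP_3b24f6_gt.S.FVer

/-!
# The frozen statement in the real hyperbolic case, from the global normal chart
-/

set_option autoImplicit false

open MeasureTheory Set Filter Topology Metric Module Measure
open scoped ENNReal NNReal MeasureTheory ContDiff Manifold InnerProductSpace

namespace Pool.Agent.Work.MP_3b24f6_gt.S

open Pool.Agent.Work.MP_3b24f6_gt Pool.Agent.Work.MP_3b24f6_gt.Froz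

noncomputable section

/-- The frozen statement for a two-point homogeneous manifold with `l² g = sinh² (l r) |v|²`, from
the isoperimetric inequality of real hyperbolic space. -/
theorem frozen_hyp_of {d : ℕ} {M : Type*} [MetricSpace M] [MeasurableSpace M] [BorelSpace M]
    [ChartedSpace (EuclideanSpace ℝ (Fin d)) M] [ProperSpace M] (hd : 2 ≤ d)
    {g : EuclideanSpace ℝ (Fin d) → EuclideanSpace ℝ (Fin d) →L[ℝ]
        EuclideanSpace ℝ (Fin d) →L[ℝ] ℝ} (F : EuclideanSpace ℝ (Fin d) ≃ₜ M) (h : Glob g F)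
    (hF : ContMDiff (𝓡 d) (𝓡 d) ∞ F) (hF' : ContMDiff (𝓡 d) (𝓡 d) ∞ F.symm)
    {l : ℝ} (hl : 0 < l)
    (h0 : ∀ (x v : EuclideanSpace ℝ (Fin d)) (t : ℝ), ‖x‖ = 1 → ⟪x, v⟫_ℝ = 0 → 0 < t →
        l ^ 2 * g (t • x) (t • v) (t • v) = Real.sinh (l * t) ^ 2 * ‖v‖ ^ 2)
    (hI : ∀ A : Set (EuclideanSpace ℝ (Fin d)), MeasurableSet A → ∀ s : ℝ, 0 < s →
      (mu0 : Measure (EuclideanSpace ℝ (Fin d))) A
        = (mu0 : Measure (EuclideanSpace ℝ (Fin d))) (ball 0 s) →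
      area0 (ball (0 : EuclideanSpace ℝ (Fin d)) s) ≤ area0 A)
    (D : Set M) (hD : IsOpen D) (hb : Bornology.IsBounded D)
    (hfr : ∀ x ∈ frontier D, ∃ f : M → ℝ, ∃ U ∈ 𝓝 x,
      ContMDiffOn (𝓡 d) 𝓘(ℝ, ℝ) ∞ f U ∧ mfderiv (𝓡 d) 𝓘(ℝ, ℝ) f x ≠ 0 ∧
      ∀ y ∈ U, (y ∈ D ↔ f y < 0))
    (p : M) (r : ℝ) (hm : μH[(d : ℝ)] D = μH[(d : ℝ)] (ball p r)) :
    μH[(d : ℝ) - 1] (frontier (ball p r)) ≤ μH[(d : ℝ) - 1] (frontier D) := by
  set Ψ : EuclideanSpace ℝ (Fin d) ≃ₜ M := (sigH hl).symm.trans F with hΨdef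
  have hΨc : (Ψ : EuclideanSpace ℝ (Fin d) → M) = F ∘ sigInv l := rfl
  have hΨ : ContMDiff (𝓡 d) (𝓡 d) ∞ Ψ := hF.comp (contDiff_sigInv hl).contMDiff
  have hΨ' : ContMDiff (𝓡 d) (𝓡 d) ∞ Ψ.symm := (contDiff_sig l).contMDiff.comp hF'
  refine frozen_hyp hd hl Ψ hΨ hΨ' (fun φ x => ?_) (fun p => ?_) (fun y => ?_) ?_ hI D hD hb hfr
    p r hm
  · refine smooth_of_chart F hF hF' (fun φ ψ hψ => ?_) φ x
    obtain ⟨ψ', hψ', hc⟩ := h.isom φ
    have : ψ = ψ' := by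
      funext y
      apply F.injective
      rw [hψ y, hc y]
    rw [this]
    exact hψ'.smooth
  · obtain ⟨φ, hφ⟩ := h.move p
    refine ⟨φ.symm, ?_⟩
    rw [hΨc, Function.comp_apply, sigInv_zero, ← hφ, φ.symm_apply_apply]
  · rw [hΨc, Function.comp_apply, Function.comp_apply, sigInv_zero, h.dist_zero, norm_sigInv hl]
  · exact h.afHyp0 hl h0

end

end Pool.Agent.Work.MP_3b24f6_gt.S
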