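import Pool.Agent.Work.MP_3b24f6_gt.S.KillDefs

set_option autoImplicit false

open MeasureTheory Set Filter Topology
open scoped ContDiff InnerProductSpace

/-! Global normal coordinates of a two-point homogeneous space: definitions (interface between
the geometric part and the blocks C', E, F, G). -/

namespace Pool.Agent.Work.MP_3b24f6_gt.S

noncomputable section

variable {E : Type*} [NormedAddCommGroup E] [InnerProductSpace ℝ E]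

/-- Smooth isometries of the metric `g` on `E`. -/
structure IsIso (g : E → E →L[ℝ] E →L[ℝ] ℝ) (φ : E → E) : Prop where
  smooth : ContDiff ℝ ∞ φ
  inv : ∃ ψ : E → E, ContDiff ℝ ∞ ψ ∧ (∀ y, ψ (φ y) = y) ∧ ∀ y, φ (ψ y) = y
  pres : ∀ y u v, g (φ y) (fderiv ℝ φ y u) (fderiv ℝ φ y v) = g y u v

/-- A smooth metric on `E` in global normal coordinates. -/
structure NormG (g : E → E →L[ℝ] E →L[ℝ] ℝ) : Prop where
  smooth : ContDiff ℝ ∞ g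
  symm : ∀ y u v, g y u v = g y v u
  pos : ∀ y v, v ≠ 0 → 0 < g y v v
  g_zero : ∀ u v, g 0 u v = ⟪u, v⟫_ℝ
  gauss : ∀ y v, g y y v = ⟪y, v⟫_ℝ

/-- Two-point homogeneity of `(E, g)`, and unboundedness of the spheres. -/
structure Hom2 (g : E → E →L[ℝ] E →L[ℝ] ℝ) : Prop where
  norm : NormG g
  rot : ∀ x x' : E, ‖x‖ = 1 → ‖x'‖ = 1 → ∃ L : E ≃ₗᵢ[ℝ] E, IsIso g L ∧ L x = x'
  trans : ∀ x : E, ‖x‖ = 1 → ∀ s : ℝ, ∃ φ : E → E, IsIso g φ ∧ ∀ t : ℝ, φ (t • x) = (t + s) • x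
  /-- translation fields (block B6) -/
  field : ∀ x : E, ‖x‖ = 1 → ∃ X : E → E, IsKilling g X ∧ ∀ t : ℝ, X (t • x) = x
  /-- rotations (block B4) -/
  rotf : ∀ x v : E, ‖x‖ = 1 → ⟪x, v⟫_ℝ = 0 → ∃ A : E →L[ℝ] E,
    (∀ u w, ⟪A u, w⟫_ℝ = -⟪u, A w⟫_ℝ) ∧ IsKilling g A ∧ A x = v
  /-- the spheres are not bounded -/
  unb : ∀ t : ℝ, 0 < t → ∃ x v : E, ‖x‖ = 1 ∧ ‖v‖ = 1 ∧ ⟪x, v⟫_ℝ = 0 ∧
    (2 * t / Real.pi) ^ 2 ≤ g (t • x) (t • v) (t • v)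

variable {M : Type*} [MetricSpace M]

/-- `F` is a global normal chart of the metric space `M`, and `g` the metric of `M` in it. -/
structure Glob (g : E → E →L[ℝ] E →L[ℝ] ℝ) (F : E → M) : Prop where
  hom : Hom2 g
  homeo : IsHomeomorph F
  /-- (P1) -/
  near : ∀ x₀ : E, ∀ ε : ℝ, 0 < ε → ∃ δ : ℝ, 0 < δ ∧ ∀ x ∈ Metric.ball x₀ δ,
    ∀ y ∈ Metric.ball x₀ δ,
      (1 - ε) * Real.sqrt (g x₀ (x - y) (x - y)) ≤ dist (F x) (F y) ∧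
      dist (F x) (F y) ≤ (1 + ε) * Real.sqrt (g x₀ (x - y) (x - y))
  dist_zero : ∀ y, dist (F 0) (F y) = ‖y‖
  line : ∀ x : E, ‖x‖ = 1 → ∀ s t : ℝ, dist (F (s • x)) (F (t • x)) = |s - t|
  /-- isometries are smooth -/
  isom : ∀ φ : M ≃ᵢ M, ∃ ψ : E → E, IsIso g ψ ∧ ∀ y, φ (F y) = F (ψ y)
  /-- homogeneity -/
  move : ∀ p : M, ∃ φ : M ≃ᵢ M, φ (F 0) = p
  /-- smooth distance -/
  dist_smooth : ContDiff ℝ ∞ (fun q : E × E => dist (F q.1) (F q.2) ^ 2)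

end

end Pool.Agent.Work.MP_3b24f6_gt.S
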