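import Pool.Agent.Work.MP_3b24f6_gt.S.KillDefs

/-!
# Jets at the origin of Killing fields, and the action of linear isometries
-/

set_option autoImplicit false
set_option maxSynthPendingDepth 5

open scoped InnerProductSpace ContDiff

namespace Pool.Agent.Work.MP_3b24f6_gt.KJet

noncomputable section

section conj

variable {E : Type*} [NormedAddCommGroup E] [NormedSpace ℝ E]

/-- Push forward of a vector field by a linear isomorphism. -/
def push (L : E ≃L[ℝ] E) (X : E → E) : E → E := fun y => L (X (L.symm y))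

theorem fderiv_push (L : E ≃L[ℝ] E) {X : E → E} (hX : ContDiff ℝ ∞ X) (y u : E) :
    fderiv ℝ (push L X) y u = L (fderiv ℝ X (L.symm y) (L.symm u)) := by
  have hd : DifferentiableAt ℝ X (L.symm y) := (hX.differentiable (by simp)).differentiableAt
  have h1 : HasFDerivAt (push L X)
      ((L : E →L[ℝ] E).comp ((fderiv ℝ X (L.symm y)).comp (L.symm : E →L[ℝ] E))) y := by
    have h2 : HasFDerivAt (fun y => X (L.symm y))
        ((fderiv ℝ X (L.symm y)).comp (L.symm : E →L[ℝ] E)) y :=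
      hd.hasFDerivAt.comp y (L.symm : E →L[ℝ] E).hasFDerivAt
    exact (L : E →L[ℝ] E).hasFDerivAt.comp y h2
  rw [h1.fderiv]
  rfl

theorem contDiff_push (L : E ≃L[ℝ] E) {X : E → E} (hX : ContDiff ℝ ∞ X) :
    ContDiff ℝ ∞ (push L X) :=
  (L : E →L[ℝ] E).contDiff.comp (hX.comp (L.symm : E →L[ℝ] E).contDiff)

/-- Linear isometries preserve Killing fields. -/
theorem isKilling_push {g : E → E →L[ℝ] E →L[ℝ] ℝ} (hg : ContDiff ℝ ∞ g) (L : E ≃L[ℝ] E)
    (hL : ∀ y u v, g (L y) (L u) (L v) = g y u v) {X : E → E} (hX : IsKilling g X) :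
    IsKilling g (push L X) := by
  refine ⟨contDiff_push L hX.1, fun y u v => ?_⟩
  have hgd : ∀ z, HasFDerivAt g (fderiv ℝ g z) z := fun z =>
    ((hg.differentiable (by simp)).differentiableAt).hasFDerivAt
  have hfd : ∀ z w a b, fderiv ℝ g (L z) (L w) (L a) (L b) = fderiv ℝ g z w a b := by
    intro z w a b
    have h1 : HasFDerivAt (fun z => g (L z) (L a) (L b))
        (((ContinuousLinearMap.apply ℝ ℝ (L b)).comp
          ((ContinuousLinearMap.apply ℝ (E →L[ℝ] ℝ) (L a)).comp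
            ((fderiv ℝ g (L z)).comp (L : E →L[ℝ] E))))) z :=
      (ContinuousLinearMap.apply ℝ ℝ (L b)).hasFDerivAt.comp z
        ((ContinuousLinearMap.apply ℝ (E →L[ℝ] ℝ) (L a)).hasFDerivAt.comp z
          ((hgd (L z)).comp z L.hasFDerivAt))
    have h2 : HasFDerivAt (fun z => g z a b)
        (((ContinuousLinearMap.apply ℝ ℝ b).comp
          ((ContinuousLinearMap.apply ℝ (E →L[ℝ] ℝ) a).comp (fderiv ℝ g z)))) z :=
      (ContinuousLinearMap.apply ℝ ℝ b).hasFDerivAt.comp z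
        ((ContinuousLinearMap.apply ℝ (E →L[ℝ] ℝ) a).hasFDerivAt.comp z (hgd z))
    have h3 : (fun z => g (L z) (L a) (L b)) = fun z => g z a b := by
      funext z
      exact hL z a b
    rw [h3] at h1
    have h4 := congrArg (fun T : E →L[ℝ] ℝ => T w) (h1.unique h2)
    simpa using h4
  have hk := hX.2 (L.symm y) (L.symm u) (L.symm v)
  rw [fderiv_push L hX.1, fderiv_push L hX.1]
  unfold push
  have e1 := hfd (L.symm y) (X (L.symm y)) (L.symm u) (L.symm v)
  have e2 := hL (L.symm y) (fderiv ℝ X (L.symm y) (L.symm u)) (L.symm v)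
  have e3 := hL (L.symm y) (L.symm u) (fderiv ℝ X (L.symm y) (L.symm v))
  simp only [ContinuousLinearEquiv.apply_symm_apply] at e1 e2 e3
  rw [e1, e2, e3]
  exact hk

/-- Push forward preserves brackets. -/
theorem push_lieBracket (L : E ≃L[ℝ] E) {X Y : E → E} (hX : ContDiff ℝ ∞ X)
    (hY : ContDiff ℝ ∞ Y) :
    push L (VectorField.lieBracket ℝ X Y) = VectorField.lieBracket ℝ (push L X) (push L Y) := by
  funext y
  simp only [VectorField.lieBracket]
  rw [fderiv_push L hX, fderiv_push L hY]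
  simp [push, VectorField.lieBracket]

end conj

section jet

variable {E : Type*} [NormedAddCommGroup E] [InnerProductSpace ℝ E]
  {g : E → E →L[ℝ] E →L[ℝ] ℝ}

/-- Killing fields have skew derivative at the origin. -/
theorem skew (h0 : ∀ u v, g 0 u v = ⟪u, v⟫_ℝ) (hD : fderiv ℝ g 0 = 0) {X : E → E}
    (hX : IsKilling g X) (u v : E) :
    ⟪fderiv ℝ X 0 u, v⟫_ℝ = -⟪u, fderiv ℝ X 0 v⟫_ℝ := by
  have h := hX.2 0 u v
  rw [hD, h0, h0] at h
  simp at h
  linarith

/-- Killing fields vanishing at the origin have no second order part. -/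
theorem d2_zero (hg : ContDiff ℝ ∞ g) (h0 : ∀ u v, g 0 u v = ⟪u, v⟫_ℝ)
    (hD : fderiv ℝ g 0 = 0) {k : E → E} (hk : IsKilling g k) (hk0 : k 0 = 0) :
    fderiv ℝ (fderiv ℝ k) 0 = 0 := by
  have hkd : ∀ z, HasFDerivAt k (fderiv ℝ k z) z := fun z =>
    ((hk.1.differentiable (by simp)).differentiableAt).hasFDerivAt
  have hk1 : ContDiff ℝ ∞ (fderiv ℝ k) := hk.1.fderiv_right (m := ∞) (by simp)
  have hkdd : ∀ z, HasFDerivAt (fderiv ℝ k) (fderiv ℝ (fderiv ℝ k) z) z := fun z =>
    ((hk1.differentiable (by simp)).differentiableAt).hasFDerivAt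
  have hg1 : ContDiff ℝ ∞ (fderiv ℝ g) := hg.fderiv_right (m := ∞) (by simp)
  have hgd : ∀ z, HasFDerivAt g (fderiv ℝ g z) z := fun z =>
    ((hg.differentiable (by simp)).differentiableAt).hasFDerivAt
  have hgdd : ∀ z, HasFDerivAt (fderiv ℝ g) (fderiv ℝ (fderiv ℝ g) z) z := fun z =>
    ((hg1.differentiable (by simp)).differentiableAt).hasFDerivAt
  have key : ∀ w u v, ⟪fderiv ℝ (fderiv ℝ k) 0 w u, v⟫_ℝ
      = -⟪fderiv ℝ (fderiv ℝ k) 0 w v, u⟫_ℝ := by
    intro w u v
    -- derivative of the Killing equation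
    have a1 : HasFDerivAt (fun y => fderiv ℝ g y (k y)) _ 0 := (hgdd 0).clm_apply (hkd 0)
    have a2 : HasFDerivAt (fun y => fderiv ℝ g y (k y) u) _ 0 := a1.clm_apply (hasFDerivAt_const u 0)
    have a3 : HasFDerivAt (fun y => fderiv ℝ g y (k y) u v) _ 0 :=
      a2.clm_apply (hasFDerivAt_const v 0)
    have b1 : HasFDerivAt (fun y => fderiv ℝ k y u) _ 0 := (hkdd 0).clm_apply (hasFDerivAt_const u 0)
    have b2 : HasFDerivAt (fun y => g y (fderiv ℝ k y u)) _ 0 := (hgd 0).clm_apply b1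
    have b3 : HasFDerivAt (fun y => g y (fderiv ℝ k y u) v) _ 0 :=
      b2.clm_apply (hasFDerivAt_const v 0)
    have c1 : HasFDerivAt (fun y => fderiv ℝ k y v) _ 0 := (hkdd 0).clm_apply (hasFDerivAt_const v 0)
    have c2 : HasFDerivAt (fun y => g y u) _ 0 := (hgd 0).clm_apply (hasFDerivAt_const u 0)
    have c3 : HasFDerivAt (fun y => g y u (fderiv ℝ k y v)) _ 0 := c2.clm_apply c1
    have hs := (a3.add b3).add c3
    have hz : (fun y => fderiv ℝ g y (k y) u v) + (fun y => g y (fderiv ℝ k y u) v)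
        + (fun y => g y u (fderiv ℝ k y v)) = fun _ => (0 : ℝ) := by
      funext y
      exact hk.2 y u v
    rw [hz] at hs
    have h4 := congrArg (fun T : E →L[ℝ] ℝ => T w) (hs.unique (hasFDerivAt_const (0 : ℝ) 0))
    simp [hk0, hD, h0] at h4
    rw [real_inner_comm u (fderiv ℝ (fderiv ℝ k) 0 w v)]
    linarith
  have sym : ∀ w u, fderiv ℝ (fderiv ℝ k) 0 w u = fderiv ℝ (fderiv ℝ k) 0 u w := by
    intro w u
    exact second_derivative_symmetric hkd (hkdd 0) w u
  ext w u
  refine ext_inner_right ℝ fun v => ?_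
  have e1 := key w u v
  have e2 := key u v w
  have e3 := key v w u
  rw [sym u v] at e2
  rw [sym v w] at e3
  rw [sym u w] at e2
  simp only [zero_apply, inner_zero_left]
  linarith

/-- Jet of the bracket with a field vanishing at the origin, order zero. -/
theorem bracket_zero {k X : E → E} (hk0 : k 0 = 0) :
    VectorField.lieBracket ℝ k X 0 = - fderiv ℝ k 0 (X 0) := by
  simp [VectorField.lieBracket, hk0]

/-- Jet of the bracket with a field vanishing at the origin, order one. -/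
theorem bracket_one (hg : ContDiff ℝ ∞ g) (h0 : ∀ u v, g 0 u v = ⟪u, v⟫_ℝ)
    (hD : fderiv ℝ g 0 = 0) {k X : E → E} (hk : IsKilling g k) (hX : IsKilling g X)
    (hk0 : k 0 = 0) (v : E) :
    fderiv ℝ (VectorField.lieBracket ℝ k X) 0 v
      = fderiv ℝ X 0 (fderiv ℝ k 0 v) - fderiv ℝ k 0 (fderiv ℝ X 0 v) := by
  have hkd : ∀ {Y : E → E}, IsKilling g Y → ∀ z, HasFDerivAt Y (fderiv ℝ Y z) z :=
    fun hY z => ((hY.1.differentiable (by simp)).differentiableAt).hasFDerivAt
  have hkdd : ∀ {Y : E → E}, IsKilling g Y → ∀ z,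
      HasFDerivAt (fderiv ℝ Y) (fderiv ℝ (fderiv ℝ Y) z) z := fun hY z =>
    (((hY.1.fderiv_right (m := ∞) (by simp)).differentiable (by simp)).differentiableAt).hasFDerivAt
  have h1 : HasFDerivAt (fun y => fderiv ℝ X y (k y)) _ 0 := (hkdd hX 0).clm_apply (hkd hk 0)
  have h2 : HasFDerivAt (fun y => fderiv ℝ k y (X y)) _ 0 := (hkdd hk 0).clm_apply (hkd hX 0)
  have h3 : HasFDerivAt (VectorField.lieBracket ℝ k X) _ 0 := h1.sub h2
  rw [h3.fderiv, d2_zero hg h0 hD hk hk0]
  simp [hk0]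

end jet

end

end Pool.Agent.Work.MP_3b24f6_gt.KJet
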