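import Mathlib

/-!
# The Killing form is negative definite on the isotropy algebra

Abstract version: `L` a finite dimensional real Lie algebra with jets `ev X = X(0)`, `D X = DX(0)`.
-/

set_option autoImplicit false

open scoped InnerProductSpace

namespace Pool.Agent.Work.MP_3b24f6_gt.S

noncomputable section

/-- The square of a skew endomorphism has nonpositive trace, and zero trace only for `T = 0`. -/
theorem trace_sq_of_skew {V : Type*} [AddCommGroup V] [Module ℝ V] [FiniteDimensional ℝ V]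
    (b : V →ₗ[ℝ] V →ₗ[ℝ] ℝ) (hs : ∀ x y, b x y = b y x) (hp : ∀ x, x ≠ 0 → 0 < b x x)
    (T : V →ₗ[ℝ] V) (hT : ∀ x y, b (T x) y = - b x (T y)) :
    LinearMap.trace ℝ V (T ∘ₗ T) ≤ 0 ∧ (LinearMap.trace ℝ V (T ∘ₗ T) = 0 → T = 0) := by
  have hnn : ∀ x, 0 ≤ b x x := fun x => by
    rcases eq_or_ne x 0 with rfl | h
    · simp
    · exact (hp x h).le
  let core : InnerProductSpace.Core ℝ V :=
    { inner := fun x y => b x y
      conj_inner_symm := fun x y => by simp [hs x y]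
      re_inner_nonneg := fun x => by simpa using hnn x
      add_left := fun x y z => by simp
      smul_left := fun x y r => by simp
      definite := fun x h => by
        by_contra hx
        exact absurd h (hp x hx).ne' }
  letI := core.toNormedAddCommGroup
  letI := InnerProductSpace.ofCore core.toCore
  have hin : ∀ x y : V, ⟪x, y⟫_ℝ = b x y := fun x y => rfl
  let e := stdOrthonormalBasis ℝ V
  have h1 : LinearMap.trace ℝ V (T ∘ₗ T) = - ∑ i, ‖T (e i)‖ ^ 2 := by
    rw [LinearMap.trace_eq_sum_inner _ e, ← Finset.sum_neg_distrib]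
    refine Finset.sum_congr rfl fun i _ => ?_
    rw [LinearMap.comp_apply, hin, ← real_inner_self_eq_norm_sq, hin, hT (e i) (T (e i))]
    ring
  refine ⟨?_, ?_⟩
  · rw [h1]
    exact neg_nonpos.2 (Finset.sum_nonneg fun i _ => sq_nonneg _)
  · intro h0
    rw [h1, neg_eq_zero, Finset.sum_eq_zero_iff_of_nonneg fun i _ => sq_nonneg _] at h0
    refine e.toBasis.ext fun i => ?_
    have := h0 i (Finset.mem_univ i)
    simpa using this

variable {E : Type*} [NormedAddCommGroup E] [InnerProductSpace ℝ E] [FiniteDimensional ℝ E]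

/-- The inner product of jets. -/
def jetB (A B : E →ₗ[ℝ] E) : ℝ :=
  ∑ i, ⟪A (stdOrthonormalBasis ℝ E i), B (stdOrthonormalBasis ℝ E i)⟫_ℝ

theorem jetB_comm (A B : E →ₗ[ℝ] E) : jetB A B = jetB B A :=
  Finset.sum_congr rfl fun _ _ => real_inner_comm _ _

theorem jetB_nonneg (A : E →ₗ[ℝ] E) : 0 ≤ jetB A A :=
  Finset.sum_nonneg fun _ _ => real_inner_self_nonneg

theorem jetB_eq_zero {A : E →ₗ[ℝ] E} (h : jetB A A = 0) : A = 0 := by
  unfold jetB at h
  rw [Finset.sum_eq_zero_iff_of_nonneg fun i _ => real_inner_self_nonneg] at h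
  refine (stdOrthonormalBasis ℝ E).toBasis.ext fun i => ?_
  have := h i (Finset.mem_univ i)
  simpa using this

theorem jetB_comp_left {A L M : E →ₗ[ℝ] E} (hA : ∀ u v, ⟪A u, v⟫_ℝ = -⟪u, A v⟫_ℝ) :
    jetB (A ∘ₗ L) M = - jetB L (A ∘ₗ M) := by
  unfold jetB
  rw [← Finset.sum_neg_distrib]
  exact Finset.sum_congr rfl fun i _ => hA _ _

theorem jetB_comp_right {A L M : E →ₗ[ℝ] E} (hA : ∀ u v, ⟪A u, v⟫_ℝ = -⟪u, A v⟫_ℝ) :
    jetB (L ∘ₗ A) M = - jetB L (M ∘ₗ A) := by
  unfold jetB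
  set e := stdOrthonormalBasis ℝ E
  have h1 : ∀ i, L (A (e i)) = ∑ j, ⟪e j, A (e i)⟫_ℝ • L (e j) := by
    intro i
    conv_lhs => rw [← e.sum_repr' (A (e i))]
    rw [map_sum]
    simp_rw [map_smul]
  have h2 : ∀ i, M (A (e i)) = ∑ j, ⟪e j, A (e i)⟫_ℝ • M (e j) := by
    intro i
    conv_lhs => rw [← e.sum_repr' (A (e i))]
    rw [map_sum]
    simp_rw [map_smul]
  simp only [LinearMap.comp_apply, h1, h2, sum_inner, inner_sum, real_inner_smul_left,
    real_inner_smul_right]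
  rw [Finset.sum_comm, ← Finset.sum_neg_distrib]
  refine Finset.sum_congr rfl fun j _ => ?_
  rw [← Finset.sum_neg_distrib]
  refine Finset.sum_congr rfl fun i _ => ?_
  have h3 : ⟪e j, A (e i)⟫_ℝ = - ⟪e i, A (e j)⟫_ℝ := by
    rw [real_inner_comm, hA, neg_inj]
  rw [h3]
  ring

/-- **Sign of the Killing form**, abstract version. -/
theorem killing_neg {L : Type*} [LieRing L] [LieAlgebra ℝ L] [FiniteDimensional ℝ L]
    (ev : L →ₗ[ℝ] E) (D : L →ₗ[ℝ] (E →ₗ[ℝ] E)) (hinj : ∀ X, ev X = 0 → D X = 0 → X = 0)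
    (hsurj : Function.Surjective ev)
    (hskew : ∀ k, ev k = 0 → ∀ u v, ⟪D k u, v⟫_ℝ = -⟪u, D k v⟫_ℝ)
    (hev : ∀ k X, ev k = 0 → ev ⁅k, X⁆ = - D k (ev X))
    (hD : ∀ k X, ev k = 0 → D ⁅k, X⁆ = D X ∘ₗ D k - D k ∘ₗ D X) {k : L} (hk : ev k = 0) :
    killingForm ℝ L k k ≤ 0 ∧ (killingForm ℝ L k k = 0 → k = 0) := by
  let b : L →ₗ[ℝ] L →ₗ[ℝ] ℝ := LinearMap.mk₂ ℝ
    (fun X Y => ⟪ev X, ev Y⟫_ℝ + jetB (D X) (D Y))
    (fun X X' Y => by
      simp only [jetB, map_add, LinearMap.add_apply, inner_add_left, Finset.sum_add_distrib]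
      ring)
    (fun c X Y => by
      simp only [jetB, map_smul, LinearMap.smul_apply, real_inner_smul_left, ← Finset.mul_sum,
        smul_eq_mul]
      ring)
    (fun X Y Y' => by
      simp only [jetB, map_add, LinearMap.add_apply, inner_add_right, Finset.sum_add_distrib]
      ring)
    (fun c X Y => by
      simp only [jetB, map_smul, LinearMap.smul_apply, real_inner_smul_right, ← Finset.mul_sum,
        smul_eq_mul]
      ring)
  have hb : ∀ X Y, b X Y = ⟪ev X, ev Y⟫_ℝ + jetB (D X) (D Y) := fun X Y => rfl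
  have h := trace_sq_of_skew b (fun X Y => by rw [hb, hb, real_inner_comm, jetB_comm])
    (fun X hX => by
      rw [hb]
      have h1 : 0 ≤ ⟪ev X, ev X⟫_ℝ := real_inner_self_nonneg
      have h2 := jetB_nonneg (D X)
      refine lt_of_le_of_ne (by linarith) fun h0 => hX ?_
      have h3 : ⟪ev X, ev X⟫_ℝ = 0 := by linarith
      have h4 : jetB (D X) (D X) = 0 := by linarith
      exact hinj X (inner_self_eq_zero.mp h3) (jetB_eq_zero h4))
    (LieAlgebra.ad ℝ L k : L →ₗ[ℝ] L)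
    (fun X Y => by
      rw [hb, hb]
      change ⟪ev ⁅k, X⁆, ev Y⟫_ℝ + jetB (D ⁅k, X⁆) (D Y)
        = -(⟪ev X, ev ⁅k, Y⁆⟫_ℝ + jetB (D X) (D ⁅k, Y⁆))
      rw [hev k X hk, hev k Y hk, hD k X hk, hD k Y hk, inner_neg_left, inner_neg_right,
        hskew k hk]
      have e1 : ∀ A B C : E →ₗ[ℝ] E, jetB (A - B) C = jetB A C - jetB B C := fun A B C => by
        simp only [jetB, LinearMap.sub_apply, inner_sub_left, Finset.sum_sub_distrib]
      have e2 : ∀ A B C : E →ₗ[ℝ] E, jetB A (B - C) = jetB A B - jetB A C := fun A B C => by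
        simp only [jetB, LinearMap.sub_apply, inner_sub_right, Finset.sum_sub_distrib]
      rw [e1, e2, jetB_comp_left (hskew k hk), jetB_comp_right (hskew k hk)]
      ring)
  have hk2 : killingForm ℝ L k k
      = LinearMap.trace ℝ L ((LieAlgebra.ad ℝ L k : L →ₗ[ℝ] L) ∘ₗ (LieAlgebra.ad ℝ L k)) := by
    rw [killingForm_apply_apply]
  refine ⟨by rw [hk2]; exact h.1, fun h0 => ?_⟩
  rw [hk2] at h0
  have h1 := h.2 h0
  refine hinj k hk ?_
  ext v
  obtain ⟨X, rfl⟩ := hsurj v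
  have h2 : ev ⁅k, X⁆ = 0 := by
    have : ⁅k, X⁆ = (LieAlgebra.ad ℝ L k : L →ₗ[ℝ] L) X := rfl
    rw [this, h1]
    simp
  rw [hev k X hk, neg_eq_zero] at h2
  rw [h2]
  simp

end

end Pool.Agent.Work.MP_3b24f6_gt.S
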