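import Pool.Agent.Work.MP_3b24f6_gt.S.KillBr
import Pool.Agent.Work.MP_3b24f6_gt.S.KillJet
import Pool.Agent.Work.MP_3b24f6_gt.S.KillSign

/-!
# The Lie algebra of Killing fields of a homogeneous metric: the facts used by the algebra
-/

set_option autoImplicit false
set_option maxSynthPendingDepth 3

open scoped InnerProductSpace ContDiff
open VectorField

namespace Pool.Agent.Work.MP_3b24f6_gt.KHom

noncomputable section

variable {E : Type*} [NormedAddCommGroup E] [InnerProductSpace ℝ E]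
  {g : E → E →L[ℝ] E →L[ℝ] ℝ}

/-- Geometric input: a smooth metric, normal at the origin, with enough isometries. -/
structure HomMet (g : E → E →L[ℝ] E →L[ℝ] ℝ) : Prop where
  smooth : ContDiff ℝ ∞ g
  at0 : ∀ u v, g 0 u v = ⟪u, v⟫_ℝ
  d0 : fderiv ℝ g 0 = 0
  /-- translation fields -/
  transl : ∀ x : E, ‖x‖ = 1 → ∃ X : E → E, IsKilling g X ∧ ∀ t : ℝ, X (t • x) = x
  /-- linear Killing fields -/
  lin : ∀ x v : E, x ≠ 0 → ⟪x, v⟫_ℝ = 0 → ∃ A : E →L[ℝ] E, IsKilling g (fun y => A y) ∧ A x = v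
  /-- linear isometries -/
  iso : ∀ x y : E, ‖x‖ = ‖y‖ → ∃ L : E ≃ₗᵢ[ℝ] E, L x = y ∧
    ∀ z u v, g (L z) (L u) (L v) = g z u v

/-- Evaluation at the origin. -/
def ev (g : E → E →L[ℝ] E →L[ℝ] ℝ) : killing g →ₗ[ℝ] E where
  toFun X := X.1 0
  map_add' X Y := rfl
  map_smul' c X := rfl

theorem ev_apply (X : killing g) : ev g X = X.1 0 := rfl

/-- Derivative at the origin. -/
def dv0 (g : E → E →L[ℝ] E →L[ℝ] ℝ) : killing g →ₗ[ℝ] (E →ₗ[ℝ] E) where
  toFun X := (fderiv ℝ X.1 0 : E →L[ℝ] E)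
  map_add' X Y := by
    have h : fderiv ℝ (X.1 + Y.1) 0 = fderiv ℝ X.1 0 + fderiv ℝ Y.1 0 :=
      fderiv_add (IsKilling.differentiable X.2).differentiableAt
        (IsKilling.differentiable Y.2).differentiableAt
    ext v
    change fderiv ℝ (X.1 + Y.1) 0 v = _
    rw [h]
    rfl
  map_smul' c X := by
    have h : fderiv ℝ (c • X.1) 0 = c • fderiv ℝ X.1 0 :=
      fderiv_const_smul (IsKilling.differentiable X.2).differentiableAt c
    ext v
    change fderiv ℝ (c • X.1) 0 v = _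
    rw [h]
    rfl

theorem dv0_apply (X : killing g) (v : E) : dv0 g X v = fderiv ℝ X.1 0 v := rfl

variable (hg : HomMet g)
include hg

theorem dv0_skew (X : killing g) (u v : E) : ⟪dv0 g X u, v⟫_ℝ = -⟪u, dv0 g X v⟫_ℝ :=
  KJet.skew hg.at0 hg.d0 X.2 u v

theorem dv0_self (X : killing g) (u : E) : ⟪dv0 g X u, u⟫_ℝ = 0 := by
  have h := dv0_skew hg X u u
  rw [real_inner_comm (dv0 g X u) u] at h
  linarith

theorem ev_surj : Function.Surjective (ev g) := by
  intro y
  rcases eq_or_ne y 0 with rfl | hy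
  · exact ⟨0, map_zero _⟩
  · obtain ⟨X, hX, hXt⟩ := hg.transl (‖y‖⁻¹ • y) (by
      rw [norm_smul, norm_inv, norm_norm, inv_mul_cancel₀ (norm_ne_zero_iff.2 hy)])
    refine ⟨‖y‖ • ⟨X, hX⟩, ?_⟩
    rw [map_smul, ev_apply]
    have := hXt 0
    rw [zero_smul] at this
    change ‖y‖ • X 0 = y
    rw [this, smul_smul, mul_inv_cancel₀ (norm_ne_zero_iff.2 hy), one_smul]

theorem ev_lie (X Y : killing g) : letI := killLieRing hg.smooth
    ev g ⁅X, Y⁆ = dv0 g Y (ev g X) - dv0 g X (ev g Y) := rfl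

theorem ev_lie_of_ker {k : killing g} (hk : ev g k = 0) (X : killing g) :
    letI := killLieRing hg.smooth
    ev g ⁅k, X⁆ = - dv0 g k (ev g X) := by
  have h := ev_lie hg k X
  rw [hk, map_zero, zero_sub] at h
  exact h

theorem dv0_lie_of_ker {k : killing g} (hk : ev g k = 0) (X : killing g) :
    letI := killLieRing hg.smooth
    dv0 g ⁅k, X⁆ = dv0 g X ∘ₗ dv0 g k - dv0 g k ∘ₗ dv0 g X := by
  ext v
  exact KJet.bracket_one hg.smooth hg.at0 hg.d0 k.2 X.2 hk v

/-- `sub` -/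
theorem ker_lie {k l : killing g} (hk : ev g k = 0) (hl : ev g l = 0) :
    letI := killLieRing hg.smooth
    ev g ⁅k, l⁆ = 0 := by
  have h := ev_lie hg k l
  rw [hk, hl, map_zero, map_zero, sub_zero] at h
  exact h

/-- `skew` -/
theorem skew_lie {k : killing g} (hk : ev g k = 0) (X : killing g) :
    letI := killLieRing hg.smooth
    ⟪ev g ⁅k, X⁆, ev g X⟫_ℝ = 0 := by
  have h := ev_lie_of_ker hg hk X
  rw [h, inner_neg_left, dv0_self hg, neg_zero]

/-- `full` -/
theorem full (x v : E) (hx : x ≠ 0) (hv : ⟪x, v⟫_ℝ = 0) :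
    letI := killLieRing hg.smooth
    ∃ k X : killing g, ev g k = 0 ∧ ev g X = x ∧ ev g ⁅k, X⁆ = v := by
  obtain ⟨A, hA, hAx⟩ := hg.lin x v hx hv
  obtain ⟨X, hX⟩ := ev_surj hg x
  set k : killing g := -⟨fun y => A y, hA⟩ with hkdef
  have hk : ev g k = 0 := by
    rw [hkdef, map_neg, ev_apply]
    simp
  refine ⟨k, X, hk, hX, ?_⟩
  have h := ev_lie_of_ker hg hk X
  rw [h, hX, hkdef, map_neg, LinearMap.neg_apply, neg_neg, dv0_apply]
  change fderiv ℝ (fun y => A y) 0 x = v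
  rw [A.fderiv, hAx]

/-- `geo` -/
theorem geo (x : E) : letI := killLieRing hg.smooth
    ∃ X : killing g, ev g X = x ∧ (∀ t : ℝ, X.1 (t • x) = x) ∧ dv0 g X x = 0 ∧
      ∀ Y, ⟪ev g ⁅X, Y⁆, x⟫_ℝ = 0 := by
  rcases eq_or_ne x 0 with rfl | hx
  · refine ⟨0, map_zero _, fun t => rfl, map_zero _, fun Y => inner_zero_right _⟩
  have hn : ‖x‖ ≠ 0 := norm_ne_zero_iff.2 hx
  obtain ⟨X, hX, hXt⟩ := hg.transl (‖x‖⁻¹ • x) (by
    rw [norm_smul, norm_inv, norm_norm, inv_mul_cancel₀ hn])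
  set Z : killing g := ‖x‖ • ⟨X, hX⟩ with hZ
  have hZt : ∀ t : ℝ, Z.1 (t • x) = x := by
    intro t
    have h := hXt (t * ‖x‖)
    rw [smul_smul, mul_assoc, mul_inv_cancel₀ hn, mul_one] at h
    change ‖x‖ • X (t • x) = x
    rw [h, smul_smul, mul_inv_cancel₀ hn, one_smul]
  have hZ0 : ev g Z = x := by
    have := hZt 0
    rwa [zero_smul] at this
  have hZd : dv0 g Z x = 0 := by
    rw [dv0_apply]
    have h1 : HasFDerivAt Z.1 (fderiv ℝ Z.1 ((0 : ℝ) • x)) ((0 : ℝ) • x) :=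
      (IsKilling.differentiable Z.2).differentiableAt.hasFDerivAt
    have h2 : HasDerivAt (fun t : ℝ => t • x) x 0 := by
      simpa using (hasDerivAt_id (0 : ℝ)).smul_const x
    have h3 : HasDerivAt (fun t : ℝ => Z.1 (t • x)) (fderiv ℝ Z.1 ((0 : ℝ) • x) x) 0 :=
      h1.comp_hasDerivAt 0 h2
    have h4 : (fun t : ℝ => Z.1 (t • x)) = fun _ => x := funext hZt
    rw [h4] at h3
    have h5 := h3.unique (hasDerivAt_const 0 x)
    rwa [zero_smul] at h5
  refine ⟨Z, hZ0, hZt, hZd, fun Y => ?_⟩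
  have h := ev_lie hg Z Y
  rw [h, hZ0, inner_sub_left, dv0_self hg, dv0_skew hg, hZd, inner_zero_right]
  simp

/-- `neg` -/
theorem neg [FiniteDimensional ℝ E] [FiniteDimensional ℝ (killing g)]
    (hinj : ∀ X : killing g, ev g X = 0 → dv0 g X = 0 → X = 0)
    {k : killing g} (hk : ev g k = 0) (hk0 : k ≠ 0) :
    letI := killLieRing hg.smooth
    letI := killLieAlgebra hg.smooth
    killingForm ℝ (killing g) k k < 0 := by
  letI := killLieRing hg.smooth
  letI := killLieAlgebra hg.smooth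
  have h := S.killing_neg (L := killing g) (ev g) (dv0 g) hinj (ev_surj hg)
    (fun k _ u v => dv0_skew hg k u v) (fun k X hk => ev_lie_of_ker hg hk X)
    (fun k X hk => dv0_lie_of_ker hg hk X) hk
  exact lt_of_le_of_ne h.1 fun h0 => hk0 (h.2 h0)

/-- Push forward by a linear isometry as an automorphism of the Lie algebra. -/
def pushEquiv (L : E ≃L[ℝ] E) (hL : ∀ z u v, g (L z) (L u) (L v) = g z u v) :
    letI := killLieRing hg.smooth
    letI := killLieAlgebra hg.smooth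
    killing g ≃ₗ⁅ℝ⁆ killing g :=
  letI := killLieRing hg.smooth
  letI := killLieAlgebra hg.smooth
  have hL' : ∀ z u v, g (L.symm z) (L.symm u) (L.symm v) = g z u v := fun z u v => by
    rw [← hL]
    simp
  { toFun := fun X => ⟨KJet.push L X.1, KJet.isKilling_push hg.smooth L hL X.2⟩
    map_add' := fun X Y => Subtype.ext (funext fun y => map_add L _ _)
    map_smul' := fun c X => Subtype.ext (funext fun y => map_smul L _ _)
    map_lie' := fun {X Y} => Subtype.ext (KJet.push_lieBracket L X.2.1 Y.2.1)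
    invFun := fun X => ⟨KJet.push L.symm X.1, KJet.isKilling_push hg.smooth L.symm hL' X.2⟩
    left_inv := fun X => Subtype.ext (funext fun y => by simp [KJet.push])
    right_inv := fun X => Subtype.ext (funext fun y => by simp [KJet.push]) }

/-- `trans` -/
theorem trans (x y : E) (hxy : ‖x‖ = ‖y‖) :
    letI := killLieRing hg.smooth
    letI := killLieAlgebra hg.smooth
    ∃ (φ : killing g ≃ₗ⁅ℝ⁆ killing g) (A : E ≃ₗᵢ[ℝ] E),
      (∀ X, ev g (φ X) = A (ev g X)) ∧ A x = y := by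
  obtain ⟨L, hLx, hL⟩ := hg.iso x y hxy
  refine ⟨pushEquiv hg L.toContinuousLinearEquiv hL, L, fun X => ?_, hLx⟩
  change L (X.1 (L.toContinuousLinearEquiv.symm 0)) = L (X.1 0)
  rw [map_zero]

end

end Pool.Agent.Work.MP_3b24f6_gt.KHom
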