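import Pool.Agent.Work.MP_3b24f6_gt.S.KillDefs

/-!
# The metric at the origin from the Gauss lemma, and linear Killing fields from one parameter
groups of linear isometries
-/

set_option autoImplicit false
set_option maxSynthPendingDepth 3

open scoped InnerProductSpace ContDiff
open Filter Topology

namespace Pool.Agent.Work.MP_3b24f6_gt.KLin

noncomputable section

section gauss

variable {E : Type*} [NormedAddCommGroup E] [InnerProductSpace ℝ E]
  {g : E → E →L[ℝ] E →L[ℝ] ℝ}

theorem gauss_smul (hgauss : ∀ y w, g y y w = ⟪y, w⟫_ℝ) {t : ℝ} (ht : t ≠ 0) (y w : E) :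
    g (t • y) y w = ⟪y, w⟫_ℝ := by
  have h := hgauss (t • y) w
  rw [map_smul, real_inner_smul_left] at h
  exact mul_left_cancel₀ ht h

/-- The metric at the origin is the inner product. -/
theorem at0_of_gauss (hc : Continuous g) (hgauss : ∀ y w, g y y w = ⟪y, w⟫_ℝ) (y w : E) :
    g 0 y w = ⟪y, w⟫_ℝ := by
  have h1 : Tendsto (fun t : ℝ => g (t • y) y w) (𝓝[≠] 0) (𝓝 (g ((0 : ℝ) • y) y w)) := by
    have h2 : Continuous (fun t : ℝ => g (t • y) y w) := by fun_prop
    exact (h2.tendsto 0).mono_left nhdsWithin_le_nhds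
  have h3 : Tendsto (fun t : ℝ => g (t • y) y w) (𝓝[≠] 0) (𝓝 ⟪y, w⟫_ℝ) := by
    refine tendsto_const_nhds.congr' ?_
    filter_upwards [self_mem_nhdsWithin] with t ht
    exact (gauss_smul hgauss ht y w).symm
  have h4 := tendsto_nhds_unique h1 h3
  rwa [zero_smul] at h4

/-- The metric has no first order part at the origin. -/
theorem d0_of_gauss (hg : ContDiff ℝ ∞ g) (hsymm : ∀ y u v, g y u v = g y v u)
    (hgauss : ∀ y w, g y y w = ⟪y, w⟫_ℝ) : fderiv ℝ g 0 = 0 := by
  have hgd : ∀ z, HasFDerivAt g (fderiv ℝ g z) z := fun z =>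
    ((hg.differentiable (by simp)).differentiableAt).hasFDerivAt
  have h0 := at0_of_gauss hg.continuous hgauss
  have hall : ∀ (t : ℝ) (x z : E), g (t • x) x z = ⟪x, z⟫_ℝ := by
    intro t x z
    rcases eq_or_ne t 0 with rfl | ht
    · rw [zero_smul]; exact h0 x z
    · exact gauss_smul hgauss ht x z
  have key : ∀ x z, fderiv ℝ g 0 x x z = 0 := by
    intro x z
    have h1 : HasDerivAt (fun t : ℝ => t • x) x 0 := by
      simpa using (hasDerivAt_id (0 : ℝ)).smul_const x
    have h2 : HasDerivAt (fun t : ℝ => g (t • x)) (fderiv ℝ g ((0 : ℝ) • x) x) 0 :=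
      (hgd ((0 : ℝ) • x)).comp_hasDerivAt 0 h1
    have h3 : HasDerivAt (fun t : ℝ => g (t • x) x z) (fderiv ℝ g ((0 : ℝ) • x) x x z) 0 := by
      have h4 := (h2.clm_apply (hasDerivAt_const 0 x)).clm_apply (hasDerivAt_const 0 z)
      simpa using h4
    have h5 : (fun t : ℝ => g (t • x) x z) = fun _ => ⟪x, z⟫_ℝ := funext fun t => hall t x z
    rw [h5] at h3
    have h6 := h3.unique (hasDerivAt_const 0 _)
    rwa [zero_smul] at h6
  have hs : ∀ w u v, fderiv ℝ g 0 w u v = fderiv ℝ g 0 w v u := by
    intro w u v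
    have h1 : HasFDerivAt (fun y => g y u v) (((fderiv ℝ g 0).flip u).flip v) 0 := by
      have h2 := (((hgd 0).clm_apply (hasFDerivAt_const u 0)).clm_apply (hasFDerivAt_const v 0))
      simpa using h2
    have h3 : HasFDerivAt (fun y => g y v u) (((fderiv ℝ g 0).flip v).flip u) 0 := by
      have h2 := (((hgd 0).clm_apply (hasFDerivAt_const v 0)).clm_apply (hasFDerivAt_const u 0))
      simpa using h2
    have h4 : (fun y => g y u v) = fun y => g y v u := funext fun y => hsymm y u v
    rw [h4] at h1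
    have h5 := congrArg (fun T : E →L[ℝ] ℝ => T w) (h1.unique h3)
    simpa using h5
  have ha : ∀ w u v, fderiv ℝ g 0 w u v = - fderiv ℝ g 0 u w v := by
    intro w u v
    have h := key (w + u) v
    simp only [map_add, add_apply] at h
    rw [key, key] at h
    linarith
  ext w u v
  have e1 := ha w u v
  have e2 := hs u w v
  have e3 := ha u v w
  have e4 := hs v u w
  have e5 := ha v w u
  have e6 := hs w v u
  simp only [zero_apply]
  linarith

end gauss

section lin

variable {E : Type*} [NormedAddCommGroup E] [NormedSpace ℝ E] [CompleteSpace E]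
  {g : E → E →L[ℝ] E →L[ℝ] ℝ}

/-- A one parameter group of linear isometries is generated by a linear Killing field. -/
theorem isKilling_of_exp (hg : ContDiff ℝ ∞ g) (A : E →L[ℝ] E)
    (hA : ∀ (s : ℝ) (z u v : E), g (NormedSpace.exp (s • A) z) (NormedSpace.exp (s • A) u)
      (NormedSpace.exp (s • A) v) = g z u v) :
    IsKilling g (fun y => A y) := by
  refine ⟨A.contDiff, fun y u v => ?_⟩
  rw [A.fderiv]
  have hgd : HasFDerivAt g (fderiv ℝ g y) y :=
    ((hg.differentiable (by simp)).differentiableAt).hasFDerivAt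
  have hexp : HasDerivAt (fun s : ℝ => NormedSpace.exp (s • A)) A 0 := by
    have := hasDerivAt_exp_smul_const (𝕂 := ℝ) A (0 : ℝ)
    simpa using this
  have hz : ∀ w : E, HasDerivAt (fun s : ℝ => NormedSpace.exp (s • A) w) (A w) 0 := by
    intro w
    have := hexp.clm_apply (hasDerivAt_const (0 : ℝ) w)
    simpa using this
  have he0 : ∀ w : E, NormedSpace.exp ((0 : ℝ) • A) w = w := fun w => by simp
  have h1 : HasDerivAt (fun s : ℝ => g (NormedSpace.exp (s • A) y)) (fderiv ℝ g y (A y)) 0 := by
    have hgd' : HasFDerivAt g (fderiv ℝ g y) (NormedSpace.exp ((0 : ℝ) • A) y) := by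
      rw [he0]; exact hgd
    exact hgd'.comp_hasDerivAt 0 (hz y)
  have h2 := (h1.clm_apply (hz u)).clm_apply (hz v)
  have h3 : (fun s : ℝ => g (NormedSpace.exp (s • A) y) (NormedSpace.exp (s • A) u)
      (NormedSpace.exp (s • A) v)) = fun _ => g y u v := funext fun s => hA s y u v
  rw [h3] at h2
  have h4 := h2.unique (hasDerivAt_const (0 : ℝ) (g y u v))
  simp only [he0, add_apply] at h4
  linarith

end lin

end

end Pool.Agent.Work.MP_3b24f6_gt.KLin
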