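import Pool.Agent.Work.MP_3b24f6_gt.S.KillBr

/-! Killing fields of a smooth metric on a vector space: the second derivative is determined by the
one-jet, so a Killing field with vanishing one-jet at the origin vanishes, and the space of all
Killing fields is finite dimensional. -/

set_option autoImplicit false
set_option maxSynthPendingDepth 3

open Set Filter Topology Metric
open scoped ContDiff

namespace Pool.Agent.Work.MP_3b24f6_gt

noncomputable section

variable {E : Type*} [NormedAddCommGroup E] [NormedSpace ℝ E]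

/-- A smooth Riemannian metric on the vector space `E`. -/
structure IsMetric (g : E → E →L[ℝ] E →L[ℝ] ℝ) : Prop where
  smooth : ContDiff ℝ ∞ g
  symm : ∀ y u v, g y u v = g y v u
  pos : ∀ y v, v ≠ 0 → 0 < g y v v

variable {g : E → E →L[ℝ] E →L[ℝ] ℝ} {X Y : E → E}

/-- The curvature-like expression in the prolonged Killing equation. -/
def kilR (g : E → E →L[ℝ] E →L[ℝ] ℝ) (y x : E) (L : E →L[ℝ] E) (w u v : E) : ℝ :=
  fderiv ℝ (fderiv ℝ g) y w x u v + fderiv ℝ g y (L w) u v + fderiv ℝ g y w (L u) v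
    + fderiv ℝ g y w u (L v)

/-- Prolongation: the second derivative of a Killing field is linear in its one-jet. -/
theorem IsKilling.prolong (hg : IsMetric g) (hX : IsKilling g X) (y w u v : E) :
    2 * g y (fderiv ℝ (fderiv ℝ X) y w u) v = -(kilR g y (X y) (fderiv ℝ X y) w u v
      + kilR g y (X y) (fderiv ℝ X y) u v w - kilR g y (X y) (fderiv ℝ X y) v w u) := by
  have h1 := hX.deriv_eq hg.smooth y w u v
  have h2 := hX.deriv_eq hg.smooth y u v w
  have h3 := hX.deriv_eq hg.smooth y v w u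
  simp only [kilR] at *
  rw [hX.fderiv_symm y v w, hX.fderiv_symm y v u] at h3
  rw [hX.fderiv_symm y u w] at h2
  have s1 := hg.symm y u (fderiv ℝ (fderiv ℝ X) y w v)
  have s2 := hg.symm y w (fderiv ℝ (fderiv ℝ X) y u v)
  have s3 := hg.symm y v (fderiv ℝ (fderiv ℝ X) y w u)
  linarith

section fin

variable [FiniteDimensional ℝ E]

/-- Uniform positivity of the metric on balls. -/
theorem IsMetric.lower (hg : IsMetric g) (R : ℝ) :
    ∃ c : ℝ, 0 < c ∧ ∀ y v, ‖y‖ ≤ R → c * ‖v‖ ^ 2 ≤ g y v v := by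
  classical
  have hc : Continuous fun p : E × E => g p.1 p.2 p.2 := by
    have h1 : Continuous fun p : E × E => g p.1 := hg.smooth.continuous.comp continuous_fst
    exact (h1.clm_apply continuous_snd).clm_apply continuous_snd
  have hK : IsCompact (closedBall (0 : E) R ×ˢ sphere (0 : E) 1) :=
    (isCompact_closedBall 0 R).prod (isCompact_sphere 0 1)
  by_cases hne : (closedBall (0 : E) R ×ˢ sphere (0 : E) 1).Nonempty
  · obtain ⟨p, hp, hmin⟩ := hK.exists_isMinOn hne hc.continuousOn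
    have hp2 : p.2 ≠ 0 := by
      intro h0
      have := hp.2
      rw [mem_sphere_zero_iff_norm, h0, norm_zero] at this
      exact zero_ne_one this
    refine ⟨g p.1 p.2 p.2, hg.pos _ _ hp2, fun y v hy => ?_⟩
    by_cases hv : v = 0
    · subst hv; simp
    · have hv' : ‖v‖ ≠ 0 := norm_ne_zero_iff.mpr hv
      have hmem : (y, ‖v‖⁻¹ • v) ∈ closedBall (0 : E) R ×ˢ sphere (0 : E) 1 := by
        refine ⟨by simpa using hy, ?_⟩
        rw [mem_sphere_zero_iff_norm, norm_smul, norm_inv, norm_norm, inv_mul_cancel₀ hv']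
      have h1 := hmin hmem
      simp only [mem_ofPred_eq, map_smul, smul_apply, smul_eq_mul] at h1
      calc g p.1 p.2 p.2 * ‖v‖ ^ 2 ≤ (‖v‖⁻¹ * (‖v‖⁻¹ * g y v v)) * ‖v‖ ^ 2 :=
            mul_le_mul_of_nonneg_right h1 (by positivity)
        _ = g y v v := by field_simp
  · refine ⟨1, one_pos, fun y v hy => ?_⟩
    by_cases hv : v = 0
    · subst hv; simp
    · exfalso
      apply hne
      have hv' : ‖v‖ ≠ 0 := norm_ne_zero_iff.mpr hv
      refine ⟨(y, ‖v‖⁻¹ • v), by simpa using hy, ?_⟩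
      rw [mem_sphere_zero_iff_norm, norm_smul, norm_inv, norm_norm, inv_mul_cancel₀ hv']

/-- The second derivative of a Killing field is bounded by its one-jet, uniformly in the field. -/
theorem IsMetric.prolong_bound (hg : IsMetric g) (R : ℝ) :
    ∃ K : ℝ, 0 ≤ K ∧ ∀ X : E → E, IsKilling g X → ∀ y w, ‖y‖ ≤ R →
      ‖fderiv ℝ (fderiv ℝ X) y w‖ ≤ K * (‖X y‖ + ‖fderiv ℝ X y‖) * ‖w‖ := by
  obtain ⟨c, hc, hlow⟩ := hg.lower R
  have h1 : Continuous (fderiv ℝ g) := (hg.smooth.fderiv_right (m := ∞) (by simp)).continuous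
  have h2 : Continuous (fderiv ℝ (fderiv ℝ g)) :=
    ((hg.smooth.fderiv_right (m := ∞) (by simp)).fderiv_right (m := ∞) (by simp)).continuous
  have h1' : Continuous fun y => ‖fderiv ℝ g y‖ := by exact h1.norm
  have h2' : Continuous fun y => ‖fderiv ℝ (fderiv ℝ g) y‖ := by
    exact (continuous_norm (E := E →L[ℝ] E →L[ℝ] E →L[ℝ] E →L[ℝ] ℝ)).comp h2
  obtain ⟨M1, hM1⟩ := (isCompact_closedBall (0 : E) R).exists_bound_of_continuousOn
    h1'.continuousOn
  obtain ⟨M2, hM2⟩ := (isCompact_closedBall (0 : E) R).exists_bound_of_continuousOn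
    h2'.continuousOn
  set M := max (max M1 M2) 0 with hM
  have hM0 : 0 ≤ M := le_max_right _ _
  have b1 : ∀ y, ‖y‖ ≤ R → ‖fderiv ℝ g y‖ ≤ M := fun y hy =>
    ((Real.le_norm_self _).trans (hM1 y (by simpa using hy))).trans ((le_max_left _ _).trans (le_max_left _ _))
  have b2 : ∀ y, ‖y‖ ≤ R → ‖fderiv ℝ (fderiv ℝ g) y‖ ≤ M := fun y hy =>
    ((Real.le_norm_self _).trans (hM2 y (by simpa using hy))).trans ((le_max_right _ _).trans (le_max_left _ _))
  have bR : ∀ y x (L : E →L[ℝ] E) w u v, ‖y‖ ≤ R →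
      |kilR g y x L w u v| ≤ 3 * M * (‖x‖ + ‖L‖) * ‖w‖ * ‖u‖ * ‖v‖ := by
    intro y x L w u v hy
    have e1 : ‖fderiv ℝ (fderiv ℝ g) y w x u v‖ ≤ M * ‖w‖ * ‖x‖ * ‖u‖ * ‖v‖ := by
      refine ((fderiv ℝ (fderiv ℝ g) y w x u).le_opNorm v).trans ?_
      gcongr
      refine ((fderiv ℝ (fderiv ℝ g) y w x).le_opNorm u).trans ?_
      gcongr
      refine ((fderiv ℝ (fderiv ℝ g) y w).le_opNorm x).trans ?_
      gcongr
      refine ((fderiv ℝ (fderiv ℝ g) y).le_opNorm w).trans ?_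
      gcongr
      exact b2 y hy
    have e0 : ∀ a b c : E, ‖fderiv ℝ g y a b c‖ ≤ M * ‖a‖ * ‖b‖ * ‖c‖ := by
      intro a b c
      refine ((fderiv ℝ g y a b).le_opNorm c).trans ?_
      gcongr
      refine ((fderiv ℝ g y a).le_opNorm b).trans ?_
      gcongr
      refine ((fderiv ℝ g y).le_opNorm a).trans ?_
      gcongr
      exact b1 y hy
    have e2 : ‖fderiv ℝ g y (L w) u v‖ ≤ M * (‖L‖ * ‖w‖) * ‖u‖ * ‖v‖ := by
      refine (e0 _ _ _).trans ?_
      gcongr
      exact L.le_opNorm w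
    have e3 : ‖fderiv ℝ g y w (L u) v‖ ≤ M * ‖w‖ * (‖L‖ * ‖u‖) * ‖v‖ := by
      refine (e0 _ _ _).trans ?_
      gcongr
      exact L.le_opNorm u
    have e4 : ‖fderiv ℝ g y w u (L v)‖ ≤ M * ‖w‖ * ‖u‖ * (‖L‖ * ‖v‖) := by
      refine (e0 _ _ _).trans ?_
      gcongr
      exact L.le_opNorm v
    rw [← Real.norm_eq_abs]
    unfold kilR
    refine (norm_add_le _ _).trans ?_
    refine (add_le_add_left ((norm_add_le _ _).trans (add_le_add_left (norm_add_le _ _) _)) _).trans ?_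
    have h5 : 0 ≤ M * ‖x‖ * ‖w‖ * ‖u‖ * ‖v‖ := by positivity
    have h6 : 0 ≤ M * ‖L‖ * ‖w‖ * ‖u‖ * ‖v‖ := by positivity
    nlinarith
  refine ⟨9 / 2 * M / c, by positivity, fun X hX y w hy => ?_⟩
  refine ContinuousLinearMap.opNorm_le_bound _ (by positivity) fun u => ?_
  set v := fderiv ℝ (fderiv ℝ X) y w u with hv
  have h3 := hX.prolong hg y w u v
  rw [← hv] at h3
  have h4 := hlow y v hy
  have r1 := (abs_le.mp (bR y (X y) (fderiv ℝ X y) w u v hy)).1
  have r2 := (abs_le.mp (bR y (X y) (fderiv ℝ X y) u v w hy)).1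
  have r3 := (abs_le.mp (bR y (X y) (fderiv ℝ X y) v w u hy)).2
  have h7 : c * ‖v‖ ^ 2 ≤ 9 / 2 * M * (‖X y‖ + ‖fderiv ℝ X y‖) * ‖w‖ * ‖u‖ * ‖v‖ := by
    nlinarith
  by_cases hv0 : ‖v‖ = 0
  · rw [hv0]; positivity
  · have hvp : 0 < ‖v‖ := lt_of_le_of_ne (norm_nonneg _) (Ne.symm hv0)
    have h8 : c * ‖v‖ ≤ 9 / 2 * M * (‖X y‖ + ‖fderiv ℝ X y‖) * ‖w‖ * ‖u‖ := by
      have : c * ‖v‖ * ‖v‖ ≤ 9 / 2 * M * (‖X y‖ + ‖fderiv ℝ X y‖) * ‖w‖ * ‖u‖ * ‖v‖ := by
        nlinarith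
      exact le_of_mul_le_mul_right this hvp
    rw [show 9 / 2 * M / c * (‖X y‖ + ‖fderiv ℝ X y‖) * ‖w‖ * ‖u‖
      = (9 / 2 * M * (‖X y‖ + ‖fderiv ℝ X y‖) * ‖w‖ * ‖u‖) / c by ring, le_div_iff₀ hc]
    linarith

/-- A Killing field with vanishing one-jet at the origin vanishes. -/
theorem IsKilling.eq_zero (hg : IsMetric g) (hX : IsKilling g X) (h0 : X 0 = 0)
    (h1 : fderiv ℝ X 0 = 0) (y : E) : X y = 0 := by
  obtain ⟨K, hK0, hK⟩ := hg.prolong_bound ‖y‖
  set f : ℝ → E × (E →L[ℝ] E) := fun t => (X (t • y), fderiv ℝ X (t • y)) with hf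
  have dX' : Differentiable ℝ (fderiv ℝ X) :=
    (hX.smooth.fderiv_right (m := ∞) (by simp)).differentiable (by simp)
  have hd : ∀ t : ℝ, HasDerivAt f
      (fderiv ℝ X (t • y) y, fderiv ℝ (fderiv ℝ X) (t • y) y) t := by
    intro t
    have hl : HasDerivAt (fun t : ℝ => t • y) y t := by
      simpa using (hasDerivAt_id t).smul_const y
    exact ((hX.differentiable (t • y)).hasFDerivAt.comp_hasDerivAt t hl).prodMk
      ((dX' (t • y)).hasFDerivAt.comp_hasDerivAt t hl)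
  have hb : ∀ t ∈ Ico (0 : ℝ) 1, ‖(fderiv ℝ X (t • y) y, fderiv ℝ (fderiv ℝ X) (t • y) y)‖
      ≤ ((1 + 2 * K) * ‖y‖) * ‖f t‖ + 0 := by
    intro t ht
    have hty : ‖t • y‖ ≤ ‖y‖ := by
      rw [norm_smul, Real.norm_eq_abs, abs_of_nonneg ht.1]
      exact mul_le_of_le_one_left (norm_nonneg _) ht.2.le
    have a1 : ‖X (t • y)‖ ≤ ‖f t‖ := norm_fst_le (f t)
    have a2 : ‖fderiv ℝ X (t • y)‖ ≤ ‖f t‖ := norm_snd_le (f t)
    rw [add_zero, Prod.norm_def]
    refine max_le ?_ ?_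
    · refine ((fderiv ℝ X (t • y)).le_opNorm y).trans ?_
      have : ‖fderiv ℝ X (t • y)‖ * ‖y‖ ≤ ‖f t‖ * ‖y‖ := by gcongr
      nlinarith [mul_nonneg (mul_nonneg hK0 (norm_nonneg y)) (norm_nonneg (f t))]
    · refine (hK X hX (t • y) y hty).trans ?_
      have : K * (‖X (t • y)‖ + ‖fderiv ℝ X (t • y)‖) * ‖y‖ ≤ K * (‖f t‖ + ‖f t‖) * ‖y‖ := by
        gcongr
      nlinarith [mul_nonneg (norm_nonneg y) (norm_nonneg (f t))]
  have hfc : ContinuousOn f (Icc 0 1) := fun t _ => (hd t).continuousAt.continuousWithinAt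
  have hG := norm_le_gronwallBound_of_norm_deriv_right_le (δ := 0) hfc
    (fun t _ => (hd t).hasDerivWithinAt) (by simp [hf, h0, h1]) hb 1 (by simp)
  rw [gronwallBound_ε0] at hG
  have h2 : f 1 = 0 := by
    rw [← norm_le_zero_iff]
    simpa using hG
  have h3 := congrArg Prod.fst h2
  simpa [hf] using h3

/-- The one-jet at the origin. -/
def jet (g : E → E →L[ℝ] E →L[ℝ] ℝ) : killing g →ₗ[ℝ] E × (E →L[ℝ] E) where
  toFun := fun X => (X.1 0, fderiv ℝ X.1 0)
  map_add' := fun X Y => by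
    have hX : IsKilling g X.1 := X.2
    have hY : IsKilling g Y.1 := Y.2
    refine Prod.ext rfl ?_
    exact fderiv_add (hX.differentiable 0) (hY.differentiable 0)
  map_smul' := fun c X => by
    have hX : IsKilling g X.1 := X.2
    refine Prod.ext rfl ?_
    exact fderiv_const_smul (hX.differentiable 0) c

omit [FiniteDimensional ℝ E] in
theorem jet_apply (X : killing g) : jet g X = (X.1 0, fderiv ℝ X.1 0) := rfl

theorem jet_injective (hg : IsMetric g) : Function.Injective (jet g) := by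
  rw [← LinearMap.ker_eq_bot, LinearMap.ker_eq_bot']
  intro X hX
  rw [jet_apply, Prod.mk_eq_zero] at hX
  apply Subtype.ext
  funext y
  exact IsKilling.eq_zero hg X.2 hX.1 hX.2 y

theorem killing_finite (hg : IsMetric g) : FiniteDimensional ℝ (killing g) :=
  FiniteDimensional.of_injective (jet g) (jet_injective hg)

/-- Two Killing fields with the same one-jet at the origin are equal. -/
theorem IsKilling.ext_jet (hg : IsMetric g) (hX : IsKilling g X) (hY : IsKilling g Y)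
    (h0 : X 0 = Y 0) (h1 : fderiv ℝ X 0 = fderiv ℝ Y 0) : X = Y := by
  have h : (⟨X, mem_killing.2 hX⟩ : killing g) = ⟨Y, mem_killing.2 hY⟩ :=
    jet_injective hg (Prod.ext h0 h1)
  exact congrArg Subtype.val h

end fin

end

end Pool.Agent.Work.MP_3b24f6_gt
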