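import Pool.Agent.Work.MP_3b24f6_gt.S.KillDefs

/-! The metric along a ray `t ↦ t • x` in terms of brackets with a Killing field `X` which is
equal to `x` on the ray. -/

set_option autoImplicit false

open scoped ContDiff
open VectorField

namespace Pool.Agent.Work.MP_3b24f6_gt.Ray

section general

variable {E : Type*} [NormedAddCommGroup E] [NormedSpace ℝ E]
  {g : E → E →L[ℝ] E →L[ℝ] ℝ} {X : E → E} {x : E}

/-- Derivative along the ray. -/
theorem hasDerivAt_ray (hg : Differentiable ℝ g) (hX : IsKilling g X)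
    (hray : ∀ t : ℝ, X (t • x) = x) {Z W : E → E} (hZ : Differentiable ℝ Z)
    (hW : Differentiable ℝ W) (t : ℝ) :
    HasDerivAt (fun t : ℝ => g (t • x) (Z (t • x)) (W (t • x)))
      (g (t • x) (lieBracket ℝ X Z (t • x)) (W (t • x))
        + g (t • x) (Z (t • x)) (lieBracket ℝ X W (t • x))) t := by
  have hl : HasDerivAt (fun t : ℝ => t • x) x t := by
    simpa using (hasDerivAt_id t).smul_const x
  have hgd : HasFDerivAt g (fderiv ℝ g (t • x)) (t • x) := (hg (t • x)).hasFDerivAt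
  have h1 : HasDerivAt (fun t : ℝ => g (t • x)) (fderiv ℝ g (t • x) x) t :=
    HasFDerivAt.comp_hasDerivAt (l := g) (f := fun t : ℝ => t • x) t hgd hl
  have h2 : HasDerivAt (fun t : ℝ => Z (t • x)) (fderiv ℝ Z (t • x) x) t :=
    (hZ (t • x)).hasFDerivAt.comp_hasDerivAt t hl
  have h3 : HasDerivAt (fun t : ℝ => W (t • x)) (fderiv ℝ W (t • x) x) t :=
    (hW (t • x)).hasFDerivAt.comp_hasDerivAt t hl
  have h4 := (h1.clm_apply h2).clm_apply h3
  refine h4.congr_deriv ?_
  have hk := hX.2 (t • x) (Z (t • x)) (W (t • x))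
  rw [hray] at hk
  simp only [lieBracket, hray, map_sub, sub_apply,
    add_apply]
  linarith

/-- A field commuting with `X` and zero at the origin is zero on the ray. -/
theorem ray_vanish (hg : Differentiable ℝ g) (hpos : ∀ y u, u ≠ 0 → 0 < g y u u)
    (hX : IsKilling g X) (hray : ∀ t : ℝ, X (t • x) = x) {Z : E → E} (hZ : Differentiable ℝ Z)
    (hXZ : ∀ t : ℝ, lieBracket ℝ X Z (t • x) = 0) (h0 : Z 0 = 0) (t : ℝ) : Z (t • x) = 0 := by
  have h : ∀ s : ℝ, HasDerivAt (fun t : ℝ => g (t • x) (Z (t • x)) (Z (t • x))) 0 s := by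
    intro s
    refine (hasDerivAt_ray hg hX hray hZ hZ s).congr_deriv ?_
    rw [hXZ s]; simp
  have hc := is_const_of_deriv_eq_zero (fun s => (h s).differentiableAt)
    (fun s => (h s).deriv) t 0
  have h00 : g ((0 : ℝ) • x) (Z ((0 : ℝ) • x)) (Z ((0 : ℝ) • x)) = 0 := by
    rw [zero_smul, h0]; simp
  by_contra hne
  have := hpos (t • x) (Z (t • x)) hne
  have h1 : g (t • x) (Z (t • x)) (Z (t • x)) = 0 := by rw [← h00]; exact hc
  linarith

/-- Eigenfields of `ad X`. -/
theorem ray_eigen (hg : Differentiable ℝ g) (hX : IsKilling g X)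
    (hray : ∀ t : ℝ, X (t • x) = x) {Z W : E → E} (hZ : Differentiable ℝ Z)
    (hW : Differentiable ℝ W) {a b : ℝ}
    (hXZ : ∀ t : ℝ, lieBracket ℝ X Z (t • x) = a • Z (t • x))
    (hXW : ∀ t : ℝ, lieBracket ℝ X W (t • x) = b • W (t • x)) (t : ℝ) :
    g (t • x) (Z (t • x)) (W (t • x)) = Real.exp ((a + b) * t) * g 0 (Z 0) (W 0) := by
  have h : ∀ s : ℝ, HasDerivAt
      (fun t : ℝ => Real.exp (-((a + b) * t)) * g (t • x) (Z (t • x)) (W (t • x))) 0 s := by
    intro s
    have h1 := hasDerivAt_ray hg hX hray hZ hW s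
    have h2 : HasDerivAt (fun t : ℝ => Real.exp (-((a + b) * t)))
        (Real.exp (-((a + b) * s)) * (-((a + b) * 1))) s :=
      (((hasDerivAt_id s).const_mul (a + b)).neg).exp
    refine (h2.mul h1).congr_deriv ?_
    rw [hXZ s, hXW s]
    simp only [map_smul, smul_apply, smul_eq_mul]
    ring
  have hc := is_const_of_deriv_eq_zero (fun s => (h s).differentiableAt)
    (fun s => (h s).deriv) t 0
  have h0 : Real.exp (-((a + b) * 0)) * g ((0 : ℝ) • x) (Z ((0 : ℝ) • x)) (W ((0 : ℝ) • x))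
      = g 0 (Z 0) (W 0) := by
    rw [zero_smul, mul_zero, neg_zero, Real.exp_zero, one_mul]
  have hc' : Real.exp (-((a + b) * t)) * g (t • x) (Z (t • x)) (W (t • x)) = g 0 (Z 0) (W 0) := by
    rw [← h0]; exact hc
  rw [← hc', ← mul_assoc, ← Real.exp_add, add_neg_cancel, Real.exp_zero, one_mul]

/-- Sum over a finite family on which `ad X` acts by a skew matrix: constant. -/
theorem ray_sum_const (hg : Differentiable ℝ g) (hX : IsKilling g X)
    (hsymm : ∀ y u v, g y u v = g y v u)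
    (hray : ∀ t : ℝ, X (t • x) = x) {ι : Type*} [Fintype ι] {Z : ι → E → E}
    (hZ : ∀ i, Differentiable ℝ (Z i)) (a : ι → ι → ℝ) (ha : ∀ i j, a i j = -a j i)
    (hXZ : ∀ i, ∀ t : ℝ, lieBracket ℝ X (Z i) (t • x) = ∑ j, a i j • Z j (t • x)) (t : ℝ) :
    ∑ i, g (t • x) (Z i (t • x)) (Z i (t • x)) = ∑ i, g 0 (Z i 0) (Z i 0) := by
  have h : ∀ s : ℝ, HasDerivAt
      (fun t : ℝ => ∑ i, g (t • x) (Z i (t • x)) (Z i (t • x))) 0 s := by
    intro s
    have h1 := HasDerivAt.fun_sum (u := Finset.univ)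
      fun i _ => hasDerivAt_ray hg hX hray (hZ i) (hZ i) s
    refine h1.congr_deriv ?_
    have e1 : ∀ i, g (s • x) (lieBracket ℝ X (Z i) (s • x)) (Z i (s • x))
        + g (s • x) (Z i (s • x)) (lieBracket ℝ X (Z i) (s • x))
        = 2 * ∑ j, a i j * g (s • x) (Z i (s • x)) (Z j (s • x)) := by
      intro i
      rw [hsymm _ (lieBracket ℝ X (Z i) (s • x)), ← two_mul, hXZ i s, map_sum]
      simp only [map_smul, smul_eq_mul]
    rw [Finset.sum_congr rfl fun i _ => e1 i, ← Finset.mul_sum]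
    have e2 : ∑ i, ∑ j, a i j * g (s • x) (Z i (s • x)) (Z j (s • x))
        = -∑ i, ∑ j, a i j * g (s • x) (Z i (s • x)) (Z j (s • x)) := by
      conv_lhs => rw [Finset.sum_comm]
      rw [← Finset.sum_neg_distrib]
      refine Finset.sum_congr rfl fun i _ => ?_
      rw [← Finset.sum_neg_distrib]
      refine Finset.sum_congr rfl fun j _ => ?_
      rw [ha j i, hsymm]; ring
    linarith
  have hc := is_const_of_deriv_eq_zero (fun s => (h s).differentiableAt)
    (fun s => (h s).deriv) t 0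
  have h0 : ∑ i, g ((0 : ℝ) • x) (Z i ((0 : ℝ) • x)) (Z i ((0 : ℝ) • x))
      = ∑ i, g 0 (Z i 0) (Z i 0) := by rw [zero_smul]
  rw [← h0]; exact hc

/-- Bound from the constant sum. -/
theorem ray_bound (hg : Differentiable ℝ g) (hX : IsKilling g X)
    (hsymm : ∀ y u v, g y u v = g y v u) (hpos : ∀ y u, u ≠ 0 → 0 < g y u u)
    (hray : ∀ t : ℝ, X (t • x) = x) {ι : Type*} [Fintype ι] {Z : ι → E → E}
    (hZ : ∀ i, Differentiable ℝ (Z i)) (a : ι → ι → ℝ) (ha : ∀ i j, a i j = -a j i)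
    (hXZ : ∀ i, ∀ t : ℝ, lieBracket ℝ X (Z i) (t • x) = ∑ j, a i j • Z j (t • x))
    (c : ι → ℝ) (t : ℝ) :
    g (t • x) (∑ i, c i • Z i (t • x)) (∑ i, c i • Z i (t • x))
      ≤ (∑ i, c i ^ 2) * ∑ i, g 0 (Z i 0) (Z i 0) := by
  have hnn : ∀ u, 0 ≤ g (t • x) u u := fun u => by
    rcases eq_or_ne u 0 with rfl | h
    · simp
    · exact (hpos _ u h).le
  rw [← ray_sum_const hg hX hsymm hray hZ a ha hXZ t]
  set G : E →L[ℝ] E →L[ℝ] ℝ := g (t • x) with hG
  have hGs : ∀ u v, G u v = G v u := fun u v => hsymm _ u v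
  -- Cauchy-Schwarz for the pairing with coefficients
  have key : ∀ i j, c i * c j * (2 * G (Z i (t • x)) (Z j (t • x)))
      ≤ c j ^ 2 * G (Z i (t • x)) (Z i (t • x)) + c i ^ 2 * G (Z j (t • x)) (Z j (t • x)) := by
    intro i j
    have h := hnn (c j • Z i (t • x) - c i • Z j (t • x))
    simp only [map_sub, map_smul, sub_apply, smul_apply,
      smul_eq_mul] at h
    rw [hGs (Z j (t • x)) (Z i (t • x))] at h
    nlinarith [h]
  have e1 : G (∑ i, c i • Z i (t • x)) (∑ i, c i • Z i (t • x))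
      = ∑ i, ∑ j, c i * c j * G (Z i (t • x)) (Z j (t • x)) := by
    simp only [map_sum, sum_apply, map_smul, smul_apply,
      smul_eq_mul]
    refine Finset.sum_congr rfl fun i _ => ?_
    rw [Finset.mul_sum]
    refine Finset.sum_congr rfl fun j _ => ?_
    rw [hGs (Z j (t • x))]
    ring
  have e2 : (∑ i, c i ^ 2) * ∑ i, G (Z i (t • x)) (Z i (t • x))
      = ∑ i, ∑ j, c i ^ 2 * G (Z j (t • x)) (Z j (t • x)) := by
    rw [Finset.sum_mul_sum]
  have e3 : ∑ i, ∑ j, c i ^ 2 * G (Z j (t • x)) (Z j (t • x))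
      = ∑ i, ∑ j, c j ^ 2 * G (Z i (t • x)) (Z i (t • x)) := Finset.sum_comm
  have h2 : 2 * ∑ i, ∑ j, c i * c j * G (Z i (t • x)) (Z j (t • x))
      ≤ ∑ i, ∑ j, (c j ^ 2 * G (Z i (t • x)) (Z i (t • x))
        + c i ^ 2 * G (Z j (t • x)) (Z j (t • x))) := by
    rw [Finset.mul_sum]
    refine Finset.sum_le_sum fun i _ => ?_
    rw [Finset.mul_sum]
    refine Finset.sum_le_sum fun j _ => ?_
    have := key i j
    linarith
  simp only [Finset.sum_add_distrib] at h2
  rw [e1, e2]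
  linarith

end general

section euclid

variable {E : Type*} [NormedAddCommGroup E] [InnerProductSpace ℝ E]
  {g : E → E →L[ℝ] E →L[ℝ] ℝ} {X : E → E} {x : E}

open scoped InnerProductSpace

/-- The fields attached to an eigenvector `v` of the Jacobi operator with eigenvalue `l²`:
`K` is the rotation with `K (t • x) = t • v`. -/
structure Str (X K V U : E → E) (x v : E) (m : ℝ) : Prop where
  dK : Differentiable ℝ K
  dV : Differentiable ℝ V
  dU : Differentiable ℝ U
  bK : ∀ t : ℝ, lieBracket ℝ X K (t • x) = V (t • x)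
  bV : ∀ t : ℝ, lieBracket ℝ X V (t • x) = U (t • x)
  bU : ∀ t : ℝ, lieBracket ℝ X U (t • x) = m • V (t • x)
  K0 : K 0 = 0
  V0 : V 0 = v
  U0 : U 0 = 0

/-- In the split case `K` is a multiple of `U` on the ray. -/
theorem Str.K_eq (hg : Differentiable ℝ g) (hpos : ∀ y u, u ≠ 0 → 0 < g y u u)
    (hX : IsKilling g X) (hray : ∀ t : ℝ, X (t • x) = x) {K V U : E → E} {v : E} {l : ℝ}
    (hl : l ≠ 0) (h : Str X K V U x v (l ^ 2)) (t : ℝ) :
    K (t • x) = (l ^ 2)⁻¹ • U (t • x) := by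
  have hd : Differentiable ℝ (K - (l ^ 2)⁻¹ • U) := h.dK.sub (h.dU.const_smul _)
  have hz := ray_vanish hg hpos hX hray hd (fun s => ?_) (by simp [h.K0, h.U0]) t
  · simpa [sub_eq_zero] using hz
  · have e : K - (l ^ 2)⁻¹ • U = K + (-(l ^ 2)⁻¹) • U := by
      rw [neg_smul, sub_eq_add_neg]
    rw [e, lieBracket_add_right (h.dK _) ((h.dU _).const_smul _),
      lieBracket_const_smul_right (h.dU _), h.bK, h.bU, smul_smul, neg_mul,
      inv_mul_cancel₀ (pow_ne_zero 2 hl), neg_smul, one_smul, add_neg_cancel]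

theorem Str.bp {K V U : E → E} {v : E} {l : ℝ} (h : Str X K V U x v (l ^ 2)) (s : ℝ)
    (hs : s ^ 2 = 1) (t : ℝ) :
    lieBracket ℝ X (l • V + s • U) (t • x) = (s * l) • (l • V + s • U) (t • x) := by
  rw [lieBracket_add_right ((h.dV _).const_smul _) ((h.dU _).const_smul _),
    lieBracket_const_smul_right (h.dV _), lieBracket_const_smul_right (h.dU _), h.bV, h.bU]
  simp only [Pi.add_apply, Pi.smul_apply, smul_add, smul_smul]
  have e1 : s * l * s = l := by
    calc s * l * s = s ^ 2 * l := by ring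
      _ = l := by rw [hs, one_mul]
  have e2 : s * l * l = s * l ^ 2 := by ring
  rw [e1, e2, add_comm]

/-- The metric along the ray in the split case. -/
theorem ray_split (hg : Differentiable ℝ g) (hpos : ∀ y u, u ≠ 0 → 0 < g y u u)
    (hX : IsKilling g X) (hray : ∀ t : ℝ, X (t • x) = x) {K V U K' V' U' : E → E} {v v' : E}
    {l l' : ℝ} (hl : l ≠ 0) (hl' : l' ≠ 0) (h : Str X K V U x v (l ^ 2))
    (h' : Str X K' V' U' x v' (l' ^ 2)) (t : ℝ) :
    g (t • x) (K (t • x)) (K' (t • x))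
      = Real.sinh (l * t) / l * (Real.sinh (l' * t) / l') * g 0 v v' := by
  have hd : ∀ s : ℝ, Differentiable ℝ (l • V + s • U) := fun s =>
    (h.dV.const_smul _).add (h.dU.const_smul _)
  have hd' : ∀ s : ℝ, Differentiable ℝ (l' • V' + s • U') := fun s =>
    (h'.dV.const_smul _).add (h'.dU.const_smul _)
  have key : ∀ s s' : ℝ, s ^ 2 = 1 → s' ^ 2 = 1 →
      g (t • x) ((l • V + s • U) (t • x)) ((l' • V' + s' • U') (t • x))
        = Real.exp ((s * l + s' * l') * t) * (l * l' * g 0 v v') := by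
    intro s s' hs hs'
    rw [ray_eigen hg hX hray (hd s) (hd' s') (fun r => h.bp s hs r)
      (fun r => h'.bp s' hs' r)]
    congr 1
    simp only [Pi.add_apply, Pi.smul_apply, h.V0, h.U0, h'.V0, h'.U0, smul_zero, add_zero,
      map_smul, smul_apply, smul_eq_mul]
    ring
  have hU : U (t • x) = (1 / 2 : ℝ) • ((l • V + (1 : ℝ) • U) (t • x)
      - (l • V + (-1 : ℝ) • U) (t • x)) := by
    simp only [Pi.add_apply, Pi.smul_apply]
    module
  have hU' : U' (t • x) = (1 / 2 : ℝ) • ((l' • V' + (1 : ℝ) • U') (t • x)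
      - (l' • V' + (-1 : ℝ) • U') (t • x)) := by
    simp only [Pi.add_apply, Pi.smul_apply]
    module
  rw [h.K_eq hg hpos hX hray hl, h'.K_eq hg hpos hX hray hl', hU, hU']
  simp only [map_smul, map_sub, smul_apply, sub_apply, smul_eq_mul]
  rw [key 1 1 (by norm_num) (by norm_num), key 1 (-1) (by norm_num) (by norm_num),
    key (-1) 1 (by norm_num) (by norm_num), key (-1) (-1) (by norm_num) (by norm_num)]
  rw [Real.sinh_eq, Real.sinh_eq]
  have e1 : Real.exp ((1 * l + 1 * l') * t) = Real.exp (l * t) * Real.exp (l' * t) := by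
    rw [← Real.exp_add]; ring_nf
  have e2 : Real.exp ((1 * l + -1 * l') * t) = Real.exp (l * t) * Real.exp (-(l' * t)) := by
    rw [← Real.exp_add]; ring_nf
  have e3 : Real.exp ((-1 * l + 1 * l') * t) = Real.exp (-(l * t)) * Real.exp (l' * t) := by
    rw [← Real.exp_add]; ring_nf
  have e4 : Real.exp ((-1 * l + -1 * l') * t) = Real.exp (-(l * t)) * Real.exp (-(l' * t)) := by
    rw [← Real.exp_add]; ring_nf
  rw [e1, e2, e3, e4]
  field_simp

/-- The metric along the ray in the flat case. -/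
theorem ray_flat (hg : Differentiable ℝ g)
    (hX : IsKilling g X) (hray : ∀ t : ℝ, X (t • x) = x) {K V K' V' : E → E} {v v' : E}
    (h : Str X K V 0 x v 0) (h' : Str X K' V' 0 x v' 0) (t : ℝ) :
    g (t • x) (K (t • x)) (K' (t • x)) = t ^ 2 * g 0 v v' := by
  have hVV : ∀ s : ℝ, g (s • x) (V (s • x)) (V' (s • x)) = g 0 v v' := by
    intro s
    have := ray_eigen hg hX hray h.dV h'.dV (a := 0) (b := 0)
      (fun r => by rw [h.bV]; simp) (fun r => by rw [h'.bV]; simp) s
    rw [this, h.V0, h'.V0]; simp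
  have hKV : ∀ s : ℝ, g (s • x) (K (s • x)) (V' (s • x)) = s * g 0 v v' := by
    have hh : ∀ s : ℝ, HasDerivAt
        (fun t : ℝ => g (t • x) (K (t • x)) (V' (t • x)) - t * g 0 v v') 0 s := by
      intro s
      have h1 := hasDerivAt_ray hg hX hray h.dK h'.dV s
      have h2 : HasDerivAt (fun t : ℝ => t * g 0 v v') (1 * g 0 v v') s :=
        (hasDerivAt_id s).mul_const _
      refine (h1.sub h2).congr_deriv ?_
      rw [h.bK, h'.bV, hVV]; simp
    intro s
    have hc := is_const_of_deriv_eq_zero (fun s => (hh s).differentiableAt)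
      (fun s => (hh s).deriv) s 0
    simp only [zero_smul, h.K0, map_zero, zero_apply, zero_mul, sub_zero] at hc
    linarith
  have hVK : ∀ s : ℝ, g (s • x) (V (s • x)) (K' (s • x)) = s * g 0 v v' := by
    have hh : ∀ s : ℝ, HasDerivAt
        (fun t : ℝ => g (t • x) (V (t • x)) (K' (t • x)) - t * g 0 v v') 0 s := by
      intro s
      have h1 := hasDerivAt_ray hg hX hray h.dV h'.dK s
      have h2 : HasDerivAt (fun t : ℝ => t * g 0 v v') (1 * g 0 v v') s :=
        (hasDerivAt_id s).mul_const _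
      refine (h1.sub h2).congr_deriv ?_
      rw [h.bV, h'.bK, hVV]; simp
    intro s
    have hc := is_const_of_deriv_eq_zero (fun s => (hh s).differentiableAt)
      (fun s => (hh s).deriv) s 0
    simp only [zero_smul, h'.K0, map_zero, zero_mul, sub_zero] at hc
    linarith
  have hh : ∀ s : ℝ, HasDerivAt
      (fun t : ℝ => g (t • x) (K (t • x)) (K' (t • x)) - t ^ 2 * g 0 v v') 0 s := by
    intro s
    have h1 := hasDerivAt_ray hg hX hray h.dK h'.dK s
    have h2 : HasDerivAt (fun t : ℝ => t ^ 2 * g 0 v v') (2 * s ^ 1 * 1 * g 0 v v') s := by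
      have := ((hasDerivAt_id s).pow 2).mul_const (g 0 v v')
      simpa using this
    refine (h1.sub h2).congr_deriv ?_
    rw [h.bK, h'.bK, hKV, hVK]; ring
  have hc := is_const_of_deriv_eq_zero (fun s => (hh s).differentiableAt)
    (fun s => (hh s).deriv) t 0
  simp only [zero_smul, h.K0, map_zero, zero_apply] at hc
  linarith

end euclid

end Pool.Agent.Work.MP_3b24f6_gt.Ray
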