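import Pool.Agent.Work.MP_3b24f6_gt.S.Alg2

set_option autoImplicit false

open scoped InnerProductSpace ContDiff
open Module

/-! The metric along a ray, algebraic part. -/

namespace Pool.Agent.Work.MP_3b24f6_gt.Froz

noncomputable section

variable {L : Type*} [LieRing L] [LieAlgebra ℝ L]
  {E : Type*} [NormedAddCommGroup E] [InnerProductSpace ℝ E]

namespace SymData

variable (D : SymData L E)

/-- Eigenvectors along the ray. -/
theorem ray_eig {x : E} {F : ℝ → L →ₗ[ℝ] L →ₗ[ℝ] ℝ}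
    (hF0 : ∀ Z W, F 0 Z W = ⟪D.ev Z, D.ev W⟫_ℝ)
    (hF : ∀ t Z W, HasDerivAt (fun t => F t Z W)
      (F t ⁅D.hat x, Z⁆ W + F t Z ⁅D.hat x, W⁆) t)
    {Z W : L} {a b : ℝ} (hZ : ⁅D.hat x, Z⁆ = a • Z) (hW : ⁅D.hat x, W⁆ = b • W) (t : ℝ) :
    F t Z W = Real.exp ((a + b) * t) * ⟪D.ev Z, D.ev W⟫_ℝ := by
  have hd : ∀ t, HasDerivAt (fun t => Real.exp (-(a + b) * t) * F t Z W) 0 t := by
    intro t
    have h1 : HasDerivAt (fun t => Real.exp (-(a + b) * t))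
        (Real.exp (-(a + b) * t) * (-(a + b))) t := by
      have := ((hasDerivAt_id t).const_mul (-(a + b))).exp
      simpa using this
    have h2 := h1.mul (hF t Z W)
    refine h2.congr_deriv ?_
    rw [hZ, hW]
    simp only [map_smul, LinearMap.smul_apply, smul_eq_mul]
    ring
  have hc := is_const_of_deriv_eq_zero (fun t => (hd t).differentiableAt)
    (fun t => (hd t).deriv) t 0
  simp only [mul_zero, Real.exp_zero, one_mul] at hc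
  rw [← hF0, ← hc, ← mul_assoc, ← Real.exp_add]
  have : (a + b) * t + -(a + b) * t = 0 := by ring
  rw [this, Real.exp_zero, one_mul]

/-- The element of the isotropy algebra with `[hat x, u] = hat v` for an eigenvector `v`. -/
def uc (x : E) (c : ℝ) (v : E) : L :=
  (2 * c)⁻¹ • ((D.hat v + c⁻¹ • ⁅D.hat x, D.hat v⁆)
    - (D.hat v + (-c)⁻¹ • ⁅D.hat x, D.hat v⁆))

theorem ev_uc (x : E) (c : ℝ) (v : E) : D.ev (D.uc x c v) = 0 := by
  unfold uc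
  rw [map_smul, map_sub, map_add, map_add, map_smul, map_smul, D.pp, smul_zero, smul_zero,
    sub_self, smul_zero]

theorem lie_uc {x : E} {c : ℝ} (hc : c ≠ 0) {v : E} (h : D.P x v = c ^ 2 • v) :
    ⁅D.hat x, D.uc x c v⁆ = D.hat v := by
  have h' : D.P x v = (-c) ^ 2 • v := by rw [h]; congr 1; ring
  unfold uc
  rw [lie_smul, lie_sub, D.lie_plus hc h, D.lie_plus (neg_ne_zero.mpr hc) h']
  match_scalars
  · field_simp
    norm_num
  · field_simp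
    norm_num

theorem ray_uc {x : E} {F : ℝ → L →ₗ[ℝ] L →ₗ[ℝ] ℝ}
    (hF0 : ∀ Z W, F 0 Z W = ⟪D.ev Z, D.ev W⟫_ℝ)
    (hF : ∀ t Z W, HasDerivAt (fun t => F t Z W)
      (F t ⁅D.hat x, Z⁆ W + F t Z ⁅D.hat x, W⁆) t)
    {v v' : E} {c c' : ℝ} (hc : c ≠ 0) (hc' : c' ≠ 0) (hv : D.P x v = c ^ 2 • v)
    (hv' : D.P x v' = c' ^ 2 • v') (t : ℝ) :
    F t (D.uc x c v) (D.uc x c' v') =
      (Real.sinh (c * t) / c) * (Real.sinh (c' * t) / c') * ⟪v, v'⟫_ℝ := by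
  have hvn : D.P x v = (-c) ^ 2 • v := by rw [hv]; congr 1; ring
  have hvn' : D.P x v' = (-c') ^ 2 • v' := by rw [hv']; congr 1; ring
  have e1 := D.lie_plus hc hv
  have e2 := D.lie_plus (neg_ne_zero.mpr hc) hvn
  have e3 := D.lie_plus hc' hv'
  have e4 := D.lie_plus (neg_ne_zero.mpr hc') hvn'
  have ev1 : ∀ (s : ℝ) (u : E), D.ev (D.hat u + s • ⁅D.hat x, D.hat u⁆) = u := by
    intro s u
    rw [map_add, map_smul, D.ev_hat, D.pp, smul_zero, add_zero]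
  unfold uc
  simp only [map_smul, map_sub, LinearMap.smul_apply, LinearMap.sub_apply, smul_eq_mul]
  rw [D.ray_eig hF0 hF e1 e3, D.ray_eig hF0 hF e1 e4, D.ray_eig hF0 hF e2 e3,
    D.ray_eig hF0 hF e2 e4]
  simp only [ev1]
  rw [Real.sinh_eq, Real.sinh_eq]
  have x1 : (c + c') * t = c * t + c' * t := by ring
  have x2 : (c + -c') * t = c * t + -(c' * t) := by ring
  have x3 : (-c + c') * t = -(c * t) + c' * t := by ring
  have x4 : (-c + -c') * t = -(c * t) + -(c' * t) := by ring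
  rw [x1, x2, x3, x4, Real.exp_add, Real.exp_add, Real.exp_add, Real.exp_add]
  field_simp

/-- **Metric along the ray** (algebraic form). -/
theorem ray_formula {l : ℝ} (hl : 0 < l) {Q : E → E →L[ℝ] E}
    (hP : ∀ y v, D.P y v = l ^ 2 • (‖y‖ ^ 2 • v - ⟪y, v⟫_ℝ • y) + (3 * l ^ 2) • Q y v)
    (hQs : ∀ y u v, ⟪Q y u, v⟫_ℝ = ⟪u, Q y v⟫_ℝ) (hQ0 : ∀ y, Q y y = 0)
    (hQQ : ∀ y v, Q y (Q y v) = ‖y‖ ^ 2 • Q y v)
    {x : E} (hx : ‖x‖ = 1) {F : ℝ → L →ₗ[ℝ] L →ₗ[ℝ] ℝ}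
    (hF0 : ∀ Z W, F 0 Z W = ⟪D.ev Z, D.ev W⟫_ℝ)
    (hF : ∀ t Z W, HasDerivAt (fun t => F t Z W)
      (F t ⁅D.hat x, Z⁆ W + F t Z ⁅D.hat x, W⁆) t)
    {k k' : L} (hk : D.ev k = 0) (hk' : D.ev k' = 0) (t : ℝ) :
    F t k k' = (Real.sinh (l * t) / l) ^ 2 *
        (⟪D.ev ⁅D.hat x, k⁆, D.ev ⁅D.hat x, k'⁆⟫_ℝ
          - ⟪Q x (D.ev ⁅D.hat x, k⁆), D.ev ⁅D.hat x, k'⁆⟫_ℝ)
      + (Real.sinh (2 * l * t) / (2 * l)) ^ 2 *
        ⟪Q x (D.ev ⁅D.hat x, k⁆), D.ev ⁅D.hat x, k'⁆⟫_ℝ := by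
  have hlie : ∀ k, D.ev k = 0 → ⁅D.hat x, k⁆ = D.hat (D.ev ⁅D.hat x, k⁆) := by
    intro k hk
    have e : ⁅D.hat x, k⁆ = -⁅k, D.hat x⁆ := (lie_skew _ _).symm
    rw [e, map_neg, map_neg, D.kp k hk]
  have horth : ∀ k, D.ev k = 0 → ⟪x, D.ev ⁅D.hat x, k⁆⟫_ℝ = 0 := by
    intro k hk
    have e : ⁅D.hat x, k⁆ = -⁅k, D.hat x⁆ := (lie_skew _ _).symm
    have h1 := D.skew k hk x x
    rw [e, map_neg, inner_neg_right]
    rw [real_inner_comm] at h1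
    linarith
  have hl0 : l ≠ 0 := hl.ne'
  have h2l : 2 * l ≠ 0 := by positivity
  have hQorth : ∀ v, ⟪x, Q x v⟫_ℝ = 0 := by
    intro v
    rw [← hQs, hQ0, inner_zero_left]
  have hQQx : ∀ v, Q x (Q x v) = Q x v := by
    intro v
    rw [hQQ, hx]; simp
  have hP1 : ∀ v, ⟪x, v⟫_ℝ = 0 → D.P x (v - Q x v) = l ^ 2 • (v - Q x v) := by
    intro v hv
    rw [hP, hx, inner_sub_right, hv, hQorth, map_sub, hQQx]
    module
  have hP2 : ∀ v, D.P x (Q x v) = (2 * l) ^ 2 • Q x v := by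
    intro v
    rw [hP, hx, hQorth, hQQx]
    module
  set v := D.ev ⁅D.hat x, k⁆ with hv
  set v' := D.ev ⁅D.hat x, k'⁆ with hv'
  have hvx : ⟪x, v⟫_ℝ = 0 := horth k hk
  have hvx' : ⟪x, v'⟫_ℝ = 0 := horth k' hk'
  set u1 := D.uc x l (v - Q x v) with hu1
  set u2 := D.uc x (2 * l) (Q x v) with hu2
  set u1' := D.uc x l (v' - Q x v') with hu1'
  set u2' := D.uc x (2 * l) (Q x v') with hu2'
  set k0 := k - u1 - u2 with hk0
  set k0' := k' - u1' - u2' with hk0'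
  have hz : ⁅D.hat x, k0⁆ = (0 : ℝ) • k0 := by
    rw [hk0, lie_sub, lie_sub, hlie k hk, ← hv, hu1, hu2, D.lie_uc hl0 (hP1 v hvx),
      D.lie_uc h2l (hP2 v), ← map_sub, ← map_sub, zero_smul]
    simp
  have hz' : ⁅D.hat x, k0'⁆ = (0 : ℝ) • k0' := by
    rw [hk0', lie_sub, lie_sub, hlie k' hk', ← hv', hu1', hu2', D.lie_uc hl0 (hP1 v' hvx'),
      D.lie_uc h2l (hP2 v'), ← map_sub, ← map_sub, zero_smul]
    simp
  have hev0 : D.ev k0 = 0 := by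
    rw [hk0, map_sub, map_sub, hk, hu1, hu2, D.ev_uc, D.ev_uc]; simp
  have hev0' : D.ev k0' = 0 := by
    rw [hk0', map_sub, map_sub, hk', hu1', hu2', D.ev_uc, D.ev_uc]; simp
  have hkk : k = k0 + u1 + u2 := by rw [hk0]; abel
  have hkk' : k' = k0' + u1' + u2' := by rw [hk0']; abel
  -- the mixed terms with `k0`
  have hA : ∀ (c : ℝ) (w : E), c ≠ 0 → D.P x w = c ^ 2 • w → F t k0 (D.uc x c w) = 0 := by
    intro c w hc hw
    have hwn : D.P x w = (-c) ^ 2 • w := by rw [hw]; congr 1; ring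
    unfold uc
    simp only [map_smul, map_sub, smul_eq_mul]
    rw [D.ray_eig hF0 hF hz (D.lie_plus hc hw),
      D.ray_eig hF0 hF hz (D.lie_plus (neg_ne_zero.mpr hc) hwn), hev0]
    simp
  have hB : ∀ (c : ℝ) (w : E), c ≠ 0 → D.P x w = c ^ 2 • w → F t (D.uc x c w) k0' = 0 := by
    intro c w hc hw
    have hwn : D.P x w = (-c) ^ 2 • w := by rw [hw]; congr 1; ring
    unfold uc
    simp only [map_smul, map_sub, LinearMap.smul_apply, LinearMap.sub_apply, smul_eq_mul]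
    rw [D.ray_eig hF0 hF (D.lie_plus hc hw) hz',
      D.ray_eig hF0 hF (D.lie_plus (neg_ne_zero.mpr hc) hwn) hz', hev0']
    simp
  have hC : F t k0 k0' = 0 := by
    rw [D.ray_eig hF0 hF hz hz', hev0, inner_zero_left, mul_zero]
  have i11 : ⟪v - Q x v, v' - Q x v'⟫_ℝ = ⟪v, v'⟫_ℝ - ⟪Q x v, v'⟫_ℝ := by
    rw [inner_sub_left, inner_sub_right, inner_sub_right, ← hQs x (Q x v) v', hQQx,
      ← hQs x v v']
    ring
  have i12 : ⟪v - Q x v, Q x v'⟫_ℝ = 0 := by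
    rw [inner_sub_left, ← hQs x (Q x v) v', hQQx, ← hQs x v v']
    ring
  have i21 : ⟪Q x v, v' - Q x v'⟫_ℝ = 0 := by
    rw [inner_sub_right, ← hQs x (Q x v) v', hQQx]
    ring
  have i22 : ⟪Q x v, Q x v'⟫_ℝ = ⟪Q x v, v'⟫_ℝ := by
    rw [← hQs x (Q x v) v', hQQx]
  rw [hkk, hkk']
  simp only [map_add, LinearMap.add_apply]
  rw [hC, hu1, hu2, hu1', hu2', hA _ _ hl0 (hP1 v' hvx'), hA _ _ h2l (hP2 v'),
    hB _ _ hl0 (hP1 v hvx), hB _ _ h2l (hP2 v), D.ray_uc hF0 hF hl0 hl0 (hP1 v hvx) (hP1 v' hvx'),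
    D.ray_uc hF0 hF hl0 h2l (hP1 v hvx) (hP2 v'), D.ray_uc hF0 hF h2l hl0 (hP2 v) (hP1 v' hvx'),
    D.ray_uc hF0 hF h2l h2l (hP2 v) (hP2 v'), i11, i12, i21, i22]
  ring

end SymData

end

end Pool.Agent.Work.MP_3b24f6_gt.Froz
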