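import Pool.Agent.Work.MP_3b24f6_gt.S.Alg1
import Pool.Agent.Work.MP_3b24f6_gt.S.RayAlg
import Pool.Agent.Work.MP_3b24f6_gt.S.Ray
import Pool.Agent.Work.MP_3b24f6_gt.S.KillHom
import Pool.Agent.Work.MP_3b24f6_gt.S.KillLin
import Pool.Agent.Work.MP_3b24f6_gt.S.Prolong
import Pool.Agent.Work.MP_3b24f6_gt.S.Glob
import Pool.Agent.Work.MP_3b24f6_gt.ModelB

/-!
# Two-point homogeneous metrics in normal coordinates: flat, real hyperbolic or of the form `Ver`
-/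

set_option autoImplicit false
set_option linter.unusedSectionVars false
set_option maxSynthPendingDepth 3

open scoped InnerProductSpace ContDiff
open VectorField Module

namespace Pool.Agent.Work.MP_3b24f6_gt.Rank

noncomputable section

open Froz

variable {E : Type*} [NormedAddCommGroup E] [InnerProductSpace ℝ E] [FiniteDimensional ℝ E]
  {g : E → E →L[ℝ] E →L[ℝ] ℝ}
  {L : Type*} [LieRing L] [LieAlgebra ℝ L]

/-- The Lie algebra `L` is realised by Killing fields of `g`. -/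
structure Kil (g : E → E →L[ℝ] E →L[ℝ] ℝ) (D : HomAlg E L) where
  r : L →ₗ[ℝ] (E → E)
  kill : ∀ X, IsKilling g (r X)
  brk : ∀ X Y, r ⁅X, Y⁆ = lieBracket ℝ (r X) (r Y)
  ev_eq : ∀ X, D.ev X = r X 0
  transl : ∀ x : E, ‖x‖ = 1 → ∃ X : L, ∀ t : ℝ, r X (t • x) = x
  lin : ∀ x v : E, ‖x‖ = 1 → ⟪x, v⟫_ℝ = 0 →
    ∃ (k : L) (A : E →L[ℝ] E), (∀ y, r k y = A y) ∧ A x = v
  dskew : ∀ X u v, ⟪fderiv ℝ (r X) 0 u, v⟫_ℝ = -⟪u, fderiv ℝ (r X) 0 v⟫_ℝ

namespace Kil

variable {D : HomAlg E L} (R : Kil g D)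
include R

theorem diff (X : L) : Differentiable ℝ (R.r X) := (R.kill X).1.differentiable (by simp)

theorem ev_lie (X Y : L) :
    D.ev ⁅X, Y⁆ = fderiv ℝ (R.r Y) 0 (D.ev X) - fderiv ℝ (R.r X) 0 (D.ev Y) := by
  rw [R.ev_eq, R.brk, R.ev_eq, R.ev_eq]
  rfl

theorem d_add (X Y : L) (v : E) :
    fderiv ℝ (R.r (X + Y)) 0 v = fderiv ℝ (R.r X) 0 v + fderiv ℝ (R.r Y) 0 v := by
  rw [map_add, fderiv_add (R.diff X 0) (R.diff Y 0)]
  rfl

theorem d_sub (X Y : L) (v : E) :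
    fderiv ℝ (R.r (X - Y)) 0 v = fderiv ℝ (R.r X) 0 v - fderiv ℝ (R.r Y) 0 v := by
  rw [map_sub, fderiv_sub (R.diff X 0) (R.diff Y 0)]
  rfl

variable [FiniteDimensional ℝ L]

/-- If the complement brackets into the isotropy algebra, then its elements have zero derivative. -/
theorem d_hat (h0 : ∀ x y, D.ev ⁅D.hat x, D.hat y⁆ = 0) (x v : E) :
    fderiv ℝ (R.r (D.hat x)) 0 v = 0 := by
  have hs : ∀ x y, fderiv ℝ (R.r (D.hat x)) 0 y = fderiv ℝ (R.r (D.hat y)) 0 x := by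
    intro x y
    have h := R.ev_lie (D.hat x) (D.hat y)
    rw [h0, D.ev_hat, D.ev_hat] at h
    exact (sub_eq_zero.1 h.symm).symm
  have h1 : ∀ x y z, ⟪fderiv ℝ (R.r (D.hat x)) 0 y, z⟫_ℝ
      = ⟪fderiv ℝ (R.r (D.hat y)) 0 x, z⟫_ℝ := fun x y z => by rw [hs]
  have h2 : ∀ x y z, ⟪fderiv ℝ (R.r (D.hat x)) 0 y, z⟫_ℝ
      = -⟪fderiv ℝ (R.r (D.hat x)) 0 z, y⟫_ℝ := fun x y z => by
    rw [R.dskew, real_inner_comm]
  have key : ∀ z, ⟪fderiv ℝ (R.r (D.hat x)) 0 v, z⟫_ℝ = 0 := by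
    intro z
    have e : ⟪fderiv ℝ (R.r (D.hat x)) 0 v, z⟫_ℝ
        = -⟪fderiv ℝ (R.r (D.hat x)) 0 v, z⟫_ℝ := by
      conv_lhs => rw [h2, h1, h2, neg_neg, h1, h2, h1]
    linarith
  exact inner_self_eq_zero.1 (key _)


/-- The canonical field `D.hat x` is equal to `x` on the ray of `x`. -/
theorem hat_ray (hg : IsMetric g) (h0 : ∀ x y, D.ev ⁅D.hat x, D.hat y⁆ = 0)
    {x : E} (hx : ‖x‖ = 1) (t : ℝ) : R.r (D.hat x) (t • x) = x := by
  have hgd : Differentiable ℝ g := hg.smooth.differentiable (by simp)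
  obtain ⟨X, hX⟩ := R.transl x hx
  have hX0 : D.ev X = x := by
    rw [R.ev_eq]
    have := hX 0
    rwa [zero_smul] at this
  have hXd : fderiv ℝ (R.r X) 0 x = 0 := by
    have h1 : HasFDerivAt (R.r X) (fderiv ℝ (R.r X) ((0 : ℝ) • x)) ((0 : ℝ) • x) :=
      (R.diff X _).hasFDerivAt
    have h2 : HasDerivAt (fun t : ℝ => t • x) x 0 := by
      simpa using (hasDerivAt_id (0 : ℝ)).smul_const x
    have h3 : HasDerivAt (fun t : ℝ => R.r X (t • x)) (fderiv ℝ (R.r X) ((0 : ℝ) • x) x) 0 :=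
      h1.comp_hasDerivAt 0 h2
    have h4 : (fun t : ℝ => R.r X (t • x)) = fun _ => x := funext hX
    rw [h4] at h3
    have h5 := h3.unique (hasDerivAt_const 0 x)
    rwa [zero_smul] at h5
  set k : L := X - D.hat x with hk
  have hk0 : D.ev k = 0 := by rw [hk, map_sub, hX0, D.ev_hat, sub_self]
  have hrho : D.rho k x = 0 := by
    rw [D.rho_apply, R.ev_lie, hk0, D.ev_hat, map_zero, zero_sub, hk, R.d_sub, hXd,
      R.d_hat h0, sub_self, neg_zero]
  have hkx : ⁅D.hat x, k⁆ = 0 := by rw [D.hat_lie hk0, hrho, map_zero, neg_zero]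
  have hXk : ⁅X, k⁆ = 0 := by
    have e : X = D.hat x + k := by rw [hk]; abel
    conv_lhs => rw [e]
    rw [add_lie, hkx, lie_self, add_zero]
  have hkz : R.r k (t • x) = 0 := by
    refine Ray.ray_vanish hgd hg.pos (R.kill X) hX (R.diff k) (fun s => ?_) ?_ t
    · rw [← R.brk, hXk, map_zero]; rfl
    · rw [← R.ev_eq, hk0]
  rw [hk, map_sub, Pi.sub_apply, hX, sub_eq_zero] at hkz
  exact hkz.symm

/-- The metric at `t • x` as a bilinear form on the Lie algebra. -/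
def form (x : E) (t : ℝ) : L →ₗ[ℝ] L →ₗ[ℝ] ℝ :=
  LinearMap.mk₂ ℝ (fun Z W => g (t • x) (R.r Z (t • x)) (R.r W (t • x)))
    (fun Z Z' W => by simp) (fun c Z W => by simp) (fun Z W W' => by simp) (fun c Z W => by simp)

theorem form_apply (x : E) (t : ℝ) (Z W : L) :
    R.form x t Z W = g (t • x) (R.r Z (t • x)) (R.r W (t • x)) := rfl

/-- **The noncompact case.** -/
theorem case_pos (hg : IsMetric g) (hat0 : ∀ u v, g 0 u v = ⟪u, v⟫_ℝ) (hc : 0 < D.c)
    (hE : 2 ≤ finrank ℝ E) :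
    ∃ (l : ℝ) (w : ℕ) (Q : E → E →L[ℝ] E), 0 < l ∧
      ContDiff ℝ ∞ Q ∧ (∀ y u v, ⟪Q y u, v⟫_ℝ = ⟪u, Q y v⟫_ℝ) ∧ (∀ y, Q y y = 0) ∧
      (∀ y v, Q y (Q y v) = ‖y‖ ^ 2 • Q y v) ∧
      (∀ y, LinearMap.trace ℝ E (Q y : E →ₗ[ℝ] E) = w * ‖y‖ ^ 2) ∧
      (∀ (c : ℝ) y, Q (c • y) = c ^ 2 • Q y) ∧ 2 * w + 2 ≤ finrank ℝ E ∧
      (w = 0 → ∀ y, Q y = 0) ∧
      ∀ (x v : E) (t : ℝ), ‖x‖ = 1 → ⟪x, v⟫_ℝ = 0 →
        g (t • x) (t • v) (t • v) = (Real.sinh (l * t) / l) ^ 2 * (⟪v, v⟫_ℝ - ⟪Q x v, v⟫_ℝ)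
          + (Real.sinh (2 * l * t) / (2 * l)) ^ 2 * ⟪Q x v, v⟫_ℝ := by
  have hgd : Differentiable ℝ g := hg.smooth.differentiable (by simp)
  let S : SymData L E :=
    { hat := D.hat
      ev := D.ev
      ev_hat := D.ev_hat
      pp := D.ev_lie_hat_hat hc
      kp := fun k hk x => D.kp hk x
      skew := fun k hk x y => D.skew_hat hk x y
      pos := fun x y hx hxy hy => D.pos_ev_lie_lie hc hx hxy hy
      trans := fun x x' hx hx' => D.trans' (hx.trans hx'.symm) }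
  obtain ⟨l, w, Q, hl, hP, hQ1, hQ2, hQ3, hQ4, hQ5, hQ6, hQ7, hQ8⟩ := S.exists_ver_data hE
  refine ⟨l, w, Q, hl, hQ1, hQ2, hQ3, hQ4, hQ5, hQ6, hQ7, hQ8, fun x v t hx hxv => ?_⟩
  obtain ⟨k, A, hkA, hAx⟩ := R.lin x v hx hxv
  have hk0 : D.ev k = 0 := by rw [R.ev_eq, hkA, map_zero]
  have hray := R.hat_ray hg (D.ev_lie_hat_hat hc) hx
  have hkfun : R.r k = fun y => A y := funext hkA
  have hkd : D.ev ⁅D.hat x, k⁆ = v := by
    rw [R.ev_lie, hk0, map_zero, sub_zero, D.ev_hat, hkfun, A.fderiv, hAx]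
  have h := S.ray_formula hl hP hQ2 hQ3 hQ4 hx (F := R.form x)
    (fun Z W => by
      rw [R.form_apply, zero_smul, ← R.ev_eq, ← R.ev_eq, hat0]) (fun s Z W => by
      have h1 := Ray.hasDerivAt_ray hgd (R.kill (D.hat x)) hray (R.diff Z) (R.diff W) s
      rw [← R.brk, ← R.brk] at h1
      exact h1) (k := k) (k' := k) hk0 hk0 t
  rw [R.form_apply, hkA, map_smul, hAx] at h
  rw [h]
  have e : S.ev ⁅S.hat x, k⁆ = v := hkd
  rw [e]

/-- **The flat case.** -/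
theorem case_zero (hg : IsMetric g) (hgauss : ∀ y v, g y y v = ⟪y, v⟫_ℝ)
    (hat0 : ∀ u v, g 0 u v = ⟪u, v⟫_ℝ) (hc : D.c = 0) (y v : E) : g y v v = ‖v‖ ^ 2 := by
  have hgd : Differentiable ℝ g := hg.smooth.differentiable (by simp)
  rcases eq_or_ne y 0 with rfl | hy
  · rw [hat0, real_inner_self_eq_norm_sq]
  have hn : ‖y‖ ≠ 0 := norm_ne_zero_iff.2 hy
  obtain ⟨x, t, hx, ht, rfl⟩ : ∃ (x : E) (t : ℝ), ‖x‖ = 1 ∧ t ≠ 0 ∧ t • x = y :=
    ⟨‖y‖⁻¹ • y, ‖y‖, by rw [norm_smul, norm_inv, norm_norm, inv_mul_cancel₀ hn], hn, by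
      rw [smul_smul, mul_inv_cancel₀ hn, one_smul]⟩
  have hpp : ∀ x y, D.ev ⁅D.hat x, D.hat y⁆ = 0 := fun x y => by
    rw [D.lie_eq_zero_of_c_eq_zero hc, map_zero]
  have hray := R.hat_ray hg hpp hx
  -- orthogonal vectors
  have horth : ∀ v : E, ⟪x, v⟫_ℝ = 0 → g (t • x) v v = ‖v‖ ^ 2 := by
    intro v hxv
    obtain ⟨k, A, hkA, hAx⟩ := R.lin x v hx hxv
    have hk0 : D.ev k = 0 := by rw [R.ev_eq, hkA, map_zero]
    have hkfun : R.r k = fun y => A y := funext hkA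
    have hkd : D.ev ⁅D.hat x, k⁆ = v := by
      rw [R.ev_lie, hk0, map_zero, sub_zero, D.ev_hat, hkfun, A.fderiv, hAx]
    have hkv : ⁅D.hat x, k⁆ = D.hat v := by
      have e := D.hat_lie hk0 x
      have e2 : D.ev ⁅D.hat x, k⁆ = -D.rho k x := by rw [e, map_neg, D.ev_hat]
      rw [e, ← hkd, e2, map_neg]
    have hstr : Ray.Str (R.r (D.hat x)) (R.r k) (R.r (D.hat v)) 0 x v 0 := by
      refine ⟨R.diff _, R.diff _, differentiable_const 0, fun s => ?_, fun s => ?_, fun s => ?_,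
        ?_, ?_, rfl⟩
      · rw [← R.brk, hkv]
      · rw [← R.brk, D.lie_eq_zero_of_c_eq_zero hc, map_zero]
      · rw [zero_smul]
        simp [lieBracket]
      · rw [← R.ev_eq, hk0]
      · rw [← R.ev_eq, D.ev_hat]
    have h := Ray.ray_flat hgd (R.kill (D.hat x)) hray hstr hstr t
    rw [hkA, map_smul, hAx, hat0, real_inner_self_eq_norm_sq] at h
    simp only [map_smul, smul_apply, smul_eq_mul] at h
    have ht2 : t ^ 2 ≠ 0 := pow_ne_zero 2 ht
    have h' : t ^ 2 * g (t • x) v v = t ^ 2 * ‖v‖ ^ 2 := by rw [← h]; ring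
    exact mul_left_cancel₀ ht2 h'
  have hgx : ∀ w, g (t • x) x w = ⟪x, w⟫_ℝ := by
    intro w
    have h := hgauss (t • x) w
    rw [map_smul, smul_apply, smul_eq_mul, real_inner_smul_left] at h
    exact mul_left_cancel₀ ht h
  set a : ℝ := ⟪x, v⟫_ℝ with ha
  set u : E := v - a • x with hu
  have hxx : ⟪x, x⟫_ℝ = 1 := by rw [real_inner_self_eq_norm_sq, hx]; norm_num
  have hxu : ⟪x, u⟫_ℝ = 0 := by
    rw [hu, inner_sub_right, real_inner_smul_right, hxx, mul_one, ← ha, sub_self]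
  have hv : v = a • x + u := by rw [hu]; abel
  have h1 := horth u hxu
  have h2 : g (t • x) u x = 0 := by rw [hg.symm, hgx, hxu]
  have h3 : g (t • x) x u = 0 := by rw [hgx, hxu]
  have h4 : g (t • x) x x = 1 := by rw [hgx, hxx]
  have h5 : ‖v‖ ^ 2 = a ^ 2 + ‖u‖ ^ 2 := by
    rw [hv, ← real_inner_self_eq_norm_sq, inner_add_left, inner_add_right, inner_add_right,
      real_inner_smul_left, real_inner_smul_right, real_inner_smul_left, real_inner_smul_right,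
      hxx, hxu, real_inner_comm x u, hxu, real_inner_self_eq_norm_sq]
    ring
  rw [h5]
  conv_lhs => rw [hv]
  simp only [map_add, map_smul, add_apply, smul_apply, smul_eq_mul, h1, h2, h3, h4]
  ring

omit R in
/-- An orthonormal basis for a negative definite Killing form. -/
theorem exists_basis (D : HomAlg E L) (hc : D.c < 0) : ∃ (n : ℕ) (f : Fin n → L),
    ∀ k : L, k = -∑ a, killingForm ℝ L k (f a) • f a := by
  have hsymm : LinearMap.IsSymm (killingForm ℝ L) := ⟨fun x y => HomAlg.B_symm x y⟩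
  have : Invertible (2 : ℝ) := invertibleOfNonzero two_ne_zero
  obtain ⟨v, hv⟩ := LinearMap.BilinForm.exists_orthogonal_basis hsymm
  have hneg : ∀ a, killingForm ℝ L (v a) (v a) < (0 : ℝ) := fun a =>
    D.neg_of_c_neg hc (v.ne_zero a)
  refine ⟨_, fun a => (Real.sqrt (-killingForm ℝ L (v a) (v a)))⁻¹ • v a, fun k => ?_⟩
  have h1 : ∀ a, v.repr k a = killingForm ℝ L k (v a) / killingForm ℝ L (v a) (v a) := by
    intro a
    have h2 : killingForm ℝ L k (v a) = v.repr k a * killingForm ℝ L (v a) (v a) := by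
      conv_lhs => rw [← v.sum_repr k]
      rw [map_sum, LinearMap.sum_apply]
      rw [Finset.sum_eq_single a]
      · rw [map_smul, LinearMap.smul_apply, smul_eq_mul]
      · intro b _ hb
        rw [map_smul, LinearMap.smul_apply, hv hb, smul_zero]
      · intro h
        exact absurd (Finset.mem_univ a) h
    rw [h2, mul_div_cancel_right₀ _ (hneg a).ne]
  conv_lhs => rw [← v.sum_repr k]
  rw [← Finset.sum_neg_distrib]
  refine Finset.sum_congr rfl fun a _ => ?_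
  rw [h1 a, map_smul, smul_smul, ← neg_smul]
  congr 1
  have h7 := hneg a
  obtain ⟨r, hr, hr1, hr2⟩ : ∃ r : ℝ, 0 < r ∧
      Real.sqrt (-killingForm ℝ L (v a) (v a)) = r ∧ killingForm ℝ L (v a) (v a) = -r ^ 2 :=
    ⟨_, Real.sqrt_pos.2 (by linarith), rfl, by rw [Real.sq_sqrt (by linarith)]; ring⟩
  rw [hr1, hr2]
  simp only [smul_eq_mul]
  field_simp

omit R in
/-- Cauchy-Schwarz for a finite combination. -/
theorem cs_sum {G : E →L[ℝ] E →L[ℝ] ℝ} (hs : ∀ u v, G u v = G v u) (hp : ∀ u, 0 ≤ G u u)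
    {ι : Type*} [Fintype ι] (c : ι → ℝ) (z : ι → E) :
    G (∑ i, c i • z i) (∑ i, c i • z i) ≤ (∑ i, c i ^ 2) * ∑ i, G (z i) (z i) := by
  have key : ∀ i j, c i * c j * (2 * G (z i) (z j))
      ≤ c j ^ 2 * G (z i) (z i) + c i ^ 2 * G (z j) (z j) := by
    intro i j
    have h := hp (c j • z i - c i • z j)
    simp only [map_sub, map_smul, sub_apply, smul_apply, smul_eq_mul] at h
    rw [hs (z j) (z i)] at h
    nlinarith [h]
  have e1 : G (∑ i, c i • z i) (∑ i, c i • z i) = ∑ i, ∑ j, c i * c j * G (z i) (z j) := by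
    simp only [map_sum, sum_apply, map_smul, smul_apply, smul_eq_mul]
    refine Finset.sum_congr rfl fun i _ => ?_
    rw [Finset.mul_sum]
    refine Finset.sum_congr rfl fun j _ => ?_
    rw [hs (z j)]
    ring
  have e2 : (∑ i, c i ^ 2) * ∑ i, G (z i) (z i) = ∑ i, ∑ j, c i ^ 2 * G (z j) (z j) := by
    rw [Finset.sum_mul_sum]
  have e3 : ∑ i, ∑ j, c i ^ 2 * G (z j) (z j) = ∑ i, ∑ j, c j ^ 2 * G (z i) (z i) :=
    Finset.sum_comm
  have h2 : 2 * ∑ i, ∑ j, c i * c j * G (z i) (z j)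
      ≤ ∑ i, ∑ j, (c j ^ 2 * G (z i) (z i) + c i ^ 2 * G (z j) (z j)) := by
    rw [Finset.mul_sum]
    refine Finset.sum_le_sum fun i _ => ?_
    rw [Finset.mul_sum]
    refine Finset.sum_le_sum fun j _ => ?_
    have := key i j
    linarith
  simp only [Finset.sum_add_distrib] at h2
  rw [e1, e2]
  linarith

theorem bound_one (hg : IsMetric g) (hc : D.c < 0) {x : E} (hx : ‖x‖ = 1) (K : L) :
    ∃ C : ℝ, ∀ t : ℝ, g (t • x) (R.r K (t • x)) (R.r K (t • x)) ≤ C := by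
  have hgd : Differentiable ℝ g := hg.smooth.differentiable (by simp)
  obtain ⟨X, hX⟩ := R.transl x hx
  obtain ⟨n, f, hf⟩ := exists_basis D hc
  refine ⟨(∑ a, (-killingForm ℝ L K (f a)) ^ 2) * ∑ a, g 0 (R.r (f a) 0) (R.r (f a) 0),
    fun t => ?_⟩
  have h := Ray.ray_bound hgd (R.kill X) hg.symm hg.pos hX (Z := fun a => R.r (f a))
    (fun a => R.diff (f a)) (fun i j => -killingForm ℝ L ⁅X, f i⁆ (f j))
    (fun i j => by
      have h1 : killingForm ℝ L ⁅X, f i⁆ (f j) = -killingForm ℝ L (f i) ⁅X, f j⁆ :=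
        HomAlg.B_skew X (f i) (f j)
      have h2 : killingForm ℝ L (f i) ⁅X, f j⁆ = killingForm ℝ L ⁅X, f j⁆ (f i) :=
        HomAlg.B_symm _ _
      rw [h1, h2])
    (fun i s => by
      rw [← R.brk]
      conv_lhs => rw [hf ⁅X, f i⁆]
      rw [map_neg, map_sum, Pi.neg_apply, Finset.sum_apply, ← Finset.sum_neg_distrib]
      refine Finset.sum_congr rfl fun j _ => ?_
      rw [map_smul, Pi.smul_apply, neg_smul])
    (fun a => -killingForm ℝ L K (f a)) t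
  have e : R.r K (t • x) = ∑ a, (-killingForm ℝ L K (f a)) • R.r (f a) (t • x) := by
    conv_lhs => rw [hf K]
    rw [map_neg, map_sum, Pi.neg_apply, Finset.sum_apply, ← Finset.sum_neg_distrib]
    refine Finset.sum_congr rfl fun j _ => ?_
    rw [map_smul, Pi.smul_apply, neg_smul]
  rw [e]
  exact h

/-- **The compact case**: the spheres are bounded. -/
theorem case_neg (hg : IsMetric g) (hc : D.c < 0)
    (hiso : ∀ x y : E, ‖x‖ = ‖y‖ → ∃ T : E ≃ₗᵢ[ℝ] E, T x = y ∧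
      ∀ z u v, g (T z) (T u) (T v) = g z u v) :
    ∃ C : ℝ, ∀ (x v : E) (t : ℝ), ‖x‖ = 1 → ⟪x, v⟫_ℝ = 0 →
      g (t • x) (t • v) (t • v) ≤ C * ‖v‖ ^ 2 := by
  rcases subsingleton_or_nontrivial E with hE | hE
  · exact ⟨0, fun x v t hx => absurd hx (by rw [Subsingleton.elim x 0, norm_zero]; norm_num)⟩
  obtain ⟨x₀, hx₀⟩ := exists_norm_eq E zero_le_one
  have hxx : ⟪x₀, x₀⟫_ℝ = 1 := by rw [real_inner_self_eq_norm_sq, hx₀]; norm_num
  let b := stdOrthonormalBasis ℝ E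
  set z : Fin (finrank ℝ E) → E := fun i => b i - ⟪x₀, b i⟫_ℝ • x₀ with hz
  have hxz : ∀ i, ⟪x₀, z i⟫_ℝ = 0 := by
    intro i
    simp only [hz]
    rw [inner_sub_right, real_inner_smul_right, hxx]; ring
  have hCi : ∀ i, ∃ C : ℝ, ∀ t : ℝ, g (t • x₀) (t • z i) (t • z i) ≤ C := by
    intro i
    obtain ⟨k, A, hkA, hAx⟩ := R.lin x₀ (z i) hx₀ (hxz i)
    obtain ⟨C, hC⟩ := R.bound_one hg hc hx₀ k
    refine ⟨C, fun t => ?_⟩
    have := hC t
    rw [hkA, map_smul, hAx] at this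
    exact this
  choose C hC using hCi
  refine ⟨∑ i, C i, fun x v t hx hxv => ?_⟩
  obtain ⟨T, hT, hTg⟩ := hiso x₀ x (hx₀.trans hx.symm)
  obtain ⟨v₀, rfl⟩ := T.surjective v
  rw [← hT, T.inner_map_map] at hxv
  rw [← hT, ← map_smul, ← map_smul, hTg, T.norm_map]
  have hp : ∀ u, 0 ≤ g (t • x₀) u u := fun u => by
    rcases eq_or_ne u 0 with rfl | h
    · simp
    · exact (hg.pos _ u h).le
  have hv₀ : t • v₀ = ∑ i, ⟪b i, v₀⟫_ℝ • (t • z i) := by
    have e1 : ∑ i, ⟪b i, v₀⟫_ℝ • b i = v₀ := b.sum_repr' v₀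
    have e2 : ∑ i, ⟪b i, v₀⟫_ℝ * ⟪x₀, b i⟫_ℝ = 0 := by
      rw [← hxv, ← b.sum_inner_mul_inner x₀ v₀]
      exact Finset.sum_congr rfl fun i _ => mul_comm _ _
    calc t • v₀ = t • ∑ i, ⟪b i, v₀⟫_ℝ • b i - t • ((∑ i, ⟪b i, v₀⟫_ℝ * ⟪x₀, b i⟫_ℝ) • x₀) := by
          rw [e1, e2, zero_smul, smul_zero, sub_zero]
      _ = ∑ i, ⟪b i, v₀⟫_ℝ • (t • z i) := by
          rw [Finset.smul_sum, Finset.sum_smul, Finset.smul_sum, ← Finset.sum_sub_distrib]
          refine Finset.sum_congr rfl fun i _ => ?_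
          simp only [hz]
          module
  rw [hv₀]
  refine (cs_sum (hg.symm _) hp _ _).trans ?_
  have e3 : ∑ i, ⟪b i, v₀⟫_ℝ ^ 2 = ‖v₀‖ ^ 2 := b.sum_sq_inner_right v₀
  rw [e3, mul_comm]
  exact mul_le_mul_of_nonneg_right (Finset.sum_le_sum fun i _ => hC i t) (by positivity)

end Kil

theorem homMet_of {g : E → E →L[ℝ] E →L[ℝ] ℝ} (h : S.Hom2 g) : KHom.HomMet g where
  smooth := h.norm.smooth
  at0 := h.norm.g_zero
  d0 := KLin.d0_of_gauss h.norm.smooth h.norm.symm h.norm.gauss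
  transl := h.field
  lin := by
    intro x v hx hxv
    have hn : ‖x‖ ≠ 0 := norm_ne_zero_iff.2 hx
    obtain ⟨A, -, hA, hAx⟩ := h.rotf (‖x‖⁻¹ • x) (‖x‖⁻¹ • v)
      (by rw [norm_smul, norm_inv, norm_norm, inv_mul_cancel₀ hn])
      (by rw [real_inner_smul_left, real_inner_smul_right, hxv, mul_zero, mul_zero])
    refine ⟨A, hA, ?_⟩
    rw [map_smul] at hAx
    have := congrArg (fun z => ‖x‖ • z) hAx
    simpa only [smul_smul, mul_inv_cancel₀ hn, one_smul] using this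
  iso := by
    intro x y hxy
    rcases eq_or_ne x 0 with rfl | hx
    · have hy : y = 0 := by rw [norm_zero] at hxy; exact norm_eq_zero.1 hxy.symm
      exact ⟨LinearIsometryEquiv.refl ℝ E, hy.symm, fun z u v => rfl⟩
    have hn : ‖x‖ ≠ 0 := norm_ne_zero_iff.2 hx
    have hny : ‖y‖ ≠ 0 := by rw [← hxy]; exact hn
    obtain ⟨T, hT, hTx⟩ := h.rot (‖x‖⁻¹ • x) (‖y‖⁻¹ • y)
      (by rw [norm_smul, norm_inv, norm_norm, inv_mul_cancel₀ hn])
      (by rw [norm_smul, norm_inv, norm_norm, inv_mul_cancel₀ hny])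
    refine ⟨T, ?_, fun z u v => ?_⟩
    · rw [map_smul, ← hxy] at hTx
      have := congrArg (fun z => ‖x‖ • z) hTx
      simpa only [smul_smul, mul_inv_cancel₀ hn, one_smul] using this
    · have e : ∀ z, fderiv ℝ (fun y => T y) z = (T.toContinuousLinearEquiv : E →L[ℝ] E) :=
        fun z => (T.toContinuousLinearEquiv : E →L[ℝ] E).fderiv
      have h1 := hT.pres z u v
      have e' : fderiv ℝ T z = (T.toContinuousLinearEquiv : E →L[ℝ] E) := e z
      rw [e'] at h1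
      exact h1

/-- **Structure theorem**: a two-point homogeneous metric with unbounded spheres is flat, real
hyperbolic, or of the form `Ver`, in normal coordinates. -/
theorem rank_one {g : E → E →L[ℝ] E →L[ℝ] ℝ} (h : S.Hom2 g) (hE : 2 ≤ finrank ℝ E) :
    ∃ l : ℝ, 0 < l ∧
    ((∀ y v, g y v v = ‖v‖ ^ 2) ∨
     (∀ (x v : E) (t : ℝ), ‖x‖ = 1 → ⟪x, v⟫_ℝ = 0 → 0 < t →
        l ^ 2 * g (t • x) (t • v) (t • v) = Real.sinh (l * t) ^ 2 * ‖v‖ ^ 2) ∨
     (∃ V : Ver E, ∀ (x v : E) (t : ℝ), ‖x‖ = 1 → ⟪x, v⟫_ℝ = 0 → 0 < t →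
        l ^ 2 * g (t • x) (t • v) (t • v)
          = Real.sinh (l * t) ^ 2 * (‖v‖ ^ 2 - ⟪V.Q x v, v⟫_ℝ)
            + (Real.sinh (l * t) * Real.cosh (l * t)) ^ 2 * ⟪V.Q x v, v⟫_ℝ)) := by
  have hg : IsMetric g := ⟨h.norm.smooth, h.norm.symm, h.norm.pos⟩
  have hm : KHom.HomMet g := homMet_of h
  letI := killLieRing hm.smooth
  letI := killLieAlgebra hm.smooth
  haveI : FiniteDimensional ℝ (killing g) := killing_finite hg
  have hinj : ∀ X : killing g, KHom.ev g X = 0 → KHom.dv0 g X = 0 → X = 0 := by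
    intro X h0 h1
    refine jet_injective hg ?_
    rw [map_zero, jet_apply]
    refine Prod.ext h0 ?_
    ext v
    exact LinearMap.congr_fun h1 v
  let D : HomAlg E (killing g) :=
    { ev := KHom.ev g
      surj := KHom.ev_surj hm
      sub := fun k l hk hl => KHom.ker_lie hm hk hl
      skew := fun k X hk => KHom.skew_lie hm hk X
      neg := fun k hk hk0 => KHom.neg hm hinj hk hk0
      trans := fun x y hxy => KHom.trans hm x y hxy
      full := fun x v hx hxv => KHom.full hm x v hx hxv }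
  let R : Kil g D :=
    { r := (killing g).subtype
      kill := fun X => X.2
      brk := fun X Y => rfl
      ev_eq := fun X => rfl
      transl := fun x hx => by
        obtain ⟨X, hX, hXt⟩ := hm.transl x hx
        exact ⟨⟨X, hX⟩, hXt⟩
      lin := fun x v hx hxv => by
        obtain ⟨A, hA, hAx⟩ := hm.lin x v (by rintro rfl; simp at hx) hxv
        exact ⟨⟨fun y => A y, hA⟩, A, fun y => rfl, hAx⟩
      dskew := fun X u v => KHom.dv0_skew hm X u v }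
  rcases lt_trichotomy D.c 0 with hc | hc | hc
  · exfalso
    obtain ⟨C, hC⟩ := R.case_neg hg hc hm.iso
    obtain ⟨x, v, hx, hv, hxv, hle⟩ := h.unb (Real.pi * (|C| + 1)) (by positivity)
    have h1 := hle.trans (hC x v _ hx hxv)
    rw [hv] at h1
    have e : 2 * (Real.pi * (|C| + 1)) / Real.pi = 2 * (|C| + 1) := by
      field_simp
    rw [e] at h1
    have := le_abs_self C
    have := abs_nonneg C
    nlinarith
  · exact ⟨1, one_pos, Or.inl (R.case_zero hg h.norm.gauss h.norm.g_zero hc)⟩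
  · obtain ⟨l, w, Q, hl, hQ1, hQ2, hQ3, hQ4, hQ5, hQ6, hQ7, hQ8, hform⟩ :=
      R.case_pos hg h.norm.g_zero hc hE
    refine ⟨l, hl, Or.inr ?_⟩
    have hl0 : l ≠ 0 := hl.ne'
    rcases Nat.eq_zero_or_pos w with hw | hw
    · left
      intro x v t hx hxv ht
      rw [hform x v t hx hxv, hQ8 hw x]
      simp only [zero_apply, inner_zero_left, sub_zero, mul_zero, add_zero,
        real_inner_self_eq_norm_sq]
      field_simp
    · right
      refine ⟨⟨w, Q, hw, hQ7, hQ1, hQ2, hQ3, hQ4, hQ5, hQ6⟩, fun x v t hx hxv ht => ?_⟩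
      rw [hform x v t hx hxv]
      have e : Real.sinh (2 * l * t) = 2 * Real.sinh (l * t) * Real.cosh (l * t) := by
        rw [mul_assoc, Real.sinh_two_mul]
      rw [e, real_inner_self_eq_norm_sq]
      field_simp

end

end Pool.Agent.Work.MP_3b24f6_gt.Rank
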