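import Pool.Agent.Work.MP_3b24f6_gt.ModelB

set_option autoImplicit false

open Set Filter Topology
open scoped InnerProductSpace ContDiff

/-! The chart change `y ↦ sinh (l ‖y‖) / ‖y‖ • y`. -/

namespace Pool.Agent.Work.MP_3b24f6_gt.Froz

open Pool.Agent.Work.MP_3b24f6_gt

noncomputable section

/-- `sS (r ^ 2) = sinh r / r`, an entire function. -/
def sS (t : ℝ) : ℝ := ∑' k : ℕ, ((2 * k + 1).factorial : ℝ)⁻¹ • t ^ k

theorem contDiff_sS {n : ℕ∞ω} : ContDiff ℝ n sS := by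
  set c : ℕ → ℝ := fun k => ((2 * k + 1).factorial : ℝ)⁻¹ with hc
  have hpos : ∀ k, 0 < c k := fun k => by
    simp only [hc]
    positivity
  have hrad : (FormalMultilinearSeries.ofScalars ℝ c).radius = ⊤ := by
    refine FormalMultilinearSeries.ofScalars_radius_eq_top_of_tendsto ℝ c
      (Eventually.of_forall fun k => (hpos k).ne') ?_
    have h1 : ∀ k : ℕ, ‖c k.succ‖ / ‖c k‖ = 1 / (((2 * k + 2 : ℕ) : ℝ) * ((2 * k + 3 : ℕ) : ℝ)) := by
      intro k
      rw [Real.norm_of_nonneg (hpos _).le, Real.norm_of_nonneg (hpos _).le]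
      simp only [hc]
      have h2 : (2 * k.succ + 1).factorial = (2 * k + 3) * ((2 * k + 2) * (2 * k + 1).factorial) := by
        have : 2 * k.succ + 1 = (2 * k + 1) + 1 + 1 := by omega
        rw [this, Nat.factorial_succ, Nat.factorial_succ]
      rw [h2]
      have h3 : ((2 * k + 1).factorial : ℝ) ≠ 0 := by positivity
      push_cast
      field_simp
    simp only [h1]
    refine squeeze_zero (g := fun k : ℕ => 1 / ((k : ℝ) + 1)) (fun k => by positivity)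
      (fun k => ?_) tendsto_one_div_add_atTop_nhds_zero_nat
    push_cast
    refine one_div_le_one_div_of_le (by positivity) ?_
    have : (0 : ℝ) ≤ k := Nat.cast_nonneg k
    nlinarith
  have h := (FormalMultilinearSeries.ofScalars ℝ c).hasFPowerSeriesOnBall (by rw [hrad]; simp)
  rw [hrad] at h
  have h2 : (FormalMultilinearSeries.ofScalars ℝ c).sum = sS := by
    have := FormalMultilinearSeries.ofScalarsSum_eq_tsum (E := ℝ) (c := c)
    rw [FormalMultilinearSeries.ofScalarsSum] at this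
    rw [this]
    rfl
  rw [h2] at h
  have h3 : AnalyticOnNhd ℝ sS univ := by
    have := h.analyticOnNhd
    simpa using this
  exact contDiffOn_univ.1 (h3.contDiffOn uniqueDiffOn_univ)

theorem mul_sS_sq (r : ℝ) : r * sS (r ^ 2) = Real.sinh r := by
  have h := Real.hasSum_sinh r
  rw [← h.tsum_eq, sS, ← tsum_mul_left]
  congr 1
  ext k
  rw [smul_eq_mul, ← pow_mul, pow_succ]
  ring

theorem sS_zero : sS 0 = 1 := by
  rw [sS, tsum_eq_single 0]
  · simp
  · intro k hk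
    simp [hk]

theorem sS_sq {r : ℝ} (hr : r ≠ 0) : sS (r ^ 2) = Real.sinh r / r := by
  rw [eq_div_iff hr, mul_comm, mul_sS_sq]

theorem sS_pos {t : ℝ} (ht : 0 ≤ t) : 0 < sS t := by
  rcases eq_or_lt_of_le ht with h | h
  · rw [← h, sS_zero]
    exact one_pos
  · have h1 : 0 < √t := Real.sqrt_pos.2 h
    have h2 := sS_sq h1.ne'
    rw [Real.sq_sqrt ht] at h2
    rw [h2]
    exact div_pos (Real.sinh_pos_iff.2 h1) h1

/-- The derivative of `sS`. -/
theorem deriv_sS {r : ℝ} : 2 * r ^ 3 * deriv sS (r ^ 2) + Real.sinh r = r * Real.cosh r := by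
  have h1 : HasDerivAt sS (deriv sS (r ^ 2)) (r ^ 2) :=
    ((contDiff_sS (n := 1)).differentiable one_ne_zero (r ^ 2)).hasDerivAt
  have h2 : HasDerivAt (fun x : ℝ => x ^ 2) (2 * r) r := by
    simpa using hasDerivAt_pow 2 r
  have h12 : HasDerivAt (fun x : ℝ => sS (x ^ 2)) (deriv sS (r ^ 2) * (2 * r)) r :=
    HasDerivAt.comp (h := fun x : ℝ => x ^ 2) r h1 h2
  have h3 : HasDerivAt (fun x : ℝ => x * sS (x ^ 2))
      (1 * sS (r ^ 2) + r * (deriv sS (r ^ 2) * (2 * r))) r :=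
    (hasDerivAt_id r).mul h12
  have h4 : (fun x : ℝ => x * sS (x ^ 2)) = Real.sinh := funext mul_sS_sq
  rw [h4] at h3
  have h5 := h3.unique (Real.hasDerivAt_sinh r)
  rw [← mul_sS_sq r, ← h5]
  ring

variable {E : Type*} [NormedAddCommGroup E] [InnerProductSpace ℝ E]

/-- `sig l y = (sinh (l ‖y‖) / ‖y‖) • y`. -/
def sig (l : ℝ) (y : E) : E := (l * sS ((l * ‖y‖) ^ 2)) • y

omit [InnerProductSpace ℝ E] in
theorem norm_mul_sS (l : ℝ) (y : E) : ‖y‖ * (l * sS ((l * ‖y‖) ^ 2)) = Real.sinh (l * ‖y‖) := by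
  rw [← mul_sS_sq (l * ‖y‖)]
  ring

omit [InnerProductSpace ℝ E] in
theorem sig_coef {l : ℝ} {y : E} (hy : y ≠ 0) :
    l * sS ((l * ‖y‖) ^ 2) = Real.sinh (l * ‖y‖) / ‖y‖ := by
  rw [eq_div_iff (norm_ne_zero_iff.2 hy), mul_comm, norm_mul_sS]

theorem sig_eq {l : ℝ} {y : E} (hy : y ≠ 0) : sig l y = (Real.sinh (l * ‖y‖) / ‖y‖) • y := by
  rw [sig, sig_coef hy]

@[simp] theorem sig_zero (l : ℝ) : sig l (0 : E) = 0 := by simp [sig]

omit [InnerProductSpace ℝ E] in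
theorem sig_coef_pos {l : ℝ} (hl : 0 < l) (y : E) : 0 < l * sS ((l * ‖y‖) ^ 2) :=
  mul_pos hl (sS_pos (sq_nonneg _))

theorem norm_sig {l : ℝ} (hl : 0 < l) (y : E) : ‖sig l y‖ = Real.sinh (l * ‖y‖) := by
  rw [sig, norm_smul, Real.norm_of_nonneg (sig_coef_pos hl y).le, mul_comm, norm_mul_sS]

theorem uu_sig {l : ℝ} (hl : 0 < l) (y : E) : uu (sig l y) = Real.cosh (l * ‖y‖) := by
  rw [uu, norm_sig hl, add_comm, ← Real.cosh_sq, Real.sqrt_sq (Real.cosh_pos _).le]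

theorem contDiff_sig (l : ℝ) {n : ℕ∞ω} : ContDiff ℝ n (sig l : E → E) := by
  have h : (sig l : E → E) = fun y => (l * sS (l ^ 2 * ‖y‖ ^ 2)) • y := by
    ext y
    rw [sig, mul_pow]
  rw [h]
  exact (contDiff_const.mul (contDiff_sS.comp (contDiff_const.mul (contDiff_norm_sq ℝ)))).smul
    contDiff_id

/-- The derivative of `sig l`. -/
def dsig (l : ℝ) (y : E) : E →L[ℝ] E :=
  (l * sS ((l * ‖y‖) ^ 2)) • ContinuousLinearMap.id ℝ E
    + (2 * l ^ 3 * deriv sS ((l * ‖y‖) ^ 2)) • (innerSL ℝ y).smulRight y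

theorem dsig_apply (l : ℝ) (y v : E) : dsig l y v = (l * sS ((l * ‖y‖) ^ 2)) • v
    + (2 * l ^ 3 * deriv sS ((l * ‖y‖) ^ 2) * ⟪y, v⟫_ℝ) • y := by
  simp [dsig, smul_smul]

theorem hasFDerivAt_sig (l : ℝ) (y : E) : HasFDerivAt (sig l) (dsig l y) y := by
  have h1 : HasDerivAt sS (deriv sS ((l * ‖y‖) ^ 2)) ((l * ‖y‖) ^ 2) :=
    ((contDiff_sS (n := 1)).differentiable one_ne_zero _).hasDerivAt
  have h2 : HasFDerivAt (fun z : E => (l * ‖z‖) ^ 2) (l ^ 2 • (2 • innerSL ℝ y)) y := by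
    have h3 : HasFDerivAt (fun z : E => ‖z‖ ^ 2) (2 • innerSL ℝ y) y := by
      simpa using (hasStrictFDerivAt_norm_sq y).hasFDerivAt
    have h4 := h3.const_mul (l ^ 2)
    have h5 : (fun z : E => (l * ‖z‖) ^ 2) = fun z => l ^ 2 * ‖z‖ ^ 2 := by
      ext z
      ring
    rw [h5]
    exact h4
  have h12 : HasFDerivAt (fun z : E => sS ((l * ‖z‖) ^ 2))
      (deriv sS ((l * ‖y‖) ^ 2) • (l ^ 2 • (2 • innerSL ℝ y))) y :=
    HasDerivAt.comp_hasFDerivAt (f := fun z : E => (l * ‖z‖) ^ 2) y h1 h2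
  have h3 := (h12.const_mul l).smul (hasFDerivAt_id y)
  refine h3.congr_fderiv (ContinuousLinearMap.ext fun v => ?_)
  rw [dsig_apply]
  simp
  module

omit [InnerProductSpace ℝ E] in
theorem dsig_radial (l : ℝ) {y : E} (hy : y ≠ 0) :
    2 * l ^ 3 * deriv sS ((l * ‖y‖) ^ 2)
      = (l * Real.cosh (l * ‖y‖) - Real.sinh (l * ‖y‖) / ‖y‖) / ‖y‖ ^ 2 := by
  have hr : ‖y‖ ≠ 0 := norm_ne_zero_iff.2 hy
  have h := deriv_sS (r := l * ‖y‖)
  set D := deriv sS ((l * ‖y‖) ^ 2) with hD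
  field_simp
  linarith

/-- The formula for the derivative away from the origin. -/
theorem dsig_eq (l : ℝ) {y : E} (hy : y ≠ 0) (v : E) :
    dsig l y v = (Real.sinh (l * ‖y‖) / ‖y‖) • v
      + ((l * Real.cosh (l * ‖y‖) - Real.sinh (l * ‖y‖) / ‖y‖) * (⟪y, v⟫_ℝ / ‖y‖ ^ 2)) • y := by
  rw [dsig_apply, sig_coef hy, dsig_radial l hy]
  congr 2
  ring

theorem dsig_zero (l : ℝ) : dsig l (0 : E) = l • ContinuousLinearMap.id ℝ E := by
  ext v
  rw [dsig_apply]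
  simp [sS_zero]

theorem inner_dsig (l : ℝ) (y v : E) : ⟪y, dsig l y v⟫_ℝ = l * Real.cosh (l * ‖y‖) * ⟪y, v⟫_ℝ := by
  by_cases hy : y = 0
  · simp [hy]
  · have hr : ‖y‖ ≠ 0 := norm_ne_zero_iff.2 hy
    rw [dsig_eq l hy, inner_add_right, inner_smul_right, inner_smul_right,
      real_inner_self_eq_norm_sq]
    field_simp
    ring

theorem dsig_injective {l : ℝ} (hl : 0 < l) (y : E) : Function.Injective (dsig l y) := by
  refine (injective_iff_map_eq_zero (dsig l y)).2 fun v hv => ?_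
  have h1 := inner_dsig l y v
  rw [hv, inner_zero_right] at h1
  have h2 : ⟪y, v⟫_ℝ = 0 := by
    rcases mul_eq_zero.1 h1.symm with h | h
    · exact absurd h (mul_pos hl (Real.cosh_pos _)).ne'
    · exact h
  rw [dsig_apply, h2, mul_zero, zero_smul, add_zero] at hv
  exact (smul_eq_zero.1 hv).resolve_left (sig_coef_pos hl y).ne'

/-- The inverse of `sig l`. -/
def sigInv (l : ℝ) (z : E) : E := (Real.arsinh ‖z‖ / (l * ‖z‖)) • z

theorem sigInv_sig {l : ℝ} (hl : 0 < l) (y : E) : sigInv l (sig l y) = y := by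
  by_cases hy : y = 0
  · simp [hy, sigInv]
  · have hr : 0 < ‖y‖ := norm_pos_iff.2 hy
    have hs : 0 < Real.sinh (l * ‖y‖) := Real.sinh_pos_iff.2 (mul_pos hl hr)
    rw [sigInv, norm_sig hl, Real.arsinh_sinh, sig_eq hy, smul_smul]
    have : l * ‖y‖ / (l * Real.sinh (l * ‖y‖)) * (Real.sinh (l * ‖y‖) / ‖y‖) = 1 := by
      field_simp
    rw [this, one_smul]

theorem sig_sigInv {l : ℝ} (hl : 0 < l) (z : E) : sig l (sigInv l z) = z := by
  by_cases hz : z = 0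
  · simp [hz, sigInv]
  · have hr : 0 < ‖z‖ := norm_pos_iff.2 hz
    have ha : 0 < Real.arsinh ‖z‖ := Real.arsinh_pos_iff.2 hr
    have hn : ‖sigInv l z‖ = Real.arsinh ‖z‖ / l := by
      rw [sigInv, norm_smul, Real.norm_of_nonneg (by positivity)]
      field_simp
    have h0 : sigInv l z ≠ 0 := by
      rw [← norm_pos_iff, hn]
      positivity
    rw [sig_eq h0, hn, mul_div_cancel₀ _ hl.ne', Real.sinh_arsinh, sigInv, smul_smul]
    have : ‖z‖ / (Real.arsinh ‖z‖ / l) * (Real.arsinh ‖z‖ / (l * ‖z‖)) = 1 := by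
      field_simp
    rw [this, one_smul]

theorem norm_sigInv {l : ℝ} (hl : 0 < l) (z : E) : Real.sinh (l * ‖sigInv l z‖) = ‖z‖ := by
  rw [← norm_sig hl, sig_sigInv hl]

theorem sig_injective {l : ℝ} (hl : 0 < l) : Function.Injective (sig l : E → E) :=
  Function.LeftInverse.injective (sigInv_sig hl)

theorem sig_bijective {l : ℝ} (hl : 0 < l) : Function.Bijective (sig l : E → E) :=
  ⟨sig_injective hl, Function.RightInverse.surjective (sig_sigInv hl)⟩

section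
variable [FiniteDimensional ℝ E]

/-- The derivative as an equivalence. -/
def dsigE {l : ℝ} (hl : 0 < l) (y : E) : E ≃L[ℝ] E :=
  (LinearEquiv.ofInjectiveEndo (dsig l y : E →ₗ[ℝ] E) (dsig_injective hl y)).toContinuousLinearEquiv

theorem coe_dsigE {l : ℝ} (hl : 0 < l) (y : E) : (dsigE hl y : E →L[ℝ] E) = dsig l y := by
  ext v
  simp [dsigE]

theorem contDiff_sigInv {l : ℝ} (hl : 0 < l) : ContDiff ℝ ∞ (sigInv l : E → E) := by
  rw [contDiff_iff_contDiffAt]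
  intro z
  set y := sigInv l z with hy
  have hz : sig l y = z := sig_sigInv hl z
  have hn : (∞ : ℕ∞ω) ≠ 0 := by simp
  have hc : ContDiffAt ℝ ∞ (sig l : E → E) y := (contDiff_sig l).contDiffAt
  have hf : HasFDerivAt (sig l) (dsigE hl y : E →L[ℝ] E) y := by
    rw [coe_dsigE]
    exact hasFDerivAt_sig l y
  have h1 := hc.to_localInverse hf hn
  rw [hz] at h1
  refine h1.congr_of_eventuallyEq ?_
  have h2 := (hc.hasStrictFDerivAt' hf hn).eventually_right_inverse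
  rw [hz] at h2
  filter_upwards [h2] with w hw
  have h3 := congrArg (sigInv l) hw
  rw [sigInv_sig hl] at h3
  exact h3.symm

/-- `sig l` as a homeomorphism. -/
def sigH {l : ℝ} (hl : 0 < l) : E ≃ₜ E where
  toFun := sig l
  invFun := sigInv l
  left_inv := sigInv_sig hl
  right_inv := sig_sigInv hl
  continuous_toFun := (contDiff_sig l (n := 0)).continuous
  continuous_invFun := (contDiff_sigInv hl).continuous

/-- The pull back of the model metric. -/
theorem mg_sig (V : Ver E) {l : ℝ} (hl : 0 < l) {y : E} (hy : y ≠ 0) (v : E) :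
    mg V (sig l y) (dsig l y v) = (Real.sinh (l * ‖y‖) / ‖y‖) ^ 2 * (‖v‖ ^ 2 - ⟪y, v⟫_ℝ ^ 2 / ‖y‖ ^ 2)
      + l ^ 2 * (⟪y, v⟫_ℝ ^ 2 / ‖y‖ ^ 2) + (Real.sinh (l * ‖y‖) / ‖y‖) ^ 4 * ⟪V.Q y v, v⟫_ℝ := by
  have hr : ‖y‖ ≠ 0 := norm_ne_zero_iff.2 hy
  have hc : Real.cosh (l * ‖y‖) ≠ 0 := (Real.cosh_pos _).ne'
  set C := Real.cosh (l * ‖y‖) with hC
  set S := Real.sinh (l * ‖y‖) with hS
  have hCS : C ^ 2 = S ^ 2 + 1 := Real.cosh_sq _
  set q := ⟪y, v⟫_ℝ with hq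
  have h1 : ⟪sig l y, dsig l y v⟫_ℝ = S / ‖y‖ * (l * C * q) := by
    rw [sig_eq hy, real_inner_smul_left, inner_dsig]
  have h2 : ‖dsig l y v‖ ^ 2 = (S / ‖y‖) ^ 2 * (‖v‖ ^ 2 - q ^ 2 / ‖y‖ ^ 2) + l ^ 2 * C ^ 2 * (q ^ 2 / ‖y‖ ^ 2) := by
    have hvy : ⟪v, y⟫_ℝ = q := by rw [real_inner_comm]
    rw [dsig_eq l hy, norm_add_sq_real, norm_smul, norm_smul, real_inner_smul_left,
      real_inner_smul_right, hvy, ← hq, mul_pow, mul_pow, Real.norm_eq_abs,
      Real.norm_eq_abs, sq_abs, sq_abs]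
    field_simp
    ring
  have h3 : V.Q (sig l y) = (S / ‖y‖) ^ 2 • V.Q y := by
    rw [sig_eq hy, V.Q_smul]
  have h4 : ⟪V.Q (sig l y) (dsig l y v), dsig l y v⟫_ℝ = (S / ‖y‖) ^ 4 * ⟪V.Q y v, v⟫_ℝ := by
    rw [h3, dsig_eq l hy, smul_apply, map_add, map_smul, map_smul, V.Q_self,
      smul_zero, add_zero, real_inner_smul_left, real_inner_smul_left, inner_add_right,
      real_inner_smul_right, real_inner_smul_right, V.Q_symm y v y, V.Q_self, inner_zero_right]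
    ring
  rw [mg, uu_sig hl, h1, h2, h4, ← hC]
  have h5 : C ^ 2 - S ^ 2 = 1 := by linarith
  field_simp
  linear_combination (l ^ 2 * q ^ 2 * ‖y‖ ^ 2 ) * h5

end

end

end Pool.Agent.Work.MP_3b24f6_gt.Froz
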