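import Pool.Agent.Work.MP_3b24f6_gt.S.Glob
import Pool.Agent.Work.MP_3b24f6_gt.S.Sig
import Pool.Agent.Work.MP_3b24f6_gt.S.ToHomB

set_option autoImplicit false

open MeasureTheory Set Filter Topology
open scoped ContDiff InnerProductSpace

/-!
Block L5: a global normal chart whose metric is given by the formulas of rank one with `w ≥ 1`
is, in the chart `y = sinh (l r) ω`, the model `mg V` up to the factor `l²`.
-/

namespace Pool.Agent.Work.MP_3b24f6_gt.Froz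

noncomputable section

open Pool.Agent.MP_3b24f6_gt.S (MetAt Psd pull pull_apply)
open Pool.Agent.Work.MP_3b24f6_gt.S (NormG Hom2 Glob IsIso)

variable {E : Type*} [NormedAddCommGroup E] [InnerProductSpace ℝ E] [FiniteDimensional ℝ E]

/-! ## The function `cosh (l √t)` -/

/-- `cosh (l d)` as a smooth function of `d ^ 2`. -/
theorem cosh_eq_sS (r : ℝ) : Real.cosh r = 1 + r ^ 2 / 2 * sS (r ^ 2 / 4) ^ 2 := by
  have h1 : Real.cosh r = 1 + 2 * Real.sinh (r / 2) ^ 2 := by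
    have h := Real.cosh_two_mul (r / 2)
    rw [mul_div_cancel₀ r two_ne_zero] at h
    rw [h, Real.cosh_sq]
    ring
  have h2 := mul_sS_sq (r / 2)
  rw [h1, ← h2]
  ring_nf

theorem contDiff_cosh_mul {G : Type*} [NormedAddCommGroup G] [NormedSpace ℝ G] {f : G → ℝ}
    (hf : ContDiff ℝ ∞ (fun x => f x ^ 2)) (l : ℝ) : ContDiff ℝ ∞ (fun x => Real.cosh (l * f x)) := by
  have h : (fun x => Real.cosh (l * f x))
      = fun x => 1 + (l ^ 2 * f x ^ 2) / 2 * sS ((l ^ 2 * f x ^ 2) / 4) ^ 2 := by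
    ext x
    rw [cosh_eq_sS, mul_pow]
  rw [h]
  have h1 : ContDiff ℝ ∞ (fun x => l ^ 2 * f x ^ 2) := contDiff_const.mul hf
  exact contDiff_const.add ((h1.div_const 2).mul ((contDiff_sS.comp (h1.div_const 4)).pow 2))

/-! ## The metric in the new chart -/

omit [FiniteDimensional ℝ E] in
/-- Orthogonal decomposition with respect to the ray. -/
theorem normG_split {g : E → E →L[ℝ] E →L[ℝ] ℝ} (hg : NormG g) {y : E} (hy : y ≠ 0) (w : E) :
    g y w w = ⟪y, w⟫_ℝ ^ 2 / ‖y‖ ^ 2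
      + g y (w - (⟪y, w⟫_ℝ / ‖y‖ ^ 2) • y) (w - (⟪y, w⟫_ℝ / ‖y‖ ^ 2) • y) := by
  have hr : ‖y‖ ≠ 0 := norm_ne_zero_iff.2 hy
  have h1 : g y w y = ⟪y, w⟫_ℝ := by rw [hg.symm, hg.gauss]
  have h2 : g y y w = ⟪y, w⟫_ℝ := hg.gauss y w
  have h3 : g y y y = ‖y‖ ^ 2 := by rw [hg.gauss, real_inner_self_eq_norm_sq]
  simp only [map_sub, map_smul, sub_apply, smul_apply, smul_eq_mul, h1, h2, h3]
  field_simp
  ring

omit [FiniteDimensional ℝ E] in
theorem inner_perp {y : E} (hy : y ≠ 0) (w : E) :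
    ⟪y, w - (⟪y, w⟫_ℝ / ‖y‖ ^ 2) • y⟫_ℝ = 0 := by
  have hr : ‖y‖ ≠ 0 := norm_ne_zero_iff.2 hy
  rw [inner_sub_right, real_inner_smul_right, real_inner_self_eq_norm_sq]
  field_simp
  ring

omit [FiniteDimensional ℝ E] in
theorem norm_perp {y : E} (hy : y ≠ 0) (w : E) :
    ‖w - (⟪y, w⟫_ℝ / ‖y‖ ^ 2) • y‖ ^ 2 = ‖w‖ ^ 2 - ⟪y, w⟫_ℝ ^ 2 / ‖y‖ ^ 2 := by
  have hr : ‖y‖ ≠ 0 := norm_ne_zero_iff.2 hy
  rw [norm_sub_sq_real, norm_smul, real_inner_smul_right, real_inner_comm, mul_pow,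
    Real.norm_eq_abs, sq_abs]
  field_simp
  ring

/-- The hypothesis on the metric, `w ≥ 1`. -/
def SinhG (V : Ver E) (l : ℝ) (g : E → E →L[ℝ] E →L[ℝ] ℝ) : Prop :=
  ∀ (x v : E) (t : ℝ), ‖x‖ = 1 → ⟪x, v⟫_ℝ = 0 → 0 < t →
    l ^ 2 * g (t • x) (t • v) (t • v)
      = Real.sinh (l * t) ^ 2 * (‖v‖ ^ 2 - ⟪V.Q x v, v⟫_ℝ)
        + (Real.sinh (l * t) * Real.cosh (l * t)) ^ 2 * ⟪V.Q x v, v⟫_ℝ

/-- The hypothesis on the metric, `w = 0`. -/
def SinhG0 (l : ℝ) (g : E → E →L[ℝ] E →L[ℝ] ℝ) : Prop :=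
  ∀ (x v : E) (t : ℝ), ‖x‖ = 1 → ⟪x, v⟫_ℝ = 0 → 0 < t →
    l ^ 2 * g (t • x) (t • v) (t • v) = Real.sinh (l * t) ^ 2 * ‖v‖ ^ 2

theorem sig_metric_aux {g : E → E →L[ℝ] E →L[ℝ] ℝ} (hg : NormG g) {l : ℝ} (hl : 0 < l)
    (V : Ver E) (h : SinhG V l g) {y : E} (hy : y ≠ 0) (w : E) :
    l ^ 2 * g y w w = mg V (sig l y) (dsig l y w) := by
  have hr : 0 < ‖y‖ := norm_pos_iff.2 hy
  have hr' : ‖y‖ ≠ 0 := hr.ne'
  rw [mg_sig V hl hy, normG_split hg hy w]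
  set p := w - (⟪y, w⟫_ℝ / ‖y‖ ^ 2) • y with hp
  have e1 : ‖y‖ • (‖y‖⁻¹ • y) = y := by rw [smul_smul, mul_inv_cancel₀ hr', one_smul]
  have e2 : ‖y‖ • (‖y‖⁻¹ • p) = p := by rw [smul_smul, mul_inv_cancel₀ hr', one_smul]
  have h1 := h (‖y‖⁻¹ • y) (‖y‖⁻¹ • p) ‖y‖ (by
    rw [norm_smul, norm_inv, norm_norm, inv_mul_cancel₀ hr']) (by
    rw [real_inner_smul_left, real_inner_smul_right, hp, inner_perp hy, mul_zero, mul_zero]) hr
  rw [e1, e2] at h1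
  have h2 : ‖‖y‖⁻¹ • p‖ ^ 2 = (‖y‖ ^ 2)⁻¹ * (‖w‖ ^ 2 - ⟪y, w⟫_ℝ ^ 2 / ‖y‖ ^ 2) := by
    rw [norm_smul, mul_pow, hp, norm_perp hy, norm_inv, norm_norm, inv_pow]
  have h3 : ⟪V.Q y p, p⟫_ℝ = ⟪V.Q y w, w⟫_ℝ := by
    rw [hp, map_sub, map_smul, V.Q_self, smul_zero, sub_zero, inner_sub_right,
      real_inner_smul_right, V.Q_symm y w y, V.Q_self, inner_zero_right, mul_zero, sub_zero]
  have h4 : ⟪V.Q (‖y‖⁻¹ • y) (‖y‖⁻¹ • p), ‖y‖⁻¹ • p⟫_ℝ = (‖y‖ ^ 4)⁻¹ * ⟪V.Q y w, w⟫_ℝ := by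
    rw [V.Q_smul, smul_apply, map_smul, real_inner_smul_left, real_inner_smul_left,
      real_inner_smul_right, h3]
    field_simp
  rw [h2, h4] at h1
  have hC : Real.cosh (l * ‖y‖) ^ 2 = Real.sinh (l * ‖y‖) ^ 2 + 1 := Real.cosh_sq _
  rw [mul_add, h1, mul_pow (Real.sinh (l * ‖y‖)), hC]
  field_simp
  ring

theorem Q_zero (V : Ver E) : V.Q 0 = 0 := by
  have := V.Q_smul 0 0
  simpa using this

theorem sig_metric_zero {g : E → E →L[ℝ] E →L[ℝ] ℝ} (hg : NormG g) {l : ℝ}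
    (V : Ver E) (w : E) : l ^ 2 * g 0 w w = mg V (sig l 0) (dsig l 0 w) := by
  rw [hg.g_zero, dsig_zero, sig_zero, mg, Q_zero]
  simp [norm_smul, mul_pow]

theorem fderiv_sigInv {l : ℝ} (hl : 0 < l) (z v : E) :
    dsig l (sigInv l z) (fderiv ℝ (sigInv l) z v) = v := by
  have h1 : HasFDerivAt (sigInv l : E → E) (fderiv ℝ (sigInv l) z) z :=
    ((contDiff_sigInv hl).differentiable (by simp) z).hasFDerivAt
  have h2 : HasFDerivAt (fun x : E => sig l (sigInv l x))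
      ((dsig l (sigInv l z)).comp (fderiv ℝ (sigInv l) z)) z :=
    (hasFDerivAt_sig l (sigInv l z)).comp z h1
  have h3 : (fun x : E => sig l (sigInv l x)) = id := funext (sig_sigInv hl)
  rw [h3] at h2
  have h4 := h2.unique (hasFDerivAt_id z)
  have h5 := congrArg (fun A : E →L[ℝ] E => A v) h4
  simpa using h5

/-- The metric in the new chart, `w ≥ 1`. -/
theorem sig_metric {g : E → E →L[ℝ] E →L[ℝ] ℝ} (hg : NormG g) {l : ℝ} (hl : 0 < l)
    (V : Ver E) (h : SinhG V l g) (z v : E) :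
    l ^ 2 * g (sigInv l z) (fderiv ℝ (sigInv l) z v) (fderiv ℝ (sigInv l) z v) = mg V z v := by
  have h1 := fderiv_sigInv hl z v
  by_cases hy : sigInv l z = 0
  · rw [hy] at h1 ⊢
    rw [sig_metric_zero hg V, h1]
    have h2 := sig_sigInv hl z
    rw [hy] at h2
    rw [h2]
  · rw [sig_metric_aux hg hl V h hy, h1, sig_sigInv hl]

/-- The metric in the new chart, `w = 0`. -/
theorem sig_metric0 {g : E → E →L[ℝ] E →L[ℝ] ℝ} (hg : NormG g) {l : ℝ} (hl : 0 < l)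
    (h : SinhG0 l g) (z v : E) :
    l ^ 2 * g (sigInv l z) (fderiv ℝ (sigInv l) z v) (fderiv ℝ (sigInv l) z v)
      = ‖v‖ ^ 2 - ⟪z, v⟫_ℝ ^ 2 / uu z ^ 2 := by
  have h1 := fderiv_sigInv hl z v
  have hz := sig_sigInv hl z
  by_cases hy : sigInv l z = 0
  · rw [hy] at h1 ⊢ hz
    rw [sig_zero] at hz
    rw [dsig_zero] at h1
    generalize fderiv ℝ (sigInv l) z v = w at h1 ⊢
    simp only [smul_apply, ContinuousLinearMap.id_apply] at h1
    rw [hg.g_zero, ← hz, ← h1]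
    simp only [inner_zero_left, norm_smul, real_inner_self_eq_norm_sq]
    rw [Real.norm_of_nonneg hl.le]
    ring
  · set y := sigInv l z with hy'
    set w := fderiv ℝ (sigInv l) z v with hw
    have hr : 0 < ‖y‖ := norm_pos_iff.2 hy
    have hr' : ‖y‖ ≠ 0 := hr.ne'
    rw [normG_split hg hy w]
    set p := w - (⟪y, w⟫_ℝ / ‖y‖ ^ 2) • y with hp
    have e1 : ‖y‖ • (‖y‖⁻¹ • y) = y := by rw [smul_smul, mul_inv_cancel₀ hr', one_smul]
    have e2 : ‖y‖ • (‖y‖⁻¹ • p) = p := by rw [smul_smul, mul_inv_cancel₀ hr', one_smul]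
    have h2 := h (‖y‖⁻¹ • y) (‖y‖⁻¹ • p) ‖y‖ (by
      rw [norm_smul, norm_inv, norm_norm, inv_mul_cancel₀ hr']) (by
      rw [real_inner_smul_left, real_inner_smul_right, hp, inner_perp hy, mul_zero, mul_zero]) hr
    rw [e1, e2] at h2
    have h3 : ‖‖y‖⁻¹ • p‖ ^ 2 = (‖y‖ ^ 2)⁻¹ * (‖w‖ ^ 2 - ⟪y, w⟫_ℝ ^ 2 / ‖y‖ ^ 2) := by
      rw [norm_smul, mul_pow, hp, norm_perp hy, norm_inv, norm_norm, inv_pow]
    rw [h3] at h2
    have hC : Real.cosh (l * ‖y‖) ^ 2 = Real.sinh (l * ‖y‖) ^ 2 + 1 := Real.cosh_sq _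
    have h4 : ⟪z, v⟫_ℝ = Real.sinh (l * ‖y‖) / ‖y‖ * (l * Real.cosh (l * ‖y‖) * ⟪y, w⟫_ℝ) := by
      rw [← hz, ← h1, sig_eq hy, real_inner_smul_left, inner_dsig]
    have h5 : ‖v‖ ^ 2 = (Real.sinh (l * ‖y‖) / ‖y‖) ^ 2 * (‖w‖ ^ 2 - ⟪y, w⟫_ℝ ^ 2 / ‖y‖ ^ 2)
        + l ^ 2 * Real.cosh (l * ‖y‖) ^ 2 * (⟪y, w⟫_ℝ ^ 2 / ‖y‖ ^ 2) := by
      have hvy : ⟪w, y⟫_ℝ = ⟪y, w⟫_ℝ := real_inner_comm _ _
      rw [← h1, dsig_eq l hy, norm_add_sq_real, norm_smul, norm_smul, real_inner_smul_left,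
        real_inner_smul_right, hvy, mul_pow, mul_pow, Real.norm_eq_abs, Real.norm_eq_abs, sq_abs,
        sq_abs]
      field_simp
      ring
    have h6 : uu z = Real.cosh (l * ‖y‖) := by rw [← hz, uu_sig hl]
    have hc : Real.cosh (l * ‖y‖) ≠ 0 := (Real.cosh_pos _).ne'
    rw [mul_add, h2, h6, h5, h4]
    set C := Real.cosh (l * ‖y‖) with hCdef
    set S := Real.sinh (l * ‖y‖) with hSdef
    have h7 : C ^ 2 - S ^ 2 = 1 := by linarith
    field_simp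
    linear_combination (-(l ^ 2 * ⟪y, w⟫_ℝ ^ 2 * ‖y‖ ^ 2)) * h7

/-! ## The model -/

variable {M : Type*} [MetricSpace M]

omit [FiniteDimensional ℝ E] in
theorem dist_sigInv {g : E → E →L[ℝ] E →L[ℝ] ℝ} {F : E → M} (h : Glob g F) {l : ℝ} (hl : 0 < l)
    {s : ℝ} (hs : s ∈ Icc (0 : ℝ) 1) (y : E) :
    dist (F (sigInv l (s • y))) (F (sigInv l y)) = ‖sigInv l y‖ - ‖sigInv l (s • y)‖ := by
  by_cases hy : y = 0
  · simp [hy]
  · have hr : 0 < ‖y‖ := norm_pos_iff.2 hy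
    have hx : ‖(‖y‖⁻¹ • y)‖ = 1 := by
      rw [norm_smul, norm_inv, norm_norm, inv_mul_cancel₀ hr.ne']
    have h0 : ∀ c : ℝ, 0 ≤ c → sigInv l (c • y) = (Real.arsinh (c * ‖y‖) / l) • (‖y‖⁻¹ • y) := by
      intro c hc
      rw [sigInv, norm_smul, Real.norm_of_nonneg hc]
      rcases eq_or_lt_of_le hc with h1 | h1
      · rw [← h1]
        simp
      · rw [smul_smul, smul_smul]
        congr 1
        field_simp
    have h1 : ∀ c : ℝ, 0 ≤ c → ‖sigInv l (c • y)‖ = Real.arsinh (c * ‖y‖) / l := by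
      intro c hc
      rw [h0 c hc, norm_smul, hx, mul_one, Real.norm_of_nonneg]
      exact div_nonneg (Real.arsinh_nonneg_iff.2 (by positivity)) hl.le
    have h2 := h0 1 zero_le_one
    have h3 := h1 1 zero_le_one
    rw [one_smul] at h2 h3
    rw [h3, h1 s hs.1, h2, h0 s hs.1, h.line _ hx, abs_sub_comm, abs_of_nonneg]
    have h4 : Real.arsinh (s * ‖y‖) ≤ Real.arsinh (1 * ‖y‖) :=
      Real.arsinh_le_arsinh.2 (mul_le_mul_of_nonneg_right hs.2 hr.le)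
    have h5 := div_le_div_of_nonneg_right h4 hl.le
    linarith

/-- **Block L5.** -/
theorem sinhModel_of {g : E → E →L[ℝ] E →L[ℝ] ℝ} {F : E → M} (h : Glob g F) {l : ℝ} (hl : 0 < l)
    (V : Ver E) (hV : SinhG V l g) : SinhModel V l (fun z => F (sigInv l z)) where
  l_pos := hl
  bij := h.homeo.bijective.comp
    ⟨Function.LeftInverse.injective (sig_sigInv hl), Function.RightInverse.surjective (sigInv_sig hl)⟩
  cosh_zero y := by
    have h1 : sigInv l (0 : E) = 0 := by simp [sigInv]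
    have h2 := uu_sig hl (sigInv l y)
    rw [sig_sigInv hl] at h2
    show Real.cosh (l * dist (F (sigInv l 0)) (F (sigInv l y))) = uu y
    rw [h1, h.dist_zero, h2]
  radial y s hs := by
    have h1 : sigInv l (0 : E) = 0 := by simp [sigInv]
    show dist (F (sigInv l (s • y))) (F (sigInv l y))
      = dist (F (sigInv l 0)) (F (sigInv l y)) - dist (F (sigInv l 0)) (F (sigInv l (s • y)))
    rw [dist_sigInv h hl hs, h1, h.dist_zero, h.dist_zero]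
  near x := by
    have hg := h.hom.norm
    have hP : Psd (g (sigInv l x)) := ⟨fun u v => hg.symm _ u v, fun u => by
      by_cases hu : u = 0
      · simp [hu]
      · exact (hg.pos _ u hu).le⟩
    have h1 : MetAt (fun y z => dist (F y) (F z)) (sigInv l x) (g (sigInv l x)) :=
      MetAt.of_mul fun ε hε => h.near (sigInv l x) ε hε
    have h2 : HasStrictFDerivAt (sigInv l : E → E) (fderiv ℝ (sigInv l) x) x :=
      ((contDiff_sigInv hl).contDiffAt).hasStrictFDerivAt (by simp)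
    have h3 := h1.comp hP h2
    have h4 : pull (g (sigInv l x)) (fderiv ℝ (sigInv l) x) = (l ^ 2)⁻¹ • mgB V x := by
      have hP2 : Psd (mgB V x) := mgB_psd V x
      have hl2 : 0 < (l ^ 2)⁻¹ := by positivity
      refine (hP.pull _).ext_of_sqrt ⟨fun u v => ?_, fun u => ?_⟩ fun u => ?_
      · simp only [smul_apply, smul_eq_mul, hP2.symm u v]
      · simp only [smul_apply, smul_eq_mul]
        exact mul_nonneg hl2.le (hP2.nonneg u)
      · rw [pull_apply]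
        simp only [smul_apply, smul_eq_mul]
        rw [mgB_self, ← sig_metric hg hl V hV x u]
        congr 1
        field_simp
    rw [h4] at h3
    exact h3
  smooth_iso φ ψ hφ := by
    obtain ⟨ψ0, hψ0, h0⟩ := h.isom φ
    have h1 : ψ = fun y => sig l (ψ0 (sigInv l y)) := by
      ext y
      have h2 : F (sigInv l (ψ y)) = F (ψ0 (sigInv l y)) := by rw [hφ y, h0]
      have h3 := h.homeo.injective h2
      rw [← h3, sig_sigInv hl]
    rw [h1]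
    exact (contDiff_sig l).comp (hψ0.smooth.comp (contDiff_sigInv hl))
  trans p := by
    have h1 : sigInv l (0 : E) = 0 := by simp [sigInv]
    obtain ⟨φ, hφ⟩ := h.move (F (sigInv l p))
    exact ⟨φ, by show φ (F (sigInv l 0)) = _; rw [h1]; exact hφ⟩
  smooth_chd := by
    have h1 : ContDiff ℝ ∞ (fun q : E × E => dist (F (sigInv l q.1)) (F (sigInv l q.2)) ^ 2) :=
      h.dist_smooth.comp (((contDiff_sigInv hl).comp contDiff_fst).prodMk
        ((contDiff_sigInv hl).comp contDiff_snd))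
    exact contDiff_cosh_mul h1 l

end

end Pool.Agent.Work.MP_3b24f6_gt.Froz

namespace Pool.Agent.Work.MP_3b24f6_gt.S

/-- **Block L5**, with the hypothesis written out. -/
theorem sinhModel_of {E : Type*} [NormedAddCommGroup E] [InnerProductSpace ℝ E]
    [FiniteDimensional ℝ E] {M : Type*} [MetricSpace M] {g : E → E →L[ℝ] E →L[ℝ] ℝ} {F : E → M}
    (h : Glob g F) {l : ℝ} (hl : 0 < l) (V : Ver E)
    (hV : ∀ (x v : E) (t : ℝ), ‖x‖ = 1 → ⟪x, v⟫_ℝ = 0 → 0 < t →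
      l ^ 2 * g (t • x) (t • v) (t • v)
        = Real.sinh (l * t) ^ 2 * (‖v‖ ^ 2 - ⟪V.Q x v, v⟫_ℝ)
          + (Real.sinh (l * t) * Real.cosh (l * t)) ^ 2 * ⟪V.Q x v, v⟫_ℝ) :
    Froz.SinhModel V l (fun z => F (Froz.sigInv l z)) :=
  Froz.sinhModel_of h hl V hV

end Pool.Agent.Work.MP_3b24f6_gt.S
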