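import Pool.Agent.Work.MP_3b24f6_gt.S.GlobM
import Pool.Agent.Work.MP_3b24f6_gt.S.SinhOf
import Pool.Agent.Work.MP_3b24f6_gt.S.FVer
import Pool.Agent.Work.MP_3b24f6_gt.S.HypGlob
import Pool.Agent.Work.MP_3b24f6_gt.S.RankOne
import Pool.Agent.Work.MP_3b24f6_gt.S.FlatIsom
import Pool.Agent.Work.MP_3b24f6_gt.S.Dim1
import Pool.Agent.Work.MP_3b24f6_gt.H0.Iso0

set_option autoImplicit false

/-!
Assembly of S13039: a noncompact two-point homogeneous Riemannian manifold which is not Euclidean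
is, in global normal coordinates, real hyperbolic or a rank one model `Ver`, and metric balls are
optimal in each case.
-/

open MeasureTheory Set Filter Topology Bundle
open scoped ContDiff InnerProductSpace Manifold MeasureTheory

namespace Pool.Agent.Work.MP_3b24f6_gt.S

noncomputable section

theorem frozen_main (d : ℕ) (M : Type) [MetricSpace M] [MeasurableSpace M] [BorelSpace M]
    [ChartedSpace (EuclideanSpace ℝ (Fin d)) M] [IsManifold (𝓡 d) ∞ M]
    [RiemannianBundle (fun x : M => TangentSpace (𝓡 d) x)]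
    [IsContMDiffRiemannianBundle (𝓡 d) ∞ (EuclideanSpace ℝ (Fin d))
      (fun x : M => TangentSpace (𝓡 d) x)]
    [IsRiemannianManifold (𝓡 d) M]
    (hn : NoncompactSpace M) (hs : SimplyConnectedSpace M)
    (h2 : ∀ p q p' q' : M, dist p q = dist p' q' → ∃ φ : M ≃ᵢ M, φ p = p' ∧ φ q = q')
    (he : IsEmpty (M ≃ᵢ EuclideanSpace ℝ (Fin d)))
    (D : Set M) (hD : IsOpen D) (hb : Bornology.IsBounded D)
    (hfr : ∀ x ∈ frontier D, ∃ f : M → ℝ, ∃ U ∈ nhds x,
      ContMDiffOn (𝓡 d) 𝓘(ℝ, ℝ) ∞ f U ∧ mfderiv (𝓡 d) 𝓘(ℝ, ℝ) f x ≠ 0 ∧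
      ∀ y ∈ U, (y ∈ D ↔ f y < 0))
    (p : M) (r : ℝ) (hm : μH[(d : ℝ)] D = μH[(d : ℝ)] (Metric.ball p r)) :
    μH[(d : ℝ) - 1] (frontier (Metric.ball p r)) ≤ μH[(d : ℝ) - 1] (frontier D) := by
  have hc : ConnectedSpace M := inferInstance
  rcases le_or_gt d 1 with hd | hd
  · exact (he.false (isEmpty_of_le_one d M hn h2 hd).some).elim
  have hd2 : 2 ≤ d := hd
  obtain ⟨o⟩ : Nonempty M := inferInstance
  obtain ⟨hp, g, F, -, hG, hF, hF'⟩ := exists_glob d M hn h2 hd2 o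
  have hfin : 2 ≤ Module.finrank ℝ (EuclideanSpace ℝ (Fin d)) := by
    rw [finrank_euclideanSpace_fin]; exact hd2
  obtain ⟨l, hl, hflat | hhyp | ⟨V, hV⟩⟩ := Rank.rank_one hG.hom hfin
  · exact (he.false (flat_isom hG hflat).some).elim
  · exact frozen_hyp_of hd2 F hG hF hF' hl hhyp
      (fun A hA s hs hm => isoperimetric0 (by omega) hA hs hm) D hD hb hfr p r hm
  · let Ψ : EuclideanSpace ℝ (Fin d) ≃ₜ M := (Froz.sigH hl).symm.trans F
    have hΨ : ContMDiff (𝓡 d) (𝓡 d) ∞ Ψ :=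
      hF.comp (Froz.contDiff_sigInv hl).contMDiff
    have hΨ' : ContMDiff (𝓡 d) (𝓡 d) ∞ Ψ.symm :=
      (Froz.contDiff_sig l).contMDiff.comp hF'
    exact frozen_ver V Ψ hΨ hΨ' (sinhModel_of hG hl V hV) D hD hb hfr p r hm

end

end Pool.Agent.Work.MP_3b24f6_gt.S
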