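import Mathlib

set_option autoImplicit false
set_option linter.unusedSectionVars false

open scoped InnerProductSpace

namespace Pool.Agent.Work.MP_3b24f6_gt.Froz

noncomputable section

/-- Infinitesimal data of a two-point homogeneous space at a base point: `L` is the Lie algebra of
Killing fields, `ev` the evaluation at the base point. -/
structure HomAlg (E L : Type*) [NormedAddCommGroup E] [InnerProductSpace ℝ E]
    [LieRing L] [LieAlgebra ℝ L] where
  ev : L →ₗ[ℝ] E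
  surj : Function.Surjective ev
  sub : ∀ k l, ev k = 0 → ev l = 0 → ev ⁅k, l⁆ = 0
  skew : ∀ k X, ev k = 0 → ⟪ev ⁅k, X⁆, ev X⟫_ℝ = 0
  neg : ∀ k, ev k = 0 → k ≠ 0 → killingForm ℝ L k k < 0
  trans : ∀ x y : E, ‖x‖ = ‖y‖ → ∃ (φ : L ≃ₗ⁅ℝ⁆ L) (A : E ≃ₗᵢ[ℝ] E),
    (∀ X, ev (φ X) = A (ev X)) ∧ A x = y
  full : ∀ x v : E, x ≠ 0 → ⟪x, v⟫_ℝ = 0 → ∃ k X, ev k = 0 ∧ ev X = x ∧ ev ⁅k, X⁆ = v

namespace HomAlg

variable {E L : Type*} [NormedAddCommGroup E] [InnerProductSpace ℝ E] [FiniteDimensional ℝ E]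
  [LieRing L] [LieAlgebra ℝ L] [FiniteDimensional ℝ L] (D : HomAlg E L)

/-- The Killing form. -/
abbrev B : LinearMap.BilinForm ℝ L := killingForm ℝ L

theorem B_symm (X Y : L) : B X Y = B (L := L) Y X :=
  LieModule.traceForm_comm ℝ L L X Y

theorem B_inv (X Y Z : L) : B ⁅X, Y⁆ Z = B (L := L) X ⁅Y, Z⁆ :=
  LieModule.traceForm_apply_lie_apply ℝ L L X Y Z

/-- Invariance in the form of skewness. -/
theorem B_skew (X Y Z : L) : B ⁅X, Y⁆ Z = -B (L := L) Y ⁅X, Z⁆ :=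
  LieModule.traceForm_apply_lie_apply' ℝ L L X Y Z

theorem B_add_left (X Y Z : L) : B (X + Y) Z = B (L := L) X Z + B Y Z := by
  rw [map_add (killingForm ℝ L)]
  rfl

theorem B_add_right (X Y Z : L) : B X (Y + Z) = B (L := L) X Y + B X Z := map_add _ _ _

theorem B_smul_left (r : ℝ) (X Y : L) : B (r • X) Y = r * B (L := L) X Y := by
  rw [map_smul (killingForm ℝ L)]
  rfl

theorem B_smul_right (r : ℝ) (X Y : L) : B X (r • Y) = r * B (L := L) X Y := map_smul _ _ _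

theorem B_sub_left (X Y Z : L) : B (X - Y) Z = B (L := L) X Z - B Y Z := by
  rw [map_sub (killingForm ℝ L)]
  rfl

theorem skew' {k : L} (hk : D.ev k = 0) (X Y : L) :
    ⟪D.ev ⁅k, X⁆, D.ev Y⟫_ℝ = -⟪D.ev X, D.ev ⁅k, Y⁆⟫_ℝ := by
  have h1 := D.skew k (X + Y) hk
  have h2 := D.skew k X hk
  have h3 := D.skew k Y hk
  rw [lie_add, map_add, map_add, inner_add_left, inner_add_right, inner_add_right, h2, h3] at h1
  rw [real_inner_comm (D.ev X)] at h1
  linarith

theorem neg_nonpos {k : L} (hk : D.ev k = 0) : B k k ≤ (0 : ℝ) := by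
  by_cases h : k = 0
  · rw [h]; simp
  · exact (D.neg k hk h).le

/-- The isotropy algebra. -/
def kk : Submodule ℝ L := LinearMap.ker D.ev

theorem mem_kk {k : L} : k ∈ D.kk ↔ D.ev k = 0 := LinearMap.mem_ker

theorem exists_proj (X : L) : ∃ k, D.ev k = 0 ∧ ∀ l, D.ev l = 0 → B k l = B (L := L) X l := by
  let Bk : LinearMap.BilinForm ℝ D.kk := LinearMap.BilinForm.restrict B D.kk
  have hnd : Bk.Nondegenerate := by
    rw [LinearMap.BilinForm.nondegenerate_iff_ker_eq_bot, LinearMap.ker_eq_bot']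
    intro k hk
    by_contra hne
    have h1 : Bk k k = 0 := by rw [hk]; rfl
    have h2 : B (k : L) (k : L) < (0 : ℝ) := D.neg k (D.mem_kk.1 k.2) fun h => hne (Subtype.ext h)
    have h3 : Bk k k = B (k : L) (k : L) := rfl
    linarith
  let φ : Module.Dual ℝ D.kk := (B (L := L) X).comp D.kk.subtype
  refine ⟨((Bk.toDual hnd).symm φ : D.kk), D.mem_kk.1 ((Bk.toDual hnd).symm φ).2, fun l hl => ?_⟩
  have h4 : Bk ((Bk.toDual hnd).symm φ) ⟨l, D.mem_kk.2 hl⟩ = φ ⟨l, D.mem_kk.2 hl⟩ :=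
    LinearMap.BilinForm.apply_toDual_symm_apply (hB := hnd) φ ⟨l, D.mem_kk.2 hl⟩
  exact h4

theorem exists_hat (x : E) : ∃ X, D.ev X = x ∧ ∀ k, D.ev k = 0 → B X k = (0 : ℝ) := by
  obtain ⟨X, hX⟩ := D.surj x
  obtain ⟨k, hk, h⟩ := D.exists_proj X
  refine ⟨X - k, by rw [map_sub, hX, hk, sub_zero], fun l hl => ?_⟩
  rw [map_sub, LinearMap.sub_apply, h l hl, sub_self]

theorem hat_unique {X Y : L} (h : D.ev X = D.ev Y) (hX : ∀ k, D.ev k = 0 → B X k = (0 : ℝ))
    (hY : ∀ k, D.ev k = 0 → B Y k = (0 : ℝ)) : X = Y := by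
  by_contra hne
  have h1 : D.ev (X - Y) = 0 := by rw [map_sub, h, sub_self]
  have h2 := D.neg (X - Y) h1 (sub_ne_zero.2 hne)
  have h3 : killingForm ℝ L (X - Y) (X - Y) = 0 := by
    have := hX _ h1
    have := hY _ h1
    rw [map_sub (killingForm ℝ L), LinearMap.sub_apply]
    linarith
  linarith

/-- The section of `ev` with image the Killing complement of the isotropy algebra. -/
def hat : E →ₗ[ℝ] L where
  toFun x := (D.exists_hat x).choose
  map_add' x y := by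
    refine D.hat_unique ?_ (D.exists_hat (x + y)).choose_spec.2 fun k hk => ?_
    · rw [(D.exists_hat (x + y)).choose_spec.1, map_add, (D.exists_hat x).choose_spec.1,
        (D.exists_hat y).choose_spec.1]
    · rw [map_add, LinearMap.add_apply, (D.exists_hat x).choose_spec.2 k hk,
        (D.exists_hat y).choose_spec.2 k hk, add_zero]
  map_smul' r x := by
    refine D.hat_unique ?_ (D.exists_hat (r • x)).choose_spec.2 fun k hk => ?_
    · rw [(D.exists_hat (r • x)).choose_spec.1, RingHom.id_apply, map_smul,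
        (D.exists_hat x).choose_spec.1]
    · rw [RingHom.id_apply, map_smul, LinearMap.smul_apply, (D.exists_hat x).choose_spec.2 k hk,
        smul_zero]

@[simp] theorem ev_hat (x : E) : D.ev (D.hat x) = x := (D.exists_hat x).choose_spec.1

theorem hat_perp (x : E) {k : L} (hk : D.ev k = 0) : B (D.hat x) k = (0 : ℝ) :=
  (D.exists_hat x).choose_spec.2 k hk

theorem perp_hat (x : E) {k : L} (hk : D.ev k = 0) : B k (D.hat x) = (0 : ℝ) := by
  rw [B_symm, D.hat_perp x hk]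

theorem eq_hat {X : L} (h : ∀ k, D.ev k = 0 → B X k = (0 : ℝ)) : X = D.hat (D.ev X) :=
  D.hat_unique (by rw [D.ev_hat]) h fun _ hk => D.hat_perp _ hk

theorem ev_sub_hat (X : L) : D.ev (X - D.hat (D.ev X)) = 0 := by
  rw [map_sub, D.ev_hat, sub_self]

/-- The action of the isotropy algebra. -/
def rho (k : L) : E →ₗ[ℝ] E := D.ev ∘ₗ (LieAlgebra.ad ℝ L k : L →ₗ[ℝ] L) ∘ₗ D.hat

theorem rho_apply (k : L) (x : E) : D.rho k x = D.ev ⁅k, D.hat x⁆ := rfl

theorem ev_lie {k : L} (hk : D.ev k = 0) (X : L) : D.ev ⁅k, X⁆ = D.rho k (D.ev X) := by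
  have h1 : ⁅k, X⁆ = ⁅k, D.hat (D.ev X)⁆ + ⁅k, X - D.hat (D.ev X)⁆ := by
    rw [← lie_add]
    congr 1
    abel
  rw [h1, map_add, D.sub k _ hk (D.ev_sub_hat X), add_zero, rho_apply]

theorem lie_hat {k : L} (hk : D.ev k = 0) (x : E) : ⁅k, D.hat x⁆ = D.hat (D.rho k x) := by
  rw [rho_apply]
  refine D.eq_hat fun l hl => ?_
  rw [B_skew, D.hat_perp x (D.sub k l hk hl), neg_zero]

theorem hat_lie {k : L} (hk : D.ev k = 0) (x : E) : ⁅D.hat x, k⁆ = -D.hat (D.rho k x) := by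
  rw [← lie_skew, D.lie_hat hk]

theorem rho_skew {k : L} (hk : D.ev k = 0) (x y : E) :
    ⟪D.rho k x, y⟫_ℝ = -⟪x, D.rho k y⟫_ℝ := by
  have h := D.skew' hk (D.hat x) (D.hat y)
  rw [D.ev_hat, D.ev_hat] at h
  exact h

theorem rho_self {k : L} (hk : D.ev k = 0) (x : E) : ⟪D.rho k x, x⟫_ℝ = 0 := by
  have h := D.rho_skew hk x x
  rw [real_inner_comm (D.rho k x) x] at h
  linarith

/-- The component in `pp` of the bracket of `pp`. -/
def be (x y : E) : E := D.ev ⁅D.hat x, D.hat y⁆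

/-- The component in `kk` of the bracket of `pp`. -/
def ka (x y : E) : L := ⁅D.hat x, D.hat y⁆ - D.hat (D.be x y)

theorem ev_ka (x y : E) : D.ev (D.ka x y) = 0 := by
  unfold ka be
  exact D.ev_sub_hat _

theorem lie_hat_hat (x y : E) : ⁅D.hat x, D.hat y⁆ = D.hat (D.be x y) + D.ka x y := by
  unfold ka
  abel

theorem be_skew (x y : E) : D.be x y = -D.be y x := by
  unfold be
  rw [← lie_skew, map_neg]

theorem be_add_left (x y z : E) : D.be (x + y) z = D.be x z + D.be y z := by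
  unfold be
  rw [map_add, add_lie, map_add]

theorem be_add_right (x y z : E) : D.be x (y + z) = D.be x y + D.be x z := by
  unfold be
  rw [map_add, lie_add, map_add]

theorem be_smul_left (r : ℝ) (x y : E) : D.be (r • x) y = r • D.be x y := by
  unfold be
  rw [map_smul, smul_lie, map_smul]

theorem be_smul_right (r : ℝ) (x y : E) : D.be x (r • y) = r • D.be x y := by
  unfold be
  rw [map_smul, lie_smul, map_smul]

theorem be_self (x : E) : D.be x x = 0 := by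
  unfold be
  rw [lie_self, map_zero]

/-- `be` as a bilinear map. -/
def beL : E →ₗ[ℝ] E →ₗ[ℝ] E :=
  LinearMap.mk₂ ℝ D.be D.be_add_left D.be_smul_left D.be_add_right D.be_smul_right

theorem beL_apply (x y : E) : D.beL x y = D.be x y := rfl

theorem ka_skew (x y : E) : D.ka x y = -D.ka y x := by
  unfold ka
  rw [← lie_skew, D.be_skew x y, map_neg]
  abel

/-! ### Automorphisms -/

section auto
variable {φ : L ≃ₗ⁅ℝ⁆ L} {A : E ≃ₗᵢ[ℝ] E} (h : ∀ X, D.ev (φ X) = A (D.ev X))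
include h

theorem ev_symm (X : L) : D.ev (φ.symm X) = A.symm (D.ev X) := by
  have h1 := h (φ.symm X)
  rw [LieEquiv.apply_symm_apply] at h1
  rw [h1, LinearIsometryEquiv.symm_apply_apply]

theorem map_hat (x : E) : φ (D.hat x) = D.hat (A x) := by
  have h1 : D.ev (φ (D.hat x)) = A x := by rw [h, D.ev_hat]
  rw [← h1]
  refine D.eq_hat fun k hk => ?_
  have h2 : B (φ (D.hat x)) k = B (L := L) (φ (D.hat x)) (φ (φ.symm k)) := by
    rw [LieEquiv.apply_symm_apply]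
  rw [h2, LieAlgebra.killingForm_of_equiv_apply]
  exact D.hat_perp x (by rw [D.ev_symm h, hk, map_zero])

theorem map_be (x y : E) : D.be (A x) (A y) = A (D.be x y) := by
  unfold be
  rw [← D.map_hat h, ← D.map_hat h, ← LieEquiv.map_lie, h]

theorem map_ka (x y : E) : D.ka (A x) (A y) = φ (D.ka x y) := by
  unfold ka
  rw [D.map_be h, ← D.map_hat h, ← D.map_hat h, ← D.map_hat h, ← LieEquiv.map_lie, map_sub]

theorem map_rho {k : L} (hk : D.ev k = 0) (x : E) : D.rho (φ k) (A x) = A (D.rho k x) := by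
  rw [rho_apply, ← D.map_hat h, ← LieEquiv.map_lie, h, D.ev_lie hk, D.ev_hat]

end auto

/-! ### The constant -/

theorem exists_c : ∃ c : ℝ, ∀ x y : E, B (D.hat x) (D.hat y) = c * ⟪x, y⟫_ℝ := by
  have key : ∃ c : ℝ, ∀ x : E, B (D.hat x) (D.hat x) = c * ⟪x, x⟫_ℝ := by
    rcases subsingleton_or_nontrivial E with hE | hE
    · refine ⟨0, fun x => ?_⟩
      rw [Subsingleton.elim x 0]
      simp
    · obtain ⟨x₀, hx₀⟩ := exists_ne (0 : E)
      have hn : ‖x₀‖ ≠ 0 := norm_ne_zero_iff.2 hx₀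
      refine ⟨B (D.hat x₀) (D.hat x₀) / ‖x₀‖ ^ 2, fun x => ?_⟩
      obtain ⟨φ, A, h, hA⟩ := D.trans ((‖x‖ / ‖x₀‖) • x₀) x (by
        rw [norm_smul, Real.norm_eq_abs, abs_of_nonneg (by positivity)]
        field_simp)
      have h1 : B (D.hat x) (D.hat x) = B (L := L) (D.hat ((‖x‖ / ‖x₀‖) • x₀))
          (D.hat ((‖x‖ / ‖x₀‖) • x₀)) := by
        have h2 := D.map_hat h ((‖x‖ / ‖x₀‖) • x₀)
        rw [hA] at h2
        rw [← h2, LieAlgebra.killingForm_of_equiv_apply]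
      rw [h1, map_smul D.hat, B_smul_left, B_smul_right, real_inner_self_eq_norm_sq]
      field_simp
  obtain ⟨c, hc⟩ := key
  refine ⟨c, fun x y => ?_⟩
  have h1 := hc (x + y)
  rw [map_add D.hat, B_add_left, B_add_right, B_add_right, hc x, hc y, inner_add_left,
    inner_add_right, inner_add_right, real_inner_comm x y, B_symm (D.hat y) (D.hat x)] at h1
  linarith

/-- The constant. -/
def c : ℝ := D.exists_c.choose

theorem B_hat (x y : E) : B (D.hat x) (D.hat y) = D.c * ⟪x, y⟫_ℝ := D.exists_c.choose_spec x y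

theorem B_ka (x y : E) {k : L} (hk : D.ev k = 0) :
    B (D.ka x y) k = D.c * ⟪D.rho k x, y⟫_ℝ := by
  have h1 : B (D.ka x y) k = B (L := L) ⁅D.hat x, D.hat y⁆ k := by
    rw [D.lie_hat_hat, B_add_left, D.hat_perp _ hk, zero_add]
  rw [h1, B_inv, D.hat_lie hk, map_neg, D.B_hat, D.rho_skew hk]
  ring

theorem be_alt (x y z : E) : D.c * ⟪D.be x y, z⟫_ℝ = -(D.c * ⟪y, D.be x z⟫_ℝ) := by
  rw [← D.B_hat, ← D.B_hat]
  have h1 : B (D.hat (D.be x y)) (D.hat z) = B (L := L) ⁅D.hat x, D.hat y⁆ (D.hat z) := by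
    rw [D.lie_hat_hat, B_add_left, D.perp_hat _ (D.ev_ka x y), add_zero]
  have h2 : B (D.hat y) (D.hat (D.be x z)) = B (L := L) (D.hat y) ⁅D.hat x, D.hat z⁆ := by
    rw [D.lie_hat_hat, B_add_right, D.hat_perp _ (D.ev_ka x z), add_zero]
  rw [h1, h2, B_skew]

theorem decomp (X : L) : X = D.hat (D.ev X) + (X - D.hat (D.ev X)) := by abel

theorem B_self (X : L) : B X X = D.c * ‖D.ev X‖ ^ 2
    + B (L := L) (X - D.hat (D.ev X)) (X - D.hat (D.ev X)) := by
  have h1 := D.hat_perp (D.ev X) (D.ev_sub_hat X)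
  have h2 := D.perp_hat (D.ev X) (D.ev_sub_hat X)
  have h3 := D.B_hat (D.ev X) (D.ev X)
  rw [real_inner_self_eq_norm_sq] at h3
  conv_lhs => rw [D.decomp X]
  rw [B_add_left, B_add_right, B_add_right, h1, h2, h3]
  ring

/-- Compact case: the Killing form is negative definite. -/
theorem neg_of_c_neg (hc : D.c < 0) {X : L} (hX : X ≠ 0) : B X X < (0 : ℝ) := by
  rw [D.B_self X]
  by_cases h0 : D.ev X = 0
  · have h1 : X - D.hat (D.ev X) = X := by rw [h0, map_zero, sub_zero]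
    rw [h1, h0, norm_zero]
    have := D.neg X h0 hX
    simpa using this
  · have h1 : 0 < ‖D.ev X‖ := norm_pos_iff.2 h0
    have h2 := D.neg_nonpos (D.ev_sub_hat X)
    have h3 : D.c * ‖D.ev X‖ ^ 2 < 0 := mul_neg_of_neg_of_pos hc (by positivity)
    linarith

/-! ### The trace condition -/

/-- The projection onto `pp`. -/
def pr : L →ₗ[ℝ] L := D.hat ∘ₗ D.ev

theorem pr_apply (X : L) : D.pr X = D.hat (D.ev X) := rfl

theorem ev_one_sub_pr (X : L) : D.ev (((1 : L →ₗ[ℝ] L) - D.pr) X) = 0 := by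
  rw [LinearMap.sub_apply, Module.End.one_apply, D.pr_apply]
  exact D.ev_sub_hat X

theorem trace_rho_be {k : L} (hk : D.ev k = 0) (x : E) :
    LinearMap.trace ℝ E (D.rho k ∘ₗ D.beL x) = 0 := by
  have h0 : B k (D.hat x) = (0 : ℝ) := D.perp_hat x hk
  have h00 := LieModule.traceForm_apply_apply ℝ L L k (D.hat x)
  rw [show LieModule.traceForm ℝ L L k (D.hat x) = 0 from h0] at h00
  replace h0 := h00.symm
  set M : L →ₗ[ℝ] L := LieAlgebra.ad ℝ L k ∘ₗ LieAlgebra.ad ℝ L (D.hat x) with hM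
  have hMa : ∀ Y, M Y = ⁅k, ⁅D.hat x, Y⁆⁆ := fun Y => rfl
  have h1 : M = M ∘ₗ D.pr + M ∘ₗ ((1 : L →ₗ[ℝ] L) - D.pr) := by
    ext Y
    simp [pr_apply]
  have h2 : LinearMap.trace ℝ L (M ∘ₗ D.pr) = LinearMap.trace ℝ E (D.rho k ∘ₗ D.beL x) := by
    have e1 : M ∘ₗ D.pr = (M ∘ₗ D.hat) ∘ₗ D.ev := rfl
    rw [e1, LinearMap.trace_comp_comm']
    congr 1
    ext y
    simp only [LinearMap.comp_apply, beL_apply]
    rw [hMa, D.lie_hat_hat, lie_add, map_add, D.sub k _ hk (D.ev_ka x y), add_zero,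
      ← rho_apply]
  have h3 : LinearMap.trace ℝ L (M ∘ₗ ((1 : L →ₗ[ℝ] L) - D.pr)) = 0 := by
    set S : L →ₗ[ℝ] L := (1 : L →ₗ[ℝ] L) - D.pr with hS
    have hSS : S ∘ₗ S = S := by
      ext Y
      have e1 : D.ev (S Y) = 0 := D.ev_one_sub_pr Y
      have e2 : S (S Y) = S Y - D.hat (D.ev (S Y)) := rfl
      rw [LinearMap.comp_apply, e2, e1, map_zero, sub_zero]
    have e3 : M ∘ₗ S = (M ∘ₗ S) ∘ₗ S := by
      ext Y
      have e7 : S (S Y) = S Y := congrArg (fun g : L →ₗ[ℝ] L => g Y) hSS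
      simp only [LinearMap.comp_apply]
      rw [e7]
    rw [e3, LinearMap.trace_comp_comm']
    have e4 : S ∘ₗ M ∘ₗ S = 0 := by
      ext Y
      have e5 : D.ev (S Y) = 0 := D.ev_one_sub_pr Y
      simp only [LinearMap.comp_apply, LinearMap.zero_apply]
      rw [hMa, D.hat_lie e5, lie_neg, D.lie_hat hk, map_neg]
      have e6 : ∀ z, S (D.hat z) = 0 := fun z => by
        have : S (D.hat z) = D.hat z - D.hat (D.ev (D.hat z)) := rfl
        rw [this, D.ev_hat, sub_self]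
      rw [e6, neg_zero]
    rw [e4, map_zero]
  change LinearMap.trace ℝ L M = 0 at h0
  rw [h1, map_add, h2, h3, add_zero] at h0
  exact h0

/-! ### An orthonormal basis of the isotropy algebra -/

theorem exists_onb : ∃ (n : ℕ) (f : Fin n → L), (∀ a, D.ev (f a) = 0) ∧
    ∀ k, D.ev k = 0 → k = -∑ a, B k (f a) • f a := by
  let Bk : LinearMap.BilinForm ℝ D.kk := LinearMap.BilinForm.restrict B D.kk
  have hsymm : LinearMap.IsSymm Bk := ⟨fun x y => B_symm (x : L) (y : L)⟩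
  have : Invertible (2 : ℝ) := invertibleOfNonzero two_ne_zero
  obtain ⟨v, hv⟩ := LinearMap.BilinForm.exists_orthogonal_basis hsymm
  have hneg : ∀ a, B ((v a : D.kk) : L) ((v a : D.kk) : L) < (0 : ℝ) := fun a => by
    refine D.neg _ (D.mem_kk.1 (v a).2) fun h => v.ne_zero a (Subtype.ext h)
  refine ⟨_, fun a => (Real.sqrt (-B ((v a : D.kk) : L) ((v a : D.kk) : L)))⁻¹ •
    ((v a : D.kk) : L), fun a => ?_, fun k hk => ?_⟩
  · rw [map_smul, D.mem_kk.1 (v a).2, smul_zero]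
  · have h1 : ∀ a, v.repr ⟨k, D.mem_kk.2 hk⟩ a
        = B (L := L) k (v a : D.kk) / B ((v a : D.kk) : L) ((v a : D.kk) : L) := fun a => by
      have h2 : Bk ⟨k, D.mem_kk.2 hk⟩ (v a)
          = v.repr ⟨k, D.mem_kk.2 hk⟩ a * Bk (v a) (v a) := by
        conv_lhs => rw [← v.sum_repr ⟨k, D.mem_kk.2 hk⟩]
        rw [map_sum, LinearMap.sum_apply]
        rw [Finset.sum_eq_single a]
        · rw [map_smul, LinearMap.smul_apply, smul_eq_mul]
        · intro b _ hb
          rw [map_smul, LinearMap.smul_apply, hv hb, smul_zero]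
        · intro h
          exact absurd (Finset.mem_univ a) h
      have h3 : Bk (v a) (v a) = B (L := L) (v a : D.kk) (v a : D.kk) := rfl
      have h4 : Bk ⟨k, D.mem_kk.2 hk⟩ (v a) = B (L := L) k (v a : D.kk) := rfl
      rw [h3, h4] at h2
      rw [h2, mul_div_cancel_right₀ _ (hneg a).ne]
    have h5 : (k : L) = ∑ a, v.repr ⟨k, D.mem_kk.2 hk⟩ a • ((v a : D.kk) : L) := by
      have h6 := congrArg (fun z : D.kk => (z : L)) (v.sum_repr ⟨k, D.mem_kk.2 hk⟩)
      simp only [Submodule.coe_sum, Submodule.coe_smul] at h6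
      exact h6.symm
    conv_lhs => rw [h5]
    rw [← Finset.sum_neg_distrib]
    refine Finset.sum_congr rfl fun a _ => ?_
    rw [h1 a, B_smul_right, smul_smul, ← neg_smul]
    congr 1
    have h7 := hneg a
    obtain ⟨r, hr, hr1, hr2⟩ : ∃ r : ℝ, 0 < r ∧
        Real.sqrt (-B ((v a : D.kk) : L) ((v a : D.kk) : L)) = r ∧
        B ((v a : D.kk) : L) ((v a : D.kk) : L) = -r ^ 2 :=
      ⟨_, Real.sqrt_pos.2 (by linarith), rfl, by rw [Real.sq_sqrt (by linarith)]; ring⟩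
    rw [hr1, hr2]
    field_simp

/-! ### The noncompact case: `pp` is a Lie triple system -/

theorem rho_add (k l : L) (x : E) : D.rho (k + l) x = D.rho k x + D.rho l x := by
  rw [rho_apply, rho_apply, rho_apply, add_lie, map_add]

theorem rho_smul (r : ℝ) (k : L) (x : E) : D.rho (r • k) x = r • D.rho k x := by
  rw [rho_apply, rho_apply, smul_lie, map_smul]

theorem rho_neg (k : L) (x : E) : D.rho (-k) x = -D.rho k x := by
  rw [rho_apply, rho_apply, neg_lie, map_neg]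

theorem rho_zero (x : E) : D.rho 0 x = 0 := by
  rw [rho_apply, zero_lie, map_zero]

theorem rho_sum {ι : Type*} (s : Finset ι) (r : ι → ℝ) (f : ι → L) (x : E) :
    D.rho (∑ a ∈ s, r a • f a) x = ∑ a ∈ s, r a • D.rho (f a) x := by
  classical
  induction s using Finset.induction_on with
  | empty => simp [rho_zero]
  | insert a s ha ih => rw [Finset.sum_insert ha, Finset.sum_insert ha, rho_add, rho_smul, ih]

theorem rho_be {k : L} (hk : D.ev k = 0) (x y : E) :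
    D.rho k (D.be x y) = D.be (D.rho k x) y + D.be x (D.rho k y) := by
  have h1 := leibniz_lie k (D.hat x) (D.hat y)
  have h2 := congrArg D.ev h1
  rw [map_add, D.ev_lie hk, D.lie_hat hk, D.lie_hat hk] at h2
  exact h2

theorem jacobi (x y z : E) :
    (D.be x (D.be y z) - D.rho (D.ka y z) x) + (D.be y (D.be z x) - D.rho (D.ka z x) y)
      + (D.be z (D.be x y) - D.rho (D.ka x y) z) = 0 := by
  have h1 := lie_jacobi (D.hat x) (D.hat y) (D.hat z)
  have h2 := congrArg D.ev h1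
  rw [map_add, map_add, map_zero, D.lie_hat_hat y z, D.lie_hat_hat z x, D.lie_hat_hat x y,
    lie_add, lie_add, lie_add, D.hat_lie (D.ev_ka y z), D.hat_lie (D.ev_ka z x),
    D.hat_lie (D.ev_ka x y), map_add, map_add, map_add, map_neg, map_neg, map_neg, D.ev_hat,
    D.ev_hat, D.ev_hat] at h2
  rw [← h2]
  unfold be
  abel

section core
variable (hc : D.c ≠ 0)
include hc

theorem be_alt' (x y z : E) : ⟪D.be x y, z⟫_ℝ = -⟪y, D.be x z⟫_ℝ := by
  have h := D.be_alt x y z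
  have h1 : D.c * (⟪D.be x y, z⟫_ℝ + ⟪y, D.be x z⟫_ℝ) = 0 := by linarith
  have h2 := (mul_eq_zero.1 h1).resolve_left hc
  linarith

theorem be_cyc (x y z : E) : ⟪D.be x y, z⟫_ℝ = ⟪D.be y z, x⟫_ℝ := by
  rw [D.be_skew x y, inner_neg_left, D.be_alt' hc y x z, neg_neg, real_inner_comm]

theorem sum_be_rho {ι : Type*} [Fintype ι] (b : OrthonormalBasis ι ℝ E) {k : L}
    (hk : D.ev k = 0) : ∑ i, D.be (b i) (D.rho k (b i)) = 0 := by
  refine ext_inner_right ℝ fun z => ?_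
  rw [sum_inner, inner_zero_left]
  have h1 := D.trace_rho_be hk z
  rw [LinearMap.trace_eq_sum_inner _ b] at h1
  have h2 : ∀ i, ⟪D.be (b i) (D.rho k (b i)), z⟫_ℝ
      = -⟪b i, (D.rho k ∘ₗ D.beL z) (b i)⟫_ℝ := fun i => by
    rw [D.be_cyc hc, D.be_cyc hc, LinearMap.comp_apply, beL_apply,
      ← D.rho_skew hk (b i) (D.be z (b i)), real_inner_comm]
  rw [Finset.sum_congr rfl fun i _ => h2 i, Finset.sum_neg_distrib, h1, neg_zero]

end core

theorem sum_inner_be {ι : Type*} [Fintype ι] (b : OrthonormalBasis ι ℝ E) (u x w : E) :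
    ∑ l, ⟪u, D.be x (b l)⟫_ℝ * ⟪w, b l⟫_ℝ = ⟪u, D.be x w⟫_ℝ := by
  have h1 : D.be x w = ∑ l, ⟪b l, w⟫_ℝ • D.be x (b l) := by
    conv_lhs => rw [← b.sum_repr' w]
    rw [← beL_apply, map_sum]
    refine Finset.sum_congr rfl fun l _ => ?_
    rw [map_smul, beL_apply]
  rw [h1, inner_sum]
  refine Finset.sum_congr rfl fun l _ => ?_
  rw [inner_smul_right, real_inner_comm w (b l)]
  ring

theorem sum_be_left {ι : Type*} [Fintype ι] (b : OrthonormalBasis ι ℝ E) (u w : E) :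
    ∑ l, ⟪u, b l⟫_ℝ • D.be (b l) w = D.be u w := by
  have h1 : D.be u w = ∑ l, ⟪b l, u⟫_ℝ • D.be (b l) w := by
    conv_lhs => rw [← b.sum_repr' u]
    rw [← beL_apply, map_sum, LinearMap.sum_apply]
    refine Finset.sum_congr rfl fun l _ => ?_
    rw [map_smul, LinearMap.smul_apply, beL_apply]
  rw [h1]
  refine Finset.sum_congr rfl fun l _ => ?_
  rw [real_inner_comm]

section core2
variable (hc : D.c ≠ 0) {ι : Type*} [Fintype ι] (b : OrthonormalBasis ι ℝ E)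

/-- The cubic sum. -/
def tt : ℝ := ∑ i, ∑ j, ∑ l,
  ⟪D.rho (D.ka (b j) (b l)) (b i), D.be (D.be (b i) (b j)) (b l)⟫_ℝ

theorem be_neg_left (x y : E) : D.be (-x) y = -D.be x y := by
  have h := D.be_smul_left (-1) x y
  rwa [neg_one_smul, neg_one_smul] at h

theorem be_neg_right (x y : E) : D.be x (-y) = -D.be x y := by
  have h := D.be_smul_right (-1) x y
  rwa [neg_one_smul, neg_one_smul] at h

theorem ka_add_right (x y z : E) : D.ka x (y + z) = D.ka x y + D.ka x z := by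
  unfold ka
  rw [D.be_add_right, map_add, map_add, lie_add]
  abel

theorem ka_smul_right (r : ℝ) (x z : E) : D.ka x (r • z) = r • D.ka x z := by
  unfold ka
  rw [D.be_smul_right, map_smul, map_smul, lie_smul, smul_sub]

theorem ka_smul_left (r : ℝ) (x z : E) : D.ka (r • x) z = r • D.ka x z := by
  unfold ka
  rw [D.be_smul_left, map_smul, map_smul, smul_lie, smul_sub]

theorem ka_neg_right (x y : E) : D.ka x (-y) = -D.ka x y := by
  have h := D.ka_smul_right (-1) x y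
  rwa [neg_one_smul, neg_one_smul] at h

theorem ka_zero_right (x : E) : D.ka x 0 = 0 := by
  have h := D.ka_smul_right 0 x 0
  rwa [zero_smul, zero_smul] at h

/-- `ka x` as a linear map. -/
def kaL (x : E) : E →ₗ[ℝ] L where
  toFun := D.ka x
  map_add' := D.ka_add_right x
  map_smul' r z := D.ka_smul_right r x z

theorem kaL_apply (x z : E) : D.kaL x z = D.ka x z := rfl

/-- The summand of the contraction. -/
def gg (x y z : E) : ℝ := ⟪D.rho (D.ka x (D.be y z)) y, D.be z x⟫_ℝ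

include hc in
theorem neg_B_ka_be (x y z : E) : -B (D.ka x (D.be y z)) (D.ka x (D.be y z))
    = D.c * (D.gg x y z + D.gg x z y) := by
  have h0 := D.ev_ka x (D.be y z)
  rw [D.B_ka x _ h0, D.rho_skew h0, D.rho_be h0, inner_add_right]
  have h1 : ⟪x, D.be (D.rho (D.ka x (D.be y z)) y) z⟫_ℝ = D.gg x y z := by
    rw [real_inner_comm, D.be_cyc hc, real_inner_comm]
    rfl
  have h2 : ⟪x, D.be y (D.rho (D.ka x (D.be y z)) z)⟫_ℝ = D.gg x z y := by
    unfold gg
    rw [D.be_skew z y, D.ka_neg_right, rho_neg, inner_neg_left, real_inner_comm,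
      D.be_alt' hc y]
  rw [h1, h2]
  ring

theorem ka_expand (x u : E) : D.ka x u = ∑ l, ⟪b l, u⟫_ℝ • D.ka x (b l) := by
  conv_lhs => rw [← b.sum_repr' u]
  rw [← kaL_apply, map_sum]
  refine Finset.sum_congr rfl fun l _ => ?_
  rw [map_smul, kaL_apply]

include hc in
theorem gg_expand (x y z : E) :
    D.gg x y z = ∑ u, ⟪D.be (b u) y, z⟫_ℝ * ⟪D.rho (D.ka x (b u)) y, D.be z x⟫_ℝ := by
  unfold gg
  rw [D.ka_expand b x (D.be y z), D.rho_sum, sum_inner]
  refine Finset.sum_congr rfl fun u _ => ?_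
  rw [inner_smul_left, RCLike.conj_to_real, real_inner_comm, D.be_cyc hc y z (b u),
    D.be_cyc hc z (b u) y]

include hc in
theorem sum_gg (x y : E) : ∑ l, D.gg x y (b l)
    = ∑ u, ⟪D.rho (D.ka x (b u)) y, D.be (D.be (b u) y) x⟫_ℝ := by
  have h1 : ∀ l, D.gg x y (b l)
      = ∑ u, ⟪D.be (b u) y, b l⟫_ℝ * ⟪D.rho (D.ka x (b u)) y, D.be (b l) x⟫_ℝ :=
    fun l => D.gg_expand hc b x y (b l)
  rw [Finset.sum_congr rfl fun l _ => h1 l, Finset.sum_comm]
  refine Finset.sum_congr rfl fun u _ => ?_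
  rw [← D.sum_be_left b (D.be (b u) y) x, inner_sum]
  refine Finset.sum_congr rfl fun l _ => ?_
  rw [inner_smul_right]

include hc in
theorem sum_neg_B : ∑ i, ∑ j, ∑ l, -B (D.ka (b i) (D.be (b j) (b l)))
    (D.ka (b i) (D.be (b j) (b l))) = 2 * D.c * D.tt b := by
  have h1 : ∑ i, ∑ j, ∑ l, D.gg (b i) (b j) (b l) = D.tt b := by
    unfold tt
    have e1 : ∀ i, ∑ j, ∑ l, D.gg (b i) (b j) (b l)
        = ∑ j, ∑ l, ⟪D.rho (D.ka (b l) (b i)) (b j), D.be (D.be (b j) (b l)) (b i)⟫_ℝ :=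
      fun i => Finset.sum_congr rfl fun j _ => by
        rw [D.sum_gg hc b]
        refine Finset.sum_congr rfl fun l _ => ?_
        rw [D.ka_skew (b i) (b l), rho_neg, D.be_skew (b l) (b j), be_neg_left, inner_neg_neg]
    rw [Finset.sum_congr rfl fun i _ => e1 i, Finset.sum_comm]
    refine Finset.sum_congr rfl fun j _ => ?_
    rw [Finset.sum_comm]
  have h2 : ∑ i, ∑ j, ∑ l, D.gg (b i) (b l) (b j) = D.tt b := by
    rw [← h1]
    exact Finset.sum_congr rfl fun i _ => Finset.sum_comm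
  have h3 : ∀ i j l, -B (D.ka (b i) (D.be (b j) (b l))) (D.ka (b i) (D.be (b j) (b l)))
      = D.c * D.gg (b i) (b j) (b l) + D.c * D.gg (b i) (b l) (b j) := fun i j l => by
    rw [D.neg_B_ka_be hc]
    ring
  simp only [h3, Finset.sum_add_distrib, ← Finset.mul_sum]
  rw [h1, h2]
  ring

/-- The Jacobi sum. -/
def vv (x y z : E) : E := D.be x (D.be y z) + D.be y (D.be z x) + D.be z (D.be x y)

theorem vv_eq (x y z : E) : D.vv x y z
    = D.rho (D.ka y z) x + D.rho (D.ka z x) y + D.rho (D.ka x y) z := by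
  have h := D.jacobi x y z
  unfold vv
  rw [← sub_eq_zero, ← h]
  abel

include hc in
theorem sum_vv : ∑ i, ∑ j, ∑ l, ‖D.vv (b i) (b j) (b l)‖ ^ 2 = -6 * D.tt b := by
  have h1 : ∀ x y z, ‖D.vv x y z‖ ^ 2 = ⟪D.vv x y z, D.be z (D.be x y)⟫_ℝ
      + ⟪D.vv y z x, D.be x (D.be y z)⟫_ℝ + ⟪D.vv z x y, D.be y (D.be z x)⟫_ℝ :=
    fun x y z => by
      have e1 : D.vv y z x = D.vv x y z := by
        unfold vv
        abel
      have e2 : D.vv z x y = D.vv x y z := by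
        unfold vv
        abel
      rw [e1, e2, ← real_inner_self_eq_norm_sq]
      conv_lhs => rw [show D.vv x y z = D.be z (D.be x y) + D.be x (D.be y z)
        + D.be y (D.be z x) from by unfold vv; abel]
      rw [inner_add_right, inner_add_right]
      rw [show D.be z (D.be x y) + D.be x (D.be y z)
        + D.be y (D.be z x) = D.vv x y z from by unfold vv; abel]
  have h2 : ∀ x y z, ⟪D.vv x y z, D.be z (D.be x y)⟫_ℝ
      = -⟪D.rho (D.ka y z) x, D.be (D.be x y) z⟫_ℝ - ⟪D.rho (D.ka x z) y, D.be (D.be y x) z⟫_ℝ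
        - ⟪D.be z (D.rho (D.ka x y) z), D.be x y⟫_ℝ := fun x y z => by
    have e3 : ⟪D.rho (D.ka x y) z, D.be z (D.be x y)⟫_ℝ
        = -⟪D.be z (D.rho (D.ka x y) z), D.be x y⟫_ℝ := by
      rw [D.be_alt' hc, neg_neg]
    rw [D.vv_eq, inner_add_left, inner_add_left, e3, D.be_skew z (D.be x y), inner_neg_right,
      inner_neg_right, D.ka_skew z x, D.be_skew y x, rho_neg, inner_neg_left, be_neg_left,
      inner_neg_right]
    ring
  have h3 : ∑ i, ∑ j, ∑ l, ⟪D.rho (D.ka (b i) (b l)) (b j), D.be (D.be (b j) (b i)) (b l)⟫_ℝ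
      = D.tt b := by
    rw [Finset.sum_comm]
    rfl
  have h4 : ∀ i j, ∑ l, ⟪D.be (b l) (D.rho (D.ka (b i) (b j)) (b l)), D.be (b i) (b j)⟫_ℝ
      = 0 := fun i j => by
    rw [← sum_inner, D.sum_be_rho hc b (D.ev_ka (b i) (b j)), inner_zero_left]
  have h5 : ∑ i, ∑ j, ∑ l, ⟪D.vv (b i) (b j) (b l), D.be (b l) (D.be (b i) (b j))⟫_ℝ
      = -2 * D.tt b := by
    simp only [h2, Finset.sum_sub_distrib, Finset.sum_neg_distrib, h4]
    rw [h3]
    unfold tt
    simp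
    ring
  have h6 : ∑ i, ∑ j, ∑ l, ⟪D.vv (b j) (b l) (b i), D.be (b i) (D.be (b j) (b l))⟫_ℝ
      = -2 * D.tt b := by
    rw [← h5, Finset.sum_comm]
    exact Finset.sum_congr rfl fun j _ => Finset.sum_comm
  have h7 : ∑ i, ∑ j, ∑ l, ⟪D.vv (b l) (b i) (b j), D.be (b j) (D.be (b l) (b i))⟫_ℝ
      = -2 * D.tt b := by
    rw [← h5]
    rw [Finset.sum_congr rfl fun i _ => Finset.sum_comm]
    rw [Finset.sum_comm]
  simp only [h1, Finset.sum_add_distrib]
  rw [h5, h6, h7]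
  ring

end core2

theorem be_eq_zero (hc : 0 < D.c) (x y : E) : D.be x y = 0 := by
  set b := stdOrthonormalBasis ℝ E with hb
  have h1 := D.sum_neg_B hc.ne' b
  have h2 := D.sum_vv hc.ne' b
  have hnn : ∀ i j l, 0 ≤ -B (D.ka (b i) (D.be (b j) (b l))) (D.ka (b i) (D.be (b j) (b l))) :=
    fun i j l => by
      have := D.neg_nonpos (D.ev_ka (b i) (D.be (b j) (b l)))
      linarith
  have h3 : 0 ≤ D.tt b := by
    have e1 : 0 ≤ 2 * D.c * D.tt b := by
      rw [← h1]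
      exact Finset.sum_nonneg fun i _ => Finset.sum_nonneg fun j _ => Finset.sum_nonneg
        fun l _ => hnn i j l
    by_contra hneg
    have e2 : 2 * D.c * D.tt b < 0 := by
      apply mul_neg_of_pos_of_neg (by linarith) (by linarith)
    linarith
  have h4 : D.tt b = 0 := by
    have e1 : 0 ≤ -6 * D.tt b := by
      rw [← h2]
      exact Finset.sum_nonneg fun i _ => Finset.sum_nonneg fun j _ => Finset.sum_nonneg
        fun l _ => sq_nonneg _
    linarith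
  rw [h4, mul_zero] at h1
  have h5 : ∀ i j l, -B (D.ka (b i) (D.be (b j) (b l))) (D.ka (b i) (D.be (b j) (b l))) = 0 := by
    intro i j l
    have e1 := (Finset.sum_eq_zero_iff_of_nonneg fun i _ => Finset.sum_nonneg fun j _ =>
      Finset.sum_nonneg fun l _ => hnn i j l).1 h1 i (Finset.mem_univ i)
    have e2 := (Finset.sum_eq_zero_iff_of_nonneg fun j _ =>
      Finset.sum_nonneg fun l _ => hnn i j l).1 e1 j (Finset.mem_univ j)
    exact (Finset.sum_eq_zero_iff_of_nonneg fun l _ => hnn i j l).1 e2 l (Finset.mem_univ l)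
  have h6 : ∀ j l, D.be (b j) (b l) = 0 := by
    intro j l
    by_contra hne
    have e1 : ⟪D.be (b j) (b l), b j⟫_ℝ = 0 := by
      have a1 := D.be_cyc hc.ne' (b j) (b l) (b j)
      rw [D.be_skew (b l) (b j), inner_neg_left] at a1
      linarith
    obtain ⟨k, X, hk, hX, hkX⟩ := D.full _ _ hne e1
    have e2 : D.rho k (D.be (b j) (b l)) = b j := by
      calc D.rho k (D.be (b j) (b l)) = D.rho k (D.ev X) := by rw [hX]
        _ = D.ev ⁅k, X⁆ := (D.ev_lie hk X).symm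
        _ = b j := hkX
    have e3 : D.ka (b j) (D.be (b j) (b l)) = 0 := by
      by_contra h0
      have := D.neg _ (D.ev_ka _ _) h0
      have := h5 j j l
      linarith
    have e4 := D.B_ka (b j) (D.be (b j) (b l)) hk
    rw [e3, D.rho_skew hk, e2, map_zero (killingForm ℝ L), LinearMap.zero_apply,
      real_inner_self_eq_norm_sq, b.orthonormal.1 j] at e4
    simp at e4
    exact hc.ne' e4
  have h7 : D.beL = 0 := by
    refine b.toBasis.ext fun i => b.toBasis.ext fun j => ?_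
    rw [OrthonormalBasis.coe_toBasis, beL_apply, h6, LinearMap.zero_apply, LinearMap.zero_apply]
  rw [← beL_apply, h7]
  rfl

/-! ### The case `c = 0` -/

theorem mem_killingCompl_hat (hc : D.c = 0) (x : E) :
    D.hat x ∈ LieIdeal.killingCompl ℝ L (⊤ : LieIdeal ℝ L) := by
  rw [LieIdeal.mem_killingCompl]
  intro Y _
  change B Y (D.hat x) = (0 : ℝ)
  conv_lhs => rw [D.decomp Y]
  rw [B_add_left, D.B_hat, hc, D.perp_hat x (D.ev_sub_hat Y)]
  ring

theorem eq_hat_of_mem {X : L} (hX : X ∈ LieIdeal.killingCompl ℝ L (⊤ : LieIdeal ℝ L)) :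
    X = D.hat (D.ev X) := by
  rw [LieIdeal.mem_killingCompl] at hX
  refine D.eq_hat fun k _ => ?_
  rw [B_symm]
  exact hX k (LieSubmodule.mem_top k)

theorem lie_eq_zero_of_c_eq_zero (hc : D.c = 0) (x y : E) : ⁅D.hat x, D.hat y⁆ = 0 := by
  set R : LieIdeal ℝ L := LieIdeal.killingCompl ℝ L (⊤ : LieIdeal ℝ L) with hR
  have hmem : ∀ x, D.hat x ∈ R := D.mem_killingCompl_hat hc
  have hsol : LieAlgebra.IsSolvable R := by
    refine LieIdeal.isSolvable_of_killingForm_apply_lie_eq_zero _ ?_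
    intro x hx y _
    rw [LieModule.traceForm_comm]
    exact (LieIdeal.mem_killingCompl ℝ L ⊤).mp hx y (LieSubmodule.mem_top y)
  have hφ : ∀ φ : L ≃ₗ⁅ℝ⁆ L, ∀ X ∈ ⁅R, R⁆, φ X ∈ ⁅R, R⁆ := by
    intro φ X hX
    have h1 : LieIdeal.map (φ : L →ₗ⁅ℝ⁆ L) R ≤ R := by
      rw [LieIdeal.map_le_iff_le_comap]
      intro Y hY
      rw [LieIdeal.mem_comap, hR, LieIdeal.mem_killingCompl]
      intro Z _
      have h2 : killingForm ℝ L (φ (φ.symm Z)) (φ Y) = 0 := by
        rw [LieAlgebra.killingForm_of_equiv_apply]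
        exact (LieIdeal.mem_killingCompl ℝ L ⊤).mp hY _ (LieSubmodule.mem_top _)
      rw [LieEquiv.apply_symm_apply] at h2
      exact h2
    have h2 : (φ : L →ₗ⁅ℝ⁆ L) X ∈ LieIdeal.map (φ : L →ₗ⁅ℝ⁆ L) ⁅R, R⁆ := LieIdeal.mem_map hX
    exact LieSubmodule.mono_lie h1 h1 (LieIdeal.map_bracket_le (φ : L →ₗ⁅ℝ⁆ L) h2)
  by_contra hne
  set Z : L := ⁅D.hat x, D.hat y⁆ with hZ
  have hZm : Z ∈ ⁅R, R⁆ := LieSubmodule.lie_mem_lie (hmem x) (hmem y)
  have hZR : Z ∈ R := LieSubmodule.lie_le_left R R hZm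
  have hZe : Z = D.hat (D.ev Z) := D.eq_hat_of_mem hZR
  have hz : D.ev Z ≠ 0 := fun h => hne (by rw [hZe, h, map_zero])
  have hn : ‖D.ev Z‖ ≠ 0 := norm_ne_zero_iff.2 hz
  have hall : ∀ w, D.hat w ∈ ⁅R, R⁆ := by
    intro w
    obtain ⟨φ, A, h, hA⟩ := D.trans ((‖w‖ / ‖D.ev Z‖) • D.ev Z) w (by
      rw [norm_smul, Real.norm_eq_abs, abs_of_nonneg (by positivity)]
      field_simp)
    have h1 := D.map_hat h ((‖w‖ / ‖D.ev Z‖) • D.ev Z)
    rw [hA, map_smul D.hat, ← hZe] at h1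
    rw [← h1]
    exact hφ φ _ (Submodule.smul_mem _ _ hZm)
  have hle : R ≤ ⁅R, R⁆ := fun X hX => by
    rw [D.eq_hat_of_mem hX]
    exact hall _
  have heq : ⁅R, R⁆ = R := le_antisymm (LieSubmodule.lie_le_left R R) hle
  obtain ⟨n, hn'⟩ := (LieAlgebra.isSolvable_iff ℝ R).1 hsol
  rw [LieIdeal.derivedSeries_eq_bot_iff] at hn'
  have hD : ∀ n, LieAlgebra.derivedSeriesOfIdeal ℝ L n R = R := by
    intro n
    induction n with
    | zero => rfl
    | succ n ih => rw [LieAlgebra.derivedSeriesOfIdeal_succ, ih, heq]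
  rw [hD n] at hn'
  rw [hn'] at hZR
  exact hne ((LieSubmodule.mem_bot Z).1 hZR)

/-! ### The case `c > 0`: the symmetric data -/

theorem full' {x v : E} (hx : x ≠ 0) (hxv : ⟪x, v⟫_ℝ = 0) :
    ∃ k, D.ev k = 0 ∧ D.rho k x = v := by
  obtain ⟨k, X, hk, hX, hkX⟩ := D.full x v hx hxv
  exact ⟨k, hk, by rw [← hX, ← D.ev_lie hk, hkX]⟩

theorem ka_ne_zero (hc : D.c ≠ 0) {x v : E} (hx : x ≠ 0) (hxv : ⟪x, v⟫_ℝ = 0) (hv : v ≠ 0) :
    D.ka x v ≠ 0 := by
  intro h0
  obtain ⟨k, hk, hkx⟩ := D.full' hx hxv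
  have h1 := D.B_ka x v hk
  rw [h0, hkx, map_zero (killingForm ℝ L), LinearMap.zero_apply, real_inner_self_eq_norm_sq] at h1
  have h2 : 0 < ‖v‖ ^ 2 := by
    have := norm_pos_iff.2 hv
    positivity
  exact (mul_ne_zero hc h2.ne') h1.symm

section pos
variable (hc : 0 < D.c)
include hc

theorem ev_lie_hat_hat (x y : E) : D.ev ⁅D.hat x, D.hat y⁆ = 0 := D.be_eq_zero hc x y

theorem lie_hat_hat' (x y : E) : ⁅D.hat x, D.hat y⁆ = D.ka x y := by
  rw [D.lie_hat_hat, D.be_eq_zero hc, map_zero, zero_add]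

theorem ev_lie_lie (x y : E) :
    D.ev ⁅D.hat x, ⁅D.hat x, D.hat y⁆⁆ = -D.rho (D.ka x y) x := by
  rw [D.lie_hat_hat' hc, D.hat_lie (D.ev_ka x y), map_neg, D.ev_hat]

theorem inner_ev_lie_lie (x y z : E) :
    D.c * ⟪D.ev ⁅D.hat x, ⁅D.hat x, D.hat y⁆⁆, z⟫_ℝ = -B (D.ka x y) (D.ka x z) := by
  rw [D.ev_lie_lie hc, inner_neg_left, B_symm (D.ka x y), D.B_ka x z (D.ev_ka x y)]
  ring

theorem pos_ev_lie_lie {x y : E} (hx : x ≠ 0) (hxy : ⟪x, y⟫_ℝ = 0) (hy : y ≠ 0) :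
    0 < ⟪D.ev ⁅D.hat x, ⁅D.hat x, D.hat y⁆⁆, y⟫_ℝ := by
  have h1 := D.inner_ev_lie_lie hc x y y
  have h2 := D.neg _ (D.ev_ka x y) (D.ka_ne_zero hc.ne' hx hxy hy)
  have h3 : 0 < D.c * ⟪D.ev ⁅D.hat x, ⁅D.hat x, D.hat y⁆⁆, y⟫_ℝ := by
    rw [h1]
    linarith
  exact (mul_pos_iff_of_pos_left hc).1 h3

end pos

theorem kp {k : L} (hk : D.ev k = 0) (x : E) : D.hat (D.ev ⁅k, D.hat x⁆) = ⁅k, D.hat x⁆ := by
  rw [D.lie_hat hk, D.ev_hat]

theorem skew_hat {k : L} (hk : D.ev k = 0) (x y : E) :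
    ⟪D.ev ⁅k, D.hat x⁆, y⟫_ℝ = -⟪x, D.ev ⁅k, D.hat y⁆⟫_ℝ := D.rho_skew hk x y

theorem trans' {x x' : E} (h : ‖x‖ = ‖x'‖) : ∃ T : E ≃ₗᵢ[ℝ] E, T x = x' ∧
    ∀ a b, D.ev ⁅D.hat (T a), ⁅D.hat (T a), D.hat (T b)⁆⁆
      = T (D.ev ⁅D.hat a, ⁅D.hat a, D.hat b⁆⁆) := by
  obtain ⟨φ, A, hA, hx⟩ := D.trans x x' h
  refine ⟨A, hx, fun a b => ?_⟩
  rw [← D.map_hat hA, ← D.map_hat hA, ← LieEquiv.map_lie, ← LieEquiv.map_lie, hA]

end HomAlg

end

end Pool.Agent.Work.MP_3b24f6_gt.Froz
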