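import Mathlib

set_option autoImplicit false

open scoped InnerProductSpace ContDiff
open Module

/-! Abstract rank one symmetric Lie algebras: spectrum of the Jacobi operator. -/

namespace Pool.Agent.Work.MP_3b24f6_gt.Froz

noncomputable section

variable {L : Type*} [LieRing L] [LieAlgebra ℝ L]
  {E : Type*} [NormedAddCommGroup E] [InnerProductSpace ℝ E]

/-- Orthogonal symmetric data: `L = 𝔨 ⊕ hat E`, `𝔨 = ker ev`. -/
structure SymData (L : Type*) [LieRing L] [LieAlgebra ℝ L]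
    (E : Type*) [NormedAddCommGroup E] [InnerProductSpace ℝ E] where
  hat : E →ₗ[ℝ] L
  ev : L →ₗ[ℝ] E
  ev_hat : ∀ x, ev (hat x) = x
  pp : ∀ x y, ev ⁅hat x, hat y⁆ = 0
  kp : ∀ k, ev k = 0 → ∀ x, hat (ev ⁅k, hat x⁆) = ⁅k, hat x⁆
  skew : ∀ k, ev k = 0 → ∀ x y, ⟪ev ⁅k, hat x⁆, y⟫_ℝ = -⟪x, ev ⁅k, hat y⁆⟫_ℝ
  pos : ∀ x y, x ≠ 0 → ⟪x, y⟫_ℝ = 0 → y ≠ 0 → 0 < ⟪ev ⁅hat x, ⁅hat x, hat y⁆⁆, y⟫_ℝ
  trans : ∀ x x' : E, ‖x‖ = 1 → ‖x'‖ = 1 → ∃ T : E ≃ₗᵢ[ℝ] E, T x = x' ∧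
    ∀ a b, ev ⁅hat (T a), ⁅hat (T a), hat (T b)⁆⁆ = T (ev ⁅hat a, ⁅hat a, hat b⁆⁆)

namespace SymData

variable (D : SymData L E)

/-- Curvature. -/
def Rm (x y z : E) : E := D.ev ⁅⁅D.hat x, D.hat y⁆, D.hat z⁆

/-- Jacobi operator. -/
def P (x y : E) : E := D.ev ⁅D.hat x, ⁅D.hat x, D.hat y⁆⁆

theorem hat_Rm (x y z : E) : D.hat (D.Rm x y z) = ⁅⁅D.hat x, D.hat y⁆, D.hat z⁆ :=
  D.kp _ (D.pp x y) z

theorem hat_P (x y : E) : D.hat (D.P x y) = ⁅D.hat x, ⁅D.hat x, D.hat y⁆⁆ := by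
  have h := D.hat_Rm x y x
  have e : ⁅D.hat x, ⁅D.hat x, D.hat y⁆⁆ = -⁅⁅D.hat x, D.hat y⁆, D.hat x⁆ :=
    (lie_skew _ _).symm
  unfold P
  rw [e, map_neg, map_neg]
  show -D.hat (D.Rm x y x) = _
  rw [h]

theorem P_eq (x y : E) : D.P x y = -D.Rm x y x := by
  have e : ⁅D.hat x, ⁅D.hat x, D.hat y⁆⁆ = -⁅⁅D.hat x, D.hat y⁆, D.hat x⁆ :=
    (lie_skew _ _).symm
  unfold P Rm
  rw [e, map_neg]

theorem Rm_skew12 (x y z : E) : D.Rm x y z = -D.Rm y x z := by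
  unfold Rm
  rw [← lie_skew (D.hat x) (D.hat y), neg_lie, map_neg]

theorem Rm_skew34 (x y z w : E) : ⟪D.Rm x y z, w⟫_ℝ = -⟪D.Rm x y w, z⟫_ℝ := by
  unfold Rm
  rw [D.skew _ (D.pp x y), real_inner_comm]

theorem Rm_bianchi (x y z : E) : D.Rm x y z + D.Rm y z x + D.Rm z x y = 0 := by
  unfold Rm
  rw [← map_add, ← map_add]
  have h := lie_jacobi (D.hat x) (D.hat y) (D.hat z)
  have e : ⁅⁅D.hat x, D.hat y⁆, D.hat z⁆ + ⁅⁅D.hat y, D.hat z⁆, D.hat x⁆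
      + ⁅⁅D.hat z, D.hat x⁆, D.hat y⁆ = 0 := by
    rw [← lie_skew ⁅D.hat x, D.hat y⁆, ← lie_skew ⁅D.hat y, D.hat z⁆, ← lie_skew ⁅D.hat z, D.hat x⁆]
    have : -⁅D.hat z, ⁅D.hat x, D.hat y⁆⁆ + -⁅D.hat x, ⁅D.hat y, D.hat z⁆⁆
        + -⁅D.hat y, ⁅D.hat z, D.hat x⁆⁆ = -(⁅D.hat x, ⁅D.hat y, D.hat z⁆⁆
        + ⁅D.hat y, ⁅D.hat z, D.hat x⁆⁆ + ⁅D.hat z, ⁅D.hat x, D.hat y⁆⁆) := by abel
    rw [this, h, neg_zero]
  rw [e, map_zero]

/-- Pair symmetry. -/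
theorem Rm_pair (x y z w : E) : ⟪D.Rm x y z, w⟫_ℝ = ⟪D.Rm z w x, y⟫_ℝ := by
  have b1 : ⟪D.Rm x y z, w⟫_ℝ + ⟪D.Rm y z x, w⟫_ℝ + ⟪D.Rm z x y, w⟫_ℝ = 0 := by
    rw [← inner_add_left, ← inner_add_left, D.Rm_bianchi, inner_zero_left]
  have b2 : ⟪D.Rm y z w, x⟫_ℝ + ⟪D.Rm z w y, x⟫_ℝ + ⟪D.Rm w y z, x⟫_ℝ = 0 := by
    rw [← inner_add_left, ← inner_add_left, D.Rm_bianchi, inner_zero_left]
  have b3 : ⟪D.Rm z w x, y⟫_ℝ + ⟪D.Rm w x z, y⟫_ℝ + ⟪D.Rm x z w, y⟫_ℝ = 0 := by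
    rw [← inner_add_left, ← inner_add_left, D.Rm_bianchi, inner_zero_left]
  have b4 : ⟪D.Rm w x y, z⟫_ℝ + ⟪D.Rm x y w, z⟫_ℝ + ⟪D.Rm y w x, z⟫_ℝ = 0 := by
    rw [← inner_add_left, ← inner_add_left, D.Rm_bianchi, inner_zero_left]
  have s1 := D.Rm_skew34 x y z w
  have s2 := D.Rm_skew34 y z x w
  have s3 := D.Rm_skew34 z x y w
  have s4 := D.Rm_skew34 z w x y
  have s5 := D.Rm_skew34 w y z x
  have s6 := D.Rm_skew34 w x y z
  have t1 : ⟪D.Rm x z w, y⟫_ℝ = -⟪D.Rm z x w, y⟫_ℝ := by rw [D.Rm_skew12 x z, inner_neg_left]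
  have t2 : ⟪D.Rm y w x, z⟫_ℝ = -⟪D.Rm w y x, z⟫_ℝ := by rw [D.Rm_skew12 y w, inner_neg_left]
  have t3 : ⟪D.Rm w x z, y⟫_ℝ = -⟪D.Rm w x y, z⟫_ℝ := by
    rw [D.Rm_skew34 w x z y]
  linarith

theorem P_symm (x y z : E) : ⟪D.P x y, z⟫_ℝ = ⟪y, D.P x z⟫_ℝ := by
  rw [D.P_eq, D.P_eq, inner_neg_left, inner_neg_right, D.Rm_pair x y x z, real_inner_comm]

theorem P_swap (x y : E) : ⟪D.P x y, y⟫_ℝ = ⟪D.P y x, x⟫_ℝ := by
  rw [D.P_eq, D.P_eq, inner_neg_left, inner_neg_left, D.Rm_skew34 x y x y, D.Rm_skew12 x y y,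
    inner_neg_left, neg_neg]

theorem P_self (x : E) : D.P x x = 0 := by
  unfold P; simp

theorem P_add (x y z : E) : D.P x (y + z) = D.P x y + D.P x z := by
  unfold P; simp [lie_add, map_add]

theorem P_smul (x : E) (c : ℝ) (y : E) : D.P x (c • y) = c • D.P x y := by
  unfold P; simp [lie_smul]

theorem P_smul_left (c : ℝ) (x y : E) : D.P (c • x) y = c ^ 2 • D.P x y := by
  unfold P; simp [lie_smul, smul_lie, smul_smul, pow_two]

theorem P_inner_self (x y : E) : ⟪D.P x y, x⟫_ℝ = 0 := by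
  rw [D.P_symm, D.P_self, inner_zero_right]

/-- If `P x z = 0` then `z` is a multiple of `x`. -/
theorem eq_smul_of_P_eq_zero {x z : E} (hx : ‖x‖ = 1) (h : D.P x z = 0) :
    z = ⟪x, z⟫_ℝ • x := by
  by_contra hne
  have hx0 : x ≠ 0 := by rw [← norm_ne_zero_iff, hx]; exact one_ne_zero
  set z' := z - ⟪x, z⟫_ℝ • x with hz'
  have h1 : z' ≠ 0 := sub_ne_zero.mpr hne
  have h2 : ⟪x, z'⟫_ℝ = 0 := by
    rw [hz', inner_sub_right, inner_smul_right, real_inner_self_eq_norm_sq, hx]; ring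
  have h3 : D.P x z' = 0 := by
    rw [hz', sub_eq_add_neg, ← neg_smul, D.P_add, D.P_smul, D.P_self, h]; simp
  have h4 := D.pos x z' hx0 h2 h1
  have h5 : D.ev ⁅D.hat x, ⁅D.hat x, D.hat z'⁆⁆ = 0 := h3
  rw [h5, inner_zero_left] at h4
  exact lt_irrefl _ h4

/-- The basic relation of the `sl₂`-triple. -/
theorem lie_u_y {x y : E} {l : ℝ} (hx : ‖x‖ = 1) (hy : ‖y‖ = 1) (h : D.P x y = l ^ 2 • y) :
    ⁅⁅D.hat x, D.hat y⁆, D.hat y⁆ = l ^ 2 • D.hat x := by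
  have h0 : ⁅D.hat x, ⁅D.hat x, D.hat y⁆⁆ = l ^ 2 • D.hat y := by
    rw [← D.hat_P, h, map_smul]
  set z := D.Rm x y y with hz
  have hzhat : D.hat z = ⁅⁅D.hat x, D.hat y⁆, D.hat y⁆ := D.hat_Rm x y y
  have h1 : ⁅D.hat x, D.hat z⁆ = 0 := by
    rw [hzhat, leibniz_lie, h0, smul_lie, lie_self, smul_zero, zero_add, lie_self]
  have h2 : D.P x z = 0 := by
    unfold P; rw [h1, lie_zero, map_zero]
  have h3 := D.eq_smul_of_P_eq_zero hx h2
  have h4 : ⟪x, z⟫_ℝ = l ^ 2 := by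
    rw [real_inner_comm, hz]
    have e1 : D.Rm x y y = D.P y x := by rw [D.P_eq, ← D.Rm_skew12]
    rw [e1, ← D.P_swap, h, inner_smul_left, real_inner_self_eq_norm_sq, hy]
    simp
  rw [h4] at h3
  rw [← hzhat, h3, map_smul]

/-! Integrality. -/

omit [InnerProductSpace ℝ E] in
theorem _root_.Pool.Agent.Work.MP_3b24f6_gt.Froz.eigen_int [FiniteDimensional ℝ L] {h e f m : L} {μ : ℝ}
    (t : IsSl2Triple h e f) (hm0 : m ≠ 0) (hm : ⁅h, m⁆ = μ • m) : ∃ n : ℤ, μ = n := by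
  let evals (n : ℕ) : ℝ := μ + 2 * (n : ℝ)
  let e_vecs (n : ℕ) : L := ((LieModule.toEnd ℝ L L e) ^ n) m
  have h_exists_zero : ∃ k, e_vecs k = 0 := by
    by_contra! contra
    have h_inj : Function.Injective evals := fun a b hab ↦ by
      simpa [evals, add_right_inj, mul_eq_mul_left_iff, Nat.cast_inj] using hab
    have aux (ν : Set.range evals) :
        (LieModule.toEnd ℝ L L h).HasEigenvector ν (e_vecs ν.property.choose) := by
      set n := ν.property.choose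
      refine ⟨?_, contra n⟩
      rw [Module.End.mem_eigenspace_iff, LieModule.toEnd_apply_apply, ← ν.property.choose_spec]
      exact t.lie_h_pow_toEnd_e hm n
    have _i := ((LieModule.toEnd ℝ L L h).eigenvectors_linearIndependent
      (Set.range evals) _ aux).finite
    exact (Set.infinite_range_of_injective h_inj) (Set.toFinite _)
  obtain ⟨n, hn_ne, hn_zero⟩ := Nat.exists_not_and_succ_of_not_zero_of_exists hm0 h_exists_zero
  have P : t.HasPrimitiveVectorWith (e_vecs n) (evals n) :=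
    { ne_zero := hn_ne
      lie_h := t.lie_h_pow_toEnd_e hm n
      lie_e := by rwa [IsSl2Triple.lie_e_pow_toEnd_e n] }
  obtain ⟨k, hk⟩ := P.exists_nat
  refine ⟨(k : ℤ) - 2 * n, ?_⟩
  have : μ + 2 * (n : ℝ) = k := hk
  push_cast
  linarith

theorem sl2 {x y : E} {l : ℝ} (hx : ‖x‖ = 1) (hy : ‖y‖ = 1) (hl : 0 < l)
    (h : D.P x y = l ^ 2 • y) :
    IsSl2Triple ((2 / l) • D.hat x) (D.hat y + l⁻¹ • ⁅D.hat x, D.hat y⁆)
      ((l ^ 2)⁻¹ • (D.hat y - l⁻¹ • ⁅D.hat x, D.hat y⁆)) := by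
  have h0 : ⁅D.hat x, ⁅D.hat x, D.hat y⁆⁆ = l ^ 2 • D.hat y := by
    rw [← D.hat_P, h, map_smul]
  have h1 := D.lie_u_y hx hy h
  have h2 : ⁅D.hat y, ⁅D.hat x, D.hat y⁆⁆ = -(l ^ 2 • D.hat x) := by
    rw [← lie_skew, h1]
  have hx0 : D.hat x ≠ 0 := by
    intro h3
    have h4 := D.ev_hat x
    rw [h3, map_zero] at h4
    rw [← h4, norm_zero] at hx
    exact zero_ne_one hx
  refine ⟨?_, ?_, ?_, ?_⟩
  · exact smul_ne_zero (by positivity) hx0
  · rw [lie_smul, lie_sub, add_lie, add_lie, lie_self, smul_lie, lie_smul, lie_smul, smul_lie,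
      lie_self, h1, h2]
    simp only [smul_zero, zero_add, add_zero, smul_neg, sub_neg_eq_add, smul_add, smul_smul]
    rw [← add_smul]
    congr 1
    field_simp
    norm_num
  · rw [smul_lie, lie_add, lie_smul, h0, smul_smul, smul_add, smul_smul, ← Nat.cast_smul_eq_nsmul ℝ,
      smul_add, smul_smul]
    rw [add_comm]
    congr 1
    congr 1
    field_simp
    norm_num
  · rw [smul_lie, lie_smul, lie_sub, lie_smul, h0, smul_smul, ← Nat.cast_smul_eq_nsmul ℝ,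
      smul_smul, smul_smul]
    have e1 : ⁅D.hat x, D.hat y⁆ - (l⁻¹ * l ^ 2) • D.hat y =
        (-l) • (D.hat y - l⁻¹ • ⁅D.hat x, D.hat y⁆) := by
      rw [smul_sub, smul_smul, neg_mul, mul_inv_cancel₀ hl.ne', neg_smul, neg_smul, one_smul]
      have : l⁻¹ * l ^ 2 = l := by field_simp
      rw [this]
      abel
    rw [e1, smul_smul, ← neg_smul]
    congr 1
    push_cast
    field_simp

theorem integrality [FiniteDimensional ℝ L] {x y z : E} {l m : ℝ} (hx : ‖x‖ = 1) (hy : y ≠ 0)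
    (hz : z ≠ 0) (hl : 0 < l) (hm : 0 < m) (h : D.P x y = l ^ 2 • y)
    (h' : D.P x z = m ^ 2 • z) : ∃ n : ℤ, 2 * m / l = n := by
  have hy' : ‖(‖y‖⁻¹) • y‖ = 1 := by
    rw [norm_smul, norm_inv, norm_norm, inv_mul_cancel₀ (norm_ne_zero_iff.mpr hy)]
  have hP : D.P x ((‖y‖⁻¹) • y) = l ^ 2 • ((‖y‖⁻¹) • y) := by
    rw [D.P_smul, h, smul_comm]
  have t := D.sl2 hx hy' hl hP
  have h0 : ⁅D.hat x, ⁅D.hat x, D.hat z⁆⁆ = m ^ 2 • D.hat z := by
    rw [← D.hat_P, h', map_smul]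
  refine eigen_int t (m := D.hat z + m⁻¹ • ⁅D.hat x, D.hat z⁆) ?_ ?_
  · intro h3
    have h4 := congrArg D.ev h3
    rw [map_add, map_smul, D.ev_hat, D.pp, smul_zero, add_zero, map_zero] at h4
    exact hz h4
  · rw [smul_lie, lie_add, lie_smul, h0, smul_smul, smul_add, smul_smul, smul_add, smul_smul,
      add_comm]
    congr 1
    · congr 1
      field_simp
    · congr 1
      field_simp

/-- Eigenvectors of `ad (hat x)`. -/
theorem eig_ev {x : E} {Z : L} {c : ℝ} (hc : c ≠ 0) (h : ⁅D.hat x, Z⁆ = c • Z) :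
    D.P x (D.ev Z) = c ^ 2 • D.ev Z ∧ Z = D.hat (D.ev Z) + c⁻¹ • ⁅D.hat x, D.hat (D.ev Z)⁆ := by
  set k := Z - D.hat (D.ev Z) with hk
  have hk0 : D.ev k = 0 := by rw [hk, map_sub, D.ev_hat, sub_self]
  have h1 : ⁅D.hat x, Z⁆ = ⁅D.hat x, D.hat (D.ev Z)⁆ + ⁅D.hat x, k⁆ := by
    rw [← lie_add, hk]; congr 1; abel
  have h2 : D.hat (D.ev ⁅D.hat x, k⁆) = ⁅D.hat x, k⁆ := by
    have e : ⁅D.hat x, k⁆ = -⁅k, D.hat x⁆ := (lie_skew _ _).symm
    rw [e, map_neg, map_neg, D.kp k hk0]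
  have h3 : D.ev ⁅D.hat x, k⁆ = c • D.ev Z := by
    have := congrArg D.ev h1
    rw [h, map_smul, map_add, D.pp, zero_add] at this
    exact this.symm
  have h4 : ⁅D.hat x, k⁆ = c • D.hat (D.ev Z) := by rw [← h2, h3, map_smul]
  have h5 : ⁅D.hat x, D.hat (D.ev Z)⁆ = c • k := by
    rw [h, h4] at h1
    rw [hk, smul_sub, h1]; abel
  constructor
  · unfold P
    rw [h5, lie_smul, h4, smul_smul, map_smul, D.ev_hat, pow_two]
  · rw [h5, smul_smul, inv_mul_cancel₀ hc, one_smul, hk]; abel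

theorem eig_eq_zero {x : E} {Z : L} {c : ℝ} (hc : c ≠ 0) (h : ⁅D.hat x, Z⁆ = c • Z)
    (h0 : D.ev Z = 0) : Z = 0 := by
  have := (D.eig_ev hc h).2
  rw [h0, map_zero, lie_zero, smul_zero, add_zero] at this
  exact this

/-- Conversely. -/
theorem lie_plus {x y : E} {c : ℝ} (hc : c ≠ 0) (h : D.P x y = c ^ 2 • y) :
    ⁅D.hat x, D.hat y + c⁻¹ • ⁅D.hat x, D.hat y⁆⁆ = c • (D.hat y + c⁻¹ • ⁅D.hat x, D.hat y⁆) := by
  have h0 : ⁅D.hat x, ⁅D.hat x, D.hat y⁆⁆ = c ^ 2 • D.hat y := by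
    rw [← D.hat_P, h, map_smul]
  rw [lie_add, lie_smul, h0, smul_smul, smul_add, smul_smul, mul_inv_cancel₀ hc, one_smul, add_comm]
  congr 2
  field_simp

/-- The Jacobi operator as a linear map. -/
def PL (x : E) : E →ₗ[ℝ] E where
  toFun := D.P x
  map_add' := D.P_add x
  map_smul' c y := D.P_smul x c y

theorem PL_symm (x : E) : (D.PL x).IsSymmetric := fun y z => D.P_symm x y z

variable [FiniteDimensional ℝ L] [FiniteDimensional ℝ E]

/-- Spectrum at one point. -/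
theorem spectrum_at (hE : 2 ≤ finrank ℝ E) {x : E} (hx : ‖x‖ = 1) : ∃ l : ℝ, 0 < l ∧
    (∃ y, ‖y‖ = 1 ∧ D.P x y = l ^ 2 • y) ∧
    ∀ v, ⟪x, v⟫_ℝ = 0 → D.P x (D.P x v) = (5 * l ^ 2) • D.P x v - (4 * l ^ 4) • v := by
  classical
  have hx0 : x ≠ 0 := by rw [← norm_ne_zero_iff, hx]; exact one_ne_zero
  set n := finrank ℝ E with hn
  set b := (D.PL_symm x).eigenvectorBasis hn.symm with hb
  set ev := (D.PL_symm x).eigenvalues hn.symm with hev
  have hPb : ∀ i, D.P x (b i) = ev i • b i := by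
    intro i
    exact (D.PL_symm x).apply_eigenvectorBasis hn.symm i
  have hbn : ∀ i, ‖b i‖ = 1 := fun i => b.orthonormal.1 i
  have hb0 : ∀ i, b i ≠ 0 := fun i => by rw [← norm_ne_zero_iff, hbn]; exact one_ne_zero
  have horth : ∀ i, ev i ≠ 0 → ⟪x, b i⟫_ℝ = 0 := by
    intro i hi
    have h1 := D.P_inner_self x (b i)
    rw [hPb, inner_smul_left] at h1
    rcases mul_eq_zero.mp h1 with h | h
    · exact absurd (by simpa using h) hi
    · rw [real_inner_comm]; exact h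
  have hpos : ∀ i, ev i ≠ 0 → 0 < ev i := by
    intro i hi
    have h1 : 0 < ⟪D.P x (b i), b i⟫_ℝ := D.pos x (b i) hx0 (horth i hi) (hb0 i)
    rw [hPb, inner_smul_left, real_inner_self_eq_norm_sq, hbn] at h1
    simpa using h1
  have hex : ∃ i, ev i ≠ 0 := by
    by_contra! hall
    have h1 : ∀ i, b i = ⟪x, b i⟫_ℝ • x := fun i =>
      D.eq_smul_of_P_eq_zero hx (by rw [hPb, hall i, zero_smul])
    have h2 : (⊤ : Submodule ℝ E) ≤ Submodule.span ℝ {x} := by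
      rw [← b.toBasis.span_eq, Submodule.span_le]
      rintro _ ⟨i, rfl⟩
      rw [OrthonormalBasis.coe_toBasis, h1 i]
      exact Submodule.smul_mem _ _ (Submodule.mem_span_singleton_self x)
    have h3 := Submodule.finrank_mono h2
    rw [finrank_top, finrank_span_singleton hx0] at h3
    omega
  obtain ⟨i₀, hi₀, hmin⟩ : ∃ i, ev i ≠ 0 ∧ ∀ j, ev j ≠ 0 → ev i ≤ ev j := by
    obtain ⟨i, hi, hmin⟩ := Finset.exists_min_image (Finset.univ.filter fun i => ev i ≠ 0) ev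
      (by obtain ⟨i, hi⟩ := hex; exact ⟨i, by simp [hi]⟩)
    exact ⟨i, (Finset.mem_filter.mp hi).2, fun j hj => hmin j (by simp [hj])⟩
  set l := Real.sqrt (ev i₀) with hl
  have hl0 : 0 < l := Real.sqrt_pos.mpr (hpos i₀ hi₀)
  have hl2 : l ^ 2 = ev i₀ := Real.sq_sqrt (hpos i₀ hi₀).le
  refine ⟨l, hl0, ⟨b i₀, hbn i₀, by rw [hPb, hl2]⟩, ?_⟩
  have hev2 : ∀ j, ev j ≠ 0 → ev j = l ^ 2 ∨ ev j = 4 * l ^ 2 := by
    intro j hj
    set m := Real.sqrt (ev j) with hm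
    have hm0 : 0 < m := Real.sqrt_pos.mpr (hpos j hj)
    have hm2 : m ^ 2 = ev j := Real.sq_sqrt (hpos j hj).le
    have hlm : l ≤ m := Real.sqrt_le_sqrt (hmin j hj)
    obtain ⟨a, ha⟩ := D.integrality hx (hb0 i₀) (hb0 j) hl0 hm0 (by rw [hPb, hl2])
      (by rw [hPb, hm2])
    obtain ⟨c, hc⟩ := D.integrality hx (hb0 j) (hb0 i₀) hm0 hl0 (by rw [hPb, hm2])
      (by rw [hPb, hl2])
    have hac : (a : ℝ) * c = 4 := by
      rw [← ha, ← hc]; field_simp; norm_num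
    have hc0 : (0 : ℝ) < c := by rw [← hc]; positivity
    have hc2 : (c : ℝ) ≤ 2 := by
      rw [← hc, div_le_iff₀ hm0]; nlinarith
    have hc0' : 0 < c := by exact_mod_cast hc0
    have hc2' : c ≤ 2 := by exact_mod_cast hc2
    have hc' : (2 * l / m) * m = 2 * l := by field_simp
    rw [hc] at hc'
    rw [← hm2]
    interval_cases c
    · right
      have : m = 2 * l := by push_cast at hc'; linarith
      rw [this]; ring
    · left
      have : m = l := by push_cast at hc'; linarith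
      rw [this]
  intro v hv
  have hexp : v = ∑ i, ⟪b i, v⟫_ℝ • b i := (b.sum_repr' v).symm
  have hlin : ∀ u : E, D.P x u = D.PL x u := fun u => rfl
  have key : ∀ i, ⟪b i, v⟫_ℝ • ((ev i) ^ 2 • b i) =
      ⟪b i, v⟫_ℝ • ((5 * l ^ 2) • (ev i • b i) - (4 * l ^ 4) • b i) := by
    intro i
    by_cases hi : ev i = 0
    · have h1 := D.eq_smul_of_P_eq_zero hx (by rw [hPb, hi, zero_smul] : D.P x (b i) = 0)
      have h2 : ⟪b i, v⟫_ℝ = 0 := by rw [h1, inner_smul_left, hv, mul_zero]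
      rw [h2, zero_smul, zero_smul]
    · congr 1
      rw [smul_smul, ← sub_smul]
      congr 1
      rcases hev2 i hi with h | h <;> rw [h] <;> ring
  have e1 : D.P x v = ∑ i, ⟪b i, v⟫_ℝ • (ev i • b i) := by
    conv_lhs => rw [hexp]
    rw [hlin, map_sum]
    refine Finset.sum_congr rfl fun i _ => ?_
    rw [map_smul, ← hlin, hPb]
  have e2 : D.P x (D.P x v) = ∑ i, ⟪b i, v⟫_ℝ • ((ev i) ^ 2 • b i) := by
    rw [e1, hlin, map_sum]
    refine Finset.sum_congr rfl fun i _ => ?_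
    rw [map_smul, map_smul, ← hlin, hPb, smul_smul (ev i), pow_two]
  have e3 : (4 * l ^ 4) • v = ∑ i, ⟪b i, v⟫_ℝ • ((4 * l ^ 4) • b i) := by
    conv_lhs => rw [hexp]
    rw [Finset.smul_sum]
    exact Finset.sum_congr rfl fun i _ => smul_comm _ _ _
  rw [e2, e1, e3, Finset.smul_sum, ← Finset.sum_sub_distrib]
  refine Finset.sum_congr rfl fun i _ => ?_
  rw [key i, smul_sub, smul_comm]

/-- The constant `l`: the same for all unit vectors. -/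
theorem spectrum (hE : 2 ≤ finrank ℝ E) : ∃ l : ℝ, 0 < l ∧
    (∀ x : E, ‖x‖ = 1 → ∃ y, ‖y‖ = 1 ∧ D.P x y = l ^ 2 • y) ∧
    ∀ x : E, ‖x‖ = 1 → ∀ v, ⟪x, v⟫_ℝ = 0 →
      D.P x (D.P x v) = (5 * l ^ 2) • D.P x v - (4 * l ^ 4) • v := by
  have : Nontrivial E := Module.nontrivial_of_finrank_pos (R := ℝ) (by omega)
  obtain ⟨x₀, hx₀⟩ := exists_norm_eq E zero_le_one
  obtain ⟨l, hl, ⟨y₀, hy₀, hPy⟩, h⟩ := D.spectrum_at hE hx₀
  refine ⟨l, hl, ?_, ?_⟩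
  · intro x hx
    obtain ⟨T, hT, hTP⟩ := D.trans x₀ x hx₀ hx
    refine ⟨T y₀, by rw [T.norm_map, hy₀], ?_⟩
    have := hTP x₀ y₀
    rw [hT] at this
    unfold P
    rw [this]
    show T (D.P x₀ y₀) = _
    rw [hPy, map_smul]
  · intro x hx v hv
    obtain ⟨T, hT, hTP⟩ := D.trans x₀ x hx₀ hx
    have hP : ∀ u, D.P x (T u) = T (D.P x₀ u) := by
      intro u
      have := hTP x₀ u
      rw [hT] at this
      exact this
    obtain ⟨u, rfl⟩ := T.surjective v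
    have hu : ⟪x₀, u⟫_ℝ = 0 := by
      rw [← T.inner_map_map, hT, hv]
    rw [hP, hP, h u hu, map_sub, map_smul, map_smul]

/-- Trilinear form behind `P`. -/
def B2 : E →ₗ[ℝ] E →ₗ[ℝ] (E →L[ℝ] E) :=
  LinearMap.mk₂ ℝ (fun a b => LinearMap.toContinuousLinearMap
      (D.ev ∘ₗ (LieModule.toEnd ℝ L L (D.hat a)) ∘ₗ (LieModule.toEnd ℝ L L (D.hat b)) ∘ₗ D.hat))
    (fun a a' b => by ext v; simp)
    (fun c a b => by ext v; simp)
    (fun a b b' => by ext v; simp)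
    (fun c a b => by ext v; simp)

def B3 : E →L[ℝ] E →L[ℝ] (E →L[ℝ] E) :=
  LinearMap.toContinuousLinearMap
    ((LinearMap.toContinuousLinearMap : (E →ₗ[ℝ] (E →L[ℝ] E)) ≃ₗ[ℝ] _).toLinearMap ∘ₗ D.B2)

theorem B3_apply (a b v : E) : D.B3 a b v = D.ev ⁅D.hat a, ⁅D.hat b, D.hat v⁆⁆ := rfl

/-- The vertical projection (times `‖y‖²`). -/
def Q (l : ℝ) (y : E) : E →L[ℝ] E :=
  (3 * l ^ 2)⁻¹ • (D.B3 y y - l ^ 2 • (‖y‖ ^ 2 • ContinuousLinearMap.id ℝ E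
    - (innerSL ℝ y).smulRight y))

theorem Q_apply (l : ℝ) (y v : E) :
    D.Q l y v = (3 * l ^ 2)⁻¹ • (D.P y v - l ^ 2 • (‖y‖ ^ 2 • v - ⟪y, v⟫_ℝ • y)) := rfl

theorem P_eq_Q {l : ℝ} (hl : 0 < l) (y v : E) :
    D.P y v = l ^ 2 • (‖y‖ ^ 2 • v - ⟪y, v⟫_ℝ • y) + (3 * l ^ 2) • D.Q l y v := by
  rw [Q_apply, smul_smul, mul_inv_cancel₀ (by positivity), one_smul]
  abel

theorem smooth_Q (l : ℝ) : ContDiff ℝ ∞ (D.Q l) := by
  unfold Q
  have h1 : ContDiff ℝ ∞ fun y : E => D.B3 y y := (D.B3.contDiff).clm_apply contDiff_id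
  have h2 : ContDiff ℝ ∞ fun y : E => ‖y‖ ^ 2 • ContinuousLinearMap.id ℝ E :=
    (contDiff_norm_sq ℝ).smul (contDiff_const (c := ContinuousLinearMap.id ℝ E))
  have h3 : ContDiff ℝ ∞ fun y : E => (innerSL ℝ y).smulRight y :=
    ((innerSL ℝ : E →L[ℝ] E →L[ℝ] ℝ).contDiff).smulRight contDiff_id
  exact (h1.sub ((h2.sub h3).const_smul (l ^ 2))).const_smul _

theorem Q_symm (l : ℝ) (y u v : E) : ⟪D.Q l y u, v⟫_ℝ = ⟪u, D.Q l y v⟫_ℝ := by
  rw [Q_apply, Q_apply, inner_smul_left, inner_smul_right, inner_sub_left, inner_sub_right,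
    D.P_symm, inner_smul_left, inner_smul_right, inner_sub_left, inner_sub_right,
    inner_smul_left, inner_smul_right, inner_smul_left, inner_smul_right]
  simp only [conj_trivial]
  rw [real_inner_comm u y]
  ring

theorem Q_self (l : ℝ) (y : E) : D.Q l y y = 0 := by
  rw [Q_apply, D.P_self, real_inner_self_eq_norm_sq]; simp

theorem Q_smul (l c : ℝ) (y : E) : D.Q l (c • y) = c ^ 2 • D.Q l y := by
  ext v
  rw [smul_apply, Q_apply, Q_apply, D.P_smul_left, norm_smul, mul_pow,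
    inner_smul_left, Real.norm_eq_abs, sq_abs]
  simp only [conj_trivial, smul_sub, smul_smul]
  ring_nf

theorem Q_Q_unit {l : ℝ} (hl : 0 < l)
    (h : ∀ x : E, ‖x‖ = 1 → ∀ v, ⟪x, v⟫_ℝ = 0 →
      D.P x (D.P x v) = (5 * l ^ 2) • D.P x v - (4 * l ^ 4) • v)
    {x : E} (hx : ‖x‖ = 1) (v : E) : D.Q l x (D.Q l x v) = D.Q l x v := by
  have key : ∀ u, ⟪x, u⟫_ℝ = 0 → D.Q l x (D.Q l x u) = D.Q l x u := by
    intro u hu
    have e1 : D.Q l x u = (3 * l ^ 2)⁻¹ • (D.P x u - l ^ 2 • u) := by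
      rw [Q_apply, hu, hx]; simp
    have e2 : ⟪x, D.Q l x u⟫_ℝ = 0 := by
      rw [← D.Q_symm, D.Q_self, inner_zero_left]
    have e3 : D.Q l x (D.Q l x u) = (3 * l ^ 2)⁻¹ • (D.P x (D.Q l x u) - l ^ 2 • D.Q l x u) := by
      rw [Q_apply, e2, hx]; simp
    have e4 : D.P x (D.Q l x u) = (3 * l ^ 2)⁻¹ • (D.P x (D.P x u) - l ^ 2 • D.P x u) := by
      rw [e1, D.P_smul, sub_eq_add_neg, D.P_add, ← neg_smul, D.P_smul, neg_smul, ← sub_eq_add_neg]
    rw [e3, e4, h x hx u hu, e1]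
    match_scalars <;> field_simp <;> ring
  have h1 : v = (v - ⟪x, v⟫_ℝ • x) + ⟪x, v⟫_ℝ • x := by abel
  have h2 : ⟪x, v - ⟪x, v⟫_ℝ • x⟫_ℝ = 0 := by
    rw [inner_sub_right, inner_smul_right, real_inner_self_eq_norm_sq, hx]; ring
  have h3 : D.Q l x v = D.Q l x (v - ⟪x, v⟫_ℝ • x) := by
    conv_lhs => rw [h1]
    rw [map_add, map_smul, D.Q_self, smul_zero, add_zero]
  rw [h3, key _ h2]

theorem Q_Q {l : ℝ} (hl : 0 < l)
    (h : ∀ x : E, ‖x‖ = 1 → ∀ v, ⟪x, v⟫_ℝ = 0 →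
      D.P x (D.P x v) = (5 * l ^ 2) • D.P x v - (4 * l ^ 4) • v)
    (y v : E) : D.Q l y (D.Q l y v) = ‖y‖ ^ 2 • D.Q l y v := by
  by_cases hy : y = 0
  · have h0 : D.Q l 0 = 0 := by
      have := D.Q_smul l 0 (0 : E)
      simpa using this
    rw [hy, h0]; simp
  · have hn : ‖y‖ ≠ 0 := norm_ne_zero_iff.mpr hy
    have hx : ‖‖y‖⁻¹ • y‖ = 1 := by
      rw [norm_smul, norm_inv, norm_norm, inv_mul_cancel₀ hn]
    have e : y = ‖y‖ • (‖y‖⁻¹ • y) := by rw [smul_smul, mul_inv_cancel₀ hn, one_smul]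
    have e2 : ∀ u, D.Q l y u = ‖y‖ ^ 2 • D.Q l (‖y‖⁻¹ • y) u := by
      intro u
      conv_lhs => rw [e]
      rw [Q_smul]; rfl
    rw [e2, e2, map_smul, D.Q_Q_unit hl h hx]

/-- Dimension count at a unit vector. -/
theorem dim_count {l : ℝ} (hl : 0 < l)
    (h : ∀ x : E, ‖x‖ = 1 → ∀ v, ⟪x, v⟫_ℝ = 0 →
      D.P x (D.P x v) = (5 * l ^ 2) • D.P x v - (4 * l ^ 4) • v)
    {x y₀ : E} (hx : ‖x‖ = 1) (hy₀ : ‖y₀‖ = 1) (hP₀ : D.P x y₀ = l ^ 2 • y₀) :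
    ∃ w : ℕ, LinearMap.trace ℝ E (D.Q l x : E →ₗ[ℝ] E) = w ∧ 2 * w + 2 ≤ finrank ℝ E := by
  have hx0 : x ≠ 0 := by rw [← norm_ne_zero_iff, hx]; exact one_ne_zero
  -- eigenspaces
  let V1 : Submodule ℝ E := LinearMap.ker (D.PL x - (l ^ 2) • LinearMap.id)
  let V2 : Submodule ℝ E := LinearMap.ker (D.PL x - (4 * l ^ 2) • LinearMap.id)
  have mem1 : ∀ v, v ∈ V1 ↔ D.P x v = l ^ 2 • v := by
    intro v
    rw [LinearMap.mem_ker, LinearMap.sub_apply, sub_eq_zero]; rfl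
  have mem2 : ∀ v, v ∈ V2 ↔ D.P x v = (4 * l ^ 2) • v := by
    intro v
    rw [LinearMap.mem_ker, LinearMap.sub_apply, sub_eq_zero]; rfl
  have orth : ∀ (c : ℝ) (v : E), c ≠ 0 → D.P x v = c • v → ⟪x, v⟫_ℝ = 0 := by
    intro c v hc hv
    have h1 := D.P_inner_self x v
    rw [hv, inner_smul_left] at h1
    rcases mul_eq_zero.mp h1 with h | h
    · exact absurd (by simpa using h) hc
    · rw [real_inner_comm]; exact h
  have hl2 : l ^ 2 ≠ 0 := by positivity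
  have hl4 : 4 * l ^ 2 ≠ 0 := by positivity
  -- Q is the projection onto V2
  have hproj2 : LinearMap.IsProj V2 (D.Q l x : E →ₗ[ℝ] E) := by
    constructor
    · intro v
      rw [mem2]
      show D.P x (D.Q l x v) = (4 * l ^ 2) • D.Q l x v
      have e2 : ⟪x, D.Q l x v⟫_ℝ = 0 := by
        rw [← D.Q_symm, D.Q_self, inner_zero_left]
      rw [D.P_eq_Q hl, e2, hx, D.Q_Q_unit hl h hx]
      module
    · intro v hv
      rw [mem2] at hv
      show D.Q l x v = v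
      rw [D.Q_apply, hv, orth _ v hl4 hv, hx]
      match_scalars
      · field_simp
        ring
      · ring
  have hproj0 : LinearMap.IsProj (Submodule.span ℝ {x})
      (((innerSL ℝ x).smulRight x : E →L[ℝ] E) : E →ₗ[ℝ] E) := by
    constructor
    · intro v
      exact Submodule.smul_mem _ _ (Submodule.mem_span_singleton_self x)
    · intro v hv
      obtain ⟨c, rfl⟩ := Submodule.mem_span_singleton.mp hv
      show ⟪x, c • x⟫_ℝ • x = c • x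
      rw [inner_smul_right, real_inner_self_eq_norm_sq, hx]; simp
  have hproj1 : LinearMap.IsProj V1 (LinearMap.id
      - (((innerSL ℝ x).smulRight x : E →L[ℝ] E) : E →ₗ[ℝ] E) - (D.Q l x : E →ₗ[ℝ] E)) := by
    constructor
    · intro v
      rw [mem1]
      show D.P x (v - ⟪x, v⟫_ℝ • x - D.Q l x v) = l ^ 2 • (v - ⟪x, v⟫_ℝ • x - D.Q l x v)
      have e1 : D.Q l x (v - ⟪x, v⟫_ℝ • x - D.Q l x v) = 0 := by
        rw [map_sub, map_sub, map_smul, D.Q_self, D.Q_Q_unit hl h hx]; simp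
      have e2 : ⟪x, D.Q l x v⟫_ℝ = 0 := by
        rw [← D.Q_symm, D.Q_self, inner_zero_left]
      have e3 : ⟪x, v - ⟪x, v⟫_ℝ • x - D.Q l x v⟫_ℝ = 0 := by
        rw [inner_sub_right, inner_sub_right, e2, inner_smul_right, real_inner_self_eq_norm_sq, hx]
        ring
      rw [D.P_eq_Q hl, e1, e3, hx]
      module
    · intro v hv
      rw [mem1] at hv
      show v - ⟪x, v⟫_ℝ • x - D.Q l x v = v
      have e1 : D.Q l x v = 0 := by
        rw [D.Q_apply, hv, orth _ v hl2 hv, hx]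
        module
      rw [e1, orth _ v hl2 hv]
      module
  have t2 := hproj2.trace
  have t0 := hproj0.trace
  have t1 := hproj1.trace
  rw [map_sub, map_sub, t0, t2, LinearMap.trace_id, finrank_span_singleton hx0] at t1
  refine ⟨finrank ℝ V2, t2, ?_⟩
  -- the surjection
  have hdim : finrank ℝ V2 + 1 ≤ finrank ℝ V1 := by
    set Yp := D.hat y₀ + l⁻¹ • ⁅D.hat x, D.hat y₀⁆ with hYp
    set Ym := D.hat y₀ + (-l)⁻¹ • ⁅D.hat x, D.hat y₀⁆ with hYm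
    have hYp1 : ⁅D.hat x, Yp⁆ = l • Yp := D.lie_plus hl.ne' hP₀
    have hYm1 : ⁅D.hat x, Ym⁆ = (-l) • Ym :=
      D.lie_plus (neg_ne_zero.mpr hl.ne') (by rw [hP₀]; congr 1; ring)
    have hYY : ⁅Yp, Ym⁆ = (2 * l) • D.hat x := by
      have h1 := D.lie_u_y hx hy₀ hP₀
      have h2 : ⁅D.hat y₀, ⁅D.hat x, D.hat y₀⁆⁆ = -(l ^ 2 • D.hat x) := by
        rw [← lie_skew, h1]
      rw [hYp, hYm, lie_add, add_lie, add_lie, lie_self, smul_lie, lie_smul, lie_smul, smul_lie,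
        lie_self, h1, h2]
      match_scalars
      field_simp
      norm_num
    let A : V1 →ₗ[ℝ] E :=
      { toFun := fun a => D.ev ⁅Yp, D.hat (a : E) + l⁻¹ • ⁅D.hat x, D.hat (a : E)⁆⁆
        map_add' := by
          intro a b
          simp only [Submodule.coe_add, map_add, lie_add, smul_add]
          abel
        map_smul' := by
          intro c a
          simp only [Submodule.coe_smul, map_smul, lie_smul, lie_add, map_add, smul_add,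
            RingHom.id_apply]
          rw [smul_comm] }
    have hA : ∀ a : V1, A a = D.ev ⁅Yp, D.hat (a : E) + l⁻¹ • ⁅D.hat x, D.hat (a : E)⁆⁆ :=
      fun a => rfl
    have hsurj : V2 ≤ LinearMap.range A := by
      intro v hv
      rw [mem2] at hv
      have hv' : D.P x v = (2 * l) ^ 2 • v := by rw [hv]; congr 1; ring
      have h2l : (2 * l) ≠ 0 := by positivity
      set V := D.hat v + (2 * l)⁻¹ • ⁅D.hat x, D.hat v⁆ with hV
      have hV1 : ⁅D.hat x, V⁆ = (2 * l) • V := D.lie_plus h2l hv'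
      have hevV : D.ev V = v := by
        rw [hV, map_add, map_smul, D.ev_hat, D.pp, smul_zero, add_zero]
      set W := ⁅V, Ym⁆ with hW
      have hW1 : ⁅D.hat x, W⁆ = l • W := by
        rw [hW, leibniz_lie, hV1, hYm1, smul_lie, lie_smul]
        module
      obtain ⟨hW2, hW3⟩ := D.eig_ev hl.ne' hW1
      have hzero : ⁅Yp, V⁆ = 0 := by
        have h3 : ⁅D.hat x, ⁅Yp, V⁆⁆ = (3 * l) • ⁅Yp, V⁆ := by
          rw [leibniz_lie, hYp1, hV1, smul_lie, lie_smul]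
          module
        have h3l : (3 * l) ≠ 0 := by positivity
        refine D.eig_eq_zero h3l h3 ?_
        by_contra hne
        obtain ⟨h4, -⟩ := D.eig_ev h3l h3
        set u := D.ev ⁅Yp, V⁆ with hu
        have h5 := h x hx u (orth _ u (by positivity) h4)
        rw [h4, D.P_smul, h4] at h5
        have h6 : ((3 * l) ^ 2 * (3 * l) ^ 2 - (5 * l ^ 2 * (3 * l) ^ 2 - 4 * l ^ 4)) • u = 0 := by
          rw [sub_smul, sub_smul, ← smul_smul, ← smul_smul, h5]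
          abel
        rcases smul_eq_zero.mp h6 with h7 | h7
        · have : (40 : ℝ) * l ^ 4 = 0 := by linarith
          have : (0 : ℝ) < 40 * l ^ 4 := by positivity
          linarith
        · exact hne h7
      have hfin : ⁅Yp, W⁆ = (-(4 * l ^ 2)) • V := by
        rw [hW, leibniz_lie, hzero, zero_lie, zero_add, hYY, lie_smul, ← lie_skew, hV1]
        module
      refine ⟨(-(4 * l ^ 2))⁻¹ • ⟨D.ev W, (mem1 _).mpr hW2⟩, ?_⟩
      rw [map_smul, hA]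
      show (-(4 * l ^ 2))⁻¹ • D.ev ⁅Yp, D.hat (D.ev W) + l⁻¹ • ⁅D.hat x, D.hat (D.ev W)⁆⁆ = v
      rw [← hW3, hfin, map_smul, hevV, smul_smul, inv_mul_cancel₀ (neg_ne_zero.mpr hl4), one_smul]
    have hker : (⟨y₀, (mem1 _).mpr hP₀⟩ : V1) ∈ LinearMap.ker A := by
      rw [LinearMap.mem_ker, hA]
      show D.ev ⁅Yp, Yp⁆ = 0
      rw [lie_self, map_zero]
    have hker1 : 1 ≤ finrank ℝ (LinearMap.ker A) := by
      have hne : (⟨y₀, (mem1 _).mpr hP₀⟩ : V1) ≠ 0 := by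
        intro h0
        have : y₀ = 0 := congrArg Subtype.val h0
        rw [this, norm_zero] at hy₀
        exact zero_ne_one hy₀
      have : Nontrivial (LinearMap.ker A) :=
        ⟨⟨⟨_, hker⟩, 0, fun h0 => hne (congrArg Subtype.val h0)⟩⟩
      exact Module.finrank_pos
    have h1 := LinearMap.finrank_range_add_finrank_ker A
    have h2 := Submodule.finrank_mono hsurj
    omega
  have t3 : (finrank ℝ E : ℝ) - 1 - finrank ℝ V2 = finrank ℝ V1 := by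
    simpa using t1
  have t4 : finrank ℝ E = finrank ℝ V1 + 1 + finrank ℝ V2 := by
    have : (finrank ℝ E : ℝ) = finrank ℝ V1 + 1 + finrank ℝ V2 := by linarith
    exact_mod_cast this
  omega

/-- **Structure of rank one**: all the data of `Ver` (without `1 ≤ w`). -/
theorem exists_ver_data (hE : 2 ≤ finrank ℝ E) :
    ∃ (l : ℝ) (w : ℕ) (Q : E → E →L[ℝ] E), 0 < l ∧
      (∀ y v, D.P y v = l ^ 2 • (‖y‖ ^ 2 • v - ⟪y, v⟫_ℝ • y) + (3 * l ^ 2) • Q y v) ∧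
      ContDiff ℝ ∞ Q ∧ (∀ y u v, ⟪Q y u, v⟫_ℝ = ⟪u, Q y v⟫_ℝ) ∧ (∀ y, Q y y = 0) ∧
      (∀ y v, Q y (Q y v) = ‖y‖ ^ 2 • Q y v) ∧
      (∀ y, LinearMap.trace ℝ E (Q y : E →ₗ[ℝ] E) = w * ‖y‖ ^ 2) ∧
      (∀ (c : ℝ) y, Q (c • y) = c ^ 2 • Q y) ∧ 2 * w + 2 ≤ finrank ℝ E ∧
      (w = 0 → ∀ y, Q y = 0) := by
  have : Nontrivial E := Module.nontrivial_of_finrank_pos (R := ℝ) (by omega)
  obtain ⟨l, hl, hex, h⟩ := D.spectrum hE
  obtain ⟨x₀, hx₀⟩ := exists_norm_eq E zero_le_one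
  obtain ⟨y₀, hy₀, hP₀⟩ := hex x₀ hx₀
  obtain ⟨w, hw, hdim⟩ := D.dim_count hl h hx₀ hy₀ hP₀
  -- the trace at all unit vectors
  have hunit : ∀ x : E, ‖x‖ = 1 → LinearMap.trace ℝ E (D.Q l x : E →ₗ[ℝ] E) = w := by
    intro x hx
    obtain ⟨T, hT, hTP⟩ := D.trans x₀ x hx₀ hx
    have hP : ∀ u, D.P x (T u) = T (D.P x₀ u) := by
      intro u
      have := hTP x₀ u
      rw [hT] at this
      exact this
    have hconj : (D.Q l x : E →ₗ[ℝ] E) =
        (T.toLinearEquiv : E ≃ₗ[ℝ] E).conj (D.Q l x₀ : E →ₗ[ℝ] E) := by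
      ext v
      rw [LinearEquiv.conj_apply_apply]
      show D.Q l x v = T (D.Q l x₀ (T.symm v))
      obtain ⟨u, rfl⟩ := T.surjective v
      rw [T.symm_apply_apply, D.Q_apply, D.Q_apply, hP, hx, hx₀]
      have : ⟪x, T u⟫_ℝ = ⟪x₀, u⟫_ℝ := by rw [← hT, T.inner_map_map]
      rw [this, ← hT]
      simp only [map_smul, map_sub]
    rw [hconj, LinearMap.trace_conj', hw]
  have htr : ∀ y : E, LinearMap.trace ℝ E (D.Q l y : E →ₗ[ℝ] E) = w * ‖y‖ ^ 2 := by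
    intro y
    by_cases hy : y = 0
    · have h0 : D.Q l 0 = 0 := by
        have := D.Q_smul l 0 (0 : E)
        simpa using this
      rw [hy, h0]; simp
    · have hn : ‖y‖ ≠ 0 := norm_ne_zero_iff.mpr hy
      have hx : ‖‖y‖⁻¹ • y‖ = 1 := by
        rw [norm_smul, norm_inv, norm_norm, inv_mul_cancel₀ hn]
      have e : D.Q l y = ‖y‖ ^ 2 • D.Q l (‖y‖⁻¹ • y) := by
        rw [← Q_smul, smul_smul, mul_inv_cancel₀ hn, one_smul]
      rw [e]
      have e2 : ((‖y‖ ^ 2 • D.Q l (‖y‖⁻¹ • y) : E →L[ℝ] E) : E →ₗ[ℝ] E) =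
          ‖y‖ ^ 2 • (D.Q l (‖y‖⁻¹ • y) : E →ₗ[ℝ] E) := rfl
      rw [e2, map_smul, hunit _ hx, smul_eq_mul]
      ring
  refine ⟨l, w, D.Q l, hl, D.P_eq_Q hl, D.smooth_Q l, D.Q_symm l, D.Q_self l, D.Q_Q hl h, htr,
    D.Q_smul l, hdim, ?_⟩
  intro hw0 y
  -- nonnegative operator with zero trace
  by_cases hy : y = 0
  · have := D.Q_smul l 0 (0 : E)
    rw [hy]
    simpa using this
  have hn : 0 < ‖y‖ := norm_pos_iff.mpr hy
  have h1 : ∀ v, ‖y‖ ^ 2 * ⟪v, D.Q l y v⟫_ℝ = ‖D.Q l y v‖ ^ 2 := by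
    intro v
    rw [← real_inner_self_eq_norm_sq (D.Q l y v), D.Q_symm l y v (D.Q l y v), D.Q_Q hl h,
      inner_smul_right]
  have h2 : ∀ v, 0 ≤ ⟪v, D.Q l y v⟫_ℝ := by
    intro v
    by_contra hneg
    have h2 : ‖y‖ ^ 2 * ⟪v, D.Q l y v⟫_ℝ < 0 :=
      mul_neg_of_pos_of_neg (by positivity) (not_le.mp hneg)
    have h3 := sq_nonneg ‖D.Q l y v‖
    have h4 := h1 v
    linarith
  let b := stdOrthonormalBasis ℝ E
  have ht := htr y
  rw [hw0, Nat.cast_zero, zero_mul, LinearMap.trace_eq_sum_inner _ b] at ht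
  have h3 : ∀ i, ⟪b i, D.Q l y (b i)⟫_ℝ = 0 := fun i =>
    (Finset.sum_eq_zero_iff_of_nonneg (fun i _ => h2 (b i))).mp ht i (Finset.mem_univ i)
  have h4 : ∀ i, D.Q l y (b i) = 0 := by
    intro i
    have := h1 (b i)
    rw [h3 i, mul_zero] at this
    exact norm_eq_zero.mp (pow_eq_zero_iff two_ne_zero |>.mp this.symm)
  have h5 : (D.Q l y : E →ₗ[ℝ] E) = 0 := b.toBasis.ext fun i => by
    rw [OrthonormalBasis.coe_toBasis]
    exact h4 i
  ext v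
  exact congrArg (fun f : E →ₗ[ℝ] E => f v) h5

end SymData

end

end Pool.Agent.Work.MP_3b24f6_gt.Froz
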