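import Pool.Agent.Work.MP_3b24f6_gt.S.Alg1
import Pool.Agent.Work.MP_3b24f6_gt.S.Alg2

/-! From the infinitesimal data to symmetric data; Lemma L; the rays for `c = 0` and `c < 0`. -/

set_option autoImplicit false
set_option linter.unusedSectionVars false

open Filter Topology
open scoped InnerProductSpace

namespace Pool.Agent.Work.MP_3b24f6_gt.Froz

noncomputable section

/-! ### Lemma L -/

section lem
variable {E : Type*} [NormedAddCommGroup E] [InnerProductSpace ℝ E]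

theorem zero_of_eq_neg' {x : E} (h : x = -x) : x = 0 := by
  have h2 : (2 : ℝ) • x = 0 := by
    rw [two_smul]
    nth_rewrite 2 [h]
    simp
  exact (smul_eq_zero.1 h2).resolve_left (by norm_num)

theorem recur [FiniteDimensional ℝ E] (g : E ≃ₗᵢ[ℝ] E) : ∃ n : ℕ → ℕ, (∀ j, 1 ≤ n j) ∧
    ∀ x, Tendsto (fun j => (g ^ (n j)) x) atTop (𝓝 x) := by
  let T : ℕ → E →L[ℝ] E := fun n => ((g ^ n : E ≃ₗᵢ[ℝ] E).toContinuousLinearEquiv : E →L[ℝ] E)
  have hT : ∀ n, T n ∈ Metric.closedBall (0 : E →L[ℝ] E) 1 := by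
    intro n
    rw [mem_closedBall_zero_iff]
    refine ContinuousLinearMap.opNorm_le_bound _ zero_le_one fun x => ?_
    rw [one_mul]
    exact ((g ^ n).norm_map x).le
  obtain ⟨S, -, φ, hφ, hS⟩ := tendsto_subseq_of_bounded Metric.isBounded_closedBall hT
  refine ⟨fun j => φ (j + 1) - φ j, fun j => ?_, fun x => ?_⟩
  · have := hφ (Nat.lt_succ_self j)
    simp only [Nat.succ_eq_add_one] at this
    change 1 ≤ φ (j + 1) - φ j
    omega
  · rw [tendsto_iff_norm_sub_tendsto_zero]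
    have h1 : Tendsto (fun j => T (φ (j + 1)) x - T (φ j) x) atTop (𝓝 (S x - S x)) := by
      have h2 : Tendsto (fun j => T (φ j) x) atTop (𝓝 (S x)) :=
        ((ContinuousLinearMap.apply ℝ E x).continuous.tendsto S).comp hS
      exact (h2.comp (tendsto_add_atTop_nat 1)).sub h2
    rw [sub_self] at h1
    have h3 := h1.norm
    rw [norm_zero] at h3
    refine h3.congr fun j => ?_
    have hlt := hφ (Nat.lt_succ_self j)
    have e1 : T (φ (j + 1)) x = (g ^ φ j) ((g ^ (φ (j + 1) - φ j)) x) := by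
      change (g ^ φ (j + 1)) x = _
      have e3 : φ (j + 1) = φ j + (φ (j + 1) - φ j) := by
        simp only [Nat.succ_eq_add_one] at hlt
        omega
      conv_lhs => rw [e3, pow_add]
      rfl
    have e2 : T (φ j) x = (g ^ φ j) x := rfl
    rw [e1, e2, ← map_sub, LinearIsometryEquiv.norm_map]

/-- LEMMA L. -/
theorem lemL [FiniteDimensional ℝ E] (K : Subgroup (E ≃ₗᵢ[ℝ] E))
    (trans : ∀ x y : E, ‖x‖ = ‖y‖ → ∃ k ∈ K, k x = y)
    (a : E → E) (equi : ∀ k ∈ K, ∀ x, a (k x) = k (a x)) (even : ∀ x, a (-x) = a x) (x : E) :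
    a x = 0 := by
  by_cases hx : x = 0
  · subst hx
    have h1 : ∀ k ∈ K, k (a 0) = a 0 := by
      intro k hk
      rw [← equi k hk, map_zero]
    obtain ⟨k, hk, hk1⟩ := trans (a 0) (-(a 0)) (norm_neg _).symm
    rw [h1 k hk] at hk1
    exact zero_of_eq_neg' hk1
  by_contra hax
  have hx' : 0 < ‖x‖ := norm_pos_iff.2 hx
  have hax' : 0 < ‖a x‖ := norm_pos_iff.2 hax
  obtain ⟨g, hg, hgx⟩ := trans ((‖a x‖ / ‖x‖) • x) (a x) (by
    rw [norm_smul, Real.norm_of_nonneg (by positivity)]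
    field_simp)
  rw [map_smul] at hgx
  have hr : ‖a x‖ / ‖x‖ ≠ 0 := by positivity
  have h1 : ∀ k ∈ K, k x = x → k (g x) = g x := by
    intro k hk hkx
    have h2 : k (a x) = a x := by rw [← equi k hk, hkx]
    rw [← hgx, map_smul] at h2
    exact (smul_right_inj hr).1 h2
  have h2 : ∀ n : ℕ, ∀ k ∈ K, k x = x → k ((g ^ n) x) = (g ^ n) x := by
    intro n
    induction n with
    | zero =>
      intro k hk hkx
      exact hkx
    | succ n ih =>
      intro k hk hkx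
      have h3 : (g⁻¹ * k * g) x = x := by
        change g.symm (k (g x)) = x
        rw [h1 k hk hkx, LinearIsometryEquiv.symm_apply_apply]
      have h4 := ih (g⁻¹ * k * g) (K.mul_mem (K.mul_mem (K.inv_mem hg) hk) hg) h3
      change g.symm (k (g ((g ^ n) x))) = (g ^ n) x at h4
      have h5 : (g ^ (n + 1)) x = g ((g ^ n) x) := by
        rw [pow_succ']
        rfl
      rw [h5]
      have h6 := congrArg g h4
      rwa [LinearIsometryEquiv.apply_symm_apply] at h6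
  obtain ⟨n, hn, hlim⟩ := recur g
  have h3 : ∀ k ∈ K, k x = x → k (g.symm x) = g.symm x := by
    intro k hk hkx
    have h4 : ∀ j, k (g.symm ((g ^ n j) x)) = g.symm ((g ^ n j) x) := by
      intro j
      have e : n j = (n j - 1) + 1 := by have := hn j; omega
      have h7 : g.symm ((g ^ n j) x) = (g ^ (n j - 1)) x := by
        conv_lhs => rw [e, pow_succ']
        change g.symm (g _) = _
        exact LinearIsometryEquiv.symm_apply_apply _ _
      rw [h7]
      exact h2 _ k hk hkx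
    have h5 : Tendsto (fun j => g.symm ((g ^ n j) x)) atTop (𝓝 (g.symm x)) :=
      (g.symm.continuous.tendsto x).comp (hlim x)
    have h6 : Tendsto (fun j => k (g.symm ((g ^ n j) x))) atTop (𝓝 (k (g.symm x))) :=
      (k.continuous.tendsto _).comp h5
    simp only [h4] at h6
    exact tendsto_nhds_unique h6 h5
  obtain ⟨k, hk, hkx⟩ := trans x (-x) (norm_neg x).symm
  have h4 : k (a x) = a x := by rw [← equi k hk, hkx, even]
  rw [← hgx, map_smul] at h4
  have h5 : k (g x) = g x := (smul_right_inj hr).1 h4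
  have h6 : (g⁻¹ * k * g) x = x := by
    change g.symm (k (g x)) = x
    rw [h5, LinearIsometryEquiv.symm_apply_apply]
  have h7 := h3 (g⁻¹ * k * g) (K.mul_mem (K.mul_mem (K.inv_mem hg) hk) hg) h6
  change g.symm (k (g (g.symm x))) = g.symm x at h7
  rw [LinearIsometryEquiv.apply_symm_apply] at h7
  have h8 : k x = x := g.symm.injective h7
  rw [h8] at hkx
  exact hx (zero_of_eq_neg' hkx)

end lem

/-! ### Jets -/

/-- Infinitesimal data together with the derivatives of the fields at the base point. -/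
structure JetAlg (E L : Type*) [NormedAddCommGroup E] [InnerProductSpace ℝ E]
    [LieRing L] [LieAlgebra ℝ L] extends HomAlg E L where
  jet : L →ₗ[ℝ] E →ₗ[ℝ] E
  jet_ev : ∀ k X, ev k = 0 → ev ⁅k, X⁆ = -(jet k (ev X))
  transj : ∀ x y : E, ‖x‖ = ‖y‖ → ∃ (φ : L ≃ₗ⁅ℝ⁆ L) (A : E ≃ₗᵢ[ℝ] E),
    (∀ X, ev (φ X) = A (ev X)) ∧ (∀ X v, jet (φ X) (A v) = A (jet X v)) ∧ A x = y

variable {E L : Type*} [NormedAddCommGroup E] [InnerProductSpace ℝ E] [FiniteDimensional ℝ E]
  [LieRing L] [LieAlgebra ℝ L] [FiniteDimensional ℝ L]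

namespace JetAlg

variable (D : JetAlg E L)

/-- The group of linear isometries which act by automorphisms. -/
def grp : Subgroup (E ≃ₗᵢ[ℝ] E) where
  carrier := {A | ∃ φ : L ≃ₗ⁅ℝ⁆ L, (∀ X, D.ev (φ X) = A (D.ev X)) ∧
    ∀ X v, D.jet (φ X) (A v) = A (D.jet X v)}
  mul_mem' := by
    rintro A B ⟨φ, h1, h2⟩ ⟨ψ, h3, h4⟩
    refine ⟨ψ.trans φ, fun X => ?_, fun X v => ?_⟩
    · rw [LieEquiv.trans_apply, h1, h3]
      rfl
    · rw [LieEquiv.trans_apply]
      change D.jet (φ (ψ X)) (A (B v)) = A (B (D.jet X v))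
      rw [h2, h4]
  one_mem' := ⟨LieEquiv.refl, fun X => rfl, fun X v => rfl⟩
  inv_mem' := by
    rintro A ⟨φ, h1, h2⟩
    refine ⟨φ.symm, fun X => ?_, fun X v => ?_⟩
    · have h3 := h1 (φ.symm X)
      rw [LieEquiv.apply_symm_apply] at h3
      change D.ev (φ.symm X) = A.symm (D.ev X)
      rw [h3, LinearIsometryEquiv.symm_apply_apply]
    · have h3 := h2 (φ.symm X) (A.symm v)
      rw [LieEquiv.apply_symm_apply, LinearIsometryEquiv.apply_symm_apply] at h3
      change D.jet (φ.symm X) (A.symm v) = A.symm (D.jet X v)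
      rw [h3, LinearIsometryEquiv.symm_apply_apply]

theorem jet_hat (x : E) : D.jet (D.hat x) x = 0 := by
  refine lemL D.grp (fun x y h => ?_) (fun x => D.jet (D.hat x) x) (fun A hA x => ?_)
    (fun x => ?_) x
  · obtain ⟨φ, A, h1, h2, h3⟩ := D.transj x y h
    exact ⟨A, ⟨φ, h1, h2⟩, h3⟩
  · obtain ⟨φ, h1, h2⟩ := hA
    rw [← D.map_hat h1, h2]
  · rw [map_neg D.hat, map_neg D.jet, map_neg, LinearMap.neg_apply, neg_neg]

section geo
variable {x : E} {X : L} (h1 : D.ev X = x) (h2 : D.jet X x = 0)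
include h1 h2

theorem rho_geo : D.rho (X - D.hat x) x = 0 := by
  have h3 : D.ev (X - D.hat x) = 0 := by rw [map_sub, D.ev_hat, h1, sub_self]
  have h4 := D.jet_ev (X - D.hat x) X h3
  rw [D.ev_lie h3, h1, map_sub D.jet, LinearMap.sub_apply, h2, D.jet_hat, sub_zero, neg_zero] at h4
  exact h4

theorem lie_geo : ⁅D.hat x, X - D.hat x⁆ = 0 := by
  have h3 : D.ev (X - D.hat x) = 0 := by rw [map_sub, D.ev_hat, h1, sub_self]
  rw [D.hat_lie h3, D.rho_geo h1 h2, map_zero, neg_zero]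

theorem lie_geo' : ⁅X, X - D.hat x⁆ = 0 := by
  have h3 : ⁅X, X - D.hat x⁆ = ⁅X - D.hat x, X - D.hat x⁆ + ⁅D.hat x, X - D.hat x⁆ := by
    rw [← add_lie, sub_add_cancel]
  rw [h3, lie_self, D.lie_geo h1 h2, add_zero]

end geo

end JetAlg

namespace HomAlg

variable (D : HomAlg E L)

/-- The symmetric data, `c > 0`. -/
def toSymData (hc : 0 < D.c) : SymData L E where
  hat := D.hat
  ev := D.ev
  ev_hat := D.ev_hat
  pp := D.ev_lie_hat_hat hc
  kp _ hk x := D.kp hk x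
  skew _ hk x y := D.skew_hat hk x y
  pos _ _ hx hxy hy := D.pos_ev_lie_lie hc hx hxy hy
  trans _ _ hx hx' := D.trans' (hx.trans hx'.symm)

theorem toSymData_hat (hc : 0 < D.c) : (D.toSymData hc).hat = D.hat := rfl

theorem toSymData_ev (hc : 0 < D.c) : (D.toSymData hc).ev = D.ev := rfl

/-! ### Rays -/

/-- The metric along a ray, as a function of the fields. -/
structure RayF (x : E) (F : ℝ → L →ₗ[ℝ] L →ₗ[ℝ] ℝ) : Prop where
  symm : ∀ t Z W, F t Z W = F t W Z
  nonneg : ∀ t Z, 0 ≤ F t Z Z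
  zero : ∀ Z W, F 0 Z W = ⟪D.ev Z, D.ev W⟫_ℝ
  deriv : ∀ Z W t, HasDerivAt (fun t => F t Z W) (F t ⁅D.hat x, Z⁆ W + F t Z ⁅D.hat x, W⁆) t

theorem psd_zero {V : Type*} [AddCommGroup V] [Module ℝ V] (G : V →ₗ[ℝ] V →ₗ[ℝ] ℝ)
    (hs : ∀ Z W, G Z W = G W Z) (hn : ∀ Z, 0 ≤ G Z Z) {k : V} (hk : G k k = 0) (W : V) :
    G k W = 0 := by
  by_contra hne
  have h1 : ∀ s : ℝ, 0 ≤ G W W + 2 * s * G k W := fun s => by
    have h2 := hn (W + s • k)
    simp only [map_add, map_smul, LinearMap.add_apply, LinearMap.smul_apply, smul_eq_mul, hk,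
      hs W k] at h2
    linarith
  have h3 := h1 (-(G W W + 1) / (2 * G k W))
  have h4 : 2 * (-(G W W + 1) / (2 * G k W)) * G k W = -(G W W + 1) := by
    field_simp
  rw [h4] at h3
  linarith

theorem psd_sum {V ι : Type*} [AddCommGroup V] [Module ℝ V] [Fintype ι]
    (G : V →ₗ[ℝ] V →ₗ[ℝ] ℝ) (hs : ∀ Z W, G Z W = G W Z) (hn : ∀ Z, 0 ≤ G Z Z)
    (z : ι → ℝ) (f : ι → V) :
    G (∑ a, z a • f a) (∑ a, z a • f a) ≤ (∑ a, z a ^ 2) * ∑ a, G (f a) (f a) := by
  have h1 : 0 ≤ ∑ a, ∑ b, G (z a • f b - z b • f a) (z a • f b - z b • f a) :=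
    Finset.sum_nonneg fun a _ => Finset.sum_nonneg fun b _ => hn _
  have h2 : ∀ a b, G (z a • f b - z b • f a) (z a • f b - z b • f a)
      = z a ^ 2 * G (f b) (f b) + z b ^ 2 * G (f a) (f a)
        - 2 * (z a * z b * G (f a) (f b)) := fun a b => by
    simp only [map_sub, map_smul, LinearMap.sub_apply, LinearMap.smul_apply, smul_eq_mul,
      hs (f b) (f a)]
    ring
  have h3 : G (∑ a, z a • f a) (∑ a, z a • f a) = ∑ a, ∑ b, z a * z b * G (f a) (f b) := by
    simp only [map_sum, LinearMap.sum_apply, map_smul, LinearMap.smul_apply, smul_eq_mul,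
      Finset.mul_sum]
    rw [Finset.sum_comm]
    exact Finset.sum_congr rfl fun a _ => Finset.sum_congr rfl fun b _ => by ring
  have h4 : ∑ a, ∑ b, z a ^ 2 * G (f b) (f b) = (∑ a, z a ^ 2) * ∑ a, G (f a) (f a) := by
    rw [Finset.sum_mul_sum]
  have h5 : ∑ a, ∑ b, z b ^ 2 * G (f a) (f a) = (∑ a, z a ^ 2) * ∑ a, G (f a) (f a) := by
    rw [← h4, Finset.sum_comm]
  have h6 : ∑ a, ∑ b, 2 * (z a * z b * G (f a) (f b))
      = 2 * ∑ a, ∑ b, z a * z b * G (f a) (f b) := by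
    simp only [Finset.mul_sum]
  simp only [h2, Finset.sum_sub_distrib, Finset.sum_add_distrib] at h1
  rw [h4, h5, h6, ← h3] at h1
  linarith

theorem exists_onb_neg {V : Type*} [AddCommGroup V] [Module ℝ V] [FiniteDimensional ℝ V]
    (b : LinearMap.BilinForm ℝ V) (hs : ∀ x y, b x y = b y x) (hneg : ∀ x, x ≠ 0 → b x x < 0) :
    ∃ (n : ℕ) (f : Fin n → V), ∀ v, v = -∑ a, b v (f a) • f a := by
  have hsymm : LinearMap.IsSymm b := ⟨fun x y => hs x y⟩
  have : Invertible (2 : ℝ) := invertibleOfNonzero two_ne_zero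
  obtain ⟨v, hv⟩ := LinearMap.BilinForm.exists_orthogonal_basis hsymm
  have hneg' : ∀ a, b (v a) (v a) < (0 : ℝ) := fun a => hneg _ (v.ne_zero a)
  refine ⟨_, fun a => (Real.sqrt (-b (v a) (v a)))⁻¹ • v a, fun k => ?_⟩
  have h1 : ∀ a, v.repr k a = b k (v a) / b (v a) (v a) := fun a => by
    have h2 : b k (v a) = v.repr k a * b (v a) (v a) := by
      conv_lhs => rw [← v.sum_repr k]
      rw [map_sum, LinearMap.sum_apply, Finset.sum_eq_single a]
      · rw [map_smul, LinearMap.smul_apply, smul_eq_mul]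
      · intro c _ hc
        rw [map_smul, LinearMap.smul_apply, hv hc, smul_zero]
      · intro h
        exact absurd (Finset.mem_univ a) h
    rw [h2, mul_div_cancel_right₀ _ (hneg' a).ne]
  conv_lhs => rw [← v.sum_repr k]
  rw [← Finset.sum_neg_distrib]
  refine Finset.sum_congr rfl fun a _ => ?_
  rw [h1 a, map_smul, smul_eq_mul, smul_smul, ← neg_smul]
  congr 1
  have h7 := hneg' a
  obtain ⟨r, hr, hr1, hr2⟩ : ∃ r : ℝ, 0 < r ∧ Real.sqrt (-b (v a) (v a)) = r ∧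
      b (v a) (v a) = -r ^ 2 :=
    ⟨_, Real.sqrt_pos.2 (by linarith), rfl, by rw [Real.sq_sqrt (by linarith)]; ring⟩
  rw [hr1, hr2]
  field_simp

namespace RayF

variable {D} {x : E} {F : ℝ → L →ₗ[ℝ] L →ₗ[ℝ] ℝ} (R : D.RayF x F)
include R

theorem const {Z W : L} (hZ : ⁅D.hat x, Z⁆ = 0) (hW : ⁅D.hat x, W⁆ = 0) (t : ℝ) :
    F t Z W = ⟪D.ev Z, D.ev W⟫_ℝ := by
  rw [← R.zero]
  have h1 : ∀ s, HasDerivAt (fun t => F t Z W) 0 s := fun s => by
    have h2 := R.deriv Z W s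
    rw [hZ, hW, map_zero (F s), LinearMap.zero_apply, map_zero, add_zero] at h2
    exact h2
  exact is_const_of_deriv_eq_zero (fun s => (h1 s).differentiableAt) (fun s => (h1 s).deriv) t 0

theorem eq_zero {k : L} (hk : D.ev k = 0) (hx : D.rho k x = 0) (t : ℝ) (W : L) :
    F t k W = 0 := by
  refine psd_zero (F t) (R.symm t) (R.nonneg t) ?_ W
  have h1 : ⁅D.hat x, k⁆ = 0 := by rw [D.hat_lie hk, hx, map_zero, neg_zero]
  rw [R.const h1 h1 t, hk, inner_zero_left]

theorem congr {k k' : L} (hk : D.ev k = 0) (hk' : D.ev k' = 0) (hx : D.rho k x = D.rho k' x)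
    (t : ℝ) : F t k k = F t k' k' := by
  have h1 : D.ev (k - k') = 0 := by rw [map_sub, hk, hk', sub_zero]
  have h2 : D.rho (k - k') x = 0 := by
    rw [sub_eq_add_neg, D.rho_add, D.rho_neg, hx, add_neg_cancel]
  have h3 : ∀ W, F t k W = F t k' W := fun W => by
    have h4 := R.eq_zero h1 h2 t W
    rw [map_sub, LinearMap.sub_apply] at h4
    linarith
  rw [h3, R.symm, h3]

/-- The flat case. -/
theorem ray_flat (hc : D.c = 0) {k : L} (hk : D.ev k = 0) (t : ℝ) :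
    F t k k = t ^ 2 * ‖D.rho k x‖ ^ 2 := by
  set v := D.rho k x with hv
  have h1 : ⁅D.hat x, k⁆ = -D.hat v := D.hat_lie hk x
  have h2 : ⁅D.hat x, D.hat v⁆ = 0 := D.lie_eq_zero_of_c_eq_zero hc x v
  have h3 : ∀ t, F t (D.hat v) (D.hat v) = ‖v‖ ^ 2 := fun t => by
    rw [R.const h2 h2 t, D.ev_hat, real_inner_self_eq_norm_sq]
  have h4 : ∀ t, F t k (D.hat v) = -(t * ‖v‖ ^ 2) := by
    intro t
    have h5 : ∀ s, HasDerivAt (fun t => F t k (D.hat v) + t * ‖v‖ ^ 2) 0 s := fun s => by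
      have h6 := (R.deriv k (D.hat v) s).add ((hasDerivAt_id s).mul_const (‖v‖ ^ 2))
      rw [h1, h2, map_zero, add_zero, map_neg, LinearMap.neg_apply, h3, one_mul,
        neg_add_cancel] at h6
      exact h6
    have h7 := is_const_of_deriv_eq_zero (fun s => (h5 s).differentiableAt)
      (fun s => (h5 s).deriv) t 0
    simp only [R.zero, hk, inner_zero_left, zero_mul, add_zero] at h7
    linarith
  have h5 : ∀ s, HasDerivAt (fun t => F t k k - t ^ 2 * ‖v‖ ^ 2) 0 s := fun s => by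
    have h6 := (R.deriv k k s).sub (((hasDerivAt_id s).pow 2).mul_const (‖v‖ ^ 2))
    refine h6.congr_deriv ?_
    rw [h1, map_neg, LinearMap.neg_apply, map_neg, R.symm s (D.hat v) k, h4]
    simp
    ring
  have h7 := is_const_of_deriv_eq_zero (fun s => (h5 s).differentiableAt)
    (fun s => (h5 s).deriv) t 0
  simp only [R.zero, hk, inner_zero_left] at h7
  linarith [h7]

/-- The compact case: the sum over an orthonormal basis is constant. -/
theorem sum_const {n : ℕ} {f : Fin n → L} (hf : ∀ v : L, v = -∑ a, B v (f a) • f a) (t : ℝ) :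
    ∑ a, F t (f a) (f a) = ∑ a, ‖D.ev (f a)‖ ^ 2 := by
  have h1 : ∀ s, HasDerivAt (fun t => ∑ a, F t (f a) (f a)) 0 s := fun s => by
    have h2 : HasDerivAt (fun t => ∑ a, F t (f a) (f a))
        (∑ a, (F s ⁅D.hat x, f a⁆ (f a) + F s (f a) ⁅D.hat x, f a⁆)) s := by
      have h3 := HasDerivAt.sum (u := Finset.univ) fun a _ => R.deriv (f a) (f a) s
      refine h3.congr_of_eventuallyEq (Eventually.of_forall fun t => ?_)
      simp
    refine h2.congr_deriv ?_
    have h4 : ∀ a, F s ⁅D.hat x, f a⁆ (f a)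
        = -∑ b, B ⁅D.hat x, f a⁆ (f b) * F s (f b) (f a) := fun a => by
      conv_lhs => rw [hf ⁅D.hat x, f a⁆]
      rw [map_neg, LinearMap.neg_apply, map_sum, LinearMap.sum_apply]
      congr 1
      refine Finset.sum_congr rfl fun b _ => ?_
      rw [map_smul, LinearMap.smul_apply, smul_eq_mul]
    have h5 : ∑ a, ∑ b, B ⁅D.hat x, f a⁆ (f b) * F s (f b) (f a) = 0 := by
      have h6 : ∑ a, ∑ b, B ⁅D.hat x, f a⁆ (f b) * F s (f b) (f a)
          = -∑ a, ∑ b, B ⁅D.hat x, f a⁆ (f b) * F s (f b) (f a) := by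
        conv_lhs => rw [Finset.sum_comm]
        rw [← Finset.sum_neg_distrib]
        refine Finset.sum_congr rfl fun a _ => ?_
        rw [← Finset.sum_neg_distrib]
        refine Finset.sum_congr rfl fun b _ => ?_
        rw [B_skew, B_symm (f b), R.symm s (f a) (f b)]
        ring
      linarith
    simp only [R.symm s (f _) ⁅D.hat x, f _⁆, h4, ← two_mul]
    rw [← Finset.mul_sum, Finset.sum_neg_distrib, h5, neg_zero, mul_zero]
  have h7 := is_const_of_deriv_eq_zero (fun s => (h1 s).differentiableAt)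
    (fun s => (h1 s).deriv) t 0
  rw [h7]
  refine Finset.sum_congr rfl fun a _ => ?_
  rw [R.zero, real_inner_self_eq_norm_sq]

theorem bound {n : ℕ} {f : Fin n → L} (hf : ∀ v : L, v = -∑ a, B v (f a) • f a) (t : ℝ) (Z : L) :
    F t Z Z ≤ (∑ a, ‖D.ev (f a)‖ ^ 2) * (-B Z Z) := by
  have h1 : Z = ∑ a, (-B Z (f a)) • f a := by
    conv_lhs => rw [hf Z]
    rw [← Finset.sum_neg_distrib]
    exact Finset.sum_congr rfl fun a _ => (neg_smul _ _).symm
  have h2 : -B Z Z = ∑ a, (-B Z (f a)) ^ 2 := by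
    have h3 : B Z Z = ∑ a, (-B Z (f a)) * B Z (f a) := by
      conv_lhs => rw [show B Z Z = B (L := L) Z (∑ a, (-B Z (f a)) • f a) from by rw [← h1]]
      rw [map_sum]
      refine Finset.sum_congr rfl fun a _ => ?_
      rw [B_smul_right]
    rw [h3, ← Finset.sum_neg_distrib]
    exact Finset.sum_congr rfl fun a _ => by ring
  have h4 := psd_sum (F t) (R.symm t) (R.nonneg t) (fun a => -B Z (f a)) f
  rw [← h1, ← h2, R.sum_const hf t] at h4
  linarith

end RayF

/-- Compact case: the metric stays bounded along the rays. -/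
theorem ray_neg (hc : D.c < 0) : ∃ C : ℝ, ∀ (x : E) (F : ℝ → L →ₗ[ℝ] L →ₗ[ℝ] ℝ),
    ‖x‖ = 1 → D.RayF x F → ∀ k, D.ev k = 0 → ∀ t, F t k k ≤ C * ‖D.rho k x‖ ^ 2 := by
  obtain ⟨n, f, hf⟩ := exists_onb_neg (B (L := L)) B_symm fun X hX => D.neg_of_c_neg hc hX
  by_cases hE : ∃ x₀ : E, ‖x₀‖ = 1
  swap
  · exact ⟨0, fun x F hx => absurd ⟨x, hx⟩ hE⟩
  obtain ⟨x₀, hx₀⟩ := hE
  have hx₀' : x₀ ≠ 0 := fun h => by
    rw [h, norm_zero] at hx₀
    exact zero_ne_one hx₀
  set b := stdOrthonormalBasis ℝ E with hb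
  have h1 : ∀ i, ∃ k, D.ev k = 0 ∧ D.rho k x₀ = b i - ⟪x₀, b i⟫_ℝ • x₀ := fun i => by
    refine D.full' hx₀' ?_
    rw [inner_sub_right, inner_smul_right, real_inner_self_eq_norm_sq, hx₀]
    ring
  choose k hk hkx using h1
  have hneg : ∀ X : L, 0 ≤ -B X X := fun X => by
    by_cases h : X = 0
    · rw [h]
      simp
    · have := D.neg_of_c_neg hc h
      linarith
  refine ⟨(∑ a, ‖D.ev (f a)‖ ^ 2) * ∑ i, -B (k i) (k i), fun x F hx R l hl t => ?_⟩
  obtain ⟨φ, A, h, hA⟩ := D.trans x₀ x (hx₀.trans hx.symm)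
  set v := D.rho l x with hv
  have hxv : ⟪x, v⟫_ℝ = 0 := by rw [real_inner_comm, hv, D.rho_self hl]
  have hv₀ : ⟪x₀, A.symm v⟫_ℝ = 0 := by
    rw [← A.inner_map_map, A.apply_symm_apply, hA, hxv]
  set z : Fin (Module.finrank ℝ E) → ℝ := fun i => ⟪b i, A.symm v⟫_ℝ with hz
  set k₀ : L := ∑ i, z i • k i with hk₀
  have hk₀' : D.ev k₀ = 0 := by
    rw [hk₀, map_sum]
    refine Finset.sum_eq_zero fun i _ => ?_
    rw [map_smul, hk, smul_zero]
  have hkx₀ : D.rho k₀ x₀ = A.symm v := by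
    rw [hk₀, D.rho_sum]
    have e1 : ∑ i, z i • D.rho (k i) x₀ = ∑ i, z i • b i - (∑ i, z i * ⟪x₀, b i⟫_ℝ) • x₀ := by
      rw [Finset.sum_smul, ← Finset.sum_sub_distrib]
      refine Finset.sum_congr rfl fun i _ => ?_
      rw [hkx, smul_sub, smul_smul]
    have e2 : ∑ i, z i • b i = A.symm v := b.sum_repr' (A.symm v)
    have e3 : ∑ i, z i * ⟪x₀, b i⟫_ℝ = 0 := by
      have e4 : ⟪x₀, ∑ i, z i • b i⟫_ℝ = ∑ i, z i * ⟪x₀, b i⟫_ℝ := by
        rw [inner_sum]
        exact Finset.sum_congr rfl fun i _ => inner_smul_right _ _ _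
      rw [← e4, e2, hv₀]
    rw [e1, e2, e3, zero_smul, sub_zero]
  have hφ : D.ev (φ k₀) = 0 := by rw [h, hk₀', map_zero]
  have hφx : D.rho (φ k₀) x = v := by
    have e1 := D.map_rho h hk₀' x₀
    rw [hA, hkx₀, A.apply_symm_apply] at e1
    exact e1
  have h2 : F t l l = F t (φ k₀) (φ k₀) := R.congr hl hφ (by rw [hφx]) t
  have h3 : -B (φ k₀) (φ k₀) = -B k₀ k₀ := by
    rw [LieAlgebra.killingForm_of_equiv_apply]
  have h4 : -B k₀ k₀ ≤ ‖v‖ ^ 2 * ∑ i, -B (k i) (k i) := by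
    have e1 := psd_sum (-(B (L := L))) (fun Z W => by
      rw [LinearMap.neg_apply, LinearMap.neg_apply, LinearMap.neg_apply, LinearMap.neg_apply,
        B_symm]) (fun Z => hneg Z) z k
    have e2 : ∑ i, z i ^ 2 = ‖v‖ ^ 2 := by
      rw [← A.symm.norm_map v, ← b.sum_sq_norm_inner_right (A.symm v)]
      refine Finset.sum_congr rfl fun i _ => ?_
      rw [Real.norm_eq_abs, sq_abs]
    rw [e2] at e1
    exact e1
  have h5 := R.bound hf t (φ k₀)
  rw [h3] at h5
  have h6 : 0 ≤ ∑ a, ‖D.ev (f a)‖ ^ 2 := Finset.sum_nonneg fun a _ => sq_nonneg _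
  rw [h2]
  calc F t (φ k₀) (φ k₀) ≤ (∑ a, ‖D.ev (f a)‖ ^ 2) * -B k₀ k₀ := h5
    _ ≤ (∑ a, ‖D.ev (f a)‖ ^ 2) * (‖v‖ ^ 2 * ∑ i, -B (k i) (k i)) := by gcongr
    _ = _ := by ring

end HomAlg

end

end Pool.Agent.Work.MP_3b24f6_gt.Froz
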