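import Pool.Agent.Work.MP_3b24f6_gt.S.MetricLine

/-! FROZ, block B2: from a local exponential map to a global one; isometries act linearly. -/

set_option autoImplicit false

open Set Filter Topology Metric
open scoped InnerProductSpace

namespace Pool.Agent.Work.MP_3b24f6_gt.S

open Ax

variable {M : Type*} [MetricSpace M]
variable {E : Type*} [NormedAddCommGroup E] [InnerProductSpace ℝ E]

/-- A local exponential map at `e 0`, in purely metric terms. -/
structure LocExp (e : E → M) (ρ : ℝ) : Prop where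
  pos : 0 < ρ
  dist_eq : ∀ v, ‖v‖ < ρ → dist (e 0) (e v) = ‖v‖
  ray : ∀ v, ‖v‖ < ρ → ∀ s ∈ Icc (0 : ℝ) 1, Btw (e 0) (e (s • v)) (e v)
  surj : ∀ x, dist (e 0) x < ρ → ∃ v, ‖v‖ < ρ ∧ e v = x
  inf : ∀ v w, Tendsto (fun t : ℝ => dist (e (t • v)) (e (t • w)) / t) (𝓝[>] 0) (𝓝 ‖v - w‖)

theorem onRay_comm {o x z : M} : OnRay o x z ↔ OnRay o z x := by
  unfold OnRay
  exact or_comm

theorem btw_self {o z : M} (h : Btw o z o) : z = o := by
  unfold Btw at h
  rw [dist_self] at h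
  exact dist_eq_zero.1 (le_antisymm (by linarith [dist_nonneg (x := o) (y := z)]) dist_nonneg)

theorem unit_of_dist_two {v w : E} (hv : ‖v‖ = 1) (hw : ‖w‖ = 1) (h : ‖v - w‖ = 2) : w = -v := by
  have h1 := norm_sub_sq_real v w
  have h2 := norm_add_sq_real v w
  rw [h, hv, hw] at h1
  rw [hv, hw] at h2
  have h3 : ‖v + w‖ ^ 2 = 0 := by linarith
  have h4 : v + w = 0 := norm_eq_zero.1 (by simpa using h3)
  exact (neg_eq_of_add_eq_zero_right h4).symm

namespace LocExp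

variable {e : E → M} {ρ : ℝ} (H : LocExp e ρ) (A : Ax M)
include H

theorem dist_smul {v : E} (hv : ‖v‖ = 1) {t : ℝ} (ht : 0 ≤ t) (htρ : t < ρ) :
    dist (e 0) (e (t • v)) = t := by
  have h : ‖t • v‖ = t := by rw [norm_smul, hv, mul_one, Real.norm_of_nonneg ht]
  rw [H.dist_eq _ (by rw [h]; exact htρ), h]

/-- `e` maps a segment of a ray into a ray. -/
theorem onRay {v : E} (hv : ‖v‖ = 1) {s t : ℝ} (hs : 0 ≤ s) (ht : 0 ≤ t) (hsρ : s < ρ)
    (htρ : t < ρ) : OnRay (e 0) (e (s • v)) (e (t • v)) := by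
  have key : ∀ {s t : ℝ}, 0 ≤ s → s ≤ t → t < ρ → Btw (e 0) (e (s • v)) (e (t • v)) := by
    intro s t hs hst ht
    rcases eq_or_lt_of_le (hs.trans hst) with h0 | h0
    · have : s = t := le_antisymm hst (by linarith)
      rw [this]
      exact btw_right _ _
    · have h1 := H.ray (t • v) (by rw [norm_smul, hv, mul_one, Real.norm_of_nonneg h0.le]; exact ht)
        (s / t) ⟨by positivity, (div_le_one h0).2 hst⟩
      rwa [smul_smul, div_mul_cancel₀ _ h0.ne'] at h1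
  rcases le_total s t with h | h
  · exact Or.inr (key hs h htρ)
  · exact Or.inl (key ht h hsρ)

include A

theorem inj {v w : E} (hv : ‖v‖ < ρ) (hw : ‖w‖ < ρ) (h : e v = e w) : v = w := by
  have h1 : ‖v‖ = ‖w‖ := by rw [← H.dist_eq v hv, ← H.dist_eq w hw, h]
  have h2 : ∀ s ∈ Icc (0 : ℝ) 1, e (s • v) = e (s • w) := by
    intro s hs
    have k1 := H.ray v hv s hs
    have k2 := H.ray w hw s hs
    rw [← h] at k2
    refine A.btw_unique k1 k2 ?_
    have n1 : ∀ u : E, ‖u‖ < ρ → ‖s • u‖ < ρ := by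
      intro u hu
      rw [norm_smul, Real.norm_of_nonneg hs.1]
      nlinarith [hs.2, norm_nonneg u]
    rw [H.dist_eq _ (n1 v hv), H.dist_eq _ (n1 w hw), norm_smul, norm_smul, h1]
  have h3 := H.inf v w
  have h4 : (fun t : ℝ => dist (e (t • v)) (e (t • w)) / t) =ᶠ[𝓝[>] 0] fun _ => 0 := by
    have : Ioo (0 : ℝ) 1 ∈ 𝓝[>] (0 : ℝ) := Ioo_mem_nhdsGT one_pos
    filter_upwards [this] with t ht
    rw [h2 t ⟨ht.1.le, ht.2.le⟩, dist_self, zero_div]
  have h5 : Tendsto (fun _ : ℝ => (0 : ℝ)) (𝓝[>] 0) (𝓝 ‖v - w‖) := h3.congr' h4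
  have h6 := tendsto_nhds_unique h5 tendsto_const_nhds
  exact sub_eq_zero.1 (norm_eq_zero.1 h6)

/-- The point at distance `‖y‖` on the ray in the direction `y`. -/
theorem exists_point (y : E) :
    ∃ z, OnRay (e 0) (e ((ρ / 2) • (‖y‖⁻¹ • y))) z ∧ dist (e 0) z = ‖y‖ :=
  A.exists_onRay _ _ (norm_nonneg y)

omit A in
theorem half_ne {v : E} (hv : ‖v‖ = 1) : e 0 ≠ e ((ρ / 2) • v) := by
  intro h
  have h1 := H.dist_smul hv (t := ρ / 2) (by linarith [H.pos]) (by linarith [H.pos])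
  rw [← h, dist_self] at h1
  linarith [H.pos]

/-- The line in the direction of a unit vector. -/
theorem exists_line {v : E} (hv : ‖v‖ = 1) :
    ∃ γ : ℝ → M, Isometry γ ∧ γ 0 = e 0 ∧ (∀ t, 0 ≤ t → t < ρ → γ t = e (t • v)) ∧
      (∀ t, 0 ≤ t → t < ρ → γ (-t) = e (t • -v)) := by
  have hρ := H.pos
  have hne := H.half_ne hv
  have hd := H.dist_smul hv (t := ρ / 2) (by linarith) (by linarith)
  obtain ⟨γ, hγ, h0, h1⟩ := A.exists_line hne
  rw [hd] at h1
  have hpos : ∀ t, 0 ≤ t → t < ρ → γ t = e (t • v) := by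
    intro t ht htρ
    refine A.onRay_unique hne (z := γ t) ?_ (H.onRay hv (by linarith) ht (by linarith) htρ) ?_
    · rw [← h0, ← h1]
      rcases le_total t (ρ / 2) with h | h
      · exact Or.inl (isometry_btw hγ ht h)
      · exact Or.inr (isometry_btw hγ (by linarith) h)
    · rw [H.dist_smul hv ht htρ, ← h0, hγ.dist_eq, Real.dist_eq, zero_sub, abs_neg,
        abs_of_nonneg ht]
  -- the opposite direction
  obtain ⟨w0, hw0, hw1⟩ := H.surj (γ (-(ρ / 2))) (by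
    rw [← h0, hγ.dist_eq, Real.dist_eq, sub_neg_eq_add, zero_add, abs_of_nonneg (by linarith)]
    linarith)
  have hw2 : ‖w0‖ = ρ / 2 := by
    rw [← H.dist_eq w0 hw0, hw1, ← h0, hγ.dist_eq, Real.dist_eq, sub_neg_eq_add, zero_add,
      abs_of_nonneg (by linarith)]
  set w : E := (ρ / 2)⁻¹ • w0 with hw
  have hwn : ‖w‖ = 1 := by
    rw [hw, norm_smul, hw2, norm_inv, Real.norm_of_nonneg (by linarith),
      inv_mul_cancel₀ (by linarith)]
  have hw3 : (ρ / 2) • w = w0 := by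
    rw [hw, smul_smul, mul_inv_cancel₀ (by linarith), one_smul]
  have hneg : ∀ t, 0 ≤ t → t < ρ → γ (-t) = e (t • w) := by
    intro t ht htρ
    have hr := H.onRay hwn (s := ρ / 2) (by linarith) ht (by linarith) htρ
    refine A.onRay_unique (H.half_ne hwn) (z := γ (-t)) ?_ hr ?_
    · rw [hw3, hw1, ← h0]
      rcases le_total t (ρ / 2) with h | h
      · exact Or.inl (isometry_btw hγ (r := -(ρ / 2)) (s := -t) (t := 0) (by linarith)
          (by linarith)).symm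
      · exact Or.inr (isometry_btw hγ (r := -t) (s := -(ρ / 2)) (t := 0) (by linarith)
          (by linarith)).symm
    · rw [H.dist_smul hwn ht htρ, ← h0, hγ.dist_eq, Real.dist_eq, sub_neg_eq_add, zero_add,
        abs_of_nonneg ht]
  have hwv : w = -v := by
    refine unit_of_dist_two hv hwn ?_
    have h3 := H.inf v w
    have h4 : (fun t : ℝ => dist (e (t • v)) (e (t • w)) / t) =ᶠ[𝓝[>] 0] fun _ => 2 := by
      have : Ioo (0 : ℝ) ρ ∈ 𝓝[>] (0 : ℝ) := Ioo_mem_nhdsGT hρ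
      filter_upwards [this] with t ht
      rw [← hpos t ht.1.le ht.2, ← hneg t ht.1.le ht.2, hγ.dist_eq, Real.dist_eq,
        sub_neg_eq_add, abs_of_nonneg (by linarith [ht.1])]
      have := ht.1.ne'
      field_simp
      ring
    have h5 : Tendsto (fun _ : ℝ => (2 : ℝ)) (𝓝[>] 0) (𝓝 ‖v - w‖) := h3.congr' h4
    exact tendsto_nhds_unique h5 tendsto_const_nhds
  rw [hwv] at hneg
  exact ⟨γ, hγ, h0, hpos, hneg⟩

/-- The data of a global exponential map. -/
theorem exists_exp : ∃ f : E → M, Function.Bijective f ∧ (∀ v, ‖v‖ < ρ → f v = e v) ∧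
    (∀ v, ‖v‖ = 1 → Isometry fun t : ℝ => f (t • v)) ∧ (∀ y, dist (e 0) (f y) = ‖y‖) ∧
    (∀ γ : ℝ → M, Isometry γ → γ 0 = e 0 → ∃ v, ‖v‖ = 1 ∧ ∀ t, γ t = f (t • v)) := by
  classical
  have hρ := H.pos
  have hρ0 : (ρ / 2) ≠ 0 := by linarith
  choose f hf1 hf2 using H.exists_point A
  -- unit vectors
  have hunit : ∀ {v : E}, ‖v‖ = 1 → ∀ {t : ℝ}, 0 < t → ‖t • v‖⁻¹ • (t • v) = v := by
    intro v hv t ht
    rw [norm_smul, hv, mul_one, Real.norm_of_nonneg ht.le, smul_smul, inv_mul_cancel₀ ht.ne',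
      one_smul]
  have hf0 : f 0 = e 0 := by
    have := hf2 0
    rw [norm_zero] at this
    exact (dist_eq_zero.1 this).symm
  have hfv : ∀ {v : E}, ‖v‖ = 1 → ∀ {t : ℝ}, 0 < t →
      OnRay (e 0) (e ((ρ / 2) • v)) (f (t • v)) ∧ dist (e 0) (f (t • v)) = t := by
    intro v hv t ht
    have h1 := hf1 (t • v)
    rw [hunit hv ht] at h1
    refine ⟨h1, ?_⟩
    rw [hf2, norm_smul, hv, mul_one, Real.norm_of_nonneg ht.le]
  have hpolar : ∀ y : E, y ≠ 0 → ∃ v, ‖v‖ = 1 ∧ y = ‖y‖ • v := by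
    intro y hy
    refine ⟨‖y‖⁻¹ • y, ?_, ?_⟩
    · rw [norm_smul, norm_inv, norm_norm, inv_mul_cancel₀ (norm_ne_zero_iff.2 hy)]
    · rw [smul_smul, mul_inv_cancel₀ (norm_ne_zero_iff.2 hy), one_smul]
  have hlt : ρ / 2 < ρ := by linarith
  have heq : ∀ v, ‖v‖ < ρ → f v = e v := by
    intro y hy
    by_cases hy0 : y = 0
    · rw [hy0, hf0]
    obtain ⟨v, hv, hyv⟩ := hpolar y hy0
    have hyp : 0 < ‖y‖ := norm_pos_iff.2 hy0
    have h1 := hfv hv hyp
    rw [← hyv] at h1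
    have h2 := H.onRay hv (s := ρ / 2) (by linarith) hyp.le hlt hy
    rw [← hyv] at h2
    refine A.onRay_unique (H.half_ne hv) h1.1 h2 ?_
    rw [h1.2, H.dist_eq y hy]
  have hline : ∀ {v : E}, ‖v‖ = 1 → ∀ {γ : ℝ → M}, Isometry γ → γ 0 = e 0 →
      γ (ρ / 2) = e ((ρ / 2) • v) → γ (-(ρ / 2)) = e ((ρ / 2) • -v) → ∀ t, γ t = f (t • v) := by
    intro v hv γ hγ h0 h1 h2 t
    have hv' : ‖-v‖ = 1 := by rw [norm_neg, hv]
    rcases lt_trichotomy t 0 with ht | ht | ht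
    · have h3 := hfv hv' (t := -t) (by linarith)
      rw [neg_smul_neg] at h3
      refine A.onRay_unique (H.half_ne hv') ?_ h3.1 ?_
      · rw [← h0, ← h2]
        rcases le_total (ρ / 2) (-t) with h | h
        · exact Or.inr (isometry_btw hγ (r := t) (s := -(ρ / 2)) (t := 0) (by linarith)
            (by linarith)).symm
        · exact Or.inl (isometry_btw hγ (r := -(ρ / 2)) (s := t) (t := 0) (by linarith)
            (by linarith)).symm
      · rw [h3.2, ← h0, hγ.dist_eq, Real.dist_eq, zero_sub, abs_neg, abs_of_neg ht]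
    · rw [ht, zero_smul, hf0, h0]
    · have h3 := hfv hv ht
      refine A.onRay_unique (H.half_ne hv) ?_ h3.1 ?_
      · rw [← h0, ← h1]
        rcases le_total (ρ / 2) t with h | h
        · exact Or.inr (isometry_btw hγ (by linarith) h)
        · exact Or.inl (isometry_btw hγ ht.le h)
      · rw [h3.2, ← h0, hγ.dist_eq, Real.dist_eq, zero_sub, abs_neg, abs_of_pos ht]
  have hiso : ∀ v, ‖v‖ = 1 → Isometry fun t : ℝ => f (t • v) := by
    intro v hv
    obtain ⟨γ, hγ, h0, h1, h2⟩ := H.exists_line A hv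
    have h3 := hline hv hγ h0 (h1 _ (by linarith) hlt) (h2 _ (by linarith) hlt)
    have h4 : (fun t : ℝ => f (t • v)) = γ := funext fun t => (h3 t).symm
    rw [h4]
    exact hγ
  have hall : ∀ γ : ℝ → M, Isometry γ → γ 0 = e 0 → ∃ v, ‖v‖ = 1 ∧ ∀ t, γ t = f (t • v) := by
    intro γ hγ h0
    obtain ⟨w0, hw0, hw1⟩ := H.surj (γ (ρ / 2)) (by
      rw [← h0, hγ.dist_eq, Real.dist_eq, zero_sub, abs_neg, abs_of_nonneg (by linarith)]
      exact hlt)
    have hw2 : ‖w0‖ = ρ / 2 := by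
      rw [← H.dist_eq w0 hw0, hw1, ← h0, hγ.dist_eq, Real.dist_eq, zero_sub, abs_neg,
        abs_of_nonneg (by linarith)]
    have hw00 : w0 ≠ 0 := by
      intro h
      rw [h, norm_zero] at hw2
      linarith
    obtain ⟨v, hv, hwv⟩ := hpolar w0 hw00
    rw [hw2] at hwv
    refine ⟨v, hv, fun t => ?_⟩
    have h1 : (fun t : ℝ => f (t • v)) = γ := by
      refine A.line_unique (hiso v hv) hγ (a := 0) (b := ρ / 2) (by linarith) ?_ ?_
      · simp only [zero_smul]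
        rw [hf0, h0]
      · rw [heq _ (by rw [← hwv]; exact hw0), ← hwv, hw1]
    exact (congrFun h1 t).symm
  refine ⟨f, ⟨?_, ?_⟩, heq, hiso, hf2, hall⟩
  · intro y y' h
    have hn : ‖y‖ = ‖y'‖ := by rw [← hf2, ← hf2, h]
    by_cases hy0 : y = 0
    · rw [hy0, norm_zero] at hn
      rw [hy0, norm_eq_zero.1 hn.symm]
    have hy0' : y' ≠ 0 := by
      intro h'
      rw [h', norm_zero] at hn
      exact hy0 (norm_eq_zero.1 hn)
    obtain ⟨v, hv, hyv⟩ := hpolar y hy0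
    obtain ⟨v', hv', hyv'⟩ := hpolar y' hy0'
    have hyp : 0 < ‖y‖ := norm_pos_iff.2 hy0
    have h1 := hfv hv hyp
    have h2 := hfv hv' hyp
    rw [← hyv] at h1
    rw [hn, ← hyv', ← h] at h2
    have hne : e 0 ≠ f y := by
      intro h'
      have := hf2 y
      rw [← h', dist_self] at this
      linarith
    have h3 : e ((ρ / 2) • v) = e ((ρ / 2) • v') := by
      refine A.onRay_unique hne (onRay_comm.1 h1.1) (onRay_comm.1 h2.1) ?_
      rw [H.dist_smul hv (by linarith) hlt, H.dist_smul hv' (by linarith) hlt]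
    have hlt' : ∀ {v : E}, ‖v‖ = 1 → ‖(ρ / 2) • v‖ < ρ := by
      intro v hv
      rw [norm_smul, hv, mul_one, Real.norm_of_nonneg (by linarith)]
      exact hlt
    have h4 := H.inj A (hlt' hv) (hlt' hv') h3
    have h5 : v = v' := smul_right_injective E hρ0 h4
    rw [hyv, hyv', hn, h5]
  · intro z
    by_cases hz : e 0 = z
    · exact ⟨0, by rw [hf0, hz]⟩
    obtain ⟨γ, hγ, h0, h1⟩ := A.exists_line hz
    obtain ⟨v, -, hv⟩ := hall γ hγ h0
    exact ⟨dist (e 0) z • v, by rw [← hv, h1]⟩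

end LocExp

/-- Isometries are linear in exponential coordinates. -/
theorem exists_linear {e e' : E → M} {ρ ρ' : ℝ} (H : LocExp e ρ) (H' : LocExp e' ρ')
    {f f' : E → M} (hf : Function.Bijective f) (hf' : Function.Bijective f')
    (he : ∀ v, ‖v‖ < ρ → f v = e v) (he' : ∀ v, ‖v‖ < ρ' → f' v = e' v)
    (hi : ∀ v, ‖v‖ = 1 → Isometry fun t : ℝ => f (t • v))
    (hall' : ∀ γ : ℝ → M, Isometry γ → γ 0 = e' 0 → ∃ v, ‖v‖ = 1 ∧ ∀ t, γ t = f' (t • v))
    (φ : M ≃ᵢ M) (hφ : φ (e 0) = e' 0) : ∃ L : E ≃ₗᵢ[ℝ] E, ∀ v, φ (f v) = f' (L v) := by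
  classical
  have hf0 : f 0 = e 0 := he 0 (by rw [norm_zero]; exact H.pos)
  have hf0' : f' 0 = e' 0 := he' 0 (by rw [norm_zero]; exact H'.pos)
  -- the map
  let F : E ≃ M := Equiv.ofBijective f hf
  let F' : E ≃ M := Equiv.ofBijective f' hf'
  let L0 : E ≃ E := F.trans (φ.toEquiv.trans F'.symm)
  have hL0 : ∀ v, f' (L0 v) = φ (f v) := fun v => F'.apply_symm_apply (φ (f v))
  have hL00 : L0 0 = 0 := by
    apply hf'.1
    rw [hL0, hf0, hφ, hf0']
  have hsm1 : ∀ v, ‖v‖ = 1 → ∀ t : ℝ, L0 (t • v) = t • L0 v := by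
    intro v hv t
    obtain ⟨w, hw, hwt⟩ := hall' (fun t => φ (f (t • v))) (φ.isometry.comp (hi v hv)) (by
      simp only [zero_smul]
      rw [hf0, hφ])
    have h1 : ∀ t : ℝ, L0 (t • v) = t • w := by
      intro t
      apply hf'.1
      rw [hL0]
      exact hwt t
    have h2 : L0 v = w := by
      have := h1 1
      rwa [one_smul, one_smul] at this
    rw [h1, h2]
  have hsm : ∀ (v : E) (t : ℝ), L0 (t • v) = t • L0 v := by
    intro v t
    by_cases hv : v = 0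
    · rw [hv, smul_zero, hL00, smul_zero]
    have hn : ‖v‖ ≠ 0 := norm_ne_zero_iff.2 hv
    have hu : ‖‖v‖⁻¹ • v‖ = 1 := by rw [norm_smul, norm_inv, norm_norm, inv_mul_cancel₀ hn]
    have h1 : v = ‖v‖ • (‖v‖⁻¹ • v) := by rw [smul_smul, mul_inv_cancel₀ hn, one_smul]
    have h2 := hsm1 _ hu
    have h3 : L0 v = ‖v‖ • L0 (‖v‖⁻¹ • v) := by
      conv_lhs => rw [h1]
      rw [h2]
    have h4 : L0 (t • v) = (t * ‖v‖) • L0 (‖v‖⁻¹ • v) := by
      conv_lhs => rw [h1, smul_smul]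
      rw [h2]
    rw [h4, h3, smul_smul]
  have hLi : Isometry L0 := by
    refine Isometry.of_dist_eq fun v w => ?_
    rw [dist_eq_norm, dist_eq_norm]
    have h1 := H'.inf (L0 v) (L0 w)
    have h2 := H.inf v w
    have hsmall : ∀ (r : ℝ), 0 < r → ∀ u : E, ∀ᶠ t in 𝓝[>] (0 : ℝ), ‖t • u‖ < r := by
      intro r hr u
      have hc : Tendsto (fun t : ℝ => ‖t • u‖) (𝓝 0) (𝓝 ‖(0 : ℝ) • u‖) :=
        ((continuous_id.smul continuous_const).norm).tendsto 0
      rw [zero_smul, norm_zero] at hc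
      exact (hc.eventually (gt_mem_nhds hr)).filter_mono nhdsWithin_le_nhds
    have h3 : (fun t : ℝ => dist (e' (t • L0 v)) (e' (t • L0 w)) / t)
        =ᶠ[𝓝[>] 0] fun t : ℝ => dist (e (t • v)) (e (t • w)) / t := by
      filter_upwards [hsmall ρ H.pos v, hsmall ρ H.pos w, hsmall ρ' H'.pos (L0 v),
        hsmall ρ' H'.pos (L0 w)] with t t1 t2 t3 t4
      rw [← he' _ t3, ← he' _ t4, ← he _ t1, ← he _ t2, ← hsm, ← hsm, hL0, hL0, φ.dist_eq]
    exact tendsto_nhds_unique (h1.congr' h3) h2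
  let L1 : E ≃ᵢ E := ⟨L0, hLi⟩
  refine ⟨L1.toRealLinearIsometryEquivOfMapZero hL00, fun v => ?_⟩
  rw [IsometryEquiv.coe_toRealLinearIsometryEquivOfMapZero]
  exact (hL0 v).symm

end Pool.Agent.Work.MP_3b24f6_gt.S
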