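import Pool.Agent.Work.MP_3b24f6_gt.S.Proper

set_option autoImplicit false

/-!
Block B2, first half: every distance occurs, every pair of points extends at either end.
-/

open Set Filter Topology Metric

namespace Pool.Agent.Work.MP_3b24f6_gt.S

variable {M : Type*} [MetricSpace M]

theorem exists_dist_gt [ProperSpace M] [NoncompactSpace M] (o : M) (R : ℝ) :
    ∃ q : M, R < dist o q := by
  by_contra h
  push Not at h
  have h1 : (univ : Set M) ⊆ closedBall o R := fun q _ => by
    rw [mem_closedBall, dist_comm]; exact h q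
  have h2 : IsCompact (univ : Set M) :=
    (isCompact_closedBall o R).of_isClosed_subset isClosed_univ h1
  exact noncompact_univ M h2

theorem exists_dist_eq [ProperSpace M] [NoncompactSpace M] (hI : Inter M) (o : M) {R : ℝ}
    (hR : 0 ≤ R) : ∃ q : M, dist o q = R := by
  obtain ⟨q, hq⟩ := exists_dist_gt o R
  obtain ⟨y, hy, _⟩ := exists_inter hI o q hR hq.le
  exact ⟨y, hy⟩

/-- Extension at the left end. -/
theorem exists_extend_left [ProperSpace M] [NoncompactSpace M] (hI : Inter M) (h2 : TwoPt M)
    (x z : M) {R : ℝ} (hR : 0 ≤ R) : ∃ w : M, dist w x = R ∧ dist w z = R + dist x z := by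
  obtain ⟨q, hq⟩ := exists_dist_eq hI x (R := R + dist x z) (by positivity)
  obtain ⟨m, hm1, hm2⟩ := exists_inter hI x q hR (by rw [hq]; linarith [dist_nonneg (x := x) (y := z)])
  obtain ⟨φ, h1, h3⟩ := h2 m q x z (by rw [hm2, hq]; ring)
  refine ⟨φ x, ?_, ?_⟩
  · calc dist (φ x) x = dist (φ x) (φ m) := by rw [h1]
      _ = R := by rw [φ.dist_eq, hm1]
  · calc dist (φ x) z = dist (φ x) (φ q) := by rw [h3]
      _ = R + dist x z := by rw [φ.dist_eq, hq]

/-- Extension at the right end. -/
theorem exists_extend_right [ProperSpace M] [NoncompactSpace M] (hI : Inter M) (h2 : TwoPt M)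
    (x z : M) {R : ℝ} (hR : 0 ≤ R) : ∃ w : M, dist z w = R ∧ dist x w = dist x z + R := by
  obtain ⟨w, h1, h3⟩ := exists_extend_left hI h2 z x hR
  exact ⟨w, by rw [dist_comm]; exact h1, by rw [dist_comm, h3, dist_comm z x]; ring⟩

end Pool.Agent.Work.MP_3b24f6_gt.S
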