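import Mathlib

set_option autoImplicit false

/-!
Block B1: intermediate points, properness, minimal segments; metric half of B2 (extension).
-/

open Set Filter Topology Metric
open Bundle
open scoped Manifold ContDiff ENNReal

namespace Pool.Agent.Work.MP_3b24f6_gt.S

/-- Approximate intermediate points. -/
def Inter (M : Type*) [MetricSpace M] : Prop :=
  ∀ x z : M, ∀ a : ℝ, 0 ≤ a → a ≤ dist x z → ∀ ε : ℝ, 0 < ε →
    ∃ y, dist x y = a ∧ dist y z ≤ dist x z - a + ε

/-- Two-point homogeneity. -/
def TwoPt (M : Type*) [MetricSpace M] : Prop :=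
  ∀ p q p' q' : M, dist p q = dist p' q' → ∃ φ : M ≃ᵢ M, φ p = p' ∧ φ q = q'

/-- B1a: a Riemannian manifold has approximate intermediate points. -/
theorem inter_of_riemannian (d : ℕ) (M : Type*) [MetricSpace M]
    [ChartedSpace (EuclideanSpace ℝ (Fin d)) M] [IsManifold (𝓡 d) ∞ M]
    [RiemannianBundle (fun x : M => TangentSpace (𝓡 d) x)]
    [IsContMDiffRiemannianBundle (𝓡 d) ∞ (EuclideanSpace ℝ (Fin d))
      (fun x : M => TangentSpace (𝓡 d) x)]
    [IsRiemannianManifold (𝓡 d) M] : Inter M := by
  intro x z a ha0 haD ε hε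
  have hlt : Manifold.riemannianEDist (𝓡 d) x z < ENNReal.ofReal (dist x z + ε) := by
    rw [← IsRiemannianManifold.out (I := 𝓡 d) x z, edist_dist]
    rw [ENNReal.ofReal_lt_ofReal_iff (by positivity)]
    linarith
  obtain ⟨γ, h0, h1, hγ, hL⟩ := Manifold.exists_lt_of_riemannianEDist_lt hlt
  have hc : ContinuousOn (fun t => dist x (γ t)) (Icc 0 1) :=
    (continuous_const.dist continuous_id).comp_continuousOn hγ.continuousOn
  have hmem : a ∈ Icc (dist x (γ 0)) (dist x (γ 1)) := by
    rw [h0, h1, dist_self]; exact ⟨ha0, haD⟩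
  obtain ⟨t, ht, hta⟩ := intermediate_value_Icc (zero_le_one) hc hmem
  refine ⟨γ t, hta, ?_⟩
  have e1 : edist x (γ t) ≤ Manifold.pathELength (𝓡 d) γ 0 t := by
    rw [IsRiemannianManifold.out (I := 𝓡 d) x (γ t)]
    exact Manifold.riemannianEDist_le_pathELength (hγ.mono (Icc_subset_Icc le_rfl ht.2)) h0 rfl ht.1
  have e2 : edist (γ t) z ≤ Manifold.pathELength (𝓡 d) γ t 1 := by
    rw [IsRiemannianManifold.out (I := 𝓡 d) (γ t) z]
    exact Manifold.riemannianEDist_le_pathELength (hγ.mono (Icc_subset_Icc ht.1 le_rfl)) rfl h1 ht.2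
  have e3 : Manifold.pathELength (𝓡 d) γ 0 t + Manifold.pathELength (𝓡 d) γ t 1
      = Manifold.pathELength (𝓡 d) γ 0 1 := Manifold.pathELength_add ht.1 ht.2
  have e4 : edist x (γ t) + edist (γ t) z < ENNReal.ofReal (dist x z + ε) :=
    lt_of_le_of_lt ((add_le_add e1 e2).trans e3.le) hL
  rw [edist_dist, edist_dist, ← ENNReal.ofReal_add dist_nonneg dist_nonneg,
    ENNReal.ofReal_lt_ofReal_iff (by positivity)] at e4
  simp only at hta
  linarith

section metric

variable {M : Type*} [MetricSpace M]

/-- B1b: properness. -/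
theorem proper_of_inter [LocallyCompactSpace M] (hI : Inter M) (h2 : TwoPt M) :
    ProperSpace M := by
  rcases isEmpty_or_nonempty M with hM | ⟨⟨o⟩⟩
  · exact ⟨fun x => (hM.false x).elim⟩
  -- a uniform radius
  obtain ⟨r, hr0, hr⟩ : ∃ r : ℝ, 0 < r ∧ ∀ x : M, IsCompact (closedBall x r) := by
    obtain ⟨K, hK, hKo⟩ := exists_compact_mem_nhds o
    obtain ⟨r, hr, hrK⟩ := Metric.nhds_basis_closedBall.mem_iff.mp hKo
    refine ⟨r, hr, fun x => ?_⟩
    obtain ⟨φ, hφ, _⟩ := h2 o o x x (by simp)
    have h1 : IsCompact (closedBall o r) := hK.of_isClosed_subset isClosed_closedBall hrK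
    have h3 := h1.image φ.continuous
    rwa [IsometryEquiv.image_closedBall, hφ] at h3
  -- induction on the radius
  have step : ∀ x : M, ∀ R : ℝ, 0 ≤ R → IsCompact (closedBall x R) →
      IsCompact (closedBall x (R + r / 2)) := by
    intro x R hR hc
    obtain ⟨t, htfin, ht⟩ : ∃ t : Set M, t.Finite ∧ closedBall x R ⊆ ⋃ y ∈ t, ball y (r / 4) := by
      obtain ⟨t, _, htf, hcov⟩ := hc.finite_cover_balls (e := r / 4) (by positivity)
      exact ⟨t, htf, hcov⟩
    have hcomp : IsCompact (⋃ y ∈ t, closedBall y r) :=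
      htfin.isCompact_biUnion fun y _ => hr y
    refine hcomp.of_isClosed_subset isClosed_closedBall ?_
    intro z hz
    rw [mem_closedBall, dist_comm] at hz
    obtain ⟨y', hy'1, hy'2⟩ : ∃ y', dist x y' ≤ R ∧ dist y' z ≤ 3 * r / 4 := by
      rcases le_or_gt (dist x z) R with h | h
      · exact ⟨z, h, by rw [dist_self]; positivity⟩
      · obtain ⟨y', h1, h3⟩ := hI x z R hR h.le (r / 4) (by positivity)
        exact ⟨y', h1.le, by linarith⟩
    have hy'm : y' ∈ closedBall x R := by rw [mem_closedBall, dist_comm]; exact hy'1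
    obtain ⟨y, hyt, hyy'⟩ := mem_iUnion₂.mp (ht hy'm)
    rw [mem_ball] at hyy'
    refine mem_iUnion₂.mpr ⟨y, hyt, ?_⟩
    rw [mem_closedBall]
    calc dist z y ≤ dist z y' + dist y' y := dist_triangle _ _ _
      _ ≤ r := by rw [dist_comm z y']; linarith
  have hall : ∀ x : M, ∀ n : ℕ, IsCompact (closedBall x (n * (r / 2))) := by
    intro x n
    induction n with
    | zero => simp
    | succ n ih =>
      have := step x (n * (r / 2)) (by positivity) ih
      convert this using 2
      push_cast; ring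
  refine ⟨fun x R => ?_⟩
  obtain ⟨n, hn⟩ := exists_nat_ge (R / (r / 2))
  refine (hall x n).of_isClosed_subset isClosed_closedBall (closedBall_subset_closedBall ?_)
  rwa [div_le_iff₀ (by positivity)] at hn

/-- B1c: exact intermediate points. -/
theorem exists_inter [ProperSpace M] (hI : Inter M) (x z : M) {a : ℝ} (ha0 : 0 ≤ a)
    (haD : a ≤ dist x z) : ∃ y, dist x y = a ∧ dist y z = dist x z - a := by
  have hne : (sphere x a).Nonempty := by
    obtain ⟨y, hy, _⟩ := hI x z a ha0 haD 1 one_pos
    exact ⟨y, by rw [mem_sphere, dist_comm]; exact hy⟩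
  obtain ⟨y, hy, hmin⟩ := (isCompact_sphere x a).exists_isMinOn hne
    (f := fun y => dist y z) (by fun_prop)
  rw [mem_sphere, dist_comm] at hy
  refine ⟨y, hy, le_antisymm ?_ ?_⟩
  · refine le_of_forall_pos_le_add fun ε hε => ?_
    obtain ⟨y', h1, h2⟩ := hI x z a ha0 haD ε hε
    have : dist y z ≤ dist y' z := hmin (by rw [mem_sphere, dist_comm]; exact h1)
    linarith
  · have := dist_triangle x y z
    linarith

/-- Partial minimal segments on finite sets of times. -/
theorem exists_segment_finset [ProperSpace M] (hI : Inter M) (x z : M) (F : Finset ℝ)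
    (hF : ∀ t ∈ F, 0 ≤ t ∧ t ≤ dist x z) :
    ∃ y : ℝ → M, (∀ t ∈ F, dist x (y t) = t ∧ dist (y t) z = dist x z - t) ∧
      ∀ s ∈ F, ∀ t ∈ F, dist (y s) (y t) = |s - t| := by
  classical
  induction F using Finset.induction_on_max with
  | empty => exact ⟨fun _ => x, by simp, by simp⟩
  | insert a F hmax ih =>
    obtain ⟨y, hy1, hy2⟩ := ih (fun t ht => hF t (Finset.mem_insert_of_mem ht))
    have haF := hF a (Finset.mem_insert_self a F)
    -- the last point
    obtain ⟨y', hy'x, hy'z, hy'F⟩ : ∃ y' : M, dist x y' = a ∧ dist y' z = dist x z - a ∧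
        ∀ s ∈ F, dist (y s) y' ≤ a - s := by
      rcases F.eq_empty_or_nonempty with he | hne
      · obtain ⟨y', h1, h2⟩ := exists_inter hI x z haF.1 haF.2
        exact ⟨y', h1, h2, by simp [he]⟩
      · set s₀ := F.max' hne
        have hs₀ : s₀ ∈ F := F.max'_mem hne
        have hs₀a : s₀ < a := hmax s₀ hs₀
        obtain ⟨h1, h2⟩ := hy1 s₀ hs₀
        obtain ⟨y', h3, h4⟩ := exists_inter hI (y s₀) z (a := a - s₀) (by linarith)
          (by rw [h2]; linarith [haF.2])
        rw [h2] at h4
        have h5 : dist y' z = dist x z - a := by linarith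
        have h6 : dist x y' = a := by
          have := dist_triangle x (y s₀) y'
          have := dist_triangle x y' z
          linarith
        refine ⟨y', h6, h5, fun s hs => ?_⟩
        have hss : s ≤ s₀ := F.le_max' s hs
        have h7 := hy2 s hs s₀ hs₀
        rw [abs_of_nonpos (by linarith)] at h7
        have := dist_triangle (y s) (y s₀) y'
        linarith
    have haN : ∀ t ∈ F, t ≠ a := fun t ht => (hmax t ht).ne
    refine ⟨Function.update y a y', ?_, ?_⟩
    · intro t ht
      rcases Finset.mem_insert.mp ht with h | h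
      · rw [h, Function.update_self]; exact ⟨hy'x, hy'z⟩
      · rw [Function.update_of_ne (haN t h)]; exact hy1 t h
    · have key : ∀ s ∈ F, dist (y s) y' = a - s := by
        intro s hs
        refine le_antisymm (hy'F s hs) ?_
        have h1 := (hy1 s hs).1
        have := dist_triangle x (y s) y'
        linarith
      intro s hs t ht
      rcases Finset.mem_insert.mp hs with hs' | hs'
      · rcases Finset.mem_insert.mp ht with ht' | ht'
        · rw [hs', ht']; simp
        · rw [hs', Function.update_self, Function.update_of_ne (haN t ht'), dist_comm,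
            key t ht', abs_of_pos (by linarith [hmax t ht'])]
      · rcases Finset.mem_insert.mp ht with ht' | ht'
        · rw [ht', Function.update_self, Function.update_of_ne (haN s hs'),
            key s hs', abs_of_neg (by linarith [hmax s hs'])]
          ring
        · rw [Function.update_of_ne (haN s hs'), Function.update_of_ne (haN t ht')]
          exact hy2 s hs' t ht'

/-- B1d: minimal segments. -/
theorem exists_segment [ProperSpace M] (hI : Inter M) (x z : M) :
    ∃ γ : ℝ → M, γ 0 = x ∧ γ (dist x z) = z ∧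
      ∀ s ∈ Icc 0 (dist x z), ∀ t ∈ Icc 0 (dist x z), dist (γ s) (γ t) = |s - t| := by
  classical
  set D := dist x z with hD
  have hD0 : 0 ≤ D := dist_nonneg
  -- the compact product
  let P : Set (Icc (0:ℝ) D → M) := Set.pi univ fun _ => closedBall x D
  have hP : IsCompact P := isCompact_univ_pi fun _ => isCompact_closedBall x D
  let C : Icc (0:ℝ) D × Icc (0:ℝ) D → Set (Icc (0:ℝ) D → M) := fun p =>
    {γ | dist (γ p.1) (γ p.2) = |(p.1 : ℝ) - p.2| ∧ dist x (γ p.1) = p.1 ∧
      dist (γ p.1) z = D - p.1}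
  have hCcl : ∀ p, IsClosed (C p) := by
    intro p
    refine IsClosed.inter (isClosed_eq (by fun_prop) continuous_const)
      (IsClosed.inter (isClosed_eq (by fun_prop) continuous_const)
        (isClosed_eq (by fun_prop) continuous_const))
  have hne : (P ∩ ⋂ p, C p).Nonempty := by
    refine hP.inter_iInter_nonempty C hCcl fun u => ?_
    let F : Finset ℝ := (u.image fun p => (p.1 : ℝ)) ∪ (u.image fun p => (p.2 : ℝ))
    obtain ⟨y, hy1, hy2⟩ := exists_segment_finset hI x z F (by
      intro t ht
      simp only [F, Finset.mem_union, Finset.mem_image] at ht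
      rcases ht with ⟨p, _, rfl⟩ | ⟨p, _, rfl⟩
      · exact p.1.2
      · exact p.2.2)
    refine ⟨fun t => if (t : ℝ) ∈ F then y t else x, ?_, ?_⟩
    · intro t _
      rw [mem_closedBall, dist_comm]
      show dist x (if (t : ℝ) ∈ F then y t else x) ≤ D
      split_ifs with h
      · rw [(hy1 t h).1]; exact t.2.2
      · rw [dist_self]; exact hD0
    · simp only [mem_iInter]
      intro p hp
      have h1 : (p.1 : ℝ) ∈ F := Finset.mem_union_left _ (Finset.mem_image_of_mem _ hp)
      have h2 : (p.2 : ℝ) ∈ F := Finset.mem_union_right _ (Finset.mem_image_of_mem _ hp)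
      simp only [C, mem_ofPred_eq, h1, h2, if_true]
      exact ⟨hy2 _ h1 _ h2, (hy1 _ h1).1, (hy1 _ h1).2⟩
  obtain ⟨γ, _, hγ⟩ := hne
  simp only [mem_iInter] at hγ
  refine ⟨fun t => γ ⟨max 0 (min t D), by constructor <;> simp [hD0]⟩, ?_, ?_, ?_⟩
  · have h := (hγ (⟨0, by simp [hD0]⟩, ⟨0, by simp [hD0]⟩)).2.1
    have h1 : dist x (γ ⟨0, by simp [hD0]⟩) = 0 := h
    have h2 := (dist_eq_zero.mp h1).symm
    simpa [hD0] using h2
  · have h := (hγ (⟨D, by simp [hD0]⟩, ⟨D, by simp [hD0]⟩)).2.2
    have h1 : dist (γ ⟨D, by simp [hD0]⟩) z = 0 := by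
      have : dist (γ ⟨D, by simp [hD0]⟩) z = D - D := h
      rw [this, sub_self]
    have h2 := dist_eq_zero.mp h1
    simpa [hD0] using h2
  · intro s hs t ht
    have h := (hγ (⟨s, hs⟩, ⟨t, ht⟩)).1
    have e1 : max 0 (min s D) = s := by rw [min_eq_left hs.2, max_eq_right hs.1]
    have e2 : max 0 (min t D) = t := by rw [min_eq_left ht.2, max_eq_right ht.1]
    simp only [e1, e2]
    exact h

end metric

end Pool.Agent.Work.MP_3b24f6_gt.S
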