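import Pool.Agent.Work.MP_3b24f6_gt.S.ModelA
import Pool.Agent.Work.MP_3b24f6_gt.S.Proper
import Pool.Agent.Work.MP_3b24f6_gt.S.Extend
import Pool.Agent.Work.MP_3b24f6_gt.S.ExpGlobal

/-! FROZ, block B2: the metric axioms and the global exponential map from the local geometry. -/

set_option autoImplicit false

open Set Filter Topology Metric
open scoped InnerProductSpace ContDiff

namespace Pool.Agent.Work.MP_3b24f6_gt.S

open Ax

section norm
variable {E : Type*} [NormedAddCommGroup E] [InnerProductSpace ℝ E] [FiniteDimensional ℝ E]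

/-- A linear map which normalises a scalar product. -/
theorem exists_normalising (b : E →L[ℝ] E →L[ℝ] ℝ) (hs : ∀ u v, b u v = b v u)
    (hp : ∀ u, u ≠ 0 → 0 < b u u) : ∃ T : E ≃L[ℝ] E, ∀ u v, b (T u) (T v) = ⟪u, v⟫_ℝ := by
  classical
  let B : LinearMap.BilinForm ℝ E := LinearMap.mk₂ ℝ (fun u v => b u v)
    (fun u u' v => by simp) (fun c u v => by simp) (fun u v v' => by simp)
    (fun c u v => by simp)
  have hB : ∀ u v, B u v = b u v := fun u v => rfl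
  have hsymm : LinearMap.IsSymm B := ⟨fun u v => by
    simp only [hB, RingHom.id_apply]; exact hs u v⟩
  obtain ⟨v, hv⟩ := LinearMap.BilinForm.exists_orthogonal_basis hsymm
  have hne : ∀ i, v i ≠ 0 := fun i => v.ne_zero i
  have hpos : ∀ i, 0 < b (v i) (v i) := fun i => hp _ (hne i)
  have hu : ∀ i, IsUnit ((Real.sqrt (b (v i) (v i)))⁻¹) := fun i =>
    (inv_ne_zero (Real.sqrt_ne_zero'.2 (hpos i))).isUnit
  let v' := v.isUnitSMul hu
  have hv' : ∀ i, v' i = (Real.sqrt (b (v i) (v i)))⁻¹ • v i := fun i => v.isUnitSMul_apply hu i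
  let o := (stdOrthonormalBasis ℝ E).toBasis
  let T : E ≃ₗ[ℝ] E := o.equiv v' (Equiv.refl _)
  have hT : ∀ i, T (o i) = v' i := fun i => by
    simp [T]
  refine ⟨T.toContinuousLinearEquiv, ?_⟩
  have key : B.compl₁₂ (T : E →ₗ[ℝ] E) (T : E →ₗ[ℝ] E) = innerₗ E := by
    refine LinearMap.ext_basis o o fun i j => ?_
    simp only [LinearMap.compl₁₂_apply, LinearEquiv.coe_coe, innerₗ_apply_apply]
    rw [hT, hT, hB, hv', hv']
    have ho : ⟪o i, o j⟫_ℝ = if i = j then 1 else 0 := by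
      simp only [o, OrthonormalBasis.coe_toBasis]
      exact (orthonormal_iff_ite.1 (stdOrthonormalBasis ℝ E).orthonormal) i j
    rw [ho]
    by_cases hij : i = j
    · subst hij
      rw [if_pos rfl]
      simp only [map_smul, smul_apply, smul_eq_mul]
      have h1 := Real.mul_self_sqrt (hpos i).le
      have h2 : Real.sqrt (b (v i) (v i)) ≠ 0 := Real.sqrt_ne_zero'.2 (hpos i)
      field_simp
      nlinarith [h1]
    · rw [if_neg hij]
      have h0 : b (v i) (v j) = 0 := hv hij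
      simp [h0]
  intro u w
  have := congrArg (fun F : E →ₗ[ℝ] E →ₗ[ℝ] ℝ => F u w) key
  simpa [hB] using this

end norm

section ax
variable {M : Type*} [MetricSpace M]
variable {E : Type*} [NormedAddCommGroup E] [InnerProductSpace ℝ E]

theorem ax_of [ProperSpace M] [NoncompactSpace M] (hI : Inter M) (h2 : TwoPt M) {e : E → M}
    {ρ : ℝ} (H : LocExp e ρ)
    (hinj : ∀ v w, ‖v‖ < ρ → ‖w‖ < ρ → e v = e w → v = w)
    (hbtw : ∀ v, ‖v‖ < ρ → ∀ z, Btw (e 0) z (e v) → ∃ s ∈ Icc (0 : ℝ) 1, z = e (s • v)) :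
    Ax M where
  btw := fun x y s hs hsd => by
    obtain ⟨z, h1, h3⟩ := exists_inter hI x y hs hsd
    exact ⟨z, h1, h3⟩
  hom := h2
  unb := fun x R => by
    obtain ⟨y, hy⟩ := exists_dist_gt x R
    exact ⟨y, hy.le⟩
  nb := by
    refine ⟨ρ, H.pos, ?_⟩
    intro a b c c' hab h h' hd hlt
    obtain ⟨φ, hφ, -⟩ := h2 a a (e 0) (e 0) (by simp)
    have k1 := h.map φ.isometry
    have k2 := h'.map φ.isometry
    rw [hφ] at k1 k2
    have hdc : dist a c = dist a c' := by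
      unfold Btw at h h'
      linarith
    have d1 : dist (e 0) (φ c) = dist a c := by rw [← hφ, φ.dist_eq]
    have d2 : dist (e 0) (φ c') = dist a c := by rw [← hφ, φ.dist_eq, hdc]
    have d3 : dist (e 0) (φ b) = dist a b := by rw [← hφ, φ.dist_eq]
    obtain ⟨v, hv, hvc⟩ := H.surj (φ c) (by rw [d1]; exact hlt)
    obtain ⟨v', hv', hvc'⟩ := H.surj (φ c') (by rw [d2]; exact hlt)
    have n1 : ‖v‖ = dist a c := by rw [← H.dist_eq v hv, hvc, d1]
    have n2 : ‖v'‖ = dist a c := by rw [← H.dist_eq v' hv', hvc', d2]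
    rw [← hvc] at k1
    rw [← hvc'] at k2
    obtain ⟨s, hs, hs1⟩ := hbtw v hv _ k1
    obtain ⟨s', hs', hs1'⟩ := hbtw v' hv' _ k2
    have hnorm : ∀ u : E, ‖u‖ < ρ → ∀ s ∈ Icc (0 : ℝ) 1, ‖s • u‖ < ρ ∧ ‖s • u‖ = s * ‖u‖ := by
      intro u hu s hs
      have : ‖s • u‖ = s * ‖u‖ := by rw [norm_smul, Real.norm_of_nonneg hs.1]
      refine ⟨?_, this⟩
      rw [this]
      nlinarith [hs.2, norm_nonneg u]
    have m1 := hnorm v hv s hs
    have m2 := hnorm v' hv' s' hs'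
    have e1 : s * ‖v‖ = dist a b := by rw [← m1.2, ← H.dist_eq _ m1.1, ← hs1, d3]
    have e2 : s' * ‖v'‖ = dist a b := by rw [← m2.2, ← H.dist_eq _ m2.1, ← hs1', d3]
    rw [n1] at e1
    rw [n2] at e2
    have hac : dist a c ≠ 0 := by
      intro h0
      rw [h0, mul_zero] at e1
      linarith
    have hss : s = s' := mul_right_cancel₀ hac (e1.trans e2.symm)
    have hs0 : s ≠ 0 := by
      intro h0
      rw [h0, zero_mul] at e1
      linarith
    have e3 := hinj _ _ m1.1 m2.1 (hs1.symm.trans hs1')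
    rw [← hss] at e3
    have e4 : v = v' := smul_right_injective E hs0 e3
    have : φ c = φ c' := by rw [← hvc, ← hvc', e4]
    exact φ.injective this

end ax

section geo
open Pool.Agent.Work.MP_3b24f6_gt.Froz

variable {M : Type*} [MetricSpace M]
variable {E : Type*} [NormedAddCommGroup E] [InnerProductSpace ℝ E]
variable {U : Set E} {g : E → E →L[ℝ] E →L[ℝ] ℝ} {ι : E → M} {p₀ : E} {r ρ : ℝ}
  {X W : E × E → E}

theorem gnorm_normalising {T : E ≃L[ℝ] E} (hT : ∀ u v, g p₀ (T u) (T v) = ⟪u, v⟫_ℝ) (v : E) :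
    gnorm g p₀ (T v) = ‖v‖ := by
  unfold gnorm
  rw [hT, real_inner_self_eq_norm_sq, Real.sqrt_sq (norm_nonneg v)]

theorem locExp_of (hL : LocGeo M U g ι p₀ r ρ X W) {T : E ≃L[ℝ] E}
    (hT : ∀ u v, g p₀ (T u) (T v) = ⟪u, v⟫_ℝ) : LocExp (fun v => ι (X (p₀, T v))) ρ := by
  have hp : p₀ ∈ Metric.ball p₀ r := Metric.mem_ball_self hL.r_pos
  have hn : ∀ v, gnorm g p₀ (T v) = ‖v‖ := gnorm_normalising hT
  have hd : ∀ v, ‖v‖ < ρ → ∀ s ∈ Icc (0 : ℝ) 1, ∀ s' ∈ Icc (0 : ℝ) 1,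
      dist (ι (X (p₀, T (s • v)))) (ι (X (p₀, T (s' • v)))) = |s - s'| * ‖v‖ := by
    intro v hv s hs s' hs'
    rw [map_smul, map_smul, hL.dist_geod p₀ hp (T v) (by rw [hn]; exact hv) s
      ⟨by linarith [hs.1], hs.2⟩ s' ⟨by linarith [hs'.1], hs'.2⟩, hn]
  have h0 : (0 : ℝ) ∈ Icc (0 : ℝ) 1 := ⟨le_rfl, zero_le_one⟩
  have h1 : (1 : ℝ) ∈ Icc (0 : ℝ) 1 := ⟨zero_le_one, le_rfl⟩
  refine ⟨hL.ρ_pos, ?_, ?_, ?_, ?_⟩
  · intro v hv
    have := hd v hv 0 h0 1 h1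
    rw [zero_smul, one_smul] at this
    simpa using this
  · intro v hv s hs
    have k1 := hd v hv 0 h0 s hs
    have k2 := hd v hv s hs 1 h1
    have k3 := hd v hv 0 h0 1 h1
    rw [zero_smul] at k1 k3
    rw [one_smul] at k2 k3
    unfold Btw
    rw [k1, k2, k3, zero_sub, abs_neg, abs_of_nonneg hs.1, abs_sub_comm,
      abs_of_nonneg (sub_nonneg.2 hs.2), zero_sub, abs_neg, abs_one]
    ring
  · intro z hz
    simp only [map_zero, hL.zero p₀ hp] at hz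
    obtain ⟨v, hv, hvz⟩ := hL.surj p₀ hp z hz
    refine ⟨T.symm v, ?_, ?_⟩
    · rw [← hn, T.apply_symm_apply]
      exact hv
    · simp only [T.apply_symm_apply]
      exact hvz
  · intro v w
    have := hL.inf p₀ hp (T v) (T w)
    rw [← map_sub, hn] at this
    simpa only [map_smul] using this

theorem locExp_inj (hL : LocGeo M U g ι p₀ r ρ X W) (hι : InjOn ι U) {T : E ≃L[ℝ] E}
    (hT : ∀ u v, g p₀ (T u) (T v) = ⟪u, v⟫_ℝ) (v w : E) (hv : ‖v‖ < ρ) (hw : ‖w‖ < ρ)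
    (h : ι (X (p₀, T v)) = ι (X (p₀, T w))) : v = w := by
  have hp : p₀ ∈ Metric.ball p₀ r := Metric.mem_ball_self hL.r_pos
  have hn : ∀ v, gnorm g p₀ (T v) = ‖v‖ := gnorm_normalising hT
  have hv' : gnorm g p₀ (T v) < ρ := by rw [hn]; exact hv
  have hw' : gnorm g p₀ (T w) < ρ := by rw [hn]; exact hw
  have e1 : X (p₀, T v) = X (p₀, T w) :=
    hι (hL.mem p₀ hp _ (hL.small p₀ hp _ hv')) (hL.mem p₀ hp _ (hL.small p₀ hp _ hw')) h
  have e2 : T v = T w := by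
    rw [← hL.inv_left p₀ hp _ hv', e1, hL.inv_left p₀ hp _ hw']
  exact T.injective e2

theorem locExp_btw (hL : LocGeo M U g ι p₀ r ρ X W) {T : E ≃L[ℝ] E}
    (hT : ∀ u v, g p₀ (T u) (T v) = ⟪u, v⟫_ℝ) (v : E) (hv : ‖v‖ < ρ) (z : M)
    (h : Btw (ι (X (p₀, T 0))) z (ι (X (p₀, T v)))) :
    ∃ s ∈ Icc (0 : ℝ) 1, z = ι (X (p₀, T (s • v))) := by
  have hp : p₀ ∈ Metric.ball p₀ r := Metric.mem_ball_self hL.r_pos
  have hn : ∀ v, gnorm g p₀ (T v) = ‖v‖ := gnorm_normalising hT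
  have hd := (locExp_of hL hT).dist_eq v hv
  unfold Btw at h
  rw [hd, map_zero, hL.zero p₀ hp] at h
  obtain ⟨s, hs, hz⟩ := hL.between p₀ hp (T v) (by rw [hn]; exact hv) z (by rw [hn]; exact h)
  exact ⟨s, hs, by rw [map_smul]; exact hz⟩

/-- The global exponential map at `ι p₀`: `f` is `ι (X (p₀, T ·))` near `0`. -/
structure GExp (M : Type*) [MetricSpace M] (ι : E → M) (p₀ : E) (ρ : ℝ) (X : E × E → E)
    (T : E ≃L[ℝ] E) (f : E → M) : Prop where
  bij : Function.Bijective f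
  near : ∀ v, ‖v‖ < ρ → f v = ι (X (p₀, T v))
  zero : f 0 = ι p₀
  dist_zero : ∀ y, dist (ι p₀) (f y) = ‖y‖
  line : ∀ v, ‖v‖ = 1 → Isometry fun t : ℝ => f (t • v)
  all : ∀ γ : ℝ → M, Isometry γ → γ 0 = ι p₀ → ∃ v, ‖v‖ = 1 ∧ ∀ t, γ t = f (t • v)
  lin : ∀ φ : M ≃ᵢ M, φ (ι p₀) = ι p₀ → ∃ L : E ≃ₗᵢ[ℝ] E, ∀ v, φ (f v) = f (L v)

/-- Block B2, final form. -/
theorem exists_gexp [FiniteDimensional ℝ E] [ProperSpace M] [NoncompactSpace M] (hI : Inter M)
    (h2 : TwoPt M) (hM : MetModel M U g ι) (hL : LocGeo M U g ι p₀ r ρ X W) :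
    Ax M ∧ ∃ T : E ≃L[ℝ] E, (∀ u v, g p₀ (T u) (T v) = ⟪u, v⟫_ℝ) ∧
      ∃ f : E → M, GExp M ι p₀ ρ X T f := by
  have hp : p₀ ∈ Metric.ball p₀ r := Metric.mem_ball_self hL.r_pos
  have hpU : p₀ ∈ U := hL.base hp
  obtain ⟨T, hT⟩ := exists_normalising (g p₀) (fun u v => hM.met.symm p₀ hpU u v)
    (fun u hu => hM.met.pos p₀ hpU u hu)
  have H := locExp_of hL hT
  have A : Ax M := ax_of hI h2 H (locExp_inj hL hM.inj hT) (locExp_btw hL hT)
  obtain ⟨f, hf1, hf2, hf3, hf4, hf5⟩ := H.exists_exp A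
  have e0 : ι (X (p₀, T 0)) = ι p₀ := by rw [map_zero, hL.zero p₀ hp]
  simp only [e0] at hf4 hf5
  refine ⟨A, T, hT, f, hf1, hf2, ?_, hf4, hf3, hf5, fun φ hφ => ?_⟩
  · rw [hf2 0 (by rw [norm_zero]; exact H.pos)]
    exact e0
  · exact exists_linear H H hf1 hf1 hf2 hf2 hf3 (by simpa only [e0] using hf5) φ
      (by simp only [e0]; exact hφ)

end geo

end Pool.Agent.Work.MP_3b24f6_gt.S
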