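import Pool.Agent.Work.MP_3b24f6_gt.S.ModelA

set_option autoImplicit false
set_option maxSynthPendingDepth 3
set_option linter.unusedSectionVars false

open Set Filter Topology Metric
open scoped ContDiff

/-! The Christoffel map of a smooth metric. -/

namespace Pool.Agent.Work.MP_3b24f6_gt.Froz

noncomputable section

variable {E : Type*} [NormedAddCommGroup E] [NormedSpace ℝ E]

theorem RMet.contDiffAt {U : Set E} {g : E → E →L[ℝ] E →L[ℝ] ℝ} (hg : RMet U g) {x : E}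
    (hx : x ∈ U) : ContDiffAt ℝ ∞ g x :=
  hg.smooth.contDiffAt (hg.isOpen.mem_nhds hx)

theorem RMet.hasFDerivAt {U : Set E} {g : E → E →L[ℝ] E →L[ℝ] ℝ} (hg : RMet U g) {x : E}
    (hx : x ∈ U) : HasFDerivAt g (fderiv ℝ g x) x :=
  ((hg.contDiffAt hx).differentiableAt (by simp)).hasFDerivAt

theorem RMet.hasDerivAt {U : Set E} {g : E → E →L[ℝ] E →L[ℝ] ℝ} (hg : RMet U g)
    {c a b : ℝ → E} {c' a' b' : E} {t : ℝ} (hU : c t ∈ U)
    (hc : HasDerivAt c c' t) (ha : HasDerivAt a a' t) (hb : HasDerivAt b b' t) :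
    HasDerivAt (fun t => g (c t) (a t) (b t))
      (fderiv ℝ g (c t) c' (a t) (b t) + g (c t) a' (b t) + g (c t) (a t) b') t := by
  have h1 := ((hg.hasFDerivAt hU).comp_hasDerivAt t hc)
  have h2 := (h1.clm_apply ha).clm_apply hb
  refine h2.congr_deriv ?_
  simp

/-- Derivative of the symmetry of the metric. -/
theorem RMet.fderiv_symm {U : Set E} {g : E → E →L[ℝ] E →L[ℝ] ℝ} (hg : RMet U g) {x : E}
    (hx : x ∈ U) (u v w : E) : fderiv ℝ g x u v w = fderiv ℝ g x u w v := by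
  have h1 : HasFDerivAt (fun y => g y v w) (((fderiv ℝ g x).flip v).flip w) x := by
    have h := ((hg.hasFDerivAt hx).clm_apply (hasFDerivAt_const v x)).clm_apply
      (hasFDerivAt_const w x)
    refine h.congr_fderiv ?_
    ext u
    simp
  have h2 : HasFDerivAt (fun y => g y w v) (((fderiv ℝ g x).flip w).flip v) x := by
    have h := ((hg.hasFDerivAt hx).clm_apply (hasFDerivAt_const w x)).clm_apply
      (hasFDerivAt_const v x)
    refine h.congr_fderiv ?_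
    ext u
    simp
  have h3 : (fun y => g y v w) =ᶠ[𝓝 x] fun y => g y w v := by
    filter_upwards [hg.isOpen.mem_nhds hx] with y hy using hg.symm y hy v w
  have h4 := h1.unique (h2.congr_of_eventuallyEq h3)
  have h5 := congrArg (fun L : E →L[ℝ] ℝ => L u) h4
  simpa using h5

/-- Uniqueness of solutions of autonomous differential equations. -/
theorem ode_unique_on {X : Type*} [NormedAddCommGroup X] [NormedSpace ℝ X] {F : X → X}
    {W : Set X} (hW : IsOpen W) (hF : ContDiffOn ℝ 1 F W) {S : Set ℝ} (hS : IsOpen S)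
    (hS' : IsPreconnected S) {t₀ : ℝ} (ht₀ : t₀ ∈ S) {z₁ z₂ : ℝ → X}
    (h₁ : ∀ t ∈ S, z₁ t ∈ W ∧ HasDerivAt z₁ (F (z₁ t)) t)
    (h₂ : ∀ t ∈ S, z₂ t ∈ W ∧ HasDerivAt z₂ (F (z₂ t)) t) (h₀ : z₁ t₀ = z₂ t₀) :
    EqOn z₁ z₂ S := by
  have hloc : ∀ t ∈ S, z₁ t = z₂ t → z₁ =ᶠ[𝓝 t] z₂ := by
    intro t ht he
    have hc : ContDiffAt ℝ 1 F (z₁ t) := hF.contDiffAt (hW.mem_nhds (h₁ t ht).1)
    obtain ⟨K, s, hs, hK⟩ := hc.exists_lipschitzOnWith
    have hIoo : ∀ᶠ x in 𝓝 t, x ∈ S := hS.mem_nhds ht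
    have hs1 : ∀ᶠ x in 𝓝 t, z₁ x ∈ s := (h₁ t ht).2.continuousAt.eventually hs
    have hs2 : ∀ᶠ x in 𝓝 t, z₂ x ∈ s := by
      rw [he] at hs
      exact (h₂ t ht).2.continuousAt.eventually hs
    refine ODE_solution_unique_of_eventually (v := fun _ => F) (s := fun _ => s) (K := K)
      (Eventually.of_forall fun _ => hK) ?_ ?_ he
    · filter_upwards [hIoo, hs1] with x hx hx1 using ⟨(h₁ x hx).2, hx1⟩
    · filter_upwards [hIoo, hs2] with x hx hx2 using ⟨(h₂ x hx).2, hx2⟩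
  have hsub : S ⊆ {t | z₁ =ᶠ[𝓝 t] z₂} := by
    apply hS'.subset_of_closure_inter_subset
    · exact isOpen_iff_mem_nhds.mpr fun t ht => by
        exact (eventually_eventually_nhds.mpr ht)
    · exact ⟨t₀, ht₀, hloc t₀ ht₀ h₀⟩
    · rintro t ⟨ht1, ht2⟩
      apply hloc t ht2
      by_contra hne
      have hn : ∀ᶠ x in 𝓝 t, z₁ x ≠ z₂ x := by
        have h := ((h₁ t ht2).2.continuousAt.sub (h₂ t ht2).2.continuousAt)
        have h' : (fun x => z₁ x - z₂ x) t ≠ 0 := sub_ne_zero.mpr hne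
        filter_upwards [h.eventually_ne h'] with x hx
        exact sub_ne_zero.mp hx
      obtain ⟨y, hy1, hy2⟩ := mem_closure_iff_nhds.mp ht1 _ hn
      exact hy1 (Filter.EventuallyEq.eq_of_nhds hy2)
  intro t ht
  exact (hsub ht).eq_of_nhds

theorem ode_unique {X : Type*} [NormedAddCommGroup X] [NormedSpace ℝ X] {F : X → X} {W : Set X}
    (hW : IsOpen W) (hF : ContDiffOn ℝ 1 F W) {a b t₀ : ℝ} (ht₀ : t₀ ∈ Ioo a b) {z₁ z₂ : ℝ → X}
    (h₁ : ∀ t ∈ Ioo a b, z₁ t ∈ W ∧ HasDerivAt z₁ (F (z₁ t)) t)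
    (h₂ : ∀ t ∈ Ioo a b, z₂ t ∈ W ∧ HasDerivAt z₂ (F (z₂ t)) t) (h₀ : z₁ t₀ = z₂ t₀) :
    EqOn z₁ z₂ (Ioo a b) :=
  ode_unique_on hW hF isOpen_Ioo isPreconnected_Ioo ht₀ h₁ h₂ h₀

variable [FiniteDimensional ℝ E]

theorem RMet.exists_equiv {U : Set E} {g : E → E →L[ℝ] E →L[ℝ] ℝ} (hg : RMet U g) {x : E}
    (hx : x ∈ U) : ∃ e : E ≃L[ℝ] (E →L[ℝ] ℝ), (e : E →L[ℝ] (E →L[ℝ] ℝ)) = g x := by
  have hinj : Function.Injective (g x : E →ₗ[ℝ] (E →L[ℝ] ℝ)) := by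
    rw [← LinearMap.ker_eq_bot, LinearMap.ker_eq_bot']
    intro v hv
    by_contra hne
    have h1 := hg.pos x hx v hne
    have h2 : g x v = 0 := hv
    rw [h2] at h1
    simp at h1
  have hdim : Module.finrank ℝ E = Module.finrank ℝ (E →L[ℝ] ℝ) := by
    rw [← (LinearMap.toContinuousLinearMap (𝕜 := ℝ) (E := E) (F' := ℝ)).finrank_eq]
    exact (Subspace.dual_finrank_eq (K := ℝ) (V := E)).symm
  let e := (LinearMap.linearEquivOfInjective (g x : E →ₗ[ℝ] (E →L[ℝ] ℝ)) hinj hdim)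
  refine ⟨e.toContinuousLinearEquiv, ?_⟩
  ext v w
  rfl

/-- The lowered Christoffel symbols. -/
def chrisLow (g : E → E →L[ℝ] E →L[ℝ] ℝ) (y : E) : E →L[ℝ] E →L[ℝ] E →L[ℝ] ℝ :=
  (1 / 2 : ℝ) • (fderiv ℝ g y + (fderiv ℝ g y).flip -
    ((ContinuousLinearMap.flipₗᵢ ℝ E E ℝ).toContinuousLinearEquiv :
      (E →L[ℝ] E →L[ℝ] ℝ) →L[ℝ] (E →L[ℝ] E →L[ℝ] ℝ)).comp (fderiv ℝ g y).flip)

theorem chrisLow_apply (g : E → E →L[ℝ] E →L[ℝ] ℝ) (y x u v : E) :
    chrisLow g y x u v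
      = (1 / 2 : ℝ) * (fderiv ℝ g y x u v + fderiv ℝ g y u x v - fderiv ℝ g y v x u) := by
  simp [chrisLow]

/-- The Christoffel map. -/
def chris (g : E → E →L[ℝ] E →L[ℝ] ℝ) (y : E) : E →L[ℝ] E →L[ℝ] E :=
  (ContinuousLinearMap.compL ℝ E (E →L[ℝ] ℝ) E (g y).inverse).comp (chrisLow g y)

theorem chris_apply (g : E → E →L[ℝ] E →L[ℝ] ℝ) (y x u : E) :
    chris g y x u = (g y).inverse (chrisLow g y x u) := rfl

theorem g_chris {U : Set E} {g : E → E →L[ℝ] E →L[ℝ] ℝ} (hg : RMet U g) {y : E}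
    (hy : y ∈ U) (x u : E) : g y (chris g y x u) = chrisLow g y x u := by
  obtain ⟨e, he⟩ := hg.exists_equiv hy
  rw [chris_apply, ← he, ContinuousLinearMap.inverse_equiv]
  simp

theorem exists_chris {U : Set E} {g : E → E →L[ℝ] E →L[ℝ] ℝ} (hg : RMet U g) :
    ∃ Γ, IsChris U g Γ := by
  refine ⟨chris g, ?_, ?_, ?_⟩
  · -- smoothness
    have h1 : ContDiffOn ℝ ∞ (fderiv ℝ g) U := hg.smooth.fderiv_of_isOpen hg.isOpen (by simp)
    have h2 : ContDiffOn ℝ ∞ (fun y => (fderiv ℝ g y).flip) U :=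
      (ContinuousLinearMap.flipₗᵢ ℝ E E (E →L[ℝ] ℝ)).contDiff.comp_contDiffOn h1
    have h3 : ContDiffOn ℝ ∞ (chrisLow g) U := by
      unfold chrisLow
      exact ((h1.add h2).sub (contDiffOn_const.clm_comp h2)).const_smul _
    have h4 : ContDiffOn ℝ ∞ (fun y => (g y).inverse) U := by
      intro y hy
      obtain ⟨e, he⟩ := hg.exists_equiv hy
      have h1 : ContDiffAt ℝ ∞
          (ContinuousLinearMap.inverse (R := ℝ) (M := E) (M₂ := E →L[ℝ] ℝ)) (g y) := by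
        rw [← he]
        exact contDiffAt_map_inverse e
      exact h1.comp_contDiffWithinAt y (hg.smooth y hy)
    have h5 : ContDiffOn ℝ ∞
        (fun y => ContinuousLinearMap.compL ℝ E (E →L[ℝ] ℝ) E (g y).inverse) U :=
      (ContinuousLinearMap.compL ℝ E (E →L[ℝ] ℝ) E).contDiff.comp_contDiffOn h4
    exact h5.clm_comp h3
  · intro y hy u v
    obtain ⟨e, he⟩ := hg.exists_equiv hy
    apply e.injective
    have hc : ∀ z, e z = g y z := fun z => by rw [← he]; rfl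
    rw [hc, hc, g_chris hg hy, g_chris hg hy]
    ext w
    rw [chrisLow_apply, chrisLow_apply, hg.fderiv_symm hy w u v]
    ring
  · intro y hy x u v
    rw [g_chris hg hy, hg.symm y hy u, g_chris hg hy, chrisLow_apply, chrisLow_apply,
      hg.fderiv_symm hy v x u, hg.fderiv_symm hy x v u, hg.fderiv_symm hy u x v]
    ring

end

end Pool.Agent.Work.MP_3b24f6_gt.Froz
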