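import Pool.Agent.Work.MP_3b24f6_gt.ModelB

/-!
# Smooth domains of a manifold in a global chart
-/

set_option autoImplicit false

open Set Filter Topology Metric Module
open scoped ContDiff Manifold

namespace Pool.Agent.Work.MP_3b24f6_gt

noncomputable section

variable {E : Type*} [NormedAddCommGroup E] [InnerProductSpace ℝ E] [FiniteDimensional ℝ E]
  {M : Type*} [MetricSpace M] [ChartedSpace E M]

/-- A bounded domain of `M` with smooth boundary is a smooth domain in a global chart. -/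
theorem smoothDomain_preimage [ProperSpace M] (Ψ : E ≃ₜ M)
    (hΨ : ContMDiff 𝓘(ℝ, E) 𝓘(ℝ, E) ∞ Ψ) (hΨ' : ContMDiff 𝓘(ℝ, E) 𝓘(ℝ, E) ∞ Ψ.symm)
    {D : Set M} (hD : IsOpen D) (hb : Bornology.IsBounded D)
    (hfr : ∀ x ∈ frontier D, ∃ f : M → ℝ, ∃ U ∈ 𝓝 x,
      ContMDiffOn 𝓘(ℝ, E) 𝓘(ℝ, ℝ) ∞ f U ∧ mfderiv 𝓘(ℝ, E) 𝓘(ℝ, ℝ) f x ≠ 0 ∧
      ∀ y ∈ U, (y ∈ D ↔ f y < 0)) :
    SmoothDomain (Ψ ⁻¹' D) := by
  refine ⟨hD.preimage Ψ.continuous, ?_, ?_⟩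
  · have h1 : IsCompact (closure D) := hb.isCompact_closure
    have h2 : IsCompact (Ψ ⁻¹' closure D) := (Ψ.isCompact_preimage).2 h1
    exact h2.isBounded.subset (preimage_mono subset_closure)
  · intro y hy
    rw [← Ψ.preimage_frontier] at hy
    obtain ⟨f, U, hU, hf, hd, hDf⟩ := hfr (Ψ y) hy
    refine ⟨f ∘ Ψ, Ψ ⁻¹' U, Ψ.continuous.continuousAt.preimage_mem_nhds hU, ?_, ?_,
      fun z hz => hDf (Ψ z) hz⟩
    · rw [← contMDiffOn_iff_contDiffOn]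
      exact hf.comp (hΨ.contMDiffOn) (fun z hz => hz)
    · intro h0
      apply hd
      have hne : (∞ : WithTop ℕ∞) ≠ 0 := by simp
      have hfx : ContMDiffAt 𝓘(ℝ, E) 𝓘(ℝ, ℝ) ∞ f (Ψ y) := hf.contMDiffAt hU
      have h1 : MDifferentiableAt 𝓘(ℝ, E) 𝓘(ℝ, ℝ) f (Ψ y) := hfx.mdifferentiableAt hne
      have h2 : MDifferentiableAt 𝓘(ℝ, E) 𝓘(ℝ, E) Ψ y := hΨ.contMDiffAt.mdifferentiableAt hne
      have h3 : MDifferentiableAt 𝓘(ℝ, E) 𝓘(ℝ, E) Ψ.symm (Ψ y) :=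
        hΨ'.contMDiffAt.mdifferentiableAt hne
      have h4 : MDifferentiableAt 𝓘(ℝ, E) 𝓘(ℝ, ℝ) (f ∘ Ψ) (Ψ.symm (Ψ y)) := by
        rw [Ψ.symm_apply_apply]
        exact h1.comp y h2
      have h5 : mfderiv 𝓘(ℝ, E) 𝓘(ℝ, ℝ) ((f ∘ Ψ) ∘ Ψ.symm) (Ψ y)
          = (mfderiv 𝓘(ℝ, E) 𝓘(ℝ, ℝ) (f ∘ Ψ) (Ψ.symm (Ψ y))).comp
            (mfderiv 𝓘(ℝ, E) 𝓘(ℝ, E) Ψ.symm (Ψ y)) := mfderiv_comp _ h4 h3
      have h6 : (f ∘ Ψ) ∘ Ψ.symm = f := by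
        funext z
        simp
      have h7 : mfderiv 𝓘(ℝ, E) 𝓘(ℝ, ℝ) (f ∘ Ψ) (Ψ.symm (Ψ y)) = 0 := by
        rw [mfderiv_eq_fderiv, Ψ.symm_apply_apply]
        exact h0
      rw [h6, h7] at h5
      rw [h5]
      ext v
      rfl

end

end Pool.Agent.Work.MP_3b24f6_gt
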