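import Mathlib

set_option autoImplicit false

open Filter Topology Set
open scoped InnerProductSpace

/-! Infinitesimal generators of closed groups of linear isometries. -/

namespace Pool.Agent.Work.MP_3b24f6_gt.SG

variable {E : Type*} [NormedAddCommGroup E] [InnerProductSpace ℝ E] [FiniteDimensional ℝ E]

/-- A closed group of linear isometries. -/
structure IsGrp (K : Set (E →L[ℝ] E)) : Prop where
  one : (1 : E →L[ℝ] E) ∈ K
  mul : ∀ a ∈ K, ∀ b ∈ K, a * b ∈ K
  inv : ∀ a ∈ K, ∃ b ∈ K, a * b = 1 ∧ b * a = 1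
  closed : IsClosed K
  iso : ∀ a ∈ K, ∀ x, ‖a x‖ = ‖x‖

variable {K : Set (E →L[ℝ] E)}

omit [FiniteDimensional ℝ E] in
theorem IsGrp.norm_le (hK : IsGrp K) {a : E →L[ℝ] E} (ha : a ∈ K) : ‖a‖ ≤ 1 :=
  ContinuousLinearMap.opNorm_le_bound _ zero_le_one fun x => by rw [hK.iso a ha x, one_mul]

theorem IsGrp.compact (hK : IsGrp K) : IsCompact K := by
  have : ProperSpace (E →L[ℝ] E) := FiniteDimensional.proper ℝ (E →L[ℝ] E)
  refine Metric.isCompact_of_isClosed_isBounded hK.closed ?_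
  refine (Metric.isBounded_iff_subset_closedBall 0).2 ⟨1, fun a ha => ?_⟩
  simpa using hK.norm_le ha

omit [FiniteDimensional ℝ E] in
theorem IsGrp.pow (hK : IsGrp K) {a : E →L[ℝ] E} (ha : a ∈ K) (n : ℕ) : a ^ n ∈ K := by
  induction n with
  | zero => simpa using hK.one
  | succ n ih => rw [pow_succ]; exact hK.mul _ ih _ ha

theorem exp_add_smul (A : E →L[ℝ] E) (s t : ℝ) :
    NormedSpace.exp ((s + t) • A) = NormedSpace.exp (s • A) * NormedSpace.exp (t • A) := by
  let _ : NormedAlgebra ℚ (E →L[ℝ] E) := NormedAlgebra.restrictScalars ℚ ℝ _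
  have hc : Commute (s • A) (t • A) := ((Commute.refl A).smul_left s).smul_right t
  rw [← NormedSpace.exp_add_of_commute hc, ← add_smul]

/-- The powers of elements of `K` close to `1` converge to one-parameter groups. -/
theorem IsGrp.exp_mem (hK : IsGrp K) {a : ℕ → E →L[ℝ] E} (ha : ∀ n, a n ∈ K) {ε : ℕ → ℝ}
    (hε : ∀ n, 0 < ε n) (hε0 : Tendsto ε atTop (𝓝 0)) {A : E →L[ℝ] E}
    (hA : Tendsto (fun n => (ε n)⁻¹ • (a n - 1)) atTop (𝓝 A)) (s : ℝ) :
    NormedSpace.exp (s • A) ∈ K := by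
  wlog hs : 0 ≤ s generalizing s
  · have h1 := this (-s) (by linarith)
    obtain ⟨b, hb, h2, -⟩ := hK.inv _ h1
    have h3 : NormedSpace.exp (s • A) * NormedSpace.exp ((-s) • A) = 1 := by
      rw [← exp_add_smul]
      simp
    have h4 : NormedSpace.exp (s • A) = b := by
      calc NormedSpace.exp (s • A) = NormedSpace.exp (s • A) * (NormedSpace.exp ((-s) • A) * b) := by
            rw [h2, mul_one]
        _ = b := by rw [← mul_assoc, h3, one_mul]
    rw [h4]; exact hb
  -- the curve is continuous, hence bounded on compacts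
  have hcont : Continuous fun u : ℝ => NormedSpace.exp (u • A) := by
    have := (differentiable_exp_smul_const ℝ (𝔸 := E →L[ℝ] E) A).continuous
    exact this
  obtain ⟨B, hB⟩ := (isCompact_Icc (a := (0 : ℝ)) (b := s)).exists_bound_of_continuousOn
    (f := fun u : ℝ => NormedSpace.exp (u • A)) hcont.continuousOn
  have hB0 : 0 ≤ B := (norm_nonneg _).trans (hB 0 ⟨le_rfl, hs⟩)
  -- telescoping
  have key : ∀ n m : ℕ, (m : ℝ) * ε n ≤ s →
      ‖a n ^ m - NormedSpace.exp (((m : ℝ) * ε n) • A)‖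
        ≤ m * (B * ‖a n - NormedSpace.exp (ε n • A)‖) := by
    intro n m
    induction m with
    | zero => intro _; simp
    | succ m ih =>
      intro hm
      have hm' : (m : ℝ) * ε n ≤ s := by
        refine le_trans ?_ hm
        have := hε n
        push_cast
        nlinarith
      have h1 := ih hm'
      have h2 : NormedSpace.exp ((((m + 1 : ℕ) : ℝ) * ε n) • A)
          = NormedSpace.exp (ε n • A) * NormedSpace.exp (((m : ℝ) * ε n) • A) := by
        rw [← exp_add_smul]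
        congr 2
        push_cast
        ring
      have h3 : a n ^ (m + 1) - NormedSpace.exp ((((m + 1 : ℕ) : ℝ) * ε n) • A)
          = a n * (a n ^ m - NormedSpace.exp (((m : ℝ) * ε n) • A))
            + (a n - NormedSpace.exp (ε n • A)) * NormedSpace.exp (((m : ℝ) * ε n) • A) := by
        rw [h2, pow_succ']
        noncomm_ring
      rw [h3]
      have h4 : ‖NormedSpace.exp (((m : ℝ) * ε n) • A)‖ ≤ B :=
        hB _ ⟨by have := hε n; positivity, hm'⟩
      calc _ ≤ ‖a n * (a n ^ m - NormedSpace.exp (((m : ℝ) * ε n) • A))‖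
            + ‖(a n - NormedSpace.exp (ε n • A)) * NormedSpace.exp (((m : ℝ) * ε n) • A)‖ :=
              norm_add_le _ _
        _ ≤ 1 * (m * (B * ‖a n - NormedSpace.exp (ε n • A)‖))
            + ‖a n - NormedSpace.exp (ε n • A)‖ * B := by
              refine add_le_add ((norm_mul_le _ _).trans ?_) ((norm_mul_le _ _).trans ?_)
              · exact mul_le_mul (hK.norm_le (ha n)) h1 (norm_nonneg _) zero_le_one
              · exact mul_le_mul_of_nonneg_left h4 (norm_nonneg _)
        _ = ((m + 1 : ℕ) : ℝ) * (B * ‖a n - NormedSpace.exp (ε n • A)‖) := by push_cast; ring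
  -- number of steps
  set m : ℕ → ℕ := fun n => ⌊s / ε n⌋₊ with hm
  have hm1 : ∀ n, (m n : ℝ) * ε n ≤ s := fun n => by
    have := Nat.floor_le (div_nonneg hs (hε n).le)
    calc (m n : ℝ) * ε n ≤ s / ε n * ε n := mul_le_mul_of_nonneg_right this (hε n).le
      _ = s := div_mul_cancel₀ _ (hε n).ne'
  have hm2 : ∀ n, s - ε n ≤ (m n : ℝ) * ε n := fun n => by
    have h1 := (Nat.lt_floor_add_one (s / ε n)).le
    have h2 : s ≤ ((m n : ℝ) + 1) * ε n := by
      calc s = s / ε n * ε n := (div_mul_cancel₀ _ (hε n).ne').symm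
        _ ≤ _ := mul_le_mul_of_nonneg_right h1 (hε n).le
    linarith
  have hm3 : Tendsto (fun n => (m n : ℝ) * ε n) atTop (𝓝 s) := by
    refine tendsto_of_tendsto_of_tendsto_of_le_of_le ?_ tendsto_const_nhds hm2 hm1
    simpa using tendsto_const_nhds.sub hε0
  -- `a n - exp (ε n A) = o(ε n)`
  have hder : Tendsto (fun n => (ε n)⁻¹ • (NormedSpace.exp (ε n • A) - 1)) atTop (𝓝 A) := by
    have h1 : HasDerivAt (fun u : ℝ => NormedSpace.exp (u • A)) (NormedSpace.exp ((0 : ℝ) • A) * A) 0 :=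
      hasDerivAt_exp_smul_const A (0 : ℝ)
    have h2 := h1.tendsto_slope_zero
    simp only [zero_add, zero_smul, NormedSpace.exp_zero, one_mul] at h2
    refine h2.comp ?_
    rw [tendsto_nhdsWithin_iff]
    exact ⟨hε0, Eventually.of_forall fun n => (hε n).ne'⟩
  have hsmall : Tendsto (fun n => (ε n)⁻¹ * ‖a n - NormedSpace.exp (ε n • A)‖) atTop (𝓝 0) := by
    have h1 := (hA.sub hder).norm
    rw [sub_self, norm_zero] at h1
    refine h1.congr fun n => ?_
    rw [← smul_sub, norm_smul, norm_inv, Real.norm_of_nonneg (hε n).le]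
    congr 2
    abel
  have hdiff : Tendsto (fun n => a n ^ m n - NormedSpace.exp (((m n : ℝ) * ε n) • A)) atTop (𝓝 0) := by
    rw [tendsto_zero_iff_norm_tendsto_zero]
    have h1 : Tendsto (fun n => (m n * ε n : ℝ) * (B * ((ε n)⁻¹ * ‖a n - NormedSpace.exp (ε n • A)‖)))
        atTop (𝓝 (s * (B * 0))) := hm3.mul (hsmall.const_mul B)
    rw [mul_zero, mul_zero] at h1
    refine squeeze_zero (fun _ => norm_nonneg _) (fun n => ?_) h1
    refine (key n (m n) (hm1 n)).trans (le_of_eq ?_)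
    have := (hε n).ne'
    field_simp
  have hlim : Tendsto (fun n => a n ^ m n) atTop (𝓝 (NormedSpace.exp (s • A))) := by
    have h1 : Tendsto (fun n => NormedSpace.exp (((m n : ℝ) * ε n) • A)) atTop
        (𝓝 (NormedSpace.exp (s • A))) := (hcont.tendsto s).comp hm3
    have h2 := hdiff.add h1
    rw [zero_add] at h2
    refine h2.congr fun n => by abel
  exact hK.closed.mem_of_tendsto hlim (Eventually.of_forall fun n => hK.pow (ha n) _)

/-- A generator of isometries is skew. -/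
theorem IsGrp.skew (hK : IsGrp K) {A : E →L[ℝ] E} (hA : ∀ s : ℝ, NormedSpace.exp (s • A) ∈ K)
    (u w : E) : ⟪A u, w⟫_ℝ = -⟪u, A w⟫_ℝ := by
  have h0 : ∀ z : E, ⟪A z, z⟫_ℝ = 0 := by
    intro z
    have h1 : HasDerivAt (fun s : ℝ => NormedSpace.exp (s • A)) (NormedSpace.exp ((0 : ℝ) • A) * A) 0 :=
      hasDerivAt_exp_smul_const A (0 : ℝ)
    have h2 : HasDerivAt (fun s : ℝ => NormedSpace.exp (s • A) z) (A z) 0 := by
      have h3 := (ContinuousLinearMap.apply ℝ E z).hasFDerivAt.comp_hasDerivAt (0 : ℝ) h1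
      rw [zero_smul, NormedSpace.exp_zero, one_mul] at h3
      exact h3
    have h3 : HasDerivAt (fun s : ℝ => ⟪NormedSpace.exp (s • A) z, NormedSpace.exp (s • A) z⟫_ℝ)
        (⟪z, A z⟫_ℝ + ⟪A z, z⟫_ℝ) 0 := by
      have := h2.inner ℝ h2
      simpa using this
    have h4 : (fun s : ℝ => ⟪NormedSpace.exp (s • A) z, NormedSpace.exp (s • A) z⟫_ℝ)
        = fun _ => ‖z‖ ^ 2 := by
      funext s
      rw [real_inner_self_eq_norm_sq, hK.iso _ (hA s) z]
    rw [h4] at h3
    have h5 := h3.unique (hasDerivAt_const (0 : ℝ) (‖z‖ ^ 2))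
    rw [real_inner_comm] at h5
    linarith
  have h1 := h0 (u + w)
  rw [map_add, inner_add_left, inner_add_right, inner_add_right, h0 u, h0 w] at h1
  rw [real_inner_comm (A w) u]
  linarith

/-- Minimal elements of `K` taking `x` to `y n`, when `y n → x`, tend to `1`. -/
theorem IsGrp.exists_min (hK : IsGrp K) (trans : ∀ x y : E, ‖x‖ = ‖y‖ → ∃ a ∈ K, a x = y)
    {x : E} {y : ℕ → E} (hy : ∀ n, ‖y n‖ = ‖x‖) (hlim : Tendsto y atTop (𝓝 x)) :
    ∃ a : ℕ → E →L[ℝ] E, (∀ n, a n ∈ K ∧ a n x = y n ∧ ∀ b ∈ K, b x = y n → ‖a n - 1‖ ≤ ‖b - 1‖) ∧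
      Tendsto a atTop (𝓝 1) := by
  have hex : ∀ n, ∃ a ∈ K, a x = y n ∧ ∀ b ∈ K, b x = y n → ‖a - 1‖ ≤ ‖b - 1‖ := by
    intro n
    have hc : IsCompact (K ∩ {a | a x = y n}) := by
      refine hK.compact.inter_right (isClosed_eq ?_ continuous_const)
      exact (ContinuousLinearMap.apply ℝ E x).continuous
    obtain ⟨a0, ha0, ha1⟩ := trans x (y n) (hy n).symm
    obtain ⟨a, ha, hmin⟩ := hc.exists_isMinOn ⟨a0, ha0, ha1⟩
      (f := fun a : E →L[ℝ] E => ‖a - 1‖) (by fun_prop)
    exact ⟨a, ha.1, ha.2, fun b hb hb' => hmin ⟨hb, hb'⟩⟩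
  choose a haK hax hmin using hex
  refine ⟨a, fun n => ⟨haK n, hax n, hmin n⟩, ?_⟩
  by_contra hcon
  -- a subsequence stays away from `1`
  rw [Metric.tendsto_atTop] at hcon
  push Not at hcon
  obtain ⟨η, hη, hfar⟩ := hcon
  choose φ hφ1 hφ2 using hfar
  have hφ : Tendsto φ atTop atTop := tendsto_atTop_mono hφ1 tendsto_id
  obtain ⟨L, hL, ψ, hψ, hlimL⟩ := hK.compact.tendsto_subseq (x := fun n => a (φ n)) (fun n => haK _)
  have hLx : L x = x := by
    have h1 : Tendsto (fun n => a (φ (ψ n)) x) atTop (𝓝 (L x)) :=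
      ((ContinuousLinearMap.apply ℝ E x).continuous.tendsto L).comp hlimL
    have h2 : Tendsto (fun n => a (φ (ψ n)) x) atTop (𝓝 x) := by
      simp_rw [hax]
      exact hlim.comp (hφ.comp hψ.tendsto_atTop)
    exact tendsto_nhds_unique h1 h2
  obtain ⟨b, hb, hLb, hbL⟩ := hK.inv L hL
  have hbx : b x = x := by
    have h1 := congrArg (fun c : E →L[ℝ] E => c x) hbL
    simp only [mul_apply_eq_comp, one_apply_eq_self, hLx] at h1
    exact h1
  have h1 : Tendsto (fun n => ‖a (φ (ψ n)) * b - 1‖) atTop (𝓝 0) := by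
    have h2 : Tendsto (fun n => a (φ (ψ n)) * b) atTop (𝓝 (L * b)) := hlimL.mul_const b
    rw [hLb] at h2
    have h3 := (h2.sub_const 1).norm
    simpa using h3
  obtain ⟨n, hn⟩ := (h1.eventually (gt_mem_nhds hη)).exists
  have h4 := hmin (φ (ψ n)) (a (φ (ψ n)) * b) (hK.mul _ (haK _) _ hb) (by
    rw [mul_apply_eq_comp, hbx, hax])
  have h5 := hφ2 (ψ n)
  rw [dist_eq_norm] at h5
  linarith

/-- Existence of an infinitesimal rotation in a closed group transitive on spheres. -/
theorem IsGrp.exists_skew (hK : IsGrp K) (trans : ∀ x y : E, ‖x‖ = ‖y‖ → ∃ a ∈ K, a x = y)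
    {x v : E} (hxv : ⟪x, v⟫_ℝ = 0) (hx : x ≠ 0) :
    ∃ A : E →L[ℝ] E, (∀ u w, ⟪A u, w⟫_ℝ = -⟪u, A w⟫_ℝ) ∧ A x = v ∧
      ∀ s : ℝ, NormedSpace.exp (s • A) ∈ K := by
  -- it is enough to treat `‖v‖ = ‖x‖`
  rcases eq_or_ne v 0 with rfl | hv
  · exact ⟨0, by simp, by simp, by simpa using hK.one⟩
  suffices h : ∀ v : E, ⟪x, v⟫_ℝ = 0 → ‖v‖ = ‖x‖ → ∃ A : E →L[ℝ] E, A x = v ∧
      ∀ s : ℝ, NormedSpace.exp (s • A) ∈ K by
    have hx0 : ‖x‖ ≠ 0 := norm_ne_zero_iff.2 hx
    have hv0 : ‖v‖ ≠ 0 := norm_ne_zero_iff.2 hv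
    obtain ⟨A, hA1, hA2⟩ := h ((‖x‖ / ‖v‖) • v) (by rw [inner_smul_right, hxv, mul_zero])
      (by rw [norm_smul, Real.norm_of_nonneg (by positivity)]; field_simp)
    have hB : ∀ s : ℝ, NormedSpace.exp (s • ((‖v‖ / ‖x‖) • A)) ∈ K := fun s => by
      rw [smul_smul]; exact hA2 _
    refine ⟨(‖v‖ / ‖x‖) • A, hK.skew hB, ?_, hB⟩
    rw [smul_apply, hA1, smul_smul]
    have : ‖v‖ / ‖x‖ * (‖x‖ / ‖v‖) = 1 := by field_simp
    rw [this, one_smul]
  clear hxv hv v
  intro v hxv hvn
  set t : ℕ → ℝ := fun n => 1 / ((n : ℝ) + 1) with ht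
  have ht0 : ∀ n, 0 < t n := fun n => by positivity
  have htlim : Tendsto t atTop (𝓝 0) := tendsto_one_div_add_atTop_nhds_zero_nat
  set y : ℕ → E := fun n => Real.cos (t n) • x + Real.sin (t n) • v with hy
  have hyn : ∀ n, ‖y n‖ = ‖x‖ := by
    intro n
    have h1 : ‖y n‖ ^ 2 = ‖x‖ ^ 2 := by
      rw [hy, norm_add_sq_real, inner_smul_left, inner_smul_right, hxv, norm_smul, norm_smul, hvn]
      have := Real.sin_sq_add_cos_sq (t n)
      simp only [mul_pow, Real.norm_eq_abs, sq_abs]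
      nlinarith
    exact (pow_left_inj₀ (norm_nonneg _) (norm_nonneg _) two_ne_zero).1 h1
  -- derivative of the curve
  have hyder : Tendsto (fun n => (t n)⁻¹ • (y n - x)) atTop (𝓝 v) := by
    have h1 : HasDerivAt (fun s : ℝ => Real.cos s • x + Real.sin s • v)
        ((-Real.sin 0) • x + Real.cos 0 • v) 0 :=
      ((Real.hasDerivAt_cos 0).smul_const x).add ((Real.hasDerivAt_sin 0).smul_const v)
    have h2 := h1.tendsto_slope_zero
    simp only [zero_add, Real.cos_zero, one_smul, Real.sin_zero, zero_smul, add_zero, neg_zero] at h2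
    refine h2.comp ?_
    rw [tendsto_nhdsWithin_iff]
    exact ⟨htlim, Eventually.of_forall fun n => (ht0 n).ne'⟩
  have hylim : Tendsto y atTop (𝓝 x) := by
    have h1 := htlim.smul hyder
    rw [zero_smul] at h1
    have h2 : Tendsto (fun n => y n - x) atTop (𝓝 0) := by
      refine h1.congr fun n => ?_
      rw [smul_inv_smul₀ (ht0 n).ne']
    simpa using h2.add_const x
  obtain ⟨a, ha, halim⟩ := hK.exists_min trans hyn hylim
  have hvx : v ≠ 0 := by
    intro h; rw [h, norm_zero] at hvn; exact hx (norm_eq_zero.1 hvn.symm)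
  -- `ε n = ‖a n - 1‖`
  set ε : ℕ → ℝ := fun n => ‖a n - 1‖ with hεdef
  have hεlim : Tendsto ε atTop (𝓝 0) := by
    have := (halim.sub_const 1).norm
    simpa using this
  have hε0 : ∀ᶠ n in atTop, 0 < ε n := by
    have h1 : ∀ᶠ n in atTop, (t n)⁻¹ • (y n - x) ≠ 0 := hyder.eventually_ne hvx
    filter_upwards [h1] with n hn
    rw [hεdef]
    refine norm_pos_iff.2 fun h => hn ?_
    have h2 : a n = 1 := sub_eq_zero.1 h
    have h3 : y n = x := by rw [← (ha n).2.1, h2]; simp
    rw [h3, sub_self, smul_zero]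
  have : ProperSpace (E →L[ℝ] E) := FiniteDimensional.proper ℝ (E →L[ℝ] E)
  by_cases hcase : Tendsto (fun n => t n / ε n) atTop (𝓝 0)
  · -- impossible
    exfalso
    have hb : ∀ n, (ε n)⁻¹ • (a n - 1) ∈ Metric.closedBall (0 : E →L[ℝ] E) 1 := by
      intro n
      rw [mem_closedBall_zero_iff, norm_smul, norm_inv, Real.norm_of_nonneg (norm_nonneg _)]
      rcases eq_or_ne ‖a n - 1‖ 0 with h | h
      · rw [h]; simp
      · exact (inv_mul_cancel₀ h).le
    obtain ⟨A, -, φ, hφ, hA⟩ := (isCompact_closedBall (0 : E →L[ℝ] E) 1).tendsto_subseq hb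
    obtain ⟨N, hN⟩ := eventually_atTop.1 hε0
    set χ : ℕ → ℕ := fun n => φ (n + N) with hχ
    have hχlim : Tendsto χ atTop atTop := hφ.tendsto_atTop.comp (tendsto_add_atTop_nat N)
    have hχ0 : ∀ n, 0 < ε (χ n) := fun n => hN _ ((Nat.le_add_left N n).trans (hφ.id_le (n + N)))
    have hA' : Tendsto (fun n => (ε (χ n))⁻¹ • (a (χ n) - 1)) atTop (𝓝 A) :=
      hA.comp (tendsto_add_atTop_nat N)
    have hexp := hK.exp_mem (fun n => (ha (χ n)).1) hχ0 (hεlim.comp hχlim) hA'
    -- `A x = 0`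
    have hAx : A x = 0 := by
      have h1 : Tendsto (fun n => ((ε (χ n))⁻¹ • (a (χ n) - 1)) x) atTop (𝓝 (A x)) :=
        ((ContinuousLinearMap.apply ℝ E x).continuous.tendsto A).comp hA'
      have h2 : Tendsto (fun n => (t (χ n) / ε (χ n)) • ((t (χ n))⁻¹ • (y (χ n) - x))) atTop
          (𝓝 ((0 : ℝ) • v)) := (hcase.comp hχlim).smul (hyder.comp hχlim)
      rw [zero_smul] at h2
      refine tendsto_nhds_unique h1 (h2.congr fun n => ?_)
      rw [smul_smul, smul_apply, sub_apply, (ha _).2.1]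
      have h3 := (ht0 (χ n)).ne'
      have h4 := (hχ0 n).ne'
      congr 1
      field_simp
    have hexpx : ∀ s : ℝ, NormedSpace.exp (s • A) x = x := by
      intro s
      have hd : ∀ r : ℝ, HasDerivAt (fun s : ℝ => NormedSpace.exp (s • A) x) 0 r := by
        intro r
        have h1 : HasDerivAt (fun s : ℝ => NormedSpace.exp (s • A)) (NormedSpace.exp (r • A) * A) r :=
          hasDerivAt_exp_smul_const A r
        have h3 := (ContinuousLinearMap.apply ℝ E x).hasFDerivAt.comp_hasDerivAt r h1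
        have h4 : (ContinuousLinearMap.apply ℝ E x) (NormedSpace.exp (r • A) * A) = 0 := by
          simp [hAx]
        rw [h4] at h3
        exact h3
      have h1 := is_const_of_deriv_eq_zero (fun r => (hd r).differentiableAt)
        (fun r => (hd r).deriv) s 0
      simpa using h1
    -- a better competitor
    have hcomp : Tendsto (fun n => (ε (χ n))⁻¹ • (a (χ n) * NormedSpace.exp ((-ε (χ n)) • A) - 1)) atTop
        (𝓝 0) := by
      have hder : Tendsto (fun n => (ε (χ n))⁻¹ • (NormedSpace.exp ((-ε (χ n)) • A) - 1)) atTop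
          (𝓝 (-A)) := by
        have h1 : HasDerivAt (fun u : ℝ => NormedSpace.exp (u • (-A)))
            (NormedSpace.exp ((0 : ℝ) • (-A)) * (-A)) 0 := hasDerivAt_exp_smul_const (-A) (0 : ℝ)
        have h2 := h1.tendsto_slope_zero
        simp only [zero_add, zero_smul, NormedSpace.exp_zero, one_mul] at h2
        have h3 := h2.comp (g := fun u : ℝ => u⁻¹ • (NormedSpace.exp (u • (-A)) - 1))
          (f := fun n => ε (χ n)) (by
            rw [tendsto_nhdsWithin_iff]
            exact ⟨hεlim.comp hχlim, Eventually.of_forall fun n => (hχ0 n).ne'⟩)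
        refine h3.congr fun n => ?_
        simp only [Function.comp]
        rw [smul_neg, neg_smul]
      have hexp1 : Tendsto (fun n => NormedSpace.exp ((-ε (χ n)) • A)) atTop (𝓝 1) := by
        have hcont : Continuous fun u : ℝ => NormedSpace.exp (u • A) :=
          (differentiable_exp_smul_const ℝ (𝔸 := E →L[ℝ] E) A).continuous
        have h1 := (hcont.tendsto 0).comp (f := fun n => -ε (χ n)) (by
          have := (hεlim.comp hχlim).neg
          rw [neg_zero] at this
          exact this)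
        rw [zero_smul, NormedSpace.exp_zero] at h1
        exact h1
      have h5 := (hA'.mul hexp1).add hder
      rw [mul_one, add_neg_cancel] at h5
      refine h5.congr fun n => ?_
      rw [smul_mul_assoc, ← smul_add]
      congr 1
      noncomm_ring
    have h6 := hcomp.norm
    rw [norm_zero] at h6
    obtain ⟨n, hn⟩ := (h6.eventually (gt_mem_nhds one_pos)).exists
    rw [norm_smul, norm_inv, Real.norm_of_nonneg (hχ0 n).le, inv_mul_lt_iff₀ (hχ0 n), mul_one] at hn
    have h7 := (ha (χ n)).2.2 (a (χ n) * NormedSpace.exp ((-ε (χ n)) • A))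
      (hK.mul _ (ha _).1 _ (hexp _)) (by
        rw [mul_apply_eq_comp, hexpx, (ha _).2.1])
    exact absurd hn (not_lt.2 h7)
  · -- a bounded subsequence
    rw [Metric.tendsto_atTop] at hcase
    push Not at hcase
    obtain ⟨η, hη, hfar⟩ := hcase
    choose φ hφ1 hφ2 using hfar
    have hφ : Tendsto φ atTop atTop := tendsto_atTop_mono hφ1 tendsto_id
    have hb : ∀ n, (t (φ n))⁻¹ • (a (φ n) - 1) ∈ Metric.closedBall (0 : E →L[ℝ] E) η⁻¹ := by
      intro n
      rw [mem_closedBall_zero_iff, norm_smul, norm_inv, Real.norm_of_nonneg (ht0 _).le]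
      have h1 := hφ2 n
      rw [Real.dist_eq, sub_zero, abs_of_nonneg (div_nonneg (ht0 _).le (norm_nonneg _))] at h1
      have h2 : 0 < ε (φ n) := by
        rcases (norm_nonneg (a (φ n) - 1)).eq_or_lt with h | h
        · rw [← h, div_zero] at h1
          linarith
        · exact h
      rw [le_div_iff₀ h2] at h1
      rw [inv_mul_le_iff₀ (ht0 _), ← div_eq_mul_inv, le_div_iff₀ hη]
      linarith
    obtain ⟨A, -, ψ, hψ, hA⟩ := (isCompact_closedBall (0 : E →L[ℝ] E) η⁻¹).tendsto_subseq hb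
    have hlim' : Tendsto (fun n => φ (ψ n)) atTop atTop := hφ.comp hψ.tendsto_atTop
    refine ⟨A, ?_, hK.exp_mem (a := fun n => a (φ (ψ n))) (ε := fun n => t (φ (ψ n)))
      (fun n => (ha _).1) (fun n => ht0 _) (htlim.comp hlim') hA⟩
    have h1 : Tendsto (fun n => ((t (φ (ψ n)))⁻¹ • (a (φ (ψ n)) - 1)) x) atTop (𝓝 (A x)) :=
      ((ContinuousLinearMap.apply ℝ E x).continuous.tendsto A).comp hA
    refine tendsto_nhds_unique h1 ((hyder.comp hlim').congr fun n => ?_)
    simp only [Function.comp]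
    rw [smul_apply, sub_apply, (ha _).2.1]
    rfl

end Pool.Agent.Work.MP_3b24f6_gt.SG
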