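import Pool.Agent.Work.MP_3b24f6_gt.S.MetAt
import Pool.Agent.Work.MP_3b24f6_gt.S.SkewGen

/-!
# S13039, block B5: the global exponential map is an immersion (metric form), Gauss lemma

`D x z = dist (e x) (e z)` is infinitesimally `√(B v v)` at `y` (`MetAt`).
* `gauss_of_metAt` : `B y w = ⟪y, w⟫` from `dist (e 0) (e y) = ‖y‖` and the radial distances;
* `pos_of_metAt` : `B` is positive definite if the isometries rotate around `e 0`.
-/

set_option autoImplicit false

open Set Filter Metric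
open scoped Topology InnerProductSpace

namespace Pool.Agent.MP_3b24f6_gt.S

variable {E : Type*} [NormedAddCommGroup E] [InnerProductSpace ℝ E] {M : Type*} [MetricSpace M]
  {e : E → M}

theorem tendsto_line (y w : E) : Tendsto (fun t : ℝ => y + t • w) (𝓝[>] 0) (𝓝 y) := by
  have : Tendsto (fun t : ℝ => y + t • w) (𝓝 0) (𝓝 (y + (0 : ℝ) • w)) :=
    Continuous.tendsto (by fun_prop) _
  simp only [zero_smul, add_zero] at this
  exact this.mono_left nhdsWithin_le_nhds

theorem tendsto_quot (y w : E) :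
    Tendsto (fun t : ℝ => t⁻¹ • (y + t • w - y)) (𝓝[>] 0) (𝓝 w) := by
  refine tendsto_const_nhds.congr' ?_
  filter_upwards [eventually_mem_nhdsWithin] with t ht
  rw [add_sub_cancel_left, smul_smul, inv_mul_cancel₀ (ne_of_gt ht), one_smul]

/-- directional derivative of the norm is at most the length -/
theorem inner_le_of_metAt (h0 : ∀ y, dist (e 0) (e y) = ‖y‖) {y : E} (hy : y ≠ 0)
    {B : E →L[ℝ] E →L[ℝ] ℝ} (hM : MetAt (fun x z => dist (e x) (e z)) y B) (w : E) :
    ⟪y, w⟫_ℝ ≤ ‖y‖ * √(B w w) := by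
  have hl : ∀ᶠ t : ℝ in 𝓝[>] 0, 0 < t := eventually_mem_nhdsWithin
  have h1 := hM.tendsto hl (tendsto_line y w) tendsto_const_nhds (tendsto_quot y w)
  have hd : HasDerivAt (fun t : ℝ => ‖y + t • w‖) (⟪y, w⟫_ℝ / ‖y‖) 0 := by
    have h2 : HasDerivAt (fun t : ℝ => y + t • w) w 0 := by
      simpa using ((hasDerivAt_id (0 : ℝ)).smul_const w).const_add y
    have h3 : HasDerivAt (fun t : ℝ => ‖y + t • w‖ ^ 2) (2 * ⟪y, w⟫_ℝ) 0 := by
      have := h2.norm_sq
      simpa using this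
    have h4 := h3.sqrt (by simpa using hy)
    have h5 : (fun t : ℝ => √(‖y + t • w‖ ^ 2)) = fun t : ℝ => ‖y + t • w‖ := by
      ext t; exact Real.sqrt_sq (norm_nonneg _)
    rw [h5] at h4
    convert! h4 using 1
    simp only [zero_smul, add_zero, Real.sqrt_sq (norm_nonneg _)]
    rw [mul_div_mul_left _ _ two_ne_zero]
  have hs : Tendsto (fun t : ℝ => t⁻¹ * (‖y + t • w‖ - ‖y‖)) (𝓝[>] 0) (𝓝 (⟪y, w⟫_ℝ / ‖y‖)) := by
    have h2 := hd.tendsto_slope_zero_right
    simpa using h2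
  have hle := le_of_tendsto_of_tendsto hs h1 (by
    filter_upwards [hl] with t ht
    have h2 := dist_triangle (e 0) (e y) (e (y + t • w))
    rw [h0, h0, dist_comm (e y)] at h2
    exact mul_le_mul_of_nonneg_left (by linarith) (inv_nonneg.2 ht.le))
  rw [div_le_iff₀ (norm_pos_iff.2 hy)] at hle
  linarith

theorem sqrt_radial (hray : ∀ (x : E) (s t : ℝ), dist (e (s • x)) (e (t • x)) = |s - t| * ‖x‖)
    {y : E} {B : E →L[ℝ] E →L[ℝ] ℝ} (hM : MetAt (fun x z => dist (e x) (e z)) y B) :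
    √(B y y) = ‖y‖ := by
  have hl : ∀ᶠ t : ℝ in 𝓝[>] 0, 0 < t := eventually_mem_nhdsWithin
  have h1 := hM.tendsto hl (tendsto_line y y) tendsto_const_nhds (tendsto_quot y y)
  refine (tendsto_nhds_unique (tendsto_const_nhds.congr' ?_) h1).symm
  filter_upwards [hl] with t ht
  have h2 : dist (e (y + t • y)) (e y) = t * ‖y‖ := by
    have h3 := hray y (1 + t) 1
    rw [add_smul, one_smul, add_sub_cancel_left, abs_of_pos ht] at h3
    exact h3
  rw [h2, ← mul_assoc, inv_mul_cancel₀ ht.ne', one_mul]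

/-- The Gauss lemma, from distances only. -/
theorem gauss_of_metAt
    (hray : ∀ (x : E) (s t : ℝ), dist (e (s • x)) (e (t • x)) = |s - t| * ‖x‖)
    {y : E} {B : E →L[ℝ] E →L[ℝ] ℝ} (hB : Psd B)
    (hM : MetAt (fun x z => dist (e x) (e z)) y B) (w : E) : B y w = ⟪y, w⟫_ℝ := by
  by_cases hy : y = 0
  · simp [hy]
  have h0 : ∀ y, dist (e 0) (e y) = ‖y‖ := by
    intro y
    have := hray y 0 1
    simpa using this
  have hn : 0 < ‖y‖ := norm_pos_iff.2 hy
  have h1 := sqrt_radial hray hM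
  have h2 : ∀ u, ⟪y, u⟫_ℝ ^ 2 ≤ ‖y‖ ^ 2 * B u u := by
    intro u
    have h3 := inner_le_of_metAt h0 hy hM u
    have h4 := inner_le_of_metAt h0 hy hM (-u)
    rw [inner_neg_right, Psd.sqrt_neg] at h4
    have h5 : |⟪y, u⟫_ℝ| ≤ ‖y‖ * √(B u u) := abs_le.2 ⟨by linarith, h3⟩
    have h6 := pow_le_pow_left₀ (abs_nonneg _) h5 2
    rwa [sq_abs, mul_pow, Real.sq_sqrt (hB.nonneg u)] at h6
  have h3 : B y y = ‖y‖ ^ 2 := by rw [← h1, Real.sq_sqrt (hB.nonneg y)]
  set K := ‖y‖ ^ 2 * B w w - ⟪y, w⟫_ℝ ^ 2 with hK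
  have hK0 : 0 ≤ K := by linarith [h2 w]
  set c := ‖y‖ ^ 2 * (⟪y, w⟫_ℝ - B y w) with hc
  have h4 : ∀ t : ℝ, 2 * t * c ≤ t ^ 2 * K := by
    intro t
    have h5 := h2 (y + t • w)
    have h6 : B (y + t • w) (y + t • w) = ‖y‖ ^ 2 + 2 * t * B y w + t ^ 2 * B w w := by
      simp only [map_add, map_smul, add_apply, smul_apply, smul_eq_mul]
      rw [hB.symm w y, h3]; ring
    rw [h6, inner_add_right, inner_smul_right, real_inner_self_eq_norm_sq] at h5
    rw [hK, hc]
    nlinarith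
  have h5 : c = 0 := by
    have h6 := h4 (c / (K + 1))
    have h7 : 2 * (c / (K + 1)) * c * (K + 1) ^ 2 ≤ (c / (K + 1)) ^ 2 * K * (K + 1) ^ 2 :=
      mul_le_mul_of_nonneg_right h6 (by positivity)
    have h8 : 2 * (c / (K + 1)) * c * (K + 1) ^ 2 = 2 * c ^ 2 * (K + 1) := by field_simp
    have h9 : (c / (K + 1)) ^ 2 * K * (K + 1) ^ 2 = c ^ 2 * K := by field_simp
    rw [h8, h9] at h7
    have h10 : c ^ 2 * (K + 2) ≤ 0 := by nlinarith
    have h11 : c ^ 2 ≤ 0 := by nlinarith [sq_nonneg c]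
    exact pow_eq_zero_iff two_ne_zero |>.1 (le_antisymm h11 (sq_nonneg c))
  rw [hc] at h5
  rcases mul_eq_zero.1 h5 with h6 | h6
  · exact absurd h6 (by positivity)
  · linarith

theorem exp_zero_smul_apply (A : E →L[ℝ] E) (y : E) : NormedSpace.exp ((0 : ℝ) • A) y = y := by
  simp

variable [FiniteDimensional ℝ E]

theorem hasDerivAt_exp_apply (A : E →L[ℝ] E) (y : E) :
    HasDerivAt (fun s : ℝ => NormedSpace.exp (s • A) y) (A y) 0 := by
  have h1 : HasDerivAt (fun s : ℝ => NormedSpace.exp (s • A)) (A * NormedSpace.exp ((0 : ℝ) • A))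
      0 := hasDerivAt_exp_smul_const' A 0
  have h2 := h1.clm_apply (hasDerivAt_const (0 : ℝ) y)
  simpa using h2

/-- B5: no degenerate direction. -/
theorem pos_of_metAt (hinj : Function.Injective e)
    (hray : ∀ (x : E) (s t : ℝ), dist (e (s • x)) (e (t • x)) = |s - t| * ‖x‖)
    (hskew : ∀ x v : E, x ≠ 0 → ⟪x, v⟫_ℝ = 0 → ∃ A : E →L[ℝ] E, A x = v ∧
      ∀ (s : ℝ) (y z : E), dist (e (NormedSpace.exp (s • A) y)) (e (NormedSpace.exp (s • A) z)) =
        dist (e y) (e z))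
    {y : E} (hy : y ≠ 0) {B : E →L[ℝ] E →L[ℝ] ℝ} (hB : Psd B)
    (hM : MetAt (fun x z => dist (e x) (e z)) y B) {w : E} (hw : w ≠ 0) : 0 < B w w := by
  rcases (hB.nonneg w).eq_or_lt with hw0 | hw0
  swap
  · exact hw0
  exfalso
  have h1 : ⟪y, w⟫_ℝ = 0 := by
    rw [← gauss_of_metAt hray hB hM w]
    have := hB.cs y w
    rw [← hw0, mul_zero] at this
    exact pow_eq_zero_iff two_ne_zero |>.1 (le_antisymm this (sq_nonneg _))
  obtain ⟨A, hAy, hA⟩ := hskew y w hy h1
  set c : ℝ → E := fun s => NormedSpace.exp (s • A) y with hc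
  have hc0 : c 0 = y := exp_zero_smul_apply A y
  have hcd : HasDerivAt c w 0 := by rw [← hAy]; exact hasDerivAt_exp_apply A y
  have hl : ∀ᶠ t : ℝ in 𝓝[>] 0, 0 < t := eventually_mem_nhdsWithin
  have ht1 : Tendsto c (𝓝[>] 0) (𝓝 y) := by
    have := hcd.continuousAt.tendsto
    rw [hc0] at this
    exact this.mono_left nhdsWithin_le_nhds
  have ht2 : Tendsto (fun t : ℝ => t⁻¹ • (c t - y)) (𝓝[>] 0) (𝓝 w) := by
    have := hcd.tendsto_slope_zero_right
    simpa [hc0] using this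
  have h2 := hM.tendsto hl ht1 tendsto_const_nhds ht2
  rw [← hw0, Real.sqrt_zero] at h2
  have hstep : ∀ (h : ℝ) (k : ℕ), dist (e (c (k * h))) (e y) ≤ k * dist (e (c h)) (e y) := by
    intro h k
    induction k with
    | zero => simp [hc0]
    | succ k ih =>
      have h3 : c ((k + 1 : ℕ) * h) = NormedSpace.exp ((k * h : ℝ) • A) (c h) := by
        simp only [hc]
        rw [show ((k + 1 : ℕ) : ℝ) * h = k * h + h by push_cast; ring,
          Pool.Agent.Work.MP_3b24f6_gt.SG.exp_add_smul]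
        rfl
      have h4 : dist (e (c ((k + 1 : ℕ) * h))) (e (c (k * h))) = dist (e (c h)) (e y) := by
        rw [h3]
        exact hA _ _ _
      have h5 := dist_triangle (e (c ((k + 1 : ℕ) * h))) (e (c (k * h))) (e y)
      rw [h4] at h5
      push_cast at h5 ⊢
      linarith
  have hconst : ∀ s : ℝ, 0 < s → c s = y := by
    intro s hs
    apply hinj
    apply dist_le_zero.1
    apply le_of_forall_pos_le_add
    intro ε hε
    have h3 : ∀ᶠ t : ℝ in 𝓝[>] 0, t⁻¹ * dist (e (c t)) (e y) < ε / s :=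
      h2.eventually (gt_mem_nhds (by positivity))
    have h4 : Tendsto (fun n : ℕ => s / ((n : ℝ) + 1)) atTop (𝓝[>] 0) := by
      refine tendsto_nhdsWithin_iff.2 ⟨?_, Eventually.of_forall fun n => ?_⟩
      · have := (tendsto_one_div_add_atTop_nhds_zero_nat (𝕜 := ℝ)).const_mul s
        simpa [div_eq_mul_inv] using this
      · exact div_pos hs (by positivity)
    obtain ⟨n, hn⟩ := (h4.eventually h3).exists
    have hn0 : (0 : ℝ) < n + 1 := by positivity
    have h5 := hstep (s / (n + 1)) (n + 1)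
    have h6 : (((n + 1 : ℕ) : ℝ) * (s / (n + 1))) = s := by push_cast; field_simp
    rw [h6] at h5
    have h7 : dist (e (c (s / (n + 1)))) (e y) < ε / s * (s / (n + 1)) := by
      have h8 := mul_lt_mul_of_pos_right hn (div_pos hs hn0)
      have h9 : (s / ((n : ℝ) + 1))⁻¹ * dist (e (c (s / (n + 1)))) (e y) * (s / (n + 1)) =
          dist (e (c (s / (n + 1)))) (e y) := by field_simp
      rwa [h9] at h8
    have h8 : ε / s * (s / (n + 1)) = ε / (n + 1) := by field_simp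
    rw [h8] at h7
    push_cast at h5
    have h9 : ((n : ℝ) + 1) * dist (e (c (s / (n + 1)))) (e y) ≤ (n + 1) * (ε / (n + 1)) := by
      gcongr
    have h10 : ((n : ℝ) + 1) * (ε / (n + 1)) = ε := by field_simp
    linarith
  have h3 : Tendsto (fun t : ℝ => t⁻¹ • (c t - y)) (𝓝[>] 0) (𝓝 0) := by
    refine tendsto_const_nhds.congr' ?_
    filter_upwards [hl] with t ht
    rw [hconst t ht, sub_self, smul_zero]
  exact hw (tendsto_nhds_unique ht2 h3)

end Pool.Agent.MP_3b24f6_gt.S
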