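import Pool.Agent.Work.MP_3b24f6_gt.S.ModelA

/-!
# S13039, block B3: the global exponential map is smooth

`e : E → M` with `dist (e (s • x)) (e (t • x)) = |s - t| * ‖x‖`, smooth near `0`, is smooth:
near `x₀` one has `e x = ι (X (b, 2 • W (b, p)))`, `b = k (e ((1-2η) x))`, `p = k (e ((1-η) x))`.
-/

set_option autoImplicit false

open Set Filter Metric
open scoped Topology ContDiff Manifold

namespace Pool.Agent.Work.MP_3b24f6_gt.Froz

section double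

variable {E : Type*} [NormedAddCommGroup E] [NormedSpace ℝ E] {M : Type*} [MetricSpace M]
  {U : Set E} {g : E → E →L[ℝ] E →L[ℝ] ℝ} {ι : E → M} {p₀ : E} {r ρ : ℝ} {X W : E × E → E}

theorem gnorm_smul_aux (g : E → E →L[ℝ] E →L[ℝ] ℝ) (y v : E) {c : ℝ} (hc : 0 ≤ c) :
    gnorm g y (c • v) = c * gnorm g y v := by
  have h1 : g y (c • v) (c • v) = c ^ 2 * g y v v := by
    simp only [map_smul, smul_apply, smul_eq_mul]; ring
  rw [gnorm, gnorm, h1, Real.sqrt_mul (sq_nonneg c), Real.sqrt_sq hc]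

/-- `gnorm` is the distance -/
theorem LocGeo.dist_eq (h : LocGeo M U g ι p₀ r ρ X W) {b : E} (hb : b ∈ ball p₀ r) {v : E}
    (hv : gnorm g b v < ρ) : dist (ι b) (ι (X (b, v))) = gnorm g b v := by
  have h1 := h.dist_geod b hb v hv 0 (by norm_num) 1 (by norm_num)
  rw [zero_smul, one_smul, h.zero b hb] at h1
  simpa using h1

/-- the point twice as far on the geodesic -/
theorem LocGeo.double (h : LocGeo M U g ι p₀ r ρ X W) {k : M → E} (hk : ∀ y ∈ U, k (ι y) = y)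
    {b : E} (hb : b ∈ ball p₀ r) {z y : M} {a : ℝ} (ha : 0 < a) (h1 : dist (ι b) z = a)
    (h2 : dist z y = a) (h3 : dist (ι b) y = 2 * a) (h4 : 2 * a < ρ) :
    ∃ w, gnorm g b w < ρ ∧ gnorm g b ((2 : ℝ) • w) < ρ ∧ k z = X (b, w) ∧
      y = ι (X (b, (2 : ℝ) • w)) ∧ W (b, k z) = w := by
  obtain ⟨u, hu, huy⟩ := h.surj b hb y (h3.trans_lt h4)
  have h5 : gnorm g b u = 2 * a := by rw [← h.dist_eq hb hu, huy, h3]
  obtain ⟨s, hs, hz⟩ := h.between b hb u hu z (by rw [huy, h1, h2, h5]; ring)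
  have h6 := h.dist_geod b hb u hu 0 (by norm_num) s ⟨by linarith [hs.1], hs.2⟩
  rw [zero_smul, h.zero b hb, ← hz, h1, h5, zero_sub, abs_neg, abs_of_nonneg hs.1] at h6
  have h7 : s = 1 / 2 := by
    have : a * (s * 2 - 1) = 0 := by linarith
    rcases mul_eq_zero.1 this with h8 | h8
    · exact absurd h8 ha.ne'
    · linarith
  rw [h7] at hz
  have h8 : gnorm g b ((1 / 2 : ℝ) • u) < ρ := by
    rw [gnorm_smul_aux g b u (by norm_num), h5]; linarith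
  have h9 : (2 : ℝ) • (1 / 2 : ℝ) • u = u := by rw [smul_smul]; norm_num
  have h10 : k z = X (b, (1 / 2 : ℝ) • u) := by
    rw [hz]; exact hk _ (h.mem b hb _ (h.small b hb _ h8))
  refine ⟨(1 / 2 : ℝ) • u, h8, by rwa [h9], h10, by rw [h9, huy], ?_⟩
  rw [h10]
  exact h.inv_left b hb _ h8

end double

section smooth

variable {d : ℕ} {M : Type*} [MetricSpace M] [ChartedSpace (EuclideanSpace ℝ (Fin d)) M]
  [IsManifold (𝓡 d) ∞ M] {e : EuclideanSpace ℝ (Fin d) → M}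

theorem smooth_step
    (hray : ∀ (x : EuclideanSpace ℝ (Fin d)) (s t : ℝ),
      dist (e (s • x)) (e (t • x)) = |s - t| * ‖x‖)
    {x₀ : EuclideanSpace ℝ (Fin d)} (hx₀ : x₀ ≠ 0)
    {g : EuclideanSpace ℝ (Fin d) → EuclideanSpace ℝ (Fin d) →L[ℝ]
      EuclideanSpace ℝ (Fin d) →L[ℝ] ℝ} {r ρ : ℝ}
    {X W : EuclideanSpace ℝ (Fin d) × EuclideanSpace ℝ (Fin d) → EuclideanSpace ℝ (Fin d)}
    (h : LocGeo M (extChartAt (𝓡 d) (e x₀)).target g (extChartAt (𝓡 d) (e x₀)).symm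
      (extChartAt (𝓡 d) (e x₀) (e x₀)) r ρ X W) :
    ∃ η₀ : ℝ, 0 < η₀ ∧ ∀ η : ℝ, 0 < η → η < η₀ →
      (∀ᶠ y in 𝓝 ((1 - η) • x₀), ContMDiffAt 𝓘(ℝ, EuclideanSpace ℝ (Fin d)) (𝓡 d) ∞ e y) →
      (∀ᶠ y in 𝓝 ((1 - 2 * η) • x₀), ContMDiffAt 𝓘(ℝ, EuclideanSpace ℝ (Fin d)) (𝓡 d) ∞ e y) →
      ∀ᶠ x in 𝓝 x₀, ContMDiffAt 𝓘(ℝ, EuclideanSpace ℝ (Fin d)) (𝓡 d) ∞ e x := by
  set q := e x₀ with hq
  set k := extChartAt (𝓡 d) q with hkdef
  have hn : 0 < ‖x₀‖ := norm_pos_iff.2 hx₀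
  -- a ball where the chart is fine
  have hc : ∀ᶠ z in 𝓝 q, z ∈ k.source ∧ k z ∈ ball (k q) r :=
    Filter.Eventually.and (extChartAt_source_mem_nhds (I := 𝓡 d) q)
      ((continuousAt_extChartAt (I := 𝓡 d) q).eventually (ball_mem_nhds _ h.r_pos))
  obtain ⟨σ, hσ, hσ'⟩ := Metric.eventually_nhds_iff_ball.1 hc
  refine ⟨min (1 / 4) (min (σ / (16 * ‖x₀‖)) (ρ / (16 * ‖x₀‖))), ?_, ?_⟩
  · have := h.ρ_pos
    positivity
  intro η hη hη' hP1 hP2
  have hη1 : η < 1 / 4 := hη'.trans_le (min_le_left _ _)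
  have hησ : η * (16 * ‖x₀‖) < σ := by
    rw [← lt_div_iff₀ (by positivity)]
    exact hη'.trans_le ((min_le_right _ _).trans (min_le_left _ _))
  have hηρ : η * (16 * ‖x₀‖) < ρ := by
    rw [← lt_div_iff₀ (by positivity)]
    exact hη'.trans_le ((min_le_right _ _).trans (min_le_right _ _))
  -- the good neighbourhood
  have hc1 : Tendsto (fun x : EuclideanSpace ℝ (Fin d) => (1 - η) • x) (𝓝 x₀)
      (𝓝 ((1 - η) • x₀)) := (continuous_const_smul (1 - η)).tendsto x₀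
  have hc2 : Tendsto (fun x : EuclideanSpace ℝ (Fin d) => (1 - 2 * η) • x) (𝓝 x₀)
      (𝓝 ((1 - 2 * η) • x₀)) := (continuous_const_smul (1 - 2 * η)).tendsto x₀
  have hN : ∀ᶠ x in 𝓝 x₀, ContMDiffAt 𝓘(ℝ, EuclideanSpace ℝ (Fin d)) (𝓡 d) ∞ e ((1 - η) • x) ∧
      ContMDiffAt 𝓘(ℝ, EuclideanSpace ℝ (Fin d)) (𝓡 d) ∞ e ((1 - 2 * η) • x) ∧
      x ∈ ball x₀ ‖x₀‖ ∧ x ≠ 0 ∧
      e ((1 - 2 * η) • x) ∈ ball (e ((1 - 2 * η) • x₀)) (σ / 4) := by
    refine (hc1.eventually hP1).and ((hc2.eventually hP2).and (Filter.Eventually.and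
      (ball_mem_nhds _ hn) (Filter.Eventually.and (isOpen_ne.mem_nhds hx₀) ?_)))
    exact hc2.eventually (hP2.self_of_nhds.continuousAt.eventually
      (ball_mem_nhds _ (by positivity)))
  -- the formula
  have hF : ∀ᶠ x in 𝓝 x₀, ContMDiffAt 𝓘(ℝ, EuclideanSpace ℝ (Fin d)) (𝓡 d) ∞ e ((1 - η) • x) ∧
      ContMDiffAt 𝓘(ℝ, EuclideanSpace ℝ (Fin d)) (𝓡 d) ∞ e ((1 - 2 * η) • x) ∧
      e ((1 - η) • x) ∈ k.source ∧ e ((1 - 2 * η) • x) ∈ k.source ∧
      k (e ((1 - 2 * η) • x)) ∈ ball (k q) r ∧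
      ∃ w, gnorm g (k (e ((1 - 2 * η) • x))) w < ρ ∧
        gnorm g (k (e ((1 - 2 * η) • x))) ((2 : ℝ) • w) < ρ ∧
        k (e ((1 - η) • x)) = X (k (e ((1 - 2 * η) • x)), w) ∧
        e x = k.symm (X (k (e ((1 - 2 * η) • x)), (2 : ℝ) • w)) ∧
        W (k (e ((1 - 2 * η) • x)), k (e ((1 - η) • x))) = w := by
    filter_upwards [hN] with x hx
    obtain ⟨hx1, hx2, hx3, hx4, hx5⟩ := hx
    have hxn : ‖x‖ < 2 * ‖x₀‖ := by
      have h1 : ‖x - x₀‖ < ‖x₀‖ := by simpa [dist_eq_norm] using hx3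
      have h2 := norm_add_le (x - x₀) x₀
      rw [sub_add_cancel] at h2
      linarith
    have hxp : 0 < ‖x‖ := norm_pos_iff.2 hx4
    have hd1 : dist (e ((1 - 2 * η) • x₀)) q = 2 * η * ‖x₀‖ := by
      have := hray x₀ (1 - 2 * η) 1
      rw [one_smul] at this
      rw [hq, this, show (1 : ℝ) - 2 * η - 1 = -(2 * η) by ring, abs_neg, abs_of_pos (by linarith)]
    have hb : e ((1 - 2 * η) • x) ∈ ball q σ := by
      have h1 := dist_triangle (e ((1 - 2 * η) • x)) (e ((1 - 2 * η) • x₀)) q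
      rw [mem_ball] at hx5 ⊢
      rw [hd1] at h1
      nlinarith
    have hd2 : dist (e ((1 - 2 * η) • x)) (e ((1 - η) • x)) = η * ‖x‖ := by
      rw [hray x, show (1 : ℝ) - 2 * η - (1 - η) = -η by ring, abs_neg, abs_of_pos hη]
    have hd3 : dist (e ((1 - η) • x)) (e x) = η * ‖x‖ := by
      have := hray x (1 - η) 1
      rw [one_smul] at this
      rw [this, show (1 : ℝ) - η - 1 = -η by ring, abs_neg, abs_of_pos hη]
    have hd4 : dist (e ((1 - 2 * η) • x)) (e x) = 2 * (η * ‖x‖) := by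
      have := hray x (1 - 2 * η) 1
      rw [one_smul] at this
      rw [this, show (1 : ℝ) - 2 * η - 1 = -(2 * η) by ring, abs_neg, abs_of_pos (by linarith)]
      ring
    have hp : e ((1 - η) • x) ∈ ball q σ := by
      have h1 := dist_triangle (e ((1 - η) • x)) (e ((1 - 2 * η) • x)) q
      have h2 := dist_triangle (e ((1 - 2 * η) • x)) (e ((1 - 2 * η) • x₀)) q
      rw [dist_comm (e ((1 - η) • x)) (e ((1 - 2 * η) • x)), hd2] at h1
      rw [mem_ball] at hx5 ⊢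
      rw [hd1] at h2
      nlinarith
    obtain ⟨hb1, hb2⟩ := hσ' _ hb
    obtain ⟨hp1, hp2⟩ := hσ' _ hp
    refine ⟨hx1, hx2, hp1, hb1, hb2, ?_⟩
    have hι : k.symm (k (e ((1 - 2 * η) • x))) = e ((1 - 2 * η) • x) := k.left_inv hb1
    exact h.double (k := k) (fun y hy => k.right_inv hy) hb2 (a := η * ‖x‖) (by positivity)
      (by rw [hι, hd2]) hd3 (by rw [hι, hd4]) (by nlinarith)
  -- conclusion
  filter_upwards [hF, hF.eventually_nhds] with x hx hx'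
  obtain ⟨hx1, hx2, hp1, hb1, hb2, w, hw1, hw2, hw3, hw4, hw5⟩ := hx
  set b : EuclideanSpace ℝ (Fin d) → EuclideanSpace ℝ (Fin d) :=
    fun x => k (e ((1 - 2 * η) • x)) with hbdef
  set p : EuclideanSpace ℝ (Fin d) → EuclideanSpace ℝ (Fin d) :=
    fun x => k (e ((1 - η) • x)) with hpdef
  have hb : ContDiffAt ℝ ∞ b x := by
    rw [← contMDiffAt_iff_contDiffAt]
    have h1 : ContMDiffAt (𝓡 d) 𝓘(ℝ, EuclideanSpace ℝ (Fin d)) ∞ k (e ((1 - 2 * η) • x)) :=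
      contMDiffAt_extChartAt' (by rwa [← extChartAt_source (𝓡 d)])
    refine h1.comp x (ContMDiffAt.comp x hx2 ?_)
    rw [contMDiffAt_iff_contDiffAt]
    exact contDiffAt_id.const_smul _
  have hp : ContDiffAt ℝ ∞ p x := by
    rw [← contMDiffAt_iff_contDiffAt]
    have h1 : ContMDiffAt (𝓡 d) 𝓘(ℝ, EuclideanSpace ℝ (Fin d)) ∞ k (e ((1 - η) • x)) :=
      contMDiffAt_extChartAt' (by rwa [← extChartAt_source (𝓡 d)])
    refine h1.comp x (ContMDiffAt.comp x hx1 ?_)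
    rw [contMDiffAt_iff_contDiffAt]
    exact contDiffAt_id.const_smul _
  have hWs : ContDiffAt ℝ ∞ W (b x, p x) := by
    have h1 := h.inv_smooth (b x) hb2 w hw1
    have h2 : (b x, p x) = (b x, X (b x, w)) := by
      simp only [Prod.mk.injEq, true_and]; exact hw3
    rw [h2]; exact h1
  have hw6 : W (b x, p x) = w := hw5
  have hF1 : ContDiffAt ℝ ∞ (fun x => W (b x, p x)) x := hWs.comp x (hb.prodMk hp)
  have hF2 : ContDiffAt ℝ ∞ (fun x => X (b x, (2 : ℝ) • W (b x, p x))) x := by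
    have h1 : ContDiffAt ℝ ∞ X (b x, (2 : ℝ) • W (b x, p x)) := by
      apply h.smooth.contDiffAt
      apply prod_mem_nhds (isOpen_ball.mem_nhds hb2)
      rw [hw6]
      exact isOpen_ball.mem_nhds (h.small _ hb2 _ hw2)
    exact h1.comp x (hb.prodMk (hF1.const_smul (2 : ℝ)))
  have hmem : X (b x, (2 : ℝ) • W (b x, p x)) ∈ k.target := by
    rw [hw6]; exact h.mem _ hb2 _ (h.small _ hb2 _ hw2)
  have hι : ContMDiffAt 𝓘(ℝ, EuclideanSpace ℝ (Fin d)) (𝓡 d) ∞ k.symm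
      (X (b x, (2 : ℝ) • W (b x, p x))) :=
    (contMDiffOn_extChartAt_symm q).contMDiffAt ((isOpen_extChartAt_target q).mem_nhds hmem)
  have hcomp : ContMDiffAt 𝓘(ℝ, EuclideanSpace ℝ (Fin d)) (𝓡 d) ∞
      (fun x => k.symm (X (b x, (2 : ℝ) • W (b x, p x)))) x :=
    ContMDiffAt.comp (g := k.symm) (f := fun x => X (b x, (2 : ℝ) • W (b x, p x))) x hι
      (contMDiffAt_iff_contDiffAt.2 hF2)
  refine hcomp.congr_of_eventuallyEq ?_
  filter_upwards [hx'] with y hy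
  obtain ⟨-, -, -, -, -, w', -, -, -, hw4', hw5'⟩ := hy
  rw [hw4', ← hw5']

/-- B3: the global exponential map is smooth. -/
theorem smooth_of_ray
    (hray : ∀ (x : EuclideanSpace ℝ (Fin d)) (s t : ℝ),
      dist (e (s • x)) (e (t • x)) = |s - t| * ‖x‖)
    (hloc : ∀ q : M, ∃ g r ρ X W, LocGeo M (extChartAt (𝓡 d) q).target g
      (extChartAt (𝓡 d) q).symm (extChartAt (𝓡 d) q q) r ρ X W)
    (h0 : ∀ᶠ y in 𝓝 0, ContMDiffAt 𝓘(ℝ, EuclideanSpace ℝ (Fin d)) (𝓡 d) ∞ e y) :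
    ContMDiff 𝓘(ℝ, EuclideanSpace ℝ (Fin d)) (𝓡 d) ∞ e := by
  let P : Set (EuclideanSpace ℝ (Fin d)) :=
    {x | ∀ᶠ y in 𝓝 x, ContMDiffAt 𝓘(ℝ, EuclideanSpace ℝ (Fin d)) (𝓡 d) ∞ e y}
  have hP : IsOpen P := isOpen_setOfPred_eventually_nhds
  suffices h : ∀ x, x ∈ P from fun x => (h x).self_of_nhds
  intro x
  by_cases hx : x = 0
  · rw [hx]; exact h0
  by_contra hxP
  let B : Set ℝ := {t | 0 ≤ t ∧ t • x ∉ P}
  have hcont : Continuous fun t : ℝ => t • x := by fun_prop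
  have hB : IsClosed B := isClosed_Ici.inter ((hP.preimage hcont).isClosed_compl)
  have hBne : B.Nonempty := ⟨1, zero_le_one, by simpa using hxP⟩
  have hBdd : BddBelow B := ⟨0, fun t ht => ht.1⟩
  have hT := hB.csInf_mem hBne hBdd
  set T := sInf B with hTdef
  have hT0 : 0 < T := by
    rcases hT.1.eq_or_lt with h1 | h1
    · exfalso
      apply hT.2
      rw [← h1, zero_smul]; exact h0
    · exact h1
  have hlt : ∀ t, 0 ≤ t → t < T → t • x ∈ P := by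
    intro t ht htT
    by_contra h1
    exact absurd (csInf_le hBdd ⟨ht, h1⟩) (not_le.2 htT)
  obtain ⟨g, r, ρ, X, W, hL⟩ := hloc (e (T • x))
  obtain ⟨η₀, hη₀, hstep⟩ := smooth_step hray (smul_ne_zero hT0.ne' hx) hL
  apply hT.2
  have hη : 0 < min (η₀ / 2) (1 / 4) := by positivity
  apply hstep (min (η₀ / 2) (1 / 4)) hη (lt_of_le_of_lt (min_le_left _ _) (by linarith))
  · rw [smul_smul]
    apply hlt
    · apply mul_nonneg _ hT0.le
      linarith [min_le_right (η₀ / 2) (1 / 4 : ℝ)]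
    · nlinarith
  · rw [smul_smul]
    apply hlt
    · apply mul_nonneg _ hT0.le
      linarith [min_le_right (η₀ / 2) (1 / 4 : ℝ)]
    · nlinarith

end smooth

end Pool.Agent.Work.MP_3b24f6_gt.Froz
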