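import Mathlib

set_option autoImplicit false

open Set Filter Topology MeasureTheory
open scoped ContDiff

/-! Smooth dependence of the solutions of ordinary differential equations. -/

namespace Pool.Agent.Work.MP_3b24f6_gt.Flow

noncomputable section

universe u

/-- the unit interval -/
abbrev I1 : Type := Icc (0 : ℝ) 1

/-- continuous paths -/
def CC (E : Type u) [NormedAddCommGroup E] : Type u := C(I1, E)

section CC

variable {E : Type u} [NormedAddCommGroup E]

instance : NormedAddCommGroup (CC E) := inferInstanceAs (NormedAddCommGroup C(I1, E))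

instance [NormedSpace ℝ E] : NormedSpace ℝ (CC E) := inferInstanceAs (NormedSpace ℝ C(I1, E))

instance [CompleteSpace E] : CompleteSpace (CC E) := inferInstanceAs (CompleteSpace C(I1, E))

instance : CoeFun (CC E) (fun _ => I1 → E) := ⟨fun γ => (γ : C(I1, E)).toFun⟩

/-- constructor -/
def CC.mk (f : I1 → E) (hf : Continuous f) : CC E := (⟨f, hf⟩ : C(I1, E))

theorem CC.mk_apply (f : I1 → E) (hf : Continuous f) (s : I1) : CC.mk f hf s = f s := rfl

theorem CC.continuous (γ : CC E) : Continuous (fun s => γ s) := ContinuousMap.continuous (γ : C(I1, E))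

theorem CC.ext {γ η : CC E} (h : ∀ s, γ s = η s) : γ = η := ContinuousMap.ext h

theorem CC.add_apply (γ η : CC E) (s : I1) : (γ + η) s = γ s + η s := rfl

theorem CC.sub_apply (γ η : CC E) (s : I1) : (γ - η) s = γ s - η s := rfl

theorem CC.zero_apply (s : I1) : (0 : CC E) s = 0 := rfl

theorem CC.smul_apply [NormedSpace ℝ E] (c : ℝ) (γ : CC E) (s : I1) : (c • γ) s = c • γ s := rfl

theorem CC.norm_le {γ : CC E} {C : ℝ} (hC : 0 ≤ C) : ‖γ‖ ≤ C ↔ ∀ s, ‖γ s‖ ≤ C :=
  ContinuousMap.norm_le (γ : C(I1, E)) hC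

theorem CC.apply_le (γ : CC E) (s : I1) : ‖γ s‖ ≤ ‖γ‖ := (γ : C(I1, E)).norm_coe_le_norm s

end CC

section Nem

variable {E F G : Type u} [NormedAddCommGroup E] [NormedSpace ℝ E] [NormedAddCommGroup F]
  [NormedSpace ℝ F] [NormedAddCommGroup G] [NormedSpace ℝ G]

/-- superposition operator -/
def nem (f : C(E, F)) (γ : CC E) : CC F := CC.mk (fun s => f (γ s)) (f.continuous.comp γ.continuous)

theorem nem_apply (f : C(E, F)) (γ : CC E) (s : I1) : nem f γ s = f (γ s) := rfl

theorem nem_continuous (f : C(E, F)) : Continuous (nem f) :=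
  ContinuousMap.continuous_postcomp (X := I1) f

/-- pointwise application -/
def appL (b : G →L[ℝ] E →L[ℝ] F) : CC G →ₗ[ℝ] CC E →ₗ[ℝ] CC F where
  toFun A :=
    { toFun := fun h => CC.mk (fun s => b (A s) (h s)) ((b.continuous.comp A.continuous).clm_apply
        h.continuous)
      map_add' := fun h k => CC.ext fun s => by
        simp only [CC.mk_apply, CC.add_apply, map_add]
      map_smul' := fun c h => CC.ext fun s => by
        simp only [CC.mk_apply, CC.smul_apply, map_smul, RingHom.id_apply] }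
  map_add' A B := LinearMap.ext fun h => CC.ext fun s => by
    simp only [LinearMap.coe_mk, AddHom.coe_mk, LinearMap.add_apply, CC.mk_apply, CC.add_apply,
      map_add, ContinuousLinearMap.add_apply]
  map_smul' c A := LinearMap.ext fun h => CC.ext fun s => by
    simp only [LinearMap.coe_mk, AddHom.coe_mk, LinearMap.smul_apply, CC.mk_apply, CC.smul_apply,
      map_smul, ContinuousLinearMap.smul_apply, RingHom.id_apply]

theorem appL_le (b : G →L[ℝ] E →L[ℝ] F) (A : CC G) (h : CC E) :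
    ‖appL b A h‖ ≤ ‖b‖ * ‖A‖ * ‖h‖ := by
  rw [CC.norm_le (by positivity)]
  intro s
  refine (ContinuousLinearMap.le_opNorm _ _).trans ?_
  refine mul_le_mul ?_ (h.apply_le s) (norm_nonneg _) (by positivity)
  exact (b.le_opNorm _).trans (mul_le_mul_of_nonneg_left (A.apply_le s) (norm_nonneg _))

/-- pointwise application -/
def app (b : G →L[ℝ] E →L[ℝ] F) : CC G →L[ℝ] CC E →L[ℝ] CC F :=
  LinearMap.mkContinuous₂ (appL b) ‖b‖ (fun A h => appL_le b A h)

theorem app_apply (b : G →L[ℝ] E →L[ℝ] F) (A : CC G) (h : CC E) (s : I1) :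
    app b A h s = b (A s) (h s) := rfl

theorem norm_app_le (b : G →L[ℝ] E →L[ℝ] F) (A : CC G) {K : ℝ} (hK : 0 ≤ K)
    (hA : ∀ s, ‖b (A s)‖ ≤ K) : ‖app b A‖ ≤ K := by
  refine ContinuousLinearMap.opNorm_le_bound _ hK fun h => ?_
  rw [CC.norm_le (by positivity)]
  intro s
  rw [app_apply]
  exact (ContinuousLinearMap.le_opNorm _ _).trans
    (mul_le_mul (hA s) (h.apply_le s) (norm_nonneg _) hK)

theorem nem_hasFDerivAt (b : G →L[ℝ] E →L[ℝ] F) (f : C(E, F)) (f' : C(E, G))
    (hf : ∀ x, HasFDerivAt f (b (f' x)) x)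
    (γ : CC E) : HasFDerivAt (nem f) (app b (nem f' γ)) γ := by
  rw [hasFDerivAt_iff_isLittleO, Asymptotics.isLittleO_iff]
  intro c hc
  have hb : 0 < ‖b‖ + 1 := by positivity
  obtain ⟨δ, hδ, H⟩ := Metric.continuousAt_iff.1 ((nem_continuous f').continuousAt (x := γ))
    (c / (‖b‖ + 1)) (by positivity)
  have key : ∀ s : I1, ∀ y, dist y (γ s) < δ → ‖b (f' y) - b (f' (γ s))‖ ≤ c := by
    intro s y hy
    have h1 : dist (γ + CC.mk (fun _ => y - γ s) continuous_const) γ < δ := by
      rw [dist_eq_norm, add_sub_cancel_left]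
      refine lt_of_le_of_lt ?_ hy
      rw [CC.norm_le dist_nonneg]
      intro r
      rw [CC.mk_apply, dist_eq_norm]
    have h2 := (H h1).le
    rw [dist_eq_norm, CC.norm_le (by positivity)] at h2
    have h3 := h2 s
    rw [CC.sub_apply, nem_apply, nem_apply, CC.add_apply, CC.mk_apply, add_sub_cancel] at h3
    rw [← map_sub]
    calc ‖b (f' y - f' (γ s))‖ ≤ ‖b‖ * ‖f' y - f' (γ s)‖ := b.le_opNorm _
      _ ≤ (‖b‖ + 1) * (c / (‖b‖ + 1)) :=
        mul_le_mul (by linarith) h3 (norm_nonneg _) hb.le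
      _ = c := by field_simp
  filter_upwards [Metric.ball_mem_nhds γ hδ] with η hη
  rw [CC.norm_le (by positivity)]
  intro s
  have h5 : ‖η s - γ s‖ ≤ ‖η - γ‖ := (η - γ).apply_le s
  have hs : dist (η s) (γ s) < δ := by
    rw [dist_eq_norm]
    rw [Metric.mem_ball, dist_eq_norm] at hη
    exact lt_of_le_of_lt h5 hη
  have h4 : ‖f (η s) - f (γ s) - b (f' (γ s)) (η s - γ s)‖ ≤ c * ‖η s - γ s‖ :=
    (convex_ball (γ s) δ).norm_image_sub_le_of_norm_hasFDerivWithin_le'
      (fun y _ => (hf y).hasFDerivWithinAt) (fun y hy => key s y hy) (Metric.mem_ball_self hδ) hs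
  exact h4.trans (mul_le_mul_of_nonneg_left h5 hc.le)

end Nem

theorem nem_contDiff_nat {E : Type u} [NormedAddCommGroup E] [NormedSpace ℝ E] (n : ℕ) :
    ∀ {F : Type u} [NormedAddCommGroup F] [NormedSpace ℝ F] (f : C(E, F)), ContDiff ℝ n f →
      ContDiff ℝ n (nem f) := by
  induction n with
  | zero =>
    intro F _ _ f _
    rw [Nat.cast_zero, contDiff_zero]
    exact nem_continuous f
  | succ n ih =>
    intro F _ _ f hf
    have hf1 : ContDiff ℝ ((n : ℕ∞ω) + 1) f := by exact_mod_cast hf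
    obtain ⟨hd, -, hf'⟩ := contDiff_succ_iff_fderiv.1 hf1
    have h1 := ih (F := E →L[ℝ] F) ⟨fderiv ℝ f, hf'.continuous⟩ hf'
    have h2 : ContDiff ℝ ((n : ℕ∞ω) + 1) (nem f) := by
      rw [contDiff_succ_iff_hasFDerivAt]
      exact ⟨fun γ => app (ContinuousLinearMap.id ℝ (E →L[ℝ] F))
          (nem ⟨fderiv ℝ f, hf'.continuous⟩ γ),
        (app (ContinuousLinearMap.id ℝ (E →L[ℝ] F))).contDiff.comp h1,
        fun γ => nem_hasFDerivAt (ContinuousLinearMap.id ℝ (E →L[ℝ] F)) f _
          (fun x => (hd x).hasFDerivAt) γ⟩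
    exact_mod_cast h2

theorem nem_contDiff {E F : Type u} [NormedAddCommGroup E] [NormedSpace ℝ E]
    [NormedAddCommGroup F] [NormedSpace ℝ F] (f : C(E, F)) (hf : ContDiff ℝ ∞ f) :
    ContDiff ℝ ∞ (nem f) := by
  rw [contDiff_infty]
  exact fun n => nem_contDiff_nat n f (contDiff_infty.1 hf n)

section Volt

variable {E : Type u} [NormedAddCommGroup E] [NormedSpace ℝ E]

/-- extension of a path to the line -/
def CC.xt (γ : CC E) (r : ℝ) : E := γ (projIcc 0 1 zero_le_one r)

theorem CC.xt_continuous (γ : CC E) : Continuous γ.xt := γ.continuous.comp continuous_projIcc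

theorem CC.xt_norm_int (γ : CC E) (a b : ℝ) :
    IntervalIntegrable (fun r => ‖γ.xt r‖) volume a b :=
  (γ.xt_continuous.norm).intervalIntegrable a b

theorem CC.xt_of_mem (γ : CC E) {r : ℝ} (hr : r ∈ Icc (0 : ℝ) 1) : γ.xt r = γ ⟨r, hr⟩ := by
  rw [CC.xt, projIcc_of_mem zero_le_one hr]

theorem CC.xt_le (γ : CC E) (r : ℝ) : ‖γ.xt r‖ ≤ ‖γ‖ := γ.apply_le _

/-- the integral -/
def volF (γ : CC E) : CC E :=
  CC.mk (fun s => ∫ r in (0 : ℝ)..s, γ.xt r)
    ((intervalIntegral.continuous_primitive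
      (fun a b => γ.xt_continuous.intervalIntegrable a b) 0).comp continuous_subtype_val)

theorem volF_apply (γ : CC E) (s : I1) : volF γ s = ∫ r in (0 : ℝ)..s, γ.xt r := rfl

/-- the integral -/
def vol : CC E →L[ℝ] CC E :=
  LinearMap.mkContinuous
    { toFun := volF
      map_add' := fun γ η => CC.ext fun s => by
        rw [CC.add_apply, volF_apply, volF_apply, volF_apply,
          ← intervalIntegral.integral_add (γ.xt_continuous.intervalIntegrable _ _)
          (η.xt_continuous.intervalIntegrable _ _)]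
        rfl
      map_smul' := fun c γ => CC.ext fun s => by
        rw [CC.smul_apply, volF_apply, volF_apply, RingHom.id_apply,
          ← intervalIntegral.integral_smul]
        rfl } 1
    (fun γ => by
      rw [one_mul, CC.norm_le (norm_nonneg _)]
      intro s
      refine (intervalIntegral.norm_integral_le_of_norm_le_const
        (fun r _ => γ.xt_le r)).trans ?_
      rw [sub_zero, abs_of_nonneg s.2.1]
      exact mul_le_of_le_one_right (norm_nonneg _) s.2.2)

theorem vol_apply (γ : CC E) (s : I1) : vol γ s = ∫ r in (0 : ℝ)..s, γ.xt r := rfl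

theorem norm_vol_apply_le (γ : CC E) (s : I1) :
    ‖vol γ s‖ ≤ ∫ r in (0 : ℝ)..s, ‖γ.xt r‖ := by
  rw [vol_apply]
  exact intervalIntegral.norm_integral_le_integral_norm s.2.1

/-- constant paths -/
def cst : E →L[ℝ] CC E :=
  LinearMap.mkContinuous
    { toFun := fun x => CC.mk (fun _ => x) continuous_const
      map_add' := fun x y => rfl
      map_smul' := fun c x => rfl } 1
    (fun x => by
      rw [one_mul, CC.norm_le (norm_nonneg _)]
      intro s
      exact le_rfl)

theorem cst_apply (x : E) (s : I1) : cst x s = x := rfl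

/-- iterated Volterra estimate -/
theorem iter_bound {S : CC E → CC E} {c : ℝ} (hc : 0 ≤ c)
    (hS : ∀ γ η : CC E, ∀ s : I1, ‖(S γ - S η) s‖ ≤ c * ∫ r in (0 : ℝ)..s, ‖(γ - η).xt r‖)
    (n : ℕ) (γ η : CC E) (s : I1) :
    ‖(S^[n] γ - S^[n] η) s‖ ≤ (c * s) ^ n / n.factorial * ‖γ - η‖ := by
  induction n generalizing s with
  | zero =>
    simp only [Function.iterate_zero, id_eq, pow_zero, Nat.factorial_zero, Nat.cast_one, div_one,
      one_mul]
    exact (γ - η).apply_le s
  | succ n ih =>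
    rw [Function.iterate_succ_apply', Function.iterate_succ_apply']
    refine (hS _ _ s).trans ?_
    have h1 : (∫ r in (0 : ℝ)..s, ‖(S^[n] γ - S^[n] η).xt r‖) ≤
        ∫ r in (0 : ℝ)..s, (c * r) ^ n / n.factorial * ‖γ - η‖ := by
      refine intervalIntegral.integral_mono_on s.2.1
        (CC.xt_norm_int _ _ _) (by
          apply Continuous.intervalIntegrable; fun_prop) ?_
      intro r hr
      have hr' : r ∈ Icc (0 : ℝ) 1 := ⟨hr.1, hr.2.trans s.2.2⟩
      rw [CC.xt_of_mem _ hr']
      exact ih ⟨r, hr'⟩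
    refine (mul_le_mul_of_nonneg_left h1 hc).trans (le_of_eq ?_)
    have h2 : (fun r : ℝ => (c * r) ^ n / n.factorial * ‖γ - η‖) =
        fun r => (c ^ n / n.factorial * ‖γ - η‖) * r ^ n := by
      funext r
      rw [mul_pow]
      ring
    rw [h2, intervalIntegral.integral_const_mul, integral_pow, Nat.factorial_succ, mul_pow]
    have : (n.factorial : ℝ) ≠ 0 := by positivity
    have h3 : ((n : ℝ) + 1) ≠ 0 := by positivity
    push_cast
    field_simp
    simp
    ring

theorem iter_norm {S : CC E → CC E} {c : ℝ} (hc : 0 ≤ c)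
    (hS : ∀ γ η : CC E, ∀ s : I1, ‖(S γ - S η) s‖ ≤ c * ∫ r in (0 : ℝ)..s, ‖(γ - η).xt r‖)
    (n : ℕ) (γ η : CC E) :
    ‖S^[n] γ - S^[n] η‖ ≤ c ^ n / n.factorial * ‖γ - η‖ := by
  rw [CC.norm_le (by positivity)]
  intro s
  refine (iter_bound hc hS n γ η s).trans ?_
  refine mul_le_mul_of_nonneg_right ?_ (norm_nonneg _)
  refine div_le_div_of_nonneg_right ?_ (by positivity)
  exact pow_le_pow_left₀ (mul_nonneg hc s.2.1) (mul_le_of_le_one_right hc s.2.2) n

end Volt

section Sol

variable {E : Type u} [NormedAddCommGroup E] [NormedSpace ℝ E]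

/-- the Picard operator -/
def pic (f : C(E, E)) (lam : ℝ) (x : E) (γ : CC E) : CC E := cst x + lam • vol (nem f γ)

theorem pic_bound {f : C(E, E)} {K : ℝ} (hf : ∀ x y, ‖f x - f y‖ ≤ K * ‖x - y‖)
    (lam : ℝ) (x : E) (γ η : CC E) (s : I1) :
    ‖(pic f lam x γ - pic f lam x η) s‖ ≤ |lam| * K * ∫ r in (0 : ℝ)..s, ‖(γ - η).xt r‖ := by
  have h1 : pic f lam x γ - pic f lam x η = lam • vol (nem f γ - nem f η) := by
    rw [pic, pic, map_sub, smul_sub]
    abel
  rw [h1, CC.smul_apply, norm_smul, Real.norm_eq_abs, mul_assoc]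
  refine mul_le_mul_of_nonneg_left ?_ (abs_nonneg _)
  refine (norm_vol_apply_le _ _).trans ?_
  rw [← intervalIntegral.integral_const_mul]
  refine intervalIntegral.integral_mono_on s.2.1 (CC.xt_norm_int _ _ _)
    ((CC.xt_norm_int _ _ _).const_mul _) ?_
  intro r _
  exact hf _ _

end Sol

end

end Pool.Agent.Work.MP_3b24f6_gt.Flow
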