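import Pool.Agent.Work.MP_3b24f6_gt.S.FlowA

set_option autoImplicit false

open Set Filter Topology MeasureTheory
open scoped ContDiff

namespace Pool.Agent.Work.MP_3b24f6_gt.Flow

noncomputable section

universe u

theorem exists_small (c : ℝ) : ∃ n : ℕ, c ^ n / n.factorial ≤ 1 / 2 :=
  ((FloorSemiring.tendsto_pow_div_factorial_atTop c).eventually
    (ge_mem_nhds (by norm_num : (0 : ℝ) < 1 / 2))).exists

section Fix

variable {E : Type u} [NormedAddCommGroup E] [NormedSpace ℝ E]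

theorem fix_unique {S : CC E → CC E} {c : ℝ} (hc : 0 ≤ c)
    (hS : ∀ γ η : CC E, ∀ s : I1, ‖(S γ - S η) s‖ ≤ c * ∫ r in (0 : ℝ)..s, ‖(γ - η).xt r‖)
    {γ η : CC E} (h1 : S γ = γ) (h2 : S η = η) : γ = η := by
  obtain ⟨n, hn⟩ := exists_small c
  have h3 := iter_norm hc hS n γ η
  rw [Function.iterate_fixed h1, Function.iterate_fixed h2] at h3
  have h4 : ‖γ - η‖ ≤ 1 / 2 * ‖γ - η‖ :=
    h3.trans (mul_le_mul_of_nonneg_right hn (norm_nonneg _))
  have h5 : ‖γ - η‖ = 0 := le_antisymm (by linarith) (norm_nonneg _)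
  exact sub_eq_zero.1 (norm_eq_zero.1 h5)

theorem fix_exists [CompleteSpace E] {S : CC E → CC E} {c : ℝ} (hc : 0 ≤ c)
    (hS : ∀ γ η : CC E, ∀ s : I1, ‖(S γ - S η) s‖ ≤ c * ∫ r in (0 : ℝ)..s, ‖(γ - η).xt r‖) :
    ∃ γ, S γ = γ := by
  obtain ⟨n, hn⟩ := exists_small c
  have h : ContractingWith (1 / 2) S^[n] := by
    refine ⟨by rw [← NNReal.coe_lt_coe]; push_cast; norm_num, LipschitzWith.of_dist_le_mul fun γ η => ?_⟩
    rw [dist_eq_norm, dist_eq_norm]
    refine (iter_norm hc hS n γ η).trans ?_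
    refine mul_le_mul_of_nonneg_right ?_ (norm_nonneg _)
    push_cast
    exact hn
  haveI : Nonempty (CC E) := ⟨0⟩
  exact ⟨_, h.isFixedPt_fixedPoint_iterate⟩

theorem isUnit_one_sub {R : Type*} [Ring R] (x : R) (n : ℕ) (h : IsUnit (1 - x ^ n)) :
    IsUnit (1 - x) := by
  obtain ⟨v, hv⟩ := h
  rw [isUnit_iff_exists_and_exists]
  refine ⟨⟨(∑ i ∈ Finset.range n, x ^ i) * ↑v⁻¹, ?_⟩, ⟨↑v⁻¹ * (∑ i ∈ Finset.range n, x ^ i), ?_⟩⟩
  · rw [← mul_assoc, mul_neg_geom_sum, ← hv, Units.mul_inv]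
  · rw [mul_assoc, geom_sum_mul_neg, ← hv, Units.inv_mul]

theorem one_sub_invertible [CompleteSpace E] (W : CC E →L[ℝ] CC E) {c : ℝ} (hc : 0 ≤ c)
    (hS : ∀ γ η : CC E, ∀ s : I1, ‖(W γ - W η) s‖ ≤ c * ∫ r in (0 : ℝ)..s, ‖(γ - η).xt r‖) :
    (1 - W).IsInvertible := by
  obtain ⟨n, hn⟩ := exists_small c
  have h1 : ‖W ^ n‖ < 1 := by
    refine lt_of_le_of_lt (ContinuousLinearMap.opNorm_le_bound _ (by norm_num : (0 : ℝ) ≤ 1 / 2)
      fun γ => ?_) (by norm_num)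
    have h2 := iter_norm hc hS n γ 0
    rw [← FunLike.coe_pow_eq_iterate W n, map_zero, sub_zero, sub_zero] at h2
    exact h2.trans (mul_le_mul_of_nonneg_right hn (norm_nonneg _))
  obtain ⟨v, hv⟩ := isUnit_one_sub W n (isUnit_one_sub_of_norm_lt_one h1)
  exact ⟨ContinuousLinearEquiv.unitsEquiv ℝ (CC E) v, hv⟩

end Fix

section Sol

variable {E : Type u} [NormedAddCommGroup E] [NormedSpace ℝ E]

/-- the map whose zeros are the solutions -/
def FF (f : C(E, E)) (p : (ℝ × E) × CC E) : CC E := p.2 - pic f p.1.1 p.1.2 p.2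

theorem FF_contDiff (f : C(E, E)) (hf : ContDiff ℝ ∞ f) : ContDiff ℝ ∞ (FF f) := by
  unfold FF pic
  have h1 := nem_contDiff f hf
  have h2 : ContDiff ℝ ∞ (fun p : (ℝ × E) × CC E => nem f p.2) := h1.comp contDiff_snd
  fun_prop

theorem FF_deriv [CompleteSpace E] (f : C(E, E)) (hf : ContDiff ℝ ∞ f) (p : (ℝ × E) × CC E) :
    (fderiv ℝ (FF f) p ∘L .inr ℝ (ℝ × E) (CC E)).IsInvertible := by
  obtain ⟨⟨lam, x⟩, γ⟩ := p
  have hf1 : ContDiff ℝ ∞ (fderiv ℝ f) := hf.fderiv_right (by simp)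
  set f' : C(E, E →L[ℝ] E) := ⟨fderiv ℝ f, hf1.continuous⟩ with hf'
  set W : CC E →L[ℝ] CC E := lam • (vol ∘L app (ContinuousLinearMap.id ℝ (E →L[ℝ] E)) (nem f' γ))
    with hW
  have h1 : HasFDerivAt (fun η => FF f ((lam, x), η)) (1 - W) γ := by
    have h2 : HasFDerivAt (nem f) (app (ContinuousLinearMap.id ℝ (E →L[ℝ] E)) (nem f' γ)) γ :=
      nem_hasFDerivAt _ f f' (fun y => (hf.differentiable (by simp) y).hasFDerivAt) γ
    have h3 := (vol.hasFDerivAt (x := nem f γ)).comp γ h2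
    have h4 := (hasFDerivAt_id γ).sub ((h3.const_smul lam).const_add (cst x))
    exact h4
  have h5 : HasFDerivAt (fun η => FF f ((lam, x), η))
      (fderiv ℝ (FF f) ((lam, x), γ) ∘L .inr ℝ (ℝ × E) (CC E)) γ := by
    have h6 : HasFDerivAt (FF f) (fderiv ℝ (FF f) ((lam, x), γ)) ((lam, x), γ) :=
      ((FF_contDiff f hf).differentiable (by simp) _).hasFDerivAt
    have h7 : HasFDerivAt (fun η : CC E => (((lam, x), η) : (ℝ × E) × CC E))
      (.inr ℝ (ℝ × E) (CC E)) γ := hasFDerivAt_prodMk_right (lam, x) γ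
    exact h6.comp γ h7
  rw [h5.unique h1]
  refine one_sub_invertible W (c := |lam| * ‖nem f' γ‖) (by positivity) ?_
  intro η ζ s
  have h8 : W η - W ζ = lam • vol (app (ContinuousLinearMap.id ℝ (E →L[ℝ] E)) (nem f' γ) (η - ζ)) := by
    rw [← map_sub]; rfl
  rw [h8, CC.smul_apply, norm_smul, Real.norm_eq_abs, mul_assoc]
  refine mul_le_mul_of_nonneg_left ?_ (abs_nonneg _)
  refine (norm_vol_apply_le _ _).trans ?_
  rw [← intervalIntegral.integral_const_mul]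
  refine intervalIntegral.integral_mono_on s.2.1 (CC.xt_norm_int _ _ _)
    ((CC.xt_norm_int _ _ _).const_mul _) ?_
  intro r _
  exact (ContinuousLinearMap.le_opNorm _ _).trans
    (mul_le_mul_of_nonneg_right ((nem f' γ).apply_le _) (norm_nonneg _))

/-- global Lipschitz hypothesis -/
def Lip (f : C(E, E)) : Prop := ∃ K : ℝ, 0 ≤ K ∧ ∀ x y, ‖f x - f y‖ ≤ K * ‖x - y‖

variable [CompleteSpace E]

theorem sol_exists (f : C(E, E)) (hL : Lip f) (lam : ℝ) (x : E) : ∃ γ, pic f lam x γ = γ := by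
  obtain ⟨K, hK, h⟩ := hL
  exact fix_exists (c := |lam| * K) (by positivity) (pic_bound h lam x)

theorem sol_unique (f : C(E, E)) (hL : Lip f) (lam : ℝ) (x : E) {γ η : CC E}
    (h1 : pic f lam x γ = γ) (h2 : pic f lam x η = η) : γ = η := by
  obtain ⟨K, hK, h⟩ := hL
  exact fix_unique (c := |lam| * K) (by positivity) (pic_bound h lam x) h1 h2

/-- the solution path -/
def sol (f : C(E, E)) (hL : Lip f) (p : ℝ × E) : CC E := (sol_exists f hL p.1 p.2).choose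

theorem sol_spec (f : C(E, E)) (hL : Lip f) (p : ℝ × E) :
    pic f p.1 p.2 (sol f hL p) = sol f hL p := (sol_exists f hL p.1 p.2).choose_spec

theorem sol_contDiff (f : C(E, E)) (hL : Lip f) (hf : ContDiff ℝ ∞ f) :
    ContDiff ℝ ∞ (sol f hL) := by
  rw [contDiff_iff_contDiffAt]
  intro p
  have h1 : ContDiffAt ℝ ∞ (FF f) (p, sol f hL p) := (FF_contDiff f hf).contDiffAt
  have h0 : FF f (p, sol f hL p) = 0 := sub_eq_zero.2 (sol_spec f hL p).symm
  have h2 := h1.contDiffAt_implicitFunction (by simp) (FF_deriv f hf _)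
  have h3 := h1.eventually_apply_implicitFunction (by simp) (FF_deriv f hf _)
  refine h2.congr_of_eventuallyEq ?_
  filter_upwards [h3] with q hq
  rw [h0] at hq
  exact sol_unique f hL q.1 q.2 (sol_spec f hL q) (sub_eq_zero.1 hq).symm

end Sol

end

end Pool.Agent.Work.MP_3b24f6_gt.Flow
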