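import Pool.Agent.Work.MP_3b24f6_gt.S.FlowB

set_option autoImplicit false

open Set Filter Topology MeasureTheory
open scoped ContDiff

namespace Pool.Agent.Work.MP_3b24f6_gt.Flow

noncomputable section

universe u

section Glob

variable {E : Type u} [NormedAddCommGroup E] [NormedSpace ℝ E]

/-- evaluation -/
def ev (s : I1) : CC E →L[ℝ] E :=
  LinearMap.mkContinuous { toFun := fun γ => γ s, map_add' := fun _ _ => rfl,
                           map_smul' := fun _ _ => rfl } 1
    (fun γ => by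
      rw [one_mul]
      exact γ.apply_le s)

theorem ev_apply (s : I1) (γ : CC E) : ev s γ = γ s := rfl

/-- the end point of the unit interval -/
def one1 : I1 := ⟨1, right_mem_Icc.2 zero_le_one⟩

variable [CompleteSpace E]

/-- the flow -/
def phi (f : C(E, E)) (hL : Lip f) (t : ℝ) (x : E) : E := sol f hL (t, x) one1

variable (f : C(E, E)) (hL : Lip f)

theorem phi_contDiff (hf : ContDiff ℝ ∞ f) : ContDiff ℝ ∞ (Function.uncurry (phi f hL)) :=
  (ev one1).contDiff.comp (sol_contDiff f hL hf)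

theorem sol_int (lam : ℝ) (x : E) (s : I1) :
    sol f hL (lam, x) s = x + ∫ q in (0 : ℝ)..lam * s, f ((sol f hL (lam, x)).xt (q / lam)) := by
  have h1 := sol_spec f hL (lam, x)
  have h2 : pic f lam x (sol f hL (lam, x)) s = sol f hL (lam, x) s := by rw [h1]
  rw [← h2, pic, CC.add_apply, cst_apply, CC.smul_apply, vol_apply]
  congr 1
  by_cases h : lam = 0
  · subst h; simp
  · have h3 := intervalIntegral.smul_integral_comp_mul_left
      (fun q => f ((sol f hL (lam, x)).xt (q / lam))) lam (a := 0) (b := (s : ℝ))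
    rw [mul_zero] at h3
    rw [← h3]
    congr 1
    refine intervalIntegral.integral_congr fun r _ => ?_
    rw [mul_div_cancel_left₀ _ h]
    rfl

theorem sol_scale (lam : ℝ) (x : E) (s : I1) : sol f hL (lam, x) s = phi f hL (lam * s) x := by
  have hm : ∀ r : I1, (s : ℝ) * r ∈ Icc (0 : ℝ) 1 := fun r =>
    ⟨mul_nonneg s.2.1 r.2.1, mul_le_one₀ s.2.2 r.2.1 r.2.2⟩
  set η : CC E := CC.mk (fun r => (sol f hL (lam, x)) ⟨s * r, hm r⟩)
    ((sol f hL (lam, x)).continuous.comp
      (Continuous.subtype_mk (continuous_const.mul continuous_subtype_val) _)) with hη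
  have h1 : pic f (lam * s) x η = η := by
    refine CC.ext fun r => ?_
    rw [pic, CC.add_apply, cst_apply, CC.smul_apply, vol_apply]
    have h2 : η r = sol f hL (lam, x) ⟨s * r, hm r⟩ := rfl
    rw [h2]
    have h3 : pic f lam x (sol f hL (lam, x)) ⟨s * r, hm r⟩ =
      sol f hL (lam, x) ⟨s * r, hm r⟩ := by rw [sol_spec f hL (lam, x)]
    rw [← h3, pic, CC.add_apply, cst_apply, CC.smul_apply, vol_apply]
    congr 1
    have h4 := intervalIntegral.smul_integral_comp_mul_left
      ((nem f (sol f hL (lam, x))).xt) (s : ℝ) (a := 0) (b := (r : ℝ))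
    rw [mul_zero] at h4
    rw [mul_smul]
    congr 1
    rw [← h4]
    congr 1
    refine intervalIntegral.integral_congr fun q hq => ?_
    rw [uIcc_of_le r.2.1] at hq
    have hq1 : q ∈ Icc (0 : ℝ) 1 := ⟨hq.1, hq.2.trans r.2.2⟩
    rw [CC.xt_of_mem _ hq1, CC.xt_of_mem _ (hm ⟨q, hq1⟩)]
    rfl
  have h5 : η = sol f hL (lam * s, x) := sol_unique f hL _ _ h1 (sol_spec f hL (lam * s, x))
  rw [phi, ← h5]
  have h6 : η one1 = sol f hL (lam, x) ⟨s * (one1 : I1), hm one1⟩ := rfl
  rw [h6]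
  congr 1
  exact Subtype.ext (mul_one _).symm

theorem phi_zero (x : E) : phi f hL 0 x = x := by
  rw [phi, sol_int, zero_mul, intervalIntegral.integral_same, add_zero]

theorem phi_cont (x : E) (hf : ContDiff ℝ ∞ f) : Continuous (fun t => phi f hL t x) :=
  (phi_contDiff f hL hf).continuous.comp (continuous_id.prodMk continuous_const)

theorem phi_int (t : ℝ) (x : E) :
    phi f hL t x = x + ∫ q in (0 : ℝ)..t, f (phi f hL q x) := by
  rw [phi, sol_int]
  congr 1
  have h0 : t * ((one1 : I1) : ℝ) = t := mul_one _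
  rw [h0]
  by_cases ht : t = 0
  · subst ht; simp
  refine intervalIntegral.integral_congr fun q hq => ?_
  have h1 : q / t ∈ Icc (0 : ℝ) 1 := by
    rcases lt_or_gt_of_ne ht with h | h
    · rw [uIcc_of_ge h.le] at hq
      exact ⟨div_nonneg_of_nonpos hq.2 h.le, (div_le_one_of_neg h).2 hq.1⟩
    · rw [uIcc_of_le h.le] at hq
      exact ⟨div_nonneg hq.1 h.le, (div_le_one h).2 hq.2⟩
  rw [CC.xt_of_mem _ h1, sol_scale]
  congr 2
  show t * (q / t) = q
  field_simp

theorem phi_hasDerivAt (hf : ContDiff ℝ ∞ f) (t : ℝ) (x : E) :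
    HasDerivAt (fun s => phi f hL s x) (f (phi f hL t x)) t := by
  have h1 : (fun s => phi f hL s x) = fun s => x + ∫ q in (0 : ℝ)..s, f (phi f hL q x) := by
    funext s
    exact phi_int f hL s x
  rw [h1]
  have h2 : Continuous (fun q => f (phi f hL q x)) := f.continuous.comp (phi_cont f hL x hf)
  exact ((h2.integral_hasStrictDerivAt 0 t).hasDerivAt).const_add x

theorem Lip.lipschitzWith {f : C(E, E)} (hL : Lip f) : ∃ K : NNReal, LipschitzWith K f := by
  obtain ⟨K, hK, h⟩ := hL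
  exact ⟨⟨K, hK⟩, LipschitzWith.of_dist_le_mul fun x y => by
    rw [dist_eq_norm, dist_eq_norm]; exact h x y⟩

theorem phi_unique (hf : ContDiff ℝ ∞ f) {γ : ℝ → E} (hγ : ∀ t, HasDerivAt γ (f (γ t)) t) (t : ℝ) :
    γ t = phi f hL t (γ 0) := by
  obtain ⟨K, hK⟩ := hL.lipschitzWith
  have h1 : γ = fun t => phi f hL t (γ 0) :=
    ODE_solution_unique_univ (v := fun _ => f) (s := fun _ => univ) (K := K) (t₀ := 0)
      (fun _ => hK.lipschitzOnWith) (fun t => ⟨hγ t, mem_univ _⟩)
      (fun t => ⟨phi_hasDerivAt f hL hf t (γ 0), mem_univ _⟩) (phi_zero f hL _).symm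
  exact congrFun h1 t

theorem phi_unique_Icc (hf : ContDiff ℝ ∞ f) {γ : ℝ → E} {T : ℝ}
    (hc : ContinuousOn γ (Icc 0 T))
    (hγ : ∀ t ∈ Ico 0 T, HasDerivWithinAt γ (f (γ t)) (Ici t) t) :
    ∀ t ∈ Icc 0 T, γ t = phi f hL t (γ 0) := by
  obtain ⟨K, hK⟩ := hL.lipschitzWith
  exact ODE_solution_unique_of_mem_Icc_right (v := fun _ => f) (s := fun _ => univ) (K := K)
      (fun _ _ => hK.lipschitzOnWith) hc hγ (fun _ _ => mem_univ _)
      (phi_cont f hL _ hf).continuousOn
      (fun t _ => (phi_hasDerivAt f hL hf t (γ 0)).hasDerivWithinAt) (fun _ _ => mem_univ _)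
      (phi_zero f hL _).symm

theorem phi_add (hf : ContDiff ℝ ∞ f) (s t : ℝ) (x : E) :
    phi f hL (s + t) x = phi f hL s (phi f hL t x) := by
  have h1 : ∀ s, HasDerivAt (fun s => phi f hL (s + t) x) (f (phi f hL (s + t) x)) s := fun s =>
    (phi_hasDerivAt f hL hf (s + t) x).comp_add_const s t
  have h2 := phi_unique f hL hf h1 s
  simp only [zero_add] at h2
  exact h2

end Glob

end

end Pool.Agent.Work.MP_3b24f6_gt.Flow
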