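import Pool.Agent.Work.MP_3b24f6_gt.S.AreaFront
import Pool.Agent.Work.MP_3b24f6_gt.S.SphF
import Pool.Agent.Work.MP_3b24f6_gt.H0.Model

/-!
# Hausdorff measures of the real hyperbolic model

The inputs (V), (A), (S) of the assembly for `w = 0`.
-/

set_option autoImplicit false
set_option linter.unusedSectionVars false

open MeasureTheory Set Filter Topology Metric Module Measure
open scoped ENNReal NNReal MeasureTheory InnerProductSpace ContDiff

namespace Pool.Agent.Work.MP_3b24f6_gt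

noncomputable section

namespace AFr

variable {E : Type*} [NormedAddCommGroup E] [InnerProductSpace ℝ E] [FiniteDimensional ℝ E]
  [MeasurableSpace E] [BorelSpace E]
  {M : Type*} [MetricSpace M] [MeasurableSpace M] [BorelSpace M]

omit [MeasurableSpace E] [BorelSpace E] in
theorem norm_dm0 (y ξ : E) : ‖dm0 y ξ‖ = an0 y ξ := by
  rw [an0, ← norm_dm0_sq, Real.sqrt_sq (norm_nonneg _)]

omit [MeasurableSpace E] [BorelSpace E] in
theorem rho0_fun : (rho0 : E → ℝ) = fun y => 1 / uu y := by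
  funext y
  rw [rho0, one_div]

omit [MeasurableSpace E] [BorelSpace E] in
theorem frame0 : Frame (E := E) sqT0 rho0 dm0 := by
  rw [rho0_fun]
  exact frame_zero

omit [MeasurableSpace E] [BorelSpace E] in
theorem norm_sqT0_le_one (y v : E) : ‖sqT0 y v‖ ≤ 1 ↔ mg0 y v ≤ 1 := by
  rw [mg0, ← norm_sqT0_sq]
  constructor
  · intro h
    exact pow_le_one₀ (norm_nonneg _) h
  · intro h
    by_contra hcon
    push Not at hcon
    nlinarith

theorem area0_eq (D : Set E) : area0 D = areaG sqT0 rho0 D := by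
  unfold area0 areaG
  refine le_antisymm (iSup_le fun X => ?_) (iSup_le fun X => ?_)
  · exact le_iSup (fun X : {X : E → E // ContDiff ℝ ∞ X ∧ HasCompactSupport X ∧
      ∀ y, ‖sqT0 y (X y)‖ ≤ 1} => ENNReal.ofReal (∫ y in D,
        divE (fun z => rho0 z • X.1 z) y))
      ⟨X.1, X.2.1, X.2.2.1, fun y => (norm_sqT0_le_one y _).2 (X.2.2.2 y)⟩
  · exact le_iSup (fun X : {X : E → E // ContDiff ℝ ∞ X ∧ HasCompactSupport X ∧
      ∀ y, mg0 y (X y) ≤ 1} => ENNReal.ofReal (∫ y in D,
        divE (fun z => rho0 z • X.1 z) y))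
      ⟨X.1, X.2.1, X.2.2.1, fun y => (norm_sqT0_le_one y _).1 (X.2.2.2 y)⟩

/-- (A): perimeter at most the Hausdorff measure of the boundary. -/
theorem area0_le_frontier {D : Set E} (hD : SmoothDomain D) {Ψ : E → M}
    (hinj : Function.Injective Ψ) {l : ℝ} (hl : 0 < l) (hΨ : AFHyp Ψ univ fun y => l • sqT0 y)
    {n : ℕ} (hn : n + 1 = finrank ℝ E) :
    ENNReal.ofReal (l ^ n) * area0 D ≤ μHE[n] (Ψ '' frontier D) := by
  obtain ⟨w, hw, rfl⟩ := (smoothDomain_iff D).1 hD
  rw [frontier_reg hw, area0_eq]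
  exact frame0.areaG_le_front hw hinj hl hΨ hn

/-- (S): the Hausdorff measure of a sphere is at most the perimeter of the ball. -/
theorem sphere_le_area0 {s : ℝ} (hs : 0 < s) {Ψ : E → M}
    (hinj : Function.Injective Ψ) {l : ℝ} (hl : 0 < l) (hΨ : AFHyp Ψ univ fun y => l • sqT0 y)
    {n : ℕ} (hn : n + 1 = finrank ℝ E) :
    μHE[n] (Ψ '' sphere 0 s) ≤ ENNReal.ofReal (l ^ n) * area0 (ball (0 : E) s) := by
  obtain ⟨μ, hμ⟩ := exists_delta (wS_isReg (E := E) hs)
  have h1 := frame0.hausdorff_surf (wS_isReg (E := E) hs) hμ hinj hl hΨ hn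
    (measurableSet_surf (wS_isReg (E := E) hs)) (fun x hx => hx)
  have h2 : μ.restrict {x | wS s x = 0} = μ := by
    rw [Measure.restrict_eq_self_of_ae_mem]
    exact hμ.supp
  rw [h2, wS_zero hs] at h1
  rw [h1]
  gcongr
  have he : ∀ y : E, rho0 y * ‖dm0 y (gradient (wS s) y)‖ = rho0 y * (2 * uu y * ‖y‖) := by
    intro y
    congr 1
    have h3 : dm0 y ((2 : ℝ) • y) = (2 * uu y) • y := by
      have hu := vf_uu_pos y
      have hu2 := vf_uu_sq y
      rw [dm0, inner_smul_right, real_inner_self_eq_norm_sq, ← add_smul]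
      congr 1
      field_simp
      nlinarith
    rw [wS_gradient, h3, norm_smul, Real.norm_of_nonneg (by have := vf_uu_pos y; positivity)]
  simp only [he]
  refine sphere_flux_of frame0.smooth (fun y => (frame0.pos y).le) (mg0 (E := E)) ?_ hs hμ
  intro y c
  have h0 : uu y ^ 2 ≠ 0 := by
    have := vf_uu_pos y
    positivity
  have h4 := vf_uu_sq y
  rw [mg0, norm_smul, inner_smul_right, real_inner_self_eq_norm_sq, mul_pow, Real.norm_eq_abs,
    sq_abs, div_pow, mul_pow, eq_div_iff h0, sub_mul, div_mul_cancel₀ _ h0, h4]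
  ring

/-- (V): volume is the Hausdorff measure of top dimension. -/
theorem vol_hausdorff0 {Ψ : E → M} (hinj : Function.Injective Ψ) {l : ℝ} (hl : 0 < l)
    (h : AFHyp Ψ univ fun y => l • sqT0 y) {D : Set E} (hD : MeasurableSet D) :
    μHE[finrank ℝ E] (Ψ '' D) = ENNReal.ofReal (l ^ finrank ℝ E) * mu0 D := by
  have hdet : ∀ y : E, ((l • sqT0 y : E →L[ℝ] E)).det = l ^ finrank ℝ E * rho0 y := by
    intro y
    have h1 : ((l • sqT0 y : E →L[ℝ] E)).det
        = LinearMap.det (l • ((sqT0 y : E →L[ℝ] E) : E →ₗ[ℝ] E)) := rfl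
    rw [h1, LinearMap.det_smul]
    congr 1
    exact frame0.det y
  rw [area_formulaE isOpen_univ hinj.injOn h (fun x _ => ?_) hD (subset_univ _)]
  · rw [mu0, withDensity_apply _ hD, ← lintegral_const_mul']
    · refine lintegral_congr fun y => ?_
      rw [hdet, abs_of_pos (mul_pos (by positivity) (frame0.pos y)),
        ENNReal.ofReal_mul (by positivity)]
    · exact ENNReal.ofReal_ne_top
  · rw [hdet]
    exact (mul_pos (by positivity) (frame0.pos x)).ne'

end AFr

end

end Pool.Agent.Work.MP_3b24f6_gt
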