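import Pool.Agent.Work.MP_3b24f6_gt.S.Chris

set_option autoImplicit false
set_option maxSynthPendingDepth 3
set_option linter.unusedSectionVars false

open Set Filter Topology Metric
open scoped ContDiff

/-! Energy and the Gauss lemma. -/

namespace Pool.Agent.Work.MP_3b24f6_gt.Froz

noncomputable section

variable {E : Type*} [NormedAddCommGroup E] [NormedSpace ℝ E]

/-- The exponential map at one point. -/
structure PExp (U : Set E) (Γ : E → E →L[ℝ] E →L[ℝ] E) (r : ℝ) (Y : E → E) : Prop where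
  pos : 0 < r
  smooth : ContDiffOn ℝ ∞ Y (ball 0 r)
  mem : ∀ v ∈ ball (0 : E) r, Y v ∈ U
  deriv_zero : fderiv ℝ Y 0 = ContinuousLinearMap.id ℝ E
  geod : ∀ (v : E) (t : ℝ), t • v ∈ ball (0 : E) r →
    HasDerivAt (fun s : ℝ => fderiv ℝ Y (s • v) v)
      (-(Γ (Y (t • v)) (fderiv ℝ Y (t • v) v) (fderiv ℝ Y (t • v) v))) t

theorem IsExp.pexp {U : Set E} {Γ : E → E →L[ℝ] E →L[ℝ] E} {p₀ : E} {r : ℝ} {X : E × E → E}
    (hX : IsExp U Γ p₀ r X) {p : E} (hp : p ∈ ball p₀ r) :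
    PExp U Γ r (fun w => X (p, w)) where
  pos := hX.pos
  smooth := hX.smooth.comp (contDiff_const.prodMk contDiff_id).contDiffOn
    (fun _ hv => ⟨hp, hv⟩)
  mem := hX.mem p hp
  deriv_zero := hX.deriv_zero p hp
  geod := hX.geod p hp

namespace PExp

variable {U : Set E} {g : E → E →L[ℝ] E →L[ℝ] ℝ} {Γ : E → E →L[ℝ] E →L[ℝ] E} {r : ℝ}
  {Y : E → E}

theorem contDiffAt (h : PExp U Γ r Y) {v : E} (hv : v ∈ ball (0 : E) r) : ContDiffAt ℝ ∞ Y v :=
  h.smooth.contDiffAt (isOpen_ball.mem_nhds hv)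

theorem hasFDerivAt (h : PExp U Γ r Y) {v : E} (hv : v ∈ ball (0 : E) r) :
    HasFDerivAt Y (fderiv ℝ Y v) v :=
  ((h.contDiffAt hv).differentiableAt (by simp)).hasFDerivAt

theorem hasFDerivAt_two (h : PExp U Γ r Y) {v : E} (hv : v ∈ ball (0 : E) r) :
    HasFDerivAt (fderiv ℝ Y) (fderiv ℝ (fderiv ℝ Y) v) v :=
  (((h.contDiffAt hv).fderiv_right (m := ∞) (by simp)).differentiableAt (by simp)).hasFDerivAt

theorem hasDerivAt_ray (h : PExp U Γ r Y) {v : E} {t : ℝ} (ht : t • v ∈ ball (0 : E) r) :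
    HasDerivAt (fun t : ℝ => Y (t • v)) (fderiv ℝ Y (t • v) v) t := by
  have h1 : HasDerivAt (fun t : ℝ => t • v) v t := by
    simpa using (hasDerivAt_id t).smul_const v
  exact (h.hasFDerivAt ht).comp_hasDerivAt t h1

theorem convex_dom (v : E) (r : ℝ) : Convex ℝ {t : ℝ | t • v ∈ ball (0 : E) r} :=
  (convex_ball (0 : E) r).linear_preimage (LinearMap.toSpanSingleton ℝ E v)

theorem isOpen_dom (v : E) (r : ℝ) : IsOpen {t : ℝ | t • v ∈ ball (0 : E) r} :=
  isOpen_ball.preimage (f := fun t : ℝ => t • v) (by fun_prop)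

theorem hasDerivAt_energy (hg : RMet U g) (hΓ : IsChris U g Γ) (h : PExp U Γ r Y) {v : E}
    {t : ℝ} (ht : t • v ∈ ball (0 : E) r) :
    HasDerivAt (fun t : ℝ => g (Y (t • v)) (fderiv ℝ Y (t • v) v) (fderiv ℝ Y (t • v) v)) 0 t := by
  have hU := h.mem _ ht
  refine (hg.hasDerivAt hU (h.hasDerivAt_ray ht) (h.geod v t ht) (h.geod v t ht)).congr_deriv ?_
  rw [hΓ.compat _ hU]
  simp

theorem energy_ray (hg : RMet U g) (hΓ : IsChris U g Γ) (h : PExp U Γ r Y) {v : E} {t : ℝ}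
    (ht : t • v ∈ ball (0 : E) r) :
    g (Y (t • v)) (fderiv ℝ Y (t • v) v) (fderiv ℝ Y (t • v) v) = g (Y 0) v v := by
  have h0 : (0 : ℝ) ∈ {t : ℝ | t • v ∈ ball (0 : E) r} := by simpa using h.pos
  have h1 := (convex_dom v r).is_const_of_fderivWithin_eq_zero (𝕜 := ℝ)
    (f := fun t : ℝ => g (Y (t • v)) (fderiv ℝ Y (t • v) v) (fderiv ℝ Y (t • v) v))
    (fun t ht => (hasDerivAt_energy hg hΓ h ht).differentiableAt.differentiableWithinAt)
    (fun t ht => by
      rw [fderivWithin_of_isOpen (isOpen_dom v r) ht,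
        (hasDerivAt_energy hg hΓ h ht).hasFDerivAt.fderiv]
      ext
      simp) ht h0
  simpa [h.deriv_zero] using h1

theorem energy (hg : RMet U g) (hΓ : IsChris U g Γ) (h : PExp U Γ r Y) {u : E}
    (hu : u ∈ ball (0 : E) r) :
    g (Y u) (fderiv ℝ Y u u) (fderiv ℝ Y u u) = g (Y 0) u u := by
  have h1 := energy_ray hg hΓ h (v := u) (t := 1) (by simpa using hu)
  simpa using h1

/-- The Gauss lemma. -/
theorem gauss (hg : RMet U g) (hΓ : IsChris U g Γ) (h : PExp U Γ r Y) {v : E}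
    (hv : v ∈ ball (0 : E) r) (w : E) :
    g (Y v) (fderiv ℝ Y v v) (fderiv ℝ Y v w) = g (Y 0) v w := by
  have hY0 : Y 0 ∈ U := h.mem 0 (by simpa using h.pos)
  have hdom : ∀ t ∈ Icc (0 : ℝ) 1, t • v ∈ ball (0 : E) r := by
    intro t ht
    rw [mem_ball_zero_iff, norm_smul, Real.norm_of_nonneg ht.1]
    exact lt_of_le_of_lt (mul_le_of_le_one_left (norm_nonneg _) ht.2) (mem_ball_zero_iff.mp hv)
  have hray : ∀ t : ℝ, HasDerivAt (fun t : ℝ => t • v) v t := fun t => by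
    simpa using (hasDerivAt_id t).smul_const v
  -- the polarised energy identity
  have hpol : ∀ u : E, u ∈ ball (0 : E) r →
      fderiv ℝ g (Y u) (fderiv ℝ Y u w) (fderiv ℝ Y u u) (fderiv ℝ Y u u)
        + 2 * g (Y u) (fderiv ℝ (fderiv ℝ Y) u w u + fderiv ℝ Y u w) (fderiv ℝ Y u u)
        = 2 * g (Y 0) u w := by
    intro u hu
    have hline : HasDerivAt (fun s : ℝ => u + s • w) w 0 := by
      simpa using ((hasDerivAt_id (0 : ℝ)).smul_const w).const_add u
    have hu0 : u + (0 : ℝ) • w = u := by simp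
    have hc : HasDerivAt (fun s : ℝ => Y (u + s • w)) (fderiv ℝ Y u w) 0 := by
      have h2 : HasFDerivAt Y (fderiv ℝ Y u) (u + (0 : ℝ) • w) := by
        rw [hu0]; exact h.hasFDerivAt hu
      exact h2.comp_hasDerivAt (0 : ℝ) hline
    have ha : HasDerivAt (fun s : ℝ => fderiv ℝ Y (u + s • w) (u + s • w))
        (fderiv ℝ (fderiv ℝ Y) u w u + fderiv ℝ Y u w) 0 := by
      have h2 : HasFDerivAt (fderiv ℝ Y) (fderiv ℝ (fderiv ℝ Y) u) (u + (0 : ℝ) • w) := by
        rw [hu0]; exact h.hasFDerivAt_two hu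
      have h3 := (h2.comp_hasDerivAt (0 : ℝ) hline).clm_apply hline
      simpa using h3
    have hmem : Y (u + (0 : ℝ) • w) ∈ U := by rw [hu0]; exact h.mem u hu
    have h1 := hg.hasDerivAt hmem hc ha ha
    have h2 : HasDerivAt (fun s : ℝ => g (Y 0) (u + s • w) (u + s • w))
        (g (Y 0) w u + g (Y 0) u w) 0 := by
      have h3 := ((hasDerivAt_const (0 : ℝ) (g (Y 0))).clm_apply hline).clm_apply hline
      simpa using h3
    have h4 : (fun s : ℝ => g (Y 0) (u + s • w) (u + s • w)) =ᶠ[𝓝 0]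
        fun s : ℝ => g (Y (u + s • w)) (fderiv ℝ Y (u + s • w) (u + s • w))
          (fderiv ℝ Y (u + s • w) (u + s • w)) := by
      have h5 : ∀ᶠ s : ℝ in 𝓝 0, u + s • w ∈ ball (0 : E) r := by
        have : Continuous fun s : ℝ => u + s • w := by fun_prop
        apply this.continuousAt.eventually (isOpen_ball.mem_nhds _)
        change u + (0 : ℝ) • w ∈ ball (0 : E) r
        rw [hu0]; exact hu
      filter_upwards [h5] with s hs using (energy hg hΓ h hs).symm
    have h6 := h2.unique (h1.congr_of_eventuallyEq h4)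
    simp only [hu0] at h6
    rw [hg.symm _ hY0 w u, hg.symm _ (h.mem u hu) (fderiv ℝ Y u u)
      (fderiv ℝ (fderiv ℝ Y) u w u + fderiv ℝ Y u w)] at h6
    linarith
  -- the pairing along the geodesic
  have hq : ∀ t ∈ Icc (0 : ℝ) 1, ∃ q' : ℝ,
      HasDerivAt (fun t : ℝ => t * g (Y (t • v)) (fderiv ℝ Y (t • v) v)
        (fderiv ℝ Y (t • v) w)) q' t ∧ (0 < t → q' = g (Y 0) v w) := by
    intro t ht
    have htd := hdom t ht
    have hU := h.mem _ htd
    have hc := h.hasDerivAt_ray htd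
    have ha := h.geod v t htd
    have hb : HasDerivAt (fun t : ℝ => fderiv ℝ Y (t • v) w)
        (fderiv ℝ (fderiv ℝ Y) (t • v) v w) t := by
      have h3 := ((h.hasFDerivAt_two htd).comp_hasDerivAt t (hray t)).clm_apply
        (hasDerivAt_const t w)
      simpa using h3
    refine ⟨_, (hasDerivAt_id t).mul (hg.hasDerivAt hU hc ha hb), ?_⟩
    intro htpos
    have hsym : IsSymmSndFDerivAt ℝ Y (t • v) :=
      (h.contDiffAt htd).isSymmSndFDerivAt (by
        rw [minSmoothness_of_isRCLikeNormedField]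
        exact WithTop.coe_le_coe.mpr le_top)
    have h7 := hpol (t • v) htd
    rw [hΓ.compat _ hU] at h7 ⊢
    rw [hsym.eq v w]
    set j := fderiv ℝ Y (t • v) w with hj
    set c' := fderiv ℝ Y (t • v) v with hc'
    set H := fderiv ℝ (fderiv ℝ Y) (t • v) w v with hH
    have e1 : fderiv ℝ Y (t • v) (t • v) = t • c' := by rw [map_smul]
    have e2 : fderiv ℝ (fderiv ℝ Y) (t • v) w (t • v) = t • H := by rw [map_smul]
    rw [e1, e2] at h7
    simp only [map_smul, smul_eq_mul, _root_.smul_apply, map_add, _root_.add_apply, map_neg,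
      _root_.neg_apply, id] at h7 ⊢
    rw [hΓ.symm _ hU j c', hg.symm _ hU H c', hg.symm _ hU j c',
      hg.symm _ hU (Γ (Y (t • v)) c' j) c'] at h7
    have h8 : t * (g (Y (t • v)) c' j + t * (g (Y (t • v)) c' (Γ (Y (t • v)) c' j)
        + g (Y (t • v)) c' H)) = t * g (Y 0) v w := by
      linear_combination (1 / 2 : ℝ) * h7
    have h9 := mul_left_cancel₀ htpos.ne' h8
    linear_combination h9
  have hcont : ContinuousOn (fun t : ℝ => t * g (Y (t • v)) (fderiv ℝ Y (t • v) v)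
        (fderiv ℝ Y (t • v) w)) (Icc 0 1) := by
    intro t ht
    obtain ⟨q', h1, -⟩ := hq t ht
    exact h1.continuousAt.continuousWithinAt
  obtain ⟨t, ht, he⟩ := exists_deriv_eq_slope (fun t : ℝ => t * g (Y (t • v))
    (fderiv ℝ Y (t • v) v) (fderiv ℝ Y (t • v) w)) zero_lt_one hcont (by
      intro t ht
      obtain ⟨q', h1, -⟩ := hq t ⟨ht.1.le, ht.2.le⟩
      exact h1.differentiableAt.differentiableWithinAt)
  obtain ⟨q', h1, h2⟩ := hq t ⟨ht.1.le, ht.2.le⟩
  rw [h1.deriv, h2 ht.1] at he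
  simp at he
  exact he.symm

end PExp

variable {U : Set E} {g : E → E →L[ℝ] E →L[ℝ] ℝ} {Γ : E → E →L[ℝ] E →L[ℝ] E} {p₀ : E} {r : ℝ}
  {X : E × E → E}

theorem IsExp.gauss (hg : RMet U g) (hΓ : IsChris U g Γ) (hX : IsExp U Γ p₀ r X) {p v : E}
    (hp : p ∈ Metric.ball p₀ r) (hv : v ∈ Metric.ball (0 : E) r) (w : E) :
    g (X (p, v)) (dX X p v v) (dX X p v w) = g p v w := by
  have h := (hX.pexp hp).gauss hg hΓ hv w
  rw [hX.zero p hp] at h
  exact h

/-- Energy: the speed of `t ↦ X (p, t • v)` is constant. -/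
theorem IsExp.energy (hg : RMet U g) (hΓ : IsChris U g Γ) (hX : IsExp U Γ p₀ r X) {p v : E}
    {t : ℝ} (hp : p ∈ Metric.ball p₀ r) (hv : t • v ∈ Metric.ball (0 : E) r) :
    gnorm g (X (p, t • v)) (dX X p (t • v) v) = gnorm g p v := by
  have h := (hX.pexp hp).energy_ray hg hΓ hv
  rw [hX.zero p hp] at h
  unfold gnorm
  exact congrArg Real.sqrt h

end

end Pool.Agent.Work.MP_3b24f6_gt.Froz
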