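import Pool.Agent.Work.MP_3b24f6_gt.S.ModelA

/-! Block A: the norm of a Riemannian metric on an open set of a vector space. -/

set_option autoImplicit false

open MeasureTheory Set Filter Topology
open scoped ContDiff InnerProductSpace Manifold

namespace Pool.Agent.Work.MP_3b24f6_gt.Froz

noncomputable section

variable {E : Type*} [NormedAddCommGroup E] [NormedSpace ℝ E]
variable {U : Set E} {g : E → E →L[ℝ] E →L[ℝ] ℝ}

theorem gnorm_nonneg (y v : E) : 0 ≤ gnorm g y v := Real.sqrt_nonneg _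

theorem gnorm_zero (y : E) : gnorm g y 0 = 0 := by
  unfold gnorm
  rw [map_zero, Real.sqrt_zero]

theorem gnorm_smul (y v : E) (c : ℝ) : gnorm g y (c • v) = |c| * gnorm g y v := by
  unfold gnorm
  have h : g y (c • v) (c • v) = c ^ 2 * g y v v := by
    simp only [map_smul, ContinuousLinearMap.smul_apply, smul_eq_mul]
    ring
  rw [h, Real.sqrt_mul (sq_nonneg c), Real.sqrt_sq_eq_abs]

theorem gnorm_neg (y v : E) : gnorm g y (-v) = gnorm g y v := by
  have := gnorm_smul (g := g) y v (-1)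
  rwa [neg_one_smul, abs_neg, abs_one, one_mul] at this

theorem gnorm_sub_comm (y u v : E) : gnorm g y (u - v) = gnorm g y (v - u) := by
  rw [← gnorm_neg, neg_sub]

theorem RMet.nonneg (hg : RMet U g) {y : E} (hy : y ∈ U) (v : E) : 0 ≤ g y v v := by
  by_cases h : v = 0
  · rw [h, map_zero]
  · exact (hg.pos y hy v h).le

theorem gnorm_sq (hg : RMet U g) {y : E} (hy : y ∈ U) (v : E) : gnorm g y v ^ 2 = g y v v :=
  Real.sq_sqrt (hg.nonneg hy v)

theorem gnorm_pos (hg : RMet U g) {y : E} (hy : y ∈ U) {v : E} (hv : v ≠ 0) :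
    0 < gnorm g y v := Real.sqrt_pos.mpr (hg.pos y hy v hv)

theorem gnorm_eq_zero (hg : RMet U g) {y : E} (hy : y ∈ U) {v : E} (h : gnorm g y v = 0) :
    v = 0 := by
  by_contra hv
  exact absurd h (gnorm_pos hg hy hv).ne'

/-- Cauchy-Schwarz, squared. -/
theorem g_sq_le (hg : RMet U g) {y : E} (hy : y ∈ U) (u v : E) :
    g y u v ^ 2 ≤ g y u u * g y v v := by
  by_cases hv : v = 0
  · rw [hv]
    simp
  · have h1 := hg.pos y hy v hv
    have h2 := hg.nonneg hy (g y v v • u - g y u v • v)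
    have h3 : g y (g y v v • u - g y u v • v) (g y v v • u - g y u v • v)
        = g y v v * (g y u u * g y v v - g y u v ^ 2) := by
      simp only [map_sub, map_smul, ContinuousLinearMap.sub_apply, ContinuousLinearMap.smul_apply,
        smul_eq_mul]
      rw [hg.symm y hy v u]
      ring
    rw [h3] at h2
    have h4 := nonneg_of_mul_nonneg_right h2 h1
    linarith

/-- Cauchy-Schwarz. -/
theorem g_le (hg : RMet U g) {y : E} (hy : y ∈ U) (u v : E) :
    g y u v ≤ gnorm g y u * gnorm g y v := by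
  have h1 := g_sq_le hg hy u v
  rw [← gnorm_sq hg hy u, ← gnorm_sq hg hy v, ← mul_pow] at h1
  exact le_trans (le_abs_self _)
    (abs_le_of_sq_le_sq h1 (mul_nonneg (gnorm_nonneg _ _) (gnorm_nonneg _ _)))

theorem abs_g_le (hg : RMet U g) {y : E} (hy : y ∈ U) (u v : E) :
    |g y u v| ≤ gnorm g y u * gnorm g y v := by
  rw [abs_le]
  constructor
  · have h := g_le hg hy (-u) v
    rw [gnorm_neg, map_neg, ContinuousLinearMap.neg_apply] at h
    linarith
  · exact g_le hg hy u v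

theorem gnorm_add_le (hg : RMet U g) {y : E} (hy : y ∈ U) (u v : E) :
    gnorm g y (u + v) ≤ gnorm g y u + gnorm g y v := by
  have h0 : 0 ≤ gnorm g y u + gnorm g y v := add_nonneg (gnorm_nonneg _ _) (gnorm_nonneg _ _)
  refine le_of_sq_le_sq ?_ h0
  rw [gnorm_sq hg hy]
  have h1 : g y (u + v) (u + v) = g y u u + 2 * g y u v + g y v v := by
    simp only [map_add, ContinuousLinearMap.add_apply]
    rw [hg.symm y hy v u]
    ring
  rw [h1, ← gnorm_sq hg hy u, ← gnorm_sq hg hy v]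
  nlinarith [g_le hg hy u v]

theorem gnorm_sub_le (hg : RMet U g) {y : E} (hy : y ∈ U) (u v : E) :
    gnorm g y (u - v) ≤ gnorm g y u + gnorm g y v := by
  rw [sub_eq_add_neg, ← gnorm_neg (g := g) y v]
  exact gnorm_add_le hg hy u (-v)

theorem abs_gnorm_sub_le (hg : RMet U g) {y : E} (hy : y ∈ U) (u v : E) :
    |gnorm g y u - gnorm g y v| ≤ gnorm g y (u - v) := by
  rw [abs_le]
  constructor
  · have := gnorm_add_le hg hy (v - u) u
    rw [sub_add_cancel, gnorm_sub_comm] at this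
    linarith
  · have := gnorm_add_le hg hy (u - v) v
    rw [sub_add_cancel] at this
    linarith

/-- `gnorm g y v` is continuous. -/
theorem continuousOn_gnorm (hg : RMet U g) :
    ContinuousOn (fun q : E × E => gnorm g q.1 q.2) (U ×ˢ univ) := by
  have h1 : ContinuousOn (fun q : E × E => g q.1) (U ×ˢ univ) :=
    hg.smooth.continuousOn.comp continuousOn_fst (fun q hq => hq.1)
  have h2 : ContinuousOn (fun q : E × E => g q.1 q.2 q.2) (U ×ˢ univ) :=
    (h1.clm_apply continuousOn_snd).clm_apply continuousOn_snd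
  exact Real.continuous_sqrt.comp_continuousOn h2

/-- `gnorm` is equivalent to the norm, uniformly near `p₀`. -/
theorem RMet.equiv [FiniteDimensional ℝ E] {p₀ : E} (hg : RMet U g) (hp : p₀ ∈ U) :
    ∃ δ, 0 < δ ∧ ∃ c, 0 < c ∧ ∃ C, 0 < C ∧
    Metric.ball p₀ δ ⊆ U ∧ ∀ p ∈ Metric.ball p₀ δ, ∀ v,
      c * ‖v‖ ≤ gnorm g p v ∧ gnorm g p v ≤ C * ‖v‖ := by
  haveI : ProperSpace E := FiniteDimensional.proper ℝ E
  obtain ⟨δ, hδ, hU⟩ := Metric.nhds_basis_closedBall.mem_iff.mp (hg.isOpen.mem_nhds hp)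
  have hK : IsCompact (Metric.closedBall p₀ δ ×ˢ Metric.sphere (0 : E) 1) :=
    (isCompact_closedBall _ _).prod (isCompact_sphere _ _)
  have hc : ContinuousOn (fun q : E × E => gnorm g q.1 q.2)
      (Metric.closedBall p₀ δ ×ˢ Metric.sphere (0 : E) 1) :=
    (continuousOn_gnorm hg).mono fun q hq => ⟨hU hq.1, trivial⟩
  obtain ⟨C, hC⟩ := hK.exists_bound_of_continuousOn hc
  have hlow : ∃ c, 0 < c ∧ ∀ q ∈ Metric.closedBall p₀ δ ×ˢ Metric.sphere (0 : E) 1,
      c ≤ gnorm g q.1 q.2 := by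
    by_cases hne : (Metric.closedBall p₀ δ ×ˢ Metric.sphere (0 : E) 1).Nonempty
    · obtain ⟨q, hq, hmin⟩ := hK.exists_isMinOn hne hc
      refine ⟨gnorm g q.1 q.2, ?_, fun q' hq' => hmin hq'⟩
      refine gnorm_pos hg (hU hq.1) ?_
      intro h0
      have := hq.2
      rw [h0] at this
      simp at this
    · exact ⟨1, one_pos, fun q hq => absurd ⟨q, hq⟩ hne⟩
  obtain ⟨c, hc0, hcl⟩ := hlow
  refine ⟨δ, hδ, c, hc0, max C 1, by positivity,
    Metric.ball_subset_closedBall.trans hU, fun p hp v => ?_⟩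
  by_cases hv : v = 0
  · rw [hv, norm_zero, mul_zero, mul_zero, gnorm_zero]
    exact ⟨le_rfl, le_rfl⟩
  · have hn : 0 < ‖v‖ := norm_pos_iff.mpr hv
    have hmem : (p, ‖v‖⁻¹ • v) ∈ Metric.closedBall p₀ δ ×ˢ Metric.sphere (0 : E) 1 := by
      refine ⟨Metric.ball_subset_closedBall hp, ?_⟩
      rw [mem_sphere_zero_iff_norm, norm_smul, norm_inv, norm_norm, inv_mul_cancel₀ hn.ne']
    have h1 := hcl _ hmem
    have h2 := hC _ hmem
    simp only at h1 h2
    rw [Real.norm_of_nonneg (gnorm_nonneg _ _)] at h2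
    have h3 : gnorm g p v = ‖v‖ * gnorm g p (‖v‖⁻¹ • v) := by
      rw [gnorm_smul, abs_of_pos (inv_pos.mpr hn), ← mul_assoc, mul_inv_cancel₀ hn.ne', one_mul]
    rw [h3]
    constructor
    · rw [mul_comm]
      exact mul_le_mul_of_nonneg_left h1 hn.le
    · rw [mul_comm]
      exact mul_le_mul_of_nonneg_right (h2.trans (le_max_left _ _)) hn.le

end

end Pool.Agent.Work.MP_3b24f6_gt.Froz
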