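import Pool.Agent.Work.MP_3b24f6_gt.S.Isom
import Pool.Agent.Work.MP_3b24f6_gt.S.Gnorm

set_option autoImplicit false
set_option maxSynthPendingDepth 3
set_option linter.unusedSectionVars false

open MeasureTheory Set Filter Topology
open scoped ContDiff InnerProductSpace

/-! E3: the squared distance is a smooth function of both points, in a global normal chart. -/

namespace Pool.Agent.Work.MP_3b24f6_gt.Froz

noncomputable section

namespace GS

variable {E : Type*} [NormedAddCommGroup E] [InnerProductSpace ℝ E] [FiniteDimensional ℝ E]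
  {M : Type*} [MetricSpace M] {e : E → M} {g : E → E →L[ℝ] E →L[ℝ] ℝ}

/-- `e` is a global normal chart of `M` (metric formulation). -/
structure GChart (M : Type*) [MetricSpace M] (g : E → E →L[ℝ] E →L[ℝ] ℝ) (e : E → M) :
    Prop where
  met : MetModel M univ g e
  surj : Function.Surjective e
  ray : ∀ v : E, ‖v‖ = 1 → Isometry fun t : ℝ => e (t • v)
  line : ∀ γ : ℝ → M, Isometry γ → γ 0 = e 0 → ∃ v : E, ‖v‖ = 1 ∧ ∀ t : ℝ, γ t = e (t • v)
  loc : ∀ p₀ : E, ∃ r ρ X W, LocGeo M univ g e p₀ r ρ X W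
  tr : ∀ p : E, ∃ φ : M ≃ᵢ M, φ (e 0) = e p

/-- `ψ` is the isometry `φ` in the chart `e`. -/
def IsCh (e : E → M) (φ : M ≃ᵢ M) (ψ : E → E) : Prop := ∀ y, e (ψ y) = φ (e y)

theorem GChart.inj (h : GChart M g e) : Function.Injective e := fun _ _ hxy =>
  h.met.inj (mem_univ _) (mem_univ _) hxy

theorem GChart.cont (h : GChart M g e) : Continuous e := continuousOn_univ.1 h.met.cont

theorem GChart.exists_ch (h : GChart M g e) (φ : M ≃ᵢ M) : ∃ ψ, IsCh e φ ψ := by
  choose s hs using h.surj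
  exact ⟨fun y => s (φ (e y)), fun y => hs _⟩

/-- Isometries are smooth, and isometries of `g`. -/
theorem GChart.ch_deriv (h : GChart M g e) {φ : M ≃ᵢ M} {ψ : E → E} (hψ : IsCh e φ ψ) (p : E) :
    ContDiffAt ℝ ∞ ψ p ∧ ∃ L : E ≃L[ℝ] E, (∀ u v, g (ψ p) (L u) (L v) = g p u v) ∧
      HasFDerivAt ψ (L : E →L[ℝ] E) p := by
  obtain ⟨r, ρ, X, W, hl⟩ := h.loc p
  obtain ⟨r', ρ', X', W', hl'⟩ := h.loc (ψ p)
  obtain ⟨L, hL, -, h3, h4⟩ := hl.isom_rep h.met h.met hl' φ φ.isometry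
    (Metric.mem_ball_self hl.r_pos) (Metric.mem_ball_self hl'.r_pos) (hψ p).symm
  have hρ : 0 < min ρ ρ' := lt_min hl.ρ_pos hl'.ρ_pos
  have hev : ψ =ᶠ[𝓝 p] fun z => X' (ψ p, L (W (p, z))) := by
    have hc : ContinuousAt (fun z => dist (e p) (e z)) p :=
      (continuous_const.dist h.cont).continuousAt
    have h0 : dist (e p) (e p) < min ρ ρ' := by rw [dist_self]; exact hρ
    have : ∀ᶠ z in 𝓝 p, dist (e p) (e z) < min ρ ρ' := hc.eventually_lt continuousAt_const h0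
    filter_upwards [this] with z hz
    apply h.inj
    rw [hψ z, (h3 z (mem_univ _) hz).1]
  refine ⟨?_, L, hL, h4.congr_of_eventuallyEq hev⟩
  exact (h3 p (mem_univ _) (by rw [dist_self]; exact hρ)).2.2.congr_of_eventuallyEq hev

theorem GChart.ch_smooth (h : GChart M g e) {φ : M ≃ᵢ M} {ψ : E → E} (hψ : IsCh e φ ψ) :
    ContDiff ℝ ∞ ψ := contDiff_iff_contDiffAt.2 fun p => (h.ch_deriv hψ p).1

theorem GChart.dist_ch (_h : GChart M g e) {φ : M ≃ᵢ M} {ψ : E → E} (hψ : IsCh e φ ψ) (x y : E) :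
    dist (e (ψ x)) (e (ψ y)) = dist (e x) (e y) := by
  rw [hψ, hψ, φ.dist_eq]

theorem GChart.ch_surj (h : GChart M g e) {φ : M ≃ᵢ M} {ψ : E → E} (hψ : IsCh e φ ψ) :
    Function.Surjective ψ := by
  intro x
  obtain ⟨y, hy⟩ := h.surj (φ.symm (e x))
  refine ⟨y, h.inj ?_⟩
  rw [hψ, hy, φ.apply_symm_apply]

theorem GChart.ch_inj (h : GChart M g e) {φ : M ≃ᵢ M} {ψ : E → E} (hψ : IsCh e φ ψ) :
    Function.Injective ψ := by
  intro x y hxy
  apply h.inj
  apply φ.injective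
  rw [← hψ, ← hψ, hxy]

theorem GChart.dist_ray (h : GChart M g e) (w : E) (s t : ℝ) :
    dist (e (s • w)) (e (t • w)) = |s - t| * ‖w‖ := by
  by_cases hw : w = 0
  · simp [hw]
  · have hn : ‖w‖ ≠ 0 := norm_ne_zero_iff.2 hw
    have hu : ‖‖w‖⁻¹ • w‖ = 1 := by rw [norm_smul, norm_inv, norm_norm, inv_mul_cancel₀ hn]
    have h1 := (h.ray _ hu).dist_eq (s * ‖w‖) (t * ‖w‖)
    simp only [smul_smul, mul_assoc, mul_inv_cancel₀ hn, mul_one] at h1
    rw [h1, Real.dist_eq, ← sub_mul, abs_mul, abs_norm]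

theorem GChart.gnorm_origin (h : GChart M g e) (w : E) : gnorm g 0 w = ‖w‖ := by
  have key : ∀ ε, 0 < ε → (1 - ε) * gnorm g 0 w ≤ ‖w‖ ∧ ‖w‖ ≤ (1 + ε) * gnorm g 0 w := by
    intro ε hε
    obtain ⟨δ, hδ, -, hnear⟩ := h.met.near 0 (mem_univ _) ε hε
    set t : ℝ := δ / (2 * (‖w‖ + 1)) with ht
    have ht0 : 0 < t := by positivity
    have hmem : t • w ∈ Metric.ball (0 : E) δ := by
      rw [mem_ball_zero_iff, norm_smul, Real.norm_of_nonneg ht0.le, ht, div_mul_eq_mul_div,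
        div_lt_iff₀ (by positivity)]
      nlinarith [norm_nonneg w]
    obtain ⟨h1, h2⟩ := hnear (t • w) hmem 0 (Metric.mem_ball_self hδ)
    have h3 := h.dist_ray w t 0
    rw [zero_smul, sub_zero, abs_of_pos ht0] at h3
    rw [h3, sub_zero, gnorm_smul, abs_of_pos ht0] at h1 h2
    constructor
    · have : t * ((1 - ε) * gnorm g 0 w) ≤ t * ‖w‖ := by linarith
      exact le_of_mul_le_mul_left this ht0
    · have : t * ‖w‖ ≤ t * ((1 + ε) * gnorm g 0 w) := by linarith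
      exact le_of_mul_le_mul_left this ht0
  have hG := gnorm_nonneg (g := g) 0 w
  apply le_antisymm
  · refine le_of_forall_pos_le_add fun η hη => ?_
    have h1 := (key (η / (gnorm g 0 w + 1)) (by positivity)).1
    have h2 : η / (gnorm g 0 w + 1) * gnorm g 0 w ≤ η := by
      rw [div_mul_eq_mul_div, div_le_iff₀ (by positivity)]
      nlinarith
    linarith
  · refine le_of_forall_pos_le_add fun η hη => ?_
    have h1 := (key (η / (gnorm g 0 w + 1)) (by positivity)).2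
    have h2 : η / (gnorm g 0 w + 1) * gnorm g 0 w ≤ η := by
      rw [div_mul_eq_mul_div, div_le_iff₀ (by positivity)]
      nlinarith
    linarith

/-- A choice of isometries moving `0` to `p`. -/
structure Fam (g : E → E →L[ℝ] E →L[ℝ] ℝ) (e : E → M) (φ : E → (M ≃ᵢ M)) (ψ : E → E → E)
    (A : E → (E ≃L[ℝ] E)) : Prop where
  ch : ∀ p, IsCh e (φ p) (ψ p)
  zero : ∀ p, ψ p 0 = p
  deriv : ∀ p, HasFDerivAt (ψ p) (A p : E →L[ℝ] E) 0
  iso : ∀ p u v, g p (A p u) (A p v) = g 0 u v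

theorem GChart.exists_fam (h : GChart M g e) : ∃ φ ψ A, Fam g e φ ψ A := by
  choose φ hφ using h.tr
  choose ψ hψ using fun p => h.exists_ch (φ p)
  have hz : ∀ p, ψ p 0 = p := fun p => h.inj (by rw [hψ p 0, hφ p])
  choose A hA using fun p => (h.ch_deriv (hψ p) 0).2
  refine ⟨φ, ψ, A, hψ, hz, fun p => (hA p).2, fun p u v => ?_⟩
  have := (hA p).1 u v
  rwa [hz p] at this

/-- The exponential map, all base points. -/
def Geo (ψ : E → E → E) (A : E → (E ≃L[ℝ] E)) (z : E × E) : E := ψ z.1 ((A z.1).symm z.2)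

section fam
variable {φ : E → (M ≃ᵢ M)} {ψ : E → E → E} {A : E → (E ≃L[ℝ] E)}

theorem Fam.norm_symm (h : GChart M g e) (F : Fam g e φ ψ A) (p v : E) :
    ‖(A p).symm v‖ = gnorm g p v := by
  rw [← h.gnorm_origin]
  unfold gnorm
  rw [← F.iso p, (A p).apply_symm_apply]

theorem Fam.geo_zero (F : Fam g e φ ψ A) (p : E) : Geo ψ A (p, 0) = p := by
  unfold Geo
  simp [F.zero]

theorem Fam.geo_dist (h : GChart M g e) (F : Fam g e φ ψ A) (p v : E) (s t : ℝ) :
    dist (e (Geo ψ A (p, s • v))) (e (Geo ψ A (p, t • v))) = |s - t| * gnorm g p v := by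
  unfold Geo
  rw [h.dist_ch (F.ch p)]
  simp only [map_smul]
  rw [h.dist_ray, F.norm_symm h]

theorem Fam.dist_geo (h : GChart M g e) (F : Fam g e φ ψ A) (p v : E) :
    dist (e p) (e (Geo ψ A (p, v))) = gnorm g p v := by
  have := F.geo_dist h p v 0 1
  rw [zero_smul, one_smul, F.geo_zero] at this
  simpa using this

theorem Fam.geo_surj (h : GChart M g e) (F : Fam g e φ ψ A) (p x : E) :
    ∃ w, Geo ψ A (p, w) = x := by
  obtain ⟨y, hy⟩ := h.ch_surj (F.ch p) x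
  exact ⟨A p y, by simp [Geo, hy]⟩

theorem Fam.geo_inj (h : GChart M g e) (F : Fam g e φ ψ A) (p : E) :
    Function.Injective (fun v => Geo ψ A (p, v)) := by
  intro v w hvw
  exact (A p).symm.injective (h.ch_inj (F.ch p) hvw)

theorem Fam.geo_contDiff (h : GChart M g e) (F : Fam g e φ ψ A) (p : E) :
    ContDiff ℝ ∞ (fun v => Geo ψ A (p, v)) :=
  (h.ch_smooth (F.ch p)).comp (A p).symm.contDiff

theorem Fam.geo_hasFDerivAt_zero (F : Fam g e φ ψ A) (p : E) :
    HasFDerivAt (fun v => Geo ψ A (p, v)) (ContinuousLinearMap.id ℝ E) 0 := by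
  have h1 : HasFDerivAt (ψ p) (A p : E →L[ℝ] E) ((A p).symm 0) := by
    rw [map_zero]; exact F.deriv p
  have h2 : HasFDerivAt (fun v => ψ p ((A p).symm v))
      ((A p : E →L[ℝ] E).comp ((A p).symm : E →L[ℝ] E)) 0 :=
    h1.comp 0 ((A p).symm : E →L[ℝ] E).hasFDerivAt
  have h3 : (A p : E →L[ℝ] E).comp ((A p).symm : E →L[ℝ] E) = ContinuousLinearMap.id ℝ E := by
    ext v; simp
  rw [h3] at h2
  exact h2

theorem Fam.geo_hasDerivAt_zero (F : Fam g e φ ψ A) (p v : E) :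
    HasDerivAt (fun t : ℝ => Geo ψ A (p, t • v)) v 0 := by
  have h1 : HasDerivAt (fun t : ℝ => t • v) v 0 := by
    simpa using (hasDerivAt_id (0 : ℝ)).smul_const v
  have h2 : HasFDerivAt (fun v => Geo ψ A (p, v)) (ContinuousLinearMap.id ℝ E) ((0 : ℝ) • v) := by
    rw [zero_smul]; exact F.geo_hasFDerivAt_zero p
  exact h2.comp_hasDerivAt (0 : ℝ) h1

/-- Metric lines are geodesics. -/
theorem Fam.line_eq (h : GChart M g e) (F : Fam g e φ ψ A) {c : ℝ → E} {k : ℝ}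
    (hk : ∀ s t, dist (e (c s)) (e (c t)) = k * |s - t|) {V : E} (hc : HasDerivAt c V 0) (t : ℝ) :
    c t = Geo ψ A (c 0, t • V) := by
  have hk0 : 0 ≤ k := by
    have := hk 1 0
    rw [sub_zero, abs_one, mul_one] at this
    rw [← this]; exact dist_nonneg
  rcases hk0.eq_or_lt with h0 | hpos
  · have hconst : ∀ s, c s = c 0 := by
      intro s
      apply h.inj
      rw [← dist_eq_zero, hk, ← h0, zero_mul]
    have hV : V = 0 := by
      have h1 : c = fun _ => c 0 := funext hconst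
      rw [h1] at hc
      exact hc.unique (hasDerivAt_const 0 (c 0))
    rw [hconst t, hV, smul_zero, F.geo_zero]
  · have hiso : Isometry (fun τ : ℝ => (φ (c 0)).symm (e (c (τ / k)))) := by
      refine Isometry.of_dist_eq fun s t => ?_
      rw [(φ (c 0)).symm.dist_eq, hk, ← sub_div, abs_div, abs_of_pos hpos, Real.dist_eq]
      field_simp
    have h00 : (φ (c 0)).symm (e (c (0 / k))) = e 0 := by
      rw [zero_div]
      have := F.ch (c 0) 0
      rw [F.zero] at this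
      rw [this, (φ (c 0)).symm_apply_apply]
    obtain ⟨u, hu, hline⟩ := h.line _ hiso h00
    have hcψ : ∀ t, c t = ψ (c 0) (t • (k • u)) := by
      intro t
      apply h.inj
      have h1 := hline (t * k)
      rw [mul_div_cancel_right₀ _ hpos.ne'] at h1
      rw [F.ch (c 0), smul_smul, ← h1, (φ (c 0)).apply_symm_apply]
    have hd : HasDerivAt c (A (c 0) (k • u)) 0 := by
      have h1 : HasDerivAt (fun t : ℝ => t • (k • u)) (k • u) 0 := by
        simpa using (hasDerivAt_id (0 : ℝ)).smul_const (k • u)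
      have h2 : HasFDerivAt (ψ (c 0)) (A (c 0) : E →L[ℝ] E)
          ((fun t : ℝ => t • (k • u)) 0) := by
        simp only [zero_smul]; exact F.deriv (c 0)
      have h3 : HasDerivAt (fun t : ℝ => ψ (c 0) (t • (k • u)))
          ((A (c 0) : E →L[ℝ] E) (k • u)) 0 := h2.comp_hasDerivAt (0 : ℝ) h1
      exact h3.congr_of_eventuallyEq (Eventually.of_forall hcψ)
    have hV : V = A (c 0) (k • u) := hc.unique hd
    rw [hcψ t]
    unfold Geo
    simp only [hV, map_smul, ContinuousLinearEquiv.symm_apply_apply]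

theorem Fam.norm_vel (h : GChart M g e) (F : Fam g e φ ψ A) {c : ℝ → E} {k : ℝ}
    (hk : ∀ s t, dist (e (c s)) (e (c t)) = k * |s - t|) {V : E} (hc : HasDerivAt c V 0) :
    gnorm g (c 0) V = k := by
  have h1 := F.line_eq h hk hc 1
  rw [one_smul] at h1
  rw [← F.dist_geo h, ← h1, hk]
  simp

/-- Local agreement with the exponential map of `LocGeo`. -/
theorem Fam.geo_eq_loc (h : GChart M g e) (F : Fam g e φ ψ A) {p₀ : E} {r ρ : ℝ}
    {X W : E × E → E} (hl : LocGeo M univ g e p₀ r ρ X W) {p : E} (hp : p ∈ Metric.ball p₀ r)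
    {v : E} (hv : gnorm g p v < ρ) : Geo ψ A (p, v) = X (p, v) := by
  obtain ⟨w, hw⟩ := F.geo_surj h p (X (p, v))
  have hn : gnorm g p w = gnorm g p v := by
    rw [← F.dist_geo h, hw, hl.dist_exp hp hv]
  by_cases h0 : gnorm g p v = 0
  · have hv0 : v = 0 := gnorm_eq_zero h.met.met (mem_univ p) h0
    rw [hv0, F.geo_zero, hl.zero p hp]
  have hpos : 0 < gnorm g p v := lt_of_le_of_ne (gnorm_nonneg p v) (Ne.symm h0)
  have heq : ∀ s ∈ Icc (0 : ℝ) 1, Geo ψ A (p, s • w) = X (p, s • v) := by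
    intro s hs
    have d1 : dist (e p) (e (Geo ψ A (p, s • w))) = s * gnorm g p v := by
      rw [F.dist_geo h, gnorm_smul, abs_of_nonneg hs.1, hn]
    have d2 : dist (e (Geo ψ A (p, s • w))) (e (X (p, v))) = (1 - s) * gnorm g p v := by
      have := F.geo_dist h p w s 1
      rw [one_smul, hw] at this
      rw [this, hn, abs_sub_comm, abs_of_nonneg (by linarith [hs.2])]
    obtain ⟨s', hs', hz⟩ := hl.between p hp v hv (e (Geo ψ A (p, s • w))) (by rw [d1, d2]; ring)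
    have hs'v : gnorm g p (s' • v) < ρ := by
      rw [gnorm_smul, abs_of_nonneg hs'.1]
      nlinarith [hs'.2]
    have d3 : dist (e p) (e (Geo ψ A (p, s • w))) = s' * gnorm g p v := by
      rw [hz, hl.dist_exp hp hs'v, gnorm_smul, abs_of_nonneg hs'.1]
    have hss : s' = s := by
      rw [d1] at d3
      exact (mul_right_cancel₀ hpos.ne' d3).symm
    rw [hss] at hz
    exact h.inj hz
  -- derivatives at `0` from the right
  have hd1 : HasDerivWithinAt (fun t : ℝ => Geo ψ A (p, t • w)) w (Ici 0) 0 :=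
    (F.geo_hasDerivAt_zero p w).hasDerivWithinAt
  have hd2 : HasDerivWithinAt (fun t : ℝ => X (p, t • v)) v (Ici 0) 0 := by
    have h1 : HasDerivAt (fun t : ℝ => t • v) v 0 := by
      simpa using (hasDerivAt_id (0 : ℝ)).smul_const v
    have h2 : HasFDerivAt (fun w => X (p, w)) (ContinuousLinearMap.id ℝ E)
        ((fun t : ℝ => t • v) 0) := by
      simp only [zero_smul]; exact hl.hasFDerivAt_exp_zero hp
    have h3 := h2.comp_hasDerivAt (0 : ℝ) h1
    exact h3.hasDerivWithinAt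
  have hd3 : HasDerivWithinAt (fun t : ℝ => Geo ψ A (p, t • w)) v (Ici 0) 0 := by
    refine hd2.congr_of_eventuallyEq ?_ ?_
    · have : ∀ᶠ t : ℝ in 𝓝[Ici 0] 0, t ∈ Icc (0 : ℝ) 1 := Icc_mem_nhdsGE one_pos
      filter_upwards [this] with t ht using heq t ht
    · exact heq 0 (by simp)
  have hwv : w = v := by
    have hu : UniqueDiffWithinAt ℝ (Ici (0 : ℝ)) 0 := uniqueDiffOn_Ici 0 0 (mem_Ici.2 le_rfl)
    rw [← hd1.derivWithin hu, hd3.derivWithin hu]
  rw [hwv] at hw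
  exact hw

/-- Naturality. -/
theorem Fam.geo_nat (h : GChart M g e) (F : Fam g e φ ψ A) {χ : M ≃ᵢ M} {θ : E → E}
    (hθ : IsCh e χ θ) (p v : E) :
    θ (Geo ψ A (p, v)) = Geo ψ A (θ p, fderiv ℝ θ p v) := by
  have hk : ∀ s t : ℝ, dist (e ((fun t : ℝ => θ (Geo ψ A (p, t • v))) s))
      (e ((fun t : ℝ => θ (Geo ψ A (p, t • v))) t)) = gnorm g p v * |s - t| := by
    intro s t
    simp only
    rw [h.dist_ch hθ, F.geo_dist h, mul_comm]
  have hd : HasDerivAt (fun t : ℝ => θ (Geo ψ A (p, t • v))) (fderiv ℝ θ p v) 0 := by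
    have h1 : HasFDerivAt θ (fderiv ℝ θ p) ((fun t : ℝ => Geo ψ A (p, t • v)) 0) := by
      simp only [zero_smul, F.geo_zero]
      exact ((h.ch_smooth hθ).differentiable (by simp) p).hasFDerivAt
    exact h1.comp_hasDerivAt (0 : ℝ) (F.geo_hasDerivAt_zero p v)
  have := F.line_eq h hk hd 1
  simpa [F.geo_zero] using this

/-- Restarting a geodesic at time `1 / 2`. -/
theorem Fam.geo_half (h : GChart M g e) (F : Fam g e φ ψ A) {p v V : E}
    (hV : HasFDerivAt (fun u => Geo ψ A (p, u)) (fderiv ℝ (fun u => Geo ψ A (p, u)) ((1 / 2 : ℝ) • v)) ((1 / 2 : ℝ) • v))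
    (hV' : V = fderiv ℝ (fun u => Geo ψ A (p, u)) ((1 / 2 : ℝ) • v) v) :
    Geo ψ A (p, v) = Geo ψ A (Geo ψ A (p, (1 / 2 : ℝ) • v), (1 / 2 : ℝ) • V) ∧
      gnorm g (Geo ψ A (p, (1 / 2 : ℝ) • v)) V = gnorm g p v := by
  set c : ℝ → E := fun t => Geo ψ A (p, (1 / 2 + t) • v) with hcdef
  have hk : ∀ s t : ℝ, dist (e (c s)) (e (c t)) = gnorm g p v * |s - t| := by
    intro s t
    simp only [hcdef]
    rw [F.geo_dist h, mul_comm]
    congr 2
    ring
  have h1 : HasDerivAt (fun t : ℝ => (1 / 2 + t) • v) v 0 := by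
    simpa only [one_smul, id] using ((hasDerivAt_id (0 : ℝ)).const_add (1 / 2 : ℝ)).smul_const v
  have hd : HasDerivAt c V 0 := by
    rw [hV']
    have h2 : HasFDerivAt (fun u => Geo ψ A (p, u))
        (fderiv ℝ (fun u => Geo ψ A (p, u)) ((1 / 2 : ℝ) • v)) ((fun t : ℝ => (1 / 2 + t) • v) 0) := by
      simp only [add_zero]; exact hV
    exact h2.comp_hasDerivAt (0 : ℝ) h1
  have hc0 : c 0 = Geo ψ A (p, (1 / 2 : ℝ) • v) := by simp only [hcdef, add_zero]
  constructor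
  · have := F.line_eq h hk hd (1 / 2)
    rw [hc0] at this
    rw [← this]
    simp only [hcdef]
    norm_num
  · have := F.norm_vel h hk hd
    rwa [hc0] at this

/-- Smoothness of `Geo` for short vectors. -/
theorem Fam.smooth_small (h : GChart M g e) (F : Fam g e φ ψ A) : ∃ ρ, 0 < ρ ∧
    ∀ p v, gnorm g p v < ρ → ContDiffAt ℝ ∞ (Geo ψ A) (p, v) := by
  obtain ⟨r, ρ, X, W, hl⟩ := h.loc 0
  refine ⟨ρ, hl.ρ_pos, ?_⟩
  have hgc : Continuous (fun q : E × E => gnorm g q.1 q.2) := by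
    have := continuousOn_gnorm h.met.met
    rwa [univ_prod_univ, continuousOn_univ] at this
  -- at `(0, w)`
  have hloc : ∀ w, gnorm g 0 w < ρ → ContDiffAt ℝ ∞ (Geo ψ A) (0, w) := by
    intro w hw
    have h0 : (0 : E) ∈ Metric.ball (0 : E) r := Metric.mem_ball_self hl.r_pos
    have h1 : ContDiffAt ℝ ∞ X (0, w) := hl.smooth.contDiffAt
      ((Metric.isOpen_ball.prod Metric.isOpen_ball).mem_nhds ⟨h0, hl.small 0 h0 w hw⟩)
    refine h1.congr_of_eventuallyEq ?_
    have e1 : ∀ᶠ z : E × E in 𝓝 ((0 : E), w), z.1 ∈ Metric.ball (0 : E) r :=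
      continuous_fst.continuousAt.eventually (Metric.isOpen_ball.mem_nhds h0)
    have e2 : ∀ᶠ z : E × E in 𝓝 ((0 : E), w), gnorm g z.1 z.2 < ρ :=
      hgc.continuousAt.eventually_lt continuousAt_const hw
    filter_upwards [e1, e2] with z hz1 hz2
    exact F.geo_eq_loc h hl hz1 hz2
  intro p v hpv
  obtain ⟨θ, hθ⟩ := h.exists_ch (φ p).symm
  have hθp : θ p = 0 := by
    apply h.inj
    rw [hθ p]
    have := F.ch p 0
    rw [F.zero] at this
    rw [this, (φ p).symm_apply_apply]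
  have hψθ : ∀ y, ψ p (θ y) = y := by
    intro y
    apply h.inj
    rw [F.ch p, hθ, (φ p).apply_symm_apply]
  obtain ⟨-, L, hL, hLd⟩ := h.ch_deriv hθ p
  have hfd : fderiv ℝ θ p = (L : E →L[ℝ] E) := hLd.fderiv
  have hn : gnorm g 0 (fderiv ℝ θ p v) < ρ := by
    have : gnorm g 0 (fderiv ℝ θ p v) = gnorm g p v := by
      unfold gnorm
      rw [hfd, ← hθp]
      congr 1
      exact hL v v
    rwa [this]
  have hrep : Geo ψ A = fun z => ψ p (Geo ψ A (θ z.1, fderiv ℝ θ z.1 z.2)) := by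
    funext z
    rw [← F.geo_nat h hθ z.1 z.2, hψθ]
  have hin : ContDiffAt ℝ ∞ (fun z : E × E => (θ z.1, fderiv ℝ θ z.1 z.2)) (p, v) := by
    have hs := h.ch_smooth hθ
    have hfs : ContDiff ℝ ∞ (fderiv ℝ θ) := hs.fderiv_right (by simp)
    exact ((hs.comp contDiff_fst).prodMk ((hfs.comp contDiff_fst).clm_apply contDiff_snd)).contDiffAt
  have hmid : ContDiffAt ℝ ∞ (Geo ψ A) (θ p, fderiv ℝ θ p v) := by
    rw [hθp]; exact hloc _ hn
  rw [hrep]
  exact (h.ch_smooth (F.ch p)).contDiffAt.comp (p, v)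
    (ContDiffAt.comp (f := fun z : E × E => (θ z.1, fderiv ℝ θ z.1 z.2)) (g := Geo ψ A) (p, v) hmid hin)

/-- Doubling. -/
theorem Fam.smooth_double (h : GChart M g e) (F : Fam g e φ ψ A) {R : ℝ}
    (hR : ∀ p v, gnorm g p v < R → ContDiffAt ℝ ∞ (Geo ψ A) (p, v)) :
    ∀ p v, gnorm g p v < 2 * R → ContDiffAt ℝ ∞ (Geo ψ A) (p, v) := by
  intro p v hv
  have hhalf : gnorm g p ((1 / 2 : ℝ) • v) < R := by
    rw [gnorm_smul, abs_of_pos (by norm_num)]; linarith
  have hG := hR p _ hhalf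
  -- the velocity
  set Vf : E × E → E := fun z => fderiv ℝ (Geo ψ A) (z.1, (1 / 2 : ℝ) • z.2) (0, z.2) with hVf
  have hpart : ∀ z : E × E, DifferentiableAt ℝ (Geo ψ A) (z.1, (1 / 2 : ℝ) • z.2) →
      HasFDerivAt (fun u => Geo ψ A (z.1, u)) ((fderiv ℝ (Geo ψ A) (z.1, (1 / 2 : ℝ) • z.2)).comp
        (ContinuousLinearMap.inr ℝ E E)) ((1 / 2 : ℝ) • z.2) := by
    intro z hz
    exact hz.hasFDerivAt.comp _ (hasFDerivAt_prodMk_right z.1 ((1 / 2 : ℝ) • z.2))
  have hfac : ∀ z : E × E, DifferentiableAt ℝ (Geo ψ A) (z.1, (1 / 2 : ℝ) • z.2) →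
      Geo ψ A z = Geo ψ A (Geo ψ A (z.1, (1 / 2 : ℝ) • z.2), (1 / 2 : ℝ) • Vf z) ∧
      gnorm g (Geo ψ A (z.1, (1 / 2 : ℝ) • z.2)) (Vf z) = gnorm g z.1 z.2 := by
    intro z hz
    have h1 := hpart z hz
    have h2 := h1.fderiv
    refine F.geo_half h (p := z.1) (v := z.2) (V := Vf z) ?_ ?_
    · rw [h2]; exact h1
    · rw [h2]; simp [hVf]
  have hdiff : ∀ᶠ z : E × E in 𝓝 (p, v), DifferentiableAt ℝ (Geo ψ A) (z.1, (1 / 2 : ℝ) • z.2) := by
    have h1 : ∀ᶠ z in 𝓝 ((p, (1 / 2 : ℝ) • v) : E × E), ContDiffAt ℝ 1 (Geo ψ A) z :=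
      (hG.of_le (by simp)).eventually (by simp)
    have h2 : ContinuousAt (fun z : E × E => (z.1, (1 / 2 : ℝ) • z.2)) (p, v) :=
      (continuous_fst.prodMk (continuous_snd.const_smul _)).continuousAt
    filter_upwards [h2.eventually h1] with z hz
    exact hz.differentiableAt (by simp)
  have hev : Geo ψ A =ᶠ[𝓝 (p, v)]
      fun z => Geo ψ A (Geo ψ A (z.1, (1 / 2 : ℝ) • z.2), (1 / 2 : ℝ) • Vf z) := by
    filter_upwards [hdiff] with z hz using (hfac z hz).1
  refine ContDiffAt.congr_of_eventuallyEq ?_ hev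
  have hsc : ContDiff ℝ ∞ (fun z : E × E => (z.1, (1 / 2 : ℝ) • z.2)) :=
    contDiff_fst.prodMk (contDiff_snd.const_smul _)
  have hG1 : ContDiffAt ℝ ∞ (fun z : E × E => Geo ψ A (z.1, (1 / 2 : ℝ) • z.2)) (p, v) :=
    ContDiffAt.comp (f := fun z : E × E => (z.1, (1 / 2 : ℝ) • z.2)) (g := Geo ψ A) (p, v) hG
      hsc.contDiffAt
  have hfd : ContDiffAt ℝ ∞ (fderiv ℝ (Geo ψ A)) (p, (1 / 2 : ℝ) • v) := hG.fderiv_right (by simp)
  have hV1 : ContDiffAt ℝ ∞ Vf (p, v) := by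
    have h1 : ContDiffAt ℝ ∞ (fun z : E × E => fderiv ℝ (Geo ψ A) (z.1, (1 / 2 : ℝ) • z.2)) (p, v) :=
      ContDiffAt.comp (f := fun z : E × E => (z.1, (1 / 2 : ℝ) • z.2)) (g := fderiv ℝ (Geo ψ A))
        (p, v) hfd hsc.contDiffAt
    exact h1.clm_apply (contDiff_const.prodMk contDiff_snd).contDiffAt
  have hself := (hfac (p, v) hdiff.self_of_nhds).2
  have hend : ContDiffAt ℝ ∞ (Geo ψ A)
      (Geo ψ A (p, (1 / 2 : ℝ) • v), (1 / 2 : ℝ) • Vf (p, v)) := by
    apply hR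
    rw [gnorm_smul, abs_of_pos (by norm_num)]
    have : gnorm g (Geo ψ A (p, (1 / 2 : ℝ) • v)) (Vf (p, v)) = gnorm g p v := hself
    rw [this]; linarith
  exact ContDiffAt.comp
    (f := fun z : E × E => (Geo ψ A (z.1, (1 / 2 : ℝ) • z.2), (1 / 2 : ℝ) • Vf z))
    (g := Geo ψ A) (p, v) hend (hG1.prodMk (hV1.const_smul _))

/-- `Geo` is smooth. -/
theorem Fam.geo_smooth (h : GChart M g e) (F : Fam g e φ ψ A) : ContDiff ℝ ∞ (Geo ψ A) := by
  obtain ⟨ρ, hρ, h0⟩ := F.smooth_small h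
  have hn : ∀ n : ℕ, ∀ p v, gnorm g p v < 2 ^ n * ρ → ContDiffAt ℝ ∞ (Geo ψ A) (p, v) := by
    intro n
    induction n with
    | zero => simpa using h0
    | succ n ih =>
      have := F.smooth_double h ih
      intro p v hv
      refine this p v ?_
      rw [pow_succ] at hv
      linarith
  rw [contDiff_iff_contDiffAt]
  rintro ⟨p, v⟩
  obtain ⟨n, hn'⟩ := pow_unbounded_of_one_lt (gnorm g p v / ρ) (one_lt_two : (1 : ℝ) < 2)
  refine hn n p v ?_
  rwa [div_lt_iff₀ hρ] at hn'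

/-- The derivative of `Geo (p, ·)` is injective. -/
theorem Fam.geo_deriv_inj (h : GChart M g e) (F : Fam g e φ ψ A) (p v b : E)
    (hb : fderiv ℝ (Geo ψ A) (p, v) (0, b) = 0) : b = 0 := by
  have hG := ((F.geo_smooth h).differentiable (by simp) (p, v)).hasFDerivAt
  have h1 : HasFDerivAt (fun u => Geo ψ A (p, u)) ((fderiv ℝ (Geo ψ A) (p, v)).comp
      (ContinuousLinearMap.inr ℝ E E)) v := hG.comp _ (hasFDerivAt_prodMk_right p v)
  obtain ⟨-, L, -, hL⟩ := h.ch_deriv (F.ch p) ((A p).symm v)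
  have h2 : HasFDerivAt (fun u => Geo ψ A (p, u))
      ((L : E →L[ℝ] E).comp ((A p).symm : E →L[ℝ] E)) v :=
    hL.comp v ((A p).symm : E →L[ℝ] E).hasFDerivAt
  have h3 := congrArg (fun T : E →L[ℝ] E => T b) (h1.unique h2)
  simp only [ContinuousLinearMap.comp_apply, ContinuousLinearMap.inr_apply,
    ContinuousLinearEquiv.coe_coe] at h3
  rw [hb] at h3
  have h4 : L ((A p).symm b) = 0 := h3.symm
  have h5 := L.injective (h4.trans (map_zero L).symm)
  exact (A p).symm.injective (h5.trans (map_zero (A p).symm).symm)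

end fam

/-- The inverse of a smooth bijection with injective derivatives is smooth. -/
theorem contDiff_inv {F : Type*} [NormedAddCommGroup F] [NormedSpace ℝ F] [FiniteDimensional ℝ F]
    {Ψ Λ : F → F} (hΨ : ContDiff ℝ ∞ Ψ) (hinj : Function.Injective Ψ)
    (hΛ : ∀ y, Ψ (Λ y) = y) (hd : ∀ z b, fderiv ℝ Ψ z b = 0 → b = 0) : ContDiff ℝ ∞ Λ := by
  have : CompleteSpace F := FiniteDimensional.complete ℝ F
  rw [contDiff_iff_contDiffAt]
  intro y
  have hAi : Function.Injective (fderiv ℝ Ψ (Λ y)) := by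
    rw [injective_iff_map_eq_zero]
    exact fun b hb => hd _ b hb
  set a : F ≃L[ℝ] F := (LinearEquiv.ofInjectiveEndo (fderiv ℝ Ψ (Λ y)).toLinearMap
    hAi).toContinuousLinearEquiv with ha
  have haA : (a : F →L[ℝ] F) = fderiv ℝ Ψ (Λ y) := by
    ext z; simp [ha]
  have hf : HasFDerivAt Ψ (a : F →L[ℝ] F) (Λ y) := by
    rw [haA]; exact (hΨ.differentiable (by simp) (Λ y)).hasFDerivAt
  set Φ := (hΨ.contDiffAt (x := Λ y)).toOpenPartialHomeomorph Ψ hf (by simp) with hΦ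
  have hΦc : (Φ : F → F) = Ψ :=
    (hΨ.contDiffAt (x := Λ y)).toOpenPartialHomeomorph_coe hf (by simp)
  have hsrc : Λ y ∈ Φ.source :=
    (hΨ.contDiffAt (x := Λ y)).mem_toOpenPartialHomeomorph_source hf (by simp)
  have htgt : y ∈ Φ.target := by
    have := Φ.map_source hsrc
    rwa [hΦc, hΛ] at this
  have hsy : Φ.symm y = Λ y := by
    have := Φ.left_inv hsrc
    rwa [hΦc, hΛ] at this
  have hev : Λ =ᶠ[𝓝 y] Φ.symm := by
    filter_upwards [Φ.open_target.mem_nhds htgt] with z hz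
    apply hinj
    rw [hΛ]
    have := Φ.right_inv hz
    rw [hΦc] at this
    exact this.symm
  refine ContDiffAt.congr_of_eventuallyEq ?_ hev
  refine Φ.contDiffAt_symm htgt (f₀' := a) ?_ ?_
  · rw [hsy, hΦc]; exact hf
  · rw [hsy, hΦc]; exact hΨ.contDiffAt

/-- **The squared distance is smooth.** -/
theorem GChart.contDiff_dist_sq (h : GChart M g e) :
    ContDiff ℝ ∞ (fun q : E × E => dist (e q.1) (e q.2) ^ 2) := by
  obtain ⟨φ, ψ, A, F⟩ := h.exists_fam
  have hG := F.geo_smooth h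
  set Ψ : E × E → E × E := fun z => (z.1, Geo ψ A z) with hΨdef
  have hΨ : ContDiff ℝ ∞ Ψ := contDiff_fst.prodMk hG
  have hinj : Function.Injective Ψ := by
    rintro ⟨p, v⟩ ⟨p', v'⟩ hz
    have h1 : p = p' := (Prod.ext_iff.1 hz).1
    subst h1
    have h2 : Geo ψ A (p, v) = Geo ψ A (p, v') := (Prod.ext_iff.1 hz).2
    rw [F.geo_inj h p h2]
  choose Lg hLg using F.geo_surj h
  set Λ : E × E → E × E := fun z => (z.1, Lg z.1 z.2) with hΛdef
  have hΛ : ∀ y, Ψ (Λ y) = y := by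
    rintro ⟨x, y⟩
    simp only [hΨdef, hΛdef]
    rw [hLg]
  have hd : ∀ z b, fderiv ℝ Ψ z b = 0 → b = 0 := by
    rintro ⟨p, v⟩ ⟨a, b⟩ hz
    have h1 : HasFDerivAt Ψ ((ContinuousLinearMap.fst ℝ E E).prod (fderiv ℝ (Geo ψ A) (p, v)))
        (p, v) := hasFDerivAt_fst.prodMk (hG.differentiable (by simp) (p, v)).hasFDerivAt
    rw [h1.fderiv] at hz
    simp only [ContinuousLinearMap.prod_apply, ContinuousLinearMap.coe_fst',
      Prod.mk_eq_zero] at hz
    obtain ⟨ha, hb⟩ := hz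
    subst ha
    rw [F.geo_deriv_inj h p v b hb]
    rfl
  have hΛs : ContDiff ℝ ∞ Λ := contDiff_inv hΨ hinj hΛ hd
  have hg : ContDiff ℝ ∞ g := contDiffOn_univ.1 h.met.met.smooth
  have heq : (fun q : E × E => dist (e q.1) (e q.2) ^ 2) =
      fun q => g q.1 (Λ q).2 (Λ q).2 := by
    funext q
    have h1 : dist (e q.1) (e q.2) = gnorm g q.1 (Lg q.1 q.2) := by
      rw [← F.dist_geo h, hLg]
    rw [h1, gnorm_sq h.met.met (mem_univ _)]
  rw [heq]
  have hL2 : ContDiff ℝ ∞ (fun q => (Λ q).2) := contDiff_snd.comp hΛs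
  exact ((hg.comp contDiff_fst).clm_apply hL2).clm_apply hL2

end GS

end

end Pool.Agent.Work.MP_3b24f6_gt.Froz
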