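import Pool.Agent.Work.MP_3b24f6_gt.S.KillHom
import Pool.Agent.Work.MP_3b24f6_gt.S.KillLin
import Pool.Agent.Work.MP_3b24f6_gt.S.SkewGen

/-!
# The structure `HomMet` from Gauss' lemma, linear isometries and translation fields
-/

set_option autoImplicit false
set_option maxSynthPendingDepth 3

open scoped InnerProductSpace ContDiff
open Filter Topology

namespace Pool.Agent.Work.MP_3b24f6_gt.KHom

noncomputable section

variable {E : Type*} [NormedAddCommGroup E] [InnerProductSpace ℝ E] [FiniteDimensional ℝ E]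
  {g : E → E →L[ℝ] E →L[ℝ] ℝ}

/-- The linear isometries of `g`. -/
def linK (g : E → E →L[ℝ] E →L[ℝ] ℝ) : Set (E →L[ℝ] E) :=
  {a | ∀ z u v, g (a z) (a u) (a v) = g z u v}

theorem isGrp_linK (hc : Continuous g) (h0 : ∀ u v, g 0 u v = ⟪u, v⟫_ℝ) : SG.IsGrp (linK g) := by
  have hiso : ∀ a ∈ linK g, ∀ x, ‖a x‖ = ‖x‖ := by
    intro a ha x
    have h := ha 0 x x
    rw [map_zero, h0, h0, real_inner_self_eq_norm_sq, real_inner_self_eq_norm_sq] at h
    exact (pow_left_inj₀ (norm_nonneg _) (norm_nonneg _) two_ne_zero).mp h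
  refine ⟨fun z u v => rfl, fun a ha b hb z u v => ?_, fun a ha => ?_, ?_, hiso⟩
  · change g (a (b z)) (a (b u)) (a (b v)) = _
    rw [ha, hb]
  · let L : E →ₗᵢ[ℝ] E := ⟨(a : E →ₗ[ℝ] E), hiso a ha⟩
    let L' : E ≃ₗᵢ[ℝ] E := L.toLinearIsometryEquiv rfl
    have hL' : ∀ x, L' x = a x := fun x => rfl
    refine ⟨(L'.symm.toContinuousLinearEquiv : E →L[ℝ] E), fun z u v => ?_, ?_, ?_⟩
    · change g (L'.symm z) (L'.symm u) (L'.symm v) = _
      rw [← ha (L'.symm z), ← hL', ← hL', ← hL']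
      simp
    · ext x
      change a (L'.symm x) = x
      rw [← hL']
      simp
    · ext x
      change L'.symm (a x) = x
      rw [← hL']
      simp
  · have h : linK g = ⋂ (z : E) (u : E) (v : E), {a | g (a z) (a u) (a v) = g z u v} := by
      ext a
      simp [linK]
    rw [h]
    refine isClosed_iInter fun z => isClosed_iInter fun u => isClosed_iInter fun v => ?_
    refine isClosed_eq ?_ continuous_const
    have h1 : ∀ w : E, Continuous (fun a : E →L[ℝ] E => a w) := fun w => by fun_prop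
    exact ((hc.comp (h1 z)).clm_apply (h1 u)).clm_apply (h1 v)

/-- `HomMet` from the Gauss lemma, the linear isometries and the translation fields. -/
theorem homMet_of (hg : ContDiff ℝ ∞ g) (hsymm : ∀ y u v, g y u v = g y v u)
    (hgauss : ∀ y w, g y y w = ⟪y, w⟫_ℝ)
    (hiso : ∀ x y : E, ‖x‖ = ‖y‖ → ∃ L : E ≃ₗᵢ[ℝ] E, L x = y ∧
      ∀ z u v, g (L z) (L u) (L v) = g z u v)
    (htr : ∀ x : E, ‖x‖ = 1 → ∃ X : E → E, IsKilling g X ∧ ∀ t : ℝ, X (t • x) = x) :
    HomMet g := by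
  have h0 := KLin.at0_of_gauss hg.continuous hgauss
  refine ⟨hg, h0, KLin.d0_of_gauss hg hsymm hgauss, htr, fun x v hx hv => ?_, hiso⟩
  obtain ⟨A, -, hAx, hA⟩ := (isGrp_linK hg.continuous h0).exists_skew (fun x y hxy => by
    obtain ⟨L, hL1, hL2⟩ := hiso x y hxy
    exact ⟨(L.toContinuousLinearEquiv : E →L[ℝ] E), hL2, hL1⟩) hv hx
  exact ⟨A, KLin.isKilling_of_exp hg A fun s z u v => hA s z u v, hAx⟩

end

end Pool.Agent.Work.MP_3b24f6_gt.KHom
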