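import Mathlib

set_option autoImplicit false

open Set Filter Topology
open scoped ContDiff

/-! Families of isometries of a metric `g` on a vector space `E` (interface of TransField). -/

namespace Pool.Agent.Work.MP_3b24f6_gt.Froz

variable {E : Type*} [NormedAddCommGroup E] [NormedSpace ℝ E]

/-- `G` is a closed group of smooth isometries of `g`, with the properties of the isometry group
of a Riemannian manifold read in a global exponential chart. -/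
structure IsoFam (G : Set (E → E)) (g : E → E →L[ℝ] E →L[ℝ] ℝ) : Prop where
  id_mem : (fun y => y) ∈ G
  comp : ∀ φ ∈ G, ∀ ψ ∈ G, (fun y => φ (ψ y)) ∈ G
  inv : ∀ φ ∈ G, ∃ ψ ∈ G, (∀ y, φ (ψ y) = y) ∧ ∀ y, ψ (φ y) = y
  smooth : ∀ φ ∈ G, ContDiff ℝ ∞ φ
  pres : ∀ φ ∈ G, ∀ y u v, g (φ y) (fderiv ℝ φ y u) (fderiv ℝ φ y v) = g y u v
  fix_lin : ∀ φ ∈ G, φ 0 = 0 → ∃ L : E →L[ℝ] E, ∀ y, φ y = L y
  lin_mem : ∀ L : E ≃L[ℝ] E, (∀ y u v, g (L y) (L u) (L v) = g y u v) → (fun y => L y) ∈ G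
  compact : ∀ φ : ℕ → E → E, (∀ n, φ n ∈ G) → (∃ R, ∀ n, ‖φ n 0‖ ≤ R) →
    ∃ ψ ∈ G, ∃ σ : ℕ → ℕ, StrictMono σ ∧ ∀ y, Tendsto (fun n => φ (σ n) y) atTop (𝓝 (ψ y))
  jet : ∀ ψ : ℕ → E → E, (∀ n, ψ n ∈ G) → (∀ y, Tendsto (fun n => ψ n y) atTop (𝓝 y)) →
    ∀ q, Tendsto (fun n => fderiv ℝ (ψ n) q) atTop (𝓝 (ContinuousLinearMap.id ℝ E))
  rep : ∀ q, ∃ r, 0 < r ∧ ∀ q' ∈ Metric.ball q r, ∃ F : (E × (E →L[ℝ] E)) × E → E,
    ContDiffOn ℝ ∞ F ((Metric.ball q' r ×ˢ Metric.ball (ContinuousLinearMap.id ℝ E) r) ×ˢ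
      Metric.ball q' r) ∧
    ∀ φ ∈ G, φ q' ∈ Metric.ball q' r →
      fderiv ℝ φ q' ∈ Metric.ball (ContinuousLinearMap.id ℝ E) r →
      ∀ y ∈ Metric.ball q' r, φ y = F ((φ q', fderiv ℝ φ q'), y)

end Pool.Agent.Work.MP_3b24f6_gt.Froz
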