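import Pool.Agent.Work.MP_3b24f6_gt.S.Isom
import Pool.Agent.Work.MP_3b24f6_gt.S.IsoFamDefs

set_option autoImplicit false

open MeasureTheory Set Filter Topology
open scoped ContDiff

/-! The isometry group of `M` in a global chart. -/

namespace Pool.Agent.Work.MP_3b24f6_gt.Froz

noncomputable section

open Iso

section metric
variable {M : Type*} [MetricSpace M]

/-- In a proper length space a map that is locally `K`-Lipschitz for every `K > 1` is
`1`-Lipschitz. -/
theorem lip_of_local [ProperSpace M] (hc : ChainLen M) (ψ : M → M)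
    (h : ∀ x : M, ∀ K : ℝ, 1 < K → ∃ δ, 0 < δ ∧ ∀ y ∈ Metric.ball x δ, ∀ z ∈ Metric.ball x δ,
      dist (ψ y) (ψ z) ≤ K * dist y z) (p q : M) : dist (ψ p) (ψ q) ≤ dist p q := by
  have key : ∀ K : ℝ, 1 < K → ∀ ε : ℝ, 0 < ε → dist (ψ p) (ψ q) ≤ K * (dist p q + ε) := by
    intro K hK ε hε
    set B := Metric.closedBall p (dist p q + ε) with hB
    have hBc : IsCompact B := isCompact_closedBall _ _
    choose δ hδ hlip using fun x => h x K hK
    obtain ⟨t, ht⟩ := hBc.elim_nhds_subcover (fun x => Metric.ball x (δ x / 2))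
      (fun x _ => Metric.ball_mem_nhds x (half_pos (hδ x)))
    obtain ⟨η, hη, hηt⟩ : ∃ η, 0 < η ∧ ∀ x ∈ t, η ≤ δ x / 2 := by
      by_cases hne : t.Nonempty
      · obtain ⟨x₀, hx₀, hmin⟩ := t.exists_min_image (fun x => δ x / 2) hne
        exact ⟨δ x₀ / 2, half_pos (hδ x₀), hmin⟩
      · refine ⟨1, one_pos, fun x hx => (hne ⟨x, hx⟩).elim⟩
    obtain ⟨n, z, hz0, hzn, hstep, hsum⟩ := hc p q η hη ε hε
    have hpart : ∀ k, k ≤ n → dist p (z k) ≤ ∑ i ∈ Finset.range k, dist (z i) (z (i + 1)) := by
      intro k hk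
      rw [← hz0]
      exact dist_le_range_sum_dist z k
    have hmem : ∀ k, k ≤ n → z k ∈ B := by
      intro k hk
      have h1 : ∑ i ∈ Finset.range k, dist (z i) (z (i + 1)) ≤
          ∑ i ∈ Finset.range n, dist (z i) (z (i + 1)) :=
        Finset.sum_le_sum_of_subset_of_nonneg (Finset.range_mono hk) fun _ _ _ => dist_nonneg
      rw [hB, Metric.mem_closedBall, dist_comm]
      linarith [hpart k hk]
    have hone : ∀ i, i < n → dist (ψ (z i)) (ψ (z (i + 1))) ≤ K * dist (z i) (z (i + 1)) := by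
      intro i hi
      have hzi := ht.2 (hmem i hi.le)
      simp only [mem_iUnion] at hzi
      obtain ⟨x, hx, hzx⟩ := hzi
      have h1 : z i ∈ Metric.ball x (δ x) := Metric.ball_subset_ball (by linarith [hδ x]) hzx
      have h2 : z (i + 1) ∈ Metric.ball x (δ x) := by
        rw [Metric.mem_ball] at hzx ⊢
        have h3 := hstep i hi
        have h4 := hηt x hx
        have h5 := dist_triangle (z (i + 1)) (z i) x
        rw [dist_comm (z (i + 1)) (z i)] at h5
        linarith
      exact hlip x _ h1 _ h2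
    calc dist (ψ p) (ψ q) = dist (ψ (z 0)) (ψ (z n)) := by rw [hz0, hzn]
      _ ≤ ∑ i ∈ Finset.range n, dist (ψ (z i)) (ψ (z (i + 1))) :=
          dist_le_range_sum_dist (fun i => ψ (z i)) n
      _ ≤ ∑ i ∈ Finset.range n, K * dist (z i) (z (i + 1)) :=
          Finset.sum_le_sum fun i hi => hone i (Finset.mem_range.mp hi)
      _ = K * ∑ i ∈ Finset.range n, dist (z i) (z (i + 1)) := by rw [Finset.mul_sum]
      _ ≤ K * (dist p q + ε) := mul_le_mul_of_nonneg_left hsum.le (by linarith)
  refine le_of_forall_pos_le_add fun η hη => ?_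
  have h0 := dist_nonneg (x := p) (y := q)
  set D := dist p q with hD
  have h1 := key (1 + min 1 (η / (2 * (D + 1)))) (by
    have : 0 < min 1 (η / (2 * (D + 1))) := lt_min one_pos (by positivity)
    linarith) (min 1 (η / 4)) (lt_min one_pos (by positivity))
  have h2 : min 1 (η / (2 * (D + 1))) * (D + 1) ≤ η / 2 := by
    have h3 : min 1 (η / (2 * (D + 1))) ≤ η / (2 * (D + 1)) := min_le_right _ _
    calc min 1 (η / (2 * (D + 1))) * (D + 1) ≤ η / (2 * (D + 1)) * (D + 1) :=
          mul_le_mul_of_nonneg_right h3 (by linarith)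
      _ = η / 2 := by field_simp
  have h4 : min 1 (η / 4) ≤ 1 := min_le_left _ _
  have h5 : min 1 (η / 4) ≤ η / 4 := min_le_right _ _
  have h6 : 0 < min 1 (η / (2 * (D + 1))) := lt_min one_pos (by positivity)
  have h7 : 0 < min 1 (η / 4) := lt_min one_pos (by positivity)
  nlinarith

/-- Arzela-Ascoli for isometries of a proper space. -/
theorem exists_subseq_isom [ProperSpace M] (φ : ℕ → M ≃ᵢ M) (o : M) {R : ℝ}
    (hR : ∀ n, dist o (φ n o) ≤ R) :
    ∃ ψ : M ≃ᵢ M, ∃ σ : ℕ → ℕ, StrictMono σ ∧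
      ∀ x, Tendsto (fun n => φ (σ n) x) atTop (𝓝 (ψ x)) := by
  haveI : Nonempty M := ⟨o⟩
  obtain ⟨u, hu⟩ := TopologicalSpace.exists_dense_seq M
  -- countable product
  let P : Set (ℕ → M × M) := Set.pi univ fun k =>
    Metric.closedBall o (R + dist o (u k)) ×ˢ Metric.closedBall o (R + dist o (u k))
  have hP : IsCompact P := isCompact_univ_pi fun k =>
    (isCompact_closedBall _ _).prod (isCompact_closedBall _ _)
  have hmem : ∀ n, (fun k => (φ n (u k), (φ n).symm (u k))) ∈ P := by
    intro n k _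
    constructor
    · rw [Metric.mem_closedBall, dist_comm]
      calc dist o (φ n (u k)) ≤ dist o (φ n o) + dist (φ n o) (φ n (u k)) := dist_triangle _ _ _
        _ ≤ R + dist o (u k) := by rw [(φ n).dist_eq]; linarith [hR n]
    · rw [Metric.mem_closedBall, dist_comm]
      calc dist o ((φ n).symm (u k)) = dist (φ n o) (u k) := by
            rw [← (φ n).dist_eq]; simp
        _ ≤ dist (φ n o) o + dist o (u k) := dist_triangle _ _ _
        _ ≤ R + dist o (u k) := by rw [dist_comm]; linarith [hR n]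
  obtain ⟨w, _, σ, hσ, hw⟩ := hP.tendsto_subseq hmem
  rw [tendsto_pi_nhds] at hw
  have hw1 : ∀ k, ∃ a, Tendsto (fun n => φ (σ n) (u k)) atTop (𝓝 a) := fun k =>
    ⟨(w k).1, (continuous_fst.tendsto _).comp (hw k)⟩
  have hw2 : ∀ k, ∃ a, Tendsto (fun n => (φ (σ n)).symm (u k)) atTop (𝓝 a) := fun k =>
    ⟨(w k).2, (continuous_snd.tendsto _).comp (hw k)⟩
  have ext : ∀ (F : ℕ → M → M), (∀ n x y, dist (F n x) (F n y) = dist x y) →
      (∀ k, ∃ a, Tendsto (fun n => F n (u k)) atTop (𝓝 a)) →
      ∀ x, ∃ a, Tendsto (fun n => F n x) atTop (𝓝 a) := by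
    intro F hF hk x
    apply cauchySeq_tendsto_of_complete
    rw [Metric.cauchySeq_iff']
    intro ε hε
    obtain ⟨k, hk'⟩ := (Metric.denseRange_iff.mp hu) x (ε / 4) (by linarith)
    obtain ⟨a, ha⟩ := hk k
    obtain ⟨n₀, hn₀⟩ := Metric.cauchySeq_iff'.mp ha.cauchySeq (ε / 4) (by linarith)
    refine ⟨n₀, fun n hn => ?_⟩
    have h1 := hn₀ n hn
    calc dist (F n x) (F n₀ x) ≤ dist (F n x) (F n (u k)) + dist (F n (u k)) (F n₀ (u k))
          + dist (F n₀ (u k)) (F n₀ x) := dist_triangle4 _ _ _ _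
      _ < ε := by
          rw [hF, hF, dist_comm (u k) x]
          linarith
  choose ψ hψ using ext (fun n x => φ (σ n) x) (fun n x y => (φ (σ n)).dist_eq x y) hw1
  choose ψ' hψ' using ext (fun n x => (φ (σ n)).symm x)
    (fun n x y => (φ (σ n)).symm.dist_eq x y) hw2
  have hiso : ∀ x y, dist (ψ x) (ψ y) = dist x y := fun x y =>
    tendsto_nhds_unique ((hψ x).dist (hψ y)) (by
      simp only [(φ (σ _)).dist_eq]; exact tendsto_const_nhds)
  have hinv : ∀ x, ψ (ψ' x) = x := by
    intro x
    have h1 : Tendsto (fun n => dist (φ (σ n) (ψ' x)) x) atTop (𝓝 0) := by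
      have h2 := tendsto_iff_dist_tendsto_zero.mp (hψ' x)
      refine h2.congr fun n => ?_
      rw [← (φ (σ n)).dist_eq]
      simp [dist_comm]
    exact tendsto_nhds_unique (hψ (ψ' x)) (tendsto_iff_dist_tendsto_zero.mpr h1)
  have hψi : Isometry ψ := Isometry.of_dist_eq hiso
  refine ⟨IsometryEquiv.mk' ψ ψ' hinv hψi, σ, hσ, fun x => hψ x⟩

end metric


section chart
variable {E : Type*} [NormedAddCommGroup E] [NormedSpace ℝ E] [FiniteDimensional ℝ E]
  {M : Type*} [MetricSpace M] {g : E → E →L[ℝ] E →L[ℝ] ℝ} {e : E → M}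

/-- The isometries of `M` read in the global chart `e`. -/
def isoSet (e : E → M) : Set (E → E) := {f | ∃ φ : M ≃ᵢ M, ∀ y, e (f y) = φ (e y)}

theorem MetModel.injective (hM : MetModel M univ g e) : Function.Injective e := fun x y h =>
  hM.inj (mem_univ x) (mem_univ y) h

theorem MetModel.continuous (hM : MetModel M univ g e) : Continuous e :=
  continuousOn_univ.mp hM.cont

theorem MetModel.isOpenMap (hM : MetModel M univ g e) : IsOpenMap e := fun V hV =>
  hM.isOpen_image V (subset_univ V) hV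

/-- The global chart as a homeomorphism. -/
def MetModel.homeo (hM : MetModel M univ g e) (hs : Function.Surjective e) : E ≃ₜ M :=
  (Equiv.ofBijective e ⟨hM.injective, hs⟩).toHomeomorphOfContinuousOpen hM.continuous hM.isOpenMap

theorem MetModel.homeo_apply (hM : MetModel M univ g e) (hs : Function.Surjective e) (y : E) :
    hM.homeo hs y = e y := rfl

theorem MetModel.tendsto_iff (hM : MetModel M univ g e) (hs : Function.Surjective e)
    {α : Type*} {l : Filter α} {u : α → E} {y : E} :
    Tendsto u l (𝓝 y) ↔ Tendsto (fun a => e (u a)) l (𝓝 (e y)) := by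
  constructor
  · exact fun h => (hM.continuous.tendsto y).comp h
  · intro h
    have h1 := ((hM.homeo hs).symm.continuous.tendsto (e y)).comp h
    have h2 : (hM.homeo hs).symm (e y) = y := by
      rw [← hM.homeo_apply hs y]; exact (hM.homeo hs).symm_apply_apply y
    rw [h2] at h1
    refine h1.congr fun a => ?_
    simp only [Function.comp]
    rw [← hM.homeo_apply hs (u a)]
    exact (hM.homeo hs).symm_apply_apply (u a)

/-- Local form of an isometry at `y`. -/
theorem isoSet_local (hM : MetModel M univ g e)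
    (hloc : ∀ q : E, ∃ r ρ X W, LocGeo M univ g e q r ρ X W) {f : E → E} (hf : f ∈ isoSet e)
    (y : E) : ∃ L : E ≃L[ℝ] E, HasFDerivAt f (L : E →L[ℝ] E) y ∧
      (∀ u v, g (f y) (L u) (L v) = g y u v) ∧ ContDiffAt ℝ ∞ f y := by
  obtain ⟨φ, hφ⟩ := hf
  obtain ⟨r, ρ, X, W, h⟩ := hloc y
  obtain ⟨r', ρ', X', W', h'⟩ := hloc (f y)
  have hy : y ∈ Metric.ball y r := Metric.mem_ball_self h.r_pos
  have hfy : f y ∈ Metric.ball (f y) r' := Metric.mem_ball_self h'.r_pos
  obtain ⟨L, hL, _, hrep, hder⟩ := h.isom_rep hM hM h' φ φ.isometry hy hfy (hφ y).symm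
  have hnear : ∀ᶠ z in 𝓝 y, dist (e y) (e z) < min ρ ρ' := by
    have h1 : Continuous fun z => dist (e y) (e z) := continuous_const.dist hM.continuous
    have h0 : dist (e y) (e y) < min ρ ρ' := by rw [dist_self]; exact lt_min h.ρ_pos h'.ρ_pos
    exact h1.continuousAt.eventually_lt continuousAt_const h0
  have heq : f =ᶠ[𝓝 y] fun z => X' (f y, L (W (y, z))) := by
    filter_upwards [hnear] with z hz
    apply hM.injective
    rw [hφ z]
    exact (hrep z (mem_univ z) hz).1
  refine ⟨L, hder.congr_of_eventuallyEq heq, hL, ?_⟩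
  have h0 : dist (e y) (e y) < min ρ ρ' := by rw [dist_self]; exact lt_min h.ρ_pos h'.ρ_pos
  exact (hrep y (mem_univ y) h0).2.2.congr_of_eventuallyEq heq

theorem clm_tendsto_of_apply {T : ℕ → E →L[ℝ] E} {S : E →L[ℝ] E}
    (h : ∀ v, Tendsto (fun n => T n v) atTop (𝓝 (S v))) : Tendsto T atTop (𝓝 S) := by
  let b := Module.finBasis ℝ E
  let Φ : (E →L[ℝ] E) →ₗ[ℝ] (Fin (Module.finrank ℝ E) → E) :=
    { toFun := fun A i => A (b i)
      map_add' := fun A B => by ext i; simp
      map_smul' := fun c A => by ext i; simp }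
  have hinj : Function.Injective Φ := by
    intro A B hAB
    have h1 : ∀ i, A (b i) = B (b i) := fun i => congr_fun hAB i
    apply ContinuousLinearMap.coe_injective
    exact b.ext h1
  have hcl := (LinearMap.isClosedEmbedding_of_injective (f := Φ) (LinearMap.ker_eq_bot.mpr hinj))
  rw [hcl.tendsto_nhds_iff]
  rw [tendsto_pi_nhds]
  intro i
  exact h (b i)

/-- The isometry group in a global chart. -/
theorem isoFam [ProperSpace M] (hM : MetModel M univ g e) (hs : Function.Surjective e)
    (hloc : ∀ q : E, ∃ r ρ X W, LocGeo M univ g e q r ρ X W)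
    (hlin : ∀ φ : M ≃ᵢ M, φ (e 0) = e 0 → ∃ L : E →L[ℝ] E, ∀ v, φ (e v) = e (L v)) :
    IsoFam (isoSet e) g where
  id_mem := ⟨IsometryEquiv.refl M, fun y => rfl⟩
  comp := by
    rintro f ⟨φ, hφ⟩ f' ⟨φ', hφ'⟩
    exact ⟨φ'.trans φ, fun y => by rw [hφ, hφ']; rfl⟩
  inv := by
    rintro f ⟨φ, hφ⟩
    choose f' hf' using fun y => hs (φ.symm (e y))
    refine ⟨f', ⟨φ.symm, hf'⟩, fun y => hM.injective ?_, fun y => hM.injective ?_⟩
    · rw [hφ, hf', φ.apply_symm_apply]
    · rw [hf', hφ, φ.symm_apply_apply]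
  smooth := fun f hf => contDiff_iff_contDiffAt.mpr fun y => by
    obtain ⟨_, _, _, h⟩ := isoSet_local hM hloc hf y
    exact h
  pres := by
    intro f hf y u v
    obtain ⟨L, h1, h2, _⟩ := isoSet_local hM hloc hf y
    rw [h1.fderiv]
    exact h2 u v
  fix_lin := by
    rintro f ⟨φ, hφ⟩ h0
    obtain ⟨L, hL⟩ := hlin φ (by rw [← hφ, h0])
    exact ⟨L, fun y => hM.injective (by rw [hφ, hL])⟩
  lin_mem := by
    intro L hL
    have one : ∀ L : E ≃L[ℝ] E, (∀ y u v, g (L y) (L u) (L v) = g y u v) →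
        ∀ x y, dist (e (L x)) (e (L y)) ≤ dist (e x) (e y) := by
      intro L hL x y
      let ψ : M → M := fun z => e (L ((hM.homeo hs).symm z))
      have hψ : ∀ z, ψ (e z) = e (L z) := by
        intro z
        simp only [ψ]
        rw [← hM.homeo_apply hs z, (hM.homeo hs).symm_apply_apply]
      rw [← hψ, ← hψ]
      refine lip_of_local hM.chain ψ ?_ _ _
      intro m K hK
      obtain ⟨x₀, rfl⟩ := hs m
      -- choose ε with (1 + ε) / (1 - ε) ≤ K
      set ε := (K - 1) / (K + 1) with hε
      have hK0 : 0 < K + 1 := by linarith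
      have hε0 : 0 < ε := div_pos (by linarith) hK0
      have hε1 : (1 + ε) = K * (1 - ε) := by rw [hε]; field_simp; ring
      have hε2 : 0 < 1 - ε := by
        rw [hε, sub_pos, div_lt_one hK0]; linarith
      obtain ⟨δ, hδ, _, hn⟩ := hM.near x₀ (mem_univ _) ε hε0
      obtain ⟨δ', hδ', _, hn'⟩ := hM.near (L x₀) (mem_univ _) ε hε0
      have hV : (Metric.ball x₀ δ ∩ L ⁻¹' Metric.ball (L x₀) δ') ∈ 𝓝 x₀ :=
        inter_mem (Metric.ball_mem_nhds _ hδ)
          (L.continuous.continuousAt.preimage_mem_nhds (Metric.ball_mem_nhds _ hδ'))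
      have hV' : e '' (Metric.ball x₀ δ ∩ L ⁻¹' Metric.ball (L x₀) δ') ∈ 𝓝 (e x₀) :=
        hM.isOpenMap.image_mem_nhds hV
      obtain ⟨η, hη, hsub⟩ := Metric.mem_nhds_iff.mp hV'
      refine ⟨η, hη, ?_⟩
      intro a ha b hb
      obtain ⟨a, ⟨ha1, ha2⟩, rfl⟩ := hsub ha
      obtain ⟨b, ⟨hb1, hb2⟩, rfl⟩ := hsub hb
      rw [hψ, hψ]
      have i1 := (hn a ha1 b hb1).1
      have i2 := (hn' (L a) ha2 (L b) hb2).2
      have i3 : gnorm g (L x₀) (L a - L b) = gnorm g x₀ (a - b) := by
        unfold gnorm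
        rw [← map_sub, hL]
      rw [i3, hε1] at i2
      calc dist (e (L a)) (e (L b)) ≤ K * (1 - ε) * gnorm g x₀ (a - b) := i2
        _ = K * ((1 - ε) * gnorm g x₀ (a - b)) := by ring
        _ ≤ K * dist (e a) (e b) := mul_le_mul_of_nonneg_left i1 (by linarith)
    have hL' : ∀ y u v, g (L.symm y) (L.symm u) (L.symm v) = g y u v := by
      intro y u v
      have := hL (L.symm y) (L.symm u) (L.symm v)
      simpa using this.symm
    have hd : ∀ x y, dist (e (L x)) (e (L y)) = dist (e x) (e y) := by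
      intro x y
      refine le_antisymm (one L hL x y) ?_
      have := one L.symm hL' (L x) (L y)
      simpa using this
    let T := hM.homeo hs
    have hT : ∀ z, T.symm (e z) = z := fun z => by
      rw [← hM.homeo_apply hs z]; exact T.symm_apply_apply z
    have hT' : ∀ m, e (T.symm m) = m := fun m => T.apply_symm_apply m
    have hiso : Isometry (fun m => e (L (T.symm m))) := by
      apply Isometry.of_dist_eq
      intro a b
      rw [hd, hT', hT']
    refine ⟨IsometryEquiv.mk' (fun m => e (L (T.symm m))) (fun m => e (L.symm (T.symm m)))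
      (fun m => ?_) hiso, fun y => ?_⟩
    · simp only [hT, ContinuousLinearEquiv.apply_symm_apply, hT']
    · show e (L y) = e (L (T.symm (e y)))
      rw [hT]
  compact := by
    intro f hf hR
    obtain ⟨R, hR⟩ := hR
    choose φ hφ using hf
    have hK : IsCompact (e '' Metric.closedBall 0 R) :=
      (isCompact_closedBall 0 R).image hM.continuous
    obtain ⟨R', hR'⟩ := hK.isBounded.subset_closedBall (e 0)
    have hb : ∀ n, dist (e 0) (φ n (e 0)) ≤ R' := by
      intro n
      rw [← hφ, dist_comm]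
      exact hR' ⟨f n 0, by simpa using hR n, rfl⟩
    obtain ⟨ψ, σ, hσ, hψ⟩ := exists_subseq_isom φ (e 0) hb
    choose F hF using fun y => hs (ψ (e y))
    refine ⟨F, ⟨ψ, hF⟩, σ, hσ, fun y => ?_⟩
    rw [hM.tendsto_iff hs, hF]
    simp only [hφ]
    exact hψ (e y)
  jet := by
    intro f hf hfy q
    obtain ⟨r, ρ, X, W, h⟩ := hloc q
    have hq : q ∈ Metric.ball q r := Metric.mem_ball_self h.r_pos
    have hev : ∀ᶠ n in atTop, f n q ∈ Metric.ball q r :=
      (hfy q).eventually (Metric.ball_mem_nhds q h.r_pos)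
    choose φ hφ using hf
    have hLn : ∀ n, f n q ∈ Metric.ball q r → ∀ v, gnorm g q v < ρ →
        W (f n q, f n (X (q, v))) = fderiv ℝ (f n) q v := by
      intro n hn v hv
      obtain ⟨L, hL, hexp, hrep, hder⟩ := h.isom_rep hM hM h (φ n) (φ n).isometry hq hn
        (hφ n q).symm
      have hnear : ∀ᶠ z in 𝓝 q, dist (e q) (e z) < min ρ ρ := by
        have h1 : Continuous fun z => dist (e q) (e z) := continuous_const.dist hM.continuous
        have h0 : dist (e q) (e q) < min ρ ρ := by rw [dist_self]; exact lt_min h.ρ_pos h.ρ_pos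
        exact h1.continuousAt.eventually_lt continuousAt_const h0
      have heq : f n =ᶠ[𝓝 q] fun z => X (f n q, L (W (q, z))) := by
        filter_upwards [hnear] with z hz
        apply hM.injective
        rw [hφ n z]
        exact (hrep z (mem_univ z) hz).1
      have hfd : fderiv ℝ (f n) q = (L : E →L[ℝ] E) := (hder.congr_of_eventuallyEq heq).fderiv
      have hfX : f n (X (q, v)) = X (f n q, L v) := by
        apply hM.injective
        rw [hφ n]
        exact hexp v (by rwa [min_self])
      rw [hfX, hfd]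
      have hLv : gnorm g (f n q) (L v) < ρ := by
        have : gnorm g (f n q) (L v) = gnorm g q v := by unfold gnorm; rw [hL]
        rwa [this]
      exact h.inv_left _ hn _ hLv
    have hsmall : ∀ v, gnorm g q v < ρ → Tendsto (fun n => fderiv ℝ (f n) q v) atTop (𝓝 v) := by
      intro v hv
      have hc : ContinuousAt W (q, X (q, v)) := (h.inv_smooth q hq v hv).continuousAt
      have h1 : Tendsto (fun n => W (f n q, f n (X (q, v)))) atTop (𝓝 (W (q, X (q, v)))) :=
        hc.tendsto.comp ((hfy q).prodMk_nhds (hfy (X (q, v))))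
      rw [h.inv_left q hq v hv] at h1
      refine h1.congr' ?_
      filter_upwards [hev] with n hn
      exact hLn n hn v hv
    apply clm_tendsto_of_apply
    intro v
    -- scale
    obtain ⟨c, hc, hcv⟩ : ∃ c : ℝ, 0 < c ∧ gnorm g q (c • v) < ρ := by
      refine ⟨ρ / (2 * (gnorm g q v + 1)), ?_, ?_⟩
      · have := gn_nonneg g q v
        have := h.ρ_pos
        positivity
      · have h0 := gn_nonneg g q v
        have h1 := h.ρ_pos
        rw [gn_smul, abs_of_pos (by positivity), div_mul_eq_mul_div, div_lt_iff₀ (by positivity)]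
        nlinarith
    have h2 := (hsmall _ hcv).const_smul c⁻¹
    simp only [map_smul, smul_smul, inv_mul_cancel₀ hc.ne', one_smul] at h2
    simpa using h2
  rep := by
    intro q
    obtain ⟨r, ρ, X, W, h⟩ := hloc q
    have hq : q ∈ Metric.ball q r := Metric.mem_ball_self h.r_pos
    have h0ρ : gnorm g q 0 < ρ := by rw [gn_zero]; exact h.ρ_pos
    -- small radius
    have c1 : ContinuousAt W (q, q) := by
      have := (h.inv_smooth q hq 0 h0ρ).continuousAt
      rwa [h.zero q hq] at this
    have e1 : ∀ᶠ z in 𝓝 (q, q), ‖W z‖ < r / 2 := by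
      have h0 : ‖W (q, q)‖ < r / 2 := by rw [h.W_self hq, norm_zero]; exact half_pos h.r_pos
      exact c1.norm.eventually_lt continuousAt_const h0
    have e2 : ∀ᶠ z : E × E in 𝓝 (q, q), dist (e z.1) (e z.2) < ρ := by
      have h1 : Continuous fun z : E × E => dist (e z.1) (e z.2) :=
        (hM.continuous.comp continuous_fst).dist (hM.continuous.comp continuous_snd)
      have h0 : dist (e q) (e q) < ρ := by rw [dist_self]; exact h.ρ_pos
      exact h1.continuousAt.eventually_lt continuousAt_const h0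
    obtain ⟨s, hs0, hs⟩ := Metric.eventually_nhds_iff_ball.mp (e1.and e2)
    have hpair : ∀ a y : E, dist a q < s → dist y q < s → (a, y) ∈ Metric.ball (q, q) s := by
      intro a y ha hy
      rw [Metric.mem_ball, Prod.dist_eq]
      exact max_lt ha hy
    set t := min (min r s / 2) 1 with ht
    have ht0 : 0 < t := lt_min (half_pos (lt_min h.r_pos hs0)) one_pos
    have htr : 2 * t ≤ r := by
      have h1 : t ≤ min r s / 2 := min_le_left _ _
      have h2 : min r s ≤ r := min_le_left _ _
      linarith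
    have hts : 2 * t ≤ s := by
      have h1 : t ≤ min r s / 2 := min_le_left _ _
      have h2 : min r s ≤ s := min_le_right _ _
      linarith
    have ht1 : t ≤ 1 := min_le_right _ _
    have hball : ∀ q' ∈ Metric.ball q t, ∀ y ∈ Metric.ball q' t, dist y q < 2 * t := by
      intro q' hq' y hy
      rw [Metric.mem_ball] at hq' hy
      have := dist_triangle y q' q
      linarith
    refine ⟨t, ht0, fun q' hq' => ⟨fun z => X (z.1.1, z.1.2 (W (q', z.2))), ?_, ?_⟩⟩
    · rintro ⟨⟨p, L⟩, y⟩ ⟨⟨hp, hL⟩, hy⟩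
      have hq'r : q' ∈ Metric.ball q r := by
        rw [Metric.mem_ball] at hq' ⊢; linarith
      have hp' : p ∈ Metric.ball q r := (hball q' hq' p hp).trans_le htr
      have hy' := hs (q', y) (hpair q' y (by rw [Metric.mem_ball] at hq'; linarith)
        ((hball q' hq' y hy).trans_le hts))
      obtain ⟨g1, g2⟩ := h.exists_of_dist hM hq'r (mem_univ y) hy'.2
      have hW : ContDiffAt ℝ ∞ (fun z => W (q', z)) y := by
        have := h.contDiffAt_inv hq'r (v := W (q', y)) (by rw [g1]; exact hy'.2)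
        rwa [g2] at this
      have hLn : ‖L‖ < 2 := by
        have h1 : dist L (ContinuousLinearMap.id ℝ E) < 1 :=
          (Metric.mem_ball.mp hL).trans_le ht1
        rw [dist_eq_norm] at h1
        calc ‖L‖ = ‖(L - ContinuousLinearMap.id ℝ E) + ContinuousLinearMap.id ℝ E‖ := by
              rw [sub_add_cancel]
          _ ≤ ‖L - ContinuousLinearMap.id ℝ E‖ + ‖ContinuousLinearMap.id ℝ E‖ := norm_add_le _ _
          _ < 1 + 1 := add_lt_add_of_lt_of_le h1 ContinuousLinearMap.norm_id_le
          _ = 2 := by norm_num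
      have hmem : L (W (q', y)) ∈ Metric.ball (0 : E) r := by
        rw [mem_ball_zero_iff]
        have h3 : ‖W (q', y)‖ < r / 2 := hy'.1
        calc ‖L (W (q', y))‖ ≤ ‖L‖ * ‖W (q', y)‖ := L.le_opNorm _
          _ ≤ 2 * ‖W (q', y)‖ := mul_le_mul_of_nonneg_right hLn.le (norm_nonneg _)
          _ < r := by linarith
      have hX : ContDiffAt ℝ ∞ X (p, L (W (q', y))) := h.smooth.contDiffAt
        ((Metric.isOpen_ball.prod Metric.isOpen_ball).mem_nhds ⟨hp', hmem⟩)
      have k1 : ContDiffAt ℝ ∞ (fun z : (E × (E →L[ℝ] E)) × E => W (q', z.2)) ((p, L), y) :=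
        ContDiffAt.comp (f := fun z : (E × (E →L[ℝ] E)) × E => z.2) (g := fun z => W (q', z))
          ((p, L), y) hW contDiffAt_snd
      have k2 : ContDiffAt ℝ ∞ (fun z : (E × (E →L[ℝ] E)) × E => z.1.2 (W (q', z.2)))
          ((p, L), y) := (contDiffAt_fst.snd).clm_apply k1
      have k3 : ContDiffAt ℝ ∞ (fun z : (E × (E →L[ℝ] E)) × E =>
          (z.1.1, z.1.2 (W (q', z.2)))) ((p, L), y) := (contDiffAt_fst.fst).prodMk k2
      exact (ContDiffAt.comp (f := fun z : (E × (E →L[ℝ] E)) × E =>
        (z.1.1, z.1.2 (W (q', z.2)))) (g := X) ((p, L), y) hX k3).contDiffWithinAt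
    · rintro f ⟨φ, hφ⟩ hfq _ y hy
      have hq'r : q' ∈ Metric.ball q r := by
        rw [Metric.mem_ball] at hq' ⊢; linarith
      have hfq' : f q' ∈ Metric.ball q r := (hball q' hq' _ hfq).trans_le htr
      have hy' := hs (q', y) (hpair q' y (by rw [Metric.mem_ball] at hq'; linarith)
        ((hball q' hq' y hy).trans_le hts))
      obtain ⟨L, hL, hexp, hrep, hder⟩ := h.isom_rep hM hM h φ φ.isometry hq'r hfq' (hφ q').symm
      have hnear : ∀ᶠ z in 𝓝 q', dist (e q') (e z) < min ρ ρ := by
        have h1 : Continuous fun z => dist (e q') (e z) := continuous_const.dist hM.continuous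
        have h0 : dist (e q') (e q') < min ρ ρ := by rw [dist_self]; exact lt_min h.ρ_pos h.ρ_pos
        exact h1.continuousAt.eventually_lt continuousAt_const h0
      have heq : f =ᶠ[𝓝 q'] fun z => X (f q', L (W (q', z))) := by
        filter_upwards [hnear] with z hz
        apply hM.injective
        rw [hφ z]
        exact (hrep z (mem_univ z) hz).1
      have hfd : fderiv ℝ f q' = (L : E →L[ℝ] E) := (hder.congr_of_eventuallyEq heq).fderiv
      show f y = X (f q', (fderiv ℝ f q') (W (q', y)))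
      rw [hfd]
      apply hM.injective
      rw [hφ y]
      exact (hrep y (mem_univ y) (by rw [min_self]; exact hy'.2)).1

end chart

end

end Pool.Agent.Work.MP_3b24f6_gt.Froz
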