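import Mathlib

/-! Killing fields of a smooth metric on a vector space: definition. -/

set_option autoImplicit false

open scoped ContDiff

namespace Pool.Agent.Work.MP_3b24f6_gt

variable {E : Type*} [NormedAddCommGroup E] [NormedSpace ℝ E]

/-- `X` is a smooth Killing field of the metric `g`: the Lie derivative of `g` vanishes. -/
def IsKilling (g : E → E →L[ℝ] E →L[ℝ] ℝ) (X : E → E) : Prop :=
  ContDiff ℝ ∞ X ∧ ∀ y u v,
    fderiv ℝ g y (X y) u v + g y (fderiv ℝ X y u) v + g y u (fderiv ℝ X y v) = 0

end Pool.Agent.Work.MP_3b24f6_gt
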