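import Pool.Agent.Work.MP_3b24f6_gt.S.JetLim
import Pool.Agent.Work.MP_3b24f6_gt.S.SkewGen
import Pool.Agent.Work.MP_3b24f6_gt.S.IsoFamDefs
import Pool.Agent.Work.MP_3b24f6_gt.S.KillDefs

set_option autoImplicit false

open Filter Topology Set Metric
open scoped InnerProductSpace ContDiff

/-! The translation Killing field along a geodesic line. -/

namespace Pool.Agent.Work.MP_3b24f6_gt

namespace TF

variable {E : Type*} [NormedAddCommGroup E] [InnerProductSpace ℝ E] [FiniteDimensional ℝ E]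

/-- A group of isometries of the metric `g` on the whole space `E`, in exponential coordinates at
`0`. -/
structure IsoFam (G : Set (E → E)) (g : E → E →L[ℝ] E →L[ℝ] ℝ) : Prop where
  id_mem : (fun y => y) ∈ G
  comp : ∀ φ ∈ G, ∀ ψ ∈ G, (fun y => φ (ψ y)) ∈ G
  inv : ∀ φ ∈ G, ∃ ψ ∈ G, (∀ y, ψ (φ y) = y) ∧ ∀ y, φ (ψ y) = y
  smooth : ∀ φ ∈ G, ContDiff ℝ ∞ φ
  pres : ∀ φ ∈ G, ∀ y u v, g (φ y) (fderiv ℝ φ y u) (fderiv ℝ φ y v) = g y u v
  fix_lin : ∀ φ ∈ G, φ 0 = 0 → ∃ L : E →L[ℝ] E, ∀ y, φ y = L y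
  compact : ∀ φ : ℕ → E → E, (∀ n, φ n ∈ G) → (∃ C, ∀ n, ‖φ n 0‖ ≤ C) →
    ∃ ψ ∈ G, ∃ θ : ℕ → ℕ, StrictMono θ ∧ ∀ y, Tendsto (fun n => φ (θ n) y) atTop (𝓝 (ψ y))
  jet : ∀ ψ : ℕ → E → E, (∀ n, ψ n ∈ G) → (∀ y, Tendsto (fun n => ψ n y) atTop (𝓝 y)) →
    ∀ q, Tendsto (fun n => fderiv ℝ (ψ n) q) atTop (𝓝 1)
  rep : ∀ q : E, ∃ r > 0, ∀ q' ∈ ball q r, ∃ F : (E × (E →L[ℝ] E)) × E → E,
    ContDiffOn ℝ ∞ F ((ball q' r ×ˢ ball 1 r) ×ˢ ball q' r) ∧
    ∀ φ ∈ G, φ q' ∈ ball q' r → fderiv ℝ φ q' ∈ ball (1 : E →L[ℝ] E) r → ∀ y ∈ ball q' r,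
      φ y = F ((φ q', fderiv ℝ φ q'), y)

/-- `X` is a Killing field of `g`. -/
def Killing (g : E → E →L[ℝ] E →L[ℝ] ℝ) (X : E → E) : Prop :=
  ∀ y u v, fderiv ℝ g y (X y) u v + g y (fderiv ℝ X y u) v + g y u (fderiv ℝ X y v) = 0

variable {G : Set (E → E)} {g : E → E →L[ℝ] E →L[ℝ] ℝ}

/-- Convergence of the difference quotients of the 1-jets at `q`. -/
def Cv (φ : ℕ → E → E) (ε : ℕ → ℝ) (q a : E) (A : E →L[ℝ] E) : Prop :=
  Tendsto (fun n => (ε n)⁻¹ • (φ n q - q)) atTop (𝓝 a) ∧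
  Tendsto (fun n => (ε n)⁻¹ • (fderiv ℝ (φ n) q - 1)) atTop (𝓝 A)

theorem tendsto_of_quot {V : Type*} [NormedAddCommGroup V] [NormedSpace ℝ V] {x : ℕ → V} {x₀ a : V}
    {ε : ℕ → ℝ} (hε : ∀ n, 0 < ε n) (hε0 : Tendsto ε atTop (𝓝 0))
    (h : Tendsto (fun n => (ε n)⁻¹ • (x n - x₀)) atTop (𝓝 a)) : Tendsto x atTop (𝓝 x₀) := by
  have h1 := hε0.smul h
  rw [zero_smul] at h1
  have h2 : Tendsto (fun n => x n - x₀) atTop (𝓝 0) := by
    refine h1.congr fun n => ?_
    rw [smul_inv_smul₀ (hε n).ne']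
  simpa using h2.add_const x₀

omit [FiniteDimensional ℝ E] in
theorem cv_ball_aux (hid : (fun y => y) ∈ G) {φ : ℕ → E → E} (hφ : ∀ n, φ n ∈ G) {ε : ℕ → ℝ}
    (hε : ∀ n, 0 < ε n) (hε0 : Tendsto ε atTop (𝓝 0)) {q : E} {r : ℝ} (hr : 0 < r)
    {F : (E × (E →L[ℝ] E)) × E → E} (hF : ContDiffOn ℝ ∞ F ((ball q r ×ˢ ball 1 r) ×ˢ ball q r))
    (hrep : ∀ φ ∈ G, φ q ∈ ball q r → fderiv ℝ φ q ∈ ball (1 : E →L[ℝ] E) r → ∀ y ∈ ball q r,
      φ y = F ((φ q, fderiv ℝ φ q), y)) {a : E} {A : E →L[ℝ] E} (hc : Cv φ ε q a A)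
    {y : E} (hy : y ∈ ball q r) :
    Cv φ ε y (Xf F (q, 1) (a, A) y) (fderiv ℝ (Xf F (q, 1) (a, A)) y) ∧
    ContDiffAt ℝ ∞ (Xf F (q, 1) (a, A)) y ∧
    Tendsto (fun p : ℕ × E => (ε p.1)⁻¹ • (fderiv ℝ (φ p.1) p.2 - 1)) (atTop ×ˢ 𝓝 y)
      (𝓝 (fderiv ℝ (Xf F (q, 1) (a, A)) y)) := by
  have hZ : IsOpen (ball q r ×ˢ ball (1 : E →L[ℝ] E) r) := isOpen_ball.prod isOpen_ball
  have hz₀ : (q, (1 : E →L[ℝ] E)) ∈ ball q r ×ˢ ball (1 : E →L[ℝ] E) r :=
    ⟨mem_ball_self hr, mem_ball_self hr⟩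
  have hidy : ∀ y ∈ ball q r, F ((q, 1), y) = y := by
    intro y hy
    have h1 := hrep _ hid (mem_ball_self hr) (by
      rw [fderiv_fun_id]; exact mem_ball_self hr) y hy
    rw [fderiv_fun_id] at h1
    exact h1.symm
  have h1 : Tendsto (fun n => φ n q) atTop (𝓝 q) := tendsto_of_quot hε hε0 hc.1
  have h2 : Tendsto (fun n => fderiv ℝ (φ n) q) atTop (𝓝 1) := tendsto_of_quot hε hε0 hc.2
  have hz0 : Tendsto (fun n => (φ n q, fderiv ℝ (φ n) q)) atTop (𝓝 (q, 1)) := h1.prodMk_nhds h2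
  have hz : Tendsto (fun n => (ε n)⁻¹ • ((φ n q, fderiv ℝ (φ n) q) - (q, (1 : E →L[ℝ] E)))) atTop
      (𝓝 (a, A)) := by
    refine (hc.1.prodMk_nhds hc.2).congr fun n => ?_
    rfl
  have hf : ∀ᶠ n in atTop, (φ n q, fderiv ℝ (φ n) q) ∈ ball q r ×ˢ ball (1 : E →L[ℝ] E) r ∧
      ∀ y ∈ ball q r, φ n y = F ((φ n q, fderiv ℝ (φ n) q), y) := by
    filter_upwards [hz0.eventually (hZ.mem_nhds hz₀)] with n hn
    exact ⟨hn, fun y hy => hrep _ (hφ n) hn.1 hn.2 y hy⟩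
  obtain ⟨h3, h4, h5⟩ := lim_family hZ isOpen_ball hF hz₀ hidy hf hz0 hz hy
  exact ⟨⟨h3, h4⟩, contDiffAt_Xf hZ isOpen_ball hF hz₀ (a, A) hy, h5⟩

theorem tapp {V W : Type*} [NormedAddCommGroup V] [NormedSpace ℝ V] [NormedAddCommGroup W]
    [NormedSpace ℝ W] {α : Type*} {l : Filter α} {L : α → V →L[ℝ] W} {L₀ : V →L[ℝ] W} {x : α → V}
    {x₀ : V} (hL : Tendsto L l (𝓝 L₀)) (hx : Tendsto x l (𝓝 x₀)) :
    Tendsto (fun n => L n (x n)) l (𝓝 (L₀ x₀)) :=
  ((isBoundedBilinearMap_apply (𝕜 := ℝ) (E := V) (F := W)).continuous.tendsto (L₀, x₀)).comp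
    (hL.prodMk_nhds hx)

omit [FiniteDimensional ℝ E] in
theorem killing_limit (hg : ContDiff ℝ ∞ g) {φ : ℕ → E → E} {ε : ℕ → ℝ} (hε : ∀ n, 0 < ε n)
    (hε0 : Tendsto ε atTop (𝓝 0)) {y a : E} {A : E →L[ℝ] E}
    (h1 : Tendsto (fun n => (ε n)⁻¹ • (φ n y - y)) atTop (𝓝 a))
    (h2 : Tendsto (fun n => (ε n)⁻¹ • (fderiv ℝ (φ n) y - 1)) atTop (𝓝 A)) {u v : E}
    (hpres : ∀ n, g (φ n y) (fderiv ℝ (φ n) y u) (fderiv ℝ (φ n) y v) = g y u v) :
    fderiv ℝ g y a u v + g y (A u) v + g y u (A v) = 0 := by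
  have hφy : Tendsto (fun n => φ n y) atTop (𝓝 y) := tendsto_of_quot hε hε0 h1
  have hgd : HasFDerivAt g (fderiv ℝ g y) y :=
    (hg.differentiable (by simp)).differentiableAt.hasFDerivAt
  have h3 := lim_seq (P := E) (E' := E →L[ℝ] E →L[ℝ] ℝ) (f := g) hgd hφy h1
  have hDu : ∀ u : E, Tendsto (fun n => (ε n)⁻¹ • (fderiv ℝ (φ n) y u - u)) atTop
      (𝓝 (A u)) := by
    intro u
    have h4 := ((ContinuousLinearMap.apply ℝ E u).continuous.tendsto A).comp h2
    refine h4.congr fun n => ?_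
    simp
  have hDu0 : ∀ u : E, Tendsto (fun n => fderiv ℝ (φ n) y u) atTop (𝓝 u) := fun u =>
    tendsto_of_quot hε hε0 (hDu u)
  have hgy : Tendsto (fun n => g (φ n y)) atTop (𝓝 (g y)) := (hg.continuous.tendsto y).comp hφy
  have t1 : Tendsto (fun n => ((ε n)⁻¹ • (g (φ n y) - g y)) u v) atTop
      (𝓝 (fderiv ℝ g y a u v)) :=
    tapp (tapp h3 (tendsto_const_nhds (x := u))) (tendsto_const_nhds (x := v))
  have t2 : Tendsto (fun n => g (φ n y) ((ε n)⁻¹ • (fderiv ℝ (φ n) y u - u)) v) atTop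
      (𝓝 (g y (A u) v)) := tapp (tapp hgy (hDu u)) (tendsto_const_nhds (x := v))
  have t3 : Tendsto (fun n => g (φ n y) (fderiv ℝ (φ n) y u) ((ε n)⁻¹ • (fderiv ℝ (φ n) y v - v)))
      atTop (𝓝 (g y u (A v))) := tapp (tapp hgy (hDu0 u)) (hDu v)
  refine tendsto_nhds_unique ((t1.add t2).add t3) ?_
  refine tendsto_const_nhds.congr fun n => ?_
  have h7 := hpres n
  have e1 : ((ε n)⁻¹ • (g (φ n y) - g y)) u v = (ε n)⁻¹ * (g (φ n y) u v - g y u v) := rfl
  have e2 : g (φ n y) ((ε n)⁻¹ • (fderiv ℝ (φ n) y u - u)) v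
      = (ε n)⁻¹ * (g (φ n y) (fderiv ℝ (φ n) y u) v - g (φ n y) u v) := by
    rw [map_smul, map_sub]; rfl
  have e3 : g (φ n y) (fderiv ℝ (φ n) y u) ((ε n)⁻¹ • (fderiv ℝ (φ n) y v - v))
      = (ε n)⁻¹ * (g (φ n y) (fderiv ℝ (φ n) y u) (fderiv ℝ (φ n) y v)
        - g (φ n y) (fderiv ℝ (φ n) y u) v) := by
    rw [map_smul, map_sub]; rfl
  rw [e1, e2, e3, h7]
  ring

omit [FiniteDimensional ℝ E] in
/-- Convergence of difference quotients propagates to all points, and the limit is a Killing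
field. -/
theorem IsoFam.exists_killing (h : IsoFam G g) (hg : ContDiff ℝ ∞ g) {φ : ℕ → E → E}
    (hφ : ∀ n, φ n ∈ G) {ε : ℕ → ℝ} (hε : ∀ n, 0 < ε n) (hε0 : Tendsto ε atTop (𝓝 0))
    {q₀ a : E} {A : E →L[ℝ] E} (hc : Cv φ ε q₀ a A) :
    ∃ X : E → E, ContDiff ℝ ∞ X ∧ Killing g X ∧ (∀ y, Cv φ ε y (X y) (fderiv ℝ X y)) ∧
      ∀ y, Tendsto (fun p : ℕ × E => (ε p.1)⁻¹ • (fderiv ℝ (φ p.1) p.2 - 1)) (atTop ×ˢ 𝓝 y)
        (𝓝 (fderiv ℝ X y)) := by
  -- the set of points of convergence is everything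
  set S : Set E := {q | ∃ a A, Cv φ ε q a A} with hS
  have hopen : IsOpen S := by
    rw [isOpen_iff_mem_nhds]
    rintro q ⟨a, A, hq⟩
    obtain ⟨r, hr, hrep⟩ := h.rep q
    obtain ⟨F, hF, hF'⟩ := hrep q (mem_ball_self hr)
    filter_upwards [ball_mem_nhds q hr] with y hy
    exact ⟨_, _, (cv_ball_aux h.id_mem hφ hε hε0 hr hF hF' hq hy).1⟩
  have hclosed : IsClosed S := by
    rw [← closure_subset_iff_isClosed]
    intro q hq
    obtain ⟨r, hr, hrep⟩ := h.rep q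
    obtain ⟨q', hq', hq'S⟩ := Metric.mem_closure_iff.1 hq r hr
    have hq'r : q' ∈ S := hq'
    obtain ⟨a, A, hc'⟩ := hq'r
    obtain ⟨F, hF, hF'⟩ := hrep q' (by rw [mem_ball, dist_comm]; exact hq'S)
    exact ⟨_, _, (cv_ball_aux h.id_mem hφ hε hε0 hr hF hF' hc' (by rw [mem_ball]; exact hq'S)).1⟩
  have huniv : S = univ := by
    refine (IsClopen.eq_univ ⟨hclosed, hopen⟩ ⟨q₀, a, A, hc⟩)
  have hall : ∀ q, ∃ a A, Cv φ ε q a A := fun q => by
    have : q ∈ S := by rw [huniv]; exact mem_univ q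
    exact this
  choose X A' hX using hall
  -- local form
  have hloc : ∀ q, ∃ Y : E → E, ContDiffAt ℝ ∞ Y q ∧ (∀ᶠ y in 𝓝 q, X y = Y y) ∧
      A' q = fderiv ℝ Y q ∧
      Tendsto (fun p : ℕ × E => (ε p.1)⁻¹ • (fderiv ℝ (φ p.1) p.2 - 1)) (atTop ×ˢ 𝓝 q)
        (𝓝 (fderiv ℝ Y q)) := by
    intro q
    obtain ⟨r, hr, hrep⟩ := h.rep q
    obtain ⟨F, hF, hF'⟩ := hrep q (mem_ball_self hr)
    have hk := fun y hy => cv_ball_aux (y := y) h.id_mem hφ hε hε0 hr hF hF' (hX q) hy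
    refine ⟨Xf F (q, 1) (X q, A' q), (hk q (mem_ball_self hr)).2.1, ?_, ?_,
      (hk q (mem_ball_self hr)).2.2⟩
    · filter_upwards [ball_mem_nhds q hr] with y hy
      exact tendsto_nhds_unique (hX y).1 (hk y hy).1.1
    · exact tendsto_nhds_unique (hX q).2 (hk q (mem_ball_self hr)).1.2
  have hsm : ContDiff ℝ ∞ X := by
    rw [contDiff_iff_contDiffAt]
    intro q
    obtain ⟨Y, hY, hYX, -, -⟩ := hloc q
    exact hY.congr_of_eventuallyEq hYX
  have hder : ∀ q, A' q = fderiv ℝ X q := by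
    intro q
    obtain ⟨Y, hY, hYX, hA, -⟩ := hloc q
    rw [hA]
    exact (Filter.EventuallyEq.fderiv_eq hYX).symm
  refine ⟨X, hsm, ?_, fun y => by rw [← hder y]; exact hX y, fun y => ?_⟩
  · -- Killing equation
    intro y u v
    have h1 := (hX y).1
    have h2 := (hX y).2
    rw [hder y] at h2
    exact killing_limit hg hε hε0 h1 h2 fun n => h.pres (φ n) (hφ n) y u v
  · obtain ⟨Y, hY, hYX, hA, hT⟩ := hloc y
    rw [← hder y, hA]
    exact hT

theorem exp_quot (A : E →L[ℝ] E) {ε : ℕ → ℝ} (hε : ∀ n, 0 < ε n) (hε0 : Tendsto ε atTop (𝓝 0)) :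
    Tendsto (fun n => (ε n)⁻¹ • (NormedSpace.exp (ε n • A) - 1)) atTop (𝓝 A) := by
  have h1 : HasDerivAt (fun u : ℝ => NormedSpace.exp (u • A)) (NormedSpace.exp ((0 : ℝ) • A) * A) 0 :=
    hasDerivAt_exp_smul_const A (0 : ℝ)
  have h2 := h1.tendsto_slope_zero
  simp only [zero_add, zero_smul, NormedSpace.exp_zero, one_mul] at h2
  refine h2.comp ?_
  rw [tendsto_nhdsWithin_iff]
  exact ⟨hε0, Eventually.of_forall fun n => (hε n).ne'⟩

theorem exp_cont (A : E →L[ℝ] E) : Continuous fun u : ℝ => NormedSpace.exp (u • A) :=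
  (differentiable_exp_smul_const ℝ (𝔸 := E →L[ℝ] E) A).continuous

theorem exp_fix {A : E →L[ℝ] E} {x : E} (hAx : A x = 0) (s : ℝ) :
    NormedSpace.exp (s • A) x = x := by
  have hd : ∀ r : ℝ, HasDerivAt (fun s : ℝ => NormedSpace.exp (s • A) x) 0 r := by
    intro r
    have h1 : HasDerivAt (fun s : ℝ => NormedSpace.exp (s • A)) (NormedSpace.exp (r • A) * A) r :=
      hasDerivAt_exp_smul_const A r
    have h3 := (ContinuousLinearMap.apply ℝ E x).hasFDerivAt.comp_hasDerivAt r h1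
    have h4 : (ContinuousLinearMap.apply ℝ E x) (NormedSpace.exp (r • A) * A) = 0 := by
      simp [hAx]
    rw [h4] at h3
    exact h3
  have h1 := is_const_of_deriv_eq_zero (fun r => (hd r).differentiableAt)
    (fun r => (hd r).deriv) s 0
  simpa using h1

omit [FiniteDimensional ℝ E] in
theorem IsoFam.iter_mem (h : IsoFam G g) {φ : E → E} (hφ : φ ∈ G) (j : ℕ) : φ^[j] ∈ G := by
  induction j with
  | zero => exact h.id_mem
  | succ j ih => rw [Function.iterate_succ']; exact h.comp _ hφ _ ih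

omit [FiniteDimensional ℝ E] in
theorem IsoFam.fderiv_comp (h : IsoFam G g) {φ ψ : E → E} (hφ : φ ∈ G) (hψ : ψ ∈ G) (y : E) :
    fderiv ℝ (fun z => φ (ψ z)) y = fderiv ℝ φ (ψ y) * fderiv ℝ ψ y := by
  have h1 := ((h.smooth φ hφ).differentiable (by simp)).differentiableAt (x := ψ y)
  have h2 := ((h.smooth ψ hψ).differentiable (by simp)).differentiableAt (x := y)
  exact (h1.hasFDerivAt.comp y h2.hasFDerivAt).fderiv

/-- Iterates of maps close to the identity translating a line slowly give a one-parameter group of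
isometries fixing the line. -/
theorem IsoFam.exp_mem (h : IsoFam G g) (hg : ContDiff ℝ ∞ g) {φ : ℕ → E → E}
    (hφ : ∀ n, φ n ∈ G) {x : E} {t : ℕ → ℝ} (htr : ∀ n (u : ℝ), φ n (u • x) = (u + t n) • x)
    {ε : ℕ → ℝ} (hε : ∀ n, 0 < ε n) (hε0 : Tendsto ε atTop (𝓝 0))
    (ht : Tendsto (fun n => t n / ε n) atTop (𝓝 0)) {A : E →L[ℝ] E}
    (hA : Tendsto (fun n => (ε n)⁻¹ • (fderiv ℝ (φ n) 0 - 1)) atTop (𝓝 A)) {s : ℝ} (hs : 0 ≤ s) :
    (fun y => NormedSpace.exp (s • A) y) ∈ G := by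
  have hz : ∀ n, φ n 0 = t n • x := fun n => by
    have := htr n 0
    rwa [zero_smul, zero_add] at this
  have hCv : Cv φ ε 0 0 A := by
    refine ⟨?_, hA⟩
    have h1 := ht.smul_const x
    rw [zero_smul] at h1
    refine h1.congr fun n => ?_
    rw [hz, sub_zero, smul_smul, div_eq_inv_mul]
  obtain ⟨X, -, -, hX, hun⟩ := h.exists_killing hg hφ hε hε0 hCv
  have hXA : fderiv ℝ X 0 = A := tendsto_nhds_unique (hX 0).2 hA
  have hun0 := hun 0
  rw [hXA] at hun0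
  have hq := exp_quot A hε hε0
  have hD : Tendsto (fun p : ℕ × E => (ε p.1)⁻¹ • (fderiv ℝ (φ p.1) p.2
      - NormedSpace.exp (ε p.1 • A))) (atTop ×ˢ 𝓝 0) (𝓝 0) := by
    have h1 : Tendsto (fun p : ℕ × E => (ε p.1)⁻¹ • (NormedSpace.exp (ε p.1 • A) - 1))
        (atTop ×ˢ 𝓝 0) (𝓝 A) := hq.comp tendsto_fst
    have h2 := hun0.sub h1
    rw [sub_self] at h2
    refine h2.congr fun p => ?_
    rw [← smul_sub]
    congr 1
    abel
  obtain ⟨B, hB⟩ := (isCompact_Icc (a := (0 : ℝ)) (b := s)).exists_bound_of_continuousOn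
    (f := fun u : ℝ => NormedSpace.exp (u • A)) (exp_cont A).continuousOn
  have hB0 : 0 ≤ B := (norm_nonneg _).trans (hB 0 ⟨le_rfl, hs⟩)
  set C : ℝ := ‖A‖ + 2 with hC
  have hC0 : 0 ≤ C := by positivity
  set m : ℕ → ℕ := fun n => ⌊s / ε n⌋₊ with hm
  have hm1 : ∀ n, (m n : ℝ) * ε n ≤ s := fun n => by
    have := Nat.floor_le (div_nonneg hs (hε n).le)
    calc (m n : ℝ) * ε n ≤ s / ε n * ε n := mul_le_mul_of_nonneg_right this (hε n).le
      _ = s := div_mul_cancel₀ _ (hε n).ne'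
  have hm2 : ∀ n, s - ε n ≤ (m n : ℝ) * ε n := fun n => by
    have h1 := (Nat.lt_floor_add_one (s / ε n)).le
    have h2 : s ≤ ((m n : ℝ) + 1) * ε n := by
      calc s = s / ε n * ε n := (div_mul_cancel₀ _ (hε n).ne').symm
        _ ≤ _ := mul_le_mul_of_nonneg_right h1 (hε n).le
    linarith
  have hm3 : Tendsto (fun n => (m n : ℝ) * ε n) atTop (𝓝 s) := by
    refine tendsto_of_tendsto_of_tendsto_of_le_of_le ?_ tendsto_const_nhds hm2 hm1
    simpa using tendsto_const_nhds.sub hε0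
  -- positions of the iterates on the line
  have hmt : Tendsto (fun n => (m n : ℝ) * |t n|) atTop (𝓝 0) := by
    have h1 : Tendsto (fun n => ((m n : ℝ) * ε n) * |t n / ε n|) atTop (𝓝 (s * |0|)) :=
      hm3.mul ht.abs
    rw [abs_zero, mul_zero] at h1
    refine h1.congr fun n => ?_
    rw [abs_div, abs_of_pos (hε n)]
    have := (hε n).ne'
    field_simp
  have hit : ∀ n j (u : ℝ), (φ n)^[j] (u • x) = (u + j * t n) • x := by
    intro n j
    induction j with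
    | zero => intro u; simp
    | succ j ih =>
      intro u
      rw [Function.iterate_succ_apply', ih, htr]
      congr 1
      push_cast
      ring
  have hit0 : ∀ n j, (φ n)^[j] 0 = ((j : ℝ) * t n) • x := fun n j => by
    have := hit n j 0
    rwa [zero_smul, zero_add] at this
  -- derivative of the iterates
  have hDm : Tendsto (fun n => fderiv ℝ ((φ n)^[m n]) 0) atTop (𝓝 (NormedSpace.exp (s • A))) := by
    have hexpm : Tendsto (fun n => NormedSpace.exp (((m n : ℝ) * ε n) • A)) atTop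
        (𝓝 (NormedSpace.exp (s • A))) := ((exp_cont A).tendsto s).comp hm3
    have hdiff : Tendsto (fun n => fderiv ℝ ((φ n)^[m n]) 0
        - NormedSpace.exp (((m n : ℝ) * ε n) • A)) atTop (𝓝 0) := by
      rw [Metric.tendsto_atTop]
      intro δ hδ
      obtain ⟨η, hη0, hη1, hη⟩ : ∃ η : ℝ, 0 < η ∧ η ≤ 1 ∧
          s * (Real.exp (s * C) * (η * B)) < δ := by
        refine ⟨min 1 (δ / (2 * (s * (Real.exp (s * C) * B) + 1))), by positivity, min_le_left _ _, ?_⟩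
        set Q := s * (Real.exp (s * C) * B) with hQ
        have hQ0 : 0 ≤ Q := by positivity
        have h1 : min 1 (δ / (2 * (Q + 1))) ≤ δ / (2 * (Q + 1)) := min_le_right _ _
        have h2 : s * (Real.exp (s * C) * (min 1 (δ / (2 * (Q + 1))) * B))
            = min 1 (δ / (2 * (Q + 1))) * Q := by rw [hQ]; ring
        rw [h2]
        have h3 : min 1 (δ / (2 * (Q + 1))) * Q ≤ δ / (2 * (Q + 1)) * Q :=
          mul_le_mul_of_nonneg_right h1 hQ0
        have h4 : δ / (2 * (Q + 1)) * Q < δ := by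
          rw [div_mul_eq_mul_div, div_lt_iff₀ (by positivity)]
          nlinarith
        linarith
      -- eventually all factors are close
      have e1 : ∀ᶠ p : ℕ × E in atTop ×ˢ 𝓝 0, ‖(ε p.1)⁻¹ • (fderiv ℝ (φ p.1) p.2
          - NormedSpace.exp (ε p.1 • A))‖ < η := by
        have := hD.norm
        rw [norm_zero] at this
        exact this.eventually (gt_mem_nhds hη0)
      rw [Filter.eventually_prod_iff] at e1
      obtain ⟨pa, hpa, pb, hpb, hpab⟩ := e1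
      obtain ⟨ρ, hρ, hρb⟩ := Metric.eventually_nhds_iff.1 hpb
      have e2 : ∀ᶠ n in atTop, (m n : ℝ) * |t n| * ‖x‖ < ρ := by
        have := hmt.mul_const ‖x‖
        rw [zero_mul] at this
        exact this.eventually (gt_mem_nhds hρ)
      have e3 : ∀ᶠ n in atTop, ‖(ε n)⁻¹ • (NormedSpace.exp (ε n • A) - 1)‖ < ‖A‖ + 1 :=
        hq.norm.eventually (gt_mem_nhds (by linarith))
      obtain ⟨N, hN⟩ := eventually_atTop.1 ((hpa.and e2).and e3)
      refine ⟨N, fun n hn => ?_⟩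
      obtain ⟨⟨h1, h2⟩, h3⟩ := hN n hn
      have hεn := hε n
      have f1 : ∀ j : ℕ, j ≤ m n → ‖fderiv ℝ (φ n) (((j : ℝ) * t n) • x)
          - NormedSpace.exp (ε n • A)‖ ≤ ε n * η := by
        intro j hj
        have h4 : dist (((j : ℝ) * t n) • x) 0 < ρ := by
          rw [dist_zero_right, norm_smul, norm_mul, Real.norm_eq_abs (t n), Real.norm_natCast]
          refine lt_of_le_of_lt ?_ h2
          have : (j : ℝ) ≤ m n := by exact_mod_cast hj
          gcongr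
        have h5 := hpab h1 (hρb h4)
        simp only at h5
        rw [norm_smul, norm_inv, Real.norm_of_nonneg hεn.le, inv_mul_lt_iff₀ hεn] at h5
        exact h5.le
      have f2 : ∀ j : ℕ, j ≤ m n → ‖fderiv ℝ (φ n) (((j : ℝ) * t n) • x)‖ ≤ 1 + ε n * C := by
        intro j hj
        rw [norm_smul, norm_inv, Real.norm_of_nonneg hεn.le, inv_mul_lt_iff₀ hεn] at h3
        have h5 : ‖(1 : E →L[ℝ] E)‖ ≤ 1 := ContinuousLinearMap.norm_id_le
        calc ‖fderiv ℝ (φ n) (((j : ℝ) * t n) • x)‖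
            = ‖(fderiv ℝ (φ n) (((j : ℝ) * t n) • x) - NormedSpace.exp (ε n • A))
              + (NormedSpace.exp (ε n • A) - 1) + 1‖ := by congr 1; abel
          _ ≤ ‖fderiv ℝ (φ n) (((j : ℝ) * t n) • x) - NormedSpace.exp (ε n • A)‖
              + ‖NormedSpace.exp (ε n • A) - 1‖ + ‖(1 : E →L[ℝ] E)‖ := norm_add₃_le
          _ ≤ ε n * η + ε n * (‖A‖ + 1) + 1 := by gcongr; exact f1 j hj
          _ ≤ 1 + ε n * C := by
            rw [hC]
            nlinarith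
      have f3 : ∀ j : ℕ, j ≤ m n → ‖fderiv ℝ ((φ n)^[j]) 0 - NormedSpace.exp (((j : ℝ) * ε n) • A)‖
          ≤ j * ((1 + ε n * C) ^ j * (ε n * η * B)) := by
        intro j
        induction j with
        | zero =>
          intro _
          simp only [Function.iterate_zero, fderiv_id, CharP.cast_eq_zero, zero_mul, zero_smul,
            NormedSpace.exp_zero]
          change ‖(1 : E →L[ℝ] E) - 1‖ ≤ 0
          simp
        | succ j ih =>
          intro hj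
          have hj' : j ≤ m n := by omega
          have h4 := ih hj'
          have h5 : fderiv ℝ ((φ n)^[j + 1]) 0
              = fderiv ℝ (φ n) (((j : ℝ) * t n) • x) * fderiv ℝ ((φ n)^[j]) 0 := by
            rw [Function.iterate_succ', ← hit0 n j]
            exact h.fderiv_comp (hφ n) (h.iter_mem (hφ n) j) 0
          have h6 : NormedSpace.exp ((((j + 1 : ℕ) : ℝ) * ε n) • A)
              = NormedSpace.exp (ε n • A) * NormedSpace.exp (((j : ℝ) * ε n) • A) := by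
            rw [← SG.exp_add_smul]
            congr 2
            push_cast
            ring
          have h7 : fderiv ℝ ((φ n)^[j + 1]) 0 - NormedSpace.exp ((((j + 1 : ℕ) : ℝ) * ε n) • A)
              = fderiv ℝ (φ n) (((j : ℝ) * t n) • x)
                  * (fderiv ℝ ((φ n)^[j]) 0 - NormedSpace.exp (((j : ℝ) * ε n) • A))
                + (fderiv ℝ (φ n) (((j : ℝ) * t n) • x) - NormedSpace.exp (ε n • A))
                  * NormedSpace.exp (((j : ℝ) * ε n) • A) := by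
            rw [h5, h6]
            noncomm_ring
          have h8 : ‖NormedSpace.exp (((j : ℝ) * ε n) • A)‖ ≤ B := by
            refine hB _ ⟨by positivity, le_trans ?_ (hm1 n)⟩
            have : (j : ℝ) ≤ m n := by exact_mod_cast hj'
            gcongr
          have h9 : (1 : ℝ) ≤ (1 + ε n * C) ^ (j + 1) :=
            one_le_pow₀ (by nlinarith [mul_nonneg hεn.le hC0])
          rw [h7]
          calc _ ≤ ‖fderiv ℝ (φ n) (((j : ℝ) * t n) • x)
                  * (fderiv ℝ ((φ n)^[j]) 0 - NormedSpace.exp (((j : ℝ) * ε n) • A))‖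
                + ‖(fderiv ℝ (φ n) (((j : ℝ) * t n) • x) - NormedSpace.exp (ε n • A))
                  * NormedSpace.exp (((j : ℝ) * ε n) • A)‖ := norm_add_le _ _
            _ ≤ (1 + ε n * C) * (j * ((1 + ε n * C) ^ j * (ε n * η * B))) + (ε n * η) * B := by
                refine add_le_add ((norm_mul_le _ _).trans ?_) ((norm_mul_le _ _).trans ?_)
                · exact mul_le_mul (f2 j hj') h4 (norm_nonneg _) (by positivity)
                · exact mul_le_mul (f1 j hj') h8 (norm_nonneg _) (by positivity)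
            _ ≤ (1 + ε n * C) * (j * ((1 + ε n * C) ^ j * (ε n * η * B)))
                + (1 + ε n * C) ^ (j + 1) * (ε n * η * B) := by
                have : (ε n * η) * B ≤ (1 + ε n * C) ^ (j + 1) * (ε n * η * B) :=
                  le_mul_of_one_le_left (by positivity) h9
                linarith
            _ = ((j + 1 : ℕ) : ℝ) * ((1 + ε n * C) ^ (j + 1) * (ε n * η * B)) := by
                push_cast; ring
      have f4 := f3 (m n) le_rfl
      have f5 : (1 + ε n * C) ^ (m n) ≤ Real.exp (s * C) := by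
        calc (1 + ε n * C) ^ (m n) ≤ (Real.exp (ε n * C)) ^ (m n) := by
              gcongr
              have := Real.add_one_le_exp (ε n * C)
              linarith
          _ = Real.exp ((m n : ℝ) * ε n * C) := by rw [← Real.exp_nat_mul]; congr 1; ring
          _ ≤ Real.exp (s * C) := by
              gcongr
              exact hm1 n
      rw [dist_zero_right]
      calc _ ≤ (m n : ℝ) * ((1 + ε n * C) ^ (m n) * (ε n * η * B)) := f4
        _ ≤ (m n : ℝ) * (Real.exp (s * C) * (ε n * η * B)) := by gcongr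
        _ = ((m n : ℝ) * ε n) * (Real.exp (s * C) * (η * B)) := by ring
        _ ≤ s * (Real.exp (s * C) * (η * B)) := by
            gcongr
            exact hm1 n
        _ < δ := hη
    have h1 := hdiff.add hexpm
    rw [zero_add] at h1
    refine h1.congr fun n => by abel
  -- compactness
  have hpos : Tendsto (fun n => (φ n)^[m n] 0) atTop (𝓝 0) := by
    rw [tendsto_zero_iff_norm_tendsto_zero]
    have := hmt.mul_const ‖x‖
    rw [zero_mul] at this
    refine this.congr fun n => ?_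
    rw [hit0, norm_smul, norm_mul, Real.norm_natCast, Real.norm_eq_abs]
  obtain ⟨K, hK⟩ := hpos.norm.bddAbove_range
  obtain ⟨ψ, hψ, θ, hθ, hlim⟩ := h.compact (fun n => (φ n)^[m n]) (fun n => h.iter_mem (hφ n) _)
    ⟨K, fun n => hK ⟨n, rfl⟩⟩
  have hψ0 : ψ 0 = 0 := tendsto_nhds_unique (hlim 0) (hpos.comp hθ.tendsto_atTop)
  obtain ⟨L, hL⟩ := h.fix_lin ψ hψ hψ0
  obtain ⟨ψ', hψ', hl, hr⟩ := h.inv ψ hψ
  have hcont' : Continuous ψ' := (h.smooth ψ' hψ').continuous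
  have hj := h.jet (fun n y => ψ' ((φ (θ n))^[m (θ n)] y))
    (fun n => h.comp _ hψ' _ (h.iter_mem (hφ _) _)) (fun y => by
      have := (hcont'.tendsto (ψ y)).comp (hlim y)
      rw [hl y] at this
      exact this) 0
  have hj2 : Tendsto (fun n => fderiv ℝ (fun y => ψ' ((φ (θ n))^[m (θ n)] y)) 0) atTop
      (𝓝 (fderiv ℝ ψ' 0 * NormedSpace.exp (s • A))) := by
    have hc : Continuous (fderiv ℝ ψ') := (h.smooth ψ' hψ').continuous_fderiv (by simp)
    have h1 : Tendsto (fun n => fderiv ℝ ψ' ((φ (θ n))^[m (θ n)] 0)) atTop (𝓝 (fderiv ℝ ψ' 0)) :=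
      (hc.tendsto 0).comp (hpos.comp hθ.tendsto_atTop)
    refine (h1.mul (hDm.comp hθ.tendsto_atTop)).congr fun n => ?_
    rw [h.fderiv_comp hψ' (h.iter_mem (hφ _) _) 0]
    rfl
  have hinv1 : fderiv ℝ ψ' 0 * NormedSpace.exp (s • A) = 1 := tendsto_nhds_unique hj2 hj
  have hinv2 : L * fderiv ℝ ψ' 0 = 1 := by
    have h1 : fderiv ℝ (fun y => ψ (ψ' y)) 0 = fderiv ℝ ψ (ψ' 0) * fderiv ℝ ψ' 0 :=
      h.fderiv_comp hψ hψ' 0
    have h2 : (fun y => ψ (ψ' y)) = fun y => y := funext hr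
    have h3 : fderiv ℝ ψ (ψ' 0) = L := by
      have : ψ = fun y => L y := funext hL
      rw [this]
      exact L.fderiv
    rw [h2, fderiv_fun_id, h3] at h1
    exact h1.symm
  have hfin : NormedSpace.exp (s • A) = L := by
    calc NormedSpace.exp (s • A) = (L * fderiv ℝ ψ' 0) * NormedSpace.exp (s • A) := by
          rw [hinv2, one_mul]
      _ = L := by rw [mul_assoc, hinv1, mul_one]
  have : (fun y => NormedSpace.exp (s • A) y) = ψ := by
    funext y; rw [hfin, hL]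
  rw [this]; exact hψ

omit [FiniteDimensional ℝ E] in
/-- Almost minimal translations along a line, by small amounts, are close to the identity. -/
theorem IsoFam.exists_almost_min (h : IsoFam G g) {x : E}
    (htr : ∀ s : ℝ, ∃ φ ∈ G, ∀ u : ℝ, φ (u • x) = (u + s) • x) {t : ℕ → ℝ} (ht0 : ∀ n, 0 < t n)
    (htlim : Tendsto t atTop (𝓝 0)) :
    ∃ φ : ℕ → E → E, (∀ n, φ n ∈ G) ∧ (∀ n (u : ℝ), φ n (u • x) = (u + t n) • x) ∧
      (∀ n, ∀ ψ ∈ G, (∀ u : ℝ, ψ (u • x) = (u + t n) • x) →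
        ‖fderiv ℝ (φ n) 0 - 1‖ ≤ ‖fderiv ℝ ψ 0 - 1‖ + t n ^ 2) ∧
      Tendsto (fun n => ‖fderiv ℝ (φ n) 0 - 1‖) atTop (𝓝 0) := by
  have hex : ∀ n, ∃ φ ∈ G, (∀ u : ℝ, φ (u • x) = (u + t n) • x) ∧
      ∀ ψ ∈ G, (∀ u : ℝ, ψ (u • x) = (u + t n) • x) →
        ‖fderiv ℝ φ 0 - 1‖ ≤ ‖fderiv ℝ ψ 0 - 1‖ + t n ^ 2 := by
    intro n
    set S : Set ℝ := {c | ∃ φ ∈ G, (∀ u : ℝ, φ (u • x) = (u + t n) • x) ∧ c = ‖fderiv ℝ φ 0 - 1‖}
      with hS
    have hne : S.Nonempty := by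
      obtain ⟨φ, hφ, hφx⟩ := htr (t n)
      exact ⟨_, φ, hφ, hφx, rfl⟩
    have hbdd : BddBelow S := ⟨0, by rintro c ⟨φ, -, -, rfl⟩; exact norm_nonneg _⟩
    obtain ⟨c, ⟨φ, hφ, hφx, rfl⟩, hc⟩ := exists_lt_of_csInf_lt hne
      (lt_add_of_pos_right (sInf S) (pow_pos (ht0 n) 2))
    refine ⟨φ, hφ, hφx, fun ψ hψ hψx => ?_⟩
    have := csInf_le hbdd (show ‖fderiv ℝ ψ 0 - 1‖ ∈ S from ⟨ψ, hψ, hψx, rfl⟩)
    linarith
  choose φ hφ hφx hmin using hex
  refine ⟨φ, hφ, hφx, hmin, ?_⟩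
  by_contra hcon
  rw [Metric.tendsto_atTop] at hcon
  push Not at hcon
  obtain ⟨η, hη, hfar⟩ := hcon
  choose κ hκ1 hκ2 using hfar
  have hκ : Tendsto κ atTop atTop := tendsto_atTop_mono hκ1 tendsto_id
  have hz : ∀ n, φ n 0 = t n • x := fun n => by
    have := hφx n 0
    rwa [zero_smul, zero_add] at this
  have hbd : ∃ C, ∀ n, ‖φ (κ n) 0‖ ≤ C := by
    obtain ⟨C, hC⟩ := (htlim.norm.mul_const ‖x‖).bddAbove_range
    refine ⟨C, fun n => ?_⟩
    rw [hz, norm_smul]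
    exact hC ⟨κ n, rfl⟩
  obtain ⟨ψ, hψ, θ, hθ, hlim⟩ := h.compact (fun n => φ (κ n)) (fun n => hφ _) hbd
  have hsub : Tendsto (fun n => κ (θ n)) atTop atTop := hκ.comp hθ.tendsto_atTop
  have hψx : ∀ u : ℝ, ψ (u • x) = u • x := by
    intro u
    have h1 : Tendsto (fun n => φ (κ (θ n)) (u • x)) atTop (𝓝 ((u + 0) • x)) := by
      simp_rw [hφx]
      exact (tendsto_const_nhds.add (htlim.comp hsub)).smul_const x
    rw [add_zero] at h1
    exact tendsto_nhds_unique (hlim _) h1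
  obtain ⟨ψ', hψ', hl, hr⟩ := h.inv ψ hψ
  have hψ'x : ∀ u : ℝ, ψ' (u • x) = u • x := fun u => by
    have := hl (u • x)
    rwa [hψx] at this
  have hj := h.jet (fun n y => φ (κ (θ n)) (ψ' y)) (fun n => h.comp _ (hφ _) _ hψ') (fun y => by
    have := hlim (ψ' y)
    rw [hr y] at this
    exact this) 0
  have h1 : Tendsto (fun n => ‖fderiv ℝ (fun y => φ (κ (θ n)) (ψ' y)) 0 - 1‖ + t (κ (θ n)) ^ 2) atTop
      (𝓝 0) := by
    have h2 := (hj.sub_const 1).norm
    have h3 := (htlim.comp hsub).pow 2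
    have h4 := h2.add h3
    simpa using h4
  obtain ⟨n, hn⟩ := (h1.eventually (gt_mem_nhds hη)).exists
  have h2 := hmin (κ (θ n)) (fun y => φ (κ (θ n)) (ψ' y)) (h.comp _ (hφ _) _ hψ') (fun u => by
    rw [hψ'x, hφx])
  have h3 := hκ2 (θ n)
  rw [dist_zero_right, norm_norm] at h3
  linarith

/-- The translation Killing field along the line `ℝ x`. -/
theorem IsoFam.exists_translation (h : IsoFam G g) (hg : ContDiff ℝ ∞ g) {x : E}
    (htr : ∀ s : ℝ, ∃ φ ∈ G, ∀ u : ℝ, φ (u • x) = (u + s) • x) :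
    ∃ X : E → E, ContDiff ℝ ∞ X ∧ Killing g X ∧ ∀ u : ℝ, X (u • x) = x := by
  set t : ℕ → ℝ := fun n => 1 / ((n : ℝ) + 1) with ht
  have ht0 : ∀ n, 0 < t n := fun n => by positivity
  have htlim : Tendsto t atTop (𝓝 0) := tendsto_one_div_add_atTop_nhds_zero_nat
  obtain ⟨φ, hφ, hφx, hmin, hεlim⟩ := h.exists_almost_min htr ht0 htlim
  have hz : ∀ n, φ n 0 = t n • x := fun n => by
    have := hφx n 0
    rwa [zero_smul, zero_add] at this
  set ε : ℕ → ℝ := fun n => ‖fderiv ℝ (φ n) 0 - 1‖ with hεdef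
  have : ProperSpace (E →L[ℝ] E) := FiniteDimensional.proper ℝ (E →L[ℝ] E)
  by_cases hcase : Tendsto (fun n => ε n / t n) atTop atTop
  · -- impossible
    exfalso
    obtain ⟨N, hN⟩ := eventually_atTop.1 (hcase.eventually_gt_atTop 0)
    have hpos : ∀ n ≥ N, 0 < ε n := fun n hn => by
      have h1 := hN n hn
      have h2 : 0 < ε n / t n * t n := mul_pos h1 (ht0 n)
      rwa [div_mul_cancel₀ _ (ht0 n).ne'] at h2
    have hb : ∀ n, (ε n)⁻¹ • (fderiv ℝ (φ n) 0 - 1) ∈ Metric.closedBall (0 : E →L[ℝ] E) 1 := by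
      intro n
      rw [mem_closedBall_zero_iff, norm_smul, norm_inv, Real.norm_of_nonneg (norm_nonneg _)]
      rcases eq_or_ne ‖fderiv ℝ (φ n) 0 - 1‖ 0 with h | h
      · rw [h]; simp
      · exact (inv_mul_cancel₀ h).le
    obtain ⟨A, -, κ, hκ, hA⟩ := (isCompact_closedBall (0 : E →L[ℝ] E) 1).tendsto_subseq hb
    set χ : ℕ → ℕ := fun n => κ (n + N) with hχ
    have hχlim : Tendsto χ atTop atTop := hκ.tendsto_atTop.comp (tendsto_add_atTop_nat N)
    have hχ0 : ∀ n, 0 < ε (χ n) := fun n => hpos _ ((Nat.le_add_left N n).trans (hκ.id_le (n + N)))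
    have hA' : Tendsto (fun n => (ε (χ n))⁻¹ • (fderiv ℝ (φ (χ n)) 0 - 1)) atTop (𝓝 A) :=
      hA.comp (tendsto_add_atTop_nat N)
    have htε : Tendsto (fun n => t (χ n) / ε (χ n)) atTop (𝓝 0) := by
      have h1 := (hcase.comp hχlim).inv_tendsto_atTop
      refine h1.congr fun n => ?_
      simp only [Function.comp, Pi.inv_apply, inv_div]
    have hexp : ∀ s : ℝ, 0 ≤ s → (fun y => NormedSpace.exp (s • A) y) ∈ G := fun s hs =>
      h.exp_mem hg (fun n => hφ (χ n)) (fun n => hφx (χ n)) hχ0 (hεlim.comp hχlim) htε hA' hs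
    -- `A x = 0`
    have hDx : ∀ n, fderiv ℝ (φ n) 0 x = x := by
      intro n
      have h1 : HasFDerivAt (φ n) (fderiv ℝ (φ n) ((0 : ℝ) • x)) ((0 : ℝ) • x) :=
        ((h.smooth _ (hφ n)).differentiable (by simp)).differentiableAt.hasFDerivAt
      have h2 : HasDerivAt (fun u : ℝ => u • x) ((1 : ℝ) • x) 0 := (hasDerivAt_id (0 : ℝ)).smul_const x
      have h3 := h1.comp_hasDerivAt (0 : ℝ) h2
      have h4 : (φ n ∘ fun u : ℝ => u • x) = fun u : ℝ => (u + t n) • x := by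
        funext u; exact hφx n u
      rw [h4] at h3
      have h5 : HasDerivAt (fun u : ℝ => (u + t n) • x) ((1 : ℝ) • x) 0 :=
        ((hasDerivAt_id (0 : ℝ)).add_const (t n)).smul_const x
      have h6 := h3.unique h5
      simpa using h6
    have hAx : A x = 0 := by
      have h1 : Tendsto (fun n => ((ε (χ n))⁻¹ • (fderiv ℝ (φ (χ n)) 0 - 1)) x) atTop (𝓝 (A x)) :=
        ((ContinuousLinearMap.apply ℝ E x).continuous.tendsto A).comp hA'
      refine tendsto_nhds_unique h1 (tendsto_const_nhds.congr fun n => ?_)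
      rw [smul_apply, sub_apply, hDx]
      simp
    -- inverse elements
    have hinv : ∀ s : ℝ, (fun y => NormedSpace.exp (s • A) y) ∈ G := by
      intro s
      rcases le_total 0 s with hs | hs
      · exact hexp s hs
      · obtain ⟨ψ, hψ, hl, hr⟩ := h.inv _ (hexp (-s) (by linarith))
        have h1 : ψ = fun y => NormedSpace.exp (s • A) y := by
          funext y
          have h2 : y = NormedSpace.exp ((-s) • A) (NormedSpace.exp (s • A) y) := by
            rw [← mul_apply_eq_comp, ← SG.exp_add_smul]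
            simp
          have h3 := hl (NormedSpace.exp (s • A) y)
          rw [← h2] at h3
          exact h3
        rw [← h1]; exact hψ
    -- the competitor
    have hcomp : Tendsto (fun n => (ε (χ n))⁻¹ •
        (fderiv ℝ (φ (χ n)) 0 * NormedSpace.exp ((-ε (χ n)) • A) - 1)) atTop (𝓝 0) := by
      have hder : Tendsto (fun n => (ε (χ n))⁻¹ • (NormedSpace.exp ((-ε (χ n)) • A) - 1)) atTop
          (𝓝 (-A)) := by
        refine (exp_quot (-A) hχ0 (hεlim.comp hχlim)).congr fun n => ?_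
        rw [smul_neg, neg_smul]
      have hexp1 : Tendsto (fun n => NormedSpace.exp ((-ε (χ n)) • A)) atTop (𝓝 1) := by
        have h1 := ((exp_cont A).tendsto 0).comp (f := fun n => -ε (χ n)) (by
          have := (hεlim.comp hχlim).neg
          rw [neg_zero] at this
          exact this)
        rw [zero_smul, NormedSpace.exp_zero] at h1
        exact h1
      have h5 := (hA'.mul hexp1).add hder
      rw [mul_one, add_neg_cancel] at h5
      refine h5.congr fun n => ?_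
      rw [smul_mul_assoc, ← smul_add]
      congr 1
      noncomm_ring
    have h6 : Tendsto (fun n => ‖(ε (χ n))⁻¹ •
        (fderiv ℝ (φ (χ n)) 0 * NormedSpace.exp ((-ε (χ n)) • A) - 1)‖
        + t (χ n) * (t (χ n) / ε (χ n))) atTop (𝓝 0) := by
      have h7 := hcomp.norm.add ((htlim.comp hχlim).mul htε)
      simpa using h7
    obtain ⟨n, hn⟩ := (h6.eventually (gt_mem_nhds one_pos)).exists
    have h7 := hmin (χ n) (fun y => φ (χ n) (NormedSpace.exp ((-ε (χ n)) • A) y))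
      (h.comp _ (hφ _) _ (hinv _)) (fun u => by
        rw [map_smul, exp_fix hAx, hφx])
    have h8 : fderiv ℝ (fun y => φ (χ n) (NormedSpace.exp ((-ε (χ n)) • A) y)) 0
        = fderiv ℝ (φ (χ n)) 0 * NormedSpace.exp ((-ε (χ n)) • A) := by
      rw [h.fderiv_comp (hφ _) (hinv _) 0, map_zero]
      congr 1
      exact (NormedSpace.exp ((-ε (χ n)) • A)).fderiv
    rw [h8] at h7
    have h9 := hχ0 n
    rw [norm_smul, norm_inv, Real.norm_of_nonneg h9.le] at hn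
    have h10 : ε (χ n) ≤ ‖fderiv ℝ (φ (χ n)) 0 * NormedSpace.exp ((-ε (χ n)) • A) - 1‖
        + t (χ n) ^ 2 := h7
    have h11 : (ε (χ n))⁻¹ * ‖fderiv ℝ (φ (χ n)) 0 * NormedSpace.exp ((-ε (χ n)) • A) - 1‖
        + t (χ n) * (t (χ n) / ε (χ n))
        = (ε (χ n))⁻¹ * (‖fderiv ℝ (φ (χ n)) 0 * NormedSpace.exp ((-ε (χ n)) • A) - 1‖
        + t (χ n) ^ 2) := by
      field_simp
    rw [h11, inv_mul_lt_iff₀ h9, mul_one] at hn
    linarith
  · -- a bounded subsequence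
    rw [tendsto_atTop_atTop] at hcase
    push Not at hcase
    obtain ⟨C, hC⟩ := hcase
    choose κ hκ1 hκ2 using hC
    have hκ : Tendsto κ atTop atTop := tendsto_atTop_mono hκ1 tendsto_id
    have hb : ∀ n, (t (κ n))⁻¹ • (fderiv ℝ (φ (κ n)) 0 - 1) ∈ Metric.closedBall (0 : E →L[ℝ] E) C := by
      intro n
      rw [mem_closedBall_zero_iff, norm_smul, norm_inv, Real.norm_of_nonneg (ht0 _).le]
      have h1 := (hκ2 n).le
      rw [div_le_iff₀ (ht0 _)] at h1
      rw [inv_mul_le_iff₀ (ht0 _), mul_comm]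
      exact h1
    obtain ⟨A, -, ψ, hψ, hA⟩ := (isCompact_closedBall (0 : E →L[ℝ] E) C).tendsto_subseq hb
    have hlim' : Tendsto (fun n => κ (ψ n)) atTop atTop := hκ.comp hψ.tendsto_atTop
    obtain ⟨X, hX1, hX2, hX3, -⟩ := h.exists_killing hg (φ := fun n => φ (κ (ψ n)))
      (fun n => hφ _) (ε := fun n => t (κ (ψ n))) (fun n => ht0 _) (htlim.comp hlim')
      (q₀ := 0) (a := x) (A := A) ⟨by
        refine tendsto_const_nhds.congr fun n => ?_
        change x = (t (κ (ψ n)))⁻¹ • (φ (κ (ψ n)) 0 - 0)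
        rw [hz, sub_zero, inv_smul_smul₀ (ht0 _).ne'], hA⟩
    refine ⟨X, hX1, hX2, fun u => ?_⟩
    refine tendsto_nhds_unique (hX3 (u • x)).1 (tendsto_const_nhds.congr fun n => ?_)
    change x = (t (κ (ψ n)))⁻¹ • (φ (κ (ψ n)) (u • x) - u • x)
    rw [hφx, add_smul, add_sub_cancel_left, inv_smul_smul₀ (ht0 _).ne']

omit [FiniteDimensional ℝ E] in
theorem isoFam_of (h : Froz.IsoFam G g) : IsoFam G g where
  id_mem := h.id_mem
  comp := h.comp
  inv := fun φ hφ => by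
    obtain ⟨ψ, hψ, h1, h2⟩ := h.inv φ hφ
    exact ⟨ψ, hψ, h2, h1⟩
  smooth := h.smooth
  pres := h.pres
  fix_lin := h.fix_lin
  compact := h.compact
  jet := h.jet
  rep := fun q => by
    obtain ⟨r, hr, hrep⟩ := h.rep q
    exact ⟨r, hr, hrep⟩

end TF

namespace Froz

variable {E : Type*} [NormedAddCommGroup E] [InnerProductSpace ℝ E] [FiniteDimensional ℝ E]
variable {G : Set (E → E)} {g : E → E →L[ℝ] E →L[ℝ] ℝ}

/-- The translation Killing field along the line `ℝ x` (block B6). -/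
theorem IsoFam.exists_field (h : IsoFam G g) (hg : ContDiff ℝ ∞ g) {x : E}
    (htr : ∀ s : ℝ, ∃ φ ∈ G, ∀ u : ℝ, φ (u • x) = (u + s) • x) :
    ∃ X : E → E, IsKilling g X ∧ ∀ u : ℝ, X (u • x) = x := by
  obtain ⟨X, h1, h2, h3⟩ := (TF.isoFam_of h).exists_translation hg htr
  exact ⟨X, ⟨h1, h2⟩, h3⟩

end Froz

end Pool.Agent.Work.MP_3b24f6_gt
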