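import Pool.Agent.Work.MP_3b24f6_gt.S.MetricLine

/-! FROZ: translations along the lines through the centre. -/

set_option autoImplicit false

open Set Filter Topology Metric

namespace Pool.Agent.Work.MP_3b24f6_gt.S

variable {M : Type*} [MetricSpace M]

/-- Isometries translate a given line. -/
theorem Ax.exists_translation (A : Ax M) {γ : ℝ → M} (hγ : Isometry γ) (s : ℝ) :
    ∃ φ : M ≃ᵢ M, ∀ t, φ (γ t) = γ (t + s) := by
  obtain ⟨φ, h0, h1⟩ := A.hom (γ 0) (γ 1) (γ s) (γ (1 + s)) (by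
    rw [hγ.dist_eq, hγ.dist_eq, Real.dist_eq, Real.dist_eq]
    congr 1
    ring)
  refine ⟨φ, fun t => ?_⟩
  have hδ : Isometry (fun t : ℝ => γ (t + s)) :=
    hγ.comp (isometry_add_right s)
  have := A.line_unique (φ.isometry.comp hγ) hδ (a := 0) (b := 1) one_pos (by
    simp only [Function.comp_apply, zero_add]
    exact h0) (by
    simp only [Function.comp_apply]
    exact h1)
  exact congrFun this t

/-- The same in the global exponential chart. -/
theorem Ax.exists_translation' {E : Type*} [NormedAddCommGroup E] [NormedSpace ℝ E] (A : Ax M)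
    {f : E → M} (hline : ∀ x : E, ‖x‖ = 1 → Isometry fun t : ℝ => f (t • x)) {x : E}
    (hx : ‖x‖ = 1) (s : ℝ) : ∃ φ : M ≃ᵢ M, ∀ t : ℝ, φ (f (t • x)) = f ((t + s) • x) :=
  A.exists_translation (hline x hx) s

/-- Homogeneity. -/
theorem Ax.move (A : Ax M) (p q : M) : ∃ φ : M ≃ᵢ M, φ p = q := by
  obtain ⟨φ, h, -⟩ := A.hom p p q q (by simp)
  exact ⟨φ, h⟩

end Pool.Agent.Work.MP_3b24f6_gt.S
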