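import Pool.Agent.Work.MP_3b24f6_gt.S.GlobalE
import Pool.Agent.Work.MP_3b24f6_gt.S.IsoFam
import Pool.Agent.Work.MP_3b24f6_gt.S.FlatIsom
import Pool.Agent.Work.MP_3b24f6_gt.S.TransL
import Pool.Agent.Work.MP_3b24f6_gt.S.HomMetOf
import Pool.Agent.Work.MP_3b24f6_gt.S.Chart
import Pool.Agent.Work.MP_3b24f6_gt.S.LocGeo
import Pool.Agent.Work.MP_3b24f6_gt.S.TransField
import Pool.Agent.Work.MP_3b24f6_gt.S.GeoSmooth

/-!
# S13039, link L1: the global chart of a two-point homogeneous space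
-/

set_option autoImplicit false
set_option maxSynthPendingDepth 3

open Set Filter Metric Bundle
open scoped Topology ContDiff Manifold InnerProductSpace

namespace Pool.Agent.Work.MP_3b24f6_gt.S

open Pool.Agent.Work.MP_3b24f6_gt.Froz

section abstract

variable {E : Type*} [NormedAddCommGroup E] [InnerProductSpace ℝ E]
  {M : Type*} [MetricSpace M] {g : E → E →L[ℝ] E →L[ℝ] ℝ} {e : E → M}

/-- Isometries of the family are isometries of `g`. -/
theorem isIso_of_mem {G : Set (E → E)} (h : IsoFam G g) {f : E → E} (hf : f ∈ G) : IsIso g f where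
  smooth := h.smooth f hf
  inv := by
    obtain ⟨ψ, hψ, h1, h2⟩ := h.inv f hf
    exact ⟨ψ, h.smooth ψ hψ, h2, h1⟩
  pres := h.pres f hf

omit [NormedAddCommGroup E] [InnerProductSpace ℝ E] in
/-- An isometry of `M` read in the chart. -/
theorem mem_isoSet (hs : Function.Surjective e) (φ : M ≃ᵢ M) :
    ∃ f ∈ isoSet e, ∀ y, e (f y) = φ (e y) := by
  choose f hf using fun y => hs (φ (e y))
  exact ⟨f, ⟨φ, hf⟩, hf⟩

theorem hom2_of [FiniteDimensional ℝ E] [ProperSpace M] (hE : 2 ≤ Module.finrank ℝ E)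
    (hG : ContDiff ℝ ∞ g) (hM : MetModel M univ g e) (hs : Function.Surjective e)
    (hg0 : ∀ u v, g 0 u v = ⟪u, v⟫_ℝ) (hgauss : ∀ y w, g y y w = ⟪y, w⟫_ℝ)
    (hray : ∀ (x : E) (s t : ℝ), dist (e (s • x)) (e (t • x)) = |s - t| * ‖x‖)
    (hlin : ∀ φ : M ≃ᵢ M, φ (e 0) = e 0 → ∃ L : E ≃ₗᵢ[ℝ] E, ∀ v, φ (e v) = e (L v))
    (hA : Ax M) : Hom2 g := by
  have hloc : ∀ q : E, ∃ r ρ X W, LocGeo M univ g e q r ρ X W := fun q =>
    exists_locGeo hM (mem_univ q)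
  have hfam : IsoFam (isoSet e) g := isoFam hM hs hloc fun φ hφ => by
    obtain ⟨L, hL⟩ := hlin φ hφ
    exact ⟨(L.toContinuousLinearEquiv : E →L[ℝ] E), hL⟩
  have hline : ∀ x : E, ‖x‖ = 1 → Isometry fun t : ℝ => e (t • x) := by
    intro x hx
    refine Isometry.of_dist_eq fun s t => ?_
    rw [hray, hx, mul_one, Real.dist_eq]
  have hd0 : ∀ y, dist (e 0) (e y) = ‖y‖ := by
    intro y
    have := hray y 0 1
    rw [zero_smul, one_smul] at this
    rw [this]; simp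
  -- linear isometries, transitive
  have hrot : ∀ x y : E, ‖x‖ = ‖y‖ → ∃ L : E ≃ₗᵢ[ℝ] E, L x = y ∧ IsIso g L := by
    intro x y hxy
    obtain ⟨φ, h0, h1⟩ := hA.hom (e 0) (e x) (e 0) (e y) (by rw [hd0, hd0, hxy])
    obtain ⟨L, hL⟩ := hlin φ h0
    refine ⟨L, hM.injective (by rw [← hL, h1]), ?_⟩
    exact isIso_of_mem hfam ⟨φ, fun y => (hL y).symm⟩
  have htrans : ∀ x : E, ‖x‖ = 1 → ∀ s : ℝ, ∃ φ ∈ isoSet e, ∀ t : ℝ, φ (t • x) = (t + s) • x := by
    intro x hx s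
    obtain ⟨φ, hφ⟩ := hA.exists_translation' hline hx s
    obtain ⟨f, hf, hf'⟩ := mem_isoSet hs φ
    exact ⟨f, hf, fun t => hM.injective (by rw [hf', hφ])⟩
  have hfield : ∀ x : E, ‖x‖ = 1 → ∃ X : E → E, IsKilling g X ∧ ∀ t : ℝ, X (t • x) = x :=
    fun x hx => hfam.exists_field hG (htrans x hx)
  have hnorm : NormG g := ⟨hG, fun y => hM.met.symm y (mem_univ y),
    fun y => hM.met.pos y (mem_univ y), hg0, hgauss⟩
  refine ⟨hnorm, ?_, ?_, hfield, ?_, ?_⟩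
  · intro x x' hx hx'
    obtain ⟨L, h1, h2⟩ := hrot x x' (by rw [hx, hx'])
    exact ⟨L, h2, h1⟩
  · intro x hx s
    obtain ⟨φ, h1, h2⟩ := htrans x hx s
    exact ⟨φ, isIso_of_mem hfam h1, h2⟩
  · intro x v hx hv
    have hx0 : x ≠ 0 := by
      intro h
      rw [h, norm_zero] at hx
      exact zero_ne_one hx
    obtain ⟨A, hA1, hAx, hA⟩ := (KHom.isGrp_linK hG.continuous hg0).exists_skew
      (fun x y hxy => by
        obtain ⟨L, hL1, hL2⟩ := hrot x y hxy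
        refine ⟨(L.toContinuousLinearEquiv : E →L[ℝ] E), fun z u v => ?_, hL1⟩
        have h3 := hL2.pres z u v
        have h4 : fderiv ℝ L z = (L.toContinuousLinearEquiv : E →L[ℝ] E) :=
          (L.toContinuousLinearEquiv : E →L[ℝ] E).hasFDerivAt.fderiv
        rw [h4] at h3
        exact h3) hv hx0
    exact ⟨A, hA1, KLin.isKilling_of_exp hG A fun s z u v => hA s z u v, hAx⟩
  · intro t ht
    refine unb_of_nearP1 hE hG.continuous (fun y v => ?_) (F := e) ?_ ?_ ht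
    · rcases eq_or_ne v 0 with rfl | hv
      · simp
      · exact (hM.met.pos y (mem_univ y) v hv).le
    · intro x₀ ε hε
      obtain ⟨δ, hδ, -, h⟩ := hM.near x₀ (mem_univ _) ε hε
      exact ⟨δ, hδ, h⟩
    · intro x hx s t
      rw [hray, hx, mul_one]

theorem glob_of [FiniteDimensional ℝ E] [ProperSpace M] (hE : 2 ≤ Module.finrank ℝ E)
    (hG : ContDiff ℝ ∞ g) (hM : MetModel M univ g e) (hs : Function.Surjective e)
    (hg0 : ∀ u v, g 0 u v = ⟪u, v⟫_ℝ) (hgauss : ∀ y w, g y y w = ⟪y, w⟫_ℝ)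
    (hray : ∀ (x : E) (s t : ℝ), dist (e (s • x)) (e (t • x)) = |s - t| * ‖x‖)
    (hall : ∀ γ : ℝ → M, Isometry γ → γ 0 = e 0 → ∃ v : E, ‖v‖ = 1 ∧ ∀ t, γ t = e (t • v))
    (hlin : ∀ φ : M ≃ᵢ M, φ (e 0) = e 0 → ∃ L : E ≃ₗᵢ[ℝ] E, ∀ v, φ (e v) = e (L v))
    (hA : Ax M) : Glob g e := by
  have hloc : ∀ q : E, ∃ r ρ X W, LocGeo M univ g e q r ρ X W := fun q =>
    exists_locGeo hM (mem_univ q)
  have hfam : IsoFam (isoSet e) g := isoFam hM hs hloc fun φ hφ => by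
    obtain ⟨L, hL⟩ := hlin φ hφ
    exact ⟨(L.toContinuousLinearEquiv : E →L[ℝ] E), hL⟩
  refine ⟨hom2_of hE hG hM hs hg0 hgauss hray hlin hA, (hM.homeo hs).isHomeomorph, ?_, ?_, ?_, ?_,
    fun p => hA.move (e 0) p, ?_⟩
  · intro x₀ ε hε
    obtain ⟨δ, hδ, -, h⟩ := hM.near x₀ (mem_univ _) ε hε
    exact ⟨δ, hδ, h⟩
  · intro y
    have := hray y 0 1
    rw [zero_smul, one_smul] at this
    rw [this]; simp
  · intro x hx s t
    rw [hray, hx, mul_one]
  · intro φ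
    obtain ⟨f, hf, hf'⟩ := mem_isoSet hs φ
    exact ⟨f, isIso_of_mem hfam hf, fun y => (hf' y).symm⟩
  · refine GS.GChart.contDiff_dist_sq (M := M) (g := g) (e := e)
      ⟨hM, hs, fun x hx => Isometry.of_dist_eq fun s t => ?_, hall, hloc,
        fun p => hA.move (e 0) (e p)⟩
    rw [hray, hx, mul_one, Real.dist_eq]

end abstract

section manifold

variable (d : ℕ) (M : Type) [MetricSpace M]
    [ChartedSpace (EuclideanSpace ℝ (Fin d)) M] [IsManifold (𝓡 d) ∞ M]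
    [RiemannianBundle (fun x : M => TangentSpace (𝓡 d) x)]
    [IsContMDiffRiemannianBundle (𝓡 d) ∞ (EuclideanSpace ℝ (Fin d))
      (fun x : M => TangentSpace (𝓡 d) x)]
    [IsRiemannianManifold (𝓡 d) M]

/-- Link L1: `M` is `(E, g)` in a global normal chart. -/
theorem exists_glob (hn : NoncompactSpace M) [ConnectedSpace M]
    (h2 : ∀ p q p' q' : M, dist p q = dist p' q' → ∃ φ : M ≃ᵢ M, φ p = p' ∧ φ q = q')
    (hd : 2 ≤ d) (o : M) :
    ProperSpace M ∧ ∃ (g : EuclideanSpace ℝ (Fin d) → EuclideanSpace ℝ (Fin d) →L[ℝ]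
        EuclideanSpace ℝ (Fin d) →L[ℝ] ℝ) (F : EuclideanSpace ℝ (Fin d) ≃ₜ M),
      F 0 = o ∧ Glob g F ∧ ContMDiff (𝓡 d) (𝓡 d) ∞ F ∧ ContMDiff (𝓡 d) (𝓡 d) ∞ F.symm := by
  have hI : Inter M := inter_of_riemannian d M
  have : LocallyCompactSpace M := ChartedSpace.locallyCompactSpace (EuclideanSpace ℝ (Fin d)) M
  have hP : ProperSpace M := proper_of_inter hI h2
  refine ⟨hP, ?_⟩
  have hmod : ∀ q : M, ∃ g, MetModel M (extChartAt (𝓡 d) q).target g
      (extChartAt (𝓡 d) q).symm ∧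
      ∃ r ρ X W, LocGeo M (extChartAt (𝓡 d) q).target g (extChartAt (𝓡 d) q).symm
        (extChartAt (𝓡 d) q q) r ρ X W := by
    intro q
    obtain ⟨g, hg⟩ := exists_metModel (d := d) (M := M) inferInstance q
    exact ⟨g, hg, exists_locGeo hg (mem_extChartAt_target q)⟩
  obtain ⟨e, hbij, G, he0, hsm, hsm', hG, hM, hg0, hgauss, hray, hall, hlin, -, -, hA⟩ :=
    exists_global hI h2 hmod o
  have hE : 2 ≤ Module.finrank ℝ (EuclideanSpace ℝ (Fin d)) := by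
    rw [finrank_euclideanSpace_fin]; exact hd
  have key : Glob G e := glob_of hE hG hM hbij.2 hg0 hgauss hray
    (fun γ h1 h2 => hall γ h1 (by rw [h2, he0])) (fun φ hφ => hlin φ (by rwa [he0] at hφ)) hA
  exact ⟨G, hM.homeo hbij.2, he0, key, hsm, hsm'⟩

end manifold

end Pool.Agent.Work.MP_3b24f6_gt.S
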