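import Pool.Agent.Work.MP_3b24f6_gt.S.AxOf
import Pool.Agent.Work.MP_3b24f6_gt.S.SkewGen

/-! FROZ: continuity of the global exponential map; the stabiliser as a closed linear group. -/

set_option autoImplicit false

open Set Filter Topology Metric
open scoped InnerProductSpace ContDiff

namespace Pool.Agent.Work.MP_3b24f6_gt.S

open Ax Pool.Agent.Work.MP_3b24f6_gt.Froz

variable {M : Type*} [MetricSpace M]
variable {E : Type*} [NormedAddCommGroup E] [InnerProductSpace ℝ E]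
variable {U : Set E} {g : E → E →L[ℝ] E →L[ℝ] ℝ} {ι : E → M} {p₀ : E} {r ρ : ℝ}
  {X W : E × E → E} {T : E ≃L[ℝ] E} {f : E → M}

theorem tendsto_btw {α : Type*} {l : Filter α} [l.NeBot] {a b c : α → M} {a' b' c' : M}
    (ha : Tendsto a l (𝓝 a')) (hb : Tendsto b l (𝓝 b')) (hc : Tendsto c l (𝓝 c'))
    (h : ∃ᶠ n in l, Btw (a n) (b n) (c n)) : Btw a' b' c' := by
  have h1 : Tendsto (fun n => dist (a n) (b n) + dist (b n) (c n) - dist (a n) (c n)) l
      (𝓝 (dist a' b' + dist b' c' - dist a' c')) :=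
    ((ha.dist hb).add (hb.dist hc)).sub (ha.dist hc)
  by_contra hne
  have h2 : dist a' b' + dist b' c' - dist a' c' ≠ 0 := fun h0 => hne (sub_eq_zero.1 h0)
  have h3 := h1.eventually_ne h2
  obtain ⟨n, hn1, hn2⟩ := (h.and_eventually h3).exists
  exact hn2 (sub_eq_zero.2 hn1)

theorem locExp_cont (hM : MetModel M U g ι) (hL : LocGeo M U g ι p₀ r ρ X W)
    (hT : ∀ u v, g p₀ (T u) (T v) = ⟪u, v⟫_ℝ) :
    ContinuousOn (fun v => ι (X (p₀, T v))) (ball 0 ρ) := by
  have hp : p₀ ∈ Metric.ball p₀ r := Metric.mem_ball_self hL.r_pos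
  have hs : ∀ v ∈ ball (0 : E) ρ, T v ∈ ball (0 : E) r := by
    intro v hv
    refine hL.small p₀ hp _ ?_
    rw [gnorm_normalising hT]
    simpa using hv
  refine hM.cont.comp ?_ (fun v hv => hL.mem p₀ hp _ (hs v hv))
  refine hL.smooth.continuousOn.comp ?_ (fun v hv => ⟨hp, hs v hv⟩)
  exact (continuous_const.prodMk T.continuous).continuousOn

theorem GExp.onRay (hL : LocGeo M U g ι p₀ r ρ X W) (hf : GExp M ι p₀ ρ X T f) {v : E}
    (hv : ‖v‖ = 1) {s t : ℝ} (hs : 0 ≤ s) (ht : 0 ≤ t) :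
    OnRay (ι p₀) (f (s • v)) (f (t • v)) := by
  have hi := hf.line v hv
  have h0 : f ((0 : ℝ) • v) = ι p₀ := by rw [zero_smul, hf.zero]
  have _ := hL.r_pos
  rcases le_total s t with h | h
  · right
    have := isometry_btw hi hs h
    simp only [h0] at this
    exact this
  · left
    have := isometry_btw hi ht h
    simp only [h0] at this
    exact this

theorem GExp.continuous [ProperSpace M] (A : Ax M) (hM : MetModel M U g ι)
    (hL : LocGeo M U g ι p₀ r ρ X W) (hT : ∀ u v, g p₀ (T u) (T v) = ⟪u, v⟫_ℝ)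
    (hf : GExp M ι p₀ ρ X T f) : Continuous f := by
  have hρ := hL.ρ_pos
  have hc := locExp_cont hM hL hT
  rw [continuous_iff_continuousAt]
  intro y
  by_cases hy : y = 0
  · rw [hy, ContinuousAt, hf.zero, tendsto_iff_dist_tendsto_zero]
    have : (fun v => dist (f v) (ι p₀)) = fun v => ‖v‖ := by
      funext v
      rw [dist_comm, hf.dist_zero]
    rw [this]
    have := (continuous_norm (E := E)).tendsto 0
    rwa [norm_zero] at this
  -- directions
  set x : E → M := fun z => f ((ρ / 2) • (‖z‖⁻¹ • z)) with hx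
  have hnorm : ∀ z : E, z ≠ 0 → ‖‖z‖⁻¹ • z‖ = 1 := by
    intro z hz
    rw [norm_smul, norm_inv, norm_norm, inv_mul_cancel₀ (norm_ne_zero_iff.2 hz)]
  have hxc : ContinuousAt x y := by
    have h1 : ContinuousAt (fun z : E => (ρ / 2) • (‖z‖⁻¹ • z)) y := by
      refine ContinuousAt.const_smul ?_ _
      exact (continuous_norm.continuousAt.inv₀ (norm_ne_zero_iff.2 hy)).smul continuousAt_id
    have h2 : (ρ / 2) • (‖y‖⁻¹ • y) ∈ ball (0 : E) ρ := by
      rw [mem_ball_zero_iff, norm_smul, hnorm y hy, mul_one, Real.norm_of_nonneg (by linarith)]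
      linarith
    have h3 : ContinuousAt (fun v => ι (X (p₀, T v))) ((ρ / 2) • (‖y‖⁻¹ • y)) :=
      hc.continuousAt (isOpen_ball.mem_nhds h2)
    have h4 : ContinuousAt f ((ρ / 2) • (‖y‖⁻¹ • y)) := by
      refine h3.congr ?_
      filter_upwards [isOpen_ball.mem_nhds h2] with v hv
      exact (hf.near v (by simpa using hv)).symm
    exact ContinuousAt.comp (f := fun z : E => (ρ / 2) • (‖z‖⁻¹ • z)) h4 h1
  have hray : ∀ z : E, z ≠ 0 → OnRay (ι p₀) (x z) (f z) := by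
    intro z hz
    have h1 := hf.onRay hL (hnorm z hz) (s := ρ / 2) (t := ‖z‖) (by linarith) (norm_nonneg z)
    rwa [smul_smul ‖z‖, mul_inv_cancel₀ (norm_ne_zero_iff.2 hz), one_smul] at h1
  have hne : ι p₀ ≠ x y := by
    intro h
    have h1 := hf.dist_zero ((ρ / 2) • (‖y‖⁻¹ • y))
    rw [norm_smul, hnorm y hy, mul_one, Real.norm_of_nonneg (by linarith)] at h1
    have h2 : dist (ι p₀) (x y) = ρ / 2 := h1
    rw [← h, dist_self] at h2
    linarith
  -- bounded
  have hK : IsCompact (closedBall (ι p₀) (‖y‖ + 1)) := isCompact_closedBall _ _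
  have hev : ∀ᶠ z in 𝓝 y, f z ∈ closedBall (ι p₀) (‖y‖ + 1) := by
    have : ∀ᶠ z in 𝓝 y, ‖z‖ < ‖y‖ + 1 :=
      (continuous_norm.tendsto y).eventually (gt_mem_nhds (by linarith))
    filter_upwards [this] with z hz
    rw [mem_closedBall, dist_comm, hf.dist_zero]
    exact hz.le
  refine hK.tendsto_nhds_of_unique_mapClusterPt hev ?_
  intro z _ hz
  -- the cluster point is on the ray at the right distance
  obtain ⟨l, hl1, hl2⟩ := mapClusterPt_iff_ultrafilter.1 hz
  have k1 : Tendsto x l (𝓝 (x y)) := hxc.tendsto.mono_left hl1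
  have k2 : dist (ι p₀) z = ‖y‖ := by
    have a1 : Tendsto (fun v => dist (ι p₀) (f v)) l (𝓝 (dist (ι p₀) z)) :=
      tendsto_const_nhds.dist hl2
    have a2 : (fun v => dist (ι p₀) (f v)) = fun v => ‖v‖ := funext hf.dist_zero
    rw [a2] at a1
    exact tendsto_nhds_unique a1 ((continuous_norm.tendsto y).mono_left hl1)
  have k3 : ∀ᶠ v in (l : Filter E), OnRay (ι p₀) (x v) (f v) := by
    have : ∀ᶠ v in 𝓝 y, v ≠ 0 := isOpen_ne.mem_nhds hy
    filter_upwards [this.filter_mono hl1] with v hv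
    exact hray v hv
  have k4 : OnRay (ι p₀) (x y) z := by
    by_cases hfr : ∃ᶠ v in (l : Filter E), Btw (ι p₀) (f v) (x v)
    · exact Or.inl (tendsto_btw tendsto_const_nhds hl2 k1 hfr)
    · have : ∀ᶠ v in (l : Filter E), Btw (ι p₀) (x v) (f v) := by
        filter_upwards [k3, not_frequently.1 hfr] with v h1 h2
        exact h1.resolve_left h2
      exact Or.inr (tendsto_btw tendsto_const_nhds k1 hl2 this.frequently)
  refine A.onRay_unique hne k4 (hray y hy) ?_
  rw [k2, hf.dist_zero]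

/-- `f` as a homeomorphism. -/
theorem GExp.isHomeomorph [FiniteDimensional ℝ E] (hc : Continuous f)
    (hf : GExp M ι p₀ ρ X T f) : IsHomeomorph f := by
  rw [isHomeomorph_iff_continuous_isClosedMap_bijective]
  refine ⟨hc, ?_, hf.bij⟩
  have hp : IsProperMap f := by
    rw [isProperMap_iff_isCompact_preimage]
    refine ⟨hc, fun K hK => ?_⟩
    obtain ⟨R, hR⟩ := hK.isBounded.subset_closedBall (ι p₀)
    refine Metric.isCompact_of_isClosed_isBounded (hK.isClosed.preimage hc) ?_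
    refine (Metric.isBounded_iff_subset_closedBall 0).2 ⟨R, fun v hv => ?_⟩
    have h1 := hR hv
    rw [mem_closedBall, dist_comm, hf.dist_zero] at h1
    simpa using h1
  exact hp.isClosedMap

/-- The linear parts of the isometries fixing the centre. -/
def stab (f : E → M) : Set (E →L[ℝ] E) := {L | ∃ φ : M ≃ᵢ M, ∀ v, φ (f v) = f (L v)}

theorem GExp.exists_equiv (hf : GExp M ι p₀ ρ X T f) {a : E →L[ℝ] E} (ha : a ∈ stab f) :
    ∃ (L : E ≃ₗᵢ[ℝ] E) (φ : M ≃ᵢ M), (∀ v, a v = L v) ∧ ∀ v, φ (f v) = f (L v) := by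
  obtain ⟨φ, hφ⟩ := ha
  have h0 : φ (ι p₀) = ι p₀ := by
    rw [← hf.zero, hφ, map_zero]
  obtain ⟨L, hL⟩ := hf.lin φ h0
  refine ⟨L, φ, fun v => ?_, hL⟩
  apply hf.bij.1
  rw [← hφ, hL]

theorem GExp.isGrp [FiniteDimensional ℝ E] (hc : Continuous f) (hf : GExp M ι p₀ ρ X T f) :
    SG.IsGrp (stab f) where
  one := ⟨IsometryEquiv.refl M, fun v => rfl⟩
  mul := by
    rintro a ⟨φ, hφ⟩ b ⟨ψ, hψ⟩
    exact ⟨ψ.trans φ, fun v => by
      rw [IsometryEquiv.trans_apply, hψ, hφ]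
      rfl⟩
  inv := by
    intro a ha
    obtain ⟨L, φ, hL, hφ⟩ := hf.exists_equiv ha
    refine ⟨(L.symm.toContinuousLinearEquiv : E →L[ℝ] E), ⟨φ.symm, fun v => ?_⟩, ?_, ?_⟩
    · rw [IsometryEquiv.symm_apply_eq, hφ]
      simp
    · ext v
      simp [hL]
    · ext v
      simp [hL]
  closed := by
    rw [← isSeqClosed_iff_isClosed]
    intro a b ha hb
    have hpt : ∀ v, Tendsto (fun n => a n v) atTop (𝓝 (b v)) := fun v =>
      ((ContinuousLinearMap.apply ℝ E v).continuous.tendsto b).comp hb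
    have hn : ∀ v, ‖b v‖ = ‖v‖ := by
      intro v
      have h1 : Tendsto (fun n => ‖a n v‖) atTop (𝓝 ‖b v‖) := (hpt v).norm
      have h2 : (fun n => ‖a n v‖) = fun _ => ‖v‖ := by
        funext n
        obtain ⟨L, φ, hL, -⟩ := hf.exists_equiv (ha n)
        rw [hL, L.norm_map]
      rw [h2] at h1
      exact tendsto_nhds_unique h1 tendsto_const_nhds
    have hd : ∀ v w, dist (f (b v)) (f (b w)) = dist (f v) (f w) := by
      intro v w
      have h1 : Tendsto (fun n => dist (f (a n v)) (f (a n w))) atTop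
          (𝓝 (dist (f (b v)) (f (b w)))) :=
        ((hc.tendsto _).comp (hpt v)).dist ((hc.tendsto _).comp (hpt w))
      have h2 : (fun n => dist (f (a n v)) (f (a n w))) = fun _ => dist (f v) (f w) := by
        funext n
        obtain ⟨φ, hφ⟩ := ha n
        rw [← hφ, ← hφ, φ.dist_eq]
      rw [h2] at h1
      exact tendsto_nhds_unique h1 tendsto_const_nhds
    let b0 : E →ₗᵢ[ℝ] E := ⟨(b : E →ₗ[ℝ] E), hn⟩
    let b1 : E ≃ₗᵢ[ℝ] E := b0.toLinearIsometryEquiv rfl
    have hb1 : ∀ v, b1 v = b v := fun v => rfl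
    let F : E ≃ M := Equiv.ofBijective f hf.bij
    let Φ : M ≃ M := F.symm.trans (b1.toEquiv.trans F)
    have hΦ : ∀ v, Φ (f v) = f (b v) := by
      intro v
      have h1 : F.symm (f v) = v := F.symm_apply_apply v
      show F (b1 (F.symm (f v))) = f (b v)
      rw [h1]
      rfl
    refine ⟨⟨Φ, Isometry.of_dist_eq fun p q => ?_⟩, hΦ⟩
    obtain ⟨v, rfl⟩ := hf.bij.2 p
    obtain ⟨w, rfl⟩ := hf.bij.2 q
    show dist (Φ (f v)) (Φ (f w)) = _
    rw [hΦ, hΦ, hd]
  iso := by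
    intro a ha x
    obtain ⟨L, φ, hL, -⟩ := hf.exists_equiv ha
    rw [hL, L.norm_map]

theorem GExp.trans (h2 : TwoPt M) (hf : GExp M ι p₀ ρ X T f) (x y : E) (h : ‖x‖ = ‖y‖) :
    ∃ a ∈ stab f, a x = y := by
  obtain ⟨φ, h0, h1⟩ := h2 (ι p₀) (f x) (ι p₀) (f y) (by rw [hf.dist_zero, hf.dist_zero, h])
  obtain ⟨L, hL⟩ := hf.lin φ h0
  refine ⟨(L.toContinuousLinearEquiv : E →L[ℝ] E), ⟨φ, hL⟩, ?_⟩
  apply hf.bij.1
  rw [← h1, hL]
  rfl

/-- Rotation fields: `A` skew with `A x = v` whose flow consists of isometries of `M`. -/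
theorem GExp.exists_skew [FiniteDimensional ℝ E] (h2 : TwoPt M) (hc : Continuous f)
    (hf : GExp M ι p₀ ρ X T f) {x v : E} (hx : x ≠ 0) (hxv : ⟪x, v⟫_ℝ = 0) :
    ∃ A : E →L[ℝ] E, (∀ u w, ⟪A u, w⟫_ℝ = -⟪u, A w⟫_ℝ) ∧ A x = v ∧
      ∀ s : ℝ, ∃ φ : M ≃ᵢ M, ∀ z, φ (f z) = f (NormedSpace.exp (s • A) z) :=
  (hf.isGrp hc).exists_skew (hf.trans h2) hxv hx

end Pool.Agent.Work.MP_3b24f6_gt.S
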