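import Pool.Agent.Work.MP_3b24f6_gt.S.Glob
import Pool.Agent.Work.MP_3b24f6_gt.S.IsoFam
import Pool.Agent.Work.MP_3b24f6_gt.S.TransField
import Pool.Agent.Work.MP_3b24f6_gt.S.TransL
import Pool.Agent.Work.MP_3b24f6_gt.S.Stab
import Pool.Agent.Work.MP_3b24f6_gt.S.KillLin
import Pool.Agent.Work.MP_3b24f6_gt.S.RayExcl
import Pool.Agent.Work.MP_3b24f6_gt.S.GeoSmooth

/-! FROZ: from the global chart to the structure `Glob`. -/

set_option autoImplicit false
set_option maxSynthPendingDepth 3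

open Set Filter Topology Metric
open scoped InnerProductSpace ContDiff

namespace Pool.Agent.Work.MP_3b24f6_gt.S

open Pool.Agent.Work.MP_3b24f6_gt.Froz

variable {M : Type*} [MetricSpace M]
variable {E : Type*} [NormedAddCommGroup E] [InnerProductSpace ℝ E]

/-- The global chart `e` with its metric `G` (the output of `exists_global`, plus the local
geometry at every point). -/
structure PreGlob (e : E → M) (G : E → E →L[ℝ] E →L[ℝ] ℝ) : Prop where
  bij : Function.Bijective e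
  smooth : ContDiff ℝ ∞ G
  met : MetModel M univ G e
  g_zero : ∀ u v, G 0 u v = ⟪u, v⟫_ℝ
  gauss : ∀ y w, G y y w = ⟪y, w⟫_ℝ
  ray : ∀ (x : E) (s t : ℝ), dist (e (s • x)) (e (t • x)) = |s - t| * ‖x‖
  all : ∀ γ : ℝ → M, Isometry γ → γ 0 = e 0 → ∃ v, ‖v‖ = 1 ∧ ∀ t, γ t = e (t • v)
  lin : ∀ φ : M ≃ᵢ M, φ (e 0) = e 0 → ∃ L : E ≃ₗᵢ[ℝ] E, ∀ v, φ (e v) = e (L v)
  grp : SG.IsGrp (stab e)
  trans : ∀ x y : E, ‖x‖ = ‖y‖ → ∃ a ∈ stab e, a x = y
  ax : Ax M
  loc : ∀ q : E, ∃ r ρ X W, LocGeo M univ G e q r ρ X W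

namespace PreGlob

variable {e : E → M} {G : E → E →L[ℝ] E →L[ℝ] ℝ} (H : PreGlob e G)
include H

theorem isometry {x : E} (hx : ‖x‖ = 1) : Isometry fun t : ℝ => e (t • x) := by
  refine Isometry.of_dist_eq fun s t => ?_
  rw [H.ray, hx, mul_one, Real.dist_eq]

/-- An isometry of `M` in the chart. -/
theorem exists_chart (φ : M ≃ᵢ M) : ∃ ψ ∈ isoSet e, ∀ y, e (ψ y) = φ (e y) := by
  choose ψ hψ using fun y => H.bij.2 (φ (e y))
  exact ⟨ψ, ⟨φ, hψ⟩, hψ⟩

variable [FiniteDimensional ℝ E] [ProperSpace M]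

theorem fam : IsoFam (isoSet e) G :=
  isoFam H.met H.bij.2 H.loc fun φ hφ => by
    obtain ⟨L, hL⟩ := H.lin φ hφ
    exact ⟨(L.toContinuousLinearEquiv : E →L[ℝ] E), hL⟩

theorem isIso {ψ : E → E} (hψ : ψ ∈ isoSet e) : IsIso G ψ := by
  have F := H.fam
  obtain ⟨χ, hχ, h1, h2⟩ := F.inv ψ hψ
  exact ⟨F.smooth ψ hψ, ⟨χ, F.smooth χ hχ, h2, h1⟩, F.pres ψ hψ⟩

theorem normG : NormG G where
  smooth := H.smooth
  symm := fun y u v => H.met.met.symm y (mem_univ y) u v
  pos := fun y v hv => H.met.met.pos y (mem_univ y) v hv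
  g_zero := H.g_zero
  gauss := H.gauss

omit [ProperSpace M] in
theorem exists_transl {x : E} (hx : ‖x‖ = 1) (s : ℝ) :
    ∃ φ ∈ isoSet e, ∀ t : ℝ, φ (t • x) = (t + s) • x := by
  obtain ⟨φ, hφ⟩ := H.ax.exists_translation' (f := e) (fun x hx => H.isometry hx) hx s
  obtain ⟨ψ, hψ, hψ2⟩ := H.exists_chart φ
  exact ⟨ψ, hψ, fun t => H.bij.1 (by rw [hψ2, hφ])⟩

theorem stab_pres {a : E →L[ℝ] E} (ha : a ∈ stab e) (z u v : E) :
    G (a z) (a u) (a v) = G z u v := by
  obtain ⟨φ, hφ⟩ := ha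
  have h1 : (fun y => a y) ∈ isoSet e := ⟨φ, fun y => (hφ y).symm⟩
  have h2 := H.fam.pres _ h1 z u v
  simpa only [ContinuousLinearMap.fderiv] using h2

theorem upperNear : Ray.UpperNear e G := by
  intro x₀ ε hε
  obtain ⟨δ, hδ, -, h⟩ := H.met.near x₀ (mem_univ _) ε hε
  exact ⟨δ, hδ, fun x hx y hy => (h x hx y hy).2⟩

/-- The metric on spheres is not bounded. -/
theorem unb (hE : 2 ≤ Module.finrank ℝ E) (t : ℝ) (ht : 0 < t) :
    ∃ x v : E, ‖x‖ = 1 ∧ ‖v‖ = 1 ∧ ⟪x, v⟫_ℝ = 0 ∧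
    (2 * t / Real.pi) ^ 2 ≤ G (t • x) (t • v) (t • v) := by
  -- an orthonormal pair
  obtain ⟨x1, v1, hx1, hv1, hxv1⟩ : ∃ x v : E, ‖x‖ = 1 ∧ ‖v‖ = 1 ∧ ⟪x, v⟫_ℝ = 0 := by
    let b := stdOrthonormalBasis ℝ E
    let i : Fin (Module.finrank ℝ E) := ⟨0, by omega⟩
    let j : Fin (Module.finrank ℝ E) := ⟨1, by omega⟩
    refine ⟨b i, b j, b.norm_eq_one i, b.norm_eq_one j, ?_⟩
    exact b.orthonormal.2 (by simp [i, j])
  set K : Set (E × E) := {q | ‖q.1‖ = 1 ∧ ‖q.2‖ = 1 ∧ ⟪q.1, q.2⟫_ℝ = 0} with hK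
  have hKc : IsCompact K := by
    refine Metric.isCompact_of_isClosed_isBounded ?_ ?_
    · refine (isClosed_eq (continuous_norm.comp continuous_fst) continuous_const).inter
        ((isClosed_eq (continuous_norm.comp continuous_snd) continuous_const).inter
        (isClosed_eq (continuous_fst.inner continuous_snd) continuous_const))
    · refine (Metric.isBounded_iff_subset_closedBall 0).2 ⟨1, fun q hq => ?_⟩
      rw [mem_closedBall_zero_iff, Prod.norm_def, hq.1, hq.2.1, max_self]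
  have hc : Continuous fun q : E × E => G (t • q.1) (t • q.2) (t • q.2) := by
    have h1 : Continuous fun q : E × E => G (t • q.1) :=
      H.smooth.continuous.comp (continuous_const.smul continuous_fst)
    exact (h1.clm_apply (continuous_const.smul continuous_snd)).clm_apply
      (continuous_const.smul continuous_snd)
  obtain ⟨q, hq, hmax⟩ := hKc.exists_isMaxOn ⟨(x1, v1), hx1, hv1, hxv1⟩ hc.continuousOn
  refine ⟨q.1, q.2, hq.1, hq.2.1, hq.2.2, ?_⟩
  set m := G (t • q.1) (t • q.2) (t • q.2) with hm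
  have hv0 : t • q.2 ≠ 0 := by
    intro h
    have : ‖t • q.2‖ = t := by rw [norm_smul, hq.2.1, mul_one, Real.norm_of_nonneg ht.le]
    rw [h, norm_zero] at this
    linarith
  have hm0 : 0 ≤ m := (H.normG.pos _ _ hv0).le
  have h1 := Ray.half_circle H.upperNear hq.1 hq.2.1 hq.2.2 (Real.sqrt_nonneg m) t
    (fun y w hy hw hyw => by
      rw [Real.sq_sqrt hm0]
      exact hmax (show (y, w) ∈ K from ⟨hy, hw, hyw⟩))
  rw [H.ray, hq.1, mul_one, sub_neg_eq_add, abs_of_nonneg (by linarith)] at h1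
  have h2 : 2 * t / Real.pi ≤ Real.sqrt m := by
    rw [div_le_iff₀ Real.pi_pos]
    linarith
  calc (2 * t / Real.pi) ^ 2 ≤ Real.sqrt m ^ 2 :=
        pow_le_pow_left₀ (by positivity) h2 2
    _ = m := Real.sq_sqrt hm0

theorem hom2 (hE : 2 ≤ Module.finrank ℝ E) : Hom2 G where
  norm := H.normG
  rot := by
    intro x x' hx hx'
    obtain ⟨a, ha, hax⟩ := H.trans x x' (by rw [hx, hx'])
    obtain ⟨φ, hφ⟩ := ha
    obtain ⟨L, hL⟩ := H.lin φ (by
      have := hφ 0
      rwa [map_zero] at this)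
    have haL : ∀ v, a v = L v := fun v => H.bij.1 (by rw [← hφ, hL])
    refine ⟨L, H.isIso ⟨φ, fun y => (hL y).symm⟩, by rw [← haL, hax]⟩
  trans := by
    intro x hx s
    obtain ⟨φ, hφ, h⟩ := H.exists_transl hx s
    exact ⟨φ, H.isIso hφ, h⟩
  field := fun x hx => H.fam.exists_field H.smooth fun s => H.exists_transl hx s
  rotf := by
    intro x v hx hxv
    have hx0 : x ≠ 0 := by
      intro h
      rw [h, norm_zero] at hx
      exact zero_ne_one hx
    obtain ⟨A, h1, h2, h3⟩ := H.grp.exists_skew H.trans hxv hx0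
    refine ⟨A, h1, ?_, h2⟩
    exact KLin.isKilling_of_exp H.smooth A fun s z u v => H.stab_pres (h3 s) z u v
  unb := H.unb hE

theorem glob (hE : 2 ≤ Module.finrank ℝ E) : Glob G e where
  hom := H.hom2 hE
  homeo := (H.met.homeo H.bij.2).isHomeomorph
  near := by
    intro x₀ ε hε
    obtain ⟨δ, hδ, -, h⟩ := H.met.near x₀ (mem_univ _) ε hε
    exact ⟨δ, hδ, h⟩
  dist_zero := by
    intro y
    have := H.ray y 0 1
    rw [zero_smul, one_smul] at this
    rw [this]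
    norm_num
  line := by
    intro x hx s t
    rw [H.ray, hx, mul_one]
  isom := by
    intro φ
    obtain ⟨ψ, hψ, h⟩ := H.exists_chart φ
    exact ⟨ψ, H.isIso hψ, fun y => (h y).symm⟩
  move := fun p => H.ax.move (e 0) p
  dist_smooth := by
    have C : GS.GChart M G e :=
      { met := H.met
        surj := H.bij.2
        ray := fun v hv => H.isometry hv
        line := H.all
        loc := H.loc
        tr := fun p => H.ax.move (e 0) (e p) }
    exact C.contDiff_dist_sq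

end PreGlob

end Pool.Agent.Work.MP_3b24f6_gt.S
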