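import Pool.Agent.Work.MP_3b24f6_gt.S.GlobalG
import Pool.Agent.Work.MP_3b24f6_gt.S.Stab

/-!
# S13039: glue from the global exponential map `GExp` to `exists_globalG`

Output `exists_global`: for every point `o` of a noncompact two-point homogeneous `M` (local
geometry `MetModel` and `LocGeo` at every point given) there are `e : E → M` with `e 0 = o` and a
global smooth metric `G` on `E` with `MetModel M univ G e`, `e` a diffeomorphism.
-/

set_option autoImplicit false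
set_option maxSynthPendingDepth 3

open Set Filter Metric
open scoped Topology ContDiff Manifold InnerProductSpace

namespace Pool.Agent.Work.MP_3b24f6_gt.Froz

open Pool.Agent.Work.MP_3b24f6_gt.S

section ray

variable {M : Type*} [MetricSpace M] {E : Type*} [NormedAddCommGroup E] [InnerProductSpace ℝ E]
  {ι : E → M} {p₀ : E} {ρ : ℝ} {X : E × E → E} {T : E ≃L[ℝ] E} {f : E → M}

theorem _root_.Pool.Agent.Work.MP_3b24f6_gt.S.GExp.ray (hf : GExp M ι p₀ ρ X T f) (x : E)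
    (s t : ℝ) : dist (f (s • x)) (f (t • x)) = |s - t| * ‖x‖ := by
  by_cases hx : x = 0
  · simp [hx]
  have hn : 0 < ‖x‖ := norm_pos_iff.2 hx
  have hu : ‖(‖x‖⁻¹ • x)‖ = 1 := by
    rw [norm_smul, norm_inv, norm_norm, inv_mul_cancel₀ hn.ne']
  have h1 := (hf.line _ hu).dist_eq (s * ‖x‖) (t * ‖x‖)
  simp only [smul_smul] at h1
  rw [mul_assoc, mul_assoc, mul_inv_cancel₀ hn.ne', mul_one, mul_one] at h1
  rw [h1, Real.dist_eq, ← sub_mul, abs_mul, abs_of_pos hn]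

end ray

section glue

variable {d : ℕ} {M : Type*} [MetricSpace M] [ChartedSpace (EuclideanSpace ℝ (Fin d)) M]
  [IsManifold (𝓡 d) ∞ M]

/-- the global exponential map is smooth near `0` -/
theorem gexp_smooth_zero {o : M} {g : EuclideanSpace ℝ (Fin d) → EuclideanSpace ℝ (Fin d) →L[ℝ]
      EuclideanSpace ℝ (Fin d) →L[ℝ] ℝ} {r ρ : ℝ}
    {X W : EuclideanSpace ℝ (Fin d) × EuclideanSpace ℝ (Fin d) → EuclideanSpace ℝ (Fin d)}
    {T : EuclideanSpace ℝ (Fin d) ≃L[ℝ] EuclideanSpace ℝ (Fin d)}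
    {f : EuclideanSpace ℝ (Fin d) → M}
    (hL : LocGeo M (extChartAt (𝓡 d) o).target g (extChartAt (𝓡 d) o).symm
      (extChartAt (𝓡 d) o o) r ρ X W)
    (hT : ∀ u v, g (extChartAt (𝓡 d) o o) (T u) (T v) = ⟪u, v⟫_ℝ)
    (hf : GExp M (extChartAt (𝓡 d) o).symm (extChartAt (𝓡 d) o o) ρ X T f) :
    ∀ᶠ y in 𝓝 0, ContMDiffAt 𝓘(ℝ, EuclideanSpace ℝ (Fin d)) (𝓡 d) ∞ f y := by
  have hp : extChartAt (𝓡 d) o o ∈ ball (extChartAt (𝓡 d) o o) r := mem_ball_self hL.r_pos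
  filter_upwards [ball_mem_nhds (0 : EuclideanSpace ℝ (Fin d)) hL.ρ_pos] with v hv
  have hvρ : ‖v‖ < ρ := by simpa using hv
  have hTv : gnorm g (extChartAt (𝓡 d) o o) (T v) < ρ := by
    rw [gnorm_normalising hT]; exact hvρ
  have hmem := hL.small _ hp _ hTv
  have h1 : ContDiffAt ℝ ∞ (fun w => X (extChartAt (𝓡 d) o o, T w)) v := by
    have h2 : ContDiffAt ℝ ∞ X (extChartAt (𝓡 d) o o, T v) := hL.smooth.contDiffAt
      (prod_mem_nhds (isOpen_ball.mem_nhds hp) (isOpen_ball.mem_nhds hmem))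
    exact h2.comp v (contDiffAt_const.prodMk T.contDiff.contDiffAt)
  have h2 : ContMDiffAt 𝓘(ℝ, EuclideanSpace ℝ (Fin d)) (𝓡 d) ∞ (extChartAt (𝓡 d) o).symm
      (X (extChartAt (𝓡 d) o o, T v)) :=
    (contMDiffOn_extChartAt_symm o).contMDiffAt
      ((isOpen_extChartAt_target o).mem_nhds (hL.mem _ hp _ hmem))
  have h3 : ContMDiffAt 𝓘(ℝ, EuclideanSpace ℝ (Fin d)) (𝓡 d) ∞
      (fun w => (extChartAt (𝓡 d) o).symm (X (extChartAt (𝓡 d) o o, T w))) v :=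
    ContMDiffAt.comp (g := (extChartAt (𝓡 d) o).symm)
      (f := fun w => X (extChartAt (𝓡 d) o o, T w)) v h2 (contMDiffAt_iff_contDiffAt.2 h1)
  refine h3.congr_of_eventuallyEq ?_
  filter_upwards [isOpen_ball.mem_nhds hv] with w hw
  exact hf.near w (by simpa using hw)

/-- `M` is `(E, G)`: the complete output of blocks A, B2, B3, B5. -/
theorem exists_global [ProperSpace M] [NoncompactSpace M] (hI : S.Inter M) (h2 : S.TwoPt M)
    (hmod : ∀ q : M, ∃ g, MetModel M (extChartAt (𝓡 d) q).target g (extChartAt (𝓡 d) q).symm ∧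
      ∃ r ρ X W, LocGeo M (extChartAt (𝓡 d) q).target g (extChartAt (𝓡 d) q).symm
        (extChartAt (𝓡 d) q q) r ρ X W) (o : M) :
    ∃ (e : EuclideanSpace ℝ (Fin d) → M) (hbij : Function.Bijective e)
      (G : EuclideanSpace ℝ (Fin d) → EuclideanSpace ℝ (Fin d) →L[ℝ]
        EuclideanSpace ℝ (Fin d) →L[ℝ] ℝ),
      e 0 = o ∧ ContMDiff 𝓘(ℝ, EuclideanSpace ℝ (Fin d)) (𝓡 d) ∞ e ∧
      ContMDiff (𝓡 d) 𝓘(ℝ, EuclideanSpace ℝ (Fin d)) ∞ (Equiv.ofBijective e hbij).symm ∧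
      ContDiff ℝ ∞ G ∧ MetModel M univ G e ∧ (∀ u v, G 0 u v = ⟪u, v⟫_ℝ) ∧
      (∀ y w, G y y w = ⟪y, w⟫_ℝ) ∧
      (∀ (x : EuclideanSpace ℝ (Fin d)) (s t : ℝ),
        dist (e (s • x)) (e (t • x)) = |s - t| * ‖x‖) ∧
      (∀ γ : ℝ → M, Isometry γ → γ 0 = o → ∃ v, ‖v‖ = 1 ∧ ∀ t, γ t = e (t • v)) ∧
      (∀ φ : M ≃ᵢ M, φ o = o → ∃ L : EuclideanSpace ℝ (Fin d) ≃ₗᵢ[ℝ] EuclideanSpace ℝ (Fin d),
        ∀ v, φ (e v) = e (L v)) ∧
      SG.IsGrp (stab e) ∧ (∀ x y, ‖x‖ = ‖y‖ → ∃ a ∈ stab e, a x = y) ∧ Ax M := by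
  obtain ⟨g, hM, r, ρ, X, W, hL⟩ := hmod o
  obtain ⟨A, T, hT, f, hf⟩ := exists_gexp hI h2 hM hL
  have hcont : Continuous f := hf.continuous A hM hL hT
  have hιo : (extChartAt (𝓡 d) o).symm (extChartAt (𝓡 d) o o) = o := extChartAt_to_inv o
  have hray := hf.ray
  have hsm : ContMDiff 𝓘(ℝ, EuclideanSpace ℝ (Fin d)) (𝓡 d) ∞ f := by
    refine smooth_of_ray hray (fun q => ?_) (gexp_smooth_zero hL hT hf)
    obtain ⟨g', -, r', ρ', X', W', hL'⟩ := hmod q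
    exact ⟨g', r', ρ', X', W', hL'⟩
  have hmod' : ∀ q : M, ∃ g, MetModel M (extChartAt (𝓡 d) q).target g
      (extChartAt (𝓡 d) q).symm := fun q => by
    obtain ⟨g', hM', -⟩ := hmod q
    exact ⟨g', hM'⟩
  obtain ⟨G, hG1, hG2, hG3, hG4, hG5⟩ := exists_globalG hmod' hsm hf.bij hray (by
    intro x v hx hxv
    obtain ⟨B, -, hB, hB'⟩ := hf.exists_skew h2 hcont hx hxv
    refine ⟨B, hB, fun s y z => ?_⟩
    obtain ⟨φ, hφ⟩ := hB' s
    rw [← hφ, ← hφ, φ.dist_eq])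
  refine ⟨f, hf.bij, G, by rw [hf.zero, hιo], hsm, hG5, hG1, hG2, hG3, hG4, hray, ?_, ?_,
    hf.isGrp hcont, hf.trans h2, A⟩
  · intro γ hγ h0
    exact hf.all γ hγ (by rw [h0, hιo])
  · intro φ hφ
    exact hf.lin φ (by rw [hιo, hφ])

end glue

end Pool.Agent.Work.MP_3b24f6_gt.Froz
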