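import Pool.Agent.Work.MP_3b24f6_gt.S.ExpSmooth
import Pool.Agent.Work.MP_3b24f6_gt.S.ExpImm
import Pool.Agent.Work.MP_3b24f6_gt.S.Chart
import Pool.Agent.Work.MP_3b24f6_gt.S.AxOf

/-!
# S13039, blocks B3 + B5: `M = (E, G)`

The global exponential map `e : E → M` is a smooth diffeomorphism, and `M` is the vector space `E`
with the length distance of a global smooth Riemannian metric `G`: `MetModel M univ G e`.
-/

set_option autoImplicit false
set_option maxSynthPendingDepth 3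

open Set Filter Metric
open scoped Topology ContDiff Manifold InnerProductSpace

namespace Pool.Agent.Work.MP_3b24f6_gt.Froz

open Pool.Agent.MP_3b24f6_gt.S (Psd MetAt pull pull_apply gauss_of_metAt pos_of_metAt sqrt_radial)

section nearAt

variable {E : Type*} [NormedAddCommGroup E] [NormedSpace ℝ E] {M : Type*} [MetricSpace M]
  {U : Set E} {g : E → E →L[ℝ] E →L[ℝ] ℝ} {ι : E → M}

theorem RMet.psd (h : RMet U g) {y : E} (hy : y ∈ U) : Psd (g y) :=
  ⟨h.symm y hy, fun u => by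
    by_cases hu : u = 0
    · simp [hu]
    · exact (h.pos y hy u hu).le⟩

theorem MetModel.metAt (h : MetModel M U g ι) {y : E} (hy : y ∈ U) :
    MetAt (fun x z => dist (ι x) (ι z)) y (g y) := by
  apply MetAt.of_mul
  intro ε hε
  obtain ⟨δ, hδ, -, h1⟩ := h.near y hy ε hε
  exact ⟨δ, hδ, fun x hx z hz => h1 x hx z hz⟩

/-- assembling a global model -/
theorem metModel_univ [FiniteDimensional ℝ E] {G : E → E →L[ℝ] E →L[ℝ] ℝ} {e : E → M}
    (hG : ContDiff ℝ ∞ G) (hs : ∀ y u v, G y u v = G y v u) (hp : ∀ y u, u ≠ 0 → 0 < G y u u)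
    (hM : ∀ y, MetAt (fun x z => dist (e x) (e z)) y (G y))
    (hinj : Function.Injective e) (hc : Continuous e) (ho : IsOpenMap e) (hch : ChainLen M) :
    MetModel M univ G e where
  met := ⟨isOpen_univ, hG.contDiffOn, fun y _ => hs y, fun y _ => hp y⟩
  inj := hinj.injOn
  cont := hc.continuousOn
  isOpen_image := fun V _ hV => ho V hV
  near := fun x₀ _ ε hε => by
    obtain ⟨m, hm, hm'⟩ := ChartA.exists_lower_bilin (G x₀) (hp x₀)
    have hlow : ∀ u, √m * ‖u‖ ≤ √(G x₀ u u) := by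
      intro u
      rw [← Real.sqrt_sq (norm_nonneg u), ← Real.sqrt_mul hm.le]
      exact Real.sqrt_le_sqrt (hm' u)
    obtain ⟨δ, hδ, h1⟩ := (hM x₀).mul (Real.sqrt_pos.2 hm) hlow ε hε
    exact ⟨δ, hδ, subset_univ _, fun x hx y hy => h1 x hx y hy⟩
  chain := hch

end nearAt

section global

variable {d : ℕ} {M : Type*} [MetricSpace M] [ChartedSpace (EuclideanSpace ℝ (Fin d)) M]
  [IsManifold (𝓡 d) ∞ M] {e : EuclideanSpace ℝ (Fin d) → M}

/-- the map in a chart -/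
theorem contDiffAt_chart (he : ContMDiff 𝓘(ℝ, EuclideanSpace ℝ (Fin d)) (𝓡 d) ∞ e) (q : M)
    {y : EuclideanSpace ℝ (Fin d)} (hy : e y ∈ (extChartAt (𝓡 d) q).source) :
    ContDiffAt ℝ ∞ (fun x => extChartAt (𝓡 d) q (e x)) y := by
  rw [← contMDiffAt_iff_contDiffAt]
  have h1 : ContMDiffAt (𝓡 d) 𝓘(ℝ, EuclideanSpace ℝ (Fin d)) ∞ (extChartAt (𝓡 d) q) (e y) :=
    contMDiffAt_extChartAt' (by rwa [← extChartAt_source (𝓡 d)])
  exact h1.comp y (he y)

/-- the pulled back metric in the chart at `q` is the infinitesimal form of the distance -/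
theorem metAt_pull (he : ContMDiff 𝓘(ℝ, EuclideanSpace ℝ (Fin d)) (𝓡 d) ∞ e) (q : M)
    {g : EuclideanSpace ℝ (Fin d) → EuclideanSpace ℝ (Fin d) →L[ℝ]
      EuclideanSpace ℝ (Fin d) →L[ℝ] ℝ}
    (hg : MetModel M (extChartAt (𝓡 d) q).target g (extChartAt (𝓡 d) q).symm)
    {y : EuclideanSpace ℝ (Fin d)} (hy : e y ∈ (extChartAt (𝓡 d) q).source) :
    MetAt (fun x z => dist (e x) (e z)) y
      (pull (g (extChartAt (𝓡 d) q (e y))) (fderiv ℝ (fun x => extChartAt (𝓡 d) q (e x)) y)) := by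
  have hψ := contDiffAt_chart he q hy
  have ht : extChartAt (𝓡 d) q (e y) ∈ (extChartAt (𝓡 d) q).target :=
    (extChartAt (𝓡 d) q).map_source hy
  have h1 := (hg.metAt ht).comp (ψ := fun x => extChartAt (𝓡 d) q (e x)) (hg.met.psd ht)
    (hψ.hasStrictFDerivAt (by simp))
  have hs : {x | e x ∈ (extChartAt (𝓡 d) q).source} ∈ 𝓝 y :=
    he.continuous.continuousAt.preimage_mem_nhds
      ((isOpen_extChartAt_source q).mem_nhds hy)
  refine h1.congr hs fun x hx z hz => ?_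
  rw [(extChartAt (𝓡 d) q).left_inv hx, (extChartAt (𝓡 d) q).left_inv hz]

/-- `M = (E, G)`. -/
theorem exists_globalG
    (hmod : ∀ q : M, ∃ g, MetModel M (extChartAt (𝓡 d) q).target g (extChartAt (𝓡 d) q).symm)
    (he : ContMDiff 𝓘(ℝ, EuclideanSpace ℝ (Fin d)) (𝓡 d) ∞ e)
    (hbij : Function.Bijective e)
    (hray : ∀ (x : EuclideanSpace ℝ (Fin d)) (s t : ℝ),
      dist (e (s • x)) (e (t • x)) = |s - t| * ‖x‖)
    (hskew : ∀ x v : EuclideanSpace ℝ (Fin d), x ≠ 0 → ⟪x, v⟫_ℝ = 0 →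
      ∃ A : EuclideanSpace ℝ (Fin d) →L[ℝ] EuclideanSpace ℝ (Fin d), A x = v ∧
      ∀ (s : ℝ) (y z : EuclideanSpace ℝ (Fin d)),
        dist (e (NormedSpace.exp (s • A) y)) (e (NormedSpace.exp (s • A) z)) = dist (e y) (e z)) :
    ∃ G : EuclideanSpace ℝ (Fin d) → EuclideanSpace ℝ (Fin d) →L[ℝ]
      EuclideanSpace ℝ (Fin d) →L[ℝ] ℝ,
      ContDiff ℝ ∞ G ∧ MetModel M univ G e ∧ (∀ u v, G 0 u v = ⟪u, v⟫_ℝ) ∧
      (∀ y w, G y y w = ⟪y, w⟫_ℝ) ∧
      ContMDiff (𝓡 d) 𝓘(ℝ, EuclideanSpace ℝ (Fin d)) ∞ (Equiv.ofBijective e hbij).symm := by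
  classical
  choose g hg using hmod
  set G : EuclideanSpace ℝ (Fin d) → EuclideanSpace ℝ (Fin d) →L[ℝ]
      EuclideanSpace ℝ (Fin d) →L[ℝ] ℝ := fun y =>
    pull (g (e y) (extChartAt (𝓡 d) (e y) (e y)))
      (fderiv ℝ (fun x => extChartAt (𝓡 d) (e y) (e x)) y) with hG
  have hsrc : ∀ q : M, q ∈ (extChartAt (𝓡 d) q).source := fun q => mem_extChartAt_source q
  have htgt : ∀ q : M, extChartAt (𝓡 d) q q ∈ (extChartAt (𝓡 d) q).target :=
    fun q => mem_extChartAt_target q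
  have hMet : ∀ y, MetAt (fun x z => dist (e x) (e z)) y (G y) := fun y =>
    metAt_pull he (e y) (hg (e y)) (hsrc (e y))
  have hPsd : ∀ y, Psd (G y) := fun y => ((hg (e y)).met.psd (htgt (e y))).pull _
  -- local formula
  have hloc : ∀ y₀, ∀ᶠ y in 𝓝 y₀, G y =
      pull (g (e y₀) (extChartAt (𝓡 d) (e y₀) (e y)))
        (fderiv ℝ (fun x => extChartAt (𝓡 d) (e y₀) (e x)) y) := by
    intro y₀
    have hs : {x | e x ∈ (extChartAt (𝓡 d) (e y₀)).source} ∈ 𝓝 y₀ :=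
      he.continuous.continuousAt.preimage_mem_nhds
        ((isOpen_extChartAt_source (e y₀)).mem_nhds (hsrc _))
    filter_upwards [hs] with y hy
    refine (hMet y).unique (metAt_pull he (e y₀) (hg (e y₀)) hy) (hPsd y)
      (((hg (e y₀)).met.psd ?_).pull _)
    exact (extChartAt (𝓡 d) (e y₀)).map_source hy
  have hsm : ContDiff ℝ ∞ G := by
    rw [contDiff_iff_contDiffAt]
    intro y₀
    refine ContDiffAt.congr_of_eventuallyEq ?_ (hloc y₀)
    have hψ := contDiffAt_chart he (e y₀) (hsrc (e y₀))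
    have h1 : ContDiffAt ℝ ∞ (g (e y₀)) (extChartAt (𝓡 d) (e y₀) (e y₀)) :=
      (hg (e y₀)).met.smooth.contDiffAt ((hg (e y₀)).met.isOpen.mem_nhds (htgt _))
    have h2 : ContDiffAt ℝ ∞ (fun y => g (e y₀) (extChartAt (𝓡 d) (e y₀) (e y))) y₀ :=
      h1.comp y₀ hψ
    have h3 : ContDiffAt ℝ ∞ (fun y => fderiv ℝ (fun x => extChartAt (𝓡 d) (e y₀) (e x)) y) y₀ :=
      hψ.fderiv_right (m := ∞) (by simp)
    have h4 : ContDiffAt ℝ ∞ (fun y => (ContinuousLinearMap.compL ℝ (EuclideanSpace ℝ (Fin d))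
        (EuclideanSpace ℝ (Fin d)) ℝ).flip
        (fderiv ℝ (fun x => extChartAt (𝓡 d) (e y₀) (e x)) y)) y₀ :=
      (ContinuousLinearMap.contDiff _).contDiffAt.comp y₀ h3
    exact h4.clm_comp (h2.clm_comp h3)
  -- the origin
  have h0' : ∀ u, √(G 0 u u) = ‖u‖ := by
    intro u
    have hl : ∀ᶠ t : ℝ in 𝓝[>] 0, 0 < t := eventually_mem_nhdsWithin
    have h1 := (hMet 0).tendsto hl (Pool.Agent.MP_3b24f6_gt.S.tendsto_line 0 u)
      tendsto_const_nhds (Pool.Agent.MP_3b24f6_gt.S.tendsto_quot 0 u)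
    refine (tendsto_nhds_unique (tendsto_const_nhds.congr' ?_) h1).symm
    filter_upwards [hl] with t ht
    have h2 := hray u t 0
    rw [sub_zero, zero_smul, abs_of_pos ht] at h2
    rw [zero_add, h2, ← mul_assoc, inv_mul_cancel₀ ht.ne', one_mul]
  have hI : Psd (innerSL ℝ (E := EuclideanSpace ℝ (Fin d))) :=
    ⟨fun u v => real_inner_comm v u, fun u => by
      change 0 ≤ ⟪u, u⟫_ℝ
      exact real_inner_self_nonneg⟩
  have h0 : G 0 = innerSL ℝ := by
    apply (hPsd 0).ext_of_sqrt hI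
    intro u
    rw [h0' u]
    change ‖u‖ = √⟪u, u⟫_ℝ
    rw [real_inner_self_eq_norm_sq, Real.sqrt_sq (norm_nonneg u)]
  have hpos : ∀ y u, u ≠ 0 → 0 < G y u u := by
    intro y u hu
    by_cases hy : y = 0
    · rw [hy, h0]
      exact real_inner_self_pos.2 hu
    · exact pos_of_metAt hbij.1 hray hskew hy (hPsd y) (hMet y) hu
  -- the inverse is smooth
  have hinv : ContMDiff (𝓡 d) 𝓘(ℝ, EuclideanSpace ℝ (Fin d)) ∞
      (Equiv.ofBijective e hbij).symm := by
    intro q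
    obtain ⟨y₀, hy₀⟩ := hbij.2 q
    subst hy₀
    set k := extChartAt (𝓡 d) (e y₀) with hk
    set ψ : EuclideanSpace ℝ (Fin d) → EuclideanSpace ℝ (Fin d) := fun x => k (e x) with hψdef
    have hψ : ContDiffAt ℝ ∞ ψ y₀ := contDiffAt_chart he (e y₀) (hsrc (e y₀))
    have hinj : Function.Injective (fderiv ℝ ψ y₀) := by
      rw [injective_iff_map_eq_zero]
      intro w hw
      by_contra hw0
      have h1 := hpos y₀ w hw0
      have h2 : G y₀ w w = g (e y₀) (k (e y₀)) (fderiv ℝ ψ y₀ w) (fderiv ℝ ψ y₀ w) := rfl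
      rw [h2, hw, map_zero] at h1
      exact lt_irrefl _ h1
    let A : EuclideanSpace ℝ (Fin d) ≃L[ℝ] EuclideanSpace ℝ (Fin d) :=
      (LinearEquiv.ofInjectiveEndo (fderiv ℝ ψ y₀ : EuclideanSpace ℝ (Fin d) →ₗ[ℝ]
        EuclideanSpace ℝ (Fin d)) hinj).toContinuousLinearEquiv
    have hA : (A : EuclideanSpace ℝ (Fin d) →L[ℝ] EuclideanSpace ℝ (Fin d)) = fderiv ℝ ψ y₀ := by
      ext x : 1; rfl
    have hd : HasFDerivAt ψ (A : EuclideanSpace ℝ (Fin d) →L[ℝ] EuclideanSpace ℝ (Fin d)) y₀ := by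
      rw [hA]; exact (hψ.differentiableAt (by simp)).hasFDerivAt
    have hn : (∞ : ℕ∞ω) ≠ 0 := by simp
    set χ := hψ.localInverse hd hn with hχ
    have hχs : ContDiffAt ℝ ∞ χ (ψ y₀) := hψ.to_localInverse hd hn
    have hχ0 : χ (ψ y₀) = y₀ := hψ.localInverse_apply_image hd hn
    have hright : ∀ᶠ z in 𝓝 (ψ y₀), ψ (χ z) = z :=
      (hψ.hasStrictFDerivAt' hd hn).eventually_right_inverse
    have hsrc' : ∀ᶠ z in 𝓝 (ψ y₀), e (χ z) ∈ k.source := by
      have h1 : ContinuousAt (fun z => e (χ z)) (ψ y₀) :=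
        ContinuousAt.comp (f := χ) (g := e) he.continuous.continuousAt hχs.continuousAt
      apply h1.preimage_mem_nhds
      rw [hχ0]
      exact (isOpen_extChartAt_source (e y₀)).mem_nhds (hsrc _)
    have hev : ∀ᶠ m in 𝓝 (e y₀), (Equiv.ofBijective e hbij).symm m = χ (k m) := by
      have hc : Tendsto k (𝓝 (e y₀)) (𝓝 (ψ y₀)) := continuousAt_extChartAt (I := 𝓡 d) (e y₀)
      filter_upwards [hc.eventually (hright.and hsrc'),
        extChartAt_source_mem_nhds (I := 𝓡 d) (e y₀)] with m hm hm'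
      rw [Equiv.symm_apply_eq]
      have h1 : k (e (χ (k m))) = k m := hm.1
      exact (k.injOn hm.2 hm' h1).symm
    refine ContMDiffAt.congr_of_eventuallyEq ?_ hev
    have hks : ContMDiffAt (𝓡 d) 𝓘(ℝ, EuclideanSpace ℝ (Fin d)) ∞ k (e y₀) :=
      contMDiffAt_extChartAt
    exact ContMDiffAt.comp (e y₀) (contMDiffAt_iff_contDiffAt.2 hχs) hks
  have ho : IsOpenMap e := by
    have h1 : Continuous (Equiv.ofBijective e hbij).symm := hinv.continuous
    intro V hV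
    have h2 : e '' V = (Equiv.ofBijective e hbij).symm ⁻¹' V := by
      ext m
      constructor
      · rintro ⟨x, hx, rfl⟩
        rw [mem_preimage]
        have : (Equiv.ofBijective e hbij).symm (e x) = x :=
          (Equiv.ofBijective e hbij).symm_apply_apply x
        rwa [this]
      · intro hm
        exact ⟨_, hm, (Equiv.ofBijective e hbij).apply_symm_apply m⟩
    rw [h2]
    exact hV.preimage h1
  refine ⟨G, hsm, metModel_univ hsm (fun y => (hPsd y).symm) hpos hMet hbij.1 he.continuous ho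
    (hg (e 0)).chain, fun u v => ?_, fun y w => gauss_of_metAt hray (hPsd y) (hMet y) w, hinv⟩
  rw [h0]; rfl

end global

end Pool.Agent.Work.MP_3b24f6_gt.Froz
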