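import Pool.Agent.Work.MP_3b24f6_gt.S.ModelA

set_option autoImplicit false

open MeasureTheory Set Filter Topology
open scoped ContDiff

/-! Isometries are linear in exponential coordinates (Myers-Steenrod), from `LocGeo`. -/

namespace Pool.Agent.Work.MP_3b24f6_gt.Froz

noncomputable section

namespace Iso

section gn
variable {E : Type*} [NormedAddCommGroup E] [NormedSpace ℝ E]
  {U : Set E} {g : E → E →L[ℝ] E →L[ℝ] ℝ}

theorem gn_smul (g : E → E →L[ℝ] E →L[ℝ] ℝ) (y v : E) (c : ℝ) :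
    gnorm g y (c • v) = |c| * gnorm g y v := by
  unfold gnorm
  have : g y (c • v) (c • v) = c ^ 2 * g y v v := by
    simp only [map_smul, ContinuousLinearMap.smul_apply, smul_eq_mul]
    ring
  rw [this, Real.sqrt_mul (sq_nonneg c), Real.sqrt_sq_eq_abs]

theorem gn_zero (g : E → E →L[ℝ] E →L[ℝ] ℝ) (y : E) : gnorm g y 0 = 0 := by
  unfold gnorm; simp

theorem gn_nonneg (g : E → E →L[ℝ] E →L[ℝ] ℝ) (y v : E) : 0 ≤ gnorm g y v := Real.sqrt_nonneg _

theorem g_self_nonneg (hg : RMet U g) {y : E} (hy : y ∈ U) (v : E) : 0 ≤ g y v v := by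
  by_cases hv : v = 0
  · simp [hv]
  · exact (hg.pos y hy v hv).le

theorem gn_sq (hg : RMet U g) {y : E} (hy : y ∈ U) (v : E) : gnorm g y v ^ 2 = g y v v :=
  Real.sq_sqrt (g_self_nonneg hg hy v)

theorem eq_zero_of_g (hg : RMet U g) {y : E} (hy : y ∈ U) {v : E} (h : g y v v = 0) : v = 0 := by
  by_contra hv
  exact (hg.pos y hy v hv).ne' h

theorem eq_zero_of_gn (hg : RMet U g) {y : E} (hy : y ∈ U) {v : E} (h : gnorm g y v = 0) :
    v = 0 := eq_zero_of_g hg hy (by rw [← gn_sq hg hy, h]; simp)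

theorem g_sub_self (hg : RMet U g) {y : E} (hy : y ∈ U) (u v : E) :
    g y (u - v) (u - v) = g y u u - 2 * g y u v + g y v v := by
  simp only [map_sub, ContinuousLinearMap.sub_apply]
  rw [hg.symm y hy v u]
  ring

end gn

section lin
variable {E : Type*} [NormedAddCommGroup E] [NormedSpace ℝ E] [FiniteDimensional ℝ E]

/-- A map that preserves positive bilinear forms is linear. -/
theorem exists_linear {B B' : E →L[ℝ] E →L[ℝ] ℝ} (hs' : ∀ u v, B' u v = B' v u)
    (hp : ∀ u, u ≠ 0 → 0 < B u u) (hp' : ∀ u, u ≠ 0 → 0 < B' u u) (T : E → E)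
    (hT : ∀ u v, B' (T u) (T v) = B u v) :
    ∃ L : E ≃L[ℝ] E, ∀ v, L v = T v := by
  have zero' : ∀ u, B' u u = 0 → u = 0 := fun u h => by
    by_contra hu; exact (hp' u hu).ne' h
  have hadd : ∀ u v, T (u + v) = T u + T v := by
    intro u v
    rw [← sub_eq_zero]
    apply zero'
    have e : B' (T (u + v) - (T u + T v)) (T (u + v) - (T u + T v)) =
        B' (T (u + v)) (T (u + v)) + B' (T u) (T u) + B' (T v) (T v)
          - 2 * B' (T (u + v)) (T u) - 2 * B' (T (u + v)) (T v) + 2 * B' (T u) (T v) := by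
      simp only [map_sub, map_add, ContinuousLinearMap.sub_apply, ContinuousLinearMap.add_apply]
      rw [hs' (T u) (T (u + v)), hs' (T v) (T (u + v)), hs' (T v) (T u)]
      ring
    rw [e, hT, hT, hT, hT, hT, hT]
    have hs : B v u = B u v := by rw [← hT, ← hT, hs']
    simp only [map_add, ContinuousLinearMap.add_apply]
    rw [hs]
    ring
  have hsmul : ∀ (c : ℝ) u, T (c • u) = c • T u := by
    intro c u
    rw [← sub_eq_zero]
    apply zero'
    have e : B' (T (c • u) - c • T u) (T (c • u) - c • T u) =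
        B' (T (c • u)) (T (c • u)) - 2 * c * B' (T (c • u)) (T u) + c ^ 2 * B' (T u) (T u) := by
      simp only [map_sub, map_smul, ContinuousLinearMap.sub_apply,
        ContinuousLinearMap.smul_apply, smul_eq_mul]
      rw [hs' (T u) (T (c • u))]
      ring
    rw [e, hT, hT, hT]
    simp only [map_smul, ContinuousLinearMap.smul_apply, smul_eq_mul]
    ring
  let L₀ : E →ₗ[ℝ] E := { toFun := T, map_add' := hadd, map_smul' := hsmul }
  have hinj : Function.Injective L₀ := by
    rw [injective_iff_map_eq_zero]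
    intro u hu
    by_contra hne
    have h1 : B' (T u) (T u) = B u u := hT u u
    have h2 : T u = 0 := hu
    rw [h2] at h1
    simp only [map_zero] at h1
    exact (hp u hne).ne h1
  refine ⟨(LinearEquiv.ofInjectiveEndo L₀ hinj).toContinuousLinearEquiv, fun v => ?_⟩
  rfl

end lin

end Iso

open Iso

section main
variable {E : Type*} [NormedAddCommGroup E] [NormedSpace ℝ E] [FiniteDimensional ℝ E]
  {M : Type*} [MetricSpace M]
  {U : Set E} {g : E → E →L[ℝ] E →L[ℝ] ℝ} {ι : E → M} {p₀ : E} {r ρ : ℝ} {X W : E × E → E}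
  {U' : Set E} {g' : E → E →L[ℝ] E →L[ℝ] ℝ} {ι' : E → M} {q₀ : E} {r' ρ' : ℝ} {X' W' : E × E → E}

theorem LocGeo.dist_exp (h : LocGeo M U g ι p₀ r ρ X W) {p : E} (hp : p ∈ Metric.ball p₀ r)
    {v : E} (hv : gnorm g p v < ρ) : dist (ι p) (ι (X (p, v))) = gnorm g p v := by
  have := h.dist_geod p hp v hv 0 (by simp) 1 (by simp)
  rw [zero_smul, one_smul, h.zero p hp] at this
  simpa using this

theorem LocGeo.exp_inj (hM : MetModel M U g ι) (h : LocGeo M U g ι p₀ r ρ X W) {p : E}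
    (hp : p ∈ Metric.ball p₀ r) {v w : E} (hv : gnorm g p v < ρ) (hw : gnorm g p w < ρ)
    (he : ι (X (p, v)) = ι (X (p, w))) : v = w := by
  have h1 := hM.inj (h.mem p hp v (h.small p hp v hv)) (h.mem p hp w (h.small p hp w hw)) he
  rw [← h.inv_left p hp v hv, h1, h.inv_left p hp w hw]

/-- **Isometries are linear in exponential coordinates.** -/
theorem LocGeo.isom (hM : MetModel M U g ι) (h : LocGeo M U g ι p₀ r ρ X W)
    (hM' : MetModel M U' g' ι') (h' : LocGeo M U' g' ι' q₀ r' ρ' X' W') (φ : M → M)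
    (hφ : Isometry φ) {p q : E} (hp : p ∈ Metric.ball p₀ r) (hq : q ∈ Metric.ball q₀ r')
    (hpq : φ (ι p) = ι' q) :
    ∃ L : E ≃L[ℝ] E, (∀ u v, g' q (L u) (L v) = g p u v) ∧
      ∀ v, gnorm g p v < min ρ ρ' → φ (ι (X (p, v))) = ι' (X' (q, L v)) := by
  have hpU := h.base hp
  have hqU := h'.base hq
  set ρ₀ := min ρ ρ' with hρ₀
  have hρpos : 0 < ρ₀ := lt_min h.ρ_pos h'.ρ_pos
  have ex : ∀ v, gnorm g p v < ρ₀ → ∃ v', gnorm g' q v' < ρ' ∧
      ι' (X' (q, v')) = φ (ι (X (p, v))) := by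
    intro v hv
    apply h'.surj q hq
    rw [← hpq, hφ.dist_eq, h.dist_exp hp (hv.trans_le (min_le_left _ _))]
    exact hv.trans_le (min_le_right _ _)
  classical
  let T : E → E := fun v => if hv : gnorm g p v < ρ₀ then (ex v hv).choose else 0
  have hT1 : ∀ v, gnorm g p v < ρ₀ → gnorm g' q (T v) < ρ' := by
    intro v hv
    simp only [T, dif_pos hv]
    exact (ex v hv).choose_spec.1
  have hT2 : ∀ v, gnorm g p v < ρ₀ → ι' (X' (q, T v)) = φ (ι (X (p, v))) := by
    intro v hv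
    simp only [T, dif_pos hv]
    exact (ex v hv).choose_spec.2
  have hTn : ∀ v, gnorm g p v < ρ₀ → gnorm g' q (T v) = gnorm g p v := by
    intro v hv
    rw [← h'.dist_exp hq (hT1 v hv), hT2 v hv, ← hpq, hφ.dist_eq,
      h.dist_exp hp (hv.trans_le (min_le_left _ _))]
  have hsm : ∀ v, gnorm g p v < ρ₀ → ∀ s ∈ Icc (0 : ℝ) 1, gnorm g p (s • v) < ρ₀ := by
    intro v hv s hs
    rw [gn_smul, abs_of_nonneg hs.1]
    have := gn_nonneg g p v
    nlinarith [hs.2]
  have hTs : ∀ v, gnorm g p v < ρ₀ → ∀ s ∈ Icc (0 : ℝ) 1, T (s • v) = s • T v := by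
    intro v hv s hs
    have hsv := hsm v hv s hs
    by_cases h0 : gnorm g p v = 0
    · have hv0 : v = 0 := eq_zero_of_gn hM.met hpU h0
      have hT0 : T v = 0 := eq_zero_of_gn hM'.met hqU (by rw [hTn v hv, h0])
      have hsv0 : s • v = v := by rw [hv0, smul_zero]
      have hT0' : T (s • v) = 0 := by rw [hsv0]; exact hT0
      rw [hT0, hT0', smul_zero]
    · have hpos : 0 < gnorm g p v := lt_of_le_of_ne (gn_nonneg g p v) (Ne.symm h0)
      have hvρ : gnorm g p v < ρ := hv.trans_le (min_le_left _ _)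
      have d1 : dist (ι' q) (φ (ι (X (p, s • v)))) = s * gnorm g p v := by
        rw [← hpq, hφ.dist_eq, h.dist_exp hp (hsv.trans_le (min_le_left _ _)), gn_smul,
          abs_of_nonneg hs.1]
      have d2 : dist (φ (ι (X (p, s • v)))) (ι' (X' (q, T v))) = (1 - s) * gnorm g p v := by
        rw [hT2 v hv, hφ.dist_eq]
        have := h.dist_geod p hp v hvρ s ⟨by linarith [hs.1], hs.2⟩ 1 (by simp)
        rw [one_smul] at this
        rw [this, abs_sub_comm, abs_of_nonneg (by linarith [hs.2])]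
      obtain ⟨s', hs', hz⟩ := h'.between q hq (T v) (hT1 v hv) (φ (ι (X (p, s • v))))
        (by rw [d1, d2, hTn v hv]; ring)
      have hTv' : gnorm g' q (s' • T v) < ρ' := by
        rw [gn_smul, abs_of_nonneg hs'.1, hTn v hv]
        have h3 : gnorm g p v < ρ' := hv.trans_le (min_le_right _ _)
        nlinarith [hs'.2, gn_nonneg g p v]
      have d3 : dist (ι' q) (φ (ι (X (p, s • v)))) = s' * gnorm g p v := by
        rw [hz, h'.dist_exp hq hTv', gn_smul, abs_of_nonneg hs'.1, hTn v hv]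
      have hss : s' = s := by
        rw [d1] at d3
        exact (mul_right_cancel₀ hpos.ne' d3).symm
      rw [hss] at hz hTv'
      exact h'.exp_inj hM' hq (hT1 _ hsv) hTv' ((hT2 _ hsv).trans hz)
  -- distances
  have hTd : ∀ v w, gnorm g p v < ρ₀ → gnorm g p w < ρ₀ →
      gnorm g' q (T v - T w) = gnorm g p (v - w) := by
    intro v w hv hw
    have l1 := h.inf p hp v w
    have l2 := h'.inf q hq (T v) (T w)
    refine tendsto_nhds_unique l2 (l1.congr' ?_)
    have : ∀ᶠ t : ℝ in 𝓝[>] 0, t ∈ Ioc (0 : ℝ) 1 :=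
      Ioc_mem_nhdsGT one_pos
    filter_upwards [this] with t ht
    have ht' : t ∈ Icc (0 : ℝ) 1 := ⟨ht.1.le, ht.2⟩
    rw [← hTs v hv t ht', ← hTs w hw t ht', hT2 _ (hsm v hv t ht'), hT2 _ (hsm w hw t ht'),
      hφ.dist_eq]
  have hTg : ∀ v w, gnorm g p v < ρ₀ → gnorm g p w < ρ₀ → g' q (T v) (T w) = g p v w := by
    intro v w hv hw
    have e1 := g_sub_self hM.met hpU v w
    have e2 := g_sub_self hM'.met hqU (T v) (T w)
    rw [← gn_sq hM.met hpU, ← gn_sq hM.met hpU v, ← gn_sq hM.met hpU w] at e1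
    rw [← gn_sq hM'.met hqU, ← gn_sq hM'.met hqU (T v), ← gn_sq hM'.met hqU (T w), hTd v w hv hw,
      hTn v hv, hTn w hw] at e2
    linarith
  -- extension
  let c : E → ℝ := fun v => ρ₀ / (2 * (gnorm g p v + 1))
  have hc0 : ∀ v, 0 < c v := fun v => by
    have := gn_nonneg g p v
    simp only [c]
    positivity
  have hcv : ∀ v, gnorm g p (c v • v) < ρ₀ := by
    intro v
    have h0 := gn_nonneg g p v
    rw [gn_smul, abs_of_pos (hc0 v)]
    simp only [c]
    rw [div_mul_eq_mul_div, div_lt_iff₀ (by positivity)]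
    nlinarith
  let T' : E → E := fun v => (c v)⁻¹ • T (c v • v)
  have hT'g : ∀ v w, g' q (T' v) (T' w) = g p v w := by
    intro v w
    simp only [T', map_smul, ContinuousLinearMap.smul_apply, smul_eq_mul]
    rw [hTg _ _ (hcv v) (hcv w)]
    simp only [map_smul, ContinuousLinearMap.smul_apply, smul_eq_mul]
    have h1 := (hc0 v).ne'
    have h2 := (hc0 w).ne'
    field_simp
  obtain ⟨L, hL⟩ := exists_linear (hM'.met.symm q hqU) (hM.met.pos p hpU) (hM'.met.pos q hqU) T'
    hT'g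
  refine ⟨L, fun u v => by rw [hL, hL, hT'g], fun v hv => ?_⟩
  have hTT' : T v = T' v := by
    rw [← sub_eq_zero]
    apply eq_zero_of_g hM'.met hqU
    rw [g_sub_self hM'.met hqU, hT'g, hTg v v hv hv]
    have : g' q (T v) (T' v) = g p v v := by
      simp only [T', map_smul, smul_eq_mul]
      rw [hTg _ _ hv (hcv v)]
      simp only [map_smul, smul_eq_mul]
      have h1 := (hc0 v).ne'
      field_simp
    rw [this]
    ring
  rw [hL, ← hTT', hT2 v hv]

theorem LocGeo.contDiffAt_exp (h : LocGeo M U g ι p₀ r ρ X W) {p : E}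
    (hp : p ∈ Metric.ball p₀ r) {v : E} (hv : gnorm g p v < ρ) :
    ContDiffAt ℝ ∞ (fun w => X (p, w)) v := by
  have h1 : ContDiffAt ℝ ∞ X (p, v) := h.smooth.contDiffAt
    ((Metric.isOpen_ball.prod Metric.isOpen_ball).mem_nhds ⟨hp, h.small p hp v hv⟩)
  exact h1.comp v (contDiffAt_const.prodMk contDiffAt_id)

theorem LocGeo.contDiffAt_inv (h : LocGeo M U g ι p₀ r ρ X W) {p : E}
    (hp : p ∈ Metric.ball p₀ r) {v : E} (hv : gnorm g p v < ρ) :
    ContDiffAt ℝ ∞ (fun y => W (p, y)) (X (p, v)) :=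
  (h.inv_smooth p hp v hv).comp (X (p, v)) (contDiffAt_const.prodMk contDiffAt_id)

theorem LocGeo.W_self (h : LocGeo M U g ι p₀ r ρ X W) {p : E} (hp : p ∈ Metric.ball p₀ r) :
    W (p, p) = 0 := by
  have h0 : gnorm g p 0 < ρ := by rw [gn_zero]; exact h.ρ_pos
  have := h.inv_left p hp 0 h0
  rwa [h.zero p hp] at this

theorem LocGeo.hasFDerivAt_exp_zero (h : LocGeo M U g ι p₀ r ρ X W) {p : E}
    (hp : p ∈ Metric.ball p₀ r) :
    HasFDerivAt (fun w => X (p, w)) (ContinuousLinearMap.id ℝ E) 0 := by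
  have h0 : gnorm g p 0 < ρ := by rw [gn_zero]; exact h.ρ_pos
  have h1 := ((h.contDiffAt_exp hp h0).differentiableAt (by simp)).hasFDerivAt
  have h2 := h.deriv_zero p hp
  unfold dX at h2
  rwa [h2] at h1

theorem LocGeo.eventually_small (hg : RMet U g) (h : LocGeo M U g ι p₀ r ρ X W) {p : E}
    (hp : p ∈ Metric.ball p₀ r) : ∀ᶠ v in 𝓝 (0 : E), gnorm g p v < ρ := by
  have hc : Continuous (fun v => gnorm g p v) := by
    unfold gnorm
    exact ((g p).continuous.clm_apply continuous_id).sqrt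
  have h0 : gnorm g p 0 < ρ := by rw [gn_zero]; exact h.ρ_pos
  exact hc.continuousAt.eventually_lt continuousAt_const h0

theorem LocGeo.hasFDerivAt_inv_self (hg : RMet U g) (h : LocGeo M U g ι p₀ r ρ X W) {p : E}
    (hp : p ∈ Metric.ball p₀ r) :
    HasFDerivAt (fun y => W (p, y)) (ContinuousLinearMap.id ℝ E) p := by
  have h0 : gnorm g p 0 < ρ := by rw [gn_zero]; exact h.ρ_pos
  have h1 : ContDiffAt ℝ ∞ (fun y => W (p, y)) p := by
    have := h.contDiffAt_inv hp h0
    rwa [h.zero p hp] at this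
  have h2 := (h1.differentiableAt (by simp)).hasFDerivAt
  have h3 := h.hasFDerivAt_exp_zero hp
  have h4 : HasFDerivAt (fun v => W (p, X (p, v)))
      ((fderiv ℝ (fun y => W (p, y)) p).comp (ContinuousLinearMap.id ℝ E)) 0 := by
    have h2' : HasFDerivAt (fun y => W (p, y)) (fderiv ℝ (fun y => W (p, y)) p)
        ((fun v => X (p, v)) 0) := by
      simpa [h.zero p hp] using h2
    exact h2'.comp 0 h3
  have h5 : HasFDerivAt (fun v => W (p, X (p, v))) (ContinuousLinearMap.id ℝ E) 0 := by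
    refine (hasFDerivAt_id (0 : E)).congr_of_eventuallyEq ?_
    filter_upwards [h.eventually_small hg hp] with v hv
    exact h.inv_left p hp v hv
  have h6 := h4.unique h5
  rw [ContinuousLinearMap.comp_id] at h6
  rwa [h6] at h2

/-- Points at distance `< ρ` inside the chart are exponentials. -/
theorem LocGeo.exists_of_dist (hM : MetModel M U g ι) (h : LocGeo M U g ι p₀ r ρ X W) {p : E}
    (hp : p ∈ Metric.ball p₀ r) {y : E} (hy : y ∈ U) (hd : dist (ι p) (ι y) < ρ) :
    gnorm g p (W (p, y)) = dist (ι p) (ι y) ∧ X (p, W (p, y)) = y := by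
  obtain ⟨v, hv, hvy⟩ := h.surj p hp (ι y) hd
  have e : X (p, v) = y := hM.inj (h.mem p hp v (h.small p hp v hv)) hy hvy
  have e2 : W (p, y) = v := by rw [← e]; exact h.inv_left p hp v hv
  rw [e2]
  exact ⟨by rw [← hvy, h.dist_exp hp hv], e⟩

/-- Isometries in charts: smooth near `p`, with derivative `L` at `p`. -/
theorem LocGeo.isom_rep (hM : MetModel M U g ι) (h : LocGeo M U g ι p₀ r ρ X W)
    (hM' : MetModel M U' g' ι') (h' : LocGeo M U' g' ι' q₀ r' ρ' X' W') (φ : M → M)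
    (hφ : Isometry φ) {p q : E} (hp : p ∈ Metric.ball p₀ r) (hq : q ∈ Metric.ball q₀ r')
    (hpq : φ (ι p) = ι' q) :
    ∃ L : E ≃L[ℝ] E, (∀ u v, g' q (L u) (L v) = g p u v) ∧
      (∀ v, gnorm g p v < min ρ ρ' → φ (ι (X (p, v))) = ι' (X' (q, L v))) ∧
      (∀ y ∈ U, dist (ι p) (ι y) < min ρ ρ' →
        φ (ι y) = ι' (X' (q, L (W (p, y)))) ∧ X' (q, L (W (p, y))) ∈ U' ∧
        ContDiffAt ℝ ∞ (fun z => X' (q, L (W (p, z)))) y) ∧
      HasFDerivAt (fun z => X' (q, L (W (p, z)))) (L : E →L[ℝ] E) p := by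
  obtain ⟨L, hL, hexp⟩ := h.isom hM hM' h' φ hφ hp hq hpq
  have hLn : ∀ v, gnorm g' q (L v) = gnorm g p v := by
    intro v; unfold gnorm; rw [hL]
  refine ⟨L, hL, hexp, ?_, ?_⟩
  · intro y hy hd
    obtain ⟨h1, h2⟩ := h.exists_of_dist hM hp hy (hd.trans_le (min_le_left _ _))
    have hv : gnorm g p (W (p, y)) < min ρ ρ' := by rw [h1]; exact hd
    have hv1 : gnorm g p (W (p, y)) < ρ := hv.trans_le (min_le_left _ _)
    have hv' : gnorm g' q (L (W (p, y))) < ρ' := by
      rw [hLn]; exact hv.trans_le (min_le_right _ _)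
    refine ⟨?_, h'.mem q hq _ (h'.small q hq _ hv'), ?_⟩
    · have := hexp _ hv
      rwa [h2] at this
    · have c1 : ContDiffAt ℝ ∞ (fun z => W (p, z)) y := by
        have := h.contDiffAt_inv hp hv1
        rwa [h2] at this
      have c2 : ContDiffAt ℝ ∞ (fun z => L (W (p, z))) y :=
        L.contDiff.contDiffAt.comp y c1
      have c3 := h'.contDiffAt_exp hq hv'
      exact ContDiffAt.comp (f := fun z => L (W (p, z))) (g := fun w => X' (q, w)) y c3 c2
  · have d1 := h.hasFDerivAt_inv_self hM.met hp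
    have d2 : HasFDerivAt (fun z => L (W (p, z))) (L : E →L[ℝ] E) p := by
      have := (L : E →L[ℝ] E).hasFDerivAt.comp p d1
      rw [ContinuousLinearMap.comp_id] at this
      exact this
    have d3 : HasFDerivAt (fun w => X' (q, w)) (ContinuousLinearMap.id ℝ E) (L (W (p, p))) := by
      rw [h.W_self hp, map_zero]
      exact h'.hasFDerivAt_exp_zero hq
    have := HasFDerivAt.comp (f := fun z => L (W (p, z))) (g := fun w => X' (q, w)) p d3 d2
    rw [ContinuousLinearMap.id_comp] at this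
    exact this

end main

end

end Pool.Agent.Work.MP_3b24f6_gt.Froz
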