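import Mathlib

set_option autoImplicit false

open Filter Topology Set Metric
open scoped InnerProductSpace ContDiff

/-! Difference quotients of families of maps depending smoothly on a parameter. -/

namespace Pool.Agent.Work.MP_3b24f6_gt.TF

section seccalc
variable {P : Type*} [NormedAddCommGroup P] [NormedSpace ℝ P]
variable {E : Type*} [NormedAddCommGroup E] [NormedSpace ℝ E]
variable {E' : Type*} [NormedAddCommGroup E'] [NormedSpace ℝ E']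

/-- Difference quotients along a sequence. -/
theorem lim_seq {f : P → E'} {f' : P →L[ℝ] E'} {z₀ : P} (hf : HasFDerivAt f f' z₀) {z : ℕ → P}
    {ε : ℕ → ℝ} {w : P} (hz0 : Tendsto z atTop (𝓝 z₀))
    (hz : Tendsto (fun n => (ε n)⁻¹ • (z n - z₀)) atTop (𝓝 w)) :
    Tendsto (fun n => (ε n)⁻¹ • (f (z n) - f z₀)) atTop (𝓝 (f' w)) := by
  have h := (hasFDerivWithinAt_univ.2 hf).lim (l := atTop) (c := fun n => (ε n)⁻¹)
    (d := fun n => z n - z₀) (v := w) (by simpa using hz0.sub_const z₀)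
    (Eventually.of_forall fun _ => mem_univ _) hz
  simpa using h

/-- Uniform version. -/
theorem lim_prod {H : P × E → E'} {z₀ : P} {y₀ : E} {H' : P × E →L[ℝ] E'}
    (hH : HasStrictFDerivAt H H' (z₀, y₀)) {z : ℕ → P} {ε : ℕ → ℝ} {w : P}
    (hz0 : Tendsto z atTop (𝓝 z₀))
    (hz : Tendsto (fun n => (ε n)⁻¹ • (z n - z₀)) atTop (𝓝 w)) :
    Tendsto (fun p : ℕ × E => (ε p.1)⁻¹ • (H (z p.1, p.2) - H (z₀, p.2))) (atTop ×ˢ 𝓝 y₀)
      (𝓝 (H' (w, 0))) := by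
  have h1 := hH.isLittleO
  have h2 : Tendsto (fun p : ℕ × E => (((z p.1, p.2), (z₀, p.2)) : (P × E) × (P × E)))
      (atTop ×ˢ 𝓝 y₀) (𝓝 ((z₀, y₀), (z₀, y₀))) := by
    have ha : Tendsto (fun p : ℕ × E => z p.1) (atTop ×ˢ 𝓝 y₀) (𝓝 z₀) := hz0.comp tendsto_fst
    have hb : Tendsto (fun p : ℕ × E => p.2) (atTop ×ˢ 𝓝 y₀) (𝓝 y₀) := tendsto_snd
    exact (ha.prodMk_nhds hb).prodMk_nhds (tendsto_const_nhds.prodMk_nhds hb)
  have h3 := h1.comp_tendsto h2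
  have h4 : (fun p : ℕ × E => (ε p.1)⁻¹ • (H (z p.1, p.2) - H (z₀, p.2) - H' (z p.1 - z₀, 0)))
      =o[atTop ×ˢ 𝓝 y₀] fun p : ℕ × E => (ε p.1)⁻¹ • (z p.1 - z₀) := by
    have h5 : (fun p : ℕ × E => H (z p.1, p.2) - H (z₀, p.2) - H' (z p.1 - z₀, 0))
        =o[atTop ×ˢ 𝓝 y₀] fun p : ℕ × E => z p.1 - z₀ := by
      refine (h3.congr_left fun p => ?_).trans_isBigO ?_
      · simp [Function.comp]
      · refine Asymptotics.IsBigO.of_bound 1 (Eventually.of_forall fun p => ?_)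
        simp [Function.comp, Prod.norm_def]
    exact (Asymptotics.isBigO_refl (fun p : ℕ × E => (ε p.1)⁻¹) (atTop ×ˢ 𝓝 y₀)).smul_isLittleO h5
  have h5 : Tendsto (fun p : ℕ × E => (ε p.1)⁻¹ • (z p.1 - z₀)) (atTop ×ˢ 𝓝 y₀) (𝓝 w) :=
    hz.comp tendsto_fst
  have h6 : Tendsto (fun p : ℕ × E => (ε p.1)⁻¹ • (H (z p.1, p.2) - H (z₀, p.2) - H' (z p.1 - z₀, 0)))
      (atTop ×ˢ 𝓝 y₀) (𝓝 0) := by
    have h7 := h4.trans_isBigO (h5.isBigO_one ℝ)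
    exact (Asymptotics.isLittleO_one_iff ℝ).1 h7
  have h7 : Tendsto (fun p : ℕ × E => (ε p.1)⁻¹ • (H' (z p.1 - z₀, (0 : E)))) (atTop ×ˢ 𝓝 y₀)
      (𝓝 (H' (w, 0))) := by
    have h8 : Tendsto (fun p : ℕ × E => H' ((ε p.1)⁻¹ • (z p.1 - z₀), (0 : E))) (atTop ×ˢ 𝓝 y₀)
        (𝓝 (H' (w, 0))) :=
      (H'.continuous.tendsto (w, 0)).comp (h5.prodMk_nhds tendsto_const_nhds)
    refine h8.congr fun p => ?_
    rw [← map_smul]
    simp
  have h8 := h6.add h7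
  rw [zero_add] at h8
  refine h8.congr fun p => ?_
  rw [← smul_add]
  congr 1
  abel

variable {F : P × E → E} {Z : Set P} {B : Set E} {z₀ : P}

/-- Partial derivative in the second variable. -/
noncomputable def Hp (F : P × E → E) (p : P × E) : E →L[ℝ] E :=
  (fderiv ℝ F p).comp (ContinuousLinearMap.inr ℝ P E)

/-- The limit field. -/
noncomputable def Xf (F : P × E → E) (z₀ w : P) (y : E) : E := fderiv ℝ F (z₀, y) (w, 0)

theorem hasFDerivAt_slice (hZ : IsOpen Z) (hB : IsOpen B) (hF : ContDiffOn ℝ ∞ F (Z ×ˢ B))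
    {z : P} (hz : z ∈ Z) {y : E} (hy : y ∈ B) : HasFDerivAt (fun y => F (z, y)) (Hp F (z, y)) y := by
  have h1 : DifferentiableAt ℝ F (z, y) :=
    (hF.contDiffAt ((hZ.prod hB).mem_nhds ⟨hz, hy⟩)).differentiableAt (by simp)
  exact h1.hasFDerivAt.comp y (hasFDerivAt_prodMk_right z y)

theorem contDiffAt_Hp (hZ : IsOpen Z) (hB : IsOpen B) (hF : ContDiffOn ℝ ∞ F (Z ×ˢ B))
    {z : P} (hz : z ∈ Z) {y : E} (hy : y ∈ B) : ContDiffAt ℝ ∞ (Hp F) (z, y) := by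
  have h1 : ContDiffAt ℝ ∞ F (z, y) := hF.contDiffAt ((hZ.prod hB).mem_nhds ⟨hz, hy⟩)
  exact (h1.fderiv_right (m := ∞) (by simp)).clm_comp contDiffAt_const

theorem contDiffAt_Xf (hZ : IsOpen Z) (hB : IsOpen B) (hF : ContDiffOn ℝ ∞ F (Z ×ˢ B))
    (hz : z₀ ∈ Z) (w : P) {y : E} (hy : y ∈ B) : ContDiffAt ℝ ∞ (Xf F z₀ w) y := by
  have h1 : ContDiffAt ℝ ∞ F (z₀, y) := hF.contDiffAt ((hZ.prod hB).mem_nhds ⟨hz, hy⟩)
  have h2 : ContDiffAt ℝ ∞ (fun y : E => fderiv ℝ F (z₀, y)) y :=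
    (h1.fderiv_right (m := ∞) (by simp)).comp y (contDiffAt_const.prodMk contDiffAt_id)
  exact h2.clm_apply contDiffAt_const

theorem fderiv_Hp_eq (hZ : IsOpen Z) (hB : IsOpen B) (hF : ContDiffOn ℝ ∞ F (Z ×ˢ B))
    (hz : z₀ ∈ Z) (w : P) {y : E} (hy : y ∈ B) :
    fderiv ℝ (Hp F) (z₀, y) (w, 0) = fderiv ℝ (Xf F z₀ w) y := by
  have h1 : ContDiffAt ℝ ∞ F (z₀, y) := hF.contDiffAt ((hZ.prod hB).mem_nhds ⟨hz, hy⟩)
  have h2 : DifferentiableAt ℝ (fderiv ℝ F) (z₀, y) :=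
    (h1.fderiv_right (m := ∞) (by simp)).differentiableAt (by simp)
  have hsym : IsSymmSndFDerivAt ℝ F (z₀, y) := h1.isSymmSndFDerivAt (by
    rw [minSmoothness_of_isRCLikeNormedField]; exact WithTop.coe_le_coe.2 le_top)
  ext v
  have h3 : HasFDerivAt (Hp F) ((ContinuousLinearMap.compL ℝ E (P × E) E).flip
      (ContinuousLinearMap.inr ℝ P E) ∘L fderiv ℝ (fderiv ℝ F) (z₀, y)) (z₀, y) :=
    ((ContinuousLinearMap.compL ℝ E (P × E) E).flip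
      (ContinuousLinearMap.inr ℝ P E)).hasFDerivAt.comp (z₀, y) h2.hasFDerivAt
  have h4 : HasFDerivAt (Xf F z₀ w) ((ContinuousLinearMap.apply ℝ E ((w, 0) : P × E)) ∘L
      ((fderiv ℝ (fderiv ℝ F) (z₀, y)) ∘L (ContinuousLinearMap.inr ℝ P E))) y := by
    have h5 : HasFDerivAt (fun y : E => fderiv ℝ F (z₀, y))
        ((fderiv ℝ (fderiv ℝ F) (z₀, y)) ∘L (ContinuousLinearMap.inr ℝ P E)) y :=
      h2.hasFDerivAt.comp y (hasFDerivAt_prodMk_right z₀ y)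
    exact (ContinuousLinearMap.apply ℝ E ((w, 0) : P × E)).hasFDerivAt.comp y h5
  rw [h3.fderiv, h4.fderiv]
  simp only [ContinuousLinearMap.coe_comp, Function.comp_apply, ContinuousLinearMap.flip_apply,
    ContinuousLinearMap.compL_apply, ContinuousLinearMap.inr_apply, ContinuousLinearMap.apply_apply]
  exact hsym _ _

/-- Limits of difference quotients of `f n = F (z n, ·)`. -/
theorem lim_family (hZ : IsOpen Z) (hB : IsOpen B) (hF : ContDiffOn ℝ ∞ F (Z ×ˢ B))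
    (hz₀ : z₀ ∈ Z) (hid : ∀ y ∈ B, F (z₀, y) = y) {f : ℕ → E → E} {z : ℕ → P}
    (hf : ∀ᶠ n in atTop, z n ∈ Z ∧ ∀ y ∈ B, f n y = F (z n, y)) {ε : ℕ → ℝ} {w : P}
    (hz0 : Tendsto z atTop (𝓝 z₀))
    (hz : Tendsto (fun n => (ε n)⁻¹ • (z n - z₀)) atTop (𝓝 w)) {y : E} (hy : y ∈ B) :
    Tendsto (fun n => (ε n)⁻¹ • (f n y - y)) atTop (𝓝 (Xf F z₀ w y)) ∧
    Tendsto (fun n => (ε n)⁻¹ • (fderiv ℝ (f n) y - 1)) atTop (𝓝 (fderiv ℝ (Xf F z₀ w) y)) ∧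
    Tendsto (fun p : ℕ × E => (ε p.1)⁻¹ • (fderiv ℝ (f p.1) p.2 - 1)) (atTop ×ˢ 𝓝 y)
      (𝓝 (fderiv ℝ (Xf F z₀ w) y)) := by
  have hder : ∀ᶠ n in atTop, ∀ y ∈ B, fderiv ℝ (f n) y = Hp F (z n, y) := by
    filter_upwards [hf] with n hn y hy
    have h1 : f n =ᶠ[𝓝 y] fun y => F (z n, y) := by
      filter_upwards [hB.mem_nhds hy] with x hx using hn.2 x hx
    rw [h1.fderiv_eq]
    exact (hasFDerivAt_slice hZ hB hF hn.1 hy).fderiv
  have hone : ∀ y ∈ B, Hp F (z₀, y) = 1 := by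
    intro y hy
    have h1 : (fun y => F (z₀, y)) =ᶠ[𝓝 y] fun y => y := by
      filter_upwards [hB.mem_nhds hy] with x hx using hid x hx
    have h2 := (hasFDerivAt_slice hZ hB hF hz₀ hy).fderiv
    rw [h1.fderiv_eq, fderiv_fun_id] at h2
    exact h2.symm
  have hstrict : HasStrictFDerivAt (Hp F) (fderiv ℝ (Hp F) (z₀, y)) (z₀, y) :=
    (contDiffAt_Hp hZ hB hF hz₀ hy).hasStrictFDerivAt (by simp)
  have h3 : Tendsto (fun p : ℕ × E => (ε p.1)⁻¹ • (fderiv ℝ (f p.1) p.2 - 1)) (atTop ×ˢ 𝓝 y)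
      (𝓝 (fderiv ℝ (Xf F z₀ w) y)) := by
    rw [← fderiv_Hp_eq hZ hB hF hz₀ w hy]
    refine (lim_prod hstrict hz0 hz).congr' ?_
    have h4 : ∀ᶠ p : ℕ × E in atTop ×ˢ 𝓝 y, (∀ y ∈ B, fderiv ℝ (f p.1) y = Hp F (z p.1, y)) ∧
        p.2 ∈ B := (hder.prod_mk (hB.mem_nhds hy)).mono fun p hp => ⟨hp.1, hp.2⟩
    filter_upwards [h4] with p hp
    rw [hp.1 _ hp.2, hone _ hp.2]
  refine ⟨?_, ?_, h3⟩
  · have h1 : HasFDerivAt (fun z => F (z, y))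
        ((fderiv ℝ F (z₀, y)).comp (ContinuousLinearMap.inl ℝ P E)) z₀ := by
      have h2 : DifferentiableAt ℝ F (z₀, y) :=
        (hF.contDiffAt ((hZ.prod hB).mem_nhds ⟨hz₀, hy⟩)).differentiableAt (by simp)
      exact h2.hasFDerivAt.comp z₀ (hasFDerivAt_prodMk_left z₀ y)
    have h2 := lim_seq h1 hz0 hz
    simp only [ContinuousLinearMap.coe_comp, Function.comp_apply,
      ContinuousLinearMap.inl_apply] at h2
    refine h2.congr' ?_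
    filter_upwards [hf] with n hn
    rw [hn.2 y hy, hid y hy]
  · exact h3.comp (tendsto_id.prodMk (tendsto_const_nhds (x := y)))

end seccalc

end Pool.Agent.Work.MP_3b24f6_gt.TF
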