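import Pool.Agent.Work.MP_3b24f6_gt.S.KillHom
import Pool.Agent.Work.MP_3b24f6_gt.S.Alg1
import Pool.Agent.Work.MP_3b24f6_gt.S.Prolong

/-!
# The Killing algebra as `HomAlg`
-/

set_option autoImplicit false
set_option maxSynthPendingDepth 3

open scoped InnerProductSpace ContDiff
open VectorField

namespace Pool.Agent.Work.MP_3b24f6_gt.KHom

noncomputable section

variable {E : Type*} [NormedAddCommGroup E] [InnerProductSpace ℝ E] [FiniteDimensional ℝ E]
  {g : E → E →L[ℝ] E →L[ℝ] ℝ}

theorem jets_inj (hm : IsMetric g) (X : killing g) (h0 : ev g X = 0) (h1 : dv0 g X = 0) :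
    X = 0 := by
  refine Subtype.ext (funext fun y => ?_)
  refine IsKilling.eq_zero hm X.2 h0 ?_ y
  ext v
  exact congrArg (fun T : E →ₗ[ℝ] E => T v) h1

/-- The Killing algebra. -/
def homAlg (hg : HomMet g) (hm : IsMetric g) :
    letI := killLieRing hg.smooth
    letI := killLieAlgebra hg.smooth
    Froz.HomAlg E (killing g) :=
  letI := killLieRing hg.smooth
  letI := killLieAlgebra hg.smooth
  haveI : FiniteDimensional ℝ (killing g) := killing_finite hm
  { ev := ev g
    surj := ev_surj hg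
    sub := fun _ _ hk hl => ker_lie hg hk hl
    skew := fun _ X hk => skew_lie hg hk X
    neg := fun _ hk hk0 => neg hg (jets_inj hm) hk hk0
    trans := fun x y hxy => trans hg x y hxy
    full := fun x v hx hv => full hg x v hx hv }

theorem homAlg_ev (hg : HomMet g) (hm : IsMetric g) :
    letI := killLieRing hg.smooth
    letI := killLieAlgebra hg.smooth
    (homAlg hg hm).ev = ev g := rfl

/-- Transitivity, with jets. -/
theorem transj (hg : HomMet g) (x y : E) (hxy : ‖x‖ = ‖y‖) :
    letI := killLieRing hg.smooth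
    letI := killLieAlgebra hg.smooth
    ∃ (φ : killing g ≃ₗ⁅ℝ⁆ killing g) (A : E ≃ₗᵢ[ℝ] E),
      (∀ X, ev g (φ X) = A (ev g X)) ∧ (∀ X v, dv0 g (φ X) (A v) = A (dv0 g X v)) ∧
      A x = y := by
  obtain ⟨L, hLx, hL⟩ := hg.iso x y hxy
  refine ⟨pushEquiv hg L.toContinuousLinearEquiv hL, L, fun X => ?_, fun X v => ?_, hLx⟩
  · change L (X.1 (L.toContinuousLinearEquiv.symm 0)) = L (X.1 0)
    rw [map_zero]
  · have h := KJet.fderiv_push L.toContinuousLinearEquiv X.2.1 0 (L v)
    rw [map_zero] at h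
    change fderiv ℝ (KJet.push L.toContinuousLinearEquiv X.1) 0 (L v) = L (fderiv ℝ X.1 0 v)
    rw [h]
    change L (fderiv ℝ X.1 0 (L.symm (L v))) = _
    rw [LinearIsometryEquiv.symm_apply_apply]

end

end Pool.Agent.Work.MP_3b24f6_gt.KHom
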