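import Pool.Agent.Work.MP_3b24f6_gt.S.KillDefs

/-! Killing fields form a Lie algebra. -/

set_option autoImplicit false
set_option maxSynthPendingDepth 3

open scoped ContDiff
open VectorField

namespace Pool.Agent.Work.MP_3b24f6_gt

variable {E : Type*} [NormedAddCommGroup E] [NormedSpace ℝ E]
  {g : E → E →L[ℝ] E →L[ℝ] ℝ} {X Y : E → E}

theorem min_two_le : minSmoothness ℝ 2 ≤ (∞ : WithTop ℕ∞) := by
  rw [minSmoothness_of_isRCLikeNormedField]
  exact WithTop.coe_le_coe.2 le_top

namespace IsKilling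

theorem smooth (hX : IsKilling g X) : ContDiff ℝ ∞ X := hX.1

theorem eq (hX : IsKilling g X) (y u v : E) :
    fderiv ℝ g y (X y) u v + g y (fderiv ℝ X y u) v + g y u (fderiv ℝ X y v) = 0 := hX.2 y u v

theorem differentiable (hX : IsKilling g X) : Differentiable ℝ X :=
  hX.1.differentiable (by simp)

theorem smooth_fderiv (hX : IsKilling g X) : ContDiff ℝ ∞ (fderiv ℝ X) :=
  hX.1.fderiv_right (by simp)

theorem differentiable_fderiv (hX : IsKilling g X) : Differentiable ℝ (fderiv ℝ X) :=
  hX.smooth_fderiv.differentiable (by simp)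

theorem add (hX : IsKilling g X) (hY : IsKilling g Y) : IsKilling g (X + Y) := by
  refine ⟨hX.1.add hY.1, fun y u v => ?_⟩
  have h1 := hX.2 y u v
  have h2 := hY.2 y u v
  rw [fderiv_add hX.differentiable.differentiableAt hY.differentiable.differentiableAt]
  simp only [Pi.add_apply, map_add, add_apply]
  linarith

theorem smul (c : ℝ) (hX : IsKilling g X) : IsKilling g (c • X) := by
  refine ⟨contDiff_const.smul hX.1, fun y u v => ?_⟩
  have h1 := hX.2 y u v
  rw [fderiv_const_smul hX.differentiable.differentiableAt]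
  simp only [Pi.smul_apply, map_smul, smul_apply, smul_eq_mul]
  linear_combination c * h1

theorem zero : IsKilling g (0 : E → E) := by
  refine ⟨contDiff_const, fun y u v => ?_⟩
  simp

theorem neg (hX : IsKilling g X) : IsKilling g (-X) := by
  have := hX.smul (-1)
  simpa using this

theorem sub (hX : IsKilling g X) (hY : IsKilling g Y) : IsKilling g (X - Y) := by
  rw [sub_eq_add_neg]
  exact hX.add hY.neg

/-- The derivative of the Killing equation. -/
theorem deriv_eq (hg : ContDiff ℝ ∞ g) (hX : IsKilling g X) (y z u v : E) :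
    fderiv ℝ (fderiv ℝ g) y z (X y) u v + fderiv ℝ g y (fderiv ℝ X y z) u v
      + (fderiv ℝ g y z (fderiv ℝ X y u) v + g y (fderiv ℝ (fderiv ℝ X) y z u) v)
      + (fderiv ℝ g y z u (fderiv ℝ X y v) + g y u (fderiv ℝ (fderiv ℝ X) y z v)) = 0 := by
  have hg1 : HasFDerivAt g (fderiv ℝ g y) y :=
    (hg.differentiable (by simp)).differentiableAt.hasFDerivAt
  have hg2 : HasFDerivAt (fderiv ℝ g) (fderiv ℝ (fderiv ℝ g) y) y :=
    ((hg.fderiv_right (m := ∞) (by simp)).differentiable (by simp)).differentiableAt.hasFDerivAt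
  have hX1 : HasFDerivAt X (fderiv ℝ X y) y := hX.differentiable.differentiableAt.hasFDerivAt
  have hX2 : HasFDerivAt (fderiv ℝ X) (fderiv ℝ (fderiv ℝ X) y) y :=
    hX.differentiable_fderiv.differentiableAt.hasFDerivAt
  have hu : HasFDerivAt (fun _ : E => u) (0 : E →L[ℝ] E) y := hasFDerivAt_const u y
  have hv : HasFDerivAt (fun _ : E => v) (0 : E →L[ℝ] E) y := hasFDerivAt_const v y
  have t1 := (((hg2.clm_apply hX1).clm_apply hu).clm_apply hv)
  have t2 := ((hg1.clm_apply (hX2.clm_apply hu)).clm_apply hv)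
  have t3 := ((hg1.clm_apply hu).clm_apply (hX2.clm_apply hv))
  have t := (t1.add t2).add t3
  have t0 : HasFDerivAt (fun y => fderiv ℝ g y (X y) u v + g y (fderiv ℝ X y u) v
      + g y u (fderiv ℝ X y v)) (0 : E →L[ℝ] ℝ) y := by
    have e : (fun y => fderiv ℝ g y (X y) u v + g y (fderiv ℝ X y u) v
      + g y u (fderiv ℝ X y v)) = fun _ => (0 : ℝ) := by
      funext y
      exact hX.2 y u v
    rw [e]
    exact hasFDerivAt_const 0 y
  have h := t.unique t0
  have h2 := congrArg (fun T : E →L[ℝ] ℝ => T z) h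
  simp only [add_apply, ContinuousLinearMap.comp_apply, ContinuousLinearMap.flip_apply,
    zero_apply, map_zero, zero_add] at h2
  linarith

/-- Derivative of the bracket. -/
theorem hasFDerivAt_lieBracket (hX : IsKilling g X) (hY : IsKilling g Y) (y : E) :
    HasFDerivAt (lieBracket ℝ X Y)
      (((fderiv ℝ Y y).comp (fderiv ℝ X y) + (fderiv ℝ (fderiv ℝ Y) y).flip (X y))
        - ((fderiv ℝ X y).comp (fderiv ℝ Y y) + (fderiv ℝ (fderiv ℝ X) y).flip (Y y))) y := by
  have hX1 : HasFDerivAt X (fderiv ℝ X y) y := hX.differentiable.differentiableAt.hasFDerivAt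
  have hX2 : HasFDerivAt (fderiv ℝ X) (fderiv ℝ (fderiv ℝ X) y) y :=
    hX.differentiable_fderiv.differentiableAt.hasFDerivAt
  have hY1 : HasFDerivAt Y (fderiv ℝ Y y) y := hY.differentiable.differentiableAt.hasFDerivAt
  have hY2 : HasFDerivAt (fderiv ℝ Y) (fderiv ℝ (fderiv ℝ Y) y) y :=
    hY.differentiable_fderiv.differentiableAt.hasFDerivAt
  exact (hY2.clm_apply hX1).sub (hX2.clm_apply hY1)

theorem fderiv_symm (hX : IsKilling g X) (y u v : E) :
    fderiv ℝ (fderiv ℝ X) y u v = fderiv ℝ (fderiv ℝ X) y v u :=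
  (hX.1.contDiffAt.isSymmSndFDerivAt min_two_le).eq u v

theorem lieBracket (hg : ContDiff ℝ ∞ g) (hX : IsKilling g X) (hY : IsKilling g Y) :
    IsKilling g (lieBracket ℝ X Y) := by
  refine ⟨hX.1.lieBracket_vectorField hY.1 (by simp), fun y u v => ?_⟩
  rw [(hX.hasFDerivAt_lieBracket hY y).fderiv]
  have h1 := hX.deriv_eq hg y (Y y) u v
  have h2 := hY.deriv_eq hg y (X y) u v
  have h3 := hX.2 y (fderiv ℝ Y y u) v
  have h4 := hX.2 y u (fderiv ℝ Y y v)
  have h5 := hY.2 y (fderiv ℝ X y u) v
  have h6 := hY.2 y u (fderiv ℝ X y v)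
  have hs : fderiv ℝ (fderiv ℝ g) y (X y) (Y y) = fderiv ℝ (fderiv ℝ g) y (Y y) (X y) :=
    (hg.contDiffAt.isSymmSndFDerivAt min_two_le).eq (X y) (Y y)
  rw [hs] at h2
  rw [hX.fderiv_symm y (Y y) u, hX.fderiv_symm y (Y y) v] at h1
  rw [hY.fderiv_symm y (X y) u, hY.fderiv_symm y (X y) v] at h2
  simp only [VectorField.lieBracket_eq, map_sub, sub_apply, add_apply, map_add,
    ContinuousLinearMap.comp_apply, ContinuousLinearMap.flip_apply]
  linarith

end IsKilling

/-- The space of Killing fields. -/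
def killing (g : E → E →L[ℝ] E →L[ℝ] ℝ) : Submodule ℝ (E → E) where
  carrier := {X | IsKilling g X}
  add_mem' := fun hX hY => IsKilling.add hX hY
  zero_mem' := IsKilling.zero
  smul_mem' := fun c _ hX => IsKilling.smul c hX

theorem mem_killing : X ∈ killing g ↔ IsKilling g X := Iff.rfl

/-- Killing fields of a smooth metric form a Lie ring. -/
@[reducible] noncomputable def killLieRing (hg : ContDiff ℝ ∞ g) : LieRing (killing g) where
  bracket X Y := ⟨lieBracket ℝ X.1 Y.1, IsKilling.lieBracket hg X.2 Y.2⟩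
  add_lie X Y Z := by
    refine Subtype.ext (funext fun y => ?_)
    exact lieBracket_add_left (IsKilling.differentiable X.2 y) (IsKilling.differentiable Y.2 y)
  lie_add X Y Z := by
    refine Subtype.ext (funext fun y => ?_)
    exact lieBracket_add_right (IsKilling.differentiable Y.2 y) (IsKilling.differentiable Z.2 y)
  lie_self X := Subtype.ext lieBracket_self
  leibniz_lie X Y Z := by
    refine Subtype.ext (funext fun y => ?_)
    exact leibniz_identity_lieBracket min_two_le (IsKilling.smooth X.2).contDiffAt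
      (IsKilling.smooth Y.2).contDiffAt (IsKilling.smooth Z.2).contDiffAt

/-- Killing fields of a smooth metric form a Lie algebra. -/
@[reducible] noncomputable def killLieAlgebra (hg : ContDiff ℝ ∞ g) :
    letI := killLieRing hg
    LieAlgebra ℝ (killing g) :=
  letI := killLieRing hg
  { lie_smul := fun c X Y => by
      refine Subtype.ext (funext fun y => ?_)
      exact lieBracket_const_smul_right (IsKilling.differentiable Y.2 y) }

theorem kill_bracket_apply (hg : ContDiff ℝ ∞ g) (X Y : killing g) (y : E) :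
    letI := killLieRing hg
    (⁅X, Y⁆ : killing g).1 y = fderiv ℝ Y.1 y (X.1 y) - fderiv ℝ X.1 y (Y.1 y) := rfl

end Pool.Agent.Work.MP_3b24f6_gt
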