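import Mathlib

/-! FROZ, block B1 + B2: metric geometry of two-point homogeneous length spaces.
Betweenness, properness, extension of segments, non-branching, lines. -/

set_option autoImplicit false

open Set Filter Topology Metric

namespace Pool.Agent.Work.MP_3b24f6_gt.S

variable {M : Type*} [MetricSpace M]

/-- `b` lies between `a` and `c`. -/
def Btw (a b c : M) : Prop := dist a b + dist b c = dist a c

theorem Btw.symm {a b c : M} (h : Btw a b c) : Btw c b a := by
  unfold Btw at *
  rw [dist_comm c b, dist_comm b a, dist_comm c a]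
  linarith

theorem btw_comm {a b c : M} : Btw a b c ↔ Btw c b a := ⟨Btw.symm, Btw.symm⟩

theorem btw_left (a b : M) : Btw a a b := by simp [Btw]

theorem btw_right (a b : M) : Btw a b b := by simp [Btw]

theorem btw_of_le {a b c : M} (h : dist a b + dist b c ≤ dist a c) : Btw a b c :=
  le_antisymm h (dist_triangle a b c)

/-- `a - b - c` and `b - x - c` give `a - b - x` and `a - x - c`. -/
theorem Btw.right_left {a b c x : M} (h : Btw a b c) (h' : Btw b x c) : Btw a b x := by
  have h1 := dist_triangle a x c
  unfold Btw at *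
  exact le_antisymm (by linarith) (dist_triangle a b x)

theorem Btw.right_right {a b c x : M} (h : Btw a b c) (h' : Btw b x c) : Btw a x c := by
  have h1 := dist_triangle a b x
  unfold Btw at *
  exact le_antisymm (by linarith) (dist_triangle a x c)

/-- `a - b - c` and `a - x - b` give `x - b - c` and `a - x - c`. -/
theorem Btw.left_right {a b c x : M} (h : Btw a b c) (h' : Btw a x b) : Btw x b c :=
  (h.symm.right_left h'.symm).symm

theorem Btw.left_left {a b c x : M} (h : Btw a b c) (h' : Btw a x b) : Btw a x c :=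
  (h.symm.right_right h'.symm).symm

theorem Btw.map {a b c : M} (h : Btw a b c) {f : M → M} (hf : Isometry f) :
    Btw (f a) (f b) (f c) := by
  unfold Btw at *
  rw [hf.dist_eq, hf.dist_eq, hf.dist_eq, h]

theorem Btw.dist_left_le {a b c : M} (h : Btw a b c) : dist a b ≤ dist a c := by
  unfold Btw at h
  linarith [dist_nonneg (x := b) (y := c)]

/-! ### Properness -/

/-- A locally compact homogeneous length space is proper. -/
theorem proper_of_approx [LocallyCompactSpace M]
    (hb : ∀ x y : M, ∀ s, 0 ≤ s → s ≤ dist x y → ∀ ε > 0, ∃ z, dist x z = s ∧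
      dist z y ≤ dist x y - s + ε)
    (hh : ∀ x y : M, ∃ φ : M ≃ᵢ M, φ x = y) : ProperSpace M := by
  by_cases hM : Nonempty M
  swap
  · exact ⟨fun x => (hM ⟨x⟩).elim⟩
  obtain ⟨p⟩ := hM
  obtain ⟨r, hr, hcr⟩ := exists_isCompact_closedBall p
  have hc : ∀ x : M, IsCompact (closedBall x r) := by
    intro x
    obtain ⟨φ, hφ⟩ := hh p x
    rw [← hφ, ← IsometryEquiv.image_closedBall]
    exact hcr.image φ.continuous
  have hstep : ∀ (x : M) (R : ℝ), 0 ≤ R → IsCompact (closedBall x R) →
      IsCompact (closedBall x (R + r / 2)) := by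
    intro x R hR hK
    obtain ⟨t, -, htf, ht⟩ := hK.finite_cover_balls (e := r / 4) (by positivity)
    have hU : IsCompact (⋃ z ∈ t, closedBall z r) := htf.isCompact_biUnion fun z _ => hc z
    refine hU.of_isClosed_subset isClosed_closedBall ?_
    intro y hy
    rw [mem_closedBall, dist_comm] at hy
    have hmain : ∃ z, z ∈ closedBall x R ∧ dist z y ≤ 3 * r / 4 := by
      by_cases hle : dist x y ≤ R
      · exact ⟨y, by rwa [mem_closedBall, dist_comm], by simp; positivity⟩
      · push Not at hle
        obtain ⟨z, hz1, hz2⟩ := hb x y R hR hle.le (r / 4) (by positivity)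
        exact ⟨z, by rw [mem_closedBall, dist_comm, hz1], by linarith⟩
    obtain ⟨z, hz, hzy⟩ := hmain
    obtain ⟨z', hz', hzz⟩ := mem_iUnion₂.1 (ht hz)
    rw [mem_ball] at hzz
    refine mem_iUnion₂.2 ⟨z', hz', ?_⟩
    rw [mem_closedBall, dist_comm]
    have := dist_triangle z' z y
    rw [dist_comm z' z] at this
    linarith
  have hn : ∀ (x : M) (n : ℕ), IsCompact (closedBall x (n * (r / 2))) := by
    intro x n
    induction n with
    | zero => simp
    | succ n ih =>
      have := hstep x (n * (r / 2)) (by positivity) ih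
      convert this using 2
      push_cast
      ring
  refine ⟨fun x R => ?_⟩
  obtain ⟨n, hn'⟩ := exists_nat_ge (R / (r / 2))
  refine (hn x n).of_isClosed_subset isClosed_closedBall (closedBall_subset_closedBall ?_)
  rwa [div_le_iff₀ (by positivity)] at hn'

/-- Exact betweenness in proper spaces. -/
theorem exists_btw_of_approx [ProperSpace M]
    (hb : ∀ x y : M, ∀ s, 0 ≤ s → s ≤ dist x y → ∀ ε > 0, ∃ z, dist x z = s ∧
      dist z y ≤ dist x y - s + ε)
    (x y : M) {s : ℝ} (hs : 0 ≤ s) (hsd : s ≤ dist x y) :
    ∃ z, dist x z = s ∧ dist z y = dist x y - s := by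
  have hK : IsCompact {z | dist x z = s} := by
    have : {z | dist x z = s} = sphere x s := by
      ext z
      simp [dist_comm]
    rw [this]
    exact isCompact_sphere x s
  obtain ⟨z1, hz1, -⟩ := hb x y s hs hsd 1 one_pos
  obtain ⟨z, hz, hmin⟩ := hK.exists_isMinOn ⟨z1, hz1⟩
    (continuous_id.dist continuous_const : Continuous fun z => dist z y).continuousOn
  have hz' : dist x z = s := hz
  refine ⟨z, hz', le_antisymm ?_ ?_⟩
  · refine le_of_forall_pos_le_add fun ε hε => ?_
    obtain ⟨z2, hz2, hz3⟩ := hb x y s hs hsd ε hε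
    have h1 : dist z y ≤ dist z2 y := hmin hz2
    linarith
  · have := dist_triangle x z y
    linarith

/-! ### The synthetic axioms -/

/-- The metric axioms of a noncompact two-point homogeneous space used below. -/
structure Ax (M : Type*) [MetricSpace M] : Prop where
  btw : ∀ (x y : M) (s : ℝ), 0 ≤ s → s ≤ dist x y → ∃ z, dist x z = s ∧ dist z y = dist x y - s
  hom : ∀ p q p' q' : M, dist p q = dist p' q' → ∃ φ : M ≃ᵢ M, φ p = p' ∧ φ q = q'
  unb : ∀ (x : M) (R : ℝ), ∃ y, R ≤ dist x y
  nb : ∃ ρ > 0, ∀ a b c c' : M, 0 < dist a b → Btw a b c → Btw a b c' → dist b c = dist b c' →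
    dist a c < ρ → c = c'

namespace Ax

variable (A : Ax M)
include A

theorem exists_at (x : M) {R : ℝ} (hR : 0 ≤ R) : ∃ y, dist x y = R := by
  obtain ⟨y, hy⟩ := A.unb x R
  obtain ⟨z, hz, -⟩ := A.btw x y R hR hy
  exact ⟨z, hz⟩

/-- Between points. -/
theorem exists_btw {x y : M} {s : ℝ} (hs : 0 ≤ s) (hsd : s ≤ dist x y) :
    ∃ z, Btw x z y ∧ dist x z = s := by
  obtain ⟨z, h1, h2⟩ := A.btw x y s hs hsd
  exact ⟨z, by unfold Btw; linarith, h1⟩

/-- Every segment extends to every length. -/
theorem extend (x y : M) {L : ℝ} (hL : 0 ≤ L) : ∃ z, Btw x y z ∧ dist y z = L := by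
  obtain ⟨w, hw⟩ := A.exists_at x (R := dist x y + L) (by positivity)
  obtain ⟨v, hv1, hv2⟩ := A.exists_btw (x := x) (y := w) (s := dist x y) dist_nonneg
    (by rw [hw]; linarith)
  obtain ⟨φ, h1, h2⟩ := A.hom x v x y hv2
  refine ⟨φ w, ?_, ?_⟩
  · have := hv1.map φ.isometry
    rwa [h1, h2] at this
  · have h3 : dist y (φ w) = dist v w := by rw [← h2, φ.dist_eq]
    unfold Btw at hv1
    rw [h3]
    linarith

/-- Global non-branching. -/
theorem nb_global {a b c c' : M} (hab : a ≠ b) (h : Btw a b c) (h' : Btw a b c')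
    (hd : dist b c = dist b c') : c = c' := by
  obtain ⟨ρ, hρ, hnb⟩ := A.nb
  have key : ∀ (n : ℕ) (a b c c' : M), a ≠ b → Btw a b c → Btw a b c' → dist b c = dist b c' →
      dist b c ≤ n * (ρ / 3) → c = c' := by
    intro n
    induction n with
    | zero =>
      intro a b c c' _ _ _ hd hle
      have h0 : dist b c = 0 := le_antisymm (by simpa using hle) dist_nonneg
      rw [h0] at hd
      rw [← dist_eq_zero.1 h0, ← dist_eq_zero.1 hd.symm]
    | succ n ih =>
      intro a b c c' hab h h' hd hle
      have hab' : 0 < dist a b := dist_pos.2 hab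
      -- a point near `b`
      obtain ⟨a', ha1, ha2⟩ := A.exists_btw (x := b) (y := a) (s := min (dist a b) (ρ / 3))
        (le_min dist_nonneg (by positivity)) (by rw [dist_comm b a]; exact min_le_left _ _)
      have ha3 : 0 < dist a' b := by
        rw [dist_comm, ha2]
        exact lt_min hab' (by positivity)
      have ha4 : dist a' b ≤ ρ / 3 := by
        rw [dist_comm, ha2]
        exact min_le_right _ _
      have k1 : Btw a' b c := h.left_right ha1.symm
      have k2 : Btw a' b c' := h'.left_right ha1.symm
      by_cases hsmall : dist b c ≤ ρ / 3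
      · refine hnb a' b c c' ha3 k1 k2 hd ?_
        have : dist a' b + dist b c = dist a' c := k1
        rw [← this]
        linarith
      · push Not at hsmall
        obtain ⟨x, hx1, hx2⟩ := A.exists_btw (x := b) (y := c) (s := ρ / 3) (by positivity)
          hsmall.le
        obtain ⟨x', hx1', hx2'⟩ := A.exists_btw (x := b) (y := c') (s := ρ / 3) (by positivity)
          (by rw [← hd]; exact hsmall.le)
        have e : x = x' := by
          refine hnb a' b x x' ha3 (k1.right_left hx1) (k2.right_left hx1') (by rw [hx2, hx2']) ?_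
          have : dist a' b + dist b x = dist a' x := k1.right_left hx1
          rw [← this, hx2]
          linarith
        rw [← e] at hx1'
        refine ih b x c c' ?_ hx1 hx1' ?_ ?_
        · intro hbx
          rw [hbx, dist_self] at hx2
          linarith
        · unfold Btw at hx1 hx1'
          linarith
        · unfold Btw at hx1
          push_cast at hle
          linarith
  obtain ⟨n, hn⟩ := exists_nat_ge (dist b c / (ρ / 3))
  refine key n a b c c' hab h h' hd ?_
  rwa [div_le_iff₀ (by positivity)] at hn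

/-- Between points are unique. -/
theorem btw_unique {x y z z' : M} (h : Btw x z y) (h' : Btw x z' y)
    (hd : dist x z = dist x z') : z = z' := by
  obtain ⟨w, hw1, hw2⟩ := A.extend x y (L := 1) zero_le_one
  have hwy : w ≠ y := by
    intro e
    rw [e, dist_self] at hw2
    exact zero_ne_one hw2
  refine A.nb_global hwy (hw1.left_right h).symm (hw1.left_right h').symm ?_
  unfold Btw at h h'
  rw [dist_comm y z, dist_comm y z']
  linarith

/-- Concatenation: `a - b - c` and `b - c - d` with `b ≠ c` give `a - c - d`. -/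
theorem concat {a b c d : M} (hbc : b ≠ c) (h : Btw a b c) (h' : Btw b c d) : Btw a c d := by
  obtain ⟨d', h1, h2⟩ := A.extend a c (L := dist c d) dist_nonneg
  have h3 : Btw b c d' := h1.left_right h
  have e : d = d' := A.nb_global hbc h' h3 h2.symm
  rw [e]
  exact h1

theorem concat' {a b c d : M} (hbc : b ≠ c) (h : Btw a b c) (h' : Btw b c d) : Btw a b d :=
  (A.concat hbc h h').left_left h

/-! ### Rays -/

/-- `z` lies on the ray from `o` through `x`. -/
def OnRay (o x z : M) : Prop := Btw o z x ∨ Btw o x z

omit A in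
theorem onRay_self (o x : M) : OnRay o x x := Or.inl (btw_right o x)

theorem exists_onRay (o x : M) {t : ℝ} (ht : 0 ≤ t) : ∃ z, OnRay o x z ∧ dist o z = t := by
  by_cases h : t ≤ dist o x
  · obtain ⟨z, h1, h2⟩ := A.exists_btw ht h
    exact ⟨z, Or.inl h1, h2⟩
  · push Not at h
    obtain ⟨z, h1, h2⟩ := A.extend o x (L := t - dist o x) (by linarith)
    refine ⟨z, Or.inr h1, ?_⟩
    unfold Btw at h1
    linarith

theorem onRay_btw {o x z z' : M} (hox : o ≠ x) (h : OnRay o x z) (h' : OnRay o x z')
    (hle : dist o z ≤ dist o z') : Btw o z z' := by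
  rcases h with h | h <;> rcases h' with h' | h'
  · obtain ⟨y, h1, h2⟩ := A.exists_btw (x := o) (y := z') (s := dist o z) dist_nonneg hle
    have h3 : Btw o y x := h'.left_left h1
    rw [← A.btw_unique h3 h h2]
    exact h1
  · exact h'.left_left h
  · have h1 := h.dist_left_le
    have h2 := h'.dist_left_le
    have h3 : dist o z = dist o x := by linarith
    have h4 : dist o z' = dist o x := by linarith
    have e1 : x = z := by
      unfold Btw at h
      exact dist_eq_zero.1 (by linarith)
    have e2 : z' = x := by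
      unfold Btw at h'
      exact dist_eq_zero.1 (by linarith)
    rw [← e1, e2]
    exact btw_right o x
  · obtain ⟨y, h1, h2⟩ := A.extend o z (L := dist o z' - dist o z) (by linarith)
    have h3 : Btw o x y := h1.left_left h
    have h4 : y = z' := by
      refine A.nb_global hox h3 h' ?_
      unfold Btw at *
      linarith
    rw [← h4]
    exact h1

theorem onRay_unique {o x z z' : M} (hox : o ≠ x) (h : OnRay o x z) (h' : OnRay o x z')
    (hd : dist o z = dist o z') : z = z' := by
  have := A.onRay_btw hox h h' hd.le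
  unfold Btw at this
  exact dist_eq_zero.1 (by linarith)

/-- The opposite direction. -/
theorem btw_onRay {y o x z : M} (hox : o ≠ x) (h : Btw y o x) (hz : OnRay o x z) :
    Btw y o z := by
  rcases hz with hz | hz
  · exact h.right_left hz
  · exact A.concat' hox h hz

/-- The line through two points. -/
theorem exists_line {o x : M} (hox : o ≠ x) :
    ∃ γ : ℝ → M, Isometry γ ∧ γ 0 = o ∧ γ (dist o x) = x := by
  classical
  obtain ⟨x', hx1, hx2⟩ := A.extend x o (L := 1) zero_le_one
  have hox' : o ≠ x' := by
    intro e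
    rw [e, dist_self] at hx2
    exact zero_ne_one hx2
  choose! f hf1 hf2 using fun t : ℝ => A.exists_onRay o x (t := |t|) (abs_nonneg t)
  choose! g hg1 hg2 using fun t : ℝ => A.exists_onRay o x' (t := |t|) (abs_nonneg t)
  have hf : ∀ s t : ℝ, 0 ≤ s → s ≤ t → dist (f s) (f t) = t - s := by
    intro s t hs hst
    have h0 : dist o (f s) ≤ dist o (f t) := by
      rw [hf2, hf2, abs_of_nonneg hs, abs_of_nonneg (hs.trans hst)]
      exact hst
    have := A.onRay_btw hox (hf1 s) (hf1 t) h0
    unfold Btw at this
    rw [hf2, hf2, abs_of_nonneg hs, abs_of_nonneg (hs.trans hst)] at this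
    linarith
  have hg : ∀ s t : ℝ, 0 ≤ s → s ≤ t → dist (g s) (g t) = t - s := by
    intro s t hs hst
    have h0 : dist o (g s) ≤ dist o (g t) := by
      rw [hg2, hg2, abs_of_nonneg hs, abs_of_nonneg (hs.trans hst)]
      exact hst
    have := A.onRay_btw hox' (hg1 s) (hg1 t) h0
    unfold Btw at this
    rw [hg2, hg2, abs_of_nonneg hs, abs_of_nonneg (hs.trans hst)] at this
    linarith
  have hfg : ∀ s t : ℝ, 0 ≤ s → 0 ≤ t → dist (g s) (f t) = s + t := by
    intro s t hs ht
    have h1 : Btw x o (g s) := A.btw_onRay hox' hx1 (hg1 s)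
    have h2 : Btw (g s) o (f t) := A.btw_onRay hox h1.symm (hf1 t)
    unfold Btw at h2
    rw [dist_comm, hg2, hf2, abs_of_nonneg hs, abs_of_nonneg ht] at h2
    linarith
  refine ⟨fun t => if 0 ≤ t then f t else g (-t), ?_, ?_, ?_⟩
  · have main : ∀ s t : ℝ, s ≤ t → dist (if 0 ≤ s then f s else g (-s))
        (if 0 ≤ t then f t else g (-t)) = t - s := by
      intro s t hst
      by_cases hs : 0 ≤ s
      · have ht : 0 ≤ t := hs.trans hst
        rw [if_pos hs, if_pos ht]
        exact hf s t hs hst
      · by_cases ht : 0 ≤ t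
        · rw [if_neg hs, if_pos ht, hfg (-s) t (by linarith) ht]
          ring
        · rw [if_neg hs, if_neg ht, dist_comm, hg (-t) (-s) (by linarith) (by linarith)]
          ring
    refine Isometry.of_dist_eq fun s t => ?_
    rw [Real.dist_eq]
    rcases le_total s t with h | h
    · rw [abs_sub_comm, abs_of_nonneg (sub_nonneg.2 h)]
      exact main s t h
    · rw [dist_comm, abs_of_nonneg (sub_nonneg.2 h)]
      exact main t s h
  · simp only [le_refl, if_true]
    have := hf2 0
    rw [abs_zero] at this
    exact (dist_eq_zero.1 this).symm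
  · simp only [dist_nonneg, if_true]
    refine A.onRay_unique hox (hf1 _) (onRay_self o x) ?_
    rw [hf2, abs_of_nonneg dist_nonneg]

omit A in
theorem isometry_btw {γ : ℝ → M} (hγ : Isometry γ) {r s t : ℝ} (h1 : r ≤ s) (h2 : s ≤ t) :
    Btw (γ r) (γ s) (γ t) := by
  unfold Btw
  rw [hγ.dist_eq, hγ.dist_eq, hγ.dist_eq, Real.dist_eq, Real.dist_eq, Real.dist_eq,
    abs_sub_comm, abs_sub_comm s t, abs_sub_comm r t, abs_of_nonneg, abs_of_nonneg, abs_of_nonneg]
  all_goals linarith

/-- Lines which agree at two points agree. -/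
theorem line_unique {γ δ : ℝ → M} (hγ : Isometry γ) (hδ : Isometry δ) {a b : ℝ} (hab : a < b)
    (ha : γ a = δ a) (hb : γ b = δ b) : γ = δ := by
  have hne : γ a ≠ γ b := fun e => hab.ne (hγ.injective e)
  have hd : ∀ s t : ℝ, dist (γ s) (γ t) = dist (δ s) (δ t) := fun s t => by
    rw [hγ.dist_eq, hδ.dist_eq]
  funext t
  rcases le_total t a with h | h
  · refine A.nb_global (a := γ b) (b := γ a) hne.symm (isometry_btw hγ h hab.le).symm ?_ ?_
    · rw [ha, hb]
      exact (isometry_btw hδ h hab.le).symm
    · rw [hd, ← ha]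
  · rcases le_total t b with h' | h'
    · refine A.btw_unique (x := γ a) (y := γ b) (isometry_btw hγ h h') ?_ ?_
      · rw [ha, hb]
        exact isometry_btw hδ h h'
      · rw [hd, ← ha]
    · refine A.nb_global (a := γ a) (b := γ b) hne (isometry_btw hγ hab.le h') ?_ ?_
      · rw [ha, hb]
        exact isometry_btw hδ hab.le h'
      · rw [hd, ← hb]

end Ax

end Pool.Agent.Work.MP_3b24f6_gt.S
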