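import Mathlib

set_option autoImplicit false

open MeasureTheory Set Filter Topology
open scoped ContDiff InnerProductSpace Manifold

/-! Block A of the proof of the frozen statement: local Riemannian geometry. Definitions. -/

namespace Pool.Agent.Work.MP_3b24f6_gt.Froz

noncomputable section

section basic
variable {E : Type*} [NormedAddCommGroup E] [NormedSpace ℝ E]

/-- `g` is a smooth Riemannian metric on the open set `U` of the vector space `E`. -/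
structure RMet (U : Set E) (g : E → E →L[ℝ] E →L[ℝ] ℝ) : Prop where
  isOpen : IsOpen U
  smooth : ContDiffOn ℝ ∞ g U
  symm : ∀ y ∈ U, ∀ u v, g y u v = g y v u
  pos : ∀ y ∈ U, ∀ u, u ≠ 0 → 0 < g y u u

/-- Length of the vector `v` at `y`. -/
def gnorm (g : E → E →L[ℝ] E →L[ℝ] ℝ) (y v : E) : ℝ := Real.sqrt (g y v v)

/-- `Γ` is the Christoffel map of `g` on `U`. -/
structure IsChris (U : Set E) (g : E → E →L[ℝ] E →L[ℝ] ℝ) (Γ : E → E →L[ℝ] E →L[ℝ] E) :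
    Prop where
  smooth : ContDiffOn ℝ ∞ Γ U
  symm : ∀ y ∈ U, ∀ u v, Γ y u v = Γ y v u
  compat : ∀ y ∈ U, ∀ x u v, fderiv ℝ g y x u v = g y (Γ y x u) v + g y u (Γ y x v)

/-- Derivative of `X (p, ·)` at `v`. -/
def dX (X : E × E → E) (p v : E) : E →L[ℝ] E := fderiv ℝ (fun w => X (p, w)) v

/-- `X` is an exponential map of `Γ` for base points in `ball p₀ r` and vectors in `ball 0 r`. -/
structure IsExp (U : Set E) (Γ : E → E →L[ℝ] E →L[ℝ] E) (p₀ : E) (r : ℝ) (X : E × E → E) :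
    Prop where
  pos : 0 < r
  base : Metric.ball p₀ r ⊆ U
  smooth : ContDiffOn ℝ ∞ X (Metric.ball p₀ r ×ˢ Metric.ball 0 r)
  mem : ∀ p ∈ Metric.ball p₀ r, ∀ v ∈ Metric.ball (0 : E) r, X (p, v) ∈ U
  zero : ∀ p ∈ Metric.ball p₀ r, X (p, 0) = p
  deriv_zero : ∀ p ∈ Metric.ball p₀ r, dX X p 0 = ContinuousLinearMap.id ℝ E
  geod : ∀ p ∈ Metric.ball p₀ r, ∀ (v : E) (t : ℝ), t • v ∈ Metric.ball (0 : E) r →
    HasDerivAt (fun s : ℝ => dX X p (s • v) v)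
      (-(Γ (X (p, t • v)) (dX X p (t • v) v) (dX X p (t • v) v))) t

/-- `M` is a length space (every distance is almost realised by fine chains). -/
def ChainLen (M : Type*) [MetricSpace M] : Prop :=
  ∀ p q : M, ∀ δ, 0 < δ → ∀ ε, 0 < ε → ∃ (n : ℕ) (z : ℕ → M), z 0 = p ∧ z n = q ∧
    (∀ i < n, dist (z i) (z (i + 1)) < δ) ∧
    ∑ i ∈ Finset.range n, dist (z i) (z (i + 1)) < dist p q + ε

/-- The metric space `M` is, near `ι p₀`, the open set `U` of `E` with the length distance of the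
Riemannian metric `g` (purely metric formulation). -/
structure MetModel (M : Type*) [MetricSpace M] (U : Set E) (g : E → E →L[ℝ] E →L[ℝ] ℝ)
    (ι : E → M) : Prop where
  met : RMet U g
  inj : InjOn ι U
  cont : ContinuousOn ι U
  isOpen_image : ∀ V ⊆ U, IsOpen V → IsOpen (ι '' V)
  near : ∀ x₀ ∈ U, ∀ ε, 0 < ε → ∃ δ, 0 < δ ∧ Metric.ball x₀ δ ⊆ U ∧
    ∀ x ∈ Metric.ball x₀ δ, ∀ y ∈ Metric.ball x₀ δ,
      (1 - ε) * gnorm g x₀ (x - y) ≤ dist (ι x) (ι y) ∧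
      dist (ι x) (ι y) ≤ (1 + ε) * gnorm g x₀ (x - y)
  chain : ChainLen M

/-- The exported local geometry around the point `ι p₀`: `X` is the exponential map and `W` its
inverse, `W (p, X (p, v)) = v`. -/
structure LocGeo (M : Type*) [MetricSpace M] (U : Set E) (g : E → E →L[ℝ] E →L[ℝ] ℝ)
    (ι : E → M) (p₀ : E) (r ρ : ℝ) (X W : E × E → E) : Prop where
  r_pos : 0 < r
  ρ_pos : 0 < ρ
  base : Metric.ball p₀ r ⊆ U
  smooth : ContDiffOn ℝ ∞ X (Metric.ball p₀ r ×ˢ Metric.ball 0 r)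
  mem : ∀ p ∈ Metric.ball p₀ r, ∀ v ∈ Metric.ball (0 : E) r, X (p, v) ∈ U
  small : ∀ p ∈ Metric.ball p₀ r, ∀ v, gnorm g p v < ρ → v ∈ Metric.ball (0 : E) r
  zero : ∀ p ∈ Metric.ball p₀ r, X (p, 0) = p
  deriv_zero : ∀ p ∈ Metric.ball p₀ r, dX X p 0 = ContinuousLinearMap.id ℝ E
  deriv_inj : ∀ p ∈ Metric.ball p₀ r, ∀ v, gnorm g p v < ρ → ∀ w, dX X p v w = 0 → w = 0
  inv_left : ∀ p ∈ Metric.ball p₀ r, ∀ v, gnorm g p v < ρ → W (p, X (p, v)) = v
  inv_smooth : ∀ p ∈ Metric.ball p₀ r, ∀ v, gnorm g p v < ρ → ContDiffAt ℝ ∞ W (p, X (p, v))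
  gauss : ∀ p ∈ Metric.ball p₀ r, ∀ v, gnorm g p v < ρ → ∀ w,
    g (X (p, v)) (dX X p v v) (dX X p v w) = g p v w
  /-- distances along a geodesic (both directions) -/
  dist_geod : ∀ p ∈ Metric.ball p₀ r, ∀ v, gnorm g p v < ρ → ∀ s ∈ Icc (-1 : ℝ) 1,
    ∀ s' ∈ Icc (-1 : ℝ) 1, dist (ι (X (p, s • v))) (ι (X (p, s' • v))) = |s - s'| * gnorm g p v
  /-- all points at distance `< ρ` are reached -/
  surj : ∀ p ∈ Metric.ball p₀ r, ∀ z : M, dist (ι p) z < ρ → ∃ v, gnorm g p v < ρ ∧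
    ι (X (p, v)) = z
  /-- points between `p` and `X (p, v)` are on the geodesic -/
  between : ∀ p ∈ Metric.ball p₀ r, ∀ v, gnorm g p v < ρ → ∀ z : M,
    dist (ι p) z + dist z (ι (X (p, v))) = gnorm g p v →
      ∃ s ∈ Icc (0 : ℝ) 1, z = ι (X (p, s • v))
  /-- infinitesimal distances -/
  inf : ∀ p ∈ Metric.ball p₀ r, ∀ v w,
    Tendsto (fun t : ℝ => dist (ι (X (p, t • v))) (ι (X (p, t • w))) / t) (𝓝[>] 0)
      (𝓝 (gnorm g p (v - w)))

end basic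

end

end Pool.Agent.Work.MP_3b24f6_gt.Froz
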