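import Pool.Agent.Work.MP_3b24f6_gt.S.Gnorm

set_option autoImplicit false
set_option maxSynthPendingDepth 3

open MeasureTheory Set Filter Topology
open scoped ContDiff InnerProductSpace Manifold

/-! Block A: the inverse of the exponential map. -/

namespace Pool.Agent.Work.MP_3b24f6_gt.Froz

noncomputable section

section Inv
variable {E : Type*} [NormedAddCommGroup E] [NormedSpace ℝ E] [FiniteDimensional ℝ E]
variable {U : Set E} {g : E → E →L[ℝ] E →L[ℝ] ℝ} {Γ : E → E →L[ℝ] E →L[ℝ] E} {p₀ : E} {r : ℝ}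
  {X : E × E → E}

/-- Local inverse of the exponential map, jointly smooth. -/
theorem IsExp.exists_inv (_hg : RMet U g) (_hΓ : IsChris U g Γ) (hX : IsExp U Γ p₀ r X) :
    ∃ r₁, 0 < r₁ ∧ r₁ ≤ r ∧ ∃ r₂, 0 < r₂ ∧ r₂ ≤ r₁ ∧ ∃ W : E × E → E,
      (∀ p ∈ Metric.ball p₀ r₁, ∀ v ∈ Metric.ball (0 : E) r₁, W (p, X (p, v)) = v ∧
        ContDiffAt ℝ ∞ W (p, X (p, v)) ∧ ∀ w, dX X p v w = 0 → w = 0) ∧
      (∀ p ∈ Metric.ball p₀ r₂, ∀ q ∈ Metric.ball p₀ r₂, W (p, q) ∈ Metric.ball (0 : E) r₁ ∧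
        X (p, W (p, q)) = q) := by
  have : CompleteSpace E := FiniteDimensional.complete ℝ E
  set F : E × E → E × E := fun z => (z.1, X z) with hF
  set D : Set (E × E) := Metric.ball p₀ r ×ˢ Metric.ball (0:E) r with hD
  have hDo : IsOpen D := Metric.isOpen_ball.prod Metric.isOpen_ball
  have hz₀ : ((p₀, 0) : E × E) ∈ D :=
    ⟨Metric.mem_ball_self hX.pos, Metric.mem_ball_self hX.pos⟩
  have hXs : ∀ z ∈ D, ContDiffAt ℝ ∞ X z := fun z hz => hX.smooth.contDiffAt (hDo.mem_nhds hz)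
  have hFs : ∀ z ∈ D, ContDiffAt ℝ ∞ F z := fun z hz => contDiffAt_fst.prodMk (hXs z hz)
  have hXd : ∀ z ∈ D, HasFDerivAt X (fderiv ℝ X z) z :=
    fun z hz => ((hXs z hz).differentiableAt (by simp)).hasFDerivAt
  have hFd : ∀ z ∈ D, HasFDerivAt F ((ContinuousLinearMap.fst ℝ E E).prod (fderiv ℝ X z)) z :=
    fun z hz => hasFDerivAt_fst.prodMk (hXd z hz)
  have hdX : ∀ z ∈ D, ∀ w, dX X z.1 z.2 w = fderiv ℝ X z (0, w) := by
    intro z hz w
    have h1 : HasFDerivAt (fun v : E => (z.1, v)) (ContinuousLinearMap.inr ℝ E E) z.2 :=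
      hasFDerivAt_prodMk_right z.1 z.2
    have h2 : HasFDerivAt (fun v : E => X (z.1, v))
        ((fderiv ℝ X z).comp (ContinuousLinearMap.inr ℝ E E)) z.2 := (hXd z hz).comp z.2 h1
    have h3 : dX X z.1 z.2 = (fderiv ℝ X z).comp (ContinuousLinearMap.inr ℝ E E) := h2.fderiv
    rw [h3]; simp
  have hL1 : ∀ a, fderiv ℝ X (p₀, 0) (a, 0) = a := by
    intro a
    have h1 : HasFDerivAt (fun q : E => (q, (0:E))) (ContinuousLinearMap.inl ℝ E E) p₀ :=
      hasFDerivAt_prodMk_left p₀ 0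
    have h2 : HasFDerivAt (fun q : E => X (q, 0))
        ((fderiv ℝ X (p₀, 0)).comp (ContinuousLinearMap.inl ℝ E E)) p₀ :=
      (hXd (p₀, 0) hz₀).comp p₀ h1
    have h3 : (fun q : E => X (q, 0)) =ᶠ[𝓝 p₀] fun q => q := by
      filter_upwards [Metric.ball_mem_nhds p₀ hX.pos] with q hq using hX.zero q hq
    have h4 := (h2.congr_of_eventuallyEq h3.symm).unique (hasFDerivAt_id p₀)
    have := congrArg (fun T : E →L[ℝ] E => T a) h4
    simpa using this
  have hL : ∀ a b, fderiv ℝ X (p₀, 0) (a, b) = a + b := by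
    intro a b
    have h1 : ((a, b) : E × E) = (a, 0) + (0, b) := by simp
    rw [h1, map_add, hL1, ← hdX (p₀, 0) hz₀, hX.deriv_zero p₀ (Metric.mem_ball_self hX.pos)]
    rfl
  -- the derivative at `(p₀, 0)` as an equivalence
  set A : (E × E) →L[ℝ] (E × E) :=
    (ContinuousLinearMap.fst ℝ E E).prod (fderiv ℝ X (p₀, 0)) with hA
  have hAinj : Function.Injective A := by
    rw [injective_iff_map_eq_zero]
    rintro ⟨a, b⟩ h
    simp only [hA, ContinuousLinearMap.prod_apply, ContinuousLinearMap.coe_fst', hL,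
      Prod.mk_eq_zero] at h
    obtain ⟨h1, h2⟩ := h
    rw [h1, zero_add] at h2
    simp [h1, h2]
  set e : (E × E) ≃L[ℝ] (E × E) :=
    (LinearEquiv.ofInjectiveEndo A.toLinearMap hAinj).toContinuousLinearEquiv with he
  have heA : (e : (E × E) →L[ℝ] (E × E)) = A := by
    ext z <;> simp [he]
  -- nearby derivatives are equivalences
  have hcont : ContinuousAt (fun z => (ContinuousLinearMap.fst ℝ E E).prod (fderiv ℝ X z))
      (p₀, 0) := by
    have h1 : ContinuousAt (fderiv ℝ X) (p₀, 0) :=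
      ((hXs _ hz₀).fderiv_right (m := 0) (by simp)).continuousAt
    have h2 : ContinuousAt (fderiv ℝ F) (p₀, 0) :=
      ((hFs _ hz₀).fderiv_right (m := 0) (by simp)).continuousAt
    refine h2.congr ?_
    filter_upwards [hDo.mem_nhds hz₀] with z hz using (hFd z hz).fderiv
  have hnear : ∀ᶠ z in 𝓝 ((p₀, 0) : E × E), ∃ e' : (E × E) ≃L[ℝ] (E × E),
      (e' : (E × E) →L[ℝ] (E × E)) = (ContinuousLinearMap.fst ℝ E E).prod (fderiv ℝ X z) := by
    have h1 := ContinuousLinearEquiv.nhds e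
    rw [heA] at h1
    exact hcont.eventually h1
  have hfe : HasFDerivAt F (e : (E × E) →L[ℝ] (E × E)) (p₀, 0) := by
    rw [heA]; exact hFd _ hz₀
  set Φ := (hFs _ hz₀).toOpenPartialHomeomorph F hfe (by simp) with hΦ
  have hΦc : (Φ : E × E → E × E) = F := (hFs _ hz₀).toOpenPartialHomeomorph_coe hfe (by simp)
  have hΦs : ((p₀, 0) : E × E) ∈ Φ.source :=
    (hFs _ hz₀).mem_toOpenPartialHomeomorph_source hfe (by simp)
  have hS : Φ.source ∩ D ∩ {z | ∃ e' : (E × E) ≃L[ℝ] (E × E),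
      (e' : (E × E) →L[ℝ] (E × E)) = (ContinuousLinearMap.fst ℝ E E).prod (fderiv ℝ X z)}
      ∈ 𝓝 ((p₀, 0) : E × E) :=
    inter_mem (inter_mem (Φ.open_source.mem_nhds hΦs) (hDo.mem_nhds hz₀)) hnear
  obtain ⟨r₁, hr₁, hr₁S⟩ := Metric.mem_nhds_iff.1 hS
  rw [← ball_prod_same] at hr₁S
  set r₁' := min r₁ r with hr₁'
  have hr₁'0 : 0 < r₁' := lt_min hr₁ hX.pos
  have hS' : ∀ p ∈ Metric.ball p₀ r₁', ∀ v ∈ Metric.ball (0 : E) r₁', ((p, v) : E × E) ∈
      Φ.source ∩ D ∩ {z | ∃ e' : (E × E) ≃L[ℝ] (E × E),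
      (e' : (E × E) →L[ℝ] (E × E)) = (ContinuousLinearMap.fst ℝ E E).prod (fderiv ℝ X z)} := by
    intro p hp v hv
    exact hr₁S ⟨Metric.ball_subset_ball (min_le_left _ _) hp,
      Metric.ball_subset_ball (min_le_left _ _) hv⟩
  -- the inverse is continuous at `(p₀, p₀)`
  have hF0 : F (p₀, 0) = (p₀, p₀) := by
    simp [hF, hX.zero p₀ (Metric.mem_ball_self hX.pos)]
  have hT : ((p₀, p₀) : E × E) ∈ Φ.target := by
    have := Φ.map_source hΦs
    rwa [hΦc, hF0] at this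
  have hsymm0 : Φ.symm (p₀, p₀) = (p₀, 0) := by
    have := Φ.left_inv hΦs
    rwa [hΦc, hF0] at this
  have hcs : ContinuousAt Φ.symm (p₀, p₀) := Φ.continuousAt_symm hT
  have hev : Φ.target ∩ Φ.symm ⁻¹' (Metric.ball p₀ r₁' ×ˢ Metric.ball (0:E) r₁') ∈
      𝓝 ((p₀, p₀) : E × E) := by
    refine inter_mem (Φ.open_target.mem_nhds hT) (hcs.preimage_mem_nhds ?_)
    rw [hsymm0]
    exact (Metric.isOpen_ball.prod Metric.isOpen_ball).mem_nhds
      ⟨Metric.mem_ball_self hr₁'0, Metric.mem_ball_self hr₁'0⟩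
  obtain ⟨r₂, hr₂, hr₂S⟩ := Metric.mem_nhds_iff.1 hev
  rw [← ball_prod_same] at hr₂S
  refine ⟨r₁', hr₁'0, min_le_right _ _, min r₂ r₁', lt_min hr₂ hr₁'0, min_le_right _ _,
    fun z => (Φ.symm z).2, ?_, ?_⟩
  · intro p hp v hv
    obtain ⟨⟨hs, hDz⟩, e', he'⟩ := hS' p hp v hv
    have hinv : Φ.symm (p, X (p, v)) = (p, v) := by
      have := Φ.left_inv hs
      rwa [hΦc] at this
    have htgt : ((p, X (p, v)) : E × E) ∈ Φ.target := by
      have := Φ.map_source hs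
      rwa [hΦc] at this
    refine ⟨by simp only [hinv], ?_, ?_⟩
    · have hd : HasFDerivAt Φ (e' : (E × E) →L[ℝ] (E × E)) (Φ.symm (p, X (p, v))) := by
        rw [hinv, hΦc, he']; exact hFd _ hDz
      have hcd : ContDiffAt ℝ ∞ Φ (Φ.symm (p, X (p, v))) := by
        rw [hinv, hΦc]; exact hFs _ hDz
      exact (Φ.contDiffAt_symm htgt hd hcd).snd
    · intro w hw
      rw [hdX (p, v) hDz w] at hw
      have h0 : e' (0, w) = 0 := by
        have : (e' : (E × E) →L[ℝ] (E × E)) (0, w) = 0 := by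
          rw [he']; simp [hw]
        exact this
      have := e'.injective (h0.trans (map_zero e').symm)
      exact (Prod.ext_iff.1 this).2
  · intro p hp q hq
    have hpq : ((p, q) : E × E) ∈ Metric.ball p₀ r₂ ×ˢ Metric.ball p₀ r₂ :=
      ⟨Metric.ball_subset_ball (min_le_left _ _) hp, Metric.ball_subset_ball (min_le_left _ _) hq⟩
    obtain ⟨h1, h2⟩ := hr₂S hpq
    refine ⟨h2.2, ?_⟩
    have h3 : F (Φ.symm (p, q)) = (p, q) := by
      have := Φ.right_inv h1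
      rwa [hΦc] at this
    have h4 : (Φ.symm (p, q)).1 = p := (Prod.ext_iff.1 h3).1
    have h5 : X (Φ.symm (p, q)) = q := (Prod.ext_iff.1 h3).2
    have h6 : ((p, (Φ.symm (p, q)).2) : E × E) = Φ.symm (p, q) := by
      rw [← h4]
      ext <;> simp [h4]
    rw [h6]; exact h5

end Inv

end

end Pool.Agent.Work.MP_3b24f6_gt.Froz
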