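import Pool.Agent.Work.MP_3b24f6_gt.S.Gauss
import Pool.Agent.Work.MP_3b24f6_gt.S.NormalInv

set_option autoImplicit false
set_option linter.unusedSectionVars false
set_option maxSynthPendingDepth 3

open MeasureTheory Set Filter Topology
open scoped ContDiff InnerProductSpace Manifold

/-! Block A: distances from the centre of a normal ball. -/

namespace Pool.Agent.Work.MP_3b24f6_gt.Froz

noncomputable section

section trap
variable {M : Type*} [MetricSpace M]

/-- Trapping lemma: a function which is locally almost 1-Lipschitz on an open set with compact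
sublevel sets controls the distance. -/
theorem trap (hch : ChainLen M) {V : Set M} {F : M → ℝ} {p : M} (hpV : p ∈ V) {r : ℝ}
    (hloc : ∀ x ∈ V, ∀ ε, 0 < ε → ∃ δ, 0 < δ ∧ ∀ y z, dist y x < δ → dist z x < δ →
      y ∈ V ∧ F y - F z ≤ (1 + ε) * dist y z)
    (hcpt : ∀ s, s < r → IsCompact {x | x ∈ V ∧ F x ≤ s}) {z : M} (hz : F p + dist p z < r) :
    z ∈ V ∧ F z ≤ F p + dist p z := by
  -- main step: for every `ε`
  have main : ∀ ε, 0 < ε → F p + (1 + ε) * (dist p z + ε) < r →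
      z ∈ V ∧ F z ≤ F p + (1 + ε) * (dist p z + ε) := by
    intro ε hε hr
    set s := F p + (1 + ε) * (dist p z + ε) with hs
    have hK := hcpt s hr
    set K := {x | x ∈ V ∧ F x ≤ s} with hKdef
    -- Lebesgue number
    have hleb : ∃ δ, 0 < δ ∧ ∀ x ∈ K, ∀ y, dist y x < δ → y ∈ V ∧ F y - F x ≤ (1 + ε) * dist y x := by
      choose! D hD0 hD using fun x (hx : x ∈ V) => hloc x hx ε hε
      have hcov : K ⊆ ⋃ x : K, Metric.ball (x : M) (D x / 2) := by
        intro x hx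
        exact mem_iUnion.2 ⟨⟨x, hx⟩, Metric.mem_ball_self (half_pos (hD0 x hx.1))⟩
      obtain ⟨t, ht⟩ := hK.elim_finite_subcover (fun x : K => Metric.ball (x : M) (D x / 2))
        (fun _ => Metric.isOpen_ball) hcov
      rcases t.eq_empty_or_nonempty with h0 | hne
      · refine ⟨1, one_pos, fun x hx => ?_⟩
        have := ht hx
        simp [h0] at this
      · refine ⟨t.inf' hne (fun x => D x / 2), ?_, ?_⟩
        · rw [Finset.lt_inf'_iff]
          intro x _
          exact half_pos (hD0 x x.2.1)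
        · intro x hx y hy
          obtain ⟨c, hc, hxc⟩ := mem_iUnion₂.1 (ht hx)
          have h1 : dist y x < D c / 2 := hy.trans_le (Finset.inf'_le _ hc)
          have h2 : dist x c < D c / 2 := hxc
          have h3 : dist y c < D c := by
            have := dist_triangle y x c
            linarith
          have h4 : dist x (c : M) < D c := by
            have := hD0 c c.2.1
            linarith
          exact hD c c.2.1 y x h3 h4
    obtain ⟨δ, hδ, hstep⟩ := hleb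
    obtain ⟨n, w, hw0, hwn, hwd, hsum⟩ := hch p z δ hδ ε hε
    have hind : ∀ k ≤ n, w k ∈ V ∧ F (w k) ≤ F p + (1 + ε) * ∑ i ∈ Finset.range k,
        dist (w i) (w (i + 1)) := by
      intro k
      induction k with
      | zero =>
        intro _
        rw [hw0]
        exact ⟨hpV, by simp⟩
      | succ k ih =>
        intro hk
        obtain ⟨h1, h2⟩ := ih (by omega)
        have h3 : ∑ i ∈ Finset.range k, dist (w i) (w (i + 1)) ≤ dist p z + ε := by
          refine le_trans (Finset.sum_le_sum_of_subset_of_nonneg ?_ (fun _ _ _ => dist_nonneg))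
            hsum.le
          exact Finset.range_mono (by omega)
        have h4 : w k ∈ K := by
          refine ⟨h1, h2.trans ?_⟩
          have : (1 + ε) * ∑ i ∈ Finset.range k, dist (w i) (w (i + 1))
              ≤ (1 + ε) * (dist p z + ε) := by gcongr
          linarith
        obtain ⟨h5, h6⟩ := hstep (w k) h4 (w (k + 1)) (by rw [dist_comm]; exact hwd k (by omega))
        refine ⟨h5, ?_⟩
        rw [Finset.sum_range_succ, mul_add]
        rw [dist_comm (w (k + 1))] at h6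
        linarith
    obtain ⟨h1, h2⟩ := hind n le_rfl
    rw [hwn] at h1 h2
    refine ⟨h1, h2.trans ?_⟩
    have : (1 + ε) * ∑ i ∈ Finset.range n, dist (w i) (w (i + 1))
        ≤ (1 + ε) * (dist p z + ε) := by
      gcongr
    linarith
  -- let `ε` tend to zero
  have hlim : Tendsto (fun ε : ℝ => F p + (1 + ε) * (dist p z + ε)) (𝓝[>] 0)
      (𝓝 (F p + dist p z)) := by
    have : Tendsto (fun ε : ℝ => F p + (1 + ε) * (dist p z + ε)) (𝓝 0)
        (𝓝 (F p + (1 + 0) * (dist p z + 0))) :=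
      Continuous.tendsto (by fun_prop) 0
    simp only [add_zero, one_mul] at this
    exact this.mono_left nhdsWithin_le_nhds
  have hev : ∀ᶠ ε in 𝓝[>] (0 : ℝ), F p + (1 + ε) * (dist p z + ε) < r :=
    hlim.eventually (gt_mem_nhds hz)
  have hpos : ∀ᶠ ε in 𝓝[>] (0 : ℝ), 0 < ε := self_mem_nhdsWithin
  refine ⟨?_, ?_⟩
  · obtain ⟨ε, h1, h2⟩ := (hev.and hpos).exists
    exact (main ε h2 h1).1
  · refine ge_of_tendsto hlim ?_
    filter_upwards [hev, hpos] with ε h1 h2
    exact (main ε h2 h1).2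

end trap

section curve
variable {E : Type*} [NormedAddCommGroup E] [NormedSpace ℝ E] [FiniteDimensional ℝ E]
  {M : Type*} [MetricSpace M] {U : Set E} {g : E → E →L[ℝ] E →L[ℝ] ℝ} {ι : E → M}

/-- `gnorm g y` is continuous in the vector. -/
theorem continuous_gnorm_right (g : E → E →L[ℝ] E →L[ℝ] ℝ) (y : E) :
    Continuous (fun v => gnorm g y v) := by
  unfold gnorm
  have : Continuous (fun v : E => g y v v) := by
    have h1 : Continuous (fun v : E => g y v) := (g y).continuous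
    exact h1.clm_apply continuous_id
  exact this.sqrt

/-- Length bound for differentiable curves. -/
theorem MetModel.dist_le_of_curve (hM : MetModel M U g ι) {c c' : ℝ → E} {s s' a : ℝ}
    (hs : s ≤ s') (hU : ∀ t ∈ Icc s s', c t ∈ U)
    (hc : ∀ t ∈ Icc s s', HasDerivAt c (c' t) t)
    (ha : ∀ t ∈ Icc s s', gnorm g (c t) (c' t) ≤ a) :
    dist (ι (c s)) (ι (c s')) ≤ a * (s' - s) := by
  have hcont : ContinuousOn c (Icc s s') := fun t ht => (hc t ht).continuousAt.continuousWithinAt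
  have key := image_le_of_liminf_slope_right_le_deriv_boundary
    (f := fun t => dist (ι (c s)) (ι (c t))) (a := s) (b := s')
    (B := fun t => a * (t - s)) (B' := fun _ => a) ?_ ?_ ?_ ?_ ?_
  · exact key (right_mem_Icc.2 hs)
  · exact continuous_dist.comp_continuousOn (continuousOn_const.prodMk (hM.cont.comp hcont hU))
  · simp
  · fun_prop
  · intro t _
    have := ((hasDerivAt_id t).sub_const s).const_mul a
    simpa using this.hasDerivWithinAt
  · intro t ht r hr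
    have htI : t ∈ Icc s s' := ⟨ht.1, ht.2.le⟩
    refine Eventually.frequently ?_
    -- slope bound
    have h1 : Tendsto (fun z => (z - t)⁻¹ • (c z - c t)) (𝓝[>] t) (𝓝 (c' t)) := by
      have := (hc t htI).hasDerivWithinAt (s := Ioi t)
      rw [hasDerivWithinAt_iff_tendsto_slope' (by simp)] at this
      exact this
    have h2 : Tendsto (fun z => gnorm g (c t) ((z - t)⁻¹ • (c z - c t))) (𝓝[>] t)
        (𝓝 (gnorm g (c t) (c' t))) :=
      ((continuous_gnorm_right g (c t)).tendsto _).comp h1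
    have h3 : gnorm g (c t) (c' t) < r := (ha t htI).trans_lt hr
    -- choose `ε`
    have h4 : ∃ ε, 0 < ε ∧ (1 + ε) * (gnorm g (c t) (c' t) + ε) < r := by
      have hl : Tendsto (fun ε : ℝ => (1 + ε) * (gnorm g (c t) (c' t) + ε)) (𝓝[>] 0)
          (𝓝 (gnorm g (c t) (c' t))) := by
        have : Tendsto (fun ε : ℝ => (1 + ε) * (gnorm g (c t) (c' t) + ε)) (𝓝 0)
            (𝓝 ((1 + 0) * (gnorm g (c t) (c' t) + 0))) :=
          Continuous.tendsto (by fun_prop) 0
        simp only [add_zero, one_mul] at this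
        exact this.mono_left nhdsWithin_le_nhds
      obtain ⟨ε, h5, h6⟩ := ((hl.eventually (gt_mem_nhds h3)).and
        (self_mem_nhdsWithin : ∀ᶠ ε in 𝓝[>] (0 : ℝ), 0 < ε)).exists
      exact ⟨ε, h6, h5⟩
    obtain ⟨ε, hε, hεr⟩ := h4
    obtain ⟨δ, hδ, _, hnear⟩ := hM.near (c t) (hU t htI) ε hε
    have h5 : ∀ᶠ z in 𝓝[>] t, c z ∈ Metric.ball (c t) δ :=
      (hc t htI).continuousAt.continuousWithinAt.eventually (Metric.ball_mem_nhds _ hδ)
    have h6 : ∀ᶠ z in 𝓝[>] t, gnorm g (c t) ((z - t)⁻¹ • (c z - c t))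
        < gnorm g (c t) (c' t) + ε := h2.eventually (gt_mem_nhds (by linarith))
    filter_upwards [h5, h6, (self_mem_nhdsWithin : ∀ᶠ z in 𝓝[>] t, t < z)] with z hz1 hz2 hz3
    have hzt : 0 < z - t := sub_pos.2 hz3
    have h7 := (hnear (c z) hz1 (c t) (Metric.mem_ball_self hδ)).2
    have h8 : gnorm g (c t) (c z - c t) = (z - t) * gnorm g (c t) ((z - t)⁻¹ • (c z - c t)) := by
      rw [gnorm_smul, abs_of_pos (inv_pos.2 hzt)]
      field_simp
    have h9 : dist (ι (c t)) (ι (c z)) ≤ (z - t) * ((1 + ε) * (gnorm g (c t) (c' t) + ε)) := by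
      rw [dist_comm]
      refine h7.trans ?_
      rw [h8]
      have : (1 + ε) * ((z - t) * gnorm g (c t) ((z - t)⁻¹ • (c z - c t)))
          ≤ (1 + ε) * ((z - t) * (gnorm g (c t) (c' t) + ε)) := by gcongr
      linarith
    rw [slope_def_field]
    have h10 : dist (ι (c s)) (ι (c z)) - dist (ι (c s)) (ι (c t)) ≤ dist (ι (c t)) (ι (c z)) := by
      have := dist_triangle (ι (c s)) (ι (c t)) (ι (c z))
      linarith
    rw [div_lt_iff₀ hzt]
    calc dist (ι (c s)) (ι (c z)) - dist (ι (c s)) (ι (c t))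
        ≤ (z - t) * ((1 + ε) * (gnorm g (c t) (c' t) + ε)) := h10.trans h9
      _ < (z - t) * r := by gcongr
      _ = r * (z - t) := by ring

end curve

section exp
variable {E : Type*} [NormedAddCommGroup E] [NormedSpace ℝ E] [FiniteDimensional ℝ E]
  {M : Type*} [MetricSpace M] {U : Set E} {g : E → E →L[ℝ] E →L[ℝ] ℝ} {ι : E → M}
  {Γ : E → E →L[ℝ] E →L[ℝ] E} {p₀ : E} {r : ℝ} {X : E × E → E}

theorem IsExp.contDiffAt (hX : IsExp U Γ p₀ r X) {p v : E} (hp : p ∈ Metric.ball p₀ r)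
    (hv : v ∈ Metric.ball (0 : E) r) : ContDiffAt ℝ ∞ (fun w => X (p, w)) v := by
  have h1 : ContDiffAt ℝ ∞ X (p, v) :=
    hX.smooth.contDiffAt ((Metric.isOpen_ball.prod Metric.isOpen_ball).mem_nhds ⟨hp, hv⟩)
  exact h1.comp v (contDiffAt_const.prodMk contDiffAt_id)

theorem IsExp.hasStrictFDerivAt (hX : IsExp U Γ p₀ r X) {p v : E} (hp : p ∈ Metric.ball p₀ r)
    (hv : v ∈ Metric.ball (0 : E) r) :
    HasStrictFDerivAt (fun w => X (p, w)) (dX X p v) v :=
  (hX.contDiffAt hp hv).hasStrictFDerivAt (by simp)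

theorem IsExp.hasDerivAt_ray (hX : IsExp U Γ p₀ r X) {p v : E} {t : ℝ}
    (hp : p ∈ Metric.ball p₀ r) (hv : t • v ∈ Metric.ball (0 : E) r) :
    HasDerivAt (fun s : ℝ => X (p, s • v)) (dX X p (t • v) v) t := by
  have h1 : HasDerivAt (fun s : ℝ => s • v) v t := by
    simpa using (hasDerivAt_id t).smul_const v
  exact (hX.hasStrictFDerivAt hp hv).hasFDerivAt.comp_hasDerivAt t h1

theorem smul_mem_ball_of_mem_Icc {v : E} {s s' t : ℝ} (hs : s • v ∈ Metric.ball (0 : E) r)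
    (hs' : s' • v ∈ Metric.ball (0 : E) r) (ht : t ∈ Icc s s') :
    t • v ∈ Metric.ball (0 : E) r := by
  have hconv : Convex ℝ (Metric.ball (0 : E) r) := convex_ball 0 r
  rcases ht.1.eq_or_lt with h | h
  · rw [← h]; exact hs
  have hss : 0 < s' - s := by linarith [ht.2]
  have h1 : t • v = ((s' - t) / (s' - s)) • (s • v) + ((t - s) / (s' - s)) • (s' • v) := by
    rw [smul_smul, smul_smul, ← add_smul]
    congr 1
    field_simp
    ring
  rw [h1]
  refine hconv hs hs' ?_ ?_ ?_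
  · exact div_nonneg (by linarith [ht.2]) hss.le
  · exact div_nonneg (by linarith) hss.le
  · field_simp
    ring

/-- Upper bound: geodesics are curves of length `gnorm`. -/
theorem IsExp.dist_le (hM : MetModel M U g ι) (hΓ : IsChris U g Γ) (hX : IsExp U Γ p₀ r X)
    {p v : E} (hp : p ∈ Metric.ball p₀ r) {s s' : ℝ} (hs : s • v ∈ Metric.ball (0 : E) r)
    (hs' : s' • v ∈ Metric.ball (0 : E) r) :
    dist (ι (X (p, s • v))) (ι (X (p, s' • v))) ≤ |s - s'| * gnorm g p v := by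
  wlog h : s ≤ s' generalizing s s'
  · rw [dist_comm, abs_sub_comm]
    exact this hs' hs (le_of_not_ge h)
  have hmem : ∀ t ∈ Icc s s', t • v ∈ Metric.ball (0 : E) r :=
    fun t ht => smul_mem_ball_of_mem_Icc hs hs' ht
  have := hM.dist_le_of_curve (c := fun t : ℝ => X (p, t • v))
    (c' := fun t : ℝ => dX X p (t • v) v) (a := gnorm g p v) h
    (fun t ht => hX.mem p hp _ (hmem t ht))
    (fun t ht => hX.hasDerivAt_ray hp (hmem t ht))
    (fun t ht => (hX.energy hM.met hΓ hp (hmem t ht)).le)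
  rw [abs_sub_comm, abs_of_nonneg (sub_nonneg.2 h), mul_comm]
  exact this

/-- The metric at nearby points. -/
theorem RMet.gnorm_le_near (hg : RMet U g) {x₀ : E} (hx : x₀ ∈ U) {κ : ℝ} (hκ : 0 < κ) :
    ∀ᶠ y in 𝓝 x₀, ∀ u, gnorm g y u ≤ (1 + κ) * gnorm g x₀ u := by
  obtain ⟨δ, hδ, c, hc, C, hC, hU, hcC⟩ := hg.equiv hx
  have h1 : ContinuousAt g x₀ := hg.smooth.continuousOn.continuousAt (hg.isOpen.mem_nhds hx)
  have h2 : ∀ᶠ y in 𝓝 x₀, ‖g y - g x₀‖ < κ * c ^ 2 := by
    have h3 : ContinuousAt (fun y => ‖g y - g x₀‖) x₀ := (h1.sub continuousAt_const).norm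
    have h4 := h3.tendsto
    simp only [sub_self, norm_zero] at h4
    exact h4.eventually (gt_mem_nhds (by positivity : 0 < κ * c ^ 2))
  filter_upwards [h2, Metric.ball_mem_nhds x₀ hδ, hg.isOpen.mem_nhds hx] with y hy1 hy2 hy3 u
  have h3 : g y u u ≤ (1 + κ) * g x₀ u u := by
    have e1 : g y u u - g x₀ u u ≤ ‖g y - g x₀‖ * ‖u‖ * ‖u‖ := by
      calc g y u u - g x₀ u u = (g y - g x₀) u u := by simp
        _ ≤ |(g y - g x₀) u u| := le_abs_self _
        _ ≤ ‖(g y - g x₀) u‖ * ‖u‖ := ((g y - g x₀) u).le_opNorm u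
        _ ≤ ‖g y - g x₀‖ * ‖u‖ * ‖u‖ := by
          gcongr
          exact (g y - g x₀).le_opNorm u
    have e2 : c ^ 2 * ‖u‖ ^ 2 ≤ g x₀ u u := by
      have := (hcC x₀ (Metric.mem_ball_self hδ) u).1
      rw [← gnorm_sq hg hx]
      calc c ^ 2 * ‖u‖ ^ 2 = (c * ‖u‖) ^ 2 := by ring
        _ ≤ gnorm g x₀ u ^ 2 := by gcongr
    have e3 : ‖g y - g x₀‖ * ‖u‖ * ‖u‖ ≤ κ * c ^ 2 * ‖u‖ ^ 2 := by
      calc ‖g y - g x₀‖ * ‖u‖ * ‖u‖ = ‖g y - g x₀‖ * ‖u‖ ^ 2 := by ring
        _ ≤ κ * c ^ 2 * ‖u‖ ^ 2 := by gcongr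
    nlinarith
  have h4 : g y u u ≤ ((1 + κ) * gnorm g x₀ u) ^ 2 := by
    rw [mul_pow, gnorm_sq hg hx]
    have e1 : (1 + κ) * g x₀ u u ≤ (1 + κ) ^ 2 * g x₀ u u := by
      have := hg.nonneg hx u
      have h5 : 1 + κ ≤ (1 + κ) ^ 2 := by nlinarith
      gcongr
    exact h3.trans e1
  calc gnorm g y u = Real.sqrt (g y u u) := rfl
    _ ≤ Real.sqrt (((1 + κ) * gnorm g x₀ u) ^ 2) := Real.sqrt_le_sqrt h4
    _ = (1 + κ) * gnorm g x₀ u := Real.sqrt_sq (by
      have := gnorm_nonneg (g := g) x₀ u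
      positivity)

/-- The distance to the centre in normal coordinates is almost 1-Lipschitz (Gauss lemma). -/
theorem IsExp.lip (hg : RMet U g) (hΓ : IsChris U g Γ) (hX : IsExp U Γ p₀ r X)
    {p v₀ : E} (hp : p ∈ Metric.ball p₀ r) (hv₀ : v₀ ∈ Metric.ball (0 : E) r)
    (hinj : ∀ w, dX X p v₀ w = 0 → w = 0) {ε : ℝ} (hε : 0 < ε) :
    ∀ᶠ q in 𝓝 (v₀, v₀), gnorm g p q.1 - gnorm g p q.2
      ≤ (1 + ε) * gnorm g (X (p, v₀)) (X (p, q.1) - X (p, q.2)) := by
  set A := dX X p v₀ with hA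
  set x₀ := X (p, v₀) with hx₀
  have hx₀U : x₀ ∈ U := hX.mem p hp v₀ hv₀
  have hpU : p ∈ U := hX.base hp
  obtain ⟨δ, hδ, c, hc, C, hC, -, hcC⟩ := hg.equiv hx₀U
  have hcC' := hcC x₀ (Metric.mem_ball_self hδ)
  -- `A` is bounded below
  obtain ⟨a, ha, haA⟩ : ∃ a, 0 < a ∧ ∀ w, a * ‖w‖ ≤ ‖A w‖ := by
    have hinj' : Function.Injective (A : E →ₗ[ℝ] E) := by
      rw [← LinearMap.ker_eq_bot, LinearMap.ker_eq_bot']
      intro w hw
      exact hinj w hw
    obtain ⟨K, hK, hanti⟩ := (A : E →ₗ[ℝ] E).exists_antilipschitzWith (LinearMap.ker_eq_bot.2 hinj')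
    refine ⟨(K : ℝ)⁻¹, by positivity, fun w => ?_⟩
    have h := hanti.le_mul_dist w 0
    rw [dist_zero_right] at h
    have h' : ‖w‖ ≤ K * ‖A w‖ := by
      simpa [dist_eq_norm] using h
    rw [inv_mul_le_iff₀ (by positivity)]
    exact h'
  -- choose `κ`
  obtain ⟨κ, hκ, hκ1, hκ2⟩ : ∃ κ, 0 < κ ∧ C * κ < c * a ∧
      (1 + κ) * (c * a + C * κ) ≤ (1 + ε) * (c * a - C * κ) := by
    have hl : Tendsto (fun κ : ℝ => (1 + ε) * (c * a - C * κ) - (1 + κ) * (c * a + C * κ))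
        (𝓝[>] 0) (𝓝 (ε * (c * a))) := by
      have : Tendsto (fun κ : ℝ => (1 + ε) * (c * a - C * κ) - (1 + κ) * (c * a + C * κ)) (𝓝 0)
          (𝓝 ((1 + ε) * (c * a - C * 0) - (1 + 0) * (c * a + C * 0))) :=
        Continuous.tendsto (by fun_prop) 0
      have h2 : (1 + ε) * (c * a - C * 0) - (1 + 0) * (c * a + C * 0) = ε * (c * a) := by ring
      rw [h2] at this
      exact this.mono_left nhdsWithin_le_nhds
    have hl2 : Tendsto (fun κ : ℝ => C * κ) (𝓝[>] 0) (𝓝 0) := by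
      have : Tendsto (fun κ : ℝ => C * κ) (𝓝 0) (𝓝 (C * 0)) := Continuous.tendsto (by fun_prop) 0
      rw [mul_zero] at this
      exact this.mono_left nhdsWithin_le_nhds
    have hca : 0 < c * a := by positivity
    obtain ⟨κ, ⟨h3, h4⟩, h5⟩ := (((hl.eventually (lt_mem_nhds (by positivity : 0 < ε * (c * a)))).and
      (hl2.eventually (gt_mem_nhds hca))).and
      (self_mem_nhdsWithin : ∀ᶠ κ in 𝓝[>] (0 : ℝ), 0 < κ)).exists
    exact ⟨κ, h5, h4, by linarith⟩
  -- the four eventual facts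
  have f1 : ∀ᶠ q in 𝓝 (v₀, v₀), ‖X (p, q.1) - X (p, q.2) - A (q.1 - q.2)‖
      ≤ κ * ‖q.1 - q.2‖ := by
    have := (hX.hasStrictFDerivAt hp hv₀).isLittleO.def hκ
    exact this
  have f2 : ∀ᶠ q in 𝓝 (v₀, v₀), ‖dX X p q.1 - A‖ ≤ κ := by
    have h1 : ContinuousAt (fun v => dX X p v) v₀ :=
      ((hX.contDiffAt hp hv₀).fderiv_right (m := 0) (by simp)).continuousAt
    have h2 : ContinuousAt (fun q : E × E => dX X p q.1) (v₀, v₀) :=
      ContinuousAt.comp (g := fun v => dX X p v) (f := Prod.fst) (x := (v₀, v₀)) h1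
        continuousAt_fst
    have h3 := h2.eventually (Metric.closedBall_mem_nhds (dX X p v₀) hκ)
    filter_upwards [h3] with q hq
    simpa only [Metric.mem_closedBall, dist_eq_norm] using hq
  have f3 : ∀ᶠ q : E × E in 𝓝 (v₀, v₀), ∀ u, gnorm g (X (p, q.1)) u ≤ (1 + κ) * gnorm g x₀ u := by
    have h1 := hg.gnorm_le_near hx₀U hκ
    have h2 : ContinuousAt (fun q : E × E => X (p, q.1)) (v₀, v₀) :=
      ContinuousAt.comp (g := fun v => X (p, v)) (f := Prod.fst) (x := (v₀, v₀))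
        (hX.contDiffAt hp hv₀).continuousAt continuousAt_fst
    exact h2.eventually h1
  have f4 : ∀ᶠ q : E × E in 𝓝 (v₀, v₀), q.1 ∈ Metric.ball (0 : E) r :=
    continuousAt_fst.eventually (Metric.isOpen_ball.mem_nhds hv₀)
  filter_upwards [f1, f2, f3, f4] with q hq1 hq2 hq3 hq4
  obtain ⟨v, w⟩ := q
  simp only at hq1 hq2 hq3 hq4 ⊢
  have hxU : X (p, v) ∈ U := hX.mem p hp v hq4
  -- Gauss lemma
  have g1 : gnorm g p v - gnorm g p w ≤ gnorm g (X (p, v)) (dX X p v (v - w)) := by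
    rcases eq_or_ne v 0 with h0 | h0
    · rw [h0, gnorm_zero]
      have := gnorm_nonneg (g := g) p w
      have := gnorm_nonneg (g := g) (X (p, (0 : E))) (dX X p 0 (0 - w))
      linarith
    · have hv : 0 < gnorm g p v := gnorm_pos hg hpU h0
      have e1 : g p v w ≤ gnorm g p v * gnorm g p w := g_le hg hpU v w
      have e2 : g p v (v - w) = gnorm g p v ^ 2 - g p v w := by
        rw [gnorm_sq hg hpU, map_sub]
      have e3 := hX.gauss hg hΓ hp hq4 (v - w)
      have e4 : g (X (p, v)) (dX X p v v) (dX X p v (v - w))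
          ≤ gnorm g (X (p, v)) (dX X p v v) * gnorm g (X (p, v)) (dX X p v (v - w)) :=
        g_le hg hxU _ _
      have e5 : gnorm g (X (p, v)) (dX X p v v) = gnorm g p v := by
        have := hX.energy hg hΓ (v := v) (t := 1) hp (by simpa using hq4)
        simpa using this
      rw [e5, e3, e2] at e4
      have e6 : gnorm g p v * (gnorm g p v - gnorm g p w)
          ≤ gnorm g p v * gnorm g (X (p, v)) (dX X p v (v - w)) := by nlinarith
      exact le_of_mul_le_mul_left e6 hv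
  -- compare
  set n := ‖v - w‖ with hn
  set m := gnorm g x₀ (A (v - w)) with hm
  have hm1 : c * a * n ≤ m := by
    have e1 := haA (v - w)
    have e2 := (hcC' (A (v - w))).1
    calc c * a * n = c * (a * ‖v - w‖) := by rw [hn]; ring
      _ ≤ c * ‖A (v - w)‖ := by gcongr
      _ ≤ m := e2
  have k1 : gnorm g (X (p, v)) (dX X p v (v - w)) ≤ (1 + κ) * (m + C * κ * n) := by
    refine (hq3 _).trans ?_
    have e1 : dX X p v (v - w) = A (v - w) + (dX X p v - A) (v - w) := by simp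
    have e2 : gnorm g x₀ (dX X p v (v - w)) ≤ m + C * κ * n := by
      rw [e1]
      refine (gnorm_add_le hg hx₀U _ _).trans ?_
      have e3 := (hcC' ((dX X p v - A) (v - w))).2
      have e4 : ‖(dX X p v - A) (v - w)‖ ≤ κ * n :=
        ((dX X p v - A).le_opNorm _).trans (by rw [hn]; gcongr)
      have e5 : C * ‖(dX X p v - A) (v - w)‖ ≤ C * κ * n := by
        calc C * ‖(dX X p v - A) (v - w)‖ ≤ C * (κ * n) := by gcongr
          _ = C * κ * n := by ring
      linarith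
    gcongr
  have k2 : m - C * κ * n ≤ gnorm g x₀ (X (p, v) - X (p, w)) := by
    have e1 : A (v - w) = (X (p, v) - X (p, w)) - (X (p, v) - X (p, w) - A (v - w)) := by abel
    have e2 : m ≤ gnorm g x₀ (X (p, v) - X (p, w)) + C * κ * n := by
      rw [hm, e1]
      refine (gnorm_sub_le hg hx₀U _ _).trans ?_
      have e3 := (hcC' (X (p, v) - X (p, w) - A (v - w))).2
      have e5 : C * ‖X (p, v) - X (p, w) - A (v - w)‖ ≤ C * κ * n := by
        calc C * ‖X (p, v) - X (p, w) - A (v - w)‖ ≤ C * (κ * n) := by gcongr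
          _ = C * κ * n := by ring
      linarith
    linarith
  have k3 : (1 + κ) * (m + C * κ * n) ≤ (1 + ε) * (m - C * κ * n) := by
    -- `m = c a n + rest`, `rest ≥ 0`
    have e1 : 0 ≤ m - c * a * n := by linarith
    have e2 : (1 + κ) * (c * a + C * κ) * n ≤ (1 + ε) * (c * a - C * κ) * n := by
      have : 0 ≤ n := norm_nonneg _
      gcongr
    have e3 : κ ≤ ε := by
      by_contra hcon
      push Not at hcon
      have : (1 + ε) * (c * a - C * κ) < (1 + κ) * (c * a + C * κ) := by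
        have h1 : 0 < c * a := by positivity
        have h2 : 0 < C * κ := by positivity
        nlinarith
      linarith
    have e4 : (1 + κ) * (m - c * a * n) ≤ (1 + ε) * (m - c * a * n) := by gcongr
    nlinarith
  calc gnorm g p v - gnorm g p w ≤ (1 + κ) * (m + C * κ * n) := g1.trans k1
    _ ≤ (1 + ε) * (m - C * κ * n) := k3
    _ ≤ (1 + ε) * gnorm g x₀ (X (p, v) - X (p, w)) := by gcongr

/-- Lower bound and surjectivity. -/
theorem IsExp.dist_ge (hM : MetModel M U g ι) (hΓ : IsChris U g Γ) (hX : IsExp U Γ p₀ r X)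
    (hp₀ : p₀ ∈ U) : ∃ r₃, 0 < r₃ ∧ r₃ ≤ r ∧ ∃ ρ, 0 < ρ ∧ ∀ p ∈ Metric.ball p₀ r₃,
      (∀ v, gnorm g p v < ρ → v ∈ Metric.ball (0 : E) r ∧
        gnorm g p v ≤ dist (ι p) (ι (X (p, v)))) ∧
      (∀ z : M, dist (ι p) z < ρ → ∃ v, gnorm g p v < ρ ∧ ι (X (p, v)) = z) := by
  have hg := hM.met
  obtain ⟨r₁, hr₁, hr₁r, r₂, hr₂, hr₂₁, W, hW, -⟩ := hX.exists_inv hg hΓ
  obtain ⟨δ, hδ, c, hc, C, hC, hδU, hcC⟩ := hg.equiv hp₀
  refine ⟨min r₁ δ, lt_min hr₁ hδ, (min_le_left _ _).trans hr₁r, c * r₁, by positivity, ?_⟩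
  intro p hp
  have hp1 : p ∈ Metric.ball p₀ r₁ := Metric.ball_subset_ball (min_le_left _ _) hp
  have hpδ : p ∈ Metric.ball p₀ δ := Metric.ball_subset_ball (min_le_right _ _) hp
  have hpr : p ∈ Metric.ball p₀ r := Metric.ball_subset_ball hr₁r hp1
  have hpU : p ∈ U := hX.base hpr
  have hsmall : ∀ v, gnorm g p v < c * r₁ → v ∈ Metric.ball (0 : E) r₁ := by
    intro v hv
    have h1 := (hcC p hpδ v).1
    have h2 : c * ‖v‖ < c * r₁ := h1.trans_lt hv
    rw [mem_ball_zero_iff]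
    exact lt_of_mul_lt_mul_left h2 hc.le
  have hball : ∀ v, v ∈ Metric.ball (0 : E) r₁ → v ∈ Metric.ball (0 : E) r :=
    fun v hv => Metric.ball_subset_ball hr₁r hv
  -- the inverse of `ι`
  have : Nonempty E := ⟨0⟩
  set j : M → E := Function.invFunOn ι U with hj
  have hjι : ∀ x ∈ U, j (ι x) = x := fun x hx => hM.inj.leftInvOn_invFunOn hx
  set V : Set M := {z | ∃ v, gnorm g p v < c * r₁ ∧ ι (X (p, v)) = z} with hV
  set F : M → ℝ := fun z => gnorm g p (W (p, j z)) with hF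
  have hFv : ∀ v, gnorm g p v < c * r₁ → F (ι (X (p, v))) = gnorm g p v := by
    intro v hv
    have h1 := hsmall v hv
    rw [hF]
    simp only
    rw [hjι _ (hX.mem p hpr v (hball v h1)), (hW p hp1 v h1).1]
  have hFp : F (ι p) = 0 := by
    have h0 : gnorm g p (0 : E) < c * r₁ := by rw [gnorm_zero]; positivity
    have := hFv 0 h0
    rwa [hX.zero p hpr, gnorm_zero] at this
  have hpV : ι p ∈ V := ⟨0, by rw [gnorm_zero]; positivity, by rw [hX.zero p hpr]⟩
  have hloc : ∀ x ∈ V, ∀ ε, 0 < ε → ∃ δ, 0 < δ ∧ ∀ y z, dist y x < δ → dist z x < δ →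
      y ∈ V ∧ F y - F z ≤ (1 + ε) * dist y z := by
    rintro x ⟨v₀, hv₀, rfl⟩ ε hε
    have hv₀1 := hsmall v₀ hv₀
    have hv₀r := hball v₀ hv₀1
    have hinj : ∀ w, dX X p v₀ w = 0 → w = 0 := (hW p hp1 v₀ hv₀1).2.2
    have hx₀U : X (p, v₀) ∈ U := hX.mem p hpr v₀ hv₀r
    -- constants
    obtain ⟨ε₁, hε₁, hε₁1, hε₁2⟩ : ∃ ε₁, 0 < ε₁ ∧ ε₁ < 1 ∧
        (1 + ε₁) * (1 - ε₁)⁻¹ ≤ 1 + ε := by
      have hl : Tendsto (fun a : ℝ => (1 + a) * (1 - a)⁻¹) (𝓝[>] 0) (𝓝 1) := by
        have : Tendsto (fun a : ℝ => (1 + a) * (1 - a)⁻¹) (𝓝 0) (𝓝 ((1 + 0) * (1 - 0)⁻¹)) := by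
          refine Tendsto.mul (Continuous.tendsto (by fun_prop) 0) ?_
          exact (Continuous.tendsto (by fun_prop : Continuous fun a : ℝ => 1 - a) 0).inv₀ (by norm_num)
        have h2 : ((1 : ℝ) + 0) * (1 - 0)⁻¹ = 1 := by norm_num
        rw [h2] at this
        exact this.mono_left nhdsWithin_le_nhds
      have h1 : ∀ᶠ a in 𝓝[>] (0 : ℝ), a < 1 :=
        nhdsWithin_le_nhds (gt_mem_nhds (by norm_num : (0 : ℝ) < 1))
      obtain ⟨a, ⟨h2, h3⟩, h4⟩ := (((hl.eventually (gt_mem_nhds (by linarith : (1 : ℝ) < 1 + ε))).and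
        h1).and (self_mem_nhdsWithin : ∀ᶠ a in 𝓝[>] (0 : ℝ), 0 < a)).exists
      exact ⟨a, h4, h3, h2.le⟩
    obtain ⟨δ₁, hδ₁, hδ₁U, hnear⟩ := hM.near _ hx₀U ε₁ hε₁
    -- neighbourhood of `v₀`
    have hlip := hX.lip hg hΓ hpr hv₀r hinj hε₁
    obtain ⟨N, hN, hN2⟩ : ∃ N ∈ 𝓝 v₀, ∀ v ∈ N, ∀ w ∈ N, gnorm g p v - gnorm g p w
        ≤ (1 + ε₁) * gnorm g (X (p, v₀)) (X (p, v) - X (p, w)) := by
      rw [nhds_prod_eq] at hlip
      obtain ⟨N₁, hN₁, N₂, hN₂, hNN⟩ := eventually_prod_iff.1 hlip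
      refine ⟨{v | N₁ v ∧ N₂ v}, hN₁.and hN₂, ?_⟩
      intro v hv w hw
      exact hNN hv.1 hw.2
    have hN3 : ∀ᶠ v in 𝓝 v₀, v ∈ N ∧ gnorm g p v < c * r₁ ∧ X (p, v) ∈ Metric.ball (X (p, v₀)) δ₁ := by
      refine (Filter.eventually_mem_set.2 hN).and (Eventually.and ?_ ?_)
      · exact (continuous_gnorm_right g p).continuousAt.eventually (gt_mem_nhds hv₀)
      · exact (hX.contDiffAt hpr hv₀r).continuousAt.eventually (Metric.ball_mem_nhds _ hδ₁)
    -- the image is a neighbourhood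
    have hmap : Filter.map (fun w => X (p, w)) (𝓝 v₀) = 𝓝 (X (p, v₀)) := by
      refine (hX.hasStrictFDerivAt hpr hv₀r).map_nhds_eq_of_surj ?_
      have hinj' : Function.Injective (dX X p v₀ : E →ₗ[ℝ] E) := by
        rw [← LinearMap.ker_eq_bot, LinearMap.ker_eq_bot']
        intro w hw
        exact hinj w hw
      exact LinearMap.range_eq_top.2 (LinearMap.injective_iff_surjective.1 hinj')
    have himg : (fun w => X (p, w)) '' {v | v ∈ N ∧ gnorm g p v < c * r₁ ∧
        X (p, v) ∈ Metric.ball (X (p, v₀)) δ₁} ∈ 𝓝 (X (p, v₀)) := by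
      rw [← hmap]
      exact Filter.image_mem_map hN3
    obtain ⟨T, hT1, hT2, hT3⟩ := mem_nhds_iff.1 himg
    have hTU : T ⊆ U := by
      intro q hq
      obtain ⟨v, ⟨_, _, hv3⟩, rfl⟩ := hT1 hq
      exact hδ₁U hv3
    have hopen := hM.isOpen_image T hTU hT2
    obtain ⟨δ₂, hδ₂, hball2⟩ := Metric.isOpen_iff.1 hopen _ (mem_image_of_mem ι hT3)
    refine ⟨δ₂, hδ₂, ?_⟩
    intro y z hy hz
    obtain ⟨y', hy', rfl⟩ := hball2 hy
    obtain ⟨z', hz', rfl⟩ := hball2 hz
    obtain ⟨v, ⟨hv1, hv2, hv3⟩, rfl⟩ := hT1 hy'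
    obtain ⟨w, ⟨hw1, hw2, hw3⟩, rfl⟩ := hT1 hz'
    refine ⟨⟨v, hv2, rfl⟩, ?_⟩
    simp only at hv3 hw3 ⊢
    rw [hFv v hv2, hFv w hw2]
    have e1 := hN2 v hv1 w hw1
    have e2 := (hnear _ hv3 _ hw3).1
    have e3 : gnorm g (X (p, v₀)) (X (p, v) - X (p, w))
        ≤ (1 - ε₁)⁻¹ * dist (ι (X (p, v))) (ι (X (p, w))) := by
      rw [← div_eq_inv_mul, le_div_iff₀ (by linarith), mul_comm]
      exact e2
    calc gnorm g p v - gnorm g p w
        ≤ (1 + ε₁) * gnorm g (X (p, v₀)) (X (p, v) - X (p, w)) := e1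
      _ ≤ (1 + ε₁) * ((1 - ε₁)⁻¹ * dist (ι (X (p, v))) (ι (X (p, w)))) := by gcongr
      _ = ((1 + ε₁) * (1 - ε₁)⁻¹) * dist (ι (X (p, v))) (ι (X (p, w))) := by ring
      _ ≤ (1 + ε) * dist (ι (X (p, v))) (ι (X (p, w))) := by gcongr
  have hcpt : ∀ s, s < c * r₁ → IsCompact {x | x ∈ V ∧ F x ≤ s} := by
    intro s hs
    have : ProperSpace E := FiniteDimensional.proper ℝ E
    have h1 : {x | x ∈ V ∧ F x ≤ s} = (fun v => ι (X (p, v))) '' {v | gnorm g p v ≤ s} := by
      ext x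
      constructor
      · rintro ⟨⟨v, hv, rfl⟩, hx⟩
        rw [hFv v hv] at hx
        exact ⟨v, hx, rfl⟩
      · rintro ⟨v, hv, rfl⟩
        have hv' : gnorm g p v < c * r₁ := lt_of_le_of_lt hv hs
        refine ⟨⟨v, hv', rfl⟩, ?_⟩
        rw [hFv v hv']
        exact hv
    rw [h1]
    have h2 : IsCompact {v : E | gnorm g p v ≤ s} := by
      refine Metric.isCompact_of_isClosed_isBounded ?_ ?_
      · exact isClosed_le (continuous_gnorm_right g p) continuous_const
      · refine Metric.isBounded_ball.subset (s := {v : E | gnorm g p v ≤ s})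
          (t := Metric.ball (0 : E) r₁) ?_
        intro v hv
        exact hsmall v (lt_of_le_of_lt hv hs)
    refine h2.image_of_continuousOn ?_
    refine hM.cont.comp (t := U) ?_ ?_
    · intro v hv
      exact (hX.contDiffAt hpr (hball v (hsmall v (lt_of_le_of_lt hv hs)))).continuousAt.continuousWithinAt
    · intro v hv
      exact hX.mem p hpr v (hball v (hsmall v (lt_of_le_of_lt hv hs)))
  have htrap : ∀ z : M, dist (ι p) z < c * r₁ → z ∈ V ∧ F z ≤ dist (ι p) z := by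
    intro z hz
    have := trap hM.chain hpV hloc hcpt (z := z) (by rw [hFp]; simpa using hz)
    rw [hFp, zero_add] at this
    exact this
  refine ⟨?_, ?_⟩
  · intro v hv
    have h1 := hball v (hsmall v hv)
    refine ⟨h1, ?_⟩
    have h2 := hX.dist_le hM hΓ hpr (s := 0) (s' := 1) (v := v)
      (by simpa using hX.pos) (by simpa using h1)
    rw [zero_smul, one_smul, hX.zero p hpr] at h2
    have h3 : dist (ι p) (ι (X (p, v))) < c * r₁ := by
      refine h2.trans_lt ?_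
      simpa using hv
    have h4 := (htrap _ h3).2
    rwa [hFv v hv] at h4
  · intro z hz
    exact (htrap z hz).1

end exp

end

end Pool.Agent.Work.MP_3b24f6_gt.Froz
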