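import Pool.Agent.Work.MP_3b24f6_gt.S.Glob
import Pool.Agent.Work.MP_3b24f6_gt.S.Sig
import Pool.Agent.Work.MP_3b24f6_gt.S.AFComp
import Pool.Agent.Work.MP_3b24f6_gt.S.VolF

/-!
# The sinh chart in the real hyperbolic case

From the global normal chart and `l² g = sinh² (l r) |v|²` on the spheres to the square root
`l⁻¹ sqT0` of the metric in the chart `F ∘ sigInv l`, and the balls about the origin.
-/

set_option autoImplicit false
set_option maxSynthPendingDepth 3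

open MeasureTheory Set Filter Topology Metric
open scoped ContDiff InnerProductSpace

namespace Pool.Agent.Work.MP_3b24f6_gt.S

open Pool.Agent.Work.MP_3b24f6_gt Pool.Agent.Work.MP_3b24f6_gt.Froz

noncomputable section

variable {E : Type*} [NormedAddCommGroup E] [InnerProductSpace ℝ E]
  {g : E → E →L[ℝ] E →L[ℝ] ℝ} {l : ℝ}

/-- Splitting of a vector in its radial and its spherical part. -/
theorem NormG.split (hg : NormG g) {y : E} (hy : y ≠ 0) (v : E) :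
    g y v v = ⟪y, v⟫_ℝ ^ 2 / ‖y‖ ^ 2
      + g y (v - (⟪y, v⟫_ℝ / ‖y‖ ^ 2) • y) (v - (⟪y, v⟫_ℝ / ‖y‖ ^ 2) • y) := by
  have hr : ‖y‖ ≠ 0 := norm_ne_zero_iff.2 hy
  set a := ⟪y, v⟫_ℝ / ‖y‖ ^ 2 with ha
  have h1 : g y v y = ⟪y, v⟫_ℝ := by rw [hg.symm, hg.gauss]
  have h2 : g y y y = ‖y‖ ^ 2 := by rw [hg.gauss, real_inner_self_eq_norm_sq]
  simp only [map_sub, map_smul, sub_apply, smul_apply, smul_eq_mul]
  rw [hg.gauss y v, h1, h2, ha]
  field_simp
  ring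

theorem orth_part {y : E} (hy : y ≠ 0) (v : E) :
    ⟪y, v - (⟪y, v⟫_ℝ / ‖y‖ ^ 2) • y⟫_ℝ = 0 ∧
      ‖v - (⟪y, v⟫_ℝ / ‖y‖ ^ 2) • y‖ ^ 2 = ‖v‖ ^ 2 - ⟪y, v⟫_ℝ ^ 2 / ‖y‖ ^ 2 := by
  have hr : ‖y‖ ≠ 0 := norm_ne_zero_iff.2 hy
  constructor
  · rw [inner_sub_right, inner_smul_right, real_inner_self_eq_norm_sq]
    field_simp
    ring
  · rw [norm_sub_sq_real, norm_smul, inner_smul_right, mul_pow, Real.norm_eq_abs, sq_abs,
      real_inner_comm y v]
    field_simp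
    ring

/-- The length of the image of a vector under the chart change, real hyperbolic model. -/
theorem mg0_sig (hl : 0 < l) {y : E} (hy : y ≠ 0) (v : E) :
    ‖dsig l y v‖ ^ 2 - ⟪sig l y, dsig l y v⟫_ℝ ^ 2 / uu (sig l y) ^ 2
      = (Real.sinh (l * ‖y‖) / ‖y‖) ^ 2 * (‖v‖ ^ 2 - ⟪y, v⟫_ℝ ^ 2 / ‖y‖ ^ 2)
        + l ^ 2 * (⟪y, v⟫_ℝ ^ 2 / ‖y‖ ^ 2) := by
  have hr : ‖y‖ ≠ 0 := norm_ne_zero_iff.2 hy
  have hc : Real.cosh (l * ‖y‖) ≠ 0 := (Real.cosh_pos _).ne'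
  set C := Real.cosh (l * ‖y‖) with hC
  set S := Real.sinh (l * ‖y‖) with hS
  have hCS : C ^ 2 = S ^ 2 + 1 := Real.cosh_sq _
  set q := ⟪y, v⟫_ℝ with hq
  have h1 : ⟪sig l y, dsig l y v⟫_ℝ = S / ‖y‖ * (l * C * q) := by
    rw [sig_eq hy, real_inner_smul_left, inner_dsig]
  have h2 : ‖dsig l y v‖ ^ 2 = (S / ‖y‖) ^ 2 * (‖v‖ ^ 2 - q ^ 2 / ‖y‖ ^ 2)
      + l ^ 2 * C ^ 2 * (q ^ 2 / ‖y‖ ^ 2) := by
    have hvy : ⟪v, y⟫_ℝ = q := by rw [real_inner_comm]
    rw [dsig_eq l hy, norm_add_sq_real, norm_smul, norm_smul, real_inner_smul_left,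
      real_inner_smul_right, hvy, ← hq, mul_pow, mul_pow, Real.norm_eq_abs,
      Real.norm_eq_abs, sq_abs, sq_abs]
    field_simp
    ring
  rw [uu_sig hl, h1, h2, ← hC]
  have h5 : C ^ 2 - S ^ 2 = 1 := by linarith
  field_simp
  linear_combination (l ^ 2 * q ^ 2 * ‖y‖ ^ 2) * h5

/-- The metric of the sinh form is the pull back of the model metric. -/
theorem metric0 [FiniteDimensional ℝ E] (hg : NormG g) (hl : 0 < l)
    (h : ∀ (x v : E) (t : ℝ), ‖x‖ = 1 → ⟪x, v⟫_ℝ = 0 → 0 < t →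
      l ^ 2 * g (t • x) (t • v) (t • v) = Real.sinh (l * t) ^ 2 * ‖v‖ ^ 2) (y v : E) :
    g y v v = ‖((l⁻¹ • sqT0 (sig l y)).comp (dsig l y)) v‖ ^ 2 := by
  have e1 : ‖((l⁻¹ • sqT0 (sig l y)).comp (dsig l y)) v‖ ^ 2
      = (l ^ 2)⁻¹ * ‖sqT0 (sig l y) (dsig l y v)‖ ^ 2 := by
    rw [ContinuousLinearMap.comp_apply, smul_apply, norm_smul, mul_pow, Real.norm_eq_abs, sq_abs,
      inv_pow]
  rw [e1, norm_sqT0_sq]
  have hl2 : l ^ 2 ≠ 0 := by positivity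
  by_cases hy : y = 0
  · subst hy
    rw [hg.g_zero, real_inner_self_eq_norm_sq, sig_zero, dsig_zero, inner_zero_left]
    simp only [smul_apply, ContinuousLinearMap.id_apply, norm_smul, Real.norm_eq_abs, mul_pow,
      sq_abs]
    field_simp
    simp
  · have hr : 0 < ‖y‖ := norm_pos_iff.2 hy
    rw [mg0_sig hl hy, hg.split hy v]
    obtain ⟨o1, o2⟩ := orth_part hy v
    set w := v - (⟪y, v⟫_ℝ / ‖y‖ ^ 2) • y with hw
    have h1 := h (‖y‖⁻¹ • y) (‖y‖⁻¹ • w) ‖y‖ (by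
      rw [norm_smul, norm_inv, norm_norm, inv_mul_cancel₀ hr.ne']) (by
      rw [real_inner_smul_left, inner_smul_right, o1, mul_zero, mul_zero]) hr
    rw [smul_smul, smul_smul, mul_inv_cancel₀ hr.ne', one_smul, one_smul, norm_smul, norm_inv,
      norm_norm, mul_pow, o2] at h1
    have h2 : g y w w = (l ^ 2)⁻¹ * (Real.sinh (l * ‖y‖) ^ 2 * (‖y‖⁻¹ ^ 2 *
        (‖v‖ ^ 2 - ⟪y, v⟫_ℝ ^ 2 / ‖y‖ ^ 2))) := by
      rw [← h1, ← mul_assoc, inv_mul_cancel₀ hl2, one_mul]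
    rw [h2]
    field_simp
    ring

variable {M : Type*} [MetricSpace M] {F : E → M}

/-- The comparison hypothesis of the area formula, from any square root of the metric. -/
theorem Glob.afHyp (h : Glob g F) {E' : Type*} [NormedAddCommGroup E'] [NormedSpace ℝ E']
    {T : E → E →L[ℝ] E'} (hT : ∀ y v, g y v v = ‖T y v‖ ^ 2) : AFHyp F univ T := by
  intro x _ η hη
  obtain ⟨δ, hδ, hδ'⟩ := h.near x η hη
  refine ⟨δ, hδ, fun y hy z hz _ _ => ?_⟩
  have h1 := hδ' y hy z hz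
  rwa [hT, Real.sqrt_sq (norm_nonneg _)] at h1

theorem sigInv_zero (l : ℝ) : sigInv l (0 : E) = 0 := by simp [sigInv]

/-- Balls about the centre are balls in the sinh chart. -/
theorem Glob.preimage_ball (h : Glob g F) (hl : 0 < l) (r : ℝ) :
    (F ∘ sigInv l) ⁻¹' ball ((F ∘ sigInv l) 0) r = ball 0 (Real.sinh (l * r)) := by
  ext y
  rw [mem_preimage, mem_ball, mem_ball_zero_iff, Function.comp_apply, Function.comp_apply,
    sigInv_zero, dist_comm, h.dist_zero, ← norm_sigInv hl y, Real.sinh_lt_sinh,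
    mul_lt_mul_iff_right₀ hl]

variable [FiniteDimensional ℝ E]

theorem dsig_comp_fderiv (hl : 0 < l) (z : E) :
    (dsig l (sigInv l z)).comp (fderiv ℝ (sigInv l) z) = ContinuousLinearMap.id ℝ E := by
  have h1 : HasFDerivAt (sigInv l) (fderiv ℝ (sigInv l) z) z :=
    ((contDiff_sigInv hl).differentiable (by simp) z).hasFDerivAt
  have h2 := (hasFDerivAt_sig l (sigInv l z)).comp z h1
  have h3 : (sig l ∘ sigInv l : E → E) = id := funext fun w => sig_sigInv hl w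
  rw [h3] at h2
  exact h2.unique (hasFDerivAt_id z)

theorem sqT0_injective (z : E) : Function.Injective (sqT0 z) := by
  have h : LinearMap.det ((sqT0 z : E →L[ℝ] E) : E →ₗ[ℝ] E) ≠ 0 := by
    have h1 := sqT0_det z
    have h2 : (sqT0 z).det = LinearMap.det ((sqT0 z : E →L[ℝ] E) : E →ₗ[ℝ] E) := rfl
    rw [← h2, h1]
    exact (one_div_pos.2 (vf_uu_pos z)).ne'
  exact (LinearMap.equivOfDetNeZero _ h).injective

/-- **The sinh chart, `w = 0`.** -/
theorem Glob.afHyp0 (h : Glob g F) (hl : 0 < l)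
    (hr : ∀ (x v : E) (t : ℝ), ‖x‖ = 1 → ⟪x, v⟫_ℝ = 0 → 0 < t →
      l ^ 2 * g (t • x) (t • v) (t • v) = Real.sinh (l * t) ^ 2 * ‖v‖ ^ 2) :
    AFHyp (F ∘ sigInv l) univ fun z => l⁻¹ • sqT0 z := by
  have h1 : AFHyp F univ fun y => (l⁻¹ • sqT0 (sig l y)).comp (dsig l y) :=
    h.afHyp fun y v => metric0 h.hom.norm hl hr y v
  have e : ∀ z : E, ((l⁻¹ • sqT0 (sig l (sigInv l z))).comp (dsig l (sigInv l z))).comp
      (fderiv ℝ (sigInv l) z) = l⁻¹ • sqT0 z := by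
    intro z
    rw [ContinuousLinearMap.comp_assoc, dsig_comp_fderiv hl z, ContinuousLinearMap.comp_id,
      sig_sigInv hl]
  have h2 := h1.comp (κ := sigInv l) (U' := univ) isOpen_univ (mapsTo_univ _ _)
    ((contDiff_sigInv hl).of_le (by exact_mod_cast le_top)).contDiffOn (fun z _ => by
      rw [e z]
      intro v w hvw
      rw [smul_apply, smul_apply] at hvw
      exact sqT0_injective z (smul_right_injective E (inv_pos.2 hl).ne' hvw))
  have h3 : (fun z : E => ((l⁻¹ • sqT0 (sig l (sigInv l z))).comp (dsig l (sigInv l z))).comp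
      (fderiv ℝ (sigInv l) z)) = fun z => l⁻¹ • sqT0 z := funext e
  rw [h3] at h2
  exact h2

/-- The sinh chart as a homeomorphism. -/
def Glob.homeoS (h : Glob g F) (hl : 0 < l) : E ≃ₜ M :=
  (sigH hl).symm.trans (h.homeo.homeomorph F)

theorem Glob.coe_homeoS (h : Glob g F) (hl : 0 < l) : ⇑(h.homeoS hl) = F ∘ sigInv l := rfl

end

end Pool.Agent.Work.MP_3b24f6_gt.S
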