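import Pool.Agent.Work.MP_3b24f6_gt.S.ModelA
import Pool.Agent.Work.MP_3b24f6_gt.S.Gnorm

set_option autoImplicit false
set_option maxSynthPendingDepth 3

open Set Filter Topology
open scoped ContDiff

/-! Block A: the chain lemma. A function which is infinitesimally 1-Lipschitz on an open set and
has compact sublevels is 1-Lipschitz from a point, and its sublevels trap the metric balls. -/

namespace Pool.Agent.Work.MP_3b24f6_gt.Froz

section metric
variable {M : Type*} [MetricSpace M]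

theorem trap_metric_aux (hM : ChainLen M) {V : Set M} (hV : IsOpen V) {f : M → ℝ}
    (hf : ∀ x ∈ V, ∀ ε, 0 < ε → ∃ δ, 0 < δ ∧ ∀ y ∈ Metric.ball x δ, ∀ z ∈ Metric.ball x δ,
      y ∈ V → z ∈ V → f y - f z ≤ (1 + ε) * dist y z)
    {s : ℝ} (hK : IsCompact {x | x ∈ V ∧ f x ≤ s}) {p : M} (hp : p ∈ V) {y : M} {c : ℝ}
    (hyc : dist p y < c) (hcs : f p + c ≤ s) : y ∈ V ∧ f y ≤ f p + c := by
  set D := dist p y with hD
  have hD0 : 0 ≤ D := dist_nonneg
  set ε : ℝ := min 1 ((c - D) / (D + 3)) with hε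
  have hε0 : 0 < ε := lt_min one_pos (div_pos (by linarith) (by linarith))
  have hε1 : ε ≤ 1 := min_le_left _ _
  have hε2 : ε * (D + 3) ≤ c - D := by
    have h : ε ≤ (c - D) / (D + 3) := min_le_right _ _
    rwa [le_div_iff₀ (by linarith)] at h
  have hεc : (1 + ε) * (D + ε) ≤ c := by nlinarith
  have hex : ∀ x : {x | x ∈ V ∧ f x ≤ s}, ∃ δ, 0 < δ ∧ Metric.ball (x : M) δ ⊆ V ∧
      ∀ y ∈ Metric.ball (x : M) δ, ∀ z ∈ Metric.ball (x : M) δ,
        f y - f z ≤ (1 + ε) * dist y z := by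
    intro x
    obtain ⟨δ₁, hδ₁, h1⟩ := hf x x.2.1 ε hε0
    obtain ⟨δ₂, hδ₂, h2⟩ := Metric.isOpen_iff.1 hV x x.2.1
    refine ⟨min δ₁ δ₂, lt_min hδ₁ hδ₂, (Metric.ball_subset_ball (min_le_right _ _)).trans h2,
      fun y hy z hz => h1 y (Metric.ball_subset_ball (min_le_left _ _) hy) z
        (Metric.ball_subset_ball (min_le_left _ _) hz)
        (h2 (Metric.ball_subset_ball (min_le_right _ _) hy))
        (h2 (Metric.ball_subset_ball (min_le_right _ _) hz))⟩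
  choose δ' hδ' hδV hδf using hex
  obtain ⟨δ, hδ, hL⟩ := lebesgue_number_lemma_of_metric (c := fun x : {x | x ∈ V ∧ f x ≤ s} =>
    Metric.ball (x : M) (δ' x)) hK (fun _ => Metric.isOpen_ball)
    (fun x hx => mem_iUnion.2 ⟨⟨x, hx⟩, Metric.mem_ball_self (hδ' _)⟩)
  obtain ⟨n, z, hz0, hzn, hstep, hsum⟩ := hM p y δ hδ ε hε0
  have hpart : ∀ i ≤ n, ∑ j ∈ Finset.range i, dist (z j) (z (j + 1)) ≤ D + ε := by
    intro i hi
    refine le_trans (Finset.sum_le_sum_of_subset_of_nonneg ?_ ?_) hsum.le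
    · exact Finset.range_mono hi
    · exact fun _ _ _ => dist_nonneg
  have hind : ∀ i ≤ n, z i ∈ V ∧
      f (z i) ≤ f p + (1 + ε) * ∑ j ∈ Finset.range i, dist (z j) (z (j + 1)) := by
    intro i
    induction i with
    | zero =>
      intro _
      rw [hz0]
      simp [hp]
    | succ i ih =>
      intro hi
      obtain ⟨h1, h2⟩ := ih (by omega)
      have h3 : (1 + ε) * ∑ j ∈ Finset.range i, dist (z j) (z (j + 1)) ≤ (1 + ε) * (D + ε) := by
        gcongr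
        exact hpart i (by omega)
      obtain ⟨x, hx⟩ := hL (z i) ⟨h1, by linarith⟩
      have hm1 : z i ∈ Metric.ball (x : M) (δ' x) := hx (Metric.mem_ball_self hδ)
      have hm2 : z (i + 1) ∈ Metric.ball (x : M) (δ' x) := by
        apply hx
        rw [Metric.mem_ball, dist_comm]
        exact hstep i (by omega)
      refine ⟨hδV x hm2, ?_⟩
      have h4 := hδf x _ hm2 _ hm1
      rw [dist_comm] at h4
      rw [Finset.sum_range_succ, mul_add]
      linarith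
  obtain ⟨h1, h2⟩ := hind n le_rfl
  rw [hzn] at h1 h2
  refine ⟨h1, h2.trans ?_⟩
  have h3 : (1 + ε) * ∑ j ∈ Finset.range n, dist (z j) (z (j + 1)) ≤ (1 + ε) * (D + ε) := by
    gcongr
  linarith

/-- Trapping lemma, metric form. -/
theorem trap_metric (hM : ChainLen M) {V : Set M} (hV : IsOpen V) {f : M → ℝ}
    (hf : ∀ x ∈ V, ∀ ε, 0 < ε → ∃ δ, 0 < δ ∧ ∀ y ∈ Metric.ball x δ, ∀ z ∈ Metric.ball x δ,
      y ∈ V → z ∈ V → f y - f z ≤ (1 + ε) * dist y z)
    {r : ℝ} (hK : ∀ s < r, IsCompact {x | x ∈ V ∧ f x ≤ s}) {p : M} (hp : p ∈ V) {y : M}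
    (hy : f p + dist p y < r) : y ∈ V ∧ f y ≤ f p + dist p y := by
  obtain ⟨s, hs, hsr⟩ := exists_between hy
  refine ⟨(trap_metric_aux hM hV hf (hK s hsr) hp (c := s - f p) (by linarith) (by linarith)).1, ?_⟩
  refine le_of_forall_gt_imp_ge_of_dense fun b hb => ?_
  have h := (trap_metric_aux hM hV hf (hK s hsr) hp (c := min b s - f p) (y := y)
    (by have := lt_min hb hs; linarith) (by have := min_le_right b s; linarith)).2
  have := min_le_left b s
  linarith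

end metric

section model
variable {E : Type*} [NormedAddCommGroup E] [NormedSpace ℝ E] [FiniteDimensional ℝ E]
  {M : Type*} [MetricSpace M] {U : Set E} {g : E → E →L[ℝ] E →L[ℝ] ℝ} {ι : E → M}

/-- A `C^1` function of slope at most one is locally almost 1-Lipschitz for the distance. -/
theorem MetModel.slope (hM : MetModel M U g ι) {x : E} (hx : x ∈ U) {F : E → ℝ} {L : ℝ}
    (hL : 0 ≤ L) (hF : ContDiffAt ℝ 1 F x) (hF1 : ∀ v, |fderiv ℝ F x v| ≤ L * gnorm g x v)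
    {ε : ℝ} (hε : 0 < ε) : ∃ δ, 0 < δ ∧ Metric.ball x δ ⊆ U ∧ ∀ y ∈ Metric.ball x δ,
      ∀ z ∈ Metric.ball x δ, |F y - F z| ≤ (L + ε) * dist (ι y) (ι z) := by
  obtain ⟨δ₀, hδ₀, c, hc, C, hC, -, hcC⟩ := RMet.equiv hM.met hx
  have hlow : ∀ v, c * ‖v‖ ≤ gnorm g x v := fun v => (hcC x (Metric.mem_ball_self hδ₀) v).1
  set η : ℝ := min (1 / 2) (ε / (2 * (L + 1 + ε))) with hη
  have hden : 0 < 2 * (L + 1 + ε) := by linarith
  have hη0 : 0 < η := lt_min (by norm_num) (div_pos hε hden)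
  have hη1 : η ≤ 1 / 2 := min_le_left _ _
  have hη2 : η * (2 * (L + 1 + ε)) ≤ ε := by
    have h : η ≤ ε / (2 * (L + 1 + ε)) := min_le_right _ _
    rwa [le_div_iff₀ hden] at h
  obtain ⟨δ₁, hδ₁, hU, hn⟩ := hM.near x hx η hη0
  have hs := (hF.hasStrictFDerivAt one_ne_zero).isLittleO
  have hs2 := (Asymptotics.isLittleO_iff.1 hs) (c := η * c) (by positivity)
  rw [Metric.eventually_nhds_iff_ball] at hs2
  obtain ⟨δ₂, hδ₂, hd⟩ := hs2
  refine ⟨min δ₁ δ₂, lt_min hδ₁ hδ₂,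
    (Metric.ball_subset_ball (min_le_left _ _)).trans hU, fun y hy z hz => ?_⟩
  have hy1 := Metric.ball_subset_ball (min_le_left _ _) hy
  have hz1 := Metric.ball_subset_ball (min_le_left _ _) hz
  have hy2 := Metric.ball_subset_ball (min_le_right _ _) hy
  have hz2 := Metric.ball_subset_ball (min_le_right _ _) hz
  have h1 := hd (y, z) (by rw [← ball_prod_same]; exact ⟨hy2, hz2⟩)
  simp only [Real.norm_eq_abs] at h1
  have h2 := (hn y hy1 z hz1).1
  have h3 := hF1 (y - z)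
  have h4 := hlow (y - z)
  have h5 : |F y - F z| ≤ (L + η) * gnorm g x (y - z) := by
    have h6 : |F y - F z| ≤ |F y - F z - fderiv ℝ F x (y - z)| + |fderiv ℝ F x (y - z)| := by
      have := abs_add_le (F y - F z - fderiv ℝ F x (y - z)) (fderiv ℝ F x (y - z))
      simpa using this
    have h7 : η * c * ‖y - z‖ ≤ η * gnorm g x (y - z) := by
      rw [mul_assoc]
      gcongr
    linarith
  have h8 : 0 ≤ gnorm g x (y - z) := gnorm_nonneg _ _
  have h9 : (L + η) ≤ (L + ε) * (1 - η) := by nlinarith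
  calc |F y - F z| ≤ (L + η) * gnorm g x (y - z) := h5
    _ ≤ ((L + ε) * (1 - η)) * gnorm g x (y - z) := by gcongr
    _ = (L + ε) * ((1 - η) * gnorm g x (y - z)) := by ring
    _ ≤ (L + ε) * dist (ι y) (ι z) := by gcongr

/-- Trapping lemma in the chart. -/
theorem MetModel.trap (hM : MetModel M U g ι) {V : Set E} (hV : IsOpen V) (hVU : V ⊆ U)
    {F : E → ℝ} (hF : ∀ x ∈ V, ContDiffAt ℝ 1 F x)
    (hF1 : ∀ x ∈ V, ∀ v, |fderiv ℝ F x v| ≤ gnorm g x v) {r : ℝ}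
    (hK : ∀ s < r, IsCompact {x | x ∈ V ∧ F x ≤ s}) {p : E} (hp : p ∈ V) {z : M}
    (hz : F p + dist (ι p) z < r) : ∃ q ∈ V, ι q = z ∧ F q ≤ F p + dist (ι p) z := by
  classical
  have : Nonempty E := ⟨p⟩
  set κ : M → E := Function.invFunOn ι U with hκ
  have hκι : ∀ x ∈ U, κ (ι x) = x := fun x hx => hM.inj.leftInvOn_invFunOn hx
  have hVo : IsOpen (ι '' V) := hM.isOpen_image V hVU hV
  have hf : ∀ x ∈ ι '' V, ∀ ε, 0 < ε → ∃ δ, 0 < δ ∧ ∀ y ∈ Metric.ball x δ,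
      ∀ z ∈ Metric.ball x δ, y ∈ ι '' V → z ∈ ι '' V →
        F (κ y) - F (κ z) ≤ (1 + ε) * dist y z := by
    rintro _ ⟨x, hx, rfl⟩ ε hε
    obtain ⟨δ, hδ, hU', hsl⟩ := hM.slope (hVU hx) (L := 1) zero_le_one (hF x hx)
      (fun v => by rw [one_mul]; exact hF1 x hx v) hε
    obtain ⟨δ', hδ', hb⟩ := Metric.isOpen_iff.1 (hM.isOpen_image _ hU' Metric.isOpen_ball) (ι x)
      ⟨x, Metric.mem_ball_self hδ, rfl⟩
    refine ⟨δ', hδ', fun y hy z hz _ _ => ?_⟩
    obtain ⟨y', hy', rfl⟩ := hb hy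
    obtain ⟨z', hz', rfl⟩ := hb hz
    rw [hκι y' (hU' hy'), hκι z' (hU' hz')]
    exact (le_abs_self _).trans (hsl y' hy' z' hz')
  have hset : ∀ s, {x | x ∈ ι '' V ∧ F (κ x) ≤ s} = ι '' {x | x ∈ V ∧ F x ≤ s} := by
    intro s
    ext x
    constructor
    · rintro ⟨⟨y, hy, rfl⟩, h⟩
      rw [hκι y (hVU hy)] at h
      exact ⟨y, ⟨hy, h⟩, rfl⟩
    · rintro ⟨y, ⟨hy, h⟩, rfl⟩
      refine ⟨⟨y, hy, rfl⟩, ?_⟩
      rw [hκι y (hVU hy)]
      exact h
  have hK' : ∀ s < r, IsCompact {x | x ∈ ι '' V ∧ F (κ x) ≤ s} := by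
    intro s hs
    rw [hset s]
    exact (hK s hs).image_of_continuousOn (hM.cont.mono fun x hx => hVU hx.1)
  have h := Froz.trap_metric hM.chain hVo (f := fun x => F (κ x)) hf hK' (p := ι p) ⟨p, hp, rfl⟩
    (y := z) (by rw [hκι p (hVU hp)]; exact hz)
  obtain ⟨⟨q, hq, rfl⟩, h2⟩ := h
  refine ⟨q, hq, rfl, ?_⟩
  simp only [hκι q (hVU hq), hκι p (hVU hp)] at h2
  exact h2

end model

end Pool.Agent.Work.MP_3b24f6_gt.Froz
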