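import Pool.Agent.Work.MP_3b24f6_gt.S.Flow

set_option autoImplicit false

open Set Filter Topology MeasureTheory
open scoped ContDiff

namespace Pool.Agent.Work.MP_3b24f6_gt.Flow

universe u

section Var

variable {E F : Type*} [NormedAddCommGroup E] [NormedSpace ℝ E] [NormedAddCommGroup F]
  [NormedSpace ℝ F]

theorem hasFDerivAt_slice {Φ : ℝ × E → F} {s : ℝ} {x : E} (h : DifferentiableAt ℝ Φ (s, x)) :
    HasFDerivAt (fun y => Φ (s, y)) (fderiv ℝ Φ (s, x) ∘L .inr ℝ ℝ E) x :=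
  h.hasFDerivAt.comp x (hasFDerivAt_prodMk_right s x)

theorem hasDerivAt_slice {Φ : ℝ × E → F} {s : ℝ} {x : E} (h : DifferentiableAt ℝ Φ (s, x)) :
    HasDerivAt (fun r => Φ (r, x)) (fderiv ℝ Φ (s, x) (1, 0)) s := by
  have h1 : HasFDerivAt (fun r : ℝ => Φ (r, x)) (fderiv ℝ Φ (s, x) ∘L .inl ℝ ℝ E) s :=
    h.hasFDerivAt.comp s (hasFDerivAt_prodMk_left s x)
  exact h1.hasDerivAt

/-- mixed derivatives: the time derivative of the space derivative is the space derivative of the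
time derivative -/
theorem mixed {Φ : ℝ × E → F} {s : ℝ} {x : E} (h : ContDiffAt ℝ 2 Φ (s, x)) {Ψ : E → F}
    (hΨ : ∀ᶠ y in 𝓝 x, HasDerivAt (fun r => Φ (r, y)) (Ψ y) s) :
    HasDerivAt (fun r => fderiv ℝ (fun y => Φ (r, y)) x) (fderiv ℝ Ψ x) s := by
  have h1 : ∀ᶠ p in 𝓝 (s, x), ContDiffAt ℝ 2 Φ p := h.eventually (by simp)
  have h2 : DifferentiableAt ℝ (fderiv ℝ Φ) (s, x) :=
    (h.fderiv_right (m := 1) (by norm_num)).differentiableAt (by simp)
  have h3 : HasDerivAt (fun r => fderiv ℝ Φ (r, x)) (fderiv ℝ (fderiv ℝ Φ) (s, x) (1, 0)) s :=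
    hasDerivAt_slice h2
  have h4 : HasDerivAt (fun r => fderiv ℝ Φ (r, x) ∘L .inr ℝ ℝ E)
      ((fderiv ℝ (fderiv ℝ Φ) (s, x) (1, 0)) ∘L .inr ℝ ℝ E) s :=
    ((ContinuousLinearMap.compL ℝ E (ℝ × E) F).flip (.inr ℝ ℝ E)).hasFDerivAt.comp_hasDerivAt s h3
  have h5 : ∀ᶠ r in 𝓝 s, fderiv ℝ (fun y => Φ (r, y)) x = fderiv ℝ Φ (r, x) ∘L .inr ℝ ℝ E := by
    have : Tendsto (fun r : ℝ => (r, x)) (𝓝 s) (𝓝 (s, x)) :=
      (continuous_id.prodMk continuous_const).tendsto' _ _ rfl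
    filter_upwards [this.eventually h1] with r hr
    exact (hasFDerivAt_slice (hr.differentiableAt (by simp))).fderiv
  have h6 : fderiv ℝ Ψ x = (fderiv ℝ (fderiv ℝ Φ) (s, x) (1, 0)) ∘L .inr ℝ ℝ E := by
    have h7 : ∀ᶠ y in 𝓝 x, Ψ y = fderiv ℝ Φ (s, y) (1, 0) := by
      have : Tendsto (fun y : E => (s, y)) (𝓝 x) (𝓝 (s, x)) :=
        (continuous_const.prodMk continuous_id).tendsto' _ _ rfl
      filter_upwards [this.eventually h1, hΨ] with y hy hy2
      exact hy2.unique (hasDerivAt_slice (hy.differentiableAt (by simp)))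
    have h8 : HasFDerivAt (fun y => fderiv ℝ Φ (s, y) (1, 0))
        ((fderiv ℝ (fderiv ℝ Φ) (s, x) ∘L .inr ℝ ℝ E).flip (1, 0)) x := by
      exact ((ContinuousLinearMap.apply ℝ F ((1 : ℝ), (0 : E))).hasFDerivAt).comp x
        (hasFDerivAt_slice h2)
    rw [(h8.congr_of_eventuallyEq h7).fderiv]
    refine ContinuousLinearMap.ext fun v => ?_
    have h9 : IsSymmSndFDerivAt ℝ Φ (s, x) := h.isSymmSndFDerivAt (by simp)
    exact h9 (0, v) (1, 0)
  rw [h6]
  exact h4.congr_of_eventuallyEq h5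

/-- **Variational equation.** -/
theorem variational {φ : ℝ → E → E} {f : E → E} {s : ℝ} {x : E}
    (hφ : ContDiffAt ℝ 2 (Function.uncurry φ) (s, x))
    (hode : ∀ᶠ y in 𝓝 x, HasDerivAt (fun r => φ r y) (f (φ s y)) s)
    (hf : DifferentiableAt ℝ f (φ s x)) :
    HasDerivAt (fun r => fderiv ℝ (φ r) x) (fderiv ℝ f (φ s x) ∘L fderiv ℝ (φ s) x) s := by
  have h1 : HasFDerivAt (φ s) (fderiv ℝ (φ s) x) x := by
    have h2 := hasFDerivAt_slice (hφ.differentiableAt (by simp))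
    exact h2.differentiableAt.hasFDerivAt
  have h3 : fderiv ℝ (fun y => f (φ s y)) x = fderiv ℝ f (φ s x) ∘L fderiv ℝ (φ s) x :=
    (hf.hasFDerivAt.comp x h1).fderiv
  rw [← h3]
  exact mixed hφ hode

/-- variational equation, applied to a vector -/
theorem variational_apply {φ : ℝ → E → E} {f : E → E} {s : ℝ} {x : E}
    (hφ : ContDiffAt ℝ 2 (Function.uncurry φ) (s, x))
    (hode : ∀ᶠ y in 𝓝 x, HasDerivAt (fun r => φ r y) (f (φ s y)) s)
    (hf : DifferentiableAt ℝ f (φ s x)) (v : E) :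
    HasDerivAt (fun r => fderiv ℝ (φ r) x v) (fderiv ℝ f (φ s x) (fderiv ℝ (φ s) x v)) s :=
  ((ContinuousLinearMap.apply ℝ E v).hasFDerivAt).comp_hasDerivAt s (variational hφ hode hf)

/-- the derivative of a flow is invertible -/
theorem flow_fderiv_comp {φ : ℝ → E → E} (hφ : Differentiable ℝ (Function.uncurry φ))
    (h0 : ∀ x, φ 0 x = x) (hadd : ∀ s t x, φ (s + t) x = φ s (φ t x)) (t : ℝ) (x : E) :
    fderiv ℝ (φ (-t)) (φ t x) ∘L fderiv ℝ (φ t) x = .id ℝ E ∧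
      fderiv ℝ (φ t) x ∘L fderiv ℝ (φ (-t)) (φ t x) = .id ℝ E := by
  have hd : ∀ t x, HasFDerivAt (φ t) (fderiv ℝ (φ t) x) x := fun t x =>
    (hasFDerivAt_slice (Φ := Function.uncurry φ) (hφ (t, x))).differentiableAt.hasFDerivAt
  have hinv : ∀ t y, φ (-t) (φ t y) = y := fun t y => by rw [← hadd, neg_add_cancel, h0]
  constructor
  · have h1 := (hd (-t) (φ t x)).comp x (hd t x)
    have h2 : (φ (-t) ∘ φ t) = id := funext fun y => hinv t y
    rw [h2] at h1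
    exact h1.unique (hasFDerivAt_id x)
  · have hx : φ (-t) (φ t x) = x := hinv t x
    have h1 : HasFDerivAt (φ t ∘ φ (-t)) (fderiv ℝ (φ t) x ∘L fderiv ℝ (φ (-t)) (φ t x)) (φ t x) := by
      have h3 := hd t (φ (-t) (φ t x))
      have h4 := h3.comp (φ t x) (hd (-t) (φ t x))
      rw [hx] at h4
      exact h4
    have h2 : (φ t ∘ φ (-t)) = id := funext fun y => by
      have := hinv (-t) y
      rw [neg_neg] at this
      exact this
    rw [h2] at h1
    exact h1.unique (hasFDerivAt_id _)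

end Var

end Pool.Agent.Work.MP_3b24f6_gt.Flow
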